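import Pool.Agent.Lib.MP_6e5bed_ag_NC.Cat
import Pool.Agent.Lib.MP_6e5bed_ag_CV.RTb
import Pool.Agent.Lib.MP_6e5bed_ag_CV.Ses

set_option autoImplicit false
set_option linter.unusedSectionVars false

/-!
# Classes of bimodules with a perfect resolution: products and isomorphisms (project KC, part B1)
-/

namespace Pool.Agent.MP_6e5bed_ag_NC

open scoped TensorProduct

universe u

variable {k : Type u} [Field k] {A B C A' B' : DGA k}

private theorem bcls_qiso {M P : Bim A B} {N Q : Bim A' B'} {φ : GMap 0 P M} (hφ : QIso φ)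
    {ψ : GMap 0 Q N} (hψ : QIso ψ) :
    QIso ((φ.boxR Q).comp (ψ.boxL M) (add_zero 0)) :=
  QIso.comp (RQIso.boxR ((rqiso_iff φ).2 hφ) Q).qiso (RQIso.boxL M ((rqiso_iff ψ).2 hψ)).qiso

/-- Over a field the external product of two quasi-isomorphisms is one (Künneth). -/
theorem HasRes.box {M : Bim A B} {N : Bim A' B'} (hM : HasRes M) (hN : HasRes N) :
    HasRes (box M N) := by
  obtain ⟨P, φ, hP, hφ⟩ := hM
  obtain ⟨Q, ψ, hQ, hψ⟩ := hN
  exact ⟨MP_6e5bed_ag_NC.box P Q, (φ.boxR Q).comp (ψ.boxL M) (add_zero 0), Perf.box hP hQ,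
    bcls_qiso hφ hψ⟩

theorem rcls_box {M : Bim A B} {N : Bim A' B'} (hM : HasRes M) (hN : HasRes N)
    (h : HasRes (box M N)) : rcls (box M N) h = K0Q.box (rcls M hM) (rcls N hN) := by
  obtain ⟨P, φ, hP, hφ⟩ := id hM
  obtain ⟨Q, ψ, hQ, hψ⟩ := id hN
  rw [rcls_eq hM hP φ hφ, rcls_eq hN hQ ψ hψ, K0Q.box_cls hP hQ,
    rcls_eq h (Perf.box hP hQ) ((φ.boxR Q).comp (ψ.boxL M) (add_zero 0))
      (bcls_qiso hφ hψ)]

private theorem bcls_res (φ : DIso A A') (ψ : DIso B B') {M P : Bim A' B'} {f : GMap 0 P M}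
    (hf : QIso f) : QIso (f.res φ.hom ψ.hom) := hf

theorem HasRes.resIso (φ : DIso A A') (ψ : DIso B B') {M : Bim A' B'} (hM : HasRes M) :
    HasRes (res φ.hom ψ.hom M) := by
  obtain ⟨P, f, hP, hf⟩ := hM
  exact ⟨res φ.hom ψ.hom P, f.res φ.hom ψ.hom, K0Q.res_perf φ ψ hP, bcls_res φ ψ hf⟩

theorem rcls_resIso (φ : DIso A A') (ψ : DIso B B') {M : Bim A' B'} (hM : HasRes M)
    (h : HasRes (res φ.hom ψ.hom M)) : rcls (res φ.hom ψ.hom M) h = K0Q.res φ ψ (rcls M hM) := by
  obtain ⟨P, f, hP, hf⟩ := id hM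
  rw [rcls_eq hM hP f hf, K0Q.res_cls φ ψ hP,
    rcls_eq h (K0Q.res_perf φ ψ hP) (f.res φ.hom ψ.hom) (bcls_res φ ψ hf)]

/-- The class of a bimodule; zero if it has no perfect resolution. -/
noncomputable def ecl (M : Bim A B) : K0Q A B := by
  classical
  exact if h : HasRes M then rcls M h else 0

theorem ecl_eq {M : Bim A B} (h : HasRes M) : ecl M = rcls M h := by
  classical
  exact dif_pos h

private theorem ecl_no {M : Bim A B} (h : ¬ HasRes M) : ecl M = 0 := by
  classical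
  exact dif_neg h

theorem ecl_iso {M N : Bim A B} (h : BIso M N) : ecl M = ecl N := by
  by_cases hM : HasRes M
  · have hN : HasRes N := hM.iso h
    rw [ecl_eq hM, ecl_eq hN]
    exact rcls_iso h hM hN
  · have hN : ¬ HasRes N := fun hN => hM (hN.iso h.symm)
    rw [ecl_no hM, ecl_no hN]

theorem ecl_qiso {M N : Bim A B} (φ : GMap 0 M N) (h : QIso φ) : ecl M = ecl N := by
  by_cases hM : HasRes M
  · have hN : HasRes N := hM.of_qiso φ h
    rw [ecl_eq hM, ecl_eq hN]
    exact rcls_qiso hM hN φ h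
  · have hN : ¬ HasRes N := fun hN => hM (hN.of_qiso' φ h)
    rw [ecl_no hM, ecl_no hN]

theorem ecl_acyc {M : Bim A B} (h : Acyc M) : ecl M = 0 := by
  rw [ecl_eq (HasRes.of_acyc h)]
  exact rcls_acyc h _

theorem ecl_ses {M' M M'' : Bim A B} (h : IsSes M' M M'') (h' : HasRes M') (h'' : HasRes M'') :
    ecl M = ecl M' + ecl M'' := by
  rw [ecl_eq h', ecl_eq h'', ecl_eq (h.mid h' h'')]
  exact h.rcls h' _ h''

theorem ecl_box {M : Bim A B} {N : Bim A' B'} (hM : HasRes M) (hN : HasRes N) :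
    ecl (box M N) = K0Q.box (ecl M) (ecl N) := by
  rw [ecl_eq hM, ecl_eq hN, ecl_eq (hM.box hN)]
  exact rcls_box hM hN _

private theorem bcls_resres (φ : DIso A A') (ψ : DIso B B') (M : Bim A' B') :
    BIso (res φ.symm.hom ψ.symm.hom (res φ.hom ψ.hom M)) M := by
  refine BIso.of_bij ⟨LinearMap.id, fun {i m} h => ?_, fun a m => ?_, fun b m => ?_⟩ ?_ ?_
  · rw [add_zero]
    exact h
  · rw [Dg.sp_even Even.zero]
    change M.l (φ.hom.f (φ.inv.f a)) m = M.l a m
    rw [φ.inv_hom]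
  · change M.r (ψ.hom.f (ψ.inv.f b)) m = M.r b m
    rw [ψ.inv_hom]
  · refine LinearMap.ext fun x => ?_
    change M.dg.d x - (sg 0) • M.dg.d x = 0
    rw [sg, if_pos Even.zero, one_smul, sub_self]
  · exact Function.bijective_id

theorem ecl_resIso (φ : DIso A A') (ψ : DIso B B') (M : Bim A' B') :
    ecl (res φ.hom ψ.hom M) = K0Q.res φ ψ (ecl M) := by
  by_cases hM : HasRes M
  · rw [ecl_eq hM, ecl_eq (hM.resIso φ ψ)]
    exact rcls_resIso φ ψ hM _
  · have hN : ¬ HasRes (res φ.hom ψ.hom M) := fun hN =>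
      hM ((hN.resIso φ.symm ψ.symm).iso (bcls_resres φ ψ M))
    rw [ecl_no hM, ecl_no hN, map_zero]

/-- `X ⊗_W Y` for `W` the base field. -/
theorem ecl_tb_base {X : Bim A (base k)} {Y : Bim (base k) B} (hX : HasRes X) (hY : HasRes Y) :
    ecl (tb X Y) = K0Q.comp proper_base (ecl X) (ecl Y) := by
  rw [ecl_eq hX, ecl_eq hY, ecl_eq (HasRes.tb proper_base hX hY (rflat_base X))]
  exact (rcls_tb proper_base hX hY (rflat_base X) _).symm

private noncomputable def bclsF (X : Bim A (base k)) (Y : Bim (base k) B) :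
    X.M ⊗[k] Y.M →ₗ[k] (tb X Y).M := (rel X Y).mkQ

private theorem bcls_l (X : Bim A (base k)) (Y : Bim (base k) B) (a : A.A)
    (m : X.M ⊗[k] Y.M) :
    bclsF X Y (kz X.dg (base k).dg X.l Y.l (a ⊗ₜ (base k).one) m) =
      (tb X Y).l a (bclsF X Y m) := by
  induction m using TensorProduct.induction_on with
  | zero => simp
  | add x y hx hy => simp only [map_add, hx, hy]
  | tmul x y =>
    rw [kz_even (base k).o_one, Y.l_one]
    exact (tb_l (M := X) (N := Y) a x y).symm

private theorem bcls_r (X : Bim A (base k)) (Y : Bim (base k) B) (b : B.A)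
    (m : X.M ⊗[k] Y.M) :
    bclsF X Y (kz (base k).dg Y.dg X.rr Y.rr m ((base k).one ⊗ₜ b)) =
      (tb X Y).r b (bclsF X Y m) := by
  induction m using TensorProduct.induction_on with
  | zero => simp
  | add x y hx hy => simp only [map_add, LinearMap.add_apply, hx, hy]
  | tmul x y =>
    rw [kz_tmul, (base k).o_one, map_zero, TensorProduct.zero_tmul, smul_zero, sub_zero,
      Bim.rr_apply, Bim.rr_apply, X.r_one]
    exact (tb_r (M := X) (N := Y) b x y).symm

private theorem bcls_d (X : Bim A (base k)) (Y : Bim (base k) B) (m : X.M ⊗[k] Y.M) :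
    (tb X Y).dg.d (bclsF X Y m) = bclsF X Y ((X.dg.tensor Y.dg).d m) := by
  induction m using TensorProduct.induction_on with
  | zero => simp
  | add x y hx hy => simp only [map_add, hx, hy]
  | tmul x y =>
    rw [Dg.tensor_d, map_add]
    exact tb_d x y

/-- An external product of one-sided modules over the base field is their tensor product. -/
theorem box_base (X : Bim A (base k)) (Y : Bim (base k) B) :
    BIso (res (runitIso A).inv (lunitIso B).inv (box X Y)) (tb X Y) := by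
  refine BIso.of_bij ⟨bclsF X Y, fun {i m} h => ?_, fun a m => ?_, fun b m => ?_⟩ ?_ ?_
  · exact Dg.tensor_degMap (X := X.dg) (Y := Y.dg) (Z := (tb X Y).dg) (n := 0) (bclsF X Y)
      (fun i j v w hv hw => by
        rw [add_zero]
        exact tb_deg hv hw) h
  · rw [Dg.sp_even Even.zero]
    exact bcls_l X Y a m
  · exact bcls_r X Y b m
  · refine LinearMap.ext fun x => ?_
    have h := bcls_d X Y x
    change (tb X Y).dg.d (bclsF X Y x) - (sg 0) • bclsF X Y ((X.dg.tensor Y.dg).d x) = 0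
    rw [h, sg, if_pos Even.zero, one_smul, sub_self]
  · refine ⟨?_, (rel X Y).mkQ_surjective⟩
    change Function.Injective (rel X Y).mkQ
    rw [← LinearMap.ker_eq_bot, Submodule.ker_mkQ, eq_bot_iff]
    intro x hx
    refine rel_ind X Y (P := fun x => x = 0) rfl ?_ ?_ hx
    · intro x y hx hy
      rw [hx, hy, add_zero]
    · intro m b n
      rw [base_r (k := k) X b m, base_l (k := k) Y b n, sub_eq_zero]
      exact TensorProduct.smul_tmul _ _ _

end Pool.Agent.MP_6e5bed_ag_NC
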