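import Pool.Agent.Lib.MP_6e5bed_ag_KC.BPow
import Pool.Agent.Lib.MP_6e5bed_ag_KC.BCls

set_option autoImplicit false
set_option linter.unusedSectionVars false

/-!
# The functors `M ↦ Z^{⊠p} ⊗ M ⊗ Z'^{⊠q}` (project KC, part B1)
-/

namespace Pool.Agent.MP_6e5bed_ag_NC

universe u

variable {k : Type u} [Field k] {W G G' W' : DGA k}

/-- The functor `M ↦ Z^{⊠p} ⊗ M ⊗ Z'^{⊠q}`. -/
noncomputable def Cc (Z : Bim W G) (Z' : Bim G' W') (p q : ℕ) :
    DGFun (pw G p) (pw G' q) (pw W p) (pw W' q) :=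
  (tbL (bx Z p) (pw G' q)).comp (tbR (pw W p) (bx Z' q))

/-- The functor `M ↦ Z ⊗ M ⊗ Z'`. -/
noncomputable def C1 (Z : Bim W G) (Z' : Bim G' W') : DGFun G G' W W' :=
  (tbL Z G').comp (tbR W Z')

/-- Insertion of a left module in the first place. -/
noncomputable def insL {H K' K : DGA k} (X : Bim H (base k)) (M : Bim K K') :
    Bim (H.tensor K) K' :=
  res (DHom.id (H.tensor K)) (lunitIso K').inv (box X M)

/-- Insertion of a right module in the first place. -/
noncomputable def insR {H K' K : DGA k} (X : Bim (base k) H) (M : Bim K K') :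
    Bim K (H.tensor K') :=
  res (lunitIso K).inv (DHom.id (H.tensor K')) (box X M)

section aux

variable {A B C D E H H' K K' L : DGA k}

private theorem BCc_res_right (ψ : DHom D C) (M : Bim A B) (N : Bim B C) :
    BIso (tb M (res (DHom.id B) ψ N)) (res (DHom.id A) ψ (tb M N)) :=
  (res_tb (DHom.id A) ψ M N).symm

private theorem BCc_res_left (φ : DHom D A) (M : Bim A B) (N : Bim B C) :
    BIso (tb (res φ (DHom.id B) M) N) (res φ (DHom.id C) (tb M N)) :=
  (res_tb φ (DHom.id C) M N).symm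

private theorem BCc_inv_hom (φ : DIso A B) : φ.inv.comp φ.hom = DHom.id B :=
  DHom.ext fun a => φ.inv_hom a

/-- `(X ⊠ M) ⊗ N = X ⊠ (M ⊗ N)` for a left module `X`. -/
private theorem BCc_insL_tb (X : Bim H (base k)) (M : Bim K K') (N : Bim K' L) :
    BIso (tb (insL X M) N) (insL X (tb M N)) := by
  have h0 : res (lunitIso K').symm.hom (DHom.id L) (res (lunitIso K').hom (DHom.id L) N) = N := by
    change res ((lunitIso K').inv.comp (lunitIso K').hom) (DHom.id L) N = N
    rw [BCc_inv_hom]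
    rfl
  have h1 : BIso (tb (insL X M) N) (tb (box X M) (res (lunitIso K').hom (DHom.id L) N)) := by
    have h := tb_res_mid (lunitIso K').symm (box X M) (res (lunitIso K').hom (DHom.id L) N)
    rw [h0] at h
    exact h
  have h2 : BIso (res (lunitIso K').hom (DHom.id L) N)
      (res (DHom.id ((base k).tensor K')) (lunitIso L).inv (box (diag (base k)) N)) := by
    have h := (resF (DHom.id ((base k).tensor K')) (lunitIso L).inv).biso (box_lunit N)
    have h' : res (DHom.id ((base k).tensor K')) (lunitIso L).inv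
        (res (lunitIso K').hom (lunitIso L).hom N) = res (lunitIso K').hom (DHom.id L) N := by
      change res (lunitIso K').hom ((lunitIso L).inv.comp (lunitIso L).hom) N = _
      rw [BCc_inv_hom]
    change BIso (res (DHom.id ((base k).tensor K')) (lunitIso L).inv
        (res (lunitIso K').hom (lunitIso L).hom N)) _ at h
    rw [h'] at h
    exact h
  have h3 : BIso (tb (box X M) (box (diag (base k)) N)) (box X (tb M N)) :=
    (tb_box_box X M (diag (base k)) N).trans
      ((boxR H (base k) (tb M N)).biso (tb_diag_right X))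
  exact h1.trans (((tbL (box X M) L).biso h2).trans
    ((BCc_res_right (lunitIso L).inv (box X M) (box (diag (base k)) N)).trans
      ((resF (DHom.id (H.tensor K)) (lunitIso L).inv).biso h3)))

/-- `(Y ⊠ N) ⊗ (X ⊠ M) = (Y ⊗ X) ⊠ (N ⊗ M)` for a left module `X`. -/
private theorem BCc_tb_insL (Y : Bim H' H) (N : Bim L K) (X : Bim H (base k)) (M : Bim K K') :
    BIso (tb (box Y N) (insL X M)) (insL (tb Y X) (tb N M)) :=
  (BCc_res_right (lunitIso K').inv (box Y N) (box X M)).trans
    ((resF (DHom.id (H'.tensor L)) (lunitIso K').inv).biso (tb_box_box Y N X M))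

/-- `N ⊗ (X ⊠ M) = X ⊠ (N ⊗ M)` for a right module `X`. -/
private theorem BCc_tb_insR (N : Bim L K) (X : Bim (base k) H) (M : Bim K K') :
    BIso (tb N (insR X M)) (insR X (tb N M)) := by
  have h0 : res (DHom.id L) (lunitIso K).symm.hom (res (DHom.id L) (lunitIso K).hom N) = N := by
    change res (DHom.id L) ((lunitIso K).inv.comp (lunitIso K).hom) N = N
    rw [BCc_inv_hom]
    rfl
  have h1 : BIso (tb N (insR X M)) (tb (res (DHom.id L) (lunitIso K).hom N) (box X M)) := by
    have h := tb_res_mid (lunitIso K).symm (res (DHom.id L) (lunitIso K).hom N) (box X M)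
    rw [h0] at h
    exact h
  have h2 : BIso (res (DHom.id L) (lunitIso K).hom N)
      (res (lunitIso L).inv (DHom.id ((base k).tensor K)) (box (diag (base k)) N)) := by
    have h := (resF (lunitIso L).inv (DHom.id ((base k).tensor K))).biso (box_lunit N)
    have h' : res (lunitIso L).inv (DHom.id ((base k).tensor K))
        (res (lunitIso L).hom (lunitIso K).hom N) = res (DHom.id L) (lunitIso K).hom N := by
      change res ((lunitIso L).inv.comp (lunitIso L).hom) (lunitIso K).hom N = _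
      rw [BCc_inv_hom]
    change BIso (res (lunitIso L).inv (DHom.id ((base k).tensor K))
        (res (lunitIso L).hom (lunitIso K).hom N)) _ at h
    rw [h'] at h
    exact h
  have h3 : BIso (tb (box (diag (base k)) N) (box X M)) (box X (tb N M)) :=
    (tb_box_box (diag (base k)) N X M).trans
      ((boxR (base k) H (tb N M)).biso (tb_diag_left X))
  exact h1.trans (((tbR L (box X M)).biso h2).trans
    ((BCc_res_left (lunitIso L).inv (box (diag (base k)) N) (box X M)).trans
      ((resF (lunitIso L).inv (DHom.id (H.tensor K'))).biso h3)))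

/-- `(X ⊠ M) ⊗ (Y ⊠ N) = (X ⊗ Y) ⊠ (M ⊗ N)` for a right module `X`. -/
private theorem BCc_insR_tb (X : Bim (base k) H) (M : Bim K K') (Y : Bim H H') (N : Bim K' L) :
    BIso (tb (insR X M) (box Y N)) (insR (tb X Y) (tb M N)) :=
  (BCc_res_left (lunitIso K).inv (box X M) (box Y N)).trans
    ((resF (lunitIso K).inv (DHom.id (H'.tensor L))).biso (tb_box_box X M Y N))

/-- A bimodule invariant under `φ` and `ψ` exchanges the restrictions (on the left). -/
private theorem BCc_exL (φ : DIso A A) (ψ : DIso B B) (Y : Bim A B) (M : Bim B C)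
    (h : BIso (res φ.hom ψ.hom Y) Y) :
    BIso (tb Y (res ψ.hom (DHom.id C) M)) (res φ.hom (DHom.id C) (tb Y M)) := by
  have h1 : BIso (tb Y (res ψ.hom (DHom.id C) M))
      (tb (res (DHom.id A) ψ.hom (res φ.hom (DHom.id B) Y)) (res ψ.hom (DHom.id C) M)) :=
    (tbR A (res ψ.hom (DHom.id C) M)).biso h.symm
  exact h1.trans ((tb_res_mid ψ (res φ.hom (DHom.id B) Y) M).trans (BCc_res_left φ.hom Y M))

/-- A bimodule invariant under `φ` and `ψ` exchanges the restrictions (on the right). -/
private theorem BCc_exR (φ : DIso B B) (ψ : DIso C C) (Y : Bim B C) (M : Bim A B)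
    (h : BIso (res φ.hom ψ.hom Y) Y) :
    BIso (tb (res (DHom.id A) φ.hom M) Y) (res (DHom.id A) ψ.hom (tb M Y)) := by
  have h1 : BIso (tb (res (DHom.id A) φ.hom M) Y)
      (tb (res (DHom.id A) φ.hom M) (res φ.hom (DHom.id C) (res (DHom.id B) ψ.hom Y))) :=
    (tbL (res (DHom.id A) φ.hom M) C).biso h.symm
  exact h1.trans ((tb_res_mid φ M (res (DHom.id B) ψ.hom Y)).trans (BCc_res_right ψ.hom M Y))

end aux

variable (Z : Bim W G) (Z' : Bim G' W')

theorem Cc_obj (p q : ℕ) (M : Bim (pw G p) (pw G' q)) :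
    (Cc Z Z' p q).obj M = tb (tb (bx Z p) M) (bx Z' q) := rfl

theorem Cc_zero (M : Bim (base k) (base k)) : BIso ((Cc Z Z' 0 0).obj M) M :=
  (tb_diag_right (tb (diag (base k)) M)).trans (tb_diag_left M)

/-- Products. -/
theorem Cc_box (p q : ℕ) (M : Bim G G') (M' : Bim (pw G p) (pw G' q)) :
    BIso ((Cc Z Z' (p + 1) (q + 1)).obj (box M M'))
      (box ((C1 Z Z').obj M) ((Cc Z Z' p q).obj M')) :=
  ((tbR (pw W (p + 1)) (bx Z' (q + 1))).biso (tb_box_box Z (bx Z p) M M')).trans
    (tb_box_box (tb Z M) (tb (bx Z p) M') Z' (bx Z' q))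

theorem Cc_insL (p q : ℕ) (X : Bim G (base k)) (M' : Bim (pw G p) (pw G' q)) :
    BIso ((Cc Z Z' (p + 1) q).obj (insL X M')) (insL (tb Z X) ((Cc Z Z' p q).obj M')) :=
  ((tbR (pw W (p + 1)) (bx Z' q)).biso (BCc_tb_insL Z (bx Z p) X M')).trans
    (BCc_insL_tb (tb Z X) (tb (bx Z p) M') (bx Z' q))

theorem Cc_insR (p q : ℕ) (X : Bim (base k) G') (M' : Bim (pw G p) (pw G' q)) :
    BIso ((Cc Z Z' p (q + 1)).obj (insR X M')) (insR (tb X Z') ((Cc Z Z' p q).obj M')) :=
  ((tbR (pw W p) (bx Z' (q + 1))).biso (BCc_tb_insR (bx Z p) X M')).trans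
    (BCc_insR_tb X (tb (bx Z p) M') Z' (bx Z' q))

/-- Exchange of two variables. -/
theorem Cc_adjL (p q i : ℕ) (M : Bim (pw G p) (pw G' q)) :
    BIso ((Cc Z Z' p q).obj (res (adjD G p i).hom (DHom.id _) M))
      (res (adjD W p i).hom (DHom.id _) ((Cc Z Z' p q).obj M)) :=
  ((tbR (pw W p) (bx Z' q)).biso
    (BCc_exL (adjD W p i) (adjD G p i) (bx Z p) M (bx_adj Z p i))).trans
    (BCc_res_left (adjD W p i).hom (tb (bx Z p) M) (bx Z' q))

theorem Cc_adjR (p q i : ℕ) (M : Bim (pw G p) (pw G' q)) :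
    BIso ((Cc Z Z' p q).obj (res (DHom.id _) (adjD G' q i).hom M))
      (res (DHom.id _) (adjD W' q i).hom ((Cc Z Z' p q).obj M)) :=
  ((tbR (pw W p) (bx Z' q)).biso
    (BCc_res_right (adjD G' q i).hom (bx Z p) M)).trans
    (BCc_exR (adjD G' q i) (adjD W' q i) (bx Z' q) (tb (bx Z p) M) (bx_adj Z' q i))

end Pool.Agent.MP_6e5bed_ag_NC
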