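import Pool.Agent.Lib.MP_6e5bed_ag_KC.BSys
import Pool.Agent.Lib.MP_6e5bed_ag_KC.BCc

set_option autoImplicit false
set_option linter.unusedSectionVars false

/-!
# The double Čech complex of the diagonal (project KC, part B3)

`Phi` describes `C1` of the structure sheaf of the diagonal, `Z ⊗ B ⊗ Z'`, as the double Čech
complex with components `End (V.cp (jn α β))`, `α, β : Fin 3`; the components `α, β ∈ {0, 1}` have
degree 0, those with exactly one index 2 have degree 1, and (2, 2) has degree 2.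
-/

namespace Pool.Agent.MP_6e5bed_ag_KC

open RatFunc Pool.Agent.MP_6e5bed_ag_NC

universe u

variable {k : Type u} [Field k] {D : FExt k} {F : LSp D}

/-- The product of a row, a matrix and a column: `x ↦ ∑ m a b • w' b x • w a`. -/
noncomputable def pr3 (F : LSp D) : (Fin 3 → F.F) →ₗ[k] (Fin 3 → Fin 3 → D.L) →ₗ[k]
    (Fin 3 → (F.F →ₗ[D.L] D.L)) →ₗ[k] Module.End D.L F.F :=
  LinearMap.mk₂ k (fun w m =>
    { toFun := fun w' => ∑ a, ∑ b, m a b • (w' b).smulRight (w a)
      map_add' := by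
        intro x y
        refine LinearMap.ext fun v => ?_
        simp only [LinearMap.sum_apply, LinearMap.smul_apply, LinearMap.smulRight_apply,
          LinearMap.add_apply, Pi.add_apply, add_smul, smul_add, Finset.sum_add_distrib]
      map_smul' := by
        intro c x
        refine LinearMap.ext fun v => ?_
        simp only [LinearMap.sum_apply, LinearMap.smul_apply, LinearMap.smulRight_apply,
          Pi.smul_apply, RingHom.id_apply, smul_assoc, Finset.smul_sum]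
        refine Finset.sum_congr rfl fun a _ => Finset.sum_congr rfl fun b _ => ?_
        exact smul_comm _ _ _ })
    (by
      intro w w' m
      refine LinearMap.ext fun x => LinearMap.ext fun v => ?_
      simp only [LinearMap.coe_mk, AddHom.coe_mk, LinearMap.sum_apply, LinearMap.smul_apply,
        LinearMap.smulRight_apply, LinearMap.add_apply, Pi.add_apply, smul_add,
        Finset.sum_add_distrib])
    (by
      intro c w m
      refine LinearMap.ext fun x => LinearMap.ext fun v => ?_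
      simp only [LinearMap.coe_mk, AddHom.coe_mk, LinearMap.sum_apply, LinearMap.smul_apply,
        LinearMap.smulRight_apply, Pi.smul_apply, Finset.smul_sum]
      refine Finset.sum_congr rfl fun a _ => Finset.sum_congr rfl fun b _ => ?_
      rw [smul_comm (x b v) c (w a), smul_comm (m a b) c])
    (by
      intro w m m'
      refine LinearMap.ext fun x => LinearMap.ext fun v => ?_
      simp only [LinearMap.coe_mk, AddHom.coe_mk, LinearMap.sum_apply, LinearMap.smul_apply,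
        LinearMap.smulRight_apply, LinearMap.add_apply, Pi.add_apply, add_smul,
        Finset.sum_add_distrib])
    (by
      intro c w m
      refine LinearMap.ext fun x => LinearMap.ext fun v => ?_
      simp only [LinearMap.coe_mk, AddHom.coe_mk, LinearMap.sum_apply, LinearMap.smul_apply,
        LinearMap.smulRight_apply, Pi.smul_apply, Finset.smul_sum, smul_assoc])

theorem pr3_apply (w : Fin 3 → F.F) (m : Fin 3 → Fin 3 → D.L) (w' : Fin 3 → (F.F →ₗ[D.L] D.L)) :
    pr3 F w m w' = ∑ a, ∑ b, m a b • (w' b).smulRight (w a) := rfl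

theorem pr3_apply' (w : Fin 3 → F.F) (m : Fin 3 → Fin 3 → D.L) (w' : Fin 3 → (F.F →ₗ[D.L] D.L))
    (x : F.F) : pr3 F w m w' x = ∑ a, ∑ b, m a b • w' b x • w a := by
  rw [pr3_apply]
  simp only [LinearMap.sum_apply, LinearMap.smul_apply, LinearMap.smulRight_apply]

theorem pr3_bal (V : LP k F.F) (w : Fin 3 → F.F) (g : Gam D) (m : Fin 3 → Fin 3 → D.L)
    (w' : Fin 3 → (F.F →ₗ[D.L] D.L)) :
    pr3 F ((rowE V).r g w) m w' = pr3 F w ((matE (LLd D)).l g m) w' := by
  refine LinearMap.ext fun x => ?_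
  rw [pr3_apply', pr3_apply']
  change ∑ a, ∑ b, m a b • w' b x • (∑ i, g.1 i a • w i) =
    ∑ a, ∑ b, (∑ c, g.1 a c * m c b) • w' b x • w a
  simp only [Finset.smul_sum, Finset.sum_smul, smul_smul, Finset.sum_mul]
  have h1 : ∀ a : Fin 3, ∑ b, ∑ i, (m a b * (w' b x * g.1 i a)) • w i =
      ∑ i, ∑ b, (m a b * (w' b x * g.1 i a)) • w i := fun a => Finset.sum_comm
  have h2 : ∀ a : Fin 3, ∑ b, ∑ c, (g.1 a c * m c b * w' b x) • w a =
      ∑ c, ∑ b, (g.1 a c * m c b * w' b x) • w a := fun a => Finset.sum_comm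
  rw [Finset.sum_congr rfl fun a _ => h1 a, Finset.sum_congr rfl fun a _ => h2 a,
    Finset.sum_comm]
  refine Finset.sum_congr rfl fun a _ => Finset.sum_congr rfl fun c _ =>
    Finset.sum_congr rfl fun b _ => ?_
  congr 1
  ring

theorem pr3_bal' (V : LP k F.F) (w : Fin 3 → F.F) (g : Gam' D) (m : Fin 3 → Fin 3 → D.L)
    (w' : Fin 3 → (F.F →ₗ[D.L] D.L)) :
    pr3 F w ((matE (LLd D)).r g m) w' = pr3 F w m ((colE V).l g w') := by
  refine LinearMap.ext fun x => ?_
  rw [pr3_apply', pr3_apply']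
  change ∑ a, ∑ b, (∑ c, g.1 c b * m a c) • w' b x • w a =
    ∑ a, ∑ b, m a b • (∑ j, g.1 b j • w' j) x • w a
  simp only [LinearMap.sum_apply, LinearMap.smul_apply, Finset.smul_sum, Finset.sum_smul,
    smul_smul, smul_eq_mul, Finset.sum_mul]
  refine Finset.sum_congr rfl fun a _ => ?_
  rw [Finset.sum_comm]
  refine Finset.sum_congr rfl fun c _ => Finset.sum_congr rfl fun b _ => ?_
  congr 1
  ring

theorem pr3_l (V : LP k F.F) (a : EA01 V) (w : Fin 3 → F.F) (m : Fin 3 → Fin 3 → D.L)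
    (w' : Fin 3 → (F.F →ₗ[D.L] D.L)) : pr3 F ((rowE V).l a w) m w' = a.1 * pr3 F w m w' := by
  refine LinearMap.ext fun x => ?_
  rw [Module.End.mul_apply, pr3_apply', pr3_apply']
  change ∑ i, ∑ b, m i b • w' b x • a.1 (w i) = a.1 (∑ i, ∑ b, m i b • w' b x • w i)
  simp only [map_sum, map_smul]

theorem pr3_r (V : LP k F.F) (a : EA01 V) (w : Fin 3 → F.F) (m : Fin 3 → Fin 3 → D.L)
    (w' : Fin 3 → (F.F →ₗ[D.L] D.L)) : pr3 F w m ((colE V).r a w') = pr3 F w m w' * a.1 := by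
  refine LinearMap.ext fun x => ?_
  rw [Module.End.mul_apply, pr3_apply', pr3_apply']
  rfl

/-- The endomorphisms of `F` which preserve the component `c` of `V`. -/
noncomputable def EAc (V : LP k F.F) (c : Fin 3) : Submodule k (Module.End D.L F.F) where
  carrier := {f | ∀ v ∈ V.cp c, f v ∈ V.cp c}
  add_mem' := fun {_ _} hf hg v hv => (V.cp c).add_mem (hf v hv) (hg v hv)
  zero_mem' := fun _ _ => (V.cp c).zero_mem
  smul_mem' := fun r _ hf v hv => (V.cp c).smul_mem r (hf v hv)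

private theorem BAWa_jn {a b α β : Fin 3} (h : Le3 a α) (h' : Le3 b β) :
    Le3 (jn a b) (jn α β) := by
  revert a b α β
  decide

private theorem BAWa_dual (V : LP k F.F) (c : Fin 3) {f : F.F →ₗ[D.L] D.L}
    (hf : f ∈ LP.cp (E := F.dual.F) V.dual c) {v : F.F} (hv : v ∈ V.cp c) : f v ∈ BB D c := by
  fin_cases c
  · exact (LP.mem_dual_N0 V f).1 hf v hv
  · exact (LP.mem_dual_N1 V f).1 hf v hv
  · exact (LP.mem_hom_N01 (F' := LSp.one D) V (LP.OO D) f).1 hf v hv

theorem pr3_mem {V : LP k F.F} (hV : BSt V) {α β : Fin 3} {w : Fin 3 → F.F} (hw : w ∈ rowN V α)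
    {m : Fin 3 → Fin 3 → D.L} (hm : m ∈ (Bv D).N) {w' : Fin 3 → (F.F →ₗ[D.L] D.L)}
    (hw' : w' ∈ colN V β) : pr3 F w m w' ∈ EAc V (jn α β) := by
  intro v hv
  rw [pr3_apply']
  refine Submodule.sum_mem _ fun a _ => Submodule.sum_mem _ fun b _ => ?_
  by_cases ha : Le3 a α
  · by_cases hb : Le3 b β
    · have h1 : w a ∈ V.cp (jn α β) := cp_mono V (le_jn_left α β) (hw a).1
      have h2 : w' b ∈ LP.cp (E := F.dual.F) V.dual (jn α β) :=
        cp_mono (F := F.dual) V.dual (le_jn_right α β) (hw' b).1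
      have h3 : m a b ∈ BB D (jn α β) := BB_mono D (BAWa_jn ha hb) (hm a b)
      exact hV _ _ h3 _ (hV _ _ (BAWa_dual V _ h2 hv) _ h1)
    · rw [(hw' b).2 hb, LinearMap.zero_apply, zero_smul, smul_zero]
      exact Submodule.zero_mem _
  · rw [(hw a).2 ha, smul_zero, smul_zero]
    exact Submodule.zero_mem _

/-- The components of the Čech bimodule. -/
noncomputable def cz (V : LP k F.F) (hV : BSt V) : Fin 3 → (ZL V hV).M →ₗ[k] (Fin 3 → F.F) :=
  ![(rowN V 0).subtype ∘ₗ LinearMap.fst k (rowN V 0) (rowN V 1) ∘ₗ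
      LinearMap.fst k (rowN V 0 × rowN V 1) (rowN V 2),
    (rowN V 1).subtype ∘ₗ LinearMap.snd k (rowN V 0) (rowN V 1) ∘ₗ
      LinearMap.fst k (rowN V 0 × rowN V 1) (rowN V 2),
    (rowN V 2).subtype ∘ₗ LinearMap.snd k (rowN V 0 × rowN V 1) (rowN V 2)]

/-- The components of the Čech bimodule. -/
noncomputable def cz' (V : LP k F.F) : Fin 3 → (ZR V).M →ₗ[k] (Fin 3 → (F.F →ₗ[D.L] D.L)) :=
  ![(colN V 0).subtype ∘ₗ LinearMap.fst k (colN V 0) (colN V 1) ∘ₗ
      LinearMap.fst k (colN V 0 × colN V 1) (colN V 2),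
    (colN V 1).subtype ∘ₗ LinearMap.snd k (colN V 0) (colN V 1) ∘ₗ
      LinearMap.fst k (colN V 0 × colN V 1) (colN V 2),
    (colN V 2).subtype ∘ₗ LinearMap.snd k (colN V 0 × colN V 1) (colN V 2)]

theorem cz_mem (V : LP k F.F) (hV : BSt V) (c : Fin 3) (z : (ZL V hV).M) :
    cz V hV c z ∈ rowN V c := by
  fin_cases c
  · exact (z : (rowN V 0 × rowN V 1) × rowN V 2).1.1.2
  · exact (z : (rowN V 0 × rowN V 1) × rowN V 2).1.2.2
  · exact (z : (rowN V 0 × rowN V 1) × rowN V 2).2.2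

theorem cz'_mem (V : LP k F.F) (c : Fin 3) (z : (ZR V).M) : cz' V c z ∈ colN V c := by
  fin_cases c
  · exact (z : (colN V 0 × colN V 1) × colN V 2).1.1.2
  · exact (z : (colN V 0 × colN V 1) × colN V 2).1.2.2
  · exact (z : (colN V 0 × colN V 1) × colN V 2).2.2

/-- The bimodule `C1` of the structure sheaf of the diagonal. -/
noncomputable abbrev CB (V : LP k F.F) (hV : BSt V) : Bim (endCosp V).cech (endCosp V).cech :=
  (C1 (ZL V hV) (ZR V)).obj (Bv D).kbi.bim

/-- The element `z ⊗ m ⊗ z'`. -/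
noncomputable def tt3 (V : LP k F.F) (hV : BSt V) (z : (ZL V hV).M) (m : (Bv D).N)
    (z' : (ZR V).M) : (CB V hV).M :=
  tm (M := tb (ZL V hV) (Bv D).kbi.bim) (N := ZR V) (tm (M := ZL V hV) (N := (Bv D).kbi.bim) z m)
    z'

theorem CB_ind (V : LP k F.F) (hV : BSt V) {P : (CB V hV).M → Prop} (h0 : P 0)
    (hadd : ∀ x y, P x → P y → P (x + y)) (h : ∀ z m z', P (tt3 V hV z m z')) (x : (CB V hV).M) :
    P x := by
  refine tb_ind (M := tb (ZL V hV) (Bv D).kbi.bim) (N := ZR V) (P := P) h0 hadd ?_ x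
  intro y z'
  refine tb_ind (M := ZL V hV) (N := (Bv D).kbi.bim)
    (P := fun y => P (tm (M := tb (ZL V hV) (Bv D).kbi.bim) (N := ZR V) y z')) ?_ ?_ ?_ y
  · rw [tm_zero_left]
    exact h0
  · intro a b ha hb
    rw [tm_add_left]
    exact hadd _ _ ha hb
  · intro z m
    exact h z m z'

private theorem BAWa_cz_r (V : LP k F.F) (hV : BSt V) (α : Fin 3) (g : Gam D)
    (z : (ZL V hV).M) : cz V hV α ((ZL V hV).r g z) = (rowE V).r g (cz V hV α z) := by
  obtain ⟨⟨z0, z1⟩, z2⟩ := z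
  fin_cases α
  · rfl
  · rfl
  · change (rowE V).r (0 : Gam D) z0.1 + (rowE V).r g z2.1 = (rowE V).r g z2.1
    rw [map_zero, LinearMap.zero_apply, zero_add]

private theorem BAWa_cz_l (V : LP k F.F) (β : Fin 3) (g : Gam' D)
    (z : (ZR V).M) : cz' V β ((ZR V).l g z) = (colE V).l g (cz' V β z) := by
  obtain ⟨⟨z0, z1⟩, z2⟩ := z
  fin_cases β
  · rfl
  · rfl
  · change (colE V).l g z2.1 + (colE V).l (0 : Gam' D) z1.1 = (colE V).l g z2.1
    rw [map_zero, LinearMap.zero_apply, add_zero]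

private theorem BAWa_add (w : Fin 3 → F.F) (m m' : Fin 3 → Fin 3 → D.L)
    (w' : Fin 3 → (F.F →ₗ[D.L] D.L)) :
    pr3 F w (m + m') w' = pr3 F w m w' + pr3 F w m' w' := by
  rw [map_add, LinearMap.add_apply]

private theorem BAWa_smul (c : k) (w : Fin 3 → F.F) (m : Fin 3 → Fin 3 → D.L)
    (w' : Fin 3 → (F.F →ₗ[D.L] D.L)) :
    pr3 F w (c • m) w' = c • pr3 F w m w' := by
  rw [map_smul, LinearMap.smul_apply]

private theorem BAWa_bal {A B C E : DGA k} {M : Bim A B} {N : Bim B C} {P : Bim C E}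
    {U : Type*} [AddCommGroup U] [Module k U] (f : (tb M N).M →ₗ[k] P.M →ₗ[k] U)
    (h : ∀ m n c p, f (tm m (N.r c n)) p = f (tm m n) (P.l c p)) (x : (tb M N).M) (c : C.A)
    (p : P.M) : f ((tb M N).r c x) p = f x (P.l c p) := by
  refine tb_ind (P := fun x => f ((tb M N).r c x) p = f x (P.l c p)) ?_ ?_ ?_ x
  · rw [map_zero, map_zero, LinearMap.zero_apply, LinearMap.zero_apply]
  · intro x y hx hy
    rw [map_add, map_add, map_add, LinearMap.add_apply, LinearMap.add_apply, hx, hy]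
  · intro m n
    rw [tb_r]
    exact h m n c p

private theorem BAWa_tt {A B C E : DGA k} {M : Bim A B} {N : Bim B C} {P : Bim C E}
    {U : Type*} [AddCommGroup U] [Module k U] (f : M.M →ₗ[k] N.M →ₗ[k] P.M →ₗ[k] U)
    (h : ∀ m b n, f (M.r b m) n = f m (N.l b n))
    (h' : ∀ x c p, tlift (M := M) (N := N) f h ((tb M N).r c x) p =
      tlift (M := M) (N := N) f h x (P.l c p)) (m : M.M) (n : N.M) (p : P.M) :
    tlift (M := tb M N) (N := P) (tlift (M := M) (N := N) f h) h'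
      (tm (M := tb M N) (N := P) (tm (M := M) (N := N) m n) p) = f m n p := by
  rw [tlift_tm, tlift_tm]

/-- The components of `Z ⊗ B ⊗ Z'`. -/
noncomputable def Phi (V : LP k F.F) (hV : BSt V) :
    (CB V hV).M →ₗ[k] (Fin 3 → Fin 3 → Module.End D.L F.F) :=
  tlift (M := tb (ZL V hV) (Bv D).kbi.bim) (N := ZR V)
    (tlift (M := ZL V hV) (N := (Bv D).kbi.bim)
      (LinearMap.mk₂ k (fun (z : (ZL V hV).M) (m : (Bv D).N) =>
        (LinearMap.pi fun α => LinearMap.pi fun β => (pr3 F (cz V hV α z) m.1) ∘ₗ (cz' V β)))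
        (by
          intro z z' m
          refine LinearMap.ext fun y => funext fun α => funext fun β => ?_
          change pr3 F (cz V hV α (z + z')) m.1 (cz' V β y) =
            pr3 F (cz V hV α z) m.1 (cz' V β y) + pr3 F (cz V hV α z') m.1 (cz' V β y)
          rw [map_add, map_add, LinearMap.add_apply, LinearMap.add_apply])
        (by
          intro c z m
          refine LinearMap.ext fun y => funext fun α => funext fun β => ?_
          change pr3 F (cz V hV α (c • z)) m.1 (cz' V β y) =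
            c • pr3 F (cz V hV α z) m.1 (cz' V β y)
          rw [map_smul, map_smul, LinearMap.smul_apply, LinearMap.smul_apply])
        (by
          intro z m m'
          exact LinearMap.ext fun y => funext fun α => funext fun β => BAWa_add _ _ _ _)
        (by
          intro c z m
          exact LinearMap.ext fun y => funext fun α => funext fun β => BAWa_smul _ _ _ _)) (by
      intro z g m
      refine LinearMap.ext fun y => funext fun α => funext fun β => ?_
      change pr3 F (cz V hV α ((ZL V hV).r g z)) m.1 (cz' V β y) =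
        pr3 F (cz V hV α z) ((matE (LLd D)).l g m.1) (cz' V β y)
      rw [BAWa_cz_r, pr3_bal])) (by
      refine BAWa_bal _ fun z m g y => ?_
      rw [tlift_tm, tlift_tm]
      refine funext fun α => funext fun β => ?_
      change pr3 F (cz V hV α z) ((matE (LLd D)).r g m.1) (cz' V β y) =
        pr3 F (cz V hV α z) m.1 (cz' V β ((ZR V).l g y))
      rw [BAWa_cz_l, pr3_bal'])

theorem Phi_tt3 (V : LP k F.F) (hV : BSt V) (z : (ZL V hV).M) (m : (Bv D).N) (z' : (ZR V).M)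
    (α β : Fin 3) : Phi V hV (tt3 V hV z m z') α β = pr3 F (cz V hV α z) m.1 (cz' V β z') := by
  exact congrFun (congrFun (BAWa_tt (M := ZL V hV) (N := (Bv D).kbi.bim) (P := ZR V)
    (U := Fin 3 → Fin 3 → Module.End D.L F.F) _ _ _ z m z') α) β

theorem Phi_mem (V : LP k F.F) (hV : BSt V) (x : (CB V hV).M) (α β : Fin 3) :
    Phi V hV x α β ∈ EAc V (jn α β) := by
  refine CB_ind V hV (P := fun x => Phi V hV x α β ∈ EAc V (jn α β)) ?_ ?_ ?_ x
  · rw [map_zero]
    exact Submodule.zero_mem _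
  · intro x y hx hy
    rw [map_add]
    exact Submodule.add_mem _ hx hy
  · intro z m z'
    rw [Phi_tt3]
    exact pr3_mem hV (cz_mem V hV α z) m.2 (cz'_mem V β z')

/-- The degree of a component. -/
def dg3 (α β : Fin 3) : ℤ := (if α = 2 then 1 else 0) + (if β = 2 then 1 else 0)

private theorem BAWa_dgz (V : LP k F.F) (hV : BSt V) (α : Fin 3) {i : ℤ} {z : (ZL V hV).M}
    (hz : (ZL V hV).dg.IsDeg i z) : cz V hV α z = 0 ∨ i = (if α = 2 then 1 else 0) := by
  obtain ⟨⟨z0, z1⟩, z2⟩ := z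
  rcases Dg.two_isDeg (rowS V hV).tri.δ hz with ⟨h1, h2⟩ | ⟨h1, h2⟩ | ⟨h1, h2⟩
  · fin_cases α
    · exact Or.inr h1
    · exact Or.inr h1
    · exact Or.inl (congrArg Subtype.val h2)
  · fin_cases α
    · exact Or.inl (congrArg (fun p : rowN V 0 × rowN V 1 => p.1.1) h2)
    · exact Or.inl (congrArg (fun p : rowN V 0 × rowN V 1 => p.2.1) h2)
    · exact Or.inr h1
  · left
    fin_cases α
    · exact congrArg (fun p : rowN V 0 × rowN V 1 => p.1.1) h1
    · exact congrArg (fun p : rowN V 0 × rowN V 1 => p.2.1) h1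
    · exact congrArg Subtype.val h2

private theorem BAWa_dgz' (V : LP k F.F) (β : Fin 3) {i : ℤ} {z : (ZR V).M}
    (hz : (ZR V).dg.IsDeg i z) : cz' V β z = 0 ∨ i = (if β = 2 then 1 else 0) := by
  obtain ⟨⟨z0, z1⟩, z2⟩ := z
  rcases Dg.two_isDeg (colS V).tri.δ hz with ⟨h1, h2⟩ | ⟨h1, h2⟩ | ⟨h1, h2⟩
  · fin_cases β
    · exact Or.inr h1
    · exact Or.inr h1
    · exact Or.inl (congrArg Subtype.val h2)
  · fin_cases β
    · exact Or.inl (congrArg (fun p : colN V 0 × colN V 1 => p.1.1) h2)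
    · exact Or.inl (congrArg (fun p : colN V 0 × colN V 1 => p.2.1) h2)
    · exact Or.inr h1
  · left
    fin_cases β
    · exact congrArg (fun p : colN V 0 × colN V 1 => p.1.1) h1
    · exact congrArg (fun p : colN V 0 × colN V 1 => p.2.1) h1
    · exact congrArg Subtype.val h2

private theorem BAWa_deg0 (w : Fin 3 → F.F) (m : Fin 3 → Fin 3 → D.L)
    (w' : Fin 3 → (F.F →ₗ[D.L] D.L)) (h : w = 0 ∨ m = 0 ∨ w' = 0) : pr3 F w m w' = 0 := by
  rcases h with rfl | rfl | rfl
  · rw [map_zero, LinearMap.zero_apply, LinearMap.zero_apply]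
  · rw [map_zero, LinearMap.zero_apply]
  · rw [map_zero]

theorem Phi_deg (V : LP k F.F) (hV : BSt V) {i : ℤ} {x : (CB V hV).M}
    (hx : (CB V hV).dg.IsDeg i x) (α β : Fin 3) (h : dg3 α β ≠ i) : Phi V hV x α β = 0 := by
  have h1 : (Dg.conc k (Module.End D.L F.F)).IsDeg (i + -dg3 α β)
      (((LinearMap.proj (R := k) β).comp ((LinearMap.proj (R := k) α).comp (Phi V hV))) x) := by
    refine tb_degMap (M := tb (ZL V hV) (Bv D).kbi.bim) (N := ZR V)
      (Z := Dg.conc k (Module.End D.L F.F)) (n := -dg3 α β) _ ?_ hx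
    intro i1 j v w hv hw
    have h2 := tb_degMap (M := ZL V hV) (N := (Bv D).kbi.bim)
      (Z := Dg.conc k (Module.End D.L F.F)) (n := j + -dg3 α β)
      (((LinearMap.proj (R := k) β).comp ((LinearMap.proj (R := k) α).comp (Phi V hV))).comp
        ((tmB (tb (ZL V hV) (Bv D).kbi.bim) (ZR V)).flip w)) (fun {i2 i3 z m} hz hm => ?_) hv
    · rw [add_assoc]
      exact h2
    · change (Dg.conc k (Module.End D.L F.F)).IsDeg _ (Phi V hV (tt3 V hV z m w) α β)
      rw [Phi_tt3]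
      rcases Dg.conc_cases hm with h3 | h3
      · rcases BAWa_dgz V hV α hz with h4 | h4
        · rw [BAWa_deg0 _ _ _ (Or.inl h4)]
          exact Dg.IsDeg.zero _
        · rcases BAWa_dgz' V β hw with h5 | h5
          · rw [BAWa_deg0 _ _ _ (Or.inr (Or.inr h5))]
            exact Dg.IsDeg.zero _
          · have h6 : i2 + i3 + (j + -dg3 α β) = 0 := by
              unfold dg3
              omega
            rw [h6]
            exact Dg.conc_deg _
      · rw [BAWa_deg0 _ _ _ (Or.inr (Or.inl (congrArg Subtype.val h3)))]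
        exact Dg.IsDeg.zero _
  rcases Dg.conc_cases h1 with h2 | h2
  · exact absurd (by omega) h
  · exact h2

private theorem BAWa_cz_d (V : LP k F.F) (hV : BSt V) (α : Fin 3) (z : (ZL V hV).M) :
    cz V hV α ((ZL V hV).dg.d z) =
      (![0, 0, cz V hV 1 z - cz V hV 0 z] : Fin 3 → Fin 3 → F.F) α := by
  obtain ⟨⟨z0, z1⟩, z2⟩ := z
  fin_cases α
  · rfl
  · rfl
  · rfl

private theorem BAWa_cz_s (V : LP k F.F) (hV : BSt V) (α : Fin 3) (z : (ZL V hV).M) :
    cz V hV α ((ZL V hV).dg.s z) =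
      (![cz V hV 0 z, cz V hV 1 z, -cz V hV 2 z] : Fin 3 → Fin 3 → F.F) α := by
  obtain ⟨⟨z0, z1⟩, z2⟩ := z
  have h : (ZL V hV).dg.s ((z0, z1), z2) = ((z0, z1), -z2) :=
    Dg.two_s (rowS V hV).tri.δ (z0, z1) z2
  rw [h]
  fin_cases α
  · rfl
  · rfl
  · rfl

private theorem BAWa_cz'_d (V : LP k F.F) (β : Fin 3) (z : (ZR V).M) :
    cz' V β ((ZR V).dg.d z) =
      (![0, 0, cz' V 1 z - cz' V 0 z] : Fin 3 → Fin 3 → (F.F →ₗ[D.L] D.L)) β := by
  obtain ⟨⟨z0, z1⟩, z2⟩ := z
  fin_cases β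
  · rfl
  · rfl
  · rfl

/-- The differential of a double complex. -/
private def BAWa_D {E : Type*} [AddCommGroup E] (p : Fin 3 → Fin 3 → E) : Fin 3 → Fin 3 → E :=
  ![![0, 0, p 0 1 - p 0 0], ![0, 0, p 1 1 - p 1 0],
    ![p 1 0 - p 0 0, p 1 1 - p 0 1, p 1 2 - p 0 2 - (p 2 1 - p 2 0)]]

private theorem BAWa_D_zero {E : Type*} [AddCommGroup E] :
    BAWa_D (0 : Fin 3 → Fin 3 → E) = 0 := by
  funext α β
  fin_cases α <;> fin_cases β <;> simp [BAWa_D]

private theorem BAWa_D_add {E : Type*} [AddCommGroup E] (p q : Fin 3 → Fin 3 → E) :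
    BAWa_D (p + q) = BAWa_D p + BAWa_D q := by
  funext α β
  fin_cases α <;> fin_cases β <;> simp [BAWa_D] <;> abel

private theorem BAWa_D_bil {X Y E : Type*} [AddCommGroup X] [Module k X] [AddCommGroup Y]
    [Module k Y] [AddCommGroup E] [Module k E] (g : X →ₗ[k] Y →ₗ[k] E) (a : Fin 3 → X)
    (b : Fin 3 → Y) (α β : Fin 3) : g ((![0, 0, a 1 - a 0] : Fin 3 → X) α) (b β) +
      g ((![a 0, a 1, -a 2] : Fin 3 → X) α) ((![0, 0, b 1 - b 0] : Fin 3 → Y) β) =
        BAWa_D (fun α β => g (a α) (b β)) α β := by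
  fin_cases α <;> fin_cases β <;> simp [BAWa_D] <;> abel

private theorem BAWa_d_tt3 (V : LP k F.F) (hV : BSt V) (z : (ZL V hV).M) (m : (Bv D).N)
    (z' : (ZR V).M) : (CB V hV).dg.d (tt3 V hV z m z') =
      tt3 V hV ((ZL V hV).dg.d z) m z' + tt3 V hV ((ZL V hV).dg.s z) m ((ZR V).dg.d z') := by
  have h1 : (Bv D).kbi.bim.dg.d m = 0 := rfl
  have h2 : (Bv D).kbi.bim.dg.s m = m := Dg.conc_s _
  refine (tb_d (M := tb (ZL V hV) (Bv D).kbi.bim) (N := ZR V) _ _).trans ?_
  rw [tb_d, tb_s, h1, h2, tm_zero_right, add_zero]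
  rfl

/-- The differential. -/
theorem Phi_d (V : LP k F.F) (hV : BSt V) (x : (CB V hV).M) :
    Phi V hV ((CB V hV).dg.d x) = ![![0, 0, Phi V hV x 0 1 - Phi V hV x 0 0],
      ![0, 0, Phi V hV x 1 1 - Phi V hV x 1 0],
      ![Phi V hV x 1 0 - Phi V hV x 0 0, Phi V hV x 1 1 - Phi V hV x 0 1,
        Phi V hV x 1 2 - Phi V hV x 0 2 - (Phi V hV x 2 1 - Phi V hV x 2 0)]] := by
  change Phi V hV ((CB V hV).dg.d x) = BAWa_D (Phi V hV x)
  refine CB_ind V hV (P := fun x => Phi V hV ((CB V hV).dg.d x) = BAWa_D (Phi V hV x)) ?_ ?_ ?_ x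
  · rw [map_zero, map_zero, BAWa_D_zero]
  · intro x y hx hy
    rw [map_add, map_add, map_add, hx, hy, BAWa_D_add]
  · intro z m z'
    funext α β
    rw [BAWa_d_tt3, map_add]
    refine (congrArg₂ (· + ·) (Phi_tt3 V hV _ m z' α β) (Phi_tt3 V hV _ m _ α β)).trans ?_
    rw [BAWa_cz_d, BAWa_cz_s, BAWa_cz'_d]
    have h := BAWa_D_bil ((pr3 F).flip m.1) (fun α => cz V hV α z) (fun β => cz' V β z') α β
    have h' : (fun α β => ((pr3 F).flip m.1) (cz V hV α z) (cz' V β z')) =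
        Phi V hV (tt3 V hV z m z') :=
      funext fun α => funext fun β => (Phi_tt3 V hV z m z' α β).symm
    rw [h'] at h
    exact h

/-- The left action. -/
theorem Phi_l (V : LP k F.F) (hV : BSt V) (a : (EA0 V × EA1 V) × EA01 V) (x : (CB V hV).M)
    (β : Fin 3) : Phi V hV ((CB V hV).l a x) 0 β = a.1.1.1 * Phi V hV x 0 β ∧
      Phi V hV ((CB V hV).l a x) 1 β = a.1.2.1 * Phi V hV x 1 β ∧
      Phi V hV ((CB V hV).l a x) 2 β = a.1.1.1 * Phi V hV x 2 β + a.2.1 * Phi V hV x 1 β := by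
  refine CB_ind V hV (P := fun x => Phi V hV ((CB V hV).l a x) 0 β = a.1.1.1 * Phi V hV x 0 β ∧
      Phi V hV ((CB V hV).l a x) 1 β = a.1.2.1 * Phi V hV x 1 β ∧
      Phi V hV ((CB V hV).l a x) 2 β = a.1.1.1 * Phi V hV x 2 β + a.2.1 * Phi V hV x 1 β)
      ?_ ?_ ?_ x
  · rw [map_zero, map_zero]
    simp only [Pi.zero_apply, mul_zero, add_zero, and_self]
  · intro x y hx hy
    rw [map_add, map_add, map_add]
    simp only [Pi.add_apply]
    rw [hx.1, hy.1, hx.2.1, hy.2.1, hx.2.2, hy.2.2]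
    refine ⟨by rw [mul_add], by rw [mul_add], ?_⟩
    rw [mul_add, mul_add]
    abel
  · intro z m z'
    have h : (CB V hV).l a (tt3 V hV z m z') = tt3 V hV ((ZL V hV).l a z) m z' := by
      refine (tb_l (M := tb (ZL V hV) (Bv D).kbi.bim) (N := ZR V) _ _ _).trans ?_
      rw [tb_l]
      rfl
    rw [h, Phi_tt3, Phi_tt3, Phi_tt3, Phi_tt3, Phi_tt3, Phi_tt3]
    refine ⟨pr3_l V (Subalgebra.inclusion (EA0_le V) a.1.1) _ _ _,
      pr3_l V (Subalgebra.inclusion (EA1_le V) a.1.2) _ _ _, ?_⟩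
    have h1 := pr3_l V (Subalgebra.inclusion (EA0_le V) a.1.1) (cz V hV 2 z) m.1 (cz' V β z')
    have h2 := pr3_l V a.2 (cz V hV 1 z) m.1 (cz' V β z')
    refine Eq.trans ?_ (congrArg₂ (· + ·) h1 h2)
    have h3 : ∀ x y : Fin 3 → F.F, pr3 F (x + y) m.1 (cz' V β z') =
        pr3 F x m.1 (cz' V β z') + pr3 F y m.1 (cz' V β z') := fun x y => by
      rw [map_add, LinearMap.add_apply, LinearMap.add_apply]
    exact h3 _ _


/-- The right action. -/
theorem Phi_r (V : LP k F.F) (hV : BSt V) (a : (EA0 V × EA1 V) × EA01 V) (x : (CB V hV).M)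
    (α : Fin 3) : Phi V hV ((CB V hV).r a x) α 0 = Phi V hV x α 0 * a.1.1.1 ∧
      Phi V hV ((CB V hV).r a x) α 1 = Phi V hV x α 1 * a.1.2.1 ∧
      Phi V hV ((CB V hV).r a x) α 2 = Phi V hV x α 0 * a.2.1 + Phi V hV x α 2 * a.1.2.1 := by
  refine CB_ind V hV (P := fun x => Phi V hV ((CB V hV).r a x) α 0 = Phi V hV x α 0 * a.1.1.1 ∧
      Phi V hV ((CB V hV).r a x) α 1 = Phi V hV x α 1 * a.1.2.1 ∧
      Phi V hV ((CB V hV).r a x) α 2 = Phi V hV x α 0 * a.2.1 + Phi V hV x α 2 * a.1.2.1)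
      ?_ ?_ ?_ x
  · rw [map_zero, map_zero]
    simp only [Pi.zero_apply, zero_mul, add_zero, and_self]
  · intro x y hx hy
    rw [map_add, map_add, map_add]
    simp only [Pi.add_apply]
    rw [hx.1, hy.1, hx.2.1, hy.2.1, hx.2.2, hy.2.2]
    refine ⟨by rw [add_mul], by rw [add_mul], ?_⟩
    rw [add_mul, add_mul]
    abel
  · intro z m z'
    have h : (CB V hV).r a (tt3 V hV z m z') = tt3 V hV z m ((ZR V).r a z') :=
      tb_r (M := tb (ZL V hV) (Bv D).kbi.bim) (N := ZR V) _ _ _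
    rw [h, Phi_tt3, Phi_tt3, Phi_tt3, Phi_tt3, Phi_tt3, Phi_tt3]
    refine ⟨pr3_r V (Subalgebra.inclusion (EA0_le V) a.1.1) _ _ _,
      pr3_r V (Subalgebra.inclusion (EA1_le V) a.1.2) _ _ _, ?_⟩
    have h1 := pr3_r V a.2 (cz V hV α z) m.1 (cz' V 0 z')
    have h2 := pr3_r V (Subalgebra.inclusion (EA1_le V) a.1.2) (cz V hV α z) m.1 (cz' V 2 z')
    refine Eq.trans ?_ (congrArg₂ (· + ·) h1 h2)
    have h3 : ∀ x y : Fin 3 → (F.F →ₗ[D.L] D.L), pr3 F (cz V hV α z) m.1 (x + y) =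
        pr3 F (cz V hV α z) m.1 x + pr3 F (cz V hV α z) m.1 y := fun x y => by
      rw [map_add]
    exact h3 _ _

end Pool.Agent.MP_6e5bed_ag_KC
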