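import Pool.Agent.Lib.MP_6e5bed_ag_KC.BAWa
import Pool.Agent.Lib.MP_6e5bed_ag_CV.DualB

set_option autoImplicit false
set_option linter.unusedSectionVars false

/-!
# The double Čech complex of the diagonal: `Phi` is injective, with the expected image (KC, B3)

Proof. Let `v j`, `f j` be a dual basis of `V.cp c` for every `c` (`exists_dual_basis`, for
`c = 2` the one for `c = 0`), so `v j ∈ V.cp c`, `f j ∈ V.dual.cp c` (`f j (V.cp c) ⊆ BB D c`) and
`x = ∑ f j x • v j`. Let `ζ α v` be the element of `ZL` with the only component `α`, which is the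
row with the entry `v` at the place `α`; `ζ' β f` the same for `ZR`; `μ α β m` the matrix with the
only entry `m` at the place `α β`. `ZL` is generated by the elements `ζ α v` over `Gam D` (the
row with the entry `v` at the place `a`, `Le3 a α`, is `ζ α v` times the matrix unit `α a`), and
`ζ α v ⊗ μ a b m = 0` for `a ≠ α` (insert the matrix unit `α α`); so `CB` is spanned by the
`ζ α v ⊗ μ α β m ⊗ ζ' β f`, and this is `∑ ζ α (v j) ⊗ μ α β (f j (v) m f (v l)) ⊗ ζ' β (f l)`,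
which is the value of `Psi` at `Phi`: `Psi x = ∑_{α β j l} ζ α (v j) ⊗ μ α β (f j (x α β (v l))) ⊗
ζ' β (f l)`; here `f j` is the dual basis for `α` and `v l`, `f l` the one for `β`.
-/

namespace Pool.Agent.MP_6e5bed_ag_KC

open RatFunc Pool.Agent.MP_6e5bed_ag_NC

universe u

variable {k : Type u} [Field k] {D : FExt k} {F : LSp D}

private theorem BAWb_dual_cp {V : LP k F.F} {c : Fin 3} {f : F.F →ₗ[D.L] D.L}
    (hf : f ∈ LP.cp (E := F.dual.F) V.dual c) {x : F.F} (hx : x ∈ V.cp c) : f x ∈ BB D c := by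
  fin_cases c
  · exact (LP.mem_dual_N0 V f).1 hf x hx
  · exact (LP.mem_dual_N1 V f).1 hf x hx
  · exact (LP.mem_hom_N01 (F' := LSp.one D) V (LP.OO D) f).1 hf x hx

/-- Dual bases on the charts. -/
theorem dual_basis (V : LP k F.F) (hV : BSt V) (c : Fin 3) :
    ∃ (n : ℕ) (v : Fin n → F.F) (f : Fin n → (F.F →ₗ[D.L] D.L)), (∀ j, v j ∈ V.cp c) ∧
      (∀ j, f j ∈ LP.cp (E := F.dual.F) V.dual c) ∧ (∀ j, ∀ x ∈ V.cp c, f j x ∈ BB D c) ∧
      ∀ x, x = ∑ j, f j x • v j := by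
  have h0 := exists_dual_basis X V.N0 V.fg0 V.sp0 (fun b hb v hv => hV 0 b hb v hv)
  have key : ∃ (n : ℕ) (v : Fin n → F.F) (f : Fin n → (F.F →ₗ[D.L] D.L)), (∀ j, v j ∈ V.cp c) ∧
      (∀ j, f j ∈ LP.cp (E := F.dual.F) V.dual c) ∧ ∀ x, x = ∑ j, f j x • v j := by
    fin_cases c
    · obtain ⟨n, v, f, hv, hf, hx⟩ := h0
      exact ⟨n, v, f, hv, fun j => hf j, hx⟩
    · obtain ⟨n, v, f, hv, hf, hx⟩ := exists_dual_basis X⁻¹ V.N1 V.fg1 V.sp1
        (fun b hb v hv => hV 1 b hb v hv)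
      exact ⟨n, v, f, hv, fun j => hf j, hx⟩
    · obtain ⟨n, v, f, hv, hf, hx⟩ := h0
      exact ⟨n, v, f, fun j => V.N0_le (hv j), fun j => V.dual.N0_le (hf j), hx⟩
  obtain ⟨n, v, f, hv, hf, hx⟩ := key
  exact ⟨n, v, f, hv, hf, fun j x hx => BAWb_dual_cp (hf j) hx, hx⟩

/-- The inclusions of the components of `ZL`. -/
private noncomputable def BAWb_zc (V : LP k F.F) (hV : BSt V) : (α : Fin 3) →
    rowN V α →ₗ[k] (ZL V hV).M
  | 0 => LinearMap.inl k (rowN V 0 × rowN V 1) (rowN V 2) ∘ₗ LinearMap.inl k (rowN V 0) (rowN V 1)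
  | 1 => LinearMap.inl k (rowN V 0 × rowN V 1) (rowN V 2) ∘ₗ LinearMap.inr k (rowN V 0) (rowN V 1)
  | 2 => LinearMap.inr k (rowN V 0 × rowN V 1) (rowN V 2)

/-- The inclusions of the components of `ZR`. -/
private noncomputable def BAWb_zc' (V : LP k F.F) : (β : Fin 3) → colN V β →ₗ[k] (ZR V).M
  | 0 => LinearMap.inl k (colN V 0 × colN V 1) (colN V 2) ∘ₗ LinearMap.inl k (colN V 0) (colN V 1)
  | 1 => LinearMap.inl k (colN V 0 × colN V 1) (colN V 2) ∘ₗ LinearMap.inr k (colN V 0) (colN V 1)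
  | 2 => LinearMap.inr k (colN V 0 × colN V 1) (colN V 2)

private theorem BAWb_zsum (V : LP k F.F) (hV : BSt V) (z : (ZL V hV).M) :
    z = ∑ α, BAWb_zc V hV α ⟨cz V hV α z, cz_mem V hV α z⟩ := by
  have key : ∀ z : (rowN V 0 × rowN V 1) × rowN V 2,
      z = ((z.1.1, 0), 0) + ((0, z.1.2), 0) + (0, z.2) := fun z => by simp
  rw [Fin.sum_univ_three]
  exact key z

private theorem BAWb_zsum' (V : LP k F.F) (z : (ZR V).M) :
    z = ∑ α, BAWb_zc' V α ⟨cz' V α z, cz'_mem V α z⟩ := by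
  have key : ∀ z : (colN V 0 × colN V 1) × colN V 2,
      z = ((z.1.1, 0), 0) + ((0, z.1.2), 0) + (0, z.2) := fun z => by simp
  rw [Fin.sum_univ_three]
  exact key z

private theorem BAWb_cz_zc (V : LP k F.F) (hV : BSt V) (α : Fin 3) (w : rowN V α) :
    cz V hV α (BAWb_zc V hV α w) = w.1 := by
  fin_cases α <;> rfl

private theorem BAWb_cz_zc_ne (V : LP k F.F) (hV : BSt V) {α α' : Fin 3} (h : ¬ α' = α)
    (w : rowN V α) : cz V hV α' (BAWb_zc V hV α w) = 0 := by
  fin_cases α <;> fin_cases α' <;> first | exact absurd rfl h | rfl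

private theorem BAWb_cz_zc' (V : LP k F.F) (α : Fin 3) (w : colN V α) :
    cz' V α (BAWb_zc' V α w) = w.1 := by
  fin_cases α <;> rfl

private theorem BAWb_cz_zc_ne' (V : LP k F.F) {α α' : Fin 3} (h : ¬ α' = α)
    (w : colN V α) : cz' V α' (BAWb_zc' V α w) = 0 := by
  fin_cases α <;> fin_cases α' <;> first | exact absurd rfl h | rfl

private theorem BAWb_gr {S : Cosp k} {R : Type u} [Ring R] [Algebra k R] (M : Tri S (constC k R))
    (g : R) (x : (M.M0.M × M.M1.M) × M.M01.M) : (res (DHom.id _) (augR k R) M.bim).r g x =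
      ((M.M0.r g x.1.1, M.M1.r g x.1.2), M.M01.r g x.2) := by
  have h : M.M01.r (0 : (constC k R).A01) (M.ρ0 x.1.1) = 0 := by
    rw [map_zero, LinearMap.zero_apply]
  exact Prod.ext rfl ((congrArg (· + M.M01.r g x.2) h).trans (zero_add _))

private theorem BAWb_gl {S : Cosp k} {R : Type u} [Ring R] [Algebra k R] (M : Tri (constC k R) S)
    (g : R) (x : (M.M0.M × M.M1.M) × M.M01.M) : (res (augR k R) (DHom.id _) M.bim).l g x =
      ((M.M0.l g x.1.1, M.M1.l g x.1.2), M.M01.l g x.2) := by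
  have h : M.M01.l (0 : (constC k R).A01) (M.ρ1 x.1.2) = 0 := by
    rw [map_zero, LinearMap.zero_apply]
  exact Prod.ext rfl ((congrArg (M.M01.l g x.2 + ·) h).trans (add_zero _))

private theorem BAWb_zr (V : LP k F.F) (hV : BSt V) (α : Fin 3) (g : Gam D) (w : rowN V α) :
    (ZL V hV).r g (BAWb_zc V hV α w) =
      BAWb_zc V hV α ⟨(rowE V).r g w.1, rowN_r hV α g w.1 w.2⟩ := by
  fin_cases α
  · exact (BAWb_gr (rowS V hV).tri g _).trans
      (Prod.ext (Prod.ext rfl (LinearMap.map_zero _)) (LinearMap.map_zero _))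
  · exact (BAWb_gr (rowS V hV).tri g _).trans
      (Prod.ext (Prod.ext (LinearMap.map_zero _) rfl) (LinearMap.map_zero _))
  · exact (BAWb_gr (rowS V hV).tri g _).trans
      (Prod.ext (Prod.ext (LinearMap.map_zero _) (LinearMap.map_zero _)) rfl)

private theorem BAWb_zl (V : LP k F.F) (β : Fin 3) (g : Gam' D) (w : colN V β) :
    (ZR V).l g (BAWb_zc' V β w) =
      BAWb_zc' V β ⟨(colE V).l g w.1, colN_l V β g w.1 w.2⟩ := by
  fin_cases β
  · exact (BAWb_gl (colS V).tri g _).trans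
      (Prod.ext (Prod.ext rfl (LinearMap.map_zero _)) (LinearMap.map_zero _))
  · exact (BAWb_gl (colS V).tri g _).trans
      (Prod.ext (Prod.ext (LinearMap.map_zero _) rfl) (LinearMap.map_zero _))
  · exact (BAWb_gl (colS V).tri g _).trans
      (Prod.ext (Prod.ext (LinearMap.map_zero _) (LinearMap.map_zero _)) rfl)

/-- The matrix with the row `α` equal to `y`. -/
private noncomputable def BAWb_gR (α : Fin 3) (y : Fin 3 → D.L)
    (hy : ∀ a, y a ∈ BB D α ∧ (¬ Le3 a α → y a = 0)) : Gam D :=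
  ⟨fun a b => if a = α then y b else 0, fun a b => by
    change (if a = α then y b else 0) ∈ BB D a ∧ (¬ Le3 b a → (if a = α then y b else 0) = 0)
    by_cases h : a = α
    · subst h
      rw [if_pos rfl]
      exact hy b
    · rw [if_neg h]
      exact ⟨(BB D a).zero_mem, fun _ => rfl⟩⟩

/-- The matrix with the column `β` equal to `y`. -/
private noncomputable def BAWb_gC (β : Fin 3) (y : Fin 3 → D.L)
    (hy : ∀ b, y b ∈ BB D β ∧ (¬ Le3 b β → y b = 0)) : Gam' D :=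
  ⟨fun a b => if b = β then y a else 0, fun a b => by
    change (if b = β then y a else 0) ∈ BB D b ∧ (¬ Le3 a b → (if b = β then y a else 0) = 0)
    by_cases h : b = β
    · subst h
      rw [if_pos rfl]
      exact hy a
    · rw [if_neg h]
      exact ⟨(BB D b).zero_mem, fun _ => rfl⟩⟩

private theorem BAWb_mu_mem (α β : Fin 3) (m : BB D (jn α β)) (a b : Fin 3) :
    (if a = α ∧ b = β then m.1 else 0) ∈ BB D (jn a b) := by
  by_cases h : a = α ∧ b = β
  · rw [if_pos h, h.1, h.2]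
    exact m.2
  · rw [if_neg h]
    exact Subalgebra.zero_mem _

/-- The matrices with one entry. -/
private noncomputable def BAWb_mu (α β : Fin 3) : BB D (jn α β) →ₗ[k] (Bv D).N where
  toFun := fun m => ⟨fun a b => if a = α ∧ b = β then m.1 else 0, BAWb_mu_mem α β m⟩
  map_add' := fun m m' => by
    refine Subtype.ext (funext fun a => funext fun b => ?_)
    change (if a = α ∧ b = β then m.1 + m'.1 else 0) =
      (if a = α ∧ b = β then m.1 else 0) + (if a = α ∧ b = β then m'.1 else 0)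
    split_ifs
    · rfl
    · rw [add_zero]
  map_smul' := fun c m => by
    refine Subtype.ext (funext fun a => funext fun b => ?_)
    change (if a = α ∧ b = β then c • m.1 else 0) = c • (if a = α ∧ b = β then m.1 else 0)
    split_ifs
    · rfl
    · rw [smul_zero]

private theorem BAWb_mu_apply (α β : Fin 3) (m : BB D (jn α β)) (a b : Fin 3) :
    (BAWb_mu α β m).1 a b = if a = α ∧ b = β then m.1 else 0 := rfl

/-- The element `z ⊗ m ⊗ z'`. -/
private noncomputable def BAWb_B (V : LP k F.F) (hV : BSt V) :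
    (ZL V hV).M →ₗ[k] (Bv D).N →ₗ[k] (ZR V).M →ₗ[k] (CB V hV).M :=
  (tmB (ZL V hV) (Bv D).kbi.bim).compr₂ (tmB (tb (ZL V hV) (Bv D).kbi.bim) (ZR V))

private theorem BAWb_B_apply (V : LP k F.F) (hV : BSt V) (z : (ZL V hV).M) (m : (Bv D).N)
    (z' : (ZR V).M) : BAWb_B V hV z m z' = tt3 V hV z m z' := rfl

private theorem BAWb_bal (V : LP k F.F) (hV : BSt V) (z : (ZL V hV).M) (m : (Bv D).N)
    (z' : (ZR V).M) (g : Gam D) :
    BAWb_B V hV ((ZL V hV).r g z) m z' = BAWb_B V hV z ((Bv D).kbi.l g m) z' :=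
  congrArg (fun x => tm (M := tb (ZL V hV) (Bv D).kbi.bim) (N := ZR V) x z')
    (tm_r_l (M := ZL V hV) (N := (Bv D).kbi.bim) z g m)

private theorem BAWb_bal' (V : LP k F.F) (hV : BSt V) (z : (ZL V hV).M) (m : (Bv D).N)
    (z' : (ZR V).M) (g : Gam' D) :
    BAWb_B V hV z m ((ZR V).l g z') = BAWb_B V hV z ((Bv D).kbi.r g m) z' :=
  (tm_r_l (M := tb (ZL V hV) (Bv D).kbi.bim) (N := ZR V)
    (tm (M := ZL V hV) (N := (Bv D).kbi.bim) z m) g z').symm.trans
    (congrArg (fun x => tm (M := tb (ZL V hV) (Bv D).kbi.bim) (N := ZR V) x z')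
      (tb_r (M := ZL V hV) (N := (Bv D).kbi.bim) g z m))

/-- A dual basis. -/
private structure BAWb_DB (V : LP k F.F) (c : Fin 3) where
  n : ℕ
  v : Fin n → F.F
  f : Fin n → (F.F →ₗ[D.L] D.L)
  hv : ∀ j, v j ∈ V.cp c
  hf : ∀ j, f j ∈ LP.cp (E := F.dual.F) V.dual c
  hx : ∀ x, x = ∑ j, f j x • v j

private theorem BAWb_DB_ex (V : LP k F.F) (hV : BSt V) (c : Fin 3) : Nonempty (BAWb_DB V c) := by
  obtain ⟨n, v, f, hv, hf, -, hx⟩ := dual_basis V hV c
  exact ⟨⟨n, v, f, hv, hf, hx⟩⟩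

/-- The row with the only entry `x`, in the place `α`. -/
private noncomputable def BAWb_ze (V : LP k F.F) (α : Fin 3) (x : F.F) (hx : x ∈ V.cp α) :
    rowN V α :=
  ⟨fun a => if a = α then x else 0, fun a => by
    change (if a = α then x else 0) ∈ V.cp α ∧ (¬ Le3 a α → (if a = α then x else 0) = 0)
    by_cases h : a = α
    · subst h
      rw [if_pos rfl]
      exact ⟨hx, fun h => absurd (Le3.refl a) h⟩
    · rw [if_neg h]
      exact ⟨(V.cp α).zero_mem, fun _ => rfl⟩⟩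

/-- The column with the only entry `f`, in the place `β`. -/
private noncomputable def BAWb_ze' (V : LP k F.F) (β : Fin 3) (f : F.F →ₗ[D.L] D.L)
    (hf : f ∈ LP.cp (E := F.dual.F) V.dual β) : colN V β :=
  ⟨fun b => if b = β then f else 0, fun b => by
    change (if b = β then f else 0) ∈ LP.cp (E := F.dual.F) V.dual β ∧
      (¬ Le3 b β → (if b = β then f else 0) = 0)
    by_cases h : b = β
    · subst h
      rw [if_pos rfl]
      exact ⟨hf, fun h => absurd (Le3.refl b) h⟩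
    · rw [if_neg h]
      exact ⟨(LP.cp (E := F.dual.F) V.dual β).zero_mem, fun _ => rfl⟩⟩

private theorem BAWb_gR_ok {V : LP k F.F} {α : Fin 3} (b : BAWb_DB V α) (w : rowN V α)
    (j : Fin b.n) (a : Fin 3) : b.f j (w.1 a) ∈ BB D α ∧ (¬ Le3 a α → b.f j (w.1 a) = 0) :=
  ⟨BAWb_dual_cp (b.hf j) (w.2 a).1, fun h => by rw [(w.2 a).2 h, map_zero]⟩

private theorem BAWb_gC_ok {V : LP k F.F} {β : Fin 3} (b : BAWb_DB V β) (w : colN V β)
    (l : Fin b.n) (a : Fin 3) : w.1 a (b.v l) ∈ BB D β ∧ (¬ Le3 a β → w.1 a (b.v l) = 0) :=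
  ⟨BAWb_dual_cp (w.2 a).1 (b.hv l), fun h => by rw [(w.2 a).2 h, LinearMap.zero_apply]⟩

private theorem BAWb_rowdec (V : LP k F.F) (hV : BSt V) {α : Fin 3} (b : BAWb_DB V α)
    (w : rowN V α) : BAWb_zc V hV α w = ∑ j, (ZL V hV).r
      (BAWb_gR α (fun a => b.f j (w.1 a)) (BAWb_gR_ok b w j))
      (BAWb_zc V hV α (BAWb_ze V α (b.v j) (b.hv j))) := by
  rw [Finset.sum_congr rfl fun j _ => BAWb_zr V hV α _ _, ← map_sum]
  refine congrArg _ (Subtype.ext (funext fun a => ?_))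
  rw [Submodule.coe_sum, Finset.sum_apply]
  refine (b.hx (w.1 a)).trans (Finset.sum_congr rfl fun j _ => ?_)
  change b.f j (w.1 a) • b.v j =
    ∑ i, (if i = α then b.f j (w.1 a) else 0) • (if i = α then b.v j else 0)
  rw [Finset.sum_eq_single α]
  · rw [if_pos rfl, if_pos rfl]
  · intro i _ hi
    rw [if_neg hi, zero_smul]
  · intro h
    exact absurd (Finset.mem_univ α) h

private theorem BAWb_coldec (V : LP k F.F) {β : Fin 3} (b : BAWb_DB V β)
    (w : colN V β) : BAWb_zc' V β w = ∑ l, (ZR V).l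
      (BAWb_gC β (fun a => w.1 a (b.v l)) (BAWb_gC_ok b w l))
      (BAWb_zc' V β (BAWb_ze' V β (b.f l) (b.hf l))) := by
  rw [Finset.sum_congr rfl fun j _ => BAWb_zl V β _ _, ← map_sum]
  refine congrArg _ (Subtype.ext (funext fun a => ?_))
  rw [Submodule.coe_sum, Finset.sum_apply]
  have h1 : w.1 a = ∑ l, w.1 a (b.v l) • b.f l := by
    refine LinearMap.ext fun x => ?_
    conv_lhs => rw [b.hx x]
    rw [map_sum, LinearMap.sum_apply]
    refine Finset.sum_congr rfl fun l _ => ?_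
    rw [map_smul, LinearMap.smul_apply, smul_eq_mul, smul_eq_mul, mul_comm]
  refine h1.trans (Finset.sum_congr rfl fun l _ => ?_)
  change w.1 a (b.v l) • b.f l =
    ∑ i, (if i = β then w.1 a (b.v l) else 0) • (if i = β then b.f l else 0)
  rw [Finset.sum_eq_single β]
  · rw [if_pos rfl, if_pos rfl]
  · intro i _ hi
    rw [if_neg hi, zero_smul]
  · intro h
    exact absurd (Finset.mem_univ β) h

/-- The values on a dual basis. -/
private noncomputable def BAWb_ev {V : LP k F.F} {α β : Fin 3} (b : BAWb_DB V α)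
    (b' : BAWb_DB V β) (j : Fin b.n) (l : Fin b'.n) : EAc V (jn α β) →ₗ[k] BB D (jn α β) where
  toFun := fun e => ⟨b.f j (e.1 (b'.v l)), BAWb_dual_cp
    (cp_mono (F := F.dual) V.dual (le_jn_left α β) (b.hf j))
    (e.2 _ (cp_mono V (le_jn_right α β) (b'.hv l)))⟩
  map_add' := fun _ _ => Subtype.ext (map_add (b.f j) _ _)
  map_smul' := fun c _ => Subtype.ext (((b.f j).restrictScalars k).map_smul c _)

/-- The inverse of `Phi`, on the component `α`, `β`. -/
private noncomputable def BAWb_th (V : LP k F.F) (hV : BSt V) {α β : Fin 3} (b : BAWb_DB V α)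
    (b' : BAWb_DB V β) : EAc V (jn α β) →ₗ[k] (CB V hV).M :=
  ∑ j, ∑ l, ((BAWb_B V hV (BAWb_zc V hV α (BAWb_ze V α (b.v j) (b.hv j)))).flip
    (BAWb_zc' V β (BAWb_ze' V β (b'.f l) (b'.hf l))) ∘ₗ BAWb_mu α β) ∘ₗ BAWb_ev b b' j l

private theorem BAWb_th_apply (V : LP k F.F) (hV : BSt V) {α β : Fin 3} (b : BAWb_DB V α)
    (b' : BAWb_DB V β) (e : EAc V (jn α β)) : BAWb_th V hV b b' e =
      ∑ j, ∑ l, BAWb_B V hV (BAWb_zc V hV α (BAWb_ze V α (b.v j) (b.hv j)))
        (BAWb_mu α β (BAWb_ev b b' j l e))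
        (BAWb_zc' V β (BAWb_ze' V β (b'.f l) (b'.hf l))) := by
  unfold BAWb_th
  simp only [LinearMap.sum_apply]
  rfl

private theorem BAWb_mat {V : LP k F.F} {α β : Fin 3} (b : BAWb_DB V α)
    (b' : BAWb_DB V β) (w : rowN V α) (m : Fin 3 → Fin 3 → D.L) (hm : m ∈ (Bv D).N)
    (w' : colN V β) (h : pr3 F w.1 m w'.1 ∈ EAc V (jn α β)) (j : Fin b.n) (l : Fin b'.n) :
    (Bv D).kbi.r (BAWb_gC β (fun a => w'.1 a (b'.v l)) (BAWb_gC_ok b' w' l))
      ((Bv D).kbi.l (BAWb_gR α (fun a => b.f j (w.1 a)) (BAWb_gR_ok b w j)) ⟨m, hm⟩) =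
      BAWb_mu α β (BAWb_ev b b' j l ⟨pr3 F w.1 m w'.1, h⟩) := by
  refine Subtype.ext (funext fun p => funext fun q => ?_)
  rw [BAWb_mu_apply]
  change (∑ c, (if q = β then w'.1 c (b'.v l) else 0) *
    ∑ e, (if p = α then b.f j (w.1 e) else 0) * m e c) =
    if p = α ∧ q = β then b.f j (pr3 F w.1 m w'.1 (b'.v l)) else 0
  by_cases hp : p = α
  · by_cases hq : q = β
    · rw [if_pos ⟨hp, hq⟩, pr3_apply', map_sum]
      simp only [if_pos hp, if_pos hq]
      simp only [map_sum, Finset.mul_sum]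
      rw [Finset.sum_comm]
      refine Finset.sum_congr rfl fun e _ => Finset.sum_congr rfl fun c _ => ?_
      rw [map_smul, map_smul, smul_eq_mul, smul_eq_mul]
      ring
    · rw [if_neg fun h => hq h.2]
      exact Finset.sum_eq_zero fun c _ => by rw [if_neg hq, zero_mul]
  · rw [if_neg fun h => hp h.1]
    refine Finset.sum_eq_zero fun c _ => ?_
    rw [Finset.sum_eq_zero fun e _ => by rw [if_neg hp, zero_mul], mul_zero]

private theorem BAWb_suml (V : LP k F.F) (hV : BSt V) {ι : Type} (s : Finset ι)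
    (z : ι → (ZL V hV).M) (m : (Bv D).N) (z' : (ZR V).M) :
    BAWb_B V hV (∑ i ∈ s, z i) m z' = ∑ i ∈ s, BAWb_B V hV (z i) m z' := by
  rw [map_sum, LinearMap.sum_apply, LinearMap.sum_apply]

private theorem BAWb_sumr (V : LP k F.F) (hV : BSt V) {ι : Type} (s : Finset ι)
    (z : (ZL V hV).M) (m : (Bv D).N) (z' : ι → (ZR V).M) :
    BAWb_B V hV z m (∑ i ∈ s, z' i) = ∑ i ∈ s, BAWb_B V hV z m (z' i) := by
  rw [map_sum]

private theorem BAWb_main (V : LP k F.F) (hV : BSt V) {α β : Fin 3} (b : BAWb_DB V α)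
    (b' : BAWb_DB V β) (w : rowN V α) (m : (Bv D).N) (w' : colN V β)
    (h : pr3 F w.1 m.1 w'.1 ∈ EAc V (jn α β)) :
    BAWb_th V hV b b' ⟨pr3 F w.1 m.1 w'.1, h⟩ =
      BAWb_B V hV (BAWb_zc V hV α w) m (BAWb_zc' V β w') := by
  have h1 : BAWb_B V hV (BAWb_zc V hV α w) m (BAWb_zc' V β w') =
      ∑ j, ∑ l, BAWb_B V hV (BAWb_zc V hV α (BAWb_ze V α (b.v j) (b.hv j)))
        ((Bv D).kbi.r (BAWb_gC β (fun a => w'.1 a (b'.v l)) (BAWb_gC_ok b' w' l))
          ((Bv D).kbi.l (BAWb_gR α (fun a => b.f j (w.1 a)) (BAWb_gR_ok b w j)) m))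
        (BAWb_zc' V β (BAWb_ze' V β (b'.f l) (b'.hf l))) := by
    rw [BAWb_rowdec V hV b w, BAWb_suml]
    refine Finset.sum_congr rfl fun j _ => ?_
    rw [BAWb_coldec V b' w']
    exact (BAWb_bal V hV _ m _ _).trans ((BAWb_sumr V hV _ _ _ _).trans
      (Finset.sum_congr rfl fun l _ => BAWb_bal' V hV _ _ _ _))
  rw [BAWb_th_apply, h1]
  refine Finset.sum_congr rfl fun j _ => Finset.sum_congr rfl fun l _ => ?_
  have h2 := BAWb_mat b b' w m.1 m.2 w' h j l
  exact (congrArg (fun x => BAWb_B V hV (BAWb_zc V hV α (BAWb_ze V α (b.v j) (b.hv j))) x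
    (BAWb_zc' V β (BAWb_ze' V β (b'.f l) (b'.hf l)))) h2).symm

theorem Phi_inj (V : LP k F.F) (hV : BSt V) : Function.Injective (Phi V hV) := by
  have b : ∀ c, BAWb_DB V c := fun c => Classical.choice (BAWb_DB_ex V hV c)
  let G : (CB V hV).M →ₗ[k] (CB V hV).M := ∑ α, ∑ β, BAWb_th V hV (b α) (b β) ∘ₗ
    LinearMap.codRestrict (EAc V (jn α β)) (LinearMap.proj β ∘ₗ LinearMap.proj α ∘ₗ Phi V hV)
      (fun x => Phi_mem V hV x α β)
  have hG0 : ∀ x, G x = ∑ α, ∑ β, BAWb_th V hV (b α) (b β) ⟨Phi V hV x α β,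
      Phi_mem V hV x α β⟩ := by
    intro x
    simp only [G, LinearMap.sum_apply]
    rfl
  have hG : ∀ x, G x = x := by
    refine CB_ind V hV (map_zero G) (fun x y hx hy => by rw [map_add, hx, hy]) ?_
    intro z m z'
    rw [hG0]
    have h1 : ∀ α β, BAWb_th V hV (b α) (b β) ⟨Phi V hV (tt3 V hV z m z') α β,
        Phi_mem V hV (tt3 V hV z m z') α β⟩ =
        BAWb_B V hV (BAWb_zc V hV α ⟨cz V hV α z, cz_mem V hV α z⟩) m
          (BAWb_zc' V β ⟨cz' V β z', cz'_mem V β z'⟩) := by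
      intro α β
      have h2 : pr3 F (cz V hV α z) m.1 (cz' V β z') ∈ EAc V (jn α β) := by
        rw [← Phi_tt3 V hV z m z' α β]
        exact Phi_mem V hV _ α β
      have h3 : (⟨Phi V hV (tt3 V hV z m z') α β, Phi_mem V hV (tt3 V hV z m z') α β⟩ :
          EAc V (jn α β)) = ⟨pr3 F (cz V hV α z) m.1 (cz' V β z'), h2⟩ :=
        Subtype.ext (Phi_tt3 V hV z m z' α β)
      rw [h3]
      exact BAWb_main V hV (b α) (b β) ⟨cz V hV α z, cz_mem V hV α z⟩ m
        ⟨cz' V β z', cz'_mem V β z'⟩ h2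
    rw [Finset.sum_congr rfl fun α _ => Finset.sum_congr rfl fun β _ => h1 α β]
    rw [← BAWb_B_apply]
    conv_rhs => rw [BAWb_zsum V hV z, BAWb_zsum' V z']
    rw [BAWb_suml]
    refine Finset.sum_congr rfl fun α _ => ?_
    rw [BAWb_sumr]
  intro x y hxy
  rw [← hG x, ← hG y, hG0, hG0]
  simp only [hxy]

private theorem BAWb_zdeg (V : LP k F.F) (hV : BSt V) (α : Fin 3) (w : rowN V α) :
    (ZL V hV).dg.IsDeg (if α = 2 then 1 else 0) (BAWb_zc V hV α w) := by
  fin_cases α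
  · exact Dg.two_deg0 _ _
  · exact Dg.two_deg0 _ _
  · exact Dg.two_deg1 _ _

private theorem BAWb_zdeg' (V : LP k F.F) (α : Fin 3) (w : colN V α) :
    (ZR V).dg.IsDeg (if α = 2 then 1 else 0) (BAWb_zc' V α w) := by
  fin_cases α
  · exact Dg.two_deg0 _ _
  · exact Dg.two_deg0 _ _
  · exact Dg.two_deg1 _ _

private theorem BAWb_deg (V : LP k F.F) (hV : BSt V) {α β : Fin 3} (w : rowN V α) (m : (Bv D).N)
    (w' : colN V β) : (CB V hV).dg.IsDeg (dg3 α β)
      (BAWb_B V hV (BAWb_zc V hV α w) m (BAWb_zc' V β w')) := by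
  have h1 := tb_deg (M := ZL V hV) (N := (Bv D).kbi.bim) (BAWb_zdeg V hV α w)
    (Dg.conc_deg (k := k) m)
  rw [add_zero] at h1
  exact tb_deg (M := tb (ZL V hV) (Bv D).kbi.bim) (N := ZR V) h1 (BAWb_zdeg' V β w')

private theorem BAWb_single (α β : Fin 3) (x : F.F) (m : D.L) (f : F.F →ₗ[D.L] D.L) (y : F.F) :
    pr3 F (fun a => if a = α then x else 0) (fun a b => if a = α ∧ b = β then m else 0)
      (fun b => if b = β then f else 0) y = m • f y • x := by
  rw [pr3_apply', Finset.sum_eq_single α, Finset.sum_eq_single β]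
  · rw [if_pos ⟨rfl, rfl⟩, if_pos rfl, if_pos rfl]
  · intro b _ hb
    rw [if_neg fun h => hb h.2, zero_smul]
  · intro h
    exact absurd (Finset.mem_univ β) h
  · intro a _ ha
    exact Finset.sum_eq_zero fun b _ => by rw [if_neg fun h => ha h.1, zero_smul]
  · intro h
    exact absurd (Finset.mem_univ α) h

/-- Every endomorphism is a value of `Phi`, in every place. -/
theorem Phi_surj (V : LP k F.F) (hV : BSt V) (α β : Fin 3) (e : Module.End D.L F.F)
    (he : e ∈ EAc V (jn α β)) : ∃ x : (CB V hV).M, (CB V hV).dg.IsDeg (dg3 α β) x ∧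
      Phi V hV x α β = e ∧ ∀ α' β', ¬ (α' = α ∧ β' = β) → Phi V hV x α' β' = 0 := by
  obtain ⟨b⟩ := BAWb_DB_ex V hV α
  obtain ⟨b'⟩ := BAWb_DB_ex V hV β
  have hP : ∀ α' β', Phi V hV (BAWb_th V hV b b' ⟨e, he⟩) α' β' = ∑ j, ∑ l,
      pr3 F (cz V hV α' (BAWb_zc V hV α (BAWb_ze V α (b.v j) (b.hv j))))
        (BAWb_mu α β (BAWb_ev b b' j l ⟨e, he⟩)).1
        (cz' V β' (BAWb_zc' V β (BAWb_ze' V β (b'.f l) (b'.hf l)))) := by
    intro α' β'
    rw [BAWb_th_apply, map_sum, Finset.sum_apply, Finset.sum_apply]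
    refine Finset.sum_congr rfl fun j _ => ?_
    rw [map_sum, Finset.sum_apply, Finset.sum_apply]
    exact Finset.sum_congr rfl fun l _ => Phi_tt3 V hV _ _ _ _ _
  refine ⟨BAWb_th V hV b b' ⟨e, he⟩, ?_, ?_, ?_⟩
  · rw [BAWb_th_apply]
    refine Finset.sum_induction _ (fun x => (CB V hV).dg.IsDeg (dg3 α β) x)
      (fun _ _ => Dg.IsDeg.add) (Dg.IsDeg.zero _) fun j _ => ?_
    exact Finset.sum_induction _ (fun x => (CB V hV).dg.IsDeg (dg3 α β) x)
      (fun _ _ => Dg.IsDeg.add) (Dg.IsDeg.zero _) fun l _ => BAWb_deg V hV _ _ _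
  · rw [hP]
    refine LinearMap.ext fun y => ?_
    rw [LinearMap.sum_apply]
    have h1 : ∀ j l, pr3 F (cz V hV α (BAWb_zc V hV α (BAWb_ze V α (b.v j) (b.hv j))))
        (BAWb_mu α β (BAWb_ev b b' j l ⟨e, he⟩)).1
        (cz' V β (BAWb_zc' V β (BAWb_ze' V β (b'.f l) (b'.hf l)))) y =
        b.f j (e (b'.v l)) • b'.f l y • b.v j := by
      intro j l
      rw [BAWb_cz_zc, BAWb_cz_zc']
      exact BAWb_single α β (b.v j) (b.f j (e (b'.v l))) (b'.f l) y
    have h2 : e y = ∑ l, ∑ j, b.f j (e (b'.v l)) • b'.f l y • b.v j := by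
      conv_lhs => rw [b'.hx y]
      rw [map_sum]
      refine Finset.sum_congr rfl fun l _ => ?_
      rw [map_smul]
      conv_lhs => rw [b.hx (e (b'.v l))]
      rw [Finset.smul_sum]
      exact Finset.sum_congr rfl fun j _ => smul_comm _ _ _
    rw [h2, Finset.sum_comm]
    refine Finset.sum_congr rfl fun j _ => ?_
    rw [LinearMap.sum_apply]
    exact Finset.sum_congr rfl fun l _ => h1 j l
  · intro α' β' h
    rw [hP]
    refine Finset.sum_eq_zero fun j _ => Finset.sum_eq_zero fun l _ => ?_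
    by_cases hα : α' = α
    · rw [BAWb_cz_zc_ne' V (fun hβ => h ⟨hα, hβ⟩), map_zero]
    · rw [BAWb_cz_zc_ne V hV hα, map_zero]
      rfl

end Pool.Agent.MP_6e5bed_ag_KC
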