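import Pool.Agent.Lib.MP_6e5bed_ag_KC.BAWb
import Pool.Agent.Lib.MP_6e5bed_ag_CV.FCRes

set_option autoImplicit false
set_option linter.unusedSectionVars false

/-!
# The class of the diagonal (project KC, part B3)

The map `AW : CB V hV → W`, `x ↦ (x 0 0, x 1 1; x 0 2 + x 2 1)`, is a map of dg bimodules (by
`Phi_l`, `Phi_r`, `Phi_d`, `Phi_deg`) and a quasi-isomorphism.

Proof of the latter. Surjective in cohomology: by `Phi_surj` there is `σ` of degree 0 with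
`Phi σ α β = 1` for `α, β ∈ {0, 1}` and zero otherwise; it is closed, `AW σ = 1`, so
`AW (w σ) = w`. Injective: let `d x = 0` and `AW x = d y`; replace `x` by `x - d (y σ)`:
`AW x = 0`. Let `X = Phi x`. `X 0 0 = X 1 1 = 0`, and `d x = 0` gives `X 0 1 = X 1 0 = 0`,
`X 2 1 = - X 0 2`, `X 1 2 = - X 2 0`. Choose (`Phi_surj`) `y` with the components
`(0, 1) : X 0 2`, `(1, 0) : - X 1 2` and `(2, 0) : X 2 2`; then `d y = x`, as `Phi` is injective.
-/

namespace Pool.Agent.MP_6e5bed_ag_KC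

open RatFunc Pool.Agent.MP_6e5bed_ag_NC

universe u

variable {k : Type u} [Field k] {D : FExt k} {F : LSp D}

private noncomputable def BAWc_f (V : LP k F.F) (hV : BSt V) :
    (CB V hV).M →ₗ[k] (EA0 V × EA1 V) × EA01 V where
  toFun := fun x => (((⟨Phi V hV x 0 0, Phi_mem V hV x 0 0⟩, ⟨Phi V hV x 1 1,
        Phi_mem V hV x 1 1⟩), ⟨Phi V hV x 0 2 + Phi V hV x 2 1,
          Submodule.add_mem (EAc V 2) (Phi_mem V hV x 0 2) (Phi_mem V hV x 2 1)⟩) :
            (EA0 V × EA1 V) × EA01 V)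
  map_add' := fun x y => by
    have h : ∀ α β, Phi V hV (x + y) α β = Phi V hV x α β + Phi V hV y α β := fun α β =>
      congrFun (congrFun (map_add (Phi V hV) x y) α) β
    refine Prod.ext (Prod.ext (Subtype.ext (h 0 0)) (Subtype.ext (h 1 1))) (Subtype.ext ?_)
    change Phi V hV (x + y) 0 2 + Phi V hV (x + y) 2 1 =
      (Phi V hV x 0 2 + Phi V hV x 2 1) + (Phi V hV y 0 2 + Phi V hV y 2 1)
    rw [h, h]
    abel
  map_smul' := fun c x => by
    have h : ∀ α β, Phi V hV (c • x) α β = c • Phi V hV x α β := fun α β =>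
      congrFun (congrFun (map_smul (Phi V hV) c x) α) β
    refine Prod.ext (Prod.ext (Subtype.ext (h 0 0)) (Subtype.ext (h 1 1))) (Subtype.ext ?_)
    change Phi V hV (c • x) 0 2 + Phi V hV (c • x) 2 1 =
      c • (Phi V hV x 0 2 + Phi V hV x 2 1)
    rw [h, h, smul_add]

private theorem BAWc_deg (V : LP k F.F) (hV : BSt V) {i : ℤ} {x : (CB V hV).M}
    (hx : (CB V hV).dg.IsDeg i x) : (Dg.two (endCosp V).δ).IsDeg i (BAWc_f V hV x) := by
  by_cases h0 : i = 0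
  · subst h0
    refine Dg.two_deg0' _ (Subtype.ext ?_)
    change Phi V hV x 0 2 + Phi V hV x 2 1 = 0
    rw [Phi_deg V hV hx 0 2 (by decide), Phi_deg V hV hx 2 1 (by decide), add_zero]
  · by_cases h1 : i = 1
    · subst h1
      refine Dg.two_deg1' _ (Prod.ext (Subtype.ext ?_) (Subtype.ext ?_))
      · exact Phi_deg V hV hx 0 0 (by decide)
      · exact Phi_deg V hV hx 1 1 (by decide)
    · have e : BAWc_f V hV x = 0 := by
        refine Prod.ext (Prod.ext (Subtype.ext ?_) (Subtype.ext ?_)) (Subtype.ext ?_)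
        · exact Phi_deg V hV hx 0 0 (fun h => h0 (h.symm.trans (by decide)))
        · exact Phi_deg V hV hx 1 1 (fun h => h0 (h.symm.trans (by decide)))
        · change Phi V hV x 0 2 + Phi V hV x 2 1 = 0
          rw [Phi_deg V hV hx 0 2 (fun h => h1 (h.symm.trans (by decide))),
            Phi_deg V hV hx 2 1 (fun h => h1 (h.symm.trans (by decide))), add_zero]
      rw [e]
      exact Dg.IsDeg.zero i

private theorem BAWc_l (V : LP k F.F) (hV : BSt V) (a : (EA0 V × EA1 V) × EA01 V)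
    (x : (CB V hV).M) :
    BAWc_f V hV ((CB V hV).l a x) = (endCosp V).cmul a (BAWc_f V hV x) := by
  refine Prod.ext (Prod.ext (Subtype.ext ?_) (Subtype.ext ?_)) (Subtype.ext ?_)
  · exact (Phi_l V hV a x 0).1
  · exact (Phi_l V hV a x 1).2.1
  · change Phi V hV ((CB V hV).l a x) 0 2 + Phi V hV ((CB V hV).l a x) 2 1 =
      a.1.1.1 * (Phi V hV x 0 2 + Phi V hV x 2 1) + a.2.1 * Phi V hV x 1 1
    rw [(Phi_l V hV a x 2).1, (Phi_l V hV a x 1).2.2, mul_add]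
    abel

private theorem BAWc_r (V : LP k F.F) (hV : BSt V) (a : (EA0 V × EA1 V) × EA01 V)
    (x : (CB V hV).M) :
    BAWc_f V hV ((CB V hV).r a x) = (endCosp V).cmul (BAWc_f V hV x) a := by
  refine Prod.ext (Prod.ext (Subtype.ext ?_) (Subtype.ext ?_)) (Subtype.ext ?_)
  · exact (Phi_r V hV a x 0).1
  · exact (Phi_r V hV a x 1).2.1
  · change Phi V hV ((CB V hV).r a x) 0 2 + Phi V hV ((CB V hV).r a x) 2 1 =
      Phi V hV x 0 0 * a.2.1 + (Phi V hV x 0 2 + Phi V hV x 2 1) * a.1.2.1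
    rw [(Phi_r V hV a x 0).2.2, (Phi_r V hV a x 2).2.1, add_mul]
    abel

private theorem BAWc_d (V : LP k F.F) (hV : BSt V) (x : (CB V hV).M) :
    (Dg.two (endCosp V).δ).d (BAWc_f V hV x) = BAWc_f V hV ((CB V hV).dg.d x) := by
  have h := Phi_d V hV x
  have h00 : Phi V hV ((CB V hV).dg.d x) 0 0 = 0 := congrFun (congrFun h 0) 0
  have h11 : Phi V hV ((CB V hV).dg.d x) 1 1 = 0 := congrFun (congrFun h 1) 1
  have h02 : Phi V hV ((CB V hV).dg.d x) 0 2 = Phi V hV x 0 1 - Phi V hV x 0 0 :=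
    congrFun (congrFun h 0) 2
  have h21 : Phi V hV ((CB V hV).dg.d x) 2 1 = Phi V hV x 1 1 - Phi V hV x 0 1 :=
    congrFun (congrFun h 2) 1
  refine Prod.ext (Prod.ext (Subtype.ext h00.symm) (Subtype.ext h11.symm)) (Subtype.ext ?_)
  change Phi V hV x 1 1 - Phi V hV x 0 0 =
    Phi V hV ((CB V hV).dg.d x) 0 2 + Phi V hV ((CB V hV).dg.d x) 2 1
  rw [h02, h21]
  abel

/-- The comparison of the double Čech complex and the Čech complex. -/
noncomputable def AW (V : LP k F.F) (hV : BSt V) : GMap 0 (CB V hV) (diag (endCosp V).cech) where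
  f :=
    { toFun := fun x => (((⟨Phi V hV x 0 0, Phi_mem V hV x 0 0⟩, ⟨Phi V hV x 1 1,
        Phi_mem V hV x 1 1⟩), ⟨Phi V hV x 0 2 + Phi V hV x 2 1,
          Submodule.add_mem (EAc V 2) (Phi_mem V hV x 0 2) (Phi_mem V hV x 2 1)⟩) :
            (EA0 V × EA1 V) × EA01 V)
      map_add' := fun x y => (BAWc_f V hV).map_add x y
      map_smul' := fun c x => (BAWc_f V hV).map_smul c x }
  deg := fun {i m} hm => by
    rw [add_zero]
    exact BAWc_deg V hV hm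
  map_l := fun a m => by
    rw [Dg.sp_even Even.zero]
    exact BAWc_l V hV a m
  map_r := fun b m => BAWc_r V hV b m

private theorem BAWc_AW (V : LP k F.F) (hV : BSt V) (x : (CB V hV).M) :
    (AW V hV).f x = BAWc_f V hV x := rfl

/-- The unit of the double Čech complex. -/
private theorem BAWc_one (V : LP k F.F) (hV : BSt V) : ∃ σ : (CB V hV).M,
    (∀ α β : Fin 3, Phi V hV σ α β = if α = 2 ∨ β = 2 then 0 else 1) := by
  have h1 : ∀ c : Fin 3, (1 : Module.End D.L F.F) ∈ EAc V c := fun c v hv => hv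
  obtain ⟨a, -, ha, ha'⟩ := Phi_surj V hV 0 0 1 (h1 _)
  obtain ⟨b, -, hb, hb'⟩ := Phi_surj V hV 0 1 1 (h1 _)
  obtain ⟨c, -, hc, hc'⟩ := Phi_surj V hV 1 0 1 (h1 _)
  obtain ⟨d, -, hd, hd'⟩ := Phi_surj V hV 1 1 1 (h1 _)
  refine ⟨a + b + c + d, fun α β => ?_⟩
  have e : Phi V hV (a + b + c + d) α β = Phi V hV a α β + Phi V hV b α β + Phi V hV c α β +
      Phi V hV d α β := by
    rw [map_add, map_add, map_add]
    rfl
  rw [e]
  fin_cases α <;> fin_cases β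
  · change Phi V hV a 0 0 + Phi V hV b 0 0 + Phi V hV c 0 0 + Phi V hV d 0 0 = 1
    rw [ha, hb' 0 0 (by decide), hc' 0 0 (by decide), hd' 0 0 (by decide)]
    simp
  · change Phi V hV a 0 1 + Phi V hV b 0 1 + Phi V hV c 0 1 + Phi V hV d 0 1 = 1
    rw [ha' 0 1 (by decide), hb, hc' 0 1 (by decide), hd' 0 1 (by decide)]
    simp
  · change Phi V hV a 0 2 + Phi V hV b 0 2 + Phi V hV c 0 2 + Phi V hV d 0 2 = 0
    rw [ha' 0 2 (by decide), hb' 0 2 (by decide), hc' 0 2 (by decide), hd' 0 2 (by decide)]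
    simp
  · change Phi V hV a 1 0 + Phi V hV b 1 0 + Phi V hV c 1 0 + Phi V hV d 1 0 = 1
    rw [ha' 1 0 (by decide), hb' 1 0 (by decide), hc, hd' 1 0 (by decide)]
    simp
  · change Phi V hV a 1 1 + Phi V hV b 1 1 + Phi V hV c 1 1 + Phi V hV d 1 1 = 1
    rw [ha' 1 1 (by decide), hb' 1 1 (by decide), hc' 1 1 (by decide), hd]
    simp
  · change Phi V hV a 1 2 + Phi V hV b 1 2 + Phi V hV c 1 2 + Phi V hV d 1 2 = 0
    rw [ha' 1 2 (by decide), hb' 1 2 (by decide), hc' 1 2 (by decide), hd' 1 2 (by decide)]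
    simp
  · change Phi V hV a 2 0 + Phi V hV b 2 0 + Phi V hV c 2 0 + Phi V hV d 2 0 = 0
    rw [ha' 2 0 (by decide), hb' 2 0 (by decide), hc' 2 0 (by decide), hd' 2 0 (by decide)]
    simp
  · change Phi V hV a 2 1 + Phi V hV b 2 1 + Phi V hV c 2 1 + Phi V hV d 2 1 = 0
    rw [ha' 2 1 (by decide), hb' 2 1 (by decide), hc' 2 1 (by decide), hd' 2 1 (by decide)]
    simp
  · change Phi V hV a 2 2 + Phi V hV b 2 2 + Phi V hV c 2 2 + Phi V hV d 2 2 = 0
    rw [ha' 2 2 (by decide), hb' 2 2 (by decide), hc' 2 2 (by decide), hd' 2 2 (by decide)]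
    simp

private theorem BAWc_ext (V : LP k F.F) (hV : BSt V) {x y : (CB V hV).M}
    (h00 : Phi V hV x 0 0 = Phi V hV y 0 0) (h01 : Phi V hV x 0 1 = Phi V hV y 0 1)
    (h02 : Phi V hV x 0 2 = Phi V hV y 0 2) (h10 : Phi V hV x 1 0 = Phi V hV y 1 0)
    (h11 : Phi V hV x 1 1 = Phi V hV y 1 1) (h12 : Phi V hV x 1 2 = Phi V hV y 1 2)
    (h20 : Phi V hV x 2 0 = Phi V hV y 2 0) (h21 : Phi V hV x 2 1 = Phi V hV y 2 1)
    (h22 : Phi V hV x 2 2 = Phi V hV y 2 2) : x = y := by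
  refine Phi_inj V hV (funext fun α => funext fun β => ?_)
  fin_cases α <;> fin_cases β
  exacts [h00, h01, h02, h10, h11, h12, h20, h21, h22]

private theorem BAWc_dc (V : LP k F.F) (hV : BSt V) (x : (CB V hV).M) :
    (Phi V hV ((CB V hV).dg.d x) 0 0 = 0 ∧ Phi V hV ((CB V hV).dg.d x) 0 1 = 0 ∧
      Phi V hV ((CB V hV).dg.d x) 0 2 = Phi V hV x 0 1 - Phi V hV x 0 0) ∧
    (Phi V hV ((CB V hV).dg.d x) 1 0 = 0 ∧ Phi V hV ((CB V hV).dg.d x) 1 1 = 0 ∧
      Phi V hV ((CB V hV).dg.d x) 1 2 = Phi V hV x 1 1 - Phi V hV x 1 0) ∧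
    Phi V hV ((CB V hV).dg.d x) 2 0 = Phi V hV x 1 0 - Phi V hV x 0 0 ∧
    Phi V hV ((CB V hV).dg.d x) 2 1 = Phi V hV x 1 1 - Phi V hV x 0 1 ∧
    Phi V hV ((CB V hV).dg.d x) 2 2 = Phi V hV x 1 2 - Phi V hV x 0 2 -
      (Phi V hV x 2 1 - Phi V hV x 2 0) := by
  have h := Phi_d V hV x
  exact ⟨⟨congrFun (congrFun h 0) 0, congrFun (congrFun h 0) 1, congrFun (congrFun h 0) 2⟩,
    ⟨congrFun (congrFun h 1) 0, congrFun (congrFun h 1) 1, congrFun (congrFun h 1) 2⟩,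
    congrFun (congrFun h 2) 0, congrFun (congrFun h 2) 1, congrFun (congrFun h 2) 2⟩

/-- The unit is closed, and is sent to the unit. -/
private theorem BAWc_unit (V : LP k F.F) (hV : BSt V) : ∃ σ : (CB V hV).M,
    (CB V hV).dg.d σ = 0 ∧ BAWc_f V hV σ = ((1, 1), 0) := by
  obtain ⟨σ, hσ⟩ := BAWc_one V hV
  have s00 : Phi V hV σ 0 0 = 1 := (hσ 0 0).trans (if_neg (by decide))
  have s01 : Phi V hV σ 0 1 = 1 := (hσ 0 1).trans (if_neg (by decide))
  have s02 : Phi V hV σ 0 2 = 0 := (hσ 0 2).trans (if_pos (by decide))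
  have s10 : Phi V hV σ 1 0 = 1 := (hσ 1 0).trans (if_neg (by decide))
  have s11 : Phi V hV σ 1 1 = 1 := (hσ 1 1).trans (if_neg (by decide))
  have s12 : Phi V hV σ 1 2 = 0 := (hσ 1 2).trans (if_pos (by decide))
  have s20 : Phi V hV σ 2 0 = 0 := (hσ 2 0).trans (if_pos (by decide))
  have s21 : Phi V hV σ 2 1 = 0 := (hσ 2 1).trans (if_pos (by decide))
  obtain ⟨⟨d00, d01, d02⟩, ⟨d10, d11, d12⟩, d20, d21, d22⟩ := BAWc_dc V hV σ
  have z : ∀ α β : Fin 3, Phi V hV (0 : (CB V hV).M) α β = 0 := fun α β => by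
    rw [map_zero]
    rfl
  refine ⟨σ, BAWc_ext V hV ?_ ?_ ?_ ?_ ?_ ?_ ?_ ?_ ?_, ?_⟩
  · rw [d00, z]
  · rw [d01, z]
  · rw [d02, z, s01, s00, sub_self]
  · rw [d10, z]
  · rw [d11, z]
  · rw [d12, z, s11, s10, sub_self]
  · rw [d20, z, s10, s00, sub_self]
  · rw [d21, z, s11, s01, sub_self]
  · rw [d22, z, s12, s02, s21, s20, sub_self]
  · refine Prod.ext (Prod.ext (Subtype.ext s00) (Subtype.ext s11)) (Subtype.ext ?_)
    change Phi V hV σ 0 2 + Phi V hV σ 2 1 = 0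
    rw [s02, s21, add_zero]

/-- The kernel of `AW` is acyclic. -/
private theorem BAWc_ker (V : LP k F.F) (hV : BSt V) (x : (CB V hV).M)
    (hd : (CB V hV).dg.d x = 0) (h0 : BAWc_f V hV x = 0) : ∃ z, (CB V hV).dg.d z = x := by
  have x00 : Phi V hV x 0 0 = 0 := congrArg (fun w : (EA0 V × EA1 V) × EA01 V => w.1.1.1) h0
  have x11 : Phi V hV x 1 1 = 0 := congrArg (fun w : (EA0 V × EA1 V) × EA01 V => w.1.2.1) h0
  have xs : Phi V hV x 0 2 + Phi V hV x 2 1 = 0 :=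
    congrArg (fun w : (EA0 V × EA1 V) × EA01 V => w.2.1) h0
  obtain ⟨⟨d00, d01, d02⟩, ⟨d10, d11, d12⟩, d20, d21, d22⟩ := BAWc_dc V hV x
  have z : ∀ α β : Fin 3, Phi V hV ((CB V hV).dg.d x) α β = 0 := fun α β => by
    rw [hd, map_zero]
    rfl
  rw [z] at d02 d12 d22
  have x01 : Phi V hV x 0 1 = 0 := by
    rw [x00, sub_zero] at d02
    exact d02.symm
  have x10 : Phi V hV x 1 0 = 0 := by
    rw [x11, zero_sub] at d12
    exact neg_eq_zero.1 d12.symm
  have x21 : Phi V hV x 2 1 = - Phi V hV x 0 2 := eq_neg_of_add_eq_zero_right xs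
  have x20 : Phi V hV x 2 0 = - Phi V hV x 1 2 := by
    rw [x21] at d22
    have e : Phi V hV x 1 2 - Phi V hV x 0 2 - (-Phi V hV x 0 2 - Phi V hV x 2 0) =
      Phi V hV x 1 2 + Phi V hV x 2 0 := by abel
    rw [e] at d22
    exact eq_neg_of_add_eq_zero_right d22.symm
  obtain ⟨a, -, ha, ha'⟩ := Phi_surj V hV 0 1 (Phi V hV x 0 2) (Phi_mem V hV x 0 2)
  obtain ⟨b, -, hb, hb'⟩ := Phi_surj V hV 1 0 (- Phi V hV x 1 2)
    (Submodule.neg_mem _ (Phi_mem V hV x 1 2))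
  obtain ⟨c, -, hc, hc'⟩ := Phi_surj V hV 2 0 (Phi V hV x 2 2) (Phi_mem V hV x 2 2)
  have e : ∀ α β, Phi V hV (a + b + c) α β =
      Phi V hV a α β + Phi V hV b α β + Phi V hV c α β := fun α β => by
    rw [map_add, map_add]
    rfl
  have y00 : Phi V hV (a + b + c) 0 0 = 0 := by
    rw [e, ha' 0 0 (by decide), hb' 0 0 (by decide), hc' 0 0 (by decide), add_zero, add_zero]
  have y01 : Phi V hV (a + b + c) 0 1 = Phi V hV x 0 2 := by
    rw [e, ha, hb' 0 1 (by decide), hc' 0 1 (by decide), add_zero, add_zero]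
  have y02 : Phi V hV (a + b + c) 0 2 = 0 := by
    rw [e, ha' 0 2 (by decide), hb' 0 2 (by decide), hc' 0 2 (by decide), add_zero, add_zero]
  have y10 : Phi V hV (a + b + c) 1 0 = - Phi V hV x 1 2 := by
    rw [e, ha' 1 0 (by decide), hb, hc' 1 0 (by decide), add_zero, zero_add]
  have y11 : Phi V hV (a + b + c) 1 1 = 0 := by
    rw [e, ha' 1 1 (by decide), hb' 1 1 (by decide), hc' 1 1 (by decide), add_zero, add_zero]
  have y12 : Phi V hV (a + b + c) 1 2 = 0 := by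
    rw [e, ha' 1 2 (by decide), hb' 1 2 (by decide), hc' 1 2 (by decide), add_zero, add_zero]
  have y20 : Phi V hV (a + b + c) 2 0 = Phi V hV x 2 2 := by
    rw [e, ha' 2 0 (by decide), hb' 2 0 (by decide), hc, zero_add, zero_add]
  have y21 : Phi V hV (a + b + c) 2 1 = 0 := by
    rw [e, ha' 2 1 (by decide), hb' 2 1 (by decide), hc' 2 1 (by decide), add_zero, add_zero]
  obtain ⟨⟨e00, e01, e02⟩, ⟨e10, e11, e12⟩, e20, e21, e22⟩ := BAWc_dc V hV (a + b + c)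
  refine ⟨a + b + c, BAWc_ext V hV ?_ ?_ ?_ ?_ ?_ ?_ ?_ ?_ ?_⟩
  · rw [e00, x00]
  · rw [e01, x01]
  · rw [e02, y01, y00, sub_zero]
  · rw [e10, x10]
  · rw [e11, x11]
  · rw [e12, y11, y10, zero_sub, neg_neg]
  · rw [e20, y10, y00, sub_zero, x20]
  · rw [e21, y11, y01, zero_sub, x21]
  · rw [e22, y12, y02, y21, y20, sub_zero, zero_sub, zero_sub, neg_neg]

private theorem BAWc_act (V : LP k F.F) (hV : BSt V) {σ : (CB V hV).M}
    (hσ : BAWc_f V hV σ = ((1, 1), 0)) (y : (EA0 V × EA1 V) × EA01 V) :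
    BAWc_f V hV ((CB V hV).l y σ) = y := by
  rw [BAWc_l, hσ]
  exact (endCosp V).cech.mul_one y

private theorem BAWc_inj (V : LP k F.F) (hV : BSt V) {σ : (CB V hV).M}
    (hσ : BAWc_f V hV σ = ((1, 1), 0)) (x : (CB V hV).M) (hx : (CB V hV).dg.d x = 0)
    (y : (EA0 V × EA1 V) × EA01 V) (hy : (Dg.two (endCosp V).δ).d y = BAWc_f V hV x) :
    ∃ z, (CB V hV).dg.d z = x := by
  have h0 : BAWc_f V hV ((CB V hV).dg.d ((CB V hV).l y σ)) = BAWc_f V hV x := by
    rw [← hy, ← BAWc_d, BAWc_act V hV hσ]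
  have h1 : BAWc_f V hV (x - (CB V hV).dg.d ((CB V hV).l y σ)) = 0 := by
    rw [map_sub, h0, sub_self]
  have h2 : (CB V hV).dg.d (x - (CB V hV).dg.d ((CB V hV).l y σ)) = 0 := by
    rw [map_sub, hx, (CB V hV).dg.d_d, sub_zero]
  obtain ⟨z, hz⟩ := BAWc_ker V hV _ h2 h1
  refine ⟨z + (CB V hV).l y σ, ?_⟩
  rw [map_add, hz, sub_add_cancel]

private theorem BAWc_surj (V : LP k F.F) (hV : BSt V) {σ : (CB V hV).M}
    (hσd : (CB V hV).dg.d σ = 0) (y : (endCosp V).cech.A)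
    (hy : (endCosp V).cech.dg.d y = 0) : (CB V hV).dg.d ((CB V hV).l y σ) = 0 := by
  rw [(CB V hV).d_l, hy, hσd, map_zero, map_zero, LinearMap.zero_apply, add_zero]

theorem AW_qiso (V : LP k F.F) (hV : BSt V) : QIso (AW V hV) := by
  obtain ⟨σ, hσd, hσ⟩ := BAWc_unit V hV
  refine ⟨?_, ?_, ?_⟩
  · refine LinearMap.ext fun x => ?_
    have h1 : (sg 0) • BAWc_f V hV ((CB V hV).dg.d x) = BAWc_f V hV ((CB V hV).dg.d x) := by
      rw [sg, if_pos Even.zero, one_smul]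
    have h2 : ∀ u : (EA0 V × EA1 V) × EA01 V, u = BAWc_f V hV ((CB V hV).dg.d x) →
        u - (sg 0) • BAWc_f V hV ((CB V hV).dg.d x) = 0 := by
      intro u hu
      rw [h1, hu, sub_self]
    exact h2 _ (BAWc_d V hV x)
  · rintro x hx ⟨y, hy⟩
    exact BAWc_inj V hV hσ x hx y hy
  · intro y hy
    refine ⟨(CB V hV).l y σ, BAWc_surj V hV hσd y hy, 0, ?_⟩
    have h1 : (AW V hV).f ((CB V hV).l y σ) = y := BAWc_act V hV hσ y
    rw [map_zero, h1]
    exact (sub_self y).symm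

/-- The class of the structure sheaf of the diagonal. -/
theorem ecl_CB (V : LP k F.F) (hV : BSt V) (hW : Smooth (endCosp V).cech)
    (hP : Proper (endCosp V).cech) : HasRes (CB V hV) ∧ ecl (CB V hV) = K0Q.one hW := by
  have h1 : HasRes (diag (endCosp V).cech) := Smooth.hasRes_diag hW
  refine ⟨h1.of_qiso' (AW V hV) (AW_qiso V hV), ?_⟩
  rw [ecl_qiso (AW V hV) (AW_qiso V hV), ecl_eq h1]
  exact rcls_diag hW hP h1

end Pool.Agent.MP_6e5bed_ag_KC
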