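import Pool.Agent.Lib.MP_6e5bed_ag_KC.Defs
import Pool.Agent.Lib.MP_6e5bed_ag_CV.Datum
import Pool.Agent.Lib.MP_6e5bed_ag_CV.TDef

set_option autoImplicit false
set_option linter.unusedSectionVars false

/-!
# Project KC: the rings of functions on the charts of a curve

Charts: `0` (where `t` is finite), `1` (where `1/t` is finite), `2` (where `t` and `1/t` are
finite).
-/

namespace Pool.Agent.MP_6e5bed_ag_KC

open RatFunc
open Pool.Agent.MP_6e5bed_ag_NC

universe u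

variable {k : Type u} [Field k]

/-- The function `t`. -/
noncomputable def tt (D : FExt k) : D.L := algebraMap (RatFunc k) D.L X

theorem tt_ne_zero (D : FExt k) : tt D ≠ 0 := by
  rw [tt, Ne, FaithfulSMul.algebraMap_eq_zero_iff]
  exact RatFunc.X_ne_zero

/-- The functions regular where `t` is finite: the integral closure of `k[t]`. -/
noncomputable abbrev A0 (D : FExt k) : Subalgebra (kk k X) D.L := integralClosure (kk k X) D.L

/-- The functions regular where `1/t` is finite: the integral closure of `k[1/t]`. -/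
noncomputable abbrev A1 (D : FExt k) : Subalgebra (kk k X⁻¹) D.L := integralClosure (kk k X⁻¹) D.L

theorem mem_cp0 (D : FExt k) (b : D.L) : b ∈ (LP.OO D).cp 0 ↔ b ∈ A0 D := Iff.rfl

theorem mem_cp1 (D : FExt k) (b : D.L) : b ∈ (LP.OO D).cp 1 ↔ b ∈ A1 D := Iff.rfl

theorem smul_tt (D : FExt k) (n : ℕ) (b : D.L) :
    (X : RatFunc k) ^ n • b = tt D ^ n * b := by
  rw [Algebra.smul_def, map_pow]
  rfl

theorem smul_tt_inv (D : FExt k) (n : ℕ) (b : D.L) :
    ((X : RatFunc k)⁻¹) ^ n • b = (tt D)⁻¹ ^ n * b := by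
  rw [Algebra.smul_def, map_pow, map_inv₀]
  rfl

theorem mem_cp2 (D : FExt k) (b : D.L) :
    b ∈ (LP.OO D).cp 2 ↔ ∃ n : ℕ, tt D ^ n * b ∈ A0 D := by
  refine exists_congr fun n => ?_
  rw [smul_tt]
  rfl

theorem mem_cp2' (D : FExt k) (b : D.L) :
    b ∈ (LP.OO D).cp 2 ↔ ∃ n : ℕ, (tt D)⁻¹ ^ n * b ∈ A1 D := by
  refine (LP.mem_N01' (LP.OO D)).trans (exists_congr fun n => ?_)
  rw [smul_tt_inv]
  rfl

/-- The rings of functions on the charts, as subalgebras over `k`. -/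
noncomputable def BB (D : FExt k) (c : Fin 3) : Subalgebra k D.L where
  carrier := {b | b ∈ (LP.OO D).cp c}
  mul_mem' := by
    intro a b ha hb
    fin_cases c
    · exact (A0 D).mul_mem ha hb
    · exact (A1 D).mul_mem ha hb
    · obtain ⟨n, hn⟩ := (mem_cp2 D a).1 ha
      obtain ⟨m, hm⟩ := (mem_cp2 D b).1 hb
      refine (mem_cp2 D _).2 ⟨n + m, ?_⟩
      have h := (A0 D).mul_mem hn hm
      have e : tt D ^ n * a * (tt D ^ m * b) = tt D ^ (n + m) * (a * b) := by ring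
      rwa [e] at h
  add_mem' := fun {a b} ha hb => ((LP.OO D).cp c).add_mem ha hb
  algebraMap_mem' := by
    intro r
    have h1 : algebraMap k D.L r = r • (1 : D.L) := Algebra.algebraMap_eq_smul_one r
    rw [h1]
    refine Submodule.smul_mem ((LP.OO D).cp c) r ?_
    fin_cases c
    · exact (A0 D).one_mem
    · exact (A1 D).one_mem
    · refine (mem_cp2 D _).2 ⟨0, ?_⟩
      rw [pow_zero, one_mul]
      exact (A0 D).one_mem

theorem mem_BB {D : FExt k} {c : Fin 3} {b : D.L} : b ∈ BB D c ↔ b ∈ (LP.OO D).cp c := Iff.rfl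

theorem mem_BB0 {D : FExt k} {b : D.L} : b ∈ BB D 0 ↔ b ∈ A0 D := Iff.rfl

theorem mem_BB1 {D : FExt k} {b : D.L} : b ∈ BB D 1 ↔ b ∈ A1 D := Iff.rfl

theorem mem_BB2 {D : FExt k} {b : D.L} : b ∈ BB D 2 ↔ ∃ n : ℕ, tt D ^ n * b ∈ BB D 0 :=
  mem_cp2 D b

theorem mem_BB2' {D : FExt k} {b : D.L} : b ∈ BB D 2 ↔ ∃ n : ℕ, (tt D)⁻¹ ^ n * b ∈ BB D 1 :=
  mem_cp2' D b

theorem BB_le (D : FExt k) (c : Fin 3) : BB D c ≤ BB D 2 := by
  intro b hb
  fin_cases c
  · exact mem_BB2.2 ⟨0, by rw [pow_zero, one_mul]; exact hb⟩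
  · exact mem_BB2'.2 ⟨0, by rw [pow_zero, one_mul]; exact hb⟩
  · exact hb

theorem tt_mem_BB0 (D : FExt k) : tt D ∈ BB D 0 := by
  have h : IsIntegral (kk k X) (algebraMap (kk k X) D.L (kk.gen k X)) := isIntegral_algebraMap
  exact h

theorem tt_inv_mem_BB1 (D : FExt k) : (tt D)⁻¹ ∈ BB D 1 := by
  have h : IsIntegral (kk k X⁻¹) (algebraMap (kk k X⁻¹) D.L (kk.gen k X⁻¹)) :=
    isIntegral_algebraMap
  have e : algebraMap (kk k X⁻¹) D.L (kk.gen k X⁻¹) = (tt D)⁻¹ := by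
    change algebraMap (RatFunc k) D.L (X⁻¹) = _
    rw [map_inv₀]
    rfl
  rw [e] at h
  exact h

end Pool.Agent.MP_6e5bed_ag_KC
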