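import Pool.Agent.Lib.MP_6e5bed_ag_KC.BFlat
import Pool.Agent.Lib.MP_6e5bed_ag_CV.FCRes
import Pool.Agent.Lib.MP_6e5bed_ag_CV.KFilt
import Pool.Agent.Lib.MP_6e5bed_ag_CV.JSpan
import Pool.Agent.Lib.MP_6e5bed_ag_CV.ClsTors

set_option autoImplicit false
set_option linter.unusedSectionVars false

/-!
# Finite-dimensional bimodules (project KC, part B3)

Let `Z` be perfect as a right module over the algebra `R` and `Z'` as a left module over `R'`.
The class of `Z ⊗_R Q ⊗_R' Z'`, for a finite-dimensional bimodule `Q`, is in `FIN W`, the span of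
the morphisms through the unit object.

Proof. `tb Z P` and `tb (fgL Z) P` have the same underlying complex, and for `Y` perfect over
`base k`, `ring k R` the complex `tb Y P` has finite-dimensional cohomology, for `P` finite-
dimensional (induction on `Perf Y`; `tb (free (base k) _) P` is `P`, by `tb_free_left`). For the
second statement: `KBi.ind`, `KBi.Simple.ext` (`Q ≅ ext P P'`), `C1_ext` and `JS.tb_base`.
-/

namespace Pool.Agent.MP_6e5bed_ag_NC

universe u

variable {k : Type u} [Field k] {W W' : DGA k} {R R' : Type u} [Ring R] [Algebra k R] [Ring R']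
  [Algebra k R']

/-- The span of the morphisms through the unit object. -/
noncomputable def FIN (T : DGA k) : Submodule ℚ (K0Q T T) := JS (fun X => X = base k) T

private theorem BFin_iso {A B : DGA k} {M N : Bim A B} (h : BIso M N) (hM : M.dg.FinCoh) :
    N.dg.FinCoh := FinCoh.summand h.summand hM

private theorem BFin_fd {A B : DGA k} (M : Bim A B) (hM : Module.Finite k M.M) :
    M.dg.FinCoh := by
  have : Module.Finite k M.M := hM
  unfold Dg.FinCoh
  infer_instance

theorem finCoh_fdL {Z : Bim W (ring k R)} (hZ : RPerf Z) (P : Bim (ring k R) (base k))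
    (hP : Module.Finite k P.M) : (tb Z P).dg.FinCoh := by
  have hP1 : Perf (fgL P) := (perf_of_finCoh (BFin_fd (fgL P) hP)).choose
  have h1 : Perf (tb (free (base k) (ring k R)) P) :=
    (tb_free_left (base k) P).symm.perf (Perf.tb proper_base Perf.free hP1)
  have h2 : Perf (tb (fgL Z) P) := (tbR (base k) P).perf h1 hZ
  have e : BIso (res (DHom.unit W) (DHom.id (base k)) (tb Z P)) (tb (fgL Z) P) :=
    res_tb (DHom.unit W) (DHom.id (base k)) Z P
  have h3 : (res (DHom.unit W) (DHom.id (base k)) (tb Z P)).dg.FinCoh :=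
    BFin_iso (M := tb (fgL Z) P) e.symm h2.finCoh
  exact h3

theorem finCoh_fdR {Z' : Bim (ring k R') W'} (hZ' : LPerf Z') (P : Bim (base k) (ring k R'))
    (hP : Module.Finite k P.M) : (tb P Z').dg.FinCoh := by
  have hP1 : Perf (fgR P) := (perf_of_finCoh (BFin_fd (fgR P) hP)).choose
  have h1 : Perf (tb P (free (ring k R') (base k))) :=
    (tb_free_right P (base k)).symm.perf (Perf.tb proper_base hP1 Perf.free)
  have h2 : Perf (tb P (fgR Z')) := (tbL P (base k)).perf h1 hZ'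
  have e : BIso (res (DHom.id (base k)) (DHom.unit W') (tb P Z')) (tb P (fgR Z')) :=
    res_tb (DHom.id (base k)) (DHom.unit W') P Z'
  have h3 : (res (DHom.id (base k)) (DHom.unit W') (tb P Z')).dg.FinCoh :=
    BFin_iso (M := tb P (fgR Z')) e.symm h2.finCoh
  exact h3

private theorem BFin_unit : DHom.unit (ring k k) = (DHom.id (ring k k) : DHom (base k) _) :=
  DHom.ext fun (c : k) => by
    change c • (1 : k) = c
    rw [smul_eq_mul, mul_one]

private theorem BFin_extb (P : KBi k R k) (Q : KBi k k R') :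
    BIso (KBi.ext P Q).bim (tb (B := base k) P.bim Q.bim) := by
  have h := KBi.ext_bim (DHom.id (ring k R)) (DHom.id (ring k R')) P Q
  rw [BFin_unit] at h
  exact h

theorem C1_ext (Z : Bim W (ring k R)) (Z' : Bim (ring k R') W') (P : KBi k R k)
    (Q : KBi k k R') : BIso ((C1 Z Z').obj (KBi.ext P Q).bim)
      (tb (tb (C := base k) Z P.bim) (tb (A := base k) Q.bim Z')) := by
  have e1 : BIso ((C1 Z Z').obj (KBi.ext P Q).bim)
      (tb (tb Z (tb (B := base k) P.bim Q.bim)) Z') := (C1 Z Z').biso (BFin_extb P Q)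
  have e2 : BIso (tb (tb Z (tb (B := base k) P.bim Q.bim)) Z')
      (tb (tb (C := ring k R') (tb (C := base k) Z P.bim) Q.bim) Z') :=
    (tbR W Z').biso (tb_assoc (C := base k) Z P.bim Q.bim).symm
  exact (e1.trans e2).trans (tb_assoc (B := base k) (tb (C := base k) Z P.bim) Q.bim Z')

private theorem BFin_ext {A B A' B' : DGA k} {F : DGFun A B A' B'} (hF : FEx F)
    {M' M M'' : Bim A B} (h : IsSes M' M M'') :
    ∃ C : Bim A' B', IsExt (F.obj M) C ((F.obj M').shift 1) ∧
      ∃ q : GMap 0 C (F.obj M''), QIso q := by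
  obtain ⟨i, h0, q, hq⟩ := h.cone
  exact ⟨F.obj (cone i h0), (F.isCone (isCone_cone i h0)).isExt, F.map q, hF.qiso q hq⟩

private theorem BFin_mid {A B A' B' : DGA k} {F : DGFun A B A' B'} (hF : FEx F)
    {M' M M'' : Bim A B} (h : IsSes M' M M'') (h' : HasRes (F.obj M'))
    (h'' : HasRes (F.obj M'')) : HasRes (F.obj M) := by
  obtain ⟨C, hE, q, hq⟩ := BFin_ext hF h
  exact hE.isSes.left (h''.of_qiso' q hq) (h'.shift 1)

private theorem BFin_left {A B A' B' : DGA k} {F : DGFun A B A' B'} (hF : FEx F)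
    {M' M M'' : Bim A B} (h : IsSes M' M M'') (hM : HasRes (F.obj M))
    (h'' : HasRes (F.obj M'')) : HasRes (F.obj M') := by
  obtain ⟨C, hE, q, hq⟩ := BFin_ext hF h
  have h1 : HasRes ((F.obj M').shift 1) := hE.isSes.right hM (h''.of_qiso' q hq)
  exact (h1.shift (-1)).iso (shift_shift _ 1)

private theorem BFin_ses {U' U U'' : KBi k R R'} (h : KBi.IsSes U' U U'') :
    MP_6e5bed_ag_NC.IsSes U'.bim U.bim U''.bim :=
  h.bim (DHom.id (ring k R)) (DHom.id (ring k R'))

private theorem BFin_kiso {U V : KBi k R R'} (h : KBi.Iso U V) : BIso U.bim V.bim :=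
  h.biso (DHom.id (ring k R)) (DHom.id (ring k R'))

/-- a quotient bimodule -/
private noncomputable def BFin_q (U : KBi k R R') (X : Submodule k U.M)
    (hl : ∀ a, ∀ x ∈ X, U.l a x ∈ X) (hr : ∀ b, ∀ x ∈ X, U.r b x ∈ X) : KBi k R R' where
  M := U.M ⧸ X
  l :=
    { toFun := fun a => X.mapQ X (U.l a) (hl a)
      map_add' := fun a a' => by ext v; simp
      map_smul' := fun c a => by ext v; simp }
  r :=
    { toFun := fun a => X.mapQ X (U.r a) (hr a)
      map_add' := fun a a' => by ext v; simp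
      map_smul' := fun c a => by ext v; simp }
  l_one := fun v => by
    obtain ⟨w, rfl⟩ := Submodule.Quotient.mk_surjective _ v
    exact congrArg _ (U.l_one w)
  r_one := fun v => by
    obtain ⟨w, rfl⟩ := Submodule.Quotient.mk_surjective _ v
    exact congrArg _ (U.r_one w)
  l_mul := fun a a' v => by
    obtain ⟨w, rfl⟩ := Submodule.Quotient.mk_surjective _ v
    exact congrArg _ (U.l_mul a a' w)
  r_mul := fun a a' v => by
    obtain ⟨w, rfl⟩ := Submodule.Quotient.mk_surjective _ v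
    exact congrArg _ (U.r_mul a a' w)
  l_r := fun a b v => by
    obtain ⟨w, rfl⟩ := Submodule.Quotient.mk_surjective _ v
    exact congrArg _ (U.l_r a b w)

private theorem BFin_quot (U' U : KBi k R R') (i : U'.M →ₗ[k] U.M)
    (hi : Function.Injective i) (hl : ∀ a x, i (U'.l a x) = U.l a (i x))
    (hr : ∀ b x, i (U'.r b x) = U.r b (i x))
    (hf : Module.Finite k (U.M ⧸ LinearMap.range i)) :
    ∃ U'' : KBi k R R', Module.Finite k U''.M ∧ KBi.IsSes U' U U'' := by
  have hl' : ∀ a, ∀ x ∈ LinearMap.range i, U.l a x ∈ LinearMap.range i := by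
    rintro a _ ⟨x, rfl⟩
    exact ⟨_, hl a x⟩
  have hr' : ∀ b, ∀ x ∈ LinearMap.range i, U.r b x ∈ LinearMap.range i := by
    rintro b _ ⟨x, rfl⟩
    exact ⟨_, hr b x⟩
  refine ⟨BFin_q U (LinearMap.range i) hl' hr', hf, i, (LinearMap.range i).mkQ, hi,
    (LinearMap.range i).mkQ_surjective, fun x => ?_, hl, hr, fun _ _ => rfl, fun _ _ => rfl⟩
  exact (Submodule.Quotient.mk_eq_zero (LinearMap.range i) (x := x)).trans Iff.rfl

theorem ecl_fin [IsAlgClosed k] (hW : Smooth W) {Z : Bim W (ring k R)} (hZ : RPerf Z)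
    {Z' : Bim (ring k R') W} (hZ' : LPerf Z') (Q : KBi k R R') (hQ : Module.Finite k Q.M) :
    HasRes ((C1 Z Z').obj Q.bim) ∧ ecl ((C1 Z Z').obj Q.bim) ∈ FIN W := by
  have hex : FEx (C1 Z Z') := C1_ex hZ hZ'
  refine KBi.ind (P := fun Q => HasRes ((C1 Z Z').obj Q.bim) ∧
    ecl ((C1 Z Z').obj Q.bim) ∈ FIN W) ?_ ?_ ?_ Q hQ
  · intro U hU
    have h1 : Acyc U.bim := fun x _ => ⟨x, @Subsingleton.elim U.M hU _ _⟩
    have h2 : Acyc ((C1 Z Z').obj U.bim) := hex _ h1
    refine ⟨HasRes.of_acyc h2, ?_⟩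
    rw [ecl_acyc h2]
    exact Submodule.zero_mem _
  · intro U hf hs
    obtain ⟨P, Q, hP, hQ, -, -, hi⟩ := KBi.Simple.ext U hf hs
    have e1 : BIso (tb (tb (C := base k) Z P.bim) (tb (A := base k) Q.bim Z'))
        ((C1 Z Z').obj U.bim) :=
      (C1_ext Z Z' P Q).symm.trans ((C1 Z Z').biso (BFin_kiso hi))
    have h1 : HasRes (tb (C := base k) Z P.bim) :=
      HasRes.of_finCoh hW smooth_base _ (finCoh_fdL hZ P.bim hP)
    have h2 : HasRes (tb (A := base k) Q.bim Z') :=
      HasRes.of_finCoh smooth_base hW _ (finCoh_fdR hZ' Q.bim hQ)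
    have h3 : HasRes (tb (tb (C := base k) Z P.bim) (tb (A := base k) Q.bim Z')) :=
      HasRes.tb proper_base h1 h2 (rflat_base _)
    refine ⟨h3.iso e1, ?_⟩
    rw [← ecl_iso e1, ecl_eq h3]
    exact JS.tb_base (Good := fun X => X = base k) rfl h1 h2 h3
  · intro U' U U'' hse hf h1 h2
    refine ⟨BFin_mid hex (BFin_ses hse) h1.1 h2.1, ?_⟩
    rw [hex.ecl_ses (BFin_ses hse) h1.1 h2.1]
    exact Submodule.add_mem _ h1.2 h2.2

/-- Modulo `FIN` the class does not change under inclusions with finite-dimensional cokernel. -/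
theorem ecl_congr [IsAlgClosed k] (hW : Smooth W) {Z : Bim W (ring k R)} (hZ : RPerf Z)
    {Z' : Bim (ring k R') W} (hZ' : LPerf Z') (U' U : KBi k R R') (i : U'.M →ₗ[k] U.M)
    (hi : Function.Injective i) (hl : ∀ a x, i (U'.l a x) = U.l a (i x))
    (hr : ∀ b x, i (U'.r b x) = U.r b (i x))
    (hf : Module.Finite k (U.M ⧸ LinearMap.range i)) (h : HasRes ((C1 Z Z').obj U'.bim)) :
    HasRes ((C1 Z Z').obj U.bim) ∧
      ecl ((C1 Z Z').obj U.bim) - ecl ((C1 Z Z').obj U'.bim) ∈ FIN W := by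
  obtain ⟨U'', hf', hs⟩ := BFin_quot U' U i hi hl hr hf
  obtain ⟨h1, h2⟩ := ecl_fin hW hZ hZ' U'' hf'
  have hex : FEx (C1 Z Z') := C1_ex hZ hZ'
  refine ⟨BFin_mid hex (BFin_ses hs) h h1, ?_⟩
  rw [hex.ecl_ses (BFin_ses hs) h h1, add_sub_cancel_left]
  exact h2

/-- The same for the smaller bimodule. -/
theorem ecl_congr' [IsAlgClosed k] (hW : Smooth W) {Z : Bim W (ring k R)} (hZ : RPerf Z)
    {Z' : Bim (ring k R') W} (hZ' : LPerf Z') (U' U : KBi k R R') (i : U'.M →ₗ[k] U.M)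
    (hi : Function.Injective i) (hl : ∀ a x, i (U'.l a x) = U.l a (i x))
    (hr : ∀ b x, i (U'.r b x) = U.r b (i x))
    (hf : Module.Finite k (U.M ⧸ LinearMap.range i)) (h : HasRes ((C1 Z Z').obj U.bim)) :
    HasRes ((C1 Z Z').obj U'.bim) ∧
      ecl ((C1 Z Z').obj U.bim) - ecl ((C1 Z Z').obj U'.bim) ∈ FIN W := by
  obtain ⟨U'', hf', hs⟩ := BFin_quot U' U i hi hl hr hf
  obtain ⟨h1, h2⟩ := ecl_fin hW hZ hZ' U'' hf'
  have hex : FEx (C1 Z Z') := C1_ex hZ hZ'
  have h' : HasRes ((C1 Z Z').obj U'.bim) := BFin_left hex (BFin_ses hs) h h1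
  refine ⟨h', ?_⟩
  rw [hex.ecl_ses (BFin_ses hs) h' h1, add_sub_cancel_left]
  exact h2

/-- Additivity for bimodules over algebras. -/
theorem ecl_kses (hW : Smooth W) {Z : Bim W (ring k R)} (hZ : RPerf Z) {Z' : Bim (ring k R') W}
    (hZ' : LPerf Z') {U' U U'' : KBi k R R'} (h : KBi.IsSes U' U U'')
    (h' : HasRes ((C1 Z Z').obj U'.bim)) (h'' : HasRes ((C1 Z Z').obj U''.bim)) :
    HasRes ((C1 Z Z').obj U.bim) ∧ ecl ((C1 Z Z').obj U.bim) =
      ecl ((C1 Z Z').obj U'.bim) + ecl ((C1 Z Z').obj U''.bim) := by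
  exact ⟨BFin_mid (C1_ex hZ hZ') (BFin_ses h) h' h'',
    (C1_ex hZ hZ').ecl_ses (BFin_ses h) h' h''⟩

theorem ecl_kses_left (hW : Smooth W) {Z : Bim W (ring k R)} (hZ : RPerf Z)
    {Z' : Bim (ring k R') W} (hZ' : LPerf Z') {U' U U'' : KBi k R R'} (h : KBi.IsSes U' U U'')
    (hU : HasRes ((C1 Z Z').obj U.bim)) (h'' : HasRes ((C1 Z Z').obj U''.bim)) :
    HasRes ((C1 Z Z').obj U'.bim) ∧ ecl ((C1 Z Z').obj U.bim) =
      ecl ((C1 Z Z').obj U'.bim) + ecl ((C1 Z Z').obj U''.bim) := by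
  have h' : HasRes ((C1 Z Z').obj U'.bim) := BFin_left (C1_ex hZ hZ') (BFin_ses h) hU h''
  exact ⟨h', (C1_ex hZ hZ').ecl_ses (BFin_ses h) h' h''⟩

end Pool.Agent.MP_6e5bed_ag_NC
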