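import Pool.Agent.Lib.MP_6e5bed_ag_KC.OA

set_option autoImplicit false
set_option linter.unusedSectionVars false

/-!
# Bimodules from commuting actions: permutations, products, characters (project KC)
-/

namespace Pool.Agent.MP_6e5bed_ag_NC

open scoped TensorProduct
open Equiv

universe u

variable {k : Type u} [Field k] {G G' : Type u} [Ring G] [Algebra k G] [Ring G'] [Algebra k G']

namespace Acts

variable {p q : ℕ}

/-- Permutation of the left actions. -/
def permL (E : Acts k G G' p q) (σ : Perm (Fin p)) : Acts k G G' p q where
  V := E.V
  l := fun i => E.l (σ i)
  r := E.r
  l_one := fun i => E.l_one (σ i)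
  r_one := E.r_one
  l_mul := fun i => E.l_mul (σ i)
  r_mul := E.r_mul
  l_l := fun i j h => E.l_l (σ i) (σ j) (fun e => h (σ.injective e))
  r_r := E.r_r
  l_r := fun i => E.l_r (σ i)

/-- Permutation of the right actions. -/
def permR (E : Acts k G G' p q) (σ : Perm (Fin q)) : Acts k G G' p q where
  V := E.V
  l := E.l
  r := fun i => E.r (σ i)
  l_one := E.l_one
  r_one := fun i => E.r_one (σ i)
  l_mul := E.l_mul
  r_mul := fun i => E.r_mul (σ i)
  l_l := E.l_l
  r_r := fun i j h => E.r_r (σ i) (σ j) (fun e => h (σ.injective e))
  l_r := fun i j => E.l_r i (σ j)

/-- The product of a `G`-`G'`-bimodule and a vector space with actions. -/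
noncomputable def boxU (U : KBi k G G') (E : Acts k G G' p q) :
    Acts k G G' (p + 1) (q + 1) where
  V := U.M ⊗[k] E.V
  l := Fin.cons ((LinearMap.rTensorHom E.V).comp U.l)
    (fun i => (LinearMap.lTensorHom U.M).comp (E.l i))
  r := Fin.cons ((LinearMap.rTensorHom E.V).comp U.r)
    (fun i => (LinearMap.lTensorHom U.M).comp (E.r i))
  l_one := by
    intro i m
    refine Fin.cases ?_ (fun i => ?_) i
    · induction m using TensorProduct.induction_on with
      | zero => simp
      | add x y hx hy => rw [map_add, hx, hy]
      | tmul x y => simp [U.l_one]
    · induction m using TensorProduct.induction_on with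
      | zero => simp
      | add x y hx hy => rw [map_add, hx, hy]
      | tmul x y => simp [E.l_one]
  r_one := by
    intro i m
    refine Fin.cases ?_ (fun i => ?_) i
    · induction m using TensorProduct.induction_on with
      | zero => simp
      | add x y hx hy => rw [map_add, hx, hy]
      | tmul x y => simp [U.r_one]
    · induction m using TensorProduct.induction_on with
      | zero => simp
      | add x y hx hy => rw [map_add, hx, hy]
      | tmul x y => simp [E.r_one]
  l_mul := by
    intro i a b m
    refine Fin.cases ?_ (fun i => ?_) i
    · induction m using TensorProduct.induction_on with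
      | zero => simp
      | add x y hx hy => simp only [map_add, hx, hy]
      | tmul x y => simp [U.l_mul]
    · induction m using TensorProduct.induction_on with
      | zero => simp
      | add x y hx hy => simp only [map_add, hx, hy]
      | tmul x y => simp [E.l_mul]
  r_mul := by
    intro i a b m
    refine Fin.cases ?_ (fun i => ?_) i
    · induction m using TensorProduct.induction_on with
      | zero => simp
      | add x y hx hy => simp only [map_add, hx, hy]
      | tmul x y => simp [U.r_mul]
    · induction m using TensorProduct.induction_on with
      | zero => simp
      | add x y hx hy => simp only [map_add, hx, hy]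
      | tmul x y => simp [E.r_mul]
  l_l := by
    intro i j
    refine Fin.cases ?_ (fun i => ?_) i <;> refine Fin.cases ?_ (fun j => ?_) j
    · intro h
      exact absurd rfl h
    · intro _ a b m
      induction m using TensorProduct.induction_on with
      | zero => simp
      | add x y hx hy => simp only [map_add, hx, hy]
      | tmul x y => simp
    · intro _ a b m
      induction m using TensorProduct.induction_on with
      | zero => simp
      | add x y hx hy => simp only [map_add, hx, hy]
      | tmul x y => simp
    · intro h a b m
      have h' : i ≠ j := fun e => h (by rw [e])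
      induction m using TensorProduct.induction_on with
      | zero => simp
      | add x y hx hy => simp only [map_add, hx, hy]
      | tmul x y => simp [E.l_l i j h']
  r_r := by
    intro i j
    refine Fin.cases ?_ (fun i => ?_) i <;> refine Fin.cases ?_ (fun j => ?_) j
    · intro h
      exact absurd rfl h
    · intro _ a b m
      induction m using TensorProduct.induction_on with
      | zero => simp
      | add x y hx hy => simp only [map_add, hx, hy]
      | tmul x y => simp
    · intro _ a b m
      induction m using TensorProduct.induction_on with
      | zero => simp
      | add x y hx hy => simp only [map_add, hx, hy]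
      | tmul x y => simp
    · intro h a b m
      have h' : i ≠ j := fun e => h (by rw [e])
      induction m using TensorProduct.induction_on with
      | zero => simp
      | add x y hx hy => simp only [map_add, hx, hy]
      | tmul x y => simp [E.r_r i j h']
  l_r := by
    intro i j a b m
    induction m using TensorProduct.induction_on with
    | zero => simp
    | add x y hx hy => simp only [map_add, hx, hy]
    | tmul x y =>
      refine Fin.cases ?_ (fun i => ?_) i <;> refine Fin.cases ?_ (fun j => ?_) j
      · simp [U.l_r]
      · simp
      · simp
      · simp [E.l_r]

/-- Forget the first left action. -/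
def tailL (E : Acts k G G' (p + 1) q) : Acts k G G' p q where
  V := E.V
  l := fun i => E.l i.succ
  r := E.r
  l_one := fun i => E.l_one i.succ
  r_one := E.r_one
  l_mul := fun i => E.l_mul i.succ
  r_mul := E.r_mul
  l_l := fun i j h => E.l_l i.succ j.succ (fun e => h (Fin.succ_injective _ e))
  r_r := E.r_r
  l_r := fun i => E.l_r i.succ

/-- Forget the first right action. -/
def tailR (E : Acts k G G' p (q + 1)) : Acts k G G' p q where
  V := E.V
  l := E.l
  r := fun i => E.r i.succ
  l_one := E.l_one
  r_one := fun i => E.r_one i.succ
  l_mul := E.l_mul
  r_mul := fun i => E.r_mul i.succ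
  l_l := E.l_l
  r_r := fun i j h => E.r_r i.succ j.succ (fun e => h (Fin.succ_injective _ e))
  l_r := fun i j => E.l_r i j.succ

end Acts

/-- The one-dimensional left module given by a character. -/
noncomputable def kapL (χ : G →ₐ[k] k) : Bim (ring k G) (base k) :=
  res (⟨χ.toLinearMap, fun {i a} ha => by
    rcases Dg.conc_cases ha with rfl | rfl
    · exact base_deg _
    · rw [map_zero]; exact Dg.IsDeg.zero _, fun a => by
      change (0 : k) = χ 0
      rw [map_zero], map_one χ, map_mul χ⟩ : DHom (ring k G) (base k)) (DHom.id (base k))
    (diag (base k))

/-- The one-dimensional right module given by a character. -/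
noncomputable def kapR (χ : G →ₐ[k] k) : Bim (base k) (ring k G) :=
  res (DHom.id (base k)) (⟨χ.toLinearMap, fun {i a} ha => by
    rcases Dg.conc_cases ha with rfl | rfl
    · exact base_deg _
    · rw [map_zero]; exact Dg.IsDeg.zero _, fun a => by
      change (0 : k) = χ 0
      rw [map_zero], map_one χ, map_mul χ⟩ : DHom (ring k G) (base k)) (diag (base k))

end Pool.Agent.MP_6e5bed_ag_NC
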