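import Pool.Agent.Lib.MP_6e5bed_ag_KC.BZPerf
import Pool.Agent.Lib.MP_6e5bed_ag_KC.BFin
import Pool.Agent.Lib.MP_6e5bed_ag_KC.OB

set_option autoImplicit false
set_option linter.unusedSectionVars false

/-!
# The fibre of a vector bundle at the point at infinity (project KC, part B4)

For a character `χ` of `Gam D` which vanishes on the matrices whose entry `1`, `1` vanishes, the
module `ZL V ⊗ κ` is a quotient of `V.cp 1`, in degree `0`; it is finite-dimensional, if `χ` also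
vanishes on the matrices whose entry `1`, `1` is `1/t`.
-/

namespace Pool.Agent.MP_6e5bed_ag_KC

open RatFunc Pool.Agent.MP_6e5bed_ag_NC

universe u

variable {k : Type u} [Field k] {D : FExt k} {F : LSp D} (V : LP k F.F)

/-- The fibre of `V`. -/
noncomputable def SL (hV : BSt V) (χ : Gam D →ₐ[k] k) : Bim (endCosp V).cech (base k) :=
  tb (ZL V hV) (kapL χ)

/-- The fibre of the dual of `V`. -/
noncomputable def SR (χ : Gam' D →ₐ[k] k) : Bim (base k) (endCosp V).cech :=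
  tb (kapR χ) (ZR V)

/-- the matrix with one entry -/
private noncomputable def BChi_e (a b : Fin 3) (h : Le3 b a) (x : D.L) (hx : x ∈ BB D a) :
    Gam D :=
  ⟨fun i j => if i = a ∧ j = b then x else 0, fun i j => by
    dsimp only
    by_cases hij : i = a ∧ j = b
    · obtain ⟨rfl, rfl⟩ := hij
      rw [if_pos (And.intro rfl rfl)]
      exact ⟨hx, fun h' => absurd h h'⟩
    · rw [if_neg hij]
      exact ⟨(BB D i).zero_mem, fun _ => rfl⟩⟩

private theorem BChi_e_apply (a b : Fin 3) (h : Le3 b a) (x : D.L) (hx : x ∈ BB D a)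
    (i j : Fin 3) : (BChi_e a b h x hx).1 i j = if i = a ∧ j = b then x else 0 := rfl

/-- elements of the bimodule `ZL` -/
private noncomputable def BChi_mk (hV : BSt V) (w0 : rowN V 0) (w1 : rowN V 1) (w2 : rowN V 2) :
    (ZL V hV).M :=
  (((w0, w1), w2) : (rowN V 0 × rowN V 1) × rowN V 2)

/-- the action of a matrix on a row -/
private noncomputable def BChi_a (hV : BSt V) (c : Fin 3) (g : Gam D) (w : rowN V c) : rowN V c :=
  ⟨(rowE V).r g w.1, rowN_r hV c g w.1 w.2⟩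

private theorem BChi_a_apply (hV : BSt V) (c : Fin 3) (g : Gam D) (w : rowN V c) (j : Fin 3) :
    (BChi_a V hV c g w).1 j = ∑ i, g.1 i j • w.1 i := rfl

private theorem BChi_r (hV : BSt V) (g : Gam D) (w0 : rowN V 0) (w1 : rowN V 1)
    (w2 : rowN V 2) : (ZL V hV).r g (BChi_mk V hV w0 w1 w2) =
      BChi_mk V hV (BChi_a V hV 0 g w0) (BChi_a V hV 1 g w1) (BChi_a V hV 2 g w2) := by
  change (rowS V hV).tri.cr ((g, g), 0) ((w0, w1), w2) = _
  rw [Tri.cr_apply]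
  change (((rowS V hV).tri.M0.r g w0, (rowS V hV).tri.M1.r g w1),
    (rowS V hV).tri.M01.r 0 ((rowS V hV).tri.ρ0 w0) + (rowS V hV).tri.M01.r g w2) = _
  rw [map_zero, LinearMap.zero_apply, zero_add]
  rfl

private theorem BChi_ind (hV : BSt V) {p : (ZL V hV).M → Prop}
    (h : ∀ w0 w1 w2, p (BChi_mk V hV w0 w1 w2)) (z : (ZL V hV).M) : p z := by
  obtain ⟨⟨w0, w1⟩, w2⟩ := (z : (rowN V 0 × rowN V 1) × rowN V 2)
  exact h w0 w1 w2

private theorem BChi_kill (hV : BSt V) (χ : Gam D →ₐ[k] k) (g : Gam D) (hg : χ g = 0)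
    (z : (ZL V hV).M) (c : (kapL χ).M) : (tm ((ZL V hV).r g z) c : (SL V hV χ).M) = 0 := by
  have h1 : (tm ((ZL V hV).r g z) c : (SL V hV χ).M) = tm z ((kapL χ).l g c) := tm_r_l _ _ _
  have h2 : (kapL χ).l g c = 0 := by
    have h3 : ∀ c' : k, χ g * c' = 0 := fun c' => by rw [hg, zero_mul]
    exact h3 c
  rw [h1, h2]
  exact tm_zero_right _

/-- the row with the entry `v` at `1` -/
private noncomputable def BChi_row (c : Fin 3) (h : Le3 1 c) : V.cp c →ₗ[k] rowN V c where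
  toFun v := ⟨fun j => if j = 1 then v.1 else 0, fun j => by
    dsimp only
    by_cases hj : j = 1
    · subst hj
      rw [if_pos rfl]
      exact ⟨v.2, fun h' => absurd h h'⟩
    · rw [if_neg hj]
      exact ⟨(V.cp c).zero_mem, fun _ => rfl⟩⟩
  map_add' v v' := Subtype.ext (funext fun j => by
    change (if j = 1 then (v.1 + v'.1) else 0) = (if j = 1 then v.1 else 0) +
      (if j = 1 then v'.1 else 0)
    split_ifs
    · rfl
    · rw [add_zero])
  map_smul' r v := Subtype.ext (funext fun j => by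
    change (if j = 1 then (r • v.1) else 0) = r • (if j = 1 then v.1 else 0)
    split_ifs
    · rfl
    · rw [smul_zero])

private noncomputable def BChi_in0 : V.cp 1 →ₗ[k] (rowN V 0 × rowN V 1) × rowN V 2 :=
  LinearMap.inl k (rowN V 0 × rowN V 1) (rowN V 2) ∘ₗ LinearMap.inr k (rowN V 0) (rowN V 1) ∘ₗ
    BChi_row V 1 (Le3.refl 1)

/-- the map `V.cp 1 → ZL` -/
private noncomputable def BChi_in (hV : BSt V) : V.cp 1 →ₗ[k] (ZL V hV).M := BChi_in0 V

private theorem BChi_dec (hV : BSt V) (w0 : rowN V 0) (w1 : rowN V 1) (w2 : rowN V 2) :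
    BChi_mk V hV w0 w1 w2 =
      (ZL V hV).r (BChi_e 0 0 (Le3.refl 0) 1 (BB D 0).one_mem) (BChi_mk V hV w0 w1 w2) +
      (ZL V hV).r (BChi_e 2 2 (Le3.refl 2) 1 (BB D 2).one_mem) (BChi_mk V hV w0 w1 w2) +
      (ZL V hV).r (BChi_e 2 1 (Le3.two 1) 1 (BB D 2).one_mem)
        (BChi_mk V hV 0 0 ⟨fun j => if j = 2 then w2.1 1 else 0, fun j => by
          refine ⟨?_, fun h => absurd (Le3.two j) h⟩
          dsimp only
          split_ifs
          · exact (w2.2 1).1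
          · exact (V.cp 2).zero_mem⟩) +
      BChi_in V hV ⟨w1.1 1, (w1.2 1).1⟩ := by
  rw [BChi_r, BChi_r, BChi_r]
  have z01 : w0.1 1 = 0 := (w0.2 1).2 (by decide)
  have z02 : w0.1 2 = 0 := (w0.2 2).2 (by decide)
  have z10 : w1.1 0 = 0 := (w1.2 0).2 (by decide)
  have z12 : w1.1 2 = 0 := (w1.2 2).2 (by decide)
  refine Prod.ext (Prod.ext ?_ ?_) ?_
  · refine Subtype.ext (funext fun j => ?_)
    change w0.1 j = (∑ i, (BChi_e 0 0 (Le3.refl 0) (1 : D.L) (BB D 0).one_mem).1 i j • w0.1 i) +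
      (∑ i, (BChi_e 2 2 (Le3.refl 2) (1 : D.L) (BB D 2).one_mem).1 i j • w0.1 i) +
      (∑ i, (BChi_e 2 1 (Le3.two 1) (1 : D.L) (BB D 2).one_mem).1 i j • (0 : F.F)) + 0
    simp only [BChi_e_apply, Fin.sum_univ_three]
    fin_cases j <;> simp [z01, z02]
  · refine Subtype.ext (funext fun j => ?_)
    change w1.1 j = (∑ i, (BChi_e 0 0 (Le3.refl 0) (1 : D.L) (BB D 0).one_mem).1 i j • w1.1 i) +
      (∑ i, (BChi_e 2 2 (Le3.refl 2) (1 : D.L) (BB D 2).one_mem).1 i j • w1.1 i) +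
      (∑ i, (BChi_e 2 1 (Le3.two 1) (1 : D.L) (BB D 2).one_mem).1 i j • (0 : F.F)) +
      (if j = 1 then w1.1 1 else 0)
    simp only [BChi_e_apply, Fin.sum_univ_three]
    fin_cases j <;> simp [z10, z12]
  · refine Subtype.ext (funext fun j => ?_)
    change w2.1 j = (∑ i, (BChi_e 0 0 (Le3.refl 0) (1 : D.L) (BB D 0).one_mem).1 i j • w2.1 i) +
      (∑ i, (BChi_e 2 2 (Le3.refl 2) (1 : D.L) (BB D 2).one_mem).1 i j • w2.1 i) +
      (∑ i, (BChi_e 2 1 (Le3.two 1) (1 : D.L) (BB D 2).one_mem).1 i j •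
        (if i = 2 then w2.1 1 else 0)) + 0
    simp only [BChi_e_apply, Fin.sum_univ_three]
    fin_cases j <;> simp

private theorem BChi_tm (hV : BSt V) (χ : Gam D →ₐ[k] k) (h : ∀ g : Gam D, g.1 1 1 = 0 → χ g = 0)
    (w0 : rowN V 0) (w1 : rowN V 1) (w2 : rowN V 2) (c : (kapL χ).M) :
    (tm (BChi_mk V hV w0 w1 w2) c : (SL V hV χ).M) =
      tm (BChi_in V hV ⟨w1.1 1, (w1.2 1).1⟩) c := by
  have h0 := BChi_dec V hV w0 w1 w2
  have h1 : (tm (BChi_mk V hV w0 w1 w2) c : (SL V hV χ).M) = _ :=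
    congrArg (fun z => (tm z c : (SL V hV χ).M)) h0
  refine h1.trans ?_
  have k0 : χ (BChi_e 0 0 (Le3.refl 0) 1 (BB D 0).one_mem) = 0 := h _ (by
    rw [BChi_e_apply, if_neg (by decide)])
  have k2 : χ (BChi_e 2 2 (Le3.refl 2) 1 (BB D 2).one_mem) = 0 := h _ (by
    rw [BChi_e_apply, if_neg (by decide)])
  have k1 : χ (BChi_e 2 1 (Le3.two 1) 1 (BB D 2).one_mem) = 0 := h _ (by
    rw [BChi_e_apply, if_neg (by decide)])
  rw [tm_add_left, tm_add_left, tm_add_left, BChi_kill V hV χ _ k0,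
    BChi_kill V hV χ _ k2, BChi_kill V hV χ _ k1,
    zero_add, zero_add, zero_add]

/-- Proof. An element of `SL` is a sum of elements `tm z c` (`tb_ind`), `c : k`,
`z = ((w0, w1), w2)` with `w c ∈ rowN V c`. By `tm_r_l` and `(kapL χ).l g c = χ g * c`,
`tm (z g) c = tm z (χ g * c)`, so `tm (z g) c = 0` if `g 1 1 = 0`. Let `e a b (x)` be the matrix
with the entry `x` at `a`, `b` and `0` elsewhere, in `Gam D` if `x ∈ BB D a` and `Le3 b a`.
`w e 0 0 (1) = (w 0, 0, 0)`, `w e 2 2 (1) = (0, 0, w 2)` and `w e 2 1 (1) = (0, w 2, 0)`; every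
`w ∈ rowN V 2` is the sum of `w e 0 0 (1)`, `w e 2 2 (1)` and `(0, 0, w 1) e 2 1 (1)`, and
`w0 = w0 e 0 0 (1)`. Hence `tm ((w0, w1), w2) c = tm ((0, w1), 0) c`, which has degree `0`
(`tm_deg` or `tb_deg`). -/
theorem SL_zero (hV : BSt V) (χ : Gam D →ₐ[k] k) (h : ∀ g : Gam D, g.1 1 1 = 0 → χ g = 0) :
    (SL V hV χ).dg.Zero := by
  intro x
  refine tb_ind (P := fun x => (SL V hV χ).dg.IsDeg 0 x) (Dg.IsDeg.zero _)
    (fun x y hx hy => hx.add hy) (fun z c => ?_) x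
  refine BChi_ind V hV (p := fun z => (SL V hV χ).dg.IsDeg 0 (tm z c)) (fun w0 w1 w2 => ?_) z
  rw [BChi_tm V hV χ h]
  have h1 : (ZL V hV).dg.IsDeg 0 (BChi_in V hV ⟨w1.1 1, (w1.2 1).1⟩) :=
    Dg.two_deg0 _ _
  have h2 : (kapL χ).dg.IsDeg 0 c := base_deg (show k from c)
  exact tb_deg h1 h2

/-- A linear map on `V.cp 1` which vanishes on the multiples of `1/t` has finite rank. -/
theorem BChi_fg {E : Type u} [AddCommGroup E] [Module (RatFunc k) E] [Module k E]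
    [IsScalarTower k (RatFunc k) E] (V : LP k E) {U : Type u} [AddCommGroup U] [Module k U]
    (Φ : V.cp 1 →ₗ[k] U)
    (hΦ : ∀ v : V.cp 1, Φ ⟨(X : RatFunc k)⁻¹ • v.1, V.Xi_mem v.2⟩ = 0)
    (hs : Function.Surjective Φ) : Module.Finite k U := by
  classical
  obtain ⟨S, hS⟩ := V.fg1
  have key : ∀ c : RatFunc k, ∀ hc : c ∈ kk k X⁻¹, ∃ r : k, ∀ v (hv : v ∈ V.N1),
      Φ ⟨(⟨c, hc⟩ : kk k X⁻¹) • v, V.N1.smul_mem _ hv⟩ = r • Φ ⟨v, hv⟩ := by
    intro c hc
    refine Algebra.adjoin_induction (p := fun c hc => ∃ r : k, ∀ v (hv : v ∈ V.N1),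
      Φ ⟨(⟨c, hc⟩ : kk k X⁻¹) • v, V.N1.smul_mem _ hv⟩ = r • Φ ⟨v, hv⟩) ?_ ?_ ?_ ?_ hc
    · intro x hx
      rw [Set.mem_singleton_iff] at hx
      subst hx
      refine ⟨0, fun v hv => ?_⟩
      rw [zero_smul]
      exact hΦ ⟨v, hv⟩
    · intro r
      refine ⟨r, fun v hv => ?_⟩
      rw [← map_smul]
      congr 1
      refine Subtype.ext ?_
      change (algebraMap k (RatFunc k) r) • v = r • v
      rw [algebraMap_smul]
    · rintro x y hx hy ⟨r, hr⟩ ⟨s, hs⟩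
      refine ⟨r + s, fun v hv => ?_⟩
      rw [add_smul, ← hr v hv, ← hs v hv, ← map_add]
      congr 1
      refine Subtype.ext ?_
      change (x + y) • v = x • v + y • v
      rw [add_smul]
    · rintro x y hx hy ⟨r, hr⟩ ⟨s, hs⟩
      refine ⟨r * s, fun v hv => ?_⟩
      rw [mul_smul, ← hs v hv, ← hr _ (V.N1.smul_mem _ hv)]
      congr 1
      refine Subtype.ext ?_
      change (x * y) • v = x • y • v
      rw [mul_smul]
  have hmem : ∀ s ∈ S, s ∈ V.N1 := fun s hs => by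
    rw [← hS]
    exact Submodule.subset_span hs
  let T : Set U := Set.range fun s : S => Φ ⟨s.1, hmem s.1 s.2⟩
  have hT : Submodule.span k T = ⊤ := by
    refine (Submodule.eq_top_iff').2 fun u => ?_
    obtain ⟨⟨v, hv⟩, rfl⟩ := hs u
    have hv' : v ∈ Submodule.span (kk k X⁻¹) (S : Set E) := by
      rw [hS]
      exact hv
    have h2 : ∀ w ∈ Submodule.span (kk k X⁻¹) (S : Set E), ∀ hw : w ∈ V.N1,
        Φ ⟨w, hw⟩ ∈ Submodule.span k T := by
      intro w hw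
      refine Submodule.span_induction (p := fun w _ => ∀ hw : w ∈ V.N1,
        Φ ⟨w, hw⟩ ∈ Submodule.span k T) ?_ ?_ ?_ ?_ hw
      · intro x hx hw
        exact Submodule.subset_span ⟨⟨x, hx⟩, rfl⟩
      · intro hw
        have e : (⟨0, hw⟩ : V.cp 1) = 0 := rfl
        rw [e, map_zero]
        exact Submodule.zero_mem _
      · intro x y hx hy h1 h2 hw
        rw [hS] at hx hy
        have e : (⟨x + y, hw⟩ : V.cp 1) = ⟨x, hx⟩ + ⟨y, hy⟩ := rfl
        rw [e, map_add]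
        exact Submodule.add_mem _ (h1 hx) (h2 hy)
      · intro c x hx h1 hw
        rw [hS] at hx
        obtain ⟨r, hr⟩ := key c.1 c.2
        have e : (⟨c • x, hw⟩ : V.cp 1) =
          ⟨(⟨c.1, c.2⟩ : kk k X⁻¹) • x, V.N1.smul_mem _ hx⟩ := rfl
        rw [e, hr x hx]
        exact Submodule.smul_mem _ _ (h1 hx)
    exact h2 v hv' hv
  exact ⟨Submodule.fg_def.2 ⟨T, Set.finite_range _, hT⟩⟩

/-- Proof. As in `SL_zero`, `SL` is the image of the linear map `V.N1 → SL`, `v ↦ tm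
((0, (0, v, 0)), 0) 1`. The `k[1/t]`-module `V.N1` is generated by finitely many `v j` (`V.fg1`)
and every element of `kk k X⁻¹` is `r + X⁻¹ * c` with `r : k`, `c : kk k X⁻¹`
(`Algebra.adjoin_induction`), so each `v ∈ V.N1` is `∑ r j • v j + X⁻¹ • v'` with `v' ∈ V.N1`;
`X⁻¹ • (0, v', 0) = (0, v', 0) e 1 1 (1/t)` and `tm` of it is zero by `h'`. So `SL` is spanned by
the images of the `v j`. -/
theorem SL_fin (hV : BSt V) (χ : Gam D →ₐ[k] k) (h : ∀ g : Gam D, g.1 1 1 = 0 → χ g = 0)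
    (h' : ∀ g : Gam D, g.1 1 1 = (tt D)⁻¹ → χ g = 0) : Module.Finite k (SL V hV χ).M := by
  let Φ : V.cp 1 →ₗ[k] (SL V hV χ).M :=
    ((tmB (ZL V hV) (kapL χ)).flip (1 : k)).comp (BChi_in V hV)
  have hΦ : ∀ v, Φ v = tm (BChi_in V hV v) (1 : k) := fun v => rfl
  refine BChi_fg V Φ (fun v => ?_) ?_
  · rw [hΦ]
    have e1 : BChi_in V hV ⟨(X : RatFunc k)⁻¹ • v.1, V.Xi_mem v.2⟩ =
        (ZL V hV).r (BChi_e 1 1 (Le3.refl 1) (tt D)⁻¹ (tt_inv_mem_BB1 D)) (BChi_in V hV v) := by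
      refine Eq.trans ?_ (BChi_r V hV _ 0 (BChi_row V 1 (Le3.refl 1) v) 0).symm
      refine Prod.ext (Prod.ext ?_ ?_) ?_
      · refine Subtype.ext (funext fun j => ?_)
        change (0 : F.F) = ∑ i, (BChi_e 1 1 (Le3.refl 1) (tt D)⁻¹ (tt_inv_mem_BB1 D)).1 i j •
          (0 : F.F)
        simp
      · refine Subtype.ext (funext fun j => ?_)
        change (if j = 1 then (X : RatFunc k)⁻¹ • v.1 else 0) =
          ∑ i, (BChi_e 1 1 (Le3.refl 1) (tt D)⁻¹ (tt_inv_mem_BB1 D)).1 i j •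
          (if i = 1 then v.1 else 0)
        have e2 : (X : RatFunc k)⁻¹ • v.1 = (tt D)⁻¹ • v.1 := by
          rw [← algebraMap_smul D.L (X : RatFunc k)⁻¹ v.1, map_inv₀]
          rfl
        simp only [BChi_e_apply, Fin.sum_univ_three]
        rw [e2]
        fin_cases j <;> simp
      · refine Subtype.ext (funext fun j => ?_)
        change (0 : F.F) = ∑ i, (BChi_e 1 1 (Le3.refl 1) (tt D)⁻¹ (tt_inv_mem_BB1 D)).1 i j •
          (0 : F.F)
        simp
    rw [e1]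
    exact BChi_kill V hV χ _ (h' _ rfl) _ _
  · intro x
    refine tb_ind (P := fun x => ∃ v, Φ v = x) ⟨0, map_zero _⟩ ?_ (fun z c => ?_) x
    · rintro x y ⟨v, rfl⟩ ⟨w, rfl⟩
      exact ⟨v + w, map_add _ _ _⟩
    · refine BChi_ind V hV (p := fun z => ∃ v, Φ v = tm z c) (fun w0 w1 w2 => ?_) z
      refine ⟨(show k from c) • ⟨w1.1 1, (w1.2 1).1⟩, ?_⟩
      rw [map_smul, hΦ]
      refine Eq.trans ?_ (BChi_tm V hV χ h w0 w1 w2 c).symm
      refine (tm_smul_right (show k from c) (BChi_in V hV ⟨w1.1 1, (w1.2 1).1⟩)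
        (show (kapL χ).M from (1 : k))).symm.trans ?_
      congr 1
      exact mul_one (show k from c)

end Pool.Agent.MP_6e5bed_ag_KC
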