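import Pool.Agent.Lib.MP_6e5bed_ag_KC.BChi

set_option autoImplicit false
set_option linter.unusedSectionVars false

/-!
# The fibre of the dual vector bundle at the point at infinity (project KC, part B4)

For a character `χ` of `Gam D` which vanishes on the matrices whose entry `1`, `1` vanishes, the
module `ZL V ⊗ κ` is a quotient of `V.cp 1`, in degree `0`; it is finite-dimensional, if `χ` also
vanishes on the matrices whose entry `1`, `1` is `1/t`.
-/

namespace Pool.Agent.MP_6e5bed_ag_KC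

open RatFunc Pool.Agent.MP_6e5bed_ag_NC

universe u

variable {k : Type u} [Field k] {D : FExt k} {F : LSp D} (V : LP k F.F)

/-- The matrix with the entry `x` at `a`, `b`. -/
private noncomputable def BChiR_e (a b : Fin 3) (x : D.L) (hx : x ∈ BB D b) (hab : Le3 a b) :
    Gam' D :=
  ⟨fun i j => if i = a ∧ j = b then x else 0, by
    intro i j
    dsimp only
    split_ifs with h
    · obtain ⟨rfl, rfl⟩ := h
      exact ⟨hx, fun h' => absurd hab h'⟩
    · exact ⟨(BB D j).zero_mem, fun _ => rfl⟩⟩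

private theorem BChiR_e_l (a b : Fin 3) (x : D.L) (hx : x ∈ BB D b) (hab : Le3 a b)
    (w : Fin 3 → (F.F →ₗ[D.L] D.L)) (i : Fin 3) :
    (colE V).l (BChiR_e a b x hx hab) w i = if i = a then x • w b else 0 := by
  change ∑ j, (if i = a ∧ j = b then x else 0) • w j = _
  by_cases h : i = a
  · rw [if_pos h, Finset.sum_eq_single b]
    · rw [if_pos ⟨h, rfl⟩]
    · intro j _ hj
      rw [if_neg (fun h' => hj h'.2), zero_smul]
    · intro h'
      exact absurd (Finset.mem_univ b) h'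
  · rw [if_neg h]
    refine Finset.sum_eq_zero fun j _ => ?_
    rw [if_neg (fun h' => h h'.1), zero_smul]

/-- An element of `ZR V`. -/
private noncomputable def BChiR_z (a : colN V 0) (b : colN V 1) (c : colN V 2) : (ZR V).M :=
  ((a, b), c)

private theorem BChiR_l (g : Gam' D) (a : colN V 0) (b : colN V 1) (c : colN V 2) :
    (ZR V).l g (BChiR_z V a b c) = BChiR_z V ⟨(colE V).l g a.1, colN_l V 0 g _ a.2⟩
      ⟨(colE V).l g b.1, colN_l V 1 g _ b.2⟩ ⟨(colE V).l g c.1, colN_l V 2 g _ c.2⟩ := by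
  change (colS V).tri.cl ((g, g), 0) ((a, b), c) = _
  rw [Tri.cl_apply]
  refine Prod.ext rfl ?_
  change (colS V).tri.M01.l g c + (colS V).tri.M01.l 0 ((colS V).tri.ρ1 b) = _
  rw [map_zero, LinearMap.zero_apply, add_zero]
  rfl

private theorem BChiR_kap (χ : Gam' D →ₐ[k] k) (g : Gam' D) (c : k) :
    (kapR χ).r g (show (kapR χ).M from c) = (show (kapR χ).M from c * χ g) := rfl

private theorem BChiR_tm0 (χ : Gam' D →ₐ[k] k) (g : Gam' D) (hg : χ g = 0) (c : (kapR χ).M)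
    (z : (ZR V).M) : (tm c ((ZR V).l g z) : (SR V χ).M) = 0 := by
  have h1 : (tm ((kapR χ).r g c) z : (SR V χ).M) = tm c ((ZR V).l g z) :=
    tm_r_l (M := kapR χ) (N := ZR V) c g z
  have h2 : (kapR χ).r g c = 0 := by
    refine (BChiR_kap χ g c).trans ?_
    rw [hg]
    exact mul_zero (M₀ := k) c
  rw [← h1, h2]
  exact tm_zero_left (M := kapR χ) (N := ZR V) z

private theorem BChiR_one {c : Fin 3} : (1 : D.L) ∈ BB D c := (BB D c).one_mem

private theorem BChiR_dec (z : (ZR V).M) : ∃ w : colN V 1, ∀ (χ : Gam' D →ₐ[k] k),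
    (∀ g : Gam' D, g.1 1 1 = 0 → χ g = 0) → ∀ c : (kapR χ).M,
      (tm c z : (SR V χ).M) = tm c (BChiR_z V 0 w 0) := by
  obtain ⟨⟨w0, w1⟩, w2⟩ := z
  refine ⟨w1, fun χ h c => ?_⟩
  let z3 : colN V 2 := ⟨fun i => if i = 2 then w2.1 1 else 0, fun i => by
    dsimp only
    split_ifs with hi
    · exact ⟨(w2.2 1).1, fun h' => absurd (Le3.two i) h'⟩
    · exact ⟨Submodule.zero_mem _, fun _ => rfl⟩⟩
  let g1 : Gam' D := BChiR_e 0 0 1 BChiR_one (Le3.refl 0)
  let g2 : Gam' D := BChiR_e 2 2 1 BChiR_one (Le3.refl 2)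
  let g3 : Gam' D := BChiR_e 1 2 1 BChiR_one (Le3.two 1)
  have e : (BChiR_z V w0 w1 w2 : (ZR V).M) = BChiR_z V 0 w1 0 + (ZR V).l g1 (BChiR_z V w0 w1 w2) +
      (ZR V).l g2 (BChiR_z V w0 w1 w2) + (ZR V).l g3 (BChiR_z V 0 0 z3) := by
    rw [BChiR_l, BChiR_l, BChiR_l]
    refine Prod.ext (Prod.ext (Subtype.ext (funext fun i => ?_))
      (Subtype.ext (funext fun i => ?_))) (Subtype.ext (funext fun i => ?_))
    · change w0.1 i = 0 + (colE V).l g1 w0.1 i + (colE V).l g2 w0.1 i + (colE V).l g3 0 i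
      rw [BChiR_e_l, BChiR_e_l, BChiR_e_l]
      have h1 := (w0.2 1).2 (by decide)
      have h2 := (w0.2 2).2 (by decide)
      fin_cases i <;> simp [h1, h2]
      rfl
    · change w1.1 i = w1.1 i + (colE V).l g1 w1.1 i + (colE V).l g2 w1.1 i + (colE V).l g3 0 i
      rw [BChiR_e_l, BChiR_e_l, BChiR_e_l]
      have h1 := (w1.2 0).2 (by decide)
      have h2 := (w1.2 2).2 (by decide)
      fin_cases i <;> simp [h1, h2]
      rfl
    · change w2.1 i = 0 + (colE V).l g1 w2.1 i + (colE V).l g2 w2.1 i + (colE V).l g3 z3.1 i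
      rw [BChiR_e_l, BChiR_e_l, BChiR_e_l]
      fin_cases i <;> simp [z3]
  have hz : ∀ (a b : Fin 3) (x : D.L) (hx : x ∈ BB D b) (hab : Le3 a b), ¬ (1 = a ∧ 1 = b) →
      χ (BChiR_e a b x hx hab) = 0 := by
    intro a b x hx hab hne
    refine h _ ?_
    change (if (1 : Fin 3) = a ∧ (1 : Fin 3) = b then x else 0) = 0
    rw [if_neg hne]
  have h1 : (tm c ((ZR V).l g1 (BChiR_z V w0 w1 w2)) : (SR V χ).M) = 0 :=
    BChiR_tm0 V χ g1 (hz _ _ _ _ _ (by decide)) c _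
  have h2 : (tm c ((ZR V).l g2 (BChiR_z V w0 w1 w2)) : (SR V χ).M) = 0 :=
    BChiR_tm0 V χ g2 (hz _ _ _ _ _ (by decide)) c _
  have h3 : (tm c ((ZR V).l g3 (BChiR_z V 0 0 z3)) : (SR V χ).M) = 0 :=
    BChiR_tm0 V χ g3 (hz _ _ _ _ _ (by decide)) c _
  change (tm c (BChiR_z V w0 w1 w2) : (SR V χ).M) = _
  have h4 : (tm c (BChiR_z V w0 w1 w2) : (SR V χ).M) = tm c (BChiR_z V 0 w1 0 +
      (ZR V).l g1 (BChiR_z V w0 w1 w2) + (ZR V).l g2 (BChiR_z V w0 w1 w2) +
      (ZR V).l g3 (BChiR_z V 0 0 z3)) := congrArg (fun z => (tm c z : (SR V χ).M)) e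
  rw [h4]
  refine (tm_add_right (M := kapR χ) (N := ZR V) c _ _).trans ?_
  rw [h3, add_zero]
  refine (tm_add_right (M := kapR χ) (N := ZR V) c _ _).trans ?_
  rw [h2, add_zero]
  refine (tm_add_right (M := kapR χ) (N := ZR V) c _ _).trans ?_
  rw [h1, add_zero]

/-- Proof. The same on the other side: `ZR V`, columns with entries in the dual of `V`, and
`(kapR χ).r g c = χ g * c`. -/
theorem SR_zero (χ : Gam' D →ₐ[k] k) (h : ∀ g : Gam' D, g.1 1 1 = 0 → χ g = 0) :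
    (SR V χ).dg.Zero := by
  intro x
  refine tb_ind (M := kapR χ) (N := ZR V) (P := fun x => (SR V χ).dg.IsDeg 0 x) ?_ ?_ ?_ x
  · exact Dg.IsDeg.zero 0
  · intro x y hx hy
    exact hx.add hy
  · intro c z
    obtain ⟨w, hw⟩ := BChiR_dec V z
    have h1 := hw χ h c
    have h2 : (ZR V).dg.IsDeg 0 (BChiR_z V 0 w 0) := Dg.two_deg0 _ _
    have h3 : (SR V χ).dg.IsDeg (0 + 0) (tm c (BChiR_z V 0 w 0)) :=
      tb_deg (M := kapR χ) (N := ZR V) (base_deg (k := k) c) h2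
    rw [add_zero] at h3
    change (SR V χ).dg.IsDeg 0 (tm c z : (SR V χ).M)
    rw [h1]
    exact h3

/-- The component `1` of the dual of `V`. -/
private noncomputable abbrev BChiR_N (V : LP k F.F) : Submodule k F.dual.F :=
  LP.cp (E := F.dual.F) V.dual 1

/-- The column with the entry `v` at `1`. -/
private noncomputable def BChiR_col (v : BChiR_N V) : colN V 1 :=
  ⟨fun i => if i = 1 then v.1 else 0, fun i => by
    dsimp only
    split_ifs with hi
    · exact ⟨v.2, fun h' => absurd (Or.inl hi) h'⟩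
    · exact ⟨Submodule.zero_mem _, fun _ => rfl⟩⟩

private theorem BChiR_col_apply (v : BChiR_N V) (i : Fin 3) :
    (BChiR_col V v).1 i = if i = 1 then v.1 else 0 := rfl

private theorem BChiR_col_of (w : colN V 1) : w = BChiR_col V ⟨w.1 1, (w.2 1).1⟩ := by
  refine Subtype.ext (funext fun i => ?_)
  rw [BChiR_col_apply]
  split_ifs with hi
  · rw [hi]
  · exact (w.2 i).2 (fun h => h.elim hi (by decide))

/-- The column with the entry `v` at `1`, as a linear map. -/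
private noncomputable def BChiR_colL : BChiR_N V →ₗ[k] colN V 1 where
  toFun := BChiR_col V
  map_add' := fun v v' => by
    refine Subtype.ext (funext fun i => ?_)
    change (if i = 1 then v.1 + v'.1 else 0) = (if i = 1 then v.1 else 0) +
      (if i = 1 then v'.1 else 0)
    split_ifs
    · rfl
    · rw [add_zero]
  map_smul' := fun c v => by
    refine Subtype.ext (funext fun i => ?_)
    change (if i = 1 then c • v.1 else 0) = c • (if i = 1 then v.1 else 0)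
    split_ifs
    · rfl
    · rw [smul_zero]

/-- The map from the component `1` to the fibre. -/
private noncomputable def BChiR_L (χ : Gam' D →ₐ[k] k) : BChiR_N V →ₗ[k] (SR V χ).M :=
  (tmB (kapR χ) (ZR V) (1 : k)) ∘ₗ (LinearMap.inl k (colN V 0 × colN V 1) (colN V 2)) ∘ₗ
    (LinearMap.inr k (colN V 0) (colN V 1)) ∘ₗ BChiR_colL V

private theorem BChiR_L_apply (χ : Gam' D →ₐ[k] k) (v : BChiR_N V) :
    BChiR_L V χ v = (tm (1 : k) (BChiR_z V 0 (BChiR_col V v) 0) : (SR V χ).M) := rfl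

private theorem BChiR_L_surj (χ : Gam' D →ₐ[k] k)
    (h : ∀ g : Gam' D, g.1 1 1 = 0 → χ g = 0) : LinearMap.range (BChiR_L V χ) = ⊤ := by
  rw [eq_top_iff]
  rintro x -
  refine tb_ind (M := kapR χ) (N := ZR V) (P := fun x => x ∈ LinearMap.range (BChiR_L V χ))
    ?_ ?_ ?_ x
  · exact Submodule.zero_mem _
  · intro x y hx hy
    exact Submodule.add_mem _ hx hy
  · intro c z
    obtain ⟨w, hw⟩ := BChiR_dec V z
    have h1 := hw χ h c
    have h2 : (tm c (BChiR_z V 0 w 0) : (SR V χ).M) =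
        (show k from c) • (tm (1 : k) (BChiR_z V 0 w 0) : (SR V χ).M) := by
      refine Eq.trans ?_ (tm_smul_left (M := kapR χ) (N := ZR V) (show k from c)
        (show (kapR χ).M from (1 : k)) (BChiR_z V 0 w 0))
      have h3 : (show k from c) • (show (kapR χ).M from (1 : k)) = c := mul_one (M := k) c
      rw [h3]
    change (tm c z : (SR V χ).M) ∈ LinearMap.range (BChiR_L V χ)
    rw [h1, h2]
    refine Submodule.smul_mem _ _ ⟨⟨w.1 1, (w.2 1).1⟩, ?_⟩
    rw [BChiR_L_apply, ← BChiR_col_of]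

private theorem BChiR_tt (v : F.dual.F) : (tt D)⁻¹ • v = (X : RatFunc k)⁻¹ • v := by
  rw [← algebraMap_smul D.L ((X : RatFunc k)⁻¹) v, map_inv₀]
  rfl

private theorem BChiR_L_inv (χ : Gam' D →ₐ[k] k)
    (h' : ∀ g : Gam' D, g.1 1 1 = (tt D)⁻¹ → χ g = 0) (v : BChiR_N V)
    (hv : (X : RatFunc k)⁻¹ • v.1 ∈ BChiR_N V) : BChiR_L V χ ⟨(X : RatFunc k)⁻¹ • v.1, hv⟩ = 0 := by
  rw [BChiR_L_apply]
  let g : Gam' D := BChiR_e 1 1 (tt D)⁻¹ (tt_inv_mem_BB1 D) (Le3.refl 1)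
  have hg : χ g = 0 := by
    refine h' g ?_
    change (if (1 : Fin 3) = 1 ∧ (1 : Fin 3) = 1 then (tt D)⁻¹ else 0) = (tt D)⁻¹
    rw [if_pos ⟨rfl, rfl⟩]
  have e : (BChiR_z V 0 (BChiR_col V ⟨(X : RatFunc k)⁻¹ • v.1, hv⟩) 0 : (ZR V).M) =
      (ZR V).l g (BChiR_z V 0 (BChiR_col V v) 0) := by
    rw [BChiR_l]
    refine Prod.ext (Prod.ext (Subtype.ext ?_) (Subtype.ext (funext fun i => ?_)))
      (Subtype.ext ?_)
    · exact (map_zero ((colE V).l g)).symm
    · change (if i = 1 then (X : RatFunc k)⁻¹ • v.1 else 0) =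
        (colE V).l g (BChiR_col V v).1 i
      rw [BChiR_e_l, BChiR_col_apply, if_pos rfl]
      split_ifs with hi
      · exact (BChiR_tt v.1).symm
      · rfl
    · exact (map_zero ((colE V).l g)).symm
  rw [e]
  exact BChiR_tm0 V χ g hg _ _

/-- the constant term of `a` -/
private theorem BChiR_ct (χ : Gam' D →ₐ[k] k)
    (h' : ∀ g : Gam' D, g.1 1 1 = (tt D)⁻¹ → χ g = 0) (a : RatFunc k) (ha : a ∈ kk k X⁻¹) :
    ∃ r : k, ∀ (v : BChiR_N V) (hv : a • v.1 ∈ BChiR_N V),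
      BChiR_L V χ ⟨a • v.1, hv⟩ = r • BChiR_L V χ v := by
  have hN : ∀ (a : RatFunc k), a ∈ kk k X⁻¹ → ∀ v : BChiR_N V, a • v.1 ∈ BChiR_N V := by
    intro a ha v
    exact V.dual.N1.smul_mem ⟨a, ha⟩ v.2
  refine Algebra.adjoin_induction (p := fun a _ => ∃ r : k, ∀ (v : BChiR_N V)
    (hv : a • v.1 ∈ BChiR_N V), BChiR_L V χ ⟨a • v.1, hv⟩ = r • BChiR_L V χ v) ?_ ?_ ?_ ?_ ha
  · intro x hx
    rw [Set.mem_singleton_iff] at hx
    subst hx
    refine ⟨0, fun v hv => ?_⟩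
    rw [zero_smul]
    exact BChiR_L_inv V χ h' v hv
  · intro r
    refine ⟨r, fun v hv => ?_⟩
    rw [← map_smul]
    congr 1
    refine Subtype.ext ?_
    exact algebraMap_smul (RatFunc k) r v.1
  · rintro x y hx hy ⟨r, hr⟩ ⟨s, hs⟩
    refine ⟨r + s, fun v hv => ?_⟩
    rw [add_smul r s (BChiR_L V χ v), ← hr v (hN x hx v), ← hs v (hN y hy v), ← map_add]
    congr 1
    refine Subtype.ext ?_
    exact add_smul x y v.1
  · rintro x y hx hy ⟨r, hr⟩ ⟨s, hs⟩
    refine ⟨r * s, fun v hv => ?_⟩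
    rw [mul_smul r s (BChiR_L V χ v), ← hs v (hN y hy v),
      ← hr ⟨y • v.1, hN y hy v⟩ (hN x hx _)]
    congr 1
    refine Subtype.ext ?_
    exact mul_smul x y v.1

/-- Proof. The same with `(V.dual).fg1`. -/
theorem SR_fin (χ : Gam' D →ₐ[k] k) (h : ∀ g : Gam' D, g.1 1 1 = 0 → χ g = 0)
    (h' : ∀ g : Gam' D, g.1 1 1 = (tt D)⁻¹ → χ g = 0) : Module.Finite k (SR V χ).M := by
  obtain ⟨S, hS⟩ := V.dual.fg1
  have hSN : ∀ s ∈ S, s ∈ BChiR_N V := by
    intro s hs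
    have h1 : s ∈ V.dual.N1 := by
      rw [← hS]
      exact Submodule.subset_span hs
    exact h1
  let T : Submodule k (SR V χ).M :=
    Submodule.span k (Set.range fun s : {x // x ∈ S} => BChiR_L V χ ⟨s.1, hSN s.1 s.2⟩)
  have key : ∀ v (_ : v ∈ Submodule.span (kk k X⁻¹) (S : Set F.dual.F)) (hv : v ∈ BChiR_N V),
      BChiR_L V χ ⟨v, hv⟩ ∈ T := by
    intro v hvS
    refine Submodule.span_induction (p := fun v _ => ∀ (hv : v ∈ BChiR_N V),
      BChiR_L V χ ⟨v, hv⟩ ∈ T) ?_ ?_ ?_ ?_ hvS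
    · intro x hx hv
      exact Submodule.subset_span ⟨⟨x, hx⟩, rfl⟩
    · intro hv
      have h1 : (⟨0, hv⟩ : BChiR_N V) = 0 := rfl
      rw [h1, map_zero]
      exact Submodule.zero_mem _
    · intro x y hx hy ihx ihy hv
      have hx1 : x ∈ BChiR_N V := by
        rw [hS] at hx
        exact hx
      have hy1 : y ∈ BChiR_N V := by
        rw [hS] at hy
        exact hy
      have h1 : (⟨x + y, hv⟩ : BChiR_N V) = ⟨x, hx1⟩ + ⟨y, hy1⟩ := rfl
      rw [h1, map_add]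
      exact Submodule.add_mem _ (ihx hx1) (ihy hy1)
    · intro a x hx ihx hv
      have hx1 : x ∈ BChiR_N V := by
        rw [hS] at hx
        exact hx
      obtain ⟨r, hr⟩ := BChiR_ct V χ h' a.1 a.2
      have h1 := hr ⟨x, hx1⟩ hv
      change BChiR_L V χ ⟨a.1 • x, hv⟩ ∈ T
      rw [h1]
      exact Submodule.smul_mem _ _ (ihx hx1)
  have htop : T = ⊤ := by
    rw [eq_top_iff, ← BChiR_L_surj V χ h]
    rintro _ ⟨v, rfl⟩
    refine key v.1 ?_ v.2
    rw [hS]
    exact v.2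
  refine ⟨⟨Set.Finite.toFinset (Set.finite_range fun s : {x // x ∈ S} =>
    BChiR_L V χ ⟨s.1, hSN s.1 s.2⟩), ?_⟩⟩
  rw [Set.Finite.coe_toFinset]
  exact htop

end Pool.Agent.MP_6e5bed_ag_KC
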