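import Pool.Agent.Lib.MP_6e5bed_ag_KC.BCc
import Pool.Agent.Lib.MP_6e5bed_ag_CV.ConeRes
import Pool.Agent.Lib.MP_6e5bed_ag_NC.FieldIff
import Pool.Agent.Lib.MP_6e5bed_ag_NC.Clos

set_option autoImplicit false
set_option linter.unusedSectionVars false

/-!
# Exactness of the functors `M ↦ Z^{⊠p} ⊗ M ⊗ Z'^{⊠q}` (project KC, part B1)
-/

namespace Pool.Agent.MP_6e5bed_ag_NC

universe u

variable {k : Type u} [Field k] {A B A' B' W G G' W' : DGA k}

/-- `Z` is perfect as a right module. -/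
def RPerf (Z : Bim W G) : Prop := Perf (fgL Z)

/-- `Z'` is perfect as a left module. -/
def LPerf (Z' : Bim G' W') : Prop := Perf (fgR Z')

private theorem BFlat_id {G G' : DGA k} :
    (DIso.refl (G.tensor G')).hom.comp ((DHom.id G).tensor (DHom.id G')) =
      DHom.id (G.tensor G') :=
  DHom.ext fun x => by
    change TensorProduct.map LinearMap.id LinearMap.id x = x
    rw [TensorProduct.map_id]
    rfl

private theorem BFlat_unit {W W' : DGA k} :
    (lunitIso (base k)).symm.hom.comp ((DHom.unit W).tensor (DHom.unit W')) =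
      DHom.unit (W.tensor W') :=
  DHom.ext fun (c : k) => by
    change TensorProduct.map (DHom.unit W).f (DHom.unit W').f (TensorProduct.tmul k (1 : k) c) =
      c • (TensorProduct.tmul k W.one W'.one)
    rw [TensorProduct.map_tmul]
    change TensorProduct.tmul k ((1 : k) • W.one) (c • W'.one) = _
    rw [one_smul, TensorProduct.tmul_smul]

private theorem BFlat_boxL {Z : Bim W G} {Y : Bim W' G'} (h : Perf (fgL Z))
    (h' : Perf (fgL Y)) : Perf (fgL (box Z Y)) := by
  have h1 := K0Q.res_perf (lunitIso (base k)).symm (DIso.refl (G.tensor G')) (Perf.box h h')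
  have e1 := (resF (lunitIso (base k)).symm.hom (DIso.refl (G.tensor G')).hom).biso
    (res_box (DHom.unit W) (DHom.id G) (DHom.unit W') (DHom.id G') Z Y)
  have e2 : (resF (lunitIso (base k)).symm.hom (DIso.refl (G.tensor G')).hom).obj
      (res ((DHom.unit W).tensor (DHom.unit W')) ((DHom.id G).tensor (DHom.id G')) (box Z Y)) =
      fgL (box Z Y) := by
    change res ((lunitIso (base k)).symm.hom.comp ((DHom.unit W).tensor (DHom.unit W')))
      ((DIso.refl (G.tensor G')).hom.comp ((DHom.id G).tensor (DHom.id G'))) (box Z Y) = _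
    rw [BFlat_id, BFlat_unit]
    rfl
  rw [e2] at e1
  exact e1.symm.perf h1

private theorem BFlat_boxR {Z : Bim G W} {Y : Bim G' W'} (h : Perf (fgR Z))
    (h' : Perf (fgR Y)) : Perf (fgR (box Z Y)) := by
  have h1 := K0Q.res_perf (DIso.refl (G.tensor G')) (lunitIso (base k)).symm (Perf.box h h')
  have e1 := (resF (DIso.refl (G.tensor G')).hom (lunitIso (base k)).symm.hom).biso
    (res_box (DHom.id G) (DHom.unit W) (DHom.id G') (DHom.unit W') Z Y)
  have e2 : (resF (DIso.refl (G.tensor G')).hom (lunitIso (base k)).symm.hom).obj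
      (res ((DHom.id G).tensor (DHom.id G')) ((DHom.unit W).tensor (DHom.unit W')) (box Z Y)) =
      fgR (box Z Y) := by
    change res ((DIso.refl (G.tensor G')).hom.comp ((DHom.id G).tensor (DHom.id G')))
      ((lunitIso (base k)).symm.hom.comp ((DHom.unit W).tensor (DHom.unit W'))) (box Z Y) = _
    rw [BFlat_id, BFlat_unit]
    rfl
  rw [e2] at e1
  exact e1.symm.perf h1

theorem RPerf.bx {Z : Bim W G} (h : RPerf Z) : ∀ p, RPerf (bx Z p) := by
  intro p
  induction p with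
  | zero =>
    exact (BIso.ofBase (V := und (diag (base k))) (W := fgL (diag (base k))) LinearMap.id
      (fun h => h) (fun _ => rfl) Function.bijective_id).perf proper_base
  | succ p ih => exact BFlat_boxL h ih

theorem LPerf.bx {Z' : Bim G' W'} (h : LPerf Z') : ∀ q, LPerf (bx Z' q) := by
  intro q
  induction q with
  | zero =>
    exact (BIso.ofBase (V := und (diag (base k))) (W := fgR (diag (base k))) LinearMap.id
      (fun h => h) (fun _ => rfl) Function.bijective_id).perf proper_base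
  | succ q ih => exact BFlat_boxR h ih

theorem RPerf.acyc {Z : Bim W G} (h : RPerf Z) {Y : Bim G B} (hY : Acyc Y) : Acyc (tb Z Y) := by
  have h1 : Acyc (tb (fgL Z) Y) := (clos_acycL h (rac_iff.2 hY)).acyc
  have e : BIso (res (DHom.unit W) (DHom.id B) (tb Z Y)) (tb (fgL Z) Y) :=
    res_tb (DHom.unit W) (DHom.id B) Z Y
  have h2 : Acyc (res (DHom.unit W) (DHom.id B) (tb Z Y)) := Acyc.iso e.symm h1
  exact h2

theorem LPerf.acyc {Z' : Bim G' W'} (h : LPerf Z') {Y : Bim A G'} (hY : Acyc Y) :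
    Acyc (tb Y Z') := by
  have h1 : Acyc (tb Y (fgR Z')) := (clos_acycR (rac_iff.2 hY) h).acyc
  have e : BIso (res (DHom.id A) (DHom.unit W') (tb Y Z')) (tb Y (fgR Z')) :=
    res_tb (DHom.id A) (DHom.unit W') Y Z'
  have h2 : Acyc (res (DHom.id A) (DHom.unit W') (tb Y Z')) := Acyc.iso e.symm h1
  exact h2

/-- A dg functor which preserves acyclic bimodules. -/
def FEx (F : DGFun A B A' B') : Prop := ∀ M, Acyc M → Acyc (F.obj M)

theorem FEx.comp {A'' B'' : DGA k} {F : DGFun A B A' B'} {F' : DGFun A' B' A'' B''} (h : FEx F)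
    (h' : FEx F') : FEx (F.comp F') := fun M hM => h' _ (h M hM)

theorem RPerf.fex {Z : Bim W G} (h : RPerf Z) (B : DGA k) : FEx (tbL Z B) :=
  fun _ hM => h.acyc hM

theorem LPerf.fex {Z' : Bim G' W'} (h : LPerf Z') (A : DGA k) : FEx (tbR A Z') :=
  fun _ hM => h.acyc hM

theorem Cc_ex {Z : Bim W G} {Z' : Bim G' W'} (h : RPerf Z) (h' : LPerf Z') (p q : ℕ) :
    FEx (Cc Z Z' p q) :=
  ((h.bx p).fex _).comp ((h'.bx q).fex _)

theorem C1_ex {Z : Bim W G} {Z' : Bim G' W'} (h : RPerf Z) (h' : LPerf Z') :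
    FEx (C1 Z Z') :=
  (h.fex _).comp (h'.fex _)

theorem FEx.qiso {F : DGFun A B A' B'} (hF : FEx F) {M N : Bim A B} (φ : GMap 0 M N)
    (h : QIso φ) : QIso (F.map φ) := by
  have hc : IsCone φ (cone φ h.1) := isCone_cone φ h.1
  have h2 : Acyc (F.obj (cone φ h.1)) := hF _ ((hc.qiso_iff h.1).1 h)
  exact ((F.isCone hc).qiso_iff (F.closed h.1)).2 h2

private theorem BFlat_cid (M : Bim A B) : ∃ C : Bim A B, Acyc C ∧ IsExt M C (M.shift 1) := by
  have h0 : (GMap.id M).dd = 0 := LinearMap.ext fun x => GMap.dd_id x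
  have hi : Contr (cone (GMap.id M) h0) := contr_cone_id M
  exact ⟨_, hi.acyc, (isCone_cone (GMap.id M) h0).isExt⟩

private theorem BFlat_fshift {M : Bim A B} : (M.shift 1).dg.FinCoh ↔ M.dg.FinCoh := by
  obtain ⟨C, hC, hE⟩ := BFlat_cid M
  exact ⟨fun h => FinCoh.left hE (FinCoh.of_acyc hC) h,
    fun h => FinCoh.right hE h (FinCoh.of_acyc hC)⟩

private theorem BFlat_rshift {M : Bim A B} (hM : HasRes M) (hs : HasRes (M.shift 1)) :
    rcls _ hs = - rcls _ hM := by
  obtain ⟨C, hC, hE⟩ := BFlat_cid M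
  have h1 := hE.isSes.rcls hM (HasRes.of_acyc hC) hs
  rw [rcls_acyc hC] at h1
  exact eq_neg_of_add_eq_zero_right h1.symm

private theorem BFlat_ext {F : DGFun A B A' B'} (hF : FEx F) {M' M M'' : Bim A B}
    (h : IsSes M' M M'') : ∃ C : Bim A' B', IsExt (F.obj M) C ((F.obj M').shift 1) ∧
      ∃ q : GMap 0 C (F.obj M''), QIso q := by
  obtain ⟨i, h0, q, hq⟩ := h.cone
  exact ⟨F.obj (cone i h0), (F.isCone (isCone_cone i h0)).isExt, F.map q, hF.qiso q hq⟩

/-- Finiteness: two out of three. -/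
theorem FEx.finCoh_mid {F : DGFun A B A' B'} (hF : FEx F) {M' M M'' : Bim A B}
    (h : IsSes M' M M'') (h' : (F.obj M').dg.FinCoh) (h'' : (F.obj M'').dg.FinCoh) :
    (F.obj M).dg.FinCoh := by
  obtain ⟨C, hE, q, hq⟩ := BFlat_ext hF h
  exact FinCoh.left hE ((QIso.finCoh q hq).2 h'') (BFlat_fshift.2 h')

theorem FEx.finCoh_left {F : DGFun A B A' B'} (hF : FEx F) {M' M M'' : Bim A B}
    (h : IsSes M' M M'') (hM : (F.obj M).dg.FinCoh) (h'' : (F.obj M'').dg.FinCoh) :
    (F.obj M').dg.FinCoh := by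
  obtain ⟨C, hE, q, hq⟩ := BFlat_ext hF h
  exact BFlat_fshift.1 (FinCoh.right hE hM ((QIso.finCoh q hq).2 h''))

theorem FEx.finCoh_right {F : DGFun A B A' B'} (hF : FEx F) {M' M M'' : Bim A B}
    (h : IsSes M' M M'') (h' : (F.obj M').dg.FinCoh) (hM : (F.obj M).dg.FinCoh) :
    (F.obj M'').dg.FinCoh := by
  obtain ⟨C, hE, q, hq⟩ := BFlat_ext hF h
  exact (QIso.finCoh q hq).1 (FinCoh.mid hE hM (BFlat_fshift.2 h'))

/-- Additivity of the classes. -/
theorem FEx.ecl_ses {F : DGFun A B A' B'} (hF : FEx F) {M' M M'' : Bim A B}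
    (h : IsSes M' M M'') (h' : HasRes (F.obj M')) (h'' : HasRes (F.obj M'')) :
    ecl (F.obj M) = ecl (F.obj M') + ecl (F.obj M'') := by
  obtain ⟨C, hE, q, hq⟩ := BFlat_ext hF h
  have hC : HasRes C := h''.of_qiso' q hq
  have hs : HasRes ((F.obj M').shift 1) := h'.shift 1
  have hM : HasRes (F.obj M) := hE.isSes.left hC hs
  have h1 := hE.isSes.rcls hM hC hs
  rw [BFlat_rshift h' hs, rcls_qiso hC h'' q hq] at h1
  rw [ecl_eq hM, ecl_eq h', ecl_eq h'', h1]
  abel

end Pool.Agent.MP_6e5bed_ag_NC
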