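import Pool.Agent.Lib.MP_6e5bed_ag_KC.BGam
import Pool.Agent.Lib.MP_6e5bed_ag_KC.BFlat
import Pool.Agent.Lib.MP_6e5bed_ag_CV.DualB
import Pool.Agent.Lib.MP_6e5bed_ag_CV.CorPerf

set_option autoImplicit false
set_option linter.unusedSectionVars false

/-!
# The Čech bimodules are perfect over the algebras of diagrams (project KC, part B1)

Proof. `exists_dual_basis` gives `v j ∈ V.cp c`, `f j` with `f j (V.cp c) ⊆ BB D c` and
`x = ∑ f j x • v j` (for `c = 2` the ones for `c = 0` do, by `mem_BB2`). The right `Gam D`-module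
`rowN V c` is a direct summand of `(Gam D)^m`: `w ↦` the family of the matrices with row `c` equal
to `i ↦ f j (w i)` (and zero elsewhere), and back `(g j)_j ↦ (i ↦ ∑ j, (g j) c i • v j)`. The
regular right module is perfect (`perf_fgL_diag`); finite sums, summands (`Perf.mid`,
`Perf.summand`). `fgL (ZL V hV)` is an extension of `rowM 0 ⊕ rowM 1` (degree 0) by the shift of
`rowM 2` (degree 1), which is split as a sequence of graded modules.
-/

namespace Pool.Agent.MP_6e5bed_ag_KC

open RatFunc Pool.Agent.MP_6e5bed_ag_NC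

universe u

section gen

variable {k : Type u} [Field k] {A B : DGA k}

private theorem BZPerf_dd0 {M N : Bim A B} {φ : GMap 0 M N}
    (h : ∀ x, N.dg.d (φ.f x) = φ.f (M.dg.d x)) : φ.dd = 0 := by
  refine LinearMap.ext fun x => ?_
  rw [GMap.dd_apply, sg_zero, one_smul, LinearMap.zero_apply, sub_eq_zero]
  exact h x

private theorem BZPerf_zero_dd {M N : Bim A B} {n : ℤ} : (0 : GMap n M N).dd = 0 := by
  refine LinearMap.ext fun x => ?_
  rw [GMap.dd_apply, GMap.zero_f, GMap.zero_f, map_zero, smul_zero, sub_zero,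
    LinearMap.zero_apply]

/-- the direct sum -/
private noncomputable def ds (X Y : Bim A B) : Bim A B := tsum (0 : GMap 1 X Y) BZPerf_zero_dd

private theorem ds_perf {X Y : Bim A B} (hX : Perf X) (hY : Perf Y) : Perf (ds X Y) :=
  Perf.mid (isExt_tsum (0 : GMap 1 X Y) BZPerf_zero_dd) hY hX

private theorem ds_d (X Y : Bim A B) (x : X.M) (y : Y.M) :
    (ds X Y).dg.d (x, y) = (X.dg.d x, Y.dg.d y) := by
  change (X.dg.d x, (0 : GMap 1 X Y).f x + Y.dg.d y) = _
  rw [GMap.zero_f, zero_add]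

private theorem ds_deg {X Y : Bim A B} {i : ℤ} {x : X.M} {y : Y.M} :
    (ds X Y).dg.IsDeg i (x, y) ↔ X.dg.IsDeg i x ∧ Y.dg.IsDeg i y := tsum_deg

/-- a pair of maps to a direct sum -/
private noncomputable def dsIn {M X Y : Bim A B} (φ : GMap 0 M X) (ψ : GMap 0 M Y) :
    GMap 0 M (ds X Y) where
  f := φ.f.prod ψ.f
  deg := fun h => ds_deg.2 ⟨φ.deg h, ψ.deg h⟩
  map_l := fun a m => Prod.ext (φ.map_l a m) (ψ.map_l a m)
  map_r := fun b m => Prod.ext (φ.map_r b m) (ψ.map_r b m)

/-- a pair of maps from a direct sum -/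
private noncomputable def dsOut {M X Y : Bim A B} (φ : GMap 0 X M) (ψ : GMap 0 Y M) :
    GMap 0 (ds X Y) M where
  f := φ.f.coprod ψ.f
  deg := fun {i m} h => by
    obtain ⟨x, y⟩ := m
    obtain ⟨h1, h2⟩ := ds_deg.1 h
    change M.dg.IsDeg (i + 0) (φ.f x + ψ.f y)
    exact (φ.deg h1).add (ψ.deg h2)
  map_l := fun a m => by
    obtain ⟨x, y⟩ := m
    change φ.f (X.l a x) + ψ.f (Y.l a y) = M.l (A.dg.sp 0 a) (φ.f x + ψ.f y)
    rw [φ.map_l, ψ.map_l, map_add]
  map_r := fun b m => by
    obtain ⟨x, y⟩ := m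
    change φ.f (X.r b x) + ψ.f (Y.r b y) = M.r b (φ.f x + ψ.f y)
    rw [φ.map_r, ψ.map_r, map_add]

private theorem dsIn_dd {M X Y : Bim A B} {φ : GMap 0 M X} {ψ : GMap 0 M Y} (h : φ.dd = 0)
    (h' : ψ.dd = 0) : (dsIn φ ψ).dd = 0 := by
  refine BZPerf_dd0 fun x => ?_
  change (ds X Y).dg.d (φ.f x, ψ.f x) = (φ.f (M.dg.d x), ψ.f (M.dg.d x))
  rw [ds_d, GMap.d_f_zero h, GMap.d_f_zero h']

private theorem dsOut_dd {M X Y : Bim A B} {φ : GMap 0 X M} {ψ : GMap 0 Y M} (h : φ.dd = 0)
    (h' : ψ.dd = 0) : (dsOut φ ψ).dd = 0 := by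
  refine BZPerf_dd0 fun x => ?_
  obtain ⟨x, y⟩ := x
  rw [ds_d]
  change M.dg.d (φ.f x + ψ.f y) = φ.f (X.dg.d x) + ψ.f (Y.dg.d y)
  rw [map_add, GMap.d_f_zero h, GMap.d_f_zero h']

/-- A bimodule which is a direct summand of a finite sum of copies of a perfect one. -/
private theorem BZPerf_fsum {M P : Bim A B} (hP : Perf P) (n : ℕ) (i : Fin n → GMap 0 M P)
    (r : Fin n → GMap 0 P M) (hi : ∀ j, (i j).dd = 0) (hr : ∀ j, (r j).dd = 0) :
    ∃ (Q : Bim A B) (I : GMap 0 M Q) (R : GMap 0 Q M), Perf Q ∧ I.dd = 0 ∧ R.dd = 0 ∧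
      ∀ x, R.f (I.f x) = ∑ j, (r j).f ((i j).f x) := by
  induction n with
  | zero =>
    refine ⟨cone (GMap.id P) (LinearMap.ext GMap.dd_id), 0, 0, Perf.contr (contr_cone_id P),
      BZPerf_zero_dd, BZPerf_zero_dd, fun x => ?_⟩
    rw [GMap.zero_f, Finset.univ_eq_empty, Finset.sum_empty]
  | succ n ih =>
    obtain ⟨Q, I, R, h1, h2, h3, h4⟩ := ih (fun j => i j.castSucc) (fun j => r j.castSucc)
      (fun j => hi _) (fun j => hr _)
    refine ⟨ds Q P, dsIn I (i (Fin.last n)), dsOut R (r (Fin.last n)), ds_perf h1 hP,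
      dsIn_dd h2 (hi _), dsOut_dd h3 (hr _), fun x => ?_⟩
    rw [Fin.sum_univ_castSucc, ← h4 x]
    rfl

private theorem BZPerf_retract {M P : Bim A B} (hP : Perf P) (n : ℕ) (i : Fin n → GMap 0 M P)
    (r : Fin n → GMap 0 P M) (hi : ∀ j, (i j).dd = 0) (hr : ∀ j, (r j).dd = 0)
    (h : ∀ x, ∑ j, (r j).f ((i j).f x) = x) : Perf M := by
  obtain ⟨Q, I, R, h1, h2, h3, h4⟩ := BZPerf_fsum hP n i r hi hr
  exact Perf.summand ⟨I, R, h2, h3, fun x => by rw [h4, h]⟩ h1

/-- maps of right modules -/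
private noncomputable def mkR {M N : Bim (base k) B} (f : M.M →ₗ[k] N.M)
    (hd : ∀ {i m}, M.dg.IsDeg i m → N.dg.IsDeg (i + 0) (f m))
    (hr : ∀ b m, f (M.r b m) = N.r b (f m)) : GMap 0 M N where
  f := f
  deg := hd
  map_l := fun (c : k) m => by
    have h1 : (base k).dg.sp 0 c = c := Dg.sp_even Even.zero c
    rw [h1, base_l M c m, base_l N c]
    exact map_smul f c m
  map_r := hr

/-- maps of left modules -/
private noncomputable def mkL {M N : Bim A (base k)} (f : M.M →ₗ[k] N.M)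
    (hd : ∀ {i m}, M.dg.IsDeg i m → N.dg.IsDeg (i + 0) (f m))
    (hl : ∀ a m, f (M.l a m) = N.l a (f m)) : GMap 0 M N where
  f := f
  deg := hd
  map_l := fun a m => by
    have h1 : A.dg.sp 0 a = a := Dg.sp_even Even.zero a
    rw [h1]
    exact hl a m
  map_r := fun (c : k) m => by
    rw [base_r M c m, base_r N c]
    exact map_smul f c m

private theorem BZPerf_conc {V U : Type u} [AddCommGroup V] [Module k V] [AddCommGroup U]
    [Module k U] (f : V →ₗ[k] U) {i : ℤ} {m : V} (h : (Dg.conc k V).IsDeg i m) :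
    (Dg.conc k U).IsDeg (i + 0) (f m) := by
  rcases Dg.conc_cases h with rfl | rfl
  · rw [add_zero]
    exact Dg.conc_deg _
  · rw [map_zero]
    exact Dg.IsDeg.zero _

variable {R : Type u} [Ring R] [Algebra k R]

/-- A right module with a dual basis is perfect. -/
private theorem BZPerf_R (U : KBi k k R) (n : ℕ) (i : Fin n → U.M →ₗ[k] R) (v : Fin n → U.M)
    (hi : ∀ j b x, i j (U.r b x) = i j x * b) (h : ∀ x, ∑ j, U.r (i j x) (v j) = x) :
    Perf (A := base k) (B := ring k R) U.bim := by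
  refine BZPerf_retract (A := base k) (B := ring k R) (M := U.bim)
    (P := fgL (diag (ring k R))) (perf_fgL_diag (ring k R)) n
    (fun j => mkR (M := U.bim) (N := fgL (diag (ring k R))) (i j)
      (fun hm => BZPerf_conc (i j) hm) (fun b x => hi j b x))
    (fun j => mkR (M := fgL (diag (ring k R))) (N := U.bim) (U.r.flip (v j))
      (fun hm => BZPerf_conc (U.r.flip (v j)) hm)
      (fun b x => U.r_mul x b (v j))) ?_ ?_ h
  · intro j
    exact BZPerf_dd0 fun x => (map_zero (i j)).symm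
  · intro j
    exact BZPerf_dd0 fun x => (map_zero (U.r.flip (v j))).symm

/-- A left module with a dual basis is perfect. -/
private theorem BZPerf_L (U : KBi k R k) (n : ℕ) (i : Fin n → U.M →ₗ[k] R) (v : Fin n → U.M)
    (hi : ∀ j b x, i j (U.l b x) = b * i j x) (h : ∀ x, ∑ j, U.l (i j x) (v j) = x) :
    Perf (A := ring k R) (B := base k) U.bim := by
  refine BZPerf_retract (A := ring k R) (B := base k) (M := U.bim)
    (P := fgR (diag (ring k R))) (perf_fgR_diag (ring k R)) n
    (fun j => mkL (M := U.bim) (N := fgR (diag (ring k R))) (i j)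
      (fun hm => BZPerf_conc (i j) hm) (fun b x => hi j b x))
    (fun j => mkL (M := fgR (diag (ring k R))) (N := U.bim) (U.l.flip (v j))
      (fun hm => BZPerf_conc (U.l.flip (v j)) hm)
      (fun b x => U.l_mul b x (v j))) ?_ ?_ h
  · intro j
    exact BZPerf_dd0 fun x => (map_zero (i j)).symm
  · intro j
    exact BZPerf_dd0 fun x => (map_zero (U.l.flip (v j))).symm


private theorem BZPerf_two {V W : Type u} [AddCommGroup V] [Module k V] [AddCommGroup W]
    [Module k W] (δ : V →ₗ[k] W) {i : ℤ} {v : V} (h : i = 0 ∨ v = 0) :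
    (Dg.two δ).IsDeg i (v, (0 : W)) := by
  rcases h with rfl | rfl
  · exact Dg.two_deg0 δ v
  · exact Dg.IsDeg.zero i

private theorem BZPerf_prod0 {U V : Type u} [AddCommGroup U] [Module k U] [AddCommGroup V]
    [Module k V] {i : ℤ} {u : U} {v : V} (h1 : (Dg.conc k U).IsDeg i u)
    (h2 : (Dg.conc k V).IsDeg i v) : i = 0 ∨ (u, v) = 0 := by
  rcases Dg.conc_cases h1 with rfl | rfl
  · exact Or.inl rfl
  · rcases Dg.conc_cases h2 with rfl | rfl
    · exact Or.inl rfl
    · exact Or.inr rfl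

/-- A Čech bimodule is perfect as a right module if its components are. -/
private theorem BZPerf_triR {S : Cosp k} (N : Tri S (constC k R))
    (h0 : Perf (A := base k) (B := ring k R) (fgL N.M0.bim))
    (h1 : Perf (A := base k) (B := ring k R) (fgL N.M1.bim))
    (h2 : Perf (A := base k) (B := ring k R) (fgL N.M01.bim)) :
    RPerf (res (DHom.id S.cech) (augR k R) N.bim) := by
  let X0 : Bim (base k) (ring k R) := fgL N.M0.bim
  let X1 : Bim (base k) (ring k R) := fgL N.M1.bim
  let Y0 : Bim (base k) (ring k R) := fgL N.M01.bim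
  let Y : Bim (base k) (ring k R) := Y0.shift (-1)
  let M : Bim (base k) (ring k R) := fgL (res (DHom.id S.cech) (augR k R) N.bim)
  have hY : Perf Y := h2.shift (-1)
  have hX : Perf (ds X0 X1) := ds_perf h0 h1
  have hMd : ∀ x : (N.M0.M × N.M1.M) × N.M01.M, M.dg.d x = (0, N.δ x.1) := fun x => rfl
  have hYd : ∀ y : N.M01.M, Y.dg.d y = 0 := fun y => by
    change sg (-1) • (0 : N.M01.M) = 0
    rw [smul_zero]
  have hXd : ∀ x : N.M0.M × N.M1.M, (ds X0 X1).dg.d x = 0 := fun x => by
    refine (ds_d X0 X1 x.1 x.2).trans ?_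
    rfl
  have hMr : ∀ (b : R) (x : (N.M0.M × N.M1.M) × N.M01.M), M.r b x =
      ((N.M0.r b x.1.1, N.M1.r b x.1.2), N.M01.r b x.2) := fun b x => by
    change N.cr ((b, b), 0) x = _
    rw [Tri.cr_apply]
    change ((N.M0.r b x.1.1, N.M1.r b x.1.2), N.M01.r 0 (N.ρ0 x.1.1) + N.M01.r b x.2) = _
    rw [map_zero, LinearMap.zero_apply, zero_add]
  refine Perf.mid (M' := Y) (M := M) (M'' := ds X0 X1)
    ⟨mkR (LinearMap.inr k (N.M0.M × N.M1.M) N.M01.M) ?_ ?_,
      mkR (LinearMap.fst k (N.M0.M × N.M1.M) N.M01.M) ?_ ?_,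
      mkR (LinearMap.snd k (N.M0.M × N.M1.M) N.M01.M) ?_ ?_,
      mkR (LinearMap.inl k (N.M0.M × N.M1.M) N.M01.M) ?_ ?_, ?_, ?_, ?_, ?_, ?_, ?_, ?_⟩ hY hX
  · intro i m hm
    rw [add_zero]
    have h3 : (Dg.conc k N.M01.M).IsDeg (i + -1) m := (Dg.shift_deg (Dg.conc k N.M01.M)).1 hm
    rcases Dg.conc_cases h3 with h4 | rfl
    · have h5 : i = 1 := by omega
      rw [h5]
      exact Dg.two_deg1 N.δ m
    · exact Dg.IsDeg.zero i
  · intro b m
    refine Eq.trans ?_ (hMr b ((0, 0), m)).symm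
    change ((0 : N.M0.M × N.M1.M), N.M01.r b m) = ((N.M0.r b 0, N.M1.r b 0), N.M01.r b m)
    rw [map_zero, map_zero]
    rfl
  · intro i m hm
    refine Dg.two_degMap N.δ (Z := (ds X0 X1).dg) (m := 0)
      (LinearMap.fst k (N.M0.M × N.M1.M) N.M01.M) (fun v => ?_) (fun w => ?_) hm
    · exact ds_deg.2 ⟨Dg.conc_deg _, Dg.conc_deg _⟩
    · exact Dg.IsDeg.zero _
  · intro b m
    exact congrArg Prod.fst (hMr b m)
  · intro i m hm
    refine Dg.two_degMap N.δ (Z := Y.dg) (m := 0)
      (LinearMap.snd k (N.M0.M × N.M1.M) N.M01.M) (fun v => ?_) (fun w => ?_) hm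
    · exact Dg.IsDeg.zero _
    · exact (Dg.shift_deg (Dg.conc k N.M01.M)).2 (Dg.conc_deg _)
  · intro b m
    exact congrArg Prod.snd (hMr b m)
  · intro i m hm
    rw [add_zero]
    obtain ⟨u, v⟩ := m
    obtain ⟨h3, h4⟩ := ds_deg.1 hm
    exact BZPerf_two N.δ (BZPerf_prod0 h3 h4)
  · intro b m
    refine Eq.trans ?_ (hMr b (m, 0)).symm
    change ((N.M0.r b m.1, N.M1.r b m.2), (0 : N.M01.M)) =
      ((N.M0.r b m.1, N.M1.r b m.2), N.M01.r b 0)
    rw [map_zero]
  · refine BZPerf_dd0 fun x => ?_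
    refine (hMd ((0, 0), x)).trans (Eq.trans ?_ (congrArg (LinearMap.inr k (N.M0.M × N.M1.M) N.M01.M)
      (hYd x)).symm)
    exact Prod.ext rfl (map_zero N.δ)
  · refine BZPerf_dd0 fun x => ?_
    exact (hXd x.1).trans (congrArg Prod.fst (hMd x)).symm
  · intro x
    rfl
  · intro x
    rfl
  · intro x
    rfl
  · intro x
    rfl
  · intro x
    exact Prod.ext (zero_add x.1) (add_zero x.2)

/-- A Čech bimodule is perfect as a left module if its components are. -/
private theorem BZPerf_triL {T : Cosp k} (N : Tri (constC k R) T)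
    (h0 : Perf (A := ring k R) (B := base k) (fgR N.M0.bim))
    (h1 : Perf (A := ring k R) (B := base k) (fgR N.M1.bim))
    (h2 : Perf (A := ring k R) (B := base k) (fgR N.M01.bim)) :
    LPerf (res (augR k R) (DHom.id T.cech) N.bim) := by
  let X0 : Bim (ring k R) (base k) := fgR N.M0.bim
  let X1 : Bim (ring k R) (base k) := fgR N.M1.bim
  let Y0 : Bim (ring k R) (base k) := fgR N.M01.bim
  let Y : Bim (ring k R) (base k) := Y0.shift (-1)
  let M : Bim (ring k R) (base k) := fgR (res (augR k R) (DHom.id T.cech) N.bim)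
  have hY : Perf Y := h2.shift (-1)
  have hX : Perf (ds X0 X1) := ds_perf h0 h1
  have hMd : ∀ x : (N.M0.M × N.M1.M) × N.M01.M, M.dg.d x = (0, N.δ x.1) := fun x => rfl
  have hYd : ∀ y : N.M01.M, Y.dg.d y = 0 := fun y => by
    change sg (-1) • (0 : N.M01.M) = 0
    rw [smul_zero]
  have hXd : ∀ x : N.M0.M × N.M1.M, (ds X0 X1).dg.d x = 0 := fun x => by
    refine (ds_d X0 X1 x.1 x.2).trans ?_
    rfl
  have hMl : ∀ (b : R) (x : (N.M0.M × N.M1.M) × N.M01.M), M.l b x =
      ((N.M0.l b x.1.1, N.M1.l b x.1.2), N.M01.l b x.2) := fun b x => by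
    change N.cl ((b, b), 0) x = _
    rw [Tri.cl_apply]
    change ((N.M0.l b x.1.1, N.M1.l b x.1.2), N.M01.l b x.2 + N.M01.l 0 (N.ρ1 x.1.2)) = _
    rw [map_zero, LinearMap.zero_apply, add_zero]
  have hYl : ∀ (b : R) (y : N.M01.M), Y.l b y = N.M01.l b y := fun b y => by
    change N.M01.l ((Dg.conc k R).sp (-1) b) y = _
    have h3 : (Dg.conc k R).sp (-1) b = b := by
      rw [Dg.sp_neg, Dg.sp_one]
      exact Dg.conc_s b
    rw [h3]
  refine Perf.mid (M' := Y) (M := M) (M'' := ds X0 X1)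
    ⟨mkL (LinearMap.inr k (N.M0.M × N.M1.M) N.M01.M) ?_ ?_,
      mkL (LinearMap.fst k (N.M0.M × N.M1.M) N.M01.M) ?_ ?_,
      mkL (LinearMap.snd k (N.M0.M × N.M1.M) N.M01.M) ?_ ?_,
      mkL (LinearMap.inl k (N.M0.M × N.M1.M) N.M01.M) ?_ ?_, ?_, ?_, ?_, ?_, ?_, ?_, ?_⟩ hY hX
  · intro i m hm
    rw [add_zero]
    have h3 : (Dg.conc k N.M01.M).IsDeg (i + -1) m := (Dg.shift_deg (Dg.conc k N.M01.M)).1 hm
    rcases Dg.conc_cases h3 with h4 | rfl
    · have h5 : i = 1 := by omega
      rw [h5]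
      exact Dg.two_deg1 N.δ m
    · exact Dg.IsDeg.zero i
  · intro b m
    refine Eq.trans ?_ (hMl b ((0, 0), m)).symm
    change ((0 : N.M0.M × N.M1.M), Y.l b m) = ((N.M0.l b 0, N.M1.l b 0), N.M01.l b m)
    rw [map_zero, map_zero]
    exact Prod.ext rfl (hYl b m)
  · intro i m hm
    refine Dg.two_degMap N.δ (Z := (ds X0 X1).dg) (m := 0)
      (LinearMap.fst k (N.M0.M × N.M1.M) N.M01.M) (fun v => ?_) (fun w => ?_) hm
    · exact ds_deg.2 ⟨Dg.conc_deg _, Dg.conc_deg _⟩
    · exact Dg.IsDeg.zero _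
  · intro b m
    exact congrArg Prod.fst (hMl b m)
  · intro i m hm
    refine Dg.two_degMap N.δ (Z := Y.dg) (m := 0)
      (LinearMap.snd k (N.M0.M × N.M1.M) N.M01.M) (fun v => ?_) (fun w => ?_) hm
    · exact Dg.IsDeg.zero _
    · exact (Dg.shift_deg (Dg.conc k N.M01.M)).2 (Dg.conc_deg _)
  · intro b m
    exact (congrArg Prod.snd (hMl b m)).trans (hYl b m.2).symm
  · intro i m hm
    rw [add_zero]
    obtain ⟨u, v⟩ := m
    obtain ⟨h3, h4⟩ := ds_deg.1 hm
    exact BZPerf_two N.δ (BZPerf_prod0 h3 h4)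
  · intro b m
    refine Eq.trans ?_ (hMl b (m, 0)).symm
    change ((N.M0.l b m.1, N.M1.l b m.2), (0 : N.M01.M)) =
      ((N.M0.l b m.1, N.M1.l b m.2), N.M01.l b 0)
    rw [map_zero]
  · refine BZPerf_dd0 fun x => ?_
    refine (hMd ((0, 0), x)).trans (Eq.trans ?_ (congrArg (LinearMap.inr k (N.M0.M × N.M1.M) N.M01.M)
      (hYd x)).symm)
    exact Prod.ext rfl (map_zero N.δ)
  · refine BZPerf_dd0 fun x => ?_
    exact (hXd x.1).trans (congrArg Prod.fst (hMd x)).symm
  · intro x
    rfl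
  · intro x
    rfl
  · intro x
    rfl
  · intro x
    rfl
  · intro x
    exact Prod.ext (zero_add x.1) (add_zero x.2)

end gen

variable {k : Type u} [Field k] {D : FExt k} {F : LSp D}

/-- A dual basis of a component of a vector bundle. -/
private theorem BZPerf_db (V : LP k F.F) (hV : BSt V) (c : Fin 3) :
    ∃ (n : ℕ) (v : Fin n → F.F) (f : Fin n → (F.F →ₗ[D.L] D.L)), (∀ j, v j ∈ V.cp c) ∧
      (∀ j, ∀ x ∈ V.cp c, f j x ∈ BB D c) ∧ ∀ x, x = ∑ j, f j x • v j := by
  have h0 : ∃ (n : ℕ) (v : Fin n → F.F) (f : Fin n → (F.F →ₗ[D.L] D.L)), (∀ j, v j ∈ V.N0) ∧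
      (∀ j, ∀ x ∈ V.N0, IsIntegral (kk k X) (f j x)) ∧ ∀ x, x = ∑ j, f j x • v j :=
    exists_dual_basis X V.N0 V.fg0 V.sp0 (fun b hb v hv => hV 0 b (mem_BB0.2 hb) v hv)
  have h1 : ∃ (n : ℕ) (v : Fin n → F.F) (f : Fin n → (F.F →ₗ[D.L] D.L)), (∀ j, v j ∈ V.N1) ∧
      (∀ j, ∀ x ∈ V.N1, IsIntegral (kk k X⁻¹) (f j x)) ∧ ∀ x, x = ∑ j, f j x • v j :=
    exists_dual_basis X⁻¹ V.N1 V.fg1 V.sp1 (fun b hb v hv => hV 1 b (mem_BB1.2 hb) v hv)
  fin_cases c
  · obtain ⟨n, v, f, h2, h3, h4⟩ := h0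
    exact ⟨n, v, f, h2, fun j x hx => mem_BB0.2 (h3 j x hx), h4⟩
  · obtain ⟨n, v, f, h2, h3, h4⟩ := h1
    exact ⟨n, v, f, h2, fun j x hx => mem_BB1.2 (h3 j x hx), h4⟩
  · obtain ⟨n, v, f, h2, h3, h4⟩ := h0
    refine ⟨n, v, f, fun j => V.N0_le (h2 j), fun j x hx => ?_, h4⟩
    obtain ⟨m, hm⟩ := V.mem_N01.1 hx
    refine mem_BB2.2 ⟨m, mem_BB0.2 ?_⟩
    have h5 := h3 j _ hm
    have h6 : f j ((X : RatFunc k) ^ m • x) = tt D ^ m * f j x := by
      rw [← smul_tt]
      exact ((f j).restrictScalars (RatFunc k)).map_smul _ x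
    rw [h6] at h5
    exact h5

private theorem BZPerf_ite {E : Type u} [AddCommGroup E] [Module k E] (W : Submodule k E)
    {x : E} (hx : x ∈ W) {a c : Fin 3} : (if a = c then x else 0) ∈ W := by
  split_ifs
  · exact hx
  · exact W.zero_mem

/-- The matrix with the row `c` equal to `a`, and zero elsewhere. -/
private noncomputable def rowMat (c : Fin 3) (a : Fin 3 → D.L) : Matrix (Fin 3) (Fin 3) D.L :=
  fun i j => if i = c then a j else 0

/-- The matrix with the column `c` equal to `a`, and zero elsewhere. -/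
private noncomputable def colMat (c : Fin 3) (a : Fin 3 → D.L) : Matrix (Fin 3) (Fin 3) D.L :=
  fun i j => if j = c then a i else 0

/-- The row `c` of `V ⊗ Gam`, as a right module. -/
noncomputable def rowM (V : LP k F.F) (hV : BSt V) (c : Fin 3) : KBi k k (Gam D) :=
  subKBi (rowE V) (Algebra.ofId k (endCosp V).A01) (AlgHom.id k (Gam D)) (rowN V c)
    (fun r w hw => by
      have h : (rowE V).l ((Algebra.ofId k (endCosp V).A01) r) w = r • w := by
        funext j
        change (algebraMap k (Module.End D.L F.F) r) (w j) = r • w j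
        rw [Algebra.algebraMap_eq_smul_one]
        rfl
      rw [h]
      exact (rowN V c).smul_mem r hw) (rowN_r hV c)

theorem rowM_perf (V : LP k F.F) (hV : BSt V) (c : Fin 3) :
    Perf (A := base k) (B := GaL D) (rowM V hV c).bim := by
  obtain ⟨n, v, f, h1, h2, h3⟩ := BZPerf_db V hV c
  let i : Fin n → (rowN V c) →ₗ[k] (Gam D) := fun j =>
    { toFun := fun w => ⟨rowMat c (fun l => f j (w.1 l)), fun a b => by
        unfold rowMat
        split_ifs with h
        · subst h
          refine ⟨h2 j _ (w.2 b).1, fun h' => ?_⟩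
          exact (congrArg (f j) ((w.2 b).2 h')).trans (map_zero (f j))
        · exact ⟨(BB D a).zero_mem, fun _ => rfl⟩⟩
      map_add' := fun w w' => Subtype.ext (by
        funext a b
        change (if a = c then f j (w.1 b + w'.1 b) else 0) =
          (if a = c then f j (w.1 b) else 0) + (if a = c then f j (w'.1 b) else 0)
        split_ifs
        · rw [map_add]
        · rw [add_zero])
      map_smul' := fun r w => Subtype.ext (by
        funext a b
        change (if a = c then f j (r • w.1 b) else 0) = r • (if a = c then f j (w.1 b) else 0)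
        split_ifs
        · exact ((f j).restrictScalars k).map_smul r _
        · rw [smul_zero]) }
  let u : Fin n → rowN V c := fun j => ⟨fun l => if l = c then v j else 0, fun l =>
    ⟨BZPerf_ite (V.cp c) (h1 j), fun h' => if_neg (fun h => h' (Or.inl h))⟩⟩
  refine BZPerf_R (rowM V hV c) n i u ?_ ?_
  · intro j g w
    refine Subtype.ext ?_
    funext a b
    change (if a = c then f j (∑ l, g.1 l b • w.1 l) else 0) =
      ((i j w).1 * g.1) a b
    rw [Matrix.mul_apply]
    change _ = ∑ l, (if a = c then f j (w.1 l) else 0) * g.1 l b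
    split_ifs
    · rw [map_sum]
      refine Finset.sum_congr rfl fun l _ => ?_
      rw [map_smul, smul_eq_mul, mul_comm]
    · simp
  · intro w
    refine Subtype.ext ?_
    have e1 : (∑ j, (rowM V hV c).r (i j w) (u j)).1 =
        ∑ j, ((rowM V hV c).r (i j w) (u j)).1 := by
      exact map_sum (rowN V c).subtype _ _
    refine e1.trans ?_
    funext b
    refine (Finset.sum_apply b Finset.univ
      (fun j => (((rowM V hV c).r (i j w) (u j)).1 : Fin 3 → F.F))).trans ?_
    have e2 : ∀ j, ((rowM V hV c).r (i j w) (u j)).1 b = f j (w.1 b) • v j := by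
      intro j
      change ∑ l, (if l = c then f j (w.1 b) else 0) • (if l = c then v j else 0) = _
      rw [Finset.sum_eq_single c]
      · rw [if_pos rfl, if_pos rfl]
      · intro l _ hl
        rw [if_neg hl, zero_smul]
      · intro h
        exact absurd (Finset.mem_univ c) h
    rw [Finset.sum_congr rfl fun j _ => e2 j]
    exact (h3 (w.1 b)).symm

theorem rperf_ZL (V : LP k F.F) (hV : BSt V) : RPerf (ZL V hV) := by
  have key : ∀ (c : Fin 3) {A : DGA k} (Y : Bim A (GaL D))
      (e : (rowM V hV c).M ≃ₗ[k] Y.M) (hd : ∀ {i m}, (Dg.conc k (rowM V hV c).M).IsDeg i m →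
        Y.dg.IsDeg i (e m)) (hd' : ∀ y, Y.dg.d y = 0)
      (hr : ∀ b m, e ((rowM V hV c).r b m) = Y.r b (e m)),
      Perf (A := base k) (B := GaL D) (fgL Y) := by
    intro c A Y e hd hd' hr
    refine BIso.perf (M := (rowM V hV c).bim) (BIso.of_bij (A := base k) (B := GaL D)
      (M := (rowM V hV c).bim) (N := fgL Y)
      (mkR (M := (rowM V hV c).bim) (N := fgL Y) e.toLinearMap
        (fun hm => by rw [add_zero]; exact hd hm) hr) ?_ e.bijective) (rowM_perf V hV c)
    refine BZPerf_dd0 fun x => ?_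
    exact (hd' _).trans (map_zero e).symm
  refine BZPerf_triR (R := Gam D) (rowS V hV).tri ?_ ?_ ?_
  · exact key 0 (A := ring k (endCosp V).A0) ((rowS V hV).tri.M0.bim)
      (LinearEquiv.refl k (rowN V 0)) (fun h => h) (fun y => rfl) (fun b m => rfl)
  · exact key 1 (A := ring k (endCosp V).A1) ((rowS V hV).tri.M1.bim)
      (LinearEquiv.refl k (rowN V 1)) (fun h => h) (fun y => rfl) (fun b m => rfl)
  · exact key 2 (A := ring k (endCosp V).A01) ((rowS V hV).tri.M01.bim)
      (LinearEquiv.refl k (rowN V 2)) (fun h => h) (fun y => rfl) (fun b m => rfl)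

/-- The column `c` of `Gam' ⊗ Vᵛ`, as a left module. -/
noncomputable def colM (V : LP k F.F) (c : Fin 3) : KBi k (Gam' D) k :=
  subKBi (colE V) (AlgHom.id k (Gam' D)) (Algebra.ofId k (endCosp V).A01) (colN V c)
    (colN_l V c) (fun r w hw => by
      have h : (colE V).r ((Algebra.ofId k (endCosp V).A01) r) w = r • w := by
        refine funext fun j => LinearMap.ext fun v => ?_
        change w j ((algebraMap k (Module.End D.L F.F) r) v) = r • w j v
        rw [Algebra.algebraMap_eq_smul_one]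
        exact ((w j).restrictScalars k).map_smul r v
      rw [h]
      exact (colN V c).smul_mem r hw)

theorem colM_perf (V : LP k F.F) (c : Fin 3) :
    Perf (A := GaR D) (B := base k) (colM V c).bim := by
  obtain ⟨n, v, f, h1, h2, h3⟩ := BZPerf_db (F := F.dual) V.dual (BSt.dual V) c
  let i : Fin n → (colN V c) →ₗ[k] (Gam' D) := fun j =>
    { toFun := fun w => ⟨colMat c (fun l => f j (w.1 l)), fun a b => by
        unfold colMat
        split_ifs with h
        · subst h
          refine ⟨h2 j _ (w.2 a).1, fun h' => ?_⟩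
          exact (congrArg (f j) ((w.2 a).2 h')).trans (map_zero (f j))
        · exact ⟨(BB D b).zero_mem, fun _ => rfl⟩⟩
      map_add' := fun w w' => Subtype.ext (by
        funext a b
        change (if b = c then f j (w.1 a + w'.1 a) else 0) =
          (if b = c then f j (w.1 a) else 0) + (if b = c then f j (w'.1 a) else 0)
        split_ifs
        · exact map_add (f j) _ _
        · rw [add_zero])
      map_smul' := fun r w => Subtype.ext (by
        funext a b
        change (if b = c then f j (r • w.1 a) else 0) = r • (if b = c then f j (w.1 a) else 0)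
        split_ifs
        · exact ((f j).restrictScalars k).map_smul r _
        · rw [smul_zero]) }
  let u : Fin n → colN V c := fun j => ⟨fun l => if l = c then v j else 0, fun l =>
    ⟨BZPerf_ite (E := F.dual.F) (LP.cp (E := F.dual.F) V.dual c) (h1 j),
      fun h' => if_neg (fun h => h' (Or.inl h))⟩⟩
  refine BZPerf_L (colM V c) n i u ?_ ?_
  · intro j g w
    refine Subtype.ext ?_
    funext a b
    change (if b = c then f j (∑ l, g.1 a l • w.1 l) else 0) =
      (g.1 * (i j w).1) a b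
    rw [Matrix.mul_apply]
    change _ = ∑ l, g.1 a l * (if b = c then f j (w.1 l) else 0)
    split_ifs
    · refine (map_sum (f j) _ _).trans ?_
      refine Finset.sum_congr rfl fun l _ => ?_
      exact map_smul (f j) _ _
    · simp
  · intro w
    refine Subtype.ext ?_
    have e1 : (∑ j, (colM V c).l (i j w) (u j)).1 =
        ∑ j, ((colM V c).l (i j w) (u j)).1 := by
      exact map_sum (colN V c).subtype _ _
    refine e1.trans ?_
    funext a
    refine (Finset.sum_apply a Finset.univ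
      (fun j => (((colM V c).l (i j w) (u j)).1 : Fin 3 → F.dual.F))).trans ?_
    have e2 : ∀ j, ((colM V c).l (i j w) (u j)).1 a = f j (w.1 a) • v j := by
      intro j
      change ∑ l, (if l = c then f j (w.1 a) else 0) • (if l = c then v j else 0) = _
      rw [Finset.sum_eq_single c]
      · rw [if_pos rfl, if_pos rfl]
      · intro l _ hl
        rw [if_neg hl, zero_smul]
      · intro h
        exact absurd (Finset.mem_univ c) h
    rw [Finset.sum_congr rfl fun j _ => e2 j]
    exact (h3 (w.1 a)).symm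

theorem lperf_ZR (V : LP k F.F) : LPerf (ZR V) := by
  have key : ∀ (c : Fin 3) {B : DGA k} (Y : Bim (GaR D) B)
      (e : (colM V c).M ≃ₗ[k] Y.M) (hd : ∀ {i m}, (Dg.conc k (colM V c).M).IsDeg i m →
        Y.dg.IsDeg i (e m)) (hd' : ∀ y, Y.dg.d y = 0)
      (hl : ∀ b m, e ((colM V c).l b m) = Y.l b (e m)),
      Perf (A := GaR D) (B := base k) (fgR Y) := by
    intro c B Y e hd hd' hl
    refine BIso.perf (M := (colM V c).bim) (BIso.of_bij (A := GaR D) (B := base k)
      (M := (colM V c).bim) (N := fgR Y)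
      (mkL (M := (colM V c).bim) (N := fgR Y) e.toLinearMap
        (fun hm => by rw [add_zero]; exact hd hm) hl) ?_ e.bijective) (colM_perf V c)
    refine BZPerf_dd0 fun x => ?_
    exact (hd' _).trans (map_zero e).symm
  refine BZPerf_triL (R := Gam' D) (colS V).tri ?_ ?_ ?_
  · exact key 0 (B := ring k (endCosp V).A0) ((colS V).tri.M0.bim)
      (LinearEquiv.refl k (colN V 0)) (fun h => h) (fun y => rfl) (fun b m => rfl)
  · exact key 1 (B := ring k (endCosp V).A1) ((colS V).tri.M1.bim)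
      (LinearEquiv.refl k (colN V 1)) (fun h => h) (fun y => rfl) (fun b m => rfl)
  · exact key 2 (B := ring k (endCosp V).A01) ((colS V).tri.M01.bim)
      (LinearEquiv.refl k (colN V 2)) (fun h => h) (fun y => rfl) (fun b m => rfl)

end Pool.Agent.MP_6e5bed_ag_KC
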