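import Mathlib

set_option autoImplicit false

/-!
# KC, part D: poles at one prime of a Dedekind domain

`A` is a Dedekind domain with fraction field `L`, `p` a nonzero prime ideal of `A`.
-/

namespace Pool.Agent.MP_6e5bed_ag_KC

universe u

variable (A : Type u) [CommRing A] (L : Type u) [Field L] [Algebra A L] (p : Ideal A)

/-- The elements `f` of `L` with `p ^ j f ⊆ A`. -/
def pInv (j : ℕ) : Submodule A L where
  carrier := {f | ∀ a ∈ p ^ j, ∃ b : A, algebraMap A L b = algebraMap A L a * f}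
  add_mem' := fun {f g} hf hg a ha => by
    obtain ⟨b, hb⟩ := hf a ha
    obtain ⟨c, hc⟩ := hg a ha
    exact ⟨b + c, by rw [map_add, hb, hc, mul_add]⟩
  zero_mem' := fun a _ => ⟨0, by rw [map_zero, mul_zero]⟩
  smul_mem' := fun c f hf a ha => by
    obtain ⟨b, hb⟩ := hf a ha
    exact ⟨c * b, by rw [map_mul, hb, Algebra.smul_def]; ring⟩

variable {A L p}

theorem pInv_mono : Monotone (pInv A L p) := by
  intro i j hij f hf a ha
  exact hf a (Ideal.pow_le_pow_right hij ha)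

theorem mem_pInv_zero (f : L) : f ∈ pInv A L p 0 ↔ ∃ b : A, algebraMap A L b = f := by
  constructor
  · intro h
    obtain ⟨b, hb⟩ := h 1 (by rw [pow_zero, Ideal.one_eq_top]; exact Submodule.mem_top)
    exact ⟨b, by rw [hb, map_one, one_mul]⟩
  · rintro ⟨b, rfl⟩ a _
    exact ⟨a * b, map_mul _ _ _⟩

theorem pInv_mul {i j : ℕ} {f g : L} (hf : f ∈ pInv A L p i) (hg : g ∈ pInv A L p j) :
    f * g ∈ pInv A L p (i + j) := by
  intro a ha
  rw [pow_add] at ha
  refine Submodule.mul_induction_on ha (fun x hx y hy => ?_) (fun x y hx hy => ?_)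
  · obtain ⟨b, hb⟩ := hf x hx
    obtain ⟨c, hc⟩ := hg y hy
    exact ⟨b * c, by rw [map_mul, map_mul, hb, hc]; ring⟩
  · obtain ⟨b, hb⟩ := hx
    obtain ⟨c, hc⟩ := hy
    exact ⟨b + c, by rw [map_add, map_add, hb, hc, add_mul]⟩

variable (A L p)

/-- The ring of the elements whose only pole (on the spectrum of `A`) is `p`. -/
def pU : Subring L where
  carrier := {f | ∃ j, f ∈ pInv A L p j}
  mul_mem' := fun ⟨i, hi⟩ ⟨j, hj⟩ => ⟨i + j, pInv_mul hi hj⟩
  one_mem' := ⟨0, (mem_pInv_zero _).2 ⟨1, map_one _⟩⟩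
  add_mem' := fun ⟨i, hi⟩ ⟨j, hj⟩ => ⟨max i j, (pInv A L p _).add_mem
    (pInv_mono (le_max_left i j) hi) (pInv_mono (le_max_right i j) hj)⟩
  zero_mem' := ⟨0, (pInv A L p 0).zero_mem⟩
  neg_mem' := fun ⟨i, hi⟩ => ⟨i, (pInv A L p i).neg_mem hi⟩

end Pool.Agent.MP_6e5bed_ag_KC
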