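import Pool.Agent.Lib.MP_6e5bed_ag_CV.LPO
import Pool.Agent.Lib.MP_6e5bed_ag_KC.DA

set_option autoImplicit false

/-!
# KC, part D: the coordinate rings of the charts of a curve
-/

namespace Pool.Agent.MP_6e5bed_ag_KC

open Pool.Agent.MP_6e5bed_ag_NC RatFunc

universe u

variable {k : Type u} [Field k] (D : FExt k)

/-- The integral closure `B_0` of `k[t]` in `L`. -/
noncomputable def B0 : Subalgebra k D.L := (integralClosure (kk k X) D.L).restrictScalars k

/-- The integral closure `B_1` of `k[1/t]` in `L`. -/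
noncomputable def B1 : Subalgebra k D.L := (integralClosure (kk k X⁻¹) D.L).restrictScalars k

theorem mem_B0 (f : D.L) : f ∈ B0 D ↔ f ∈ (LP.OO D).N0 := Iff.rfl

theorem mem_B1 (f : D.L) : f ∈ B1 D ↔ f ∈ (LP.OO D).N1 := Iff.rfl

/-- `B_01 = B_0[1/t] = B_1[t]` -/
noncomputable def B01 : Subalgebra k D.L where
  carrier := {f | f ∈ (LP.OO D).N01}
  mul_mem' := fun {f g} ⟨n, hn⟩ ⟨m, hm⟩ => ⟨n + m, by
    have h := (B0 D).mul_mem hn hm
    rw [smul_mul_smul_comm, ← pow_add] at h
    exact h⟩
  add_mem' := (LP.OO D).N01.add_mem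
  algebraMap_mem' := fun c => ⟨0, by
    rw [pow_zero, one_smul]
    exact (B0 D).algebraMap_mem c⟩

instance : IsDedekindDomain (B0 D) :=
  integralClosure.isDedekindDomain (kk k X) (RatFunc k) D.L

instance : IsDedekindDomain (B1 D) :=
  integralClosure.isDedekindDomain (kk k X⁻¹) (RatFunc k) D.L

instance : IsFractionRing (B0 D) D.L :=
  integralClosure.isFractionRing_of_finite_extension (A := kk k X) (RatFunc k) D.L

instance : IsFractionRing (B1 D) D.L :=
  integralClosure.isFractionRing_of_finite_extension (A := kk k X⁻¹) (RatFunc k) D.L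

/-- `k[u]` is of finite type, and its integral closure is a finite module over it. -/
theorem DB.ft (u : RatFunc k) [Module.Finite (kk k u) (integralClosure (kk k u) D.L)] :
    Algebra.FiniteType k ((integralClosure (kk k u) D.L).restrictScalars k) := by
  have h1 : Algebra.FiniteType k (kk k u) := by
    rw [← Subalgebra.fg_iff_finiteType]
    exact ⟨{u}, by rw [Finset.coe_singleton]; rfl⟩
  have h2 : Algebra.FiniteType k (integralClosure (kk k u) D.L) :=
    Algebra.FiniteType.trans h1 inferInstance
  exact h2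

instance : Algebra.FiniteType k (B0 D) := by
  have h : Module.Finite (kk k X) (integralClosure (kk k X) D.L) :=
    IsIntegralClosure.finite (kk k X) (RatFunc k) D.L _
  exact DB.ft D X

instance : Algebra.FiniteType k (B1 D) := by
  have h : Module.Finite (kk k X⁻¹) (integralClosure (kk k X⁻¹) D.L) :=
    IsIntegralClosure.finite (kk k X⁻¹) (RatFunc k) D.L _
  exact DB.ft D X⁻¹

end Pool.Agent.MP_6e5bed_ag_KC
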