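import Pool.Agent.Lib.MP_6e5bed_ag_KC.BB
import Pool.Agent.Lib.MP_6e5bed_ag_KC.DB

set_option autoImplicit false

/-!
# KC, part D: the two notations for the coordinate rings
-/

namespace Pool.Agent.MP_6e5bed_ag_KC

open Pool.Agent.MP_6e5bed_ag_NC RatFunc

universe u

variable {k : Type u} [Field k] (D : FExt k)

theorem B0_eq : B0 D = BB D 0 := SetLike.ext fun _ => Iff.rfl

theorem B1_eq : B1 D = BB D 1 := SetLike.ext fun _ => Iff.rfl

theorem B01_eq : B01 D = BB D 2 := SetLike.ext fun _ => Iff.rfl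

end Pool.Agent.MP_6e5bed_ag_KC
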