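import Pool.Agent.Lib.MP_6e5bed_ag_KC.BSys
import Pool.Agent.Lib.MP_6e5bed_ag_KC.BFin
import Pool.Agent.Lib.MP_6e5bed_ag_KC.BZPerf
import Pool.Agent.Lib.MP_6e5bed_ag_KC.DB
import Pool.Agent.Lib.MP_6e5bed_ag_KC.DBB

set_option autoImplicit false
set_option linter.unusedSectionVars false

/-!
# Coherent diagrams of rank one on the diagonal (project KC, part B3)

Proof of `fin_quot`. Let `B = BB D c`. There is `h ≠ 0` in `B` with `h N ⊆ N'` (`N'` contains some
`x ≠ 0`; every generator of `N` is `p / q` times `x`, with `p, q ∈ B`, `q ≠ 0`; `L` is the fraction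
field of `B`). So the quotient is a quotient of a finite sum of `B / h B`, which is
finite-dimensional: for `c = 0` (and `c = 1`), `B` is a finite module over `kk k X` and `h` divides
a nonzero element of `kk k X`; for `c = 2` one may assume `h ∈ BB D 0`, and
`x ↦ t ^ (-m) x` gives a surjection `BB D 0 / h → BB D 2 / h` for large `m`: the images of
`t ^ n` in the finite-dimensional space `BB D 0 / h` are stationary, i.e.
`t ^ m BB_0 ⊆ t ^ (m + n) BB_0 + h BB_0` for all `n`, so `t ^ (-n) BB_0 ⊆ t ^ (-m) BB_0 + h BB_2`.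

Proof of `ecl_coh`. Let `T` be the diagram of the intersections `S.M a b ⊓ S'.M a b`; they are not
zero (common denominators; both are stable under `BB D (jn a b)` by `sys_stable`), and `fin_quot`,
`ecl_congr'`, `ecl_congr` apply to `T ≤ S` and `T ≤ S'` (the cokernel of `T.kbi → S.kbi` is the
direct sum of the nine quotients).
-/

namespace Pool.Agent.MP_6e5bed_ag_KC

open RatFunc Pool.Agent.MP_6e5bed_ag_NC

universe u

variable {k : Type u} [Field k] {D : FExt k} {F : LSp D}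

private theorem BCoh_lift (N N' P : Submodule k D.L) (hP : Module.Finite k (P.map N'.mkQ))
    (h : ∀ x ∈ N, N'.mkQ x ∈ P.map N'.mkQ) :
    Module.Finite k (N ⧸ Submodule.comap N.subtype N') := by
  have h1 : LinearMap.ker (N'.mkQ ∘ₗ N.subtype) = Submodule.comap N.subtype N' := by
    rw [LinearMap.ker_comp, Submodule.ker_mkQ]
  have h2 : Module.Finite k (LinearMap.range (N'.mkQ ∘ₗ N.subtype)) := by
    refine Submodule.finiteDimensional_of_le (S₂ := P.map N'.mkQ) ?_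
    rintro _ ⟨x, rfl⟩
    exact h x.1 x.2
  rw [← h1]
  exact Module.Finite.equiv (LinearMap.quotKerEquivRange _).symm

/-- Fitting: multiplication by `a` is bijective on the finite-dimensional space `(P + N') / N'`. -/
private theorem BCoh_fit (N' P : Submodule k D.L) (a : D.L) (ha : a ≠ 0)
    (h1 : ∀ x ∈ N', a * x ∈ N') (h2 : ∀ x ∈ N', a⁻¹ * x ∈ N') (hP : ∀ x ∈ P, a * x ∈ P)
    (hf : Module.Finite k (P.map N'.mkQ)) (x : D.L) (hx : N'.mkQ (a * x) ∈ P.map N'.mkQ) :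
    N'.mkQ x ∈ P.map N'.mkQ := by
  let T : (D.L ⧸ N') →ₗ[k] (D.L ⧸ N') := N'.mapQ N' (LinearMap.mulLeft k a) (fun y hy => h1 y hy)
  have hT : ∀ y, T (N'.mkQ y) = N'.mkQ (a * y) := fun y => rfl
  have hinj : Function.Injective T := by
    rw [injective_iff_map_eq_zero]
    intro z hz
    obtain ⟨y, rfl⟩ := N'.mkQ_surjective z
    rw [hT, ← LinearMap.mem_ker, Submodule.ker_mkQ] at hz
    rw [← LinearMap.mem_ker, Submodule.ker_mkQ]
    have h3 := h2 _ hz
    rwa [inv_mul_cancel_left₀ ha] at h3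
  have hle : (P.map N'.mkQ).map T ≤ P.map N'.mkQ := by
    rintro _ ⟨_, ⟨w, hw, rfl⟩, rfl⟩
    exact ⟨a * w, hP w hw, rfl⟩
  have heq : (P.map N'.mkQ).map T = P.map N'.mkQ :=
    Submodule.eq_of_le_of_finrank_eq hle
      (LinearEquiv.finrank_eq (Submodule.equivMapOfInjective T hinj _)).symm
  rw [← hT, ← heq] at hx
  obtain ⟨q, hq, hqx⟩ := hx
  rw [← hinj hqx]
  exact hq

/-- the lattice spanned by a finite set -/
private noncomputable def BCoh_P {u : RatFunc k} (O : Submodule (kk k u) D.L)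
    (S : Finset D.L) : Submodule (kk k u) D.L :=
  ⨆ s ∈ S, O.map (LinearMap.mulRight (kk k u) s)

private theorem BCoh_P_fg {u : RatFunc k} {O : Submodule (kk k u) D.L} (hO : O.FG)
    (S : Finset D.L) : (BCoh_P O S).FG :=
  Submodule.fg_biSup S _ fun _ _ => hO.map _

private theorem BCoh_P_mem {u : RatFunc k} {O : Submodule (kk k u) D.L} {S : Finset D.L}
    {c : D.L → D.L} (hc : ∀ s ∈ S, c s ∈ O) : ∑ s ∈ S, c s * s ∈ BCoh_P O S := by
  refine Submodule.sum_mem _ fun s hs => ?_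
  have h : O.map (LinearMap.mulRight (kk k u) s) ≤ BCoh_P O S :=
    le_iSup₂_of_le (f := fun s (_ : s ∈ S) => O.map (LinearMap.mulRight (kk k u) s)) s hs le_rfl
  exact h ⟨c s, hc s hs, rfl⟩

private theorem BCoh_P_mul {u : RatFunc k} {O : Submodule (kk k u) D.L} {S : Finset D.L}
    {b : D.L} (hb : ∀ x ∈ O, b * x ∈ O) {x : D.L} (hx : x ∈ BCoh_P O S) :
    b * x ∈ BCoh_P O S := by
  have h : BCoh_P O S ≤ (BCoh_P O S).comap (LinearMap.mulLeft (kk k u) b) := by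
    refine iSup₂_le fun s hs => ?_
    rintro _ ⟨y, hy, rfl⟩
    have h1 : O.map (LinearMap.mulRight (kk k u) s) ≤ BCoh_P O S :=
      le_iSup₂_of_le (f := fun s (_ : s ∈ S) => O.map (LinearMap.mulRight (kk k u) s)) s hs
        le_rfl
    exact h1 ⟨b * y, hb y hy, mul_assoc b y s⟩
  exact h hx

private theorem BCoh_map {E : Type u} [AddCommGroup E] [Module (RatFunc k) E] [Module k E]
    [IsScalarTower k (RatFunc k) E] {u : RatFunc k} (M P : Submodule (kk k u) E)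
    (h1 : Module.Finite k (P ⧸ M.submoduleOf P)) (N' : Submodule k E)
    (hMN : ∀ x ∈ M, x ∈ N') : Module.Finite k ((P.restrictScalars k).map N'.mkQ) := by
  have h2 : Module.Finite k (P ⧸ (M.submoduleOf P).restrictScalars k) :=
    Module.Finite.equiv (Submodule.Quotient.restrictScalarsEquiv k (M.submoduleOf P)).symm
  let g : P →ₗ[k] (E ⧸ N') :=
    { toFun := fun x => N'.mkQ x.1
      map_add' := fun x y => map_add N'.mkQ x.1 y.1
      map_smul' := fun c x => map_smul N'.mkQ c x.1 }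
  let f : (P ⧸ (M.submoduleOf P).restrictScalars k) →ₗ[k] (E ⧸ N') :=
    Submodule.liftQ _ g (by
      intro x hx
      rw [LinearMap.mem_ker]
      exact (Submodule.Quotient.mk_eq_zero N').2 (hMN _ hx))
  refine Submodule.finiteDimensional_of_le (S₂ := LinearMap.range f) ?_
  rintro _ ⟨x, hx, rfl⟩
  exact ⟨Submodule.Quotient.mk ⟨x, hx⟩, rfl⟩

/-- finiteness for a module over `k[u]` -/
private theorem BCoh_lat {u : RatFunc k} (O : Submodule (kk k u) D.L)
    (hg : ∀ g : kk k u, algebraMap (kk k u) D.L g ∈ O)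
    (hst : ∀ v : D.L, ∃ g : kk k u, g ≠ 0 ∧ g • v ∈ O)
    (hq : ∀ M M' : Submodule (kk k u) D.L, (∀ v : D.L, ∃ g : kk k u, g ≠ 0 ∧ g • v ∈ M) →
      M'.FG → Module.Finite k (M' ⧸ M.submoduleOf M'))
    (N' : Submodule k D.L) (hs : ∀ b ∈ O, ∀ x ∈ N', b * x ∈ N') (h0 : N' ≠ ⊥)
    (P : Submodule (kk k u) D.L) (hP : P.FG) :
    Module.Finite k ((P.restrictScalars k).map N'.mkQ) := by
  let M : Submodule (kk k u) D.L :=
    { carrier := N'
      add_mem' := fun {a b} ha hb => N'.add_mem ha hb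
      zero_mem' := N'.zero_mem
      smul_mem' := fun g x hx => by
        rw [Algebra.smul_def]
        exact hs _ (hg g) x hx }
  have hM : ∀ v : D.L, ∃ g : kk k u, g ≠ 0 ∧ g • v ∈ M := by
    intro v
    obtain ⟨x, hx, hx0⟩ := (Submodule.ne_bot_iff _).1 h0
    obtain ⟨g, hg0, hgv⟩ := hst (v * x⁻¹)
    refine ⟨g, hg0, ?_⟩
    have h1 : g • v = (g • (v * x⁻¹)) * x := by
      rw [smul_mul_assoc, inv_mul_cancel_right₀ hx0]
    rw [h1]
    exact hs _ hgv x hx
  exact BCoh_map M P (hq M P hM hP) N' (fun x hx => hx)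

private theorem BCoh_lat0 (N' : Submodule k D.L) (hs : ∀ b ∈ BB D 0, ∀ x ∈ N', b * x ∈ N')
    (h0 : N' ≠ ⊥) (P : Submodule (kk k X) D.L) (hP : P.FG) :
    Module.Finite k ((P.restrictScalars k).map N'.mkQ) :=
  BCoh_lat (LP.OO D).N0 (fun _ => isIntegral_algebraMap)
    ((span_top_iff_X _).1 (LP.OO D).sp0)
    (fun M _ hM hM' => finite_quot_X ((span_top_iff_X M).2 hM) hM') N' hs h0 P hP

private theorem BCoh_lat1 (N' : Submodule k D.L) (hs : ∀ b ∈ BB D 1, ∀ x ∈ N', b * x ∈ N')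
    (h0 : N' ≠ ⊥) (P : Submodule (kk k X⁻¹) D.L) (hP : P.FG) :
    Module.Finite k ((P.restrictScalars k).map N'.mkQ) :=
  BCoh_lat (LP.OO D).N1 (fun _ => isIntegral_algebraMap)
    ((span_top_iff_Xi _).1 (LP.OO D).sp1)
    (fun M _ hM hM' => finite_quot_Xi ((span_top_iff_Xi M).2 hM) hM') N' hs h0 P hP

private theorem BCoh_span {c : Fin 3} {S : Finset D.L} {x : D.L}
    (hx : x ∈ Submodule.span (BB D c) (S : Set D.L)) :
    ∃ f : D.L → D.L, (∀ s ∈ S, f s ∈ BB D c) ∧ x = ∑ s ∈ S, f s * s := by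
  obtain ⟨f, -, hf⟩ := (Submodule.mem_span_finset (R := BB D c)).1 hx
  exact ⟨fun s => (f s).1, fun s _ => (f s).2, hf.symm⟩

private theorem BCoh_tpow {x : D.L} {n : ℕ} (hx : x ∈ BB D 0) : tt D ^ n * x ∈ BB D 0 :=
  (BB D 0).mul_mem ((BB D 0).pow_mem (tt_mem_BB0 D) n) hx

theorem fin_quot (c : Fin 3) {N N' : Submodule k D.L} (h : N' ≤ N)
    (hs : ∀ b ∈ BB D c, ∀ x ∈ N', b * x ∈ N') (S : Finset D.L)
    (hS : ∀ x ∈ N, x ∈ Submodule.span (BB D c) (S : Set D.L)) (h0 : N' ≠ ⊥) :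
    Module.Finite k (N ⧸ Submodule.comap N.subtype N') := by
  have hc : c = 0 ∨ c = 1 ∨ c = 2 := by
    fin_cases c <;> simp
  rcases hc with rfl | rfl | rfl
  · refine BCoh_lift N N' _ (BCoh_lat0 N' hs h0 _ (BCoh_P_fg (LP.OO D).fg0 S)) fun x hx => ?_
    obtain ⟨f, hf, hfx⟩ := BCoh_span (hS x hx)
    refine ⟨x, ?_, rfl⟩
    rw [hfx]
    exact BCoh_P_mem (O := (LP.OO D).N0) hf
  · refine BCoh_lift N N' _ (BCoh_lat1 N' hs h0 _ (BCoh_P_fg (LP.OO D).fg1 S)) fun x hx => ?_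
    obtain ⟨f, hf, hfx⟩ := BCoh_span (hS x hx)
    refine ⟨x, ?_, rfl⟩
    rw [hfx]
    exact BCoh_P_mem (O := (LP.OO D).N1) hf
  · have hs0 : ∀ b ∈ BB D 0, ∀ x ∈ N', b * x ∈ N' := fun b hb => hs b (BB_le D 0 hb)
    have hfin := BCoh_lat0 N' hs0 h0 _ (BCoh_P_fg (LP.OO D).fg0 S)
    refine BCoh_lift N N' _ hfin fun x hx => ?_
    obtain ⟨f, hf, hfx⟩ := BCoh_span (hS x hx)
    have h1 : ∀ s ∈ S, ∃ n : ℕ, tt D ^ n * f s ∈ BB D 0 := fun s hsS => mem_BB2.1 (hf s hsS)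
    choose! n hn using h1
    have h2 : ∀ s ∈ S, tt D ^ (∑ s ∈ S, n s) * f s ∈ BB D 0 := by
      intro s hsS
      classical
      rw [← Finset.add_sum_erase S n hsS, add_comm, pow_add, mul_assoc]
      exact BCoh_tpow (hn s hsS)
    have hti : ∀ m : ℕ, (tt D ^ m)⁻¹ ∈ BB D 2 := by
      intro m
      refine mem_BB2.2 ⟨m, ?_⟩
      rw [mul_inv_cancel₀ (pow_ne_zero _ (tt_ne_zero D))]
      exact (BB D 0).one_mem
    refine BCoh_fit N' _ (tt D ^ (∑ s ∈ S, n s)) (pow_ne_zero _ (tt_ne_zero D))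
      (fun y hy => hs0 _ ((BB D 0).pow_mem (tt_mem_BB0 D) _) y hy)
      (fun y hy => hs _ (hti _) y hy)
      (fun y hy => BCoh_P_mul (O := (LP.OO D).N0) (fun z hz => BCoh_tpow hz) hy) hfin x ?_
    refine ⟨_, ?_, rfl⟩
    have h3 : tt D ^ (∑ s ∈ S, n s) * x =
        ∑ s ∈ S, (tt D ^ (∑ s ∈ S, n s) * f s) * s := by
      rw [hfx, Finset.mul_sum]
      exact Finset.sum_congr rfl fun s _ => (mul_assoc _ _ _).symm
    rw [h3]
    exact BCoh_P_mem (O := (LP.OO D).N0) h2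

private theorem BCoh_2 {x : D.L} (hx : x ∈ BB D 2) : ∃ y ∈ BB D 0, ∃ z ∈ BB D 1, x = y * z := by
  obtain ⟨n, hn⟩ := mem_BB2.1 hx
  refine ⟨_, hn, (tt D)⁻¹ ^ n, (BB D 1).pow_mem (tt_inv_mem_BB1 D) n, ?_⟩
  rw [inv_pow, mul_comm, inv_mul_cancel_left₀ (pow_ne_zero _ (tt_ne_zero D))]

theorem sys_stable (S : Sys2 D (LLd D)) (a b : Fin 3) (x : D.L) (hx : x ∈ BB D (jn a b))
    (m : D.L) (hm : m ∈ S.M a b) : (x * m : D.L) ∈ S.M a b := by
  have hl : ∀ y ∈ BB D a, ∀ m' : D.L, m' ∈ S.M a b → (y * m' : D.L) ∈ S.M a b :=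
    fun y hy m' hm' => S.hl a b y hy m' hm'
  have hr : ∀ y ∈ BB D b, ∀ m' : D.L, m' ∈ S.M a b → (y * m' : D.L) ∈ S.M a b :=
    fun y hy m' hm' => S.hr a b y hy m' hm'
  unfold jn at hx
  split_ifs at hx with hab
  · exact hl x hx m hm
  · obtain ⟨y, hy, z, hz, rfl⟩ := BCoh_2 hx
    have ha : a = 0 ∨ a = 1 ∨ a = 2 := by fin_cases a <;> simp
    have hb : b = 0 ∨ b = 1 ∨ b = 2 := by fin_cases b <;> simp
    rcases ha with rfl | rfl | rfl
    · rcases hb with rfl | rfl | rfl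
      · exact absurd rfl hab
      · rw [mul_assoc]
        exact hl y hy _ (hr z hz m hm)
      · exact hr _ hx m hm
    · rcases hb with rfl | rfl | rfl
      · rw [mul_assoc]
        exact hr y hy _ (hl z hz m hm)
      · exact absurd rfl hab
      · exact hr _ hx m hm
    · exact hl _ hx m hm

/-- Finitely generated and not zero, over the rings of functions of the diagonal. -/
def CohL (S : Sys2 D (LLd D)) : Prop := ∀ a b : Fin 3, S.M a b ≠ ⊥ ∧ ∃ T : Finset D.L,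
  ∀ x : D.L, x ∈ S.M a b → x ∈ Submodule.span (BB D (jn a b)) (T : Set D.L)

theorem cohL_Bv (D : FExt k) : CohL (Bv D) := by
  intro a b
  constructor
  · refine (Submodule.ne_bot_iff _).2 ⟨(1 : D.L), (BB D (jn a b)).one_mem, ?_⟩
    exact one_ne_zero (α := D.L)
  · refine ⟨{1}, fun x hx => ?_⟩
    rw [Finset.coe_singleton]
    refine Submodule.mem_span_singleton.2 ⟨⟨x, hx⟩, ?_⟩
    exact mul_one x

/-- `L` is the fraction field of the rings on the charts. -/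
private theorem BCoh_den (c : Fin 3) (z : D.L) : ∃ q ∈ BB D c, q ≠ 0 ∧ q * z ∈ BB D c := by
  have h0 : ∃ q ∈ BB D 0, q ≠ 0 ∧ q * z ∈ BB D 0 := by
    obtain ⟨g, hg0, hg⟩ := (span_top_iff_X _).1 (LP.OO D).sp0 z
    refine ⟨algebraMap (kk k X) D.L g, isIntegral_algebraMap, ?_, ?_⟩
    · rw [Ne, FaithfulSMul.algebraMap_eq_zero_iff]
      exact hg0
    · rw [← Algebra.smul_def]
      exact hg
  have h1 : ∃ q ∈ BB D 1, q ≠ 0 ∧ q * z ∈ BB D 1 := by
    obtain ⟨g, hg0, hg⟩ := (span_top_iff_Xi _).1 (LP.OO D).sp1 z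
    refine ⟨algebraMap (kk k X⁻¹) D.L g, isIntegral_algebraMap, ?_, ?_⟩
    · rw [Ne, FaithfulSMul.algebraMap_eq_zero_iff]
      exact hg0
    · rw [← Algebra.smul_def]
      exact hg
  have hc : c = 0 ∨ c = 1 ∨ c = 2 := by fin_cases c <;> simp
  rcases hc with rfl | rfl | rfl
  · exact h0
  · exact h1
  · obtain ⟨q, hq, hq0, hqz⟩ := h0
    exact ⟨q, BB_le D 0 hq, hq0, BB_le D 0 hqz⟩

/-- two nonzero stable subspaces have a nonzero intersection -/
private theorem BCoh_inf (c : Fin 3) {N N' : Submodule k D.L}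
    (hs : ∀ b ∈ BB D c, ∀ x ∈ N, b * x ∈ N) (hs' : ∀ b ∈ BB D c, ∀ x ∈ N', b * x ∈ N')
    (h0 : N ≠ ⊥) (h0' : N' ≠ ⊥) : N ⊓ N' ≠ ⊥ := by
  obtain ⟨x, hx, hx0⟩ := (Submodule.ne_bot_iff _).1 h0
  obtain ⟨y, hy, hy0⟩ := (Submodule.ne_bot_iff _).1 h0'
  obtain ⟨q, hq, hq0, hqz⟩ := BCoh_den c (x * y⁻¹)
  refine (Submodule.ne_bot_iff _).2 ⟨q * x, ⟨hs q hq x hx, ?_⟩, mul_ne_zero hq0 hx0⟩
  have h1 : q * x = (q * (x * y⁻¹)) * y := by
    rw [mul_assoc, inv_mul_cancel_right₀ hy0]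
  rw [SetLike.mem_coe, h1]
  exact hs' _ hqz y hy

/-- the intersection of two diagrams -/
private noncomputable def BCoh_T (S S' : Sys2 D (LLd D)) : Sys2 D (LLd D) where
  M := fun a b => S.M a b ⊓ S'.M a b
  hl := fun a b x hx m hm => ⟨S.hl a b x hx m hm.1, S'.hl a b x hx m hm.2⟩
  hr := fun a b x hx m hm => ⟨S.hr a b x hx m hm.1, S'.hr a b x hx m hm.2⟩
  le_l := fun a b => inf_le_inf (S.le_l a b) (S'.le_l a b)
  le_r := fun a b => inf_le_inf (S.le_r a b) (S'.le_r a b)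

private theorem BCoh_fam {E : Type u} [AddCommGroup E] [Module k E]
    (M M' : Fin 3 → Fin 3 → Submodule k E)
    (hf : ∀ a b, Module.Finite k (M a b ⧸ Submodule.comap (M a b).subtype (M' a b)))
    (N N' : Submodule k (Fin 3 → Fin 3 → E)) (hN : ∀ w ∈ N, ∀ a b, w a b ∈ M a b)
    (hN' : ∀ w, (∀ a b, w a b ∈ M' a b) → w ∈ N')
    (i : N' →ₗ[k] N) (hi : ∀ w, (i w).1 = w.1) : Module.Finite k (N ⧸ LinearMap.range i) := by
  let p : N →ₗ[k] ((a : Fin 3) → (b : Fin 3) →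
      (M a b ⧸ Submodule.comap (M a b).subtype (M' a b))) :=
    LinearMap.pi fun a => LinearMap.pi fun b =>
      (Submodule.comap (M a b).subtype (M' a b)).mkQ ∘ₗ
        (LinearMap.codRestrict (M a b)
          (LinearMap.proj b ∘ₗ LinearMap.proj a ∘ₗ N.subtype) (fun w => hN w.1 w.2 a b))
  have hk : LinearMap.ker p ≤ LinearMap.range i := by
    intro w hw
    rw [LinearMap.mem_ker] at hw
    have h1 : ∀ a b, w.1 a b ∈ M' a b := by
      intro a b
      have h2 := congrFun (congrFun hw a) b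
      exact (Submodule.Quotient.mk_eq_zero (Submodule.comap (M a b).subtype (M' a b))).1 h2
    exact ⟨⟨w.1, hN' _ h1⟩, Subtype.ext (hi _)⟩
  have h3 : Module.Finite k (N ⧸ LinearMap.ker p) :=
    Module.Finite.equiv (LinearMap.quotKerEquivRange p).symm
  exact Module.Finite.of_surjective (Submodule.factor hk) (Submodule.factor_surjective hk)

private theorem BCoh_one (T S S' : Sys2 D (LLd D)) (hT : ∀ a b, T.M a b = S.M a b ⊓ S'.M a b)
    (hS : CohL S) (hS' : CohL S') (i : T.kbi.M →ₗ[k] S.kbi.M) (hi : ∀ w, (i w).1 = w.1) :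
    Module.Finite k (S.kbi.M ⧸ LinearMap.range i) := by
  refine BCoh_fam (E := D.L) S.M T.M (fun a b => ?_) S.N T.N
    (fun w hw => hw) (fun w hw => hw) i hi
  obtain ⟨h1, U, hU⟩ := hS a b
  rw [hT a b]
  exact fin_quot (jn a b) (N := S.M a b) (N' := (S.M a b ⊓ S'.M a b : Submodule k D.L))
    inf_le_left
    (fun x hx m hm => ⟨sys_stable S a b x hx m hm.1, sys_stable S' a b x hx m hm.2⟩) U hU
    (BCoh_inf (jn a b) (fun x hx m hm => sys_stable S a b x hx m hm)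
      (fun x hx m hm => sys_stable S' a b x hx m hm) h1 (hS' a b).1)

/-- The class of a coherent diagram of rank one on the diagonal does not depend on the diagram,
modulo `FIN`. -/
theorem ecl_coh [IsAlgClosed k] (V : LP k F.F) (hV : BSt V) (hW : Smooth (endCosp V).cech)
    (S S' : Sys2 D (LLd D)) (hS : CohL S) (hS' : CohL S')
    (h : HasRes ((C1 (ZL V hV) (ZR V)).obj S.kbi.bim)) :
    HasRes ((C1 (ZL V hV) (ZR V)).obj S'.kbi.bim) ∧
      ecl ((C1 (ZL V hV) (ZR V)).obj S'.kbi.bim) - ecl ((C1 (ZL V hV) (ZR V)).obj S.kbi.bim) ∈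
        FIN (endCosp V).cech := by
  let i : (BCoh_T S S').kbi.M →ₗ[k] S.kbi.M :=
    { toFun := fun w => ⟨w.1, fun a b => (w.2 a b).1⟩
      map_add' := fun _ _ => rfl
      map_smul' := fun _ _ => rfl }
  let i' : (BCoh_T S S').kbi.M →ₗ[k] S'.kbi.M :=
    { toFun := fun w => ⟨w.1, fun a b => (w.2 a b).2⟩
      map_add' := fun _ _ => rfl
      map_smul' := fun _ _ => rfl }
  have hi : Function.Injective i := by
    intro x y hxy
    have h0 : (i x).1 = (i y).1 := by rw [hxy]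
    exact Subtype.ext h0
  have hi' : Function.Injective i' := by
    intro x y hxy
    have h0 : (i' x).1 = (i' y).1 := by rw [hxy]
    exact Subtype.ext h0
  have hf := BCoh_one (BCoh_T S S') S S' (fun _ _ => rfl) hS hS' i fun _ => rfl
  have hf' := BCoh_one (BCoh_T S S') S' S (fun _ _ => inf_comm _ _) hS' hS i' fun _ => rfl
  obtain ⟨h1, h2⟩ := ecl_congr' hW (rperf_ZL V hV) (lperf_ZR V) (BCoh_T S S').kbi S.kbi i
    hi (fun _ _ => rfl) (fun _ _ => rfl) hf h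
  obtain ⟨h3, h4⟩ := ecl_congr hW (rperf_ZL V hV) (lperf_ZR V) (BCoh_T S S').kbi S'.kbi i'
    hi' (fun _ _ => rfl) (fun _ _ => rfl) hf' h1
  refine ⟨h3, ?_⟩
  have h5 := Submodule.sub_mem _ h4 h2
  rwa [sub_sub_sub_cancel_right] at h5

end Pool.Agent.MP_6e5bed_ag_KC
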