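import Mathlib

set_option autoImplicit false

/-!
# KC, commutative side: tensor products of domains over an algebraically closed field
-/

namespace Pool.Agent.MP_6e5bed_ag_KC

open scoped TensorProduct

universe u

namespace VDom

/-- Nullstellensatz: a maximal ideal is the kernel of a homomorphism to `k` -/
theorem exists_hom {k : Type u} [Field k] [IsAlgClosed k] (B : Type u) [CommRing B] [Algebra k B]
    [Algebra.FiniteType k B] (n : Ideal B) [hn : n.IsMaximal] :
    ∃ φ : B →ₐ[k] k, ∀ b, φ b = 0 → b ∈ n := by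
  let _ : Field (B ⧸ n) := Ideal.Quotient.field n
  have hft : Algebra.FiniteType k (B ⧸ n) :=
    Algebra.FiniteType.of_surjective (Ideal.Quotient.mkₐ k n) Ideal.Quotient.mk_surjective
  have hfin : Module.Finite k (B ⧸ n) := finite_of_finite_type_of_isJacobsonRing k (B ⧸ n)
  have hbij : Function.Bijective (algebraMap k (B ⧸ n)) :=
    IsAlgClosed.algebraMap_bijective_of_isIntegral
  let e : k ≃ₐ[k] (B ⧸ n) := AlgEquiv.ofBijective (Algebra.ofId k (B ⧸ n)) hbij
  refine ⟨(e.symm : (B ⧸ n) →ₐ[k] k).comp (Ideal.Quotient.mkₐ k n), fun b hb => ?_⟩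
  have h1 : e.symm (Ideal.Quotient.mkₐ k n b) = 0 := hb
  rw [map_eq_zero_iff _ e.symm.injective] at h1
  exact Ideal.Quotient.eq_zero_iff_mem.1 h1

variable {k : Type u} [Field k] {A B : Type u} [CommRing A] [Algebra k A] [CommRing B]
  [Algebra k B]

/-- evaluation of the second factor -/
noncomputable def ev (φ : B →ₐ[k] k) : A ⊗[k] B →ₐ[k] A :=
  Algebra.TensorProduct.lift (AlgHom.id k A) ((Algebra.ofId k A).comp φ)
    (fun _ _ => Commute.all _ _)

theorem ev_tmul (φ : B →ₐ[k] k) (a : A) (b : B) : ev φ (a ⊗ₜ[k] b) = φ b • a := by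
  unfold ev
  rw [Algebra.TensorProduct.lift_tmul, Algebra.smul_def, mul_comm]
  rfl

theorem repr_ev {ι : Type u} [DecidableEq ι] (e : Module.Basis ι k A) (φ : B →ₐ[k] k) (v : A ⊗[k] B) (i : ι) :
    e.repr (ev φ v) i = φ (TensorProduct.equivFinsuppOfBasisLeft e v i) := by
  induction v using TensorProduct.induction_on with
  | zero => simp
  | tmul a b =>
    rw [ev_tmul, TensorProduct.equivFinsuppOfBasisLeft_apply_tmul_apply, map_smul, map_smul,
      Finsupp.smul_apply, smul_eq_mul, smul_eq_mul, mul_comm]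
  | add x y hx hy =>
    rw [map_add, map_add, Finsupp.add_apply, map_add, Finsupp.add_apply, map_add, hx, hy]

end VDom

/-- `A`, `B` domains over the algebraically closed field `k`, `B` of finite type: then `A ⊗ B` is a
domain.

Proof. Let `(e_i)` be a basis of `A`, `v w = 0`, `v = ∑ e_i ⊗ b_i`, `w = ∑ e_j ⊗ b'_j`. For a
maximal ideal `n` of `B` with residue map `B → k` (Nullstellensatz), `A ⊗ B → A ⊗ k = A` maps `v`
or `w` to zero: all `b_i ∈ n` or all `b'_j ∈ n`. So `b_i b'_j` is in all maximal ideals, which is zero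
(`B` is a Jacobson ring and reduced): `b_i b'_j = 0` for all `i, j`. So `v = 0` or `w = 0`. -/
theorem tensor_domain {k : Type u} [Field k] [IsAlgClosed k] (A B : Type u) [CommRing A]
    [IsDomain A] [Algebra k A] [CommRing B] [IsDomain B] [Algebra k B] [Algebra.FiniteType k B] :
    IsDomain (A ⊗[k] B) := by
  classical
  have hnt : Nontrivial (A ⊗[k] B) := by
    obtain ⟨n, hn⟩ := Ideal.exists_maximal B
    obtain ⟨φ, -⟩ := VDom.exists_hom (k := k) B n
    exact (VDom.ev (A := A) φ).toRingHom.domain_nontrivial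
  have hnz : NoZeroDivisors (A ⊗[k] B) := by
    refine ⟨fun {v w} hvw => ?_⟩
    have e := Module.Basis.ofVectorSpace k A
    have key : ∀ i j, TensorProduct.equivFinsuppOfBasisLeft e v i *
        TensorProduct.equivFinsuppOfBasisLeft e w j = 0 := by
      intro i j
      have hJ : IsJacobsonRing B := isJacobsonRing_of_finiteType (A := k)
      have h1 : (⊥ : Ideal B).jacobson = ⊥ := by
        refine hJ.out ?_
        exact Ideal.isPrime_bot.isRadical
      rw [← Ideal.mem_bot, ← h1, Ideal.jacobson, Ideal.mem_sInf]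
      rintro n ⟨-, hn⟩
      obtain ⟨φ, hφ⟩ := VDom.exists_hom (k := k) B n
      apply hφ
      rw [map_mul, ← VDom.repr_ev, ← VDom.repr_ev]
      have h2 : VDom.ev (A := A) φ v * VDom.ev (A := A) φ w = 0 := by
        rw [← map_mul, hvw, map_zero]
      rcases mul_eq_zero.1 h2 with h3 | h3
      · rw [h3, map_zero, Finsupp.zero_apply, zero_mul]
      · rw [h3, map_zero, Finsupp.zero_apply, mul_zero]
    by_contra hcon
    rw [not_or] at hcon
    have hv : ∃ i, TensorProduct.equivFinsuppOfBasisLeft e v i ≠ 0 := by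
      by_contra h
      push Not at h
      exact hcon.1 ((map_eq_zero_iff _ (TensorProduct.equivFinsuppOfBasisLeft e).injective).1
        (Finsupp.ext h))
    have hw : ∃ i, TensorProduct.equivFinsuppOfBasisLeft e w i ≠ 0 := by
      by_contra h
      push Not at h
      exact hcon.2 ((map_eq_zero_iff _ (TensorProduct.equivFinsuppOfBasisLeft e).injective).1
        (Finsupp.ext h))
    obtain ⟨i, hi⟩ := hv
    obtain ⟨j, hj⟩ := hw
    exact (mul_ne_zero hi hj) (key i j)
  exact NoZeroDivisors.to_isDomain _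

end Pool.Agent.MP_6e5bed_ag_KC
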