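import Pool.Agent.Lib.MP_6e5bed_ag_KC.LLat
import Pool.Agent.Lib.MP_6e5bed_ag_KC.VDom

set_option autoImplicit false
set_option linter.unusedSectionVars false

/-!
# The ideal of the diagonal in `L ⊗ L` (project KC, part B3)

`dd D` is the kernel of the multiplication `L ⊗ L → L`, and `del D = t ⊗ 1 - 1 ⊗ t`.

Proof of `exists_unif`. `L` is finite and separable over `K = k(t)`; let `ε ∈ L ⊗_K L` be the
separability idempotent (`Algebra.FormallyUnramified.elem`): `(x ⊗ 1 - 1 ⊗ x) ε = 0`, `μ ε = 1`.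
Lift it to `e ∈ L ⊗_k L`; `μ e = 1`, so `e ∉ dd`. The kernel of `L ⊗_k L → L ⊗_K L` is the ideal
generated by `c ⊗ 1 - 1 ⊗ c`, `c ∈ K`, and this is the ideal generated by `del`: it contains
`p ⊗ 1 - 1 ⊗ p` for `p ∈ k[t]`, and for `c = p / q` it contains `(q ⊗ q) (c ⊗ 1 - 1 ⊗ c) =
p ⊗ q - q ⊗ p`, where `q ⊗ q` is a unit. So `e (x ⊗ 1 - 1 ⊗ x)` is divisible by `del` for all
`x ∈ L`, and the elements `x ⊗ 1 - 1 ⊗ x` generate `dd`
(`KaehlerDifferential.submodule_span_range_eq_ideal`); so `u = e` does for all `x ∈ dd`. (Another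
proof: `L = K(θ)`, `f (θ ⊗ 1) - f (1 ⊗ θ) = (θ ⊗ 1 - 1 ⊗ θ) u` with `u` congruent to `f' θ ≠ 0`,
`f` the minimal polynomial of `θ`.)

Proof of `exists_symb`. For `x ∈ dd ^ j` there are `u ∉ dd` and `y` with `u x = del ^ j y`
(products and sums; `dd` is prime). `L ⊗ L` is a domain (`tensor_domain` needs finite type; a
tensor product of fields over the algebraically closed field `k` is a domain in general: see
`isDomain_LL`) and `del ≠ 0`, so `σ x = μ y / μ u` is well-defined. `σ x = 0` iff `y ∈ dd`; then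
`u x ∈ dd ^ (j + 1)`, and `x ∈ dd ^ (j + 1)` as `dd` is maximal (`dd ^ (j + 1)` is primary).
-/

namespace Pool.Agent.MP_6e5bed_ag_KC

open RatFunc Pool.Agent.MP_6e5bed_ag_NC
open scoped TensorProduct

universe u

variable {k : Type u} [Field k]

/-- `L ⊗ L` as a bimodule over `L`. -/
noncomputable def TTt (D : FExt k) : KBi k D.L D.L where
  M := D.L ⊗[k] D.L
  l := (LinearMap.mul k (D.L ⊗[k] D.L)) ∘ₗ
    (Algebra.TensorProduct.includeLeft : D.L →ₐ[k] D.L ⊗[k] D.L).toLinearMap
  r := (LinearMap.mul k (D.L ⊗[k] D.L)) ∘ₗ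
    (Algebra.TensorProduct.includeRight : D.L →ₐ[k] D.L ⊗[k] D.L).toLinearMap
  l_one := fun m => by
    change (Algebra.TensorProduct.includeLeft : D.L →ₐ[k] D.L ⊗[k] D.L) 1 * m = m
    rw [map_one, one_mul]
  r_one := fun m => by
    change (Algebra.TensorProduct.includeRight : D.L →ₐ[k] D.L ⊗[k] D.L) 1 * m = m
    rw [map_one, one_mul]
  l_mul := fun a a' m => by
    change (Algebra.TensorProduct.includeLeft : D.L →ₐ[k] D.L ⊗[k] D.L) (a * a') * m =
      (Algebra.TensorProduct.includeLeft : D.L →ₐ[k] D.L ⊗[k] D.L) a *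
        ((Algebra.TensorProduct.includeLeft : D.L →ₐ[k] D.L ⊗[k] D.L) a' * m)
    rw [map_mul, mul_assoc]
  r_mul := fun b b' m => by
    change (Algebra.TensorProduct.includeRight : D.L →ₐ[k] D.L ⊗[k] D.L) (b * b') * m =
      (Algebra.TensorProduct.includeRight : D.L →ₐ[k] D.L ⊗[k] D.L) b' *
        ((Algebra.TensorProduct.includeRight : D.L →ₐ[k] D.L ⊗[k] D.L) b * m)
    rw [map_mul, mul_comm (Algebra.TensorProduct.includeRight b), mul_assoc]
  l_r := fun a b m => by
    change (Algebra.TensorProduct.includeLeft : D.L →ₐ[k] D.L ⊗[k] D.L) a *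
        ((Algebra.TensorProduct.includeRight : D.L →ₐ[k] D.L ⊗[k] D.L) b * m) =
      (Algebra.TensorProduct.includeRight : D.L →ₐ[k] D.L ⊗[k] D.L) b *
        ((Algebra.TensorProduct.includeLeft : D.L →ₐ[k] D.L ⊗[k] D.L) a * m)
    rw [mul_left_comm]

/-- The ideal of the diagonal. -/
noncomputable def dd (D : FExt k) : Ideal (D.L ⊗[k] D.L) := RingHom.ker (muL D)

/-- The element `t ⊗ 1 - 1 ⊗ t`. -/
noncomputable def del (D : FExt k) : D.L ⊗[k] D.L := tt D ⊗ₜ 1 - 1 ⊗ₜ tt D

private theorem BDel_mu (D : FExt k) (x y : D.L) : muL D (x ⊗ₜ[k] y) = x * y :=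
  Algebra.TensorProduct.lmul'_apply_tmul x y

theorem del_mem (D : FExt k) : del D ∈ dd D := by
  change muL D (tt D ⊗ₜ 1 - 1 ⊗ₜ tt D) = 0
  rw [map_sub, BDel_mu, BDel_mu, mul_one, one_mul, sub_self]

theorem dd_max (D : FExt k) : (dd D).IsMaximal := by
  exact RingHom.ker_isMaximal_of_surjective (muL D)
    (fun x => ⟨x ⊗ₜ 1, by rw [BDel_mu, mul_one]⟩)

/-- `L ⊗ L` is a domain (for finitely generated subalgebras: `tensor_domain`). -/
theorem isDomain_LL [IsAlgClosed k] (D : FExt k) : IsDomain (D.L ⊗[k] D.L) := by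
  have hnt : Nontrivial (D.L ⊗[k] D.L) := ⟨1, 0, fun h => by
    have h1 : muL D 1 = muL D 0 := by rw [h]
    rw [map_one, map_zero] at h1
    exact one_ne_zero h1⟩
  have hnz : NoZeroDivisors (D.L ⊗[k] D.L) := ⟨by
    intro x y hxy
    obtain ⟨N, hN, hsub⟩ := TensorProduct.exists_finite_submodule_right_of_setFinite
      ({x, y} : Set (D.L ⊗[k] D.L)) (by simp)
    obtain ⟨S, hS⟩ : N.FG := Module.Finite.iff_fg.1 hN
    let B : Subalgebra k D.L := Algebra.adjoin k (S : Set D.L)
    have hft : Algebra.FiniteType k B :=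
      (Subalgebra.fg_iff_finiteType B).1 (Subalgebra.fg_adjoin_finset S)
    have hdom : IsDomain (D.L ⊗[k] B) := tensor_domain D.L B
    let f : D.L ⊗[k] B →ₐ[k] D.L ⊗[k] D.L := Algebra.TensorProduct.map (AlgHom.id k D.L) B.val
    have hf : ∀ z, f z = (B.val.toLinearMap.lTensor D.L) z := fun z => rfl
    have hinj : Function.Injective f := by
      have h1 : Function.Injective (B.val.toLinearMap.lTensor D.L) :=
        Module.Flat.lTensor_preserves_injective_linearMap _ Subtype.val_injective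
      intro a b hab
      exact h1 (by rw [← hf, ← hf]; exact hab)
    have hNB : N ≤ Subalgebra.toSubmodule B := by
      rw [← hS, Submodule.span_le]
      exact Algebra.subset_adjoin
    have hr : ∀ z ∈ ({x, y} : Set (D.L ⊗[k] D.L)), ∃ w, f w = z := by
      intro z hz
      obtain ⟨w, rfl⟩ := hsub hz
      refine ⟨((Submodule.inclusion hNB).lTensor D.L) w, ?_⟩
      rw [hf]
      change (B.val.toLinearMap.lTensor D.L ∘ₗ (Submodule.inclusion hNB).lTensor D.L) w = _
      rw [← LinearMap.lTensor_comp]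
      rfl
    obtain ⟨a, ha⟩ := hr x (by simp)
    obtain ⟨b, hb⟩ := hr y (by simp)
    rw [← ha, ← hb, ← map_mul] at hxy
    have h1 : a * b = 0 := hinj (by rw [hxy, map_zero])
    rcases mul_eq_zero.1 h1 with h2 | h2
    · left; rw [← ha, h2, map_zero]
    · right; rw [← hb, h2, map_zero]⟩
  exact IsDomain.mk

private theorem BDel_not_mem (D : FExt k) : tt D ∉ Submodule.span k {(1 : D.L)} := by
  intro h
  obtain ⟨c, hc⟩ := Submodule.mem_span_singleton.1 h
  have h1 : algebraMap (RatFunc k) D.L (algebraMap k (RatFunc k) c) =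
      algebraMap (RatFunc k) D.L X := by
    rw [← IsScalarTower.algebraMap_apply, Algebra.algebraMap_eq_smul_one]
    exact hc
  have h2 : algebraMap k (RatFunc k) c = X := (algebraMap (RatFunc k) D.L).injective h1
  have h3 : algebraMap (Polynomial k) (RatFunc k) (Polynomial.C c) =
      algebraMap (Polynomial k) (RatFunc k) Polynomial.X := by
    rw [RatFunc.algebraMap_X, ← h2, ← Polynomial.algebraMap_eq, ← IsScalarTower.algebraMap_apply]
  have h4 : Polynomial.C c = Polynomial.X := RatFunc.algebraMap_injective k h3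
  exact Polynomial.X_ne_C c h4.symm

theorem del_ne_zero (D : FExt k) : del D ≠ 0 := by
  intro h
  obtain ⟨f, hf1, hf2⟩ := Submodule.exists_le_ker_of_notMem (BDel_not_mem D)
  have hf3 : f 1 = 0 := hf2 (Submodule.mem_span_singleton_self 1)
  let g : D.L ⊗[k] D.L →ₗ[k] D.L := (TensorProduct.lid k D.L).toLinearMap ∘ₗ f.rTensor D.L
  have hg : ∀ x y, g (x ⊗ₜ y) = f x • y := fun x y => rfl
  have h1 : g (del D) = 0 := by rw [h, map_zero]
  unfold del at h1
  rw [map_sub, hg, hg, hf3, zero_smul, sub_zero] at h1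
  rcases smul_eq_zero.1 h1 with h2 | h2
  · exact hf1 h2
  · exact one_ne_zero h2

private theorem BDel_K (D : FExt k) (c : RatFunc k) :
    (Ideal.Quotient.mk (Ideal.span {del D})) (1 ⊗ₜ algebraMap (RatFunc k) D.L c) =
      (Ideal.Quotient.mk (Ideal.span {del D})) (algebraMap (RatFunc k) D.L c ⊗ₜ 1) := by
  let j1 : RatFunc k →+* (D.L ⊗[k] D.L) ⧸ Ideal.span {del D} :=
    ((Ideal.Quotient.mk (Ideal.span {del D})).comp
      (Algebra.TensorProduct.includeRight : D.L →ₐ[k] D.L ⊗[k] D.L).toRingHom).comp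
      (algebraMap (RatFunc k) D.L)
  let j2 : RatFunc k →+* (D.L ⊗[k] D.L) ⧸ Ideal.span {del D} :=
    ((Ideal.Quotient.mk (Ideal.span {del D})).comp
      (Algebra.TensorProduct.includeLeft : D.L →ₐ[k] D.L ⊗[k] D.L).toRingHom).comp
      (algebraMap (RatFunc k) D.L)
  have h : j1 = j2 := by
    refine IsLocalization.ringHom_ext (nonZeroDivisors (Polynomial k)) ?_
    refine Polynomial.ringHom_ext (fun a => ?_) ?_
    · change (Ideal.Quotient.mk (Ideal.span {del D})) (1 ⊗ₜ algebraMap (RatFunc k) D.L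
        (algebraMap (Polynomial k) (RatFunc k) (Polynomial.C a))) =
        (Ideal.Quotient.mk (Ideal.span {del D})) (algebraMap (RatFunc k) D.L
        (algebraMap (Polynomial k) (RatFunc k) (Polynomial.C a)) ⊗ₜ 1)
      have e : algebraMap (RatFunc k) D.L
        (algebraMap (Polynomial k) (RatFunc k) (Polynomial.C a)) = a • (1 : D.L) := by
        rw [← Polynomial.algebraMap_eq,
          ← IsScalarTower.algebraMap_apply k (Polynomial k) (RatFunc k),
          ← IsScalarTower.algebraMap_apply k (RatFunc k) D.L, Algebra.algebraMap_eq_smul_one]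
      rw [e, TensorProduct.smul_tmul]
    · change (Ideal.Quotient.mk (Ideal.span {del D})) (1 ⊗ₜ algebraMap (RatFunc k) D.L
        (algebraMap (Polynomial k) (RatFunc k) Polynomial.X)) =
        (Ideal.Quotient.mk (Ideal.span {del D})) (algebraMap (RatFunc k) D.L
        (algebraMap (Polynomial k) (RatFunc k) Polynomial.X) ⊗ₜ 1)
      rw [RatFunc.algebraMap_X]
      refine (Ideal.Quotient.eq.2 ?_).symm
      exact Ideal.subset_span rfl
  exact congrArg (fun j : RatFunc k →+* (D.L ⊗[k] D.L) ⧸ Ideal.span {del D} => j c) h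

private noncomputable def BDel_i1 (D : FExt k) :
    D.L →ₐ[RatFunc k] (D.L ⊗[k] D.L) ⧸ Ideal.span {del D} :=
  (Ideal.Quotient.mkₐ (RatFunc k) (Ideal.span {del D})).comp
    (Algebra.TensorProduct.includeLeft : D.L →ₐ[RatFunc k] D.L ⊗[k] D.L)

private noncomputable def BDel_i2 (D : FExt k) :
    D.L →ₐ[RatFunc k] (D.L ⊗[k] D.L) ⧸ Ideal.span {del D} :=
  { (Ideal.Quotient.mk (Ideal.span {del D})).comp
      (Algebra.TensorProduct.includeRight : D.L →ₐ[k] D.L ⊗[k] D.L).toRingHom with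
    commutes' := fun c => BDel_K D c }

private theorem BDel_unif (D : FExt k) : ∃ u : D.L ⊗[k] D.L, muL D u = 1 ∧ ∀ x ∈ dd D,
    u * x ∈ Ideal.span {del D} := by
  have hu : Algebra.FormallyUnramified (RatFunc k) D.L :=
    Algebra.FormallyUnramified.of_isSeparable _ _
  let ψ : D.L ⊗[RatFunc k] D.L →ₐ[RatFunc k] (D.L ⊗[k] D.L) ⧸ Ideal.span {del D} :=
    Algebra.TensorProduct.lift (BDel_i1 D) (BDel_i2 D) (fun _ _ => Commute.all _ _)
  have hψ : ∀ x y, ψ (x ⊗ₜ y) = Ideal.Quotient.mk (Ideal.span {del D}) (x ⊗ₜ y) := by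
    intro x y
    have h1 : ψ (x ⊗ₜ y) = BDel_i1 D x * BDel_i2 D y := Algebra.TensorProduct.lift_tmul _ _ _ _ _
    have h2 : BDel_i1 D x * BDel_i2 D y =
        Ideal.Quotient.mk (Ideal.span {del D}) ((x ⊗ₜ 1) * (1 ⊗ₜ y)) := by
      rw [map_mul]
      rfl
    rw [h1, h2, Algebra.TensorProduct.tmul_mul_tmul, mul_one, one_mul]
  let ν : (D.L ⊗[k] D.L) ⧸ Ideal.span {del D} →+* D.L :=
    Ideal.Quotient.lift (Ideal.span {del D}) (muL D).toRingHom (fun a ha => by
      have h1 : Ideal.span {del D} ≤ dd D := by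
        rw [Ideal.span_le]
        rintro _ rfl
        exact del_mem D
      exact h1 ha)
  have hν : ∀ z : D.L ⊗[RatFunc k] D.L,
      ν (ψ z) = Algebra.TensorProduct.lmul' (RatFunc k) z := by
    intro z
    induction z using TensorProduct.induction_on with
    | zero => rw [map_zero, map_zero, map_zero]
    | add x y hx hy => rw [map_add, map_add, map_add, hx, hy]
    | tmul x y =>
      rw [hψ, Algebra.TensorProduct.lmul'_apply_tmul]
      exact BDel_mu D x y
  obtain ⟨u, hu'⟩ := Ideal.Quotient.mk_surjective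
    (ψ (Algebra.FormallyUnramified.elem (RatFunc k) D.L))
  have h1 : muL D u = 1 := by
    have h2 : ν (Ideal.Quotient.mk (Ideal.span {del D}) u) = muL D u := rfl
    rw [← h2, hu', hν, Algebra.FormallyUnramified.lmul_elem]
  refine ⟨u, h1, fun x hx => ?_⟩
  have hx' : x ∈ KaehlerDifferential.ideal k D.L := hx
  rw [← KaehlerDifferential.span_range_eq_ideal] at hx'
  refine Submodule.span_induction (p := fun x _ => u * x ∈ Ideal.span {del D}) ?_ ?_ ?_ ?_ hx'
  · rintro _ ⟨s, rfl⟩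
    have h3 := congrArg ψ
      (Algebra.FormallyUnramified.one_tmul_sub_tmul_one_mul_elem (R := RatFunc k) s)
    rw [map_mul, map_sub, hψ, hψ, ← hu', map_zero, ← map_sub, ← map_mul] at h3
    rw [mul_comm]
    exact Ideal.Quotient.eq_zero_iff_mem.1 h3
  · rw [mul_zero]
    exact Ideal.zero_mem _
  · intro x y _ _ hx hy
    rw [mul_add]
    exact Ideal.add_mem _ hx hy
  · intro a x _ hx
    rw [smul_eq_mul, mul_left_comm]
    exact Ideal.mul_mem_left _ _ hx

/-- `del` generates the ideal of the diagonal, generically. -/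
theorem exists_unif (D : FExt k) : ∃ u ∉ dd D, ∀ x ∈ dd D, ∃ y, u * x = del D * y := by
  obtain ⟨u, hu, h⟩ := BDel_unif D
  refine ⟨u, fun h1 => ?_, fun x hx => ?_⟩
  · have h2 : muL D u = 0 := h1
    rw [hu] at h2
    exact one_ne_zero h2
  · obtain ⟨y, hy⟩ := Ideal.mem_span_singleton'.1 (h x hx)
    exact ⟨y, by rw [← hy, mul_comm]⟩

theorem del_pow_mem (D : FExt k) (j : ℕ) : del D ^ j ∈ dd D ^ j :=
  Ideal.pow_mem_pow (del_mem D) j

private theorem BDel_pow (D : FExt k) {u : D.L ⊗[k] D.L}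
    (h : ∀ x ∈ dd D, ∃ y, u * x = del D * y) (j : ℕ) :
    ∀ x ∈ dd D ^ j, ∃ y, u ^ j * x = del D ^ j * y := by
  induction j with
  | zero => exact fun x _ => ⟨x, rfl⟩
  | succ j ih =>
    intro x hx
    rw [pow_succ] at hx
    refine Submodule.mul_induction_on hx (fun a ha b hb => ?_) (fun a b ha hb => ?_)
    · obtain ⟨y, hy⟩ := ih a ha
      obtain ⟨z, hz⟩ := h b hb
      refine ⟨y * z, ?_⟩
      calc u ^ (j + 1) * (a * b) = (u ^ j * a) * (u * b) := by ring
        _ = del D ^ (j + 1) * (y * z) := by rw [hy, hz]; ring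
    · obtain ⟨y, hy⟩ := ha
      obtain ⟨z, hz⟩ := hb
      exact ⟨y + z, by rw [mul_add, mul_add, hy, hz]⟩

/-- The symbol: `dd ^ j / dd ^ (j + 1) ≅ L`. -/
theorem exists_symb [IsAlgClosed k] (D : FExt k) (j : ℕ) :
    ∃ σ : ↥(dd D ^ j) →ₗ[k] D.L, (∀ (e : D.L ⊗[k] D.L) (x : ↥(dd D ^ j)),
      σ (e • x) = muL D e * σ x) ∧ (∀ x : ↥(dd D ^ j), σ x = 0 ↔ x.1 ∈ dd D ^ (j + 1)) ∧
      σ ⟨del D ^ j, del_pow_mem D j⟩ = 1 := by
  have hdom : IsDomain (D.L ⊗[k] D.L) := isDomain_LL D
  obtain ⟨u, hu, h⟩ := exists_unif D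
  have hpow := BDel_pow D h j
  choose y hy using hpow
  have hd : del D ^ j ≠ 0 := pow_ne_zero j (del_ne_zero D)
  have huniq : ∀ (x : D.L ⊗[k] D.L) (hx : x ∈ dd D ^ j) (z : D.L ⊗[k] D.L),
      u ^ j * x = del D ^ j * z → y x hx = z := by
    intro x hx z hz
    rw [hy x hx] at hz
    exact mul_left_cancel₀ hd hz
  have hmu : muL D u ≠ 0 := hu
  have hmuj : muL D u ^ j ≠ 0 := pow_ne_zero j hmu
  have hadd : ∀ x x' : ↥(dd D ^ j), y (x + x').1 (x + x').2 = y x.1 x.2 + y x'.1 x'.2 := by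
    intro x x'
    apply huniq
    change u ^ j * (x.1 + x'.1) = _
    rw [mul_add, mul_add, hy, hy]
  have hmul : ∀ (e : D.L ⊗[k] D.L) (x : ↥(dd D ^ j)),
      y (e • x).1 (e • x).2 = e * y x.1 x.2 := by
    intro e x
    apply huniq
    change u ^ j * (e * x.1) = _
    rw [mul_left_comm, hy, mul_left_comm]
  let σ : ↥(dd D ^ j) →ₗ[k] D.L :=
    { toFun := fun x => muL D (y x.1 x.2) / muL D u ^ j
      map_add' := fun x x' => by rw [hadd, map_add, add_div]
      map_smul' := fun c x => by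
        have e : c • x = (algebraMap k (D.L ⊗[k] D.L) c) • x := (algebraMap_smul _ c x).symm
        rw [e, hmul, map_mul, AlgHom.commutes, RingHom.id_apply, Algebra.smul_def, mul_div_assoc] }
  have hσ : ∀ x, σ x = muL D (y x.1 x.2) / muL D u ^ j := fun x => rfl
  have hzero : ∀ x, σ x = 0 ↔ y x.1 x.2 ∈ dd D := by
    intro x
    rw [hσ, div_eq_zero_iff, or_iff_left hmuj]
    exact Iff.rfl
  refine ⟨σ, ?_, ?_, ?_⟩
  · intro e x
    rw [hσ, hσ, hmul, map_mul, mul_div_assoc]
  · intro x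
    rw [hzero]
    constructor
    · intro h1
      have h2 : u ^ j * x.1 ∈ dd D ^ (j + 1) := by
        rw [hy x.1 x.2, pow_succ]
        exact Ideal.mul_mem_mul (del_pow_mem D j) h1
      have hnot : u ^ j ∉ dd D := by
        intro h3
        have h4 : muL D (u ^ j) = 0 := h3
        rw [map_pow] at h4
        exact hmuj h4
      obtain ⟨v, w, hw, hv⟩ := (dd_max D).exists_inv hnot
      have h5 : x.1 = v * (u ^ j * x.1) + x.1 * w := by
        calc x.1 = (v * u ^ j + w) * x.1 := by rw [hv, one_mul]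
          _ = _ := by ring
      rw [h5]
      refine Ideal.add_mem _ (Ideal.mul_mem_left _ _ h2) ?_
      rw [pow_succ]
      exact Ideal.mul_mem_mul x.2 hw
    · intro h1
      obtain ⟨z, hz⟩ := BDel_pow D h (j + 1) x.1 h1
      have h2 : u * y x.1 x.2 = del D * z := by
        apply mul_left_cancel₀ hd
        calc del D ^ j * (u * y x.1 x.2) = u * (del D ^ j * y x.1 x.2) := by ring
          _ = u * (u ^ j * x.1) := by rw [hy]
          _ = u ^ (j + 1) * x.1 := by ring
          _ = del D ^ (j + 1) * z := hz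
          _ = del D ^ j * (del D * z) := by ring
      have h3 : muL D u * muL D (y x.1 x.2) = 0 := by
        rw [← map_mul, h2, map_mul]
        have h4 : muL D (del D) = 0 := del_mem D
        rw [h4, zero_mul]
      exact (mul_eq_zero.1 h3).resolve_left hmu
  · rw [hσ]
    have h1 : y (del D ^ j) (del_pow_mem D j) = u ^ j := by
      apply huniq
      ring
    change muL D (y (del D ^ j) (del_pow_mem D j)) / _ = 1
    rw [h1, map_pow, div_self hmuj]

end Pool.Agent.MP_6e5bed_ag_KC
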