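import Pool.Agent.Lib.MP_6e5bed_ag_KC.BFin
import Pool.Agent.Lib.MP_6e5bed_ag_CV.FinalA

set_option autoImplicit false
set_option linter.unusedSectionVars false

/-!
# Kimura-finiteness from an operator which is the identity modulo the unit object (KC, part B4)
-/

namespace Pool.Agent.MP_6e5bed_ag_NC

open CategoryTheory MonoidalCategory Idempotents Pool.Agent.MP_6e5bed_ag

universe u

variable {k : Type u} [Field k]

theorem kf_of_kill (T : SP k) (a : T ⟶ T) (ha : ∃ r, altSum T r ≫ tmap a r = 0)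
    (hb : ∃ r, symSum T r ≫ tmap (𝟙 T - a) r = 0) : KimuraFinite (U T) := by
  obtain ⟨M', ⟨hM⟩⟩ := U_dual T
  let _ : (toKaroubi (SP k)).Braided := spKF_brd
  obtain ⟨r, hr⟩ := ha
  obtain ⟨s, hs⟩ := hb
  rw [← gSum_coe] at hr
  rw [← gSum_one] at hs
  refine kimuraFinite_of_opKF (opKF_of_kill (M' := M') (a := (toKaroubi (SP k)).map a)
    ⟨r, ?_⟩ ⟨s, ?_⟩)
  · rw [← gSum_coe]
    exact (map_kill_iff (toKaroubi (SP k)) _ a r).1 (by rw [hr, Functor.map_zero])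
  · have h1 : 𝟙 (U T) - (toKaroubi (SP k)).map a = (toKaroubi (SP k)).map (𝟙 T - a) := by
      rw [Functor.map_sub, (toKaroubi (SP k)).map_id]
    rw [← gSum_one, h1]
    exact (map_kill_iff (toKaroubi (SP k)) _ (𝟙 T - a) s).1 (by rw [hs, Functor.map_zero])

private theorem bend_sum (T : SP k) (z : K0Q T.alg T.alg) (hz : z ∈ FIN T.alg) :
    ∃ (ι : Type) (_ : Fintype ι) (f : ι → (T ⟶ SP.base k)) (g : ι → (SP.base k ⟶ T)),
      (z : T ⟶ T) = ∑ i, f i ≫ g i := by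
  unfold FIN JS at hz
  induction hz using Submodule.span_induction with
  | mem x hx =>
    obtain ⟨X, hX, f, g, hG, rfl⟩ := hx
    subst hG
    refine ⟨Unit, inferInstance, fun _ => f, fun _ => g, ?_⟩
    rw [Fintype.sum_unique]
    rfl
  | zero =>
    refine ⟨Empty, inferInstance, fun i => i.elim, fun i => i.elim, ?_⟩
    rw [Fintype.sum_empty]
  | add x y _ _ ihx ihy =>
    obtain ⟨ι, _, f, g, hx⟩ := ihx
    obtain ⟨κ, _, f', g', hy⟩ := ihy
    refine ⟨ι ⊕ κ, inferInstance, Sum.elim f f', Sum.elim g g', ?_⟩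
    rw [Fintype.sum_sum_type]
    exact congrArg₂ (fun a b : T ⟶ T => a + b) hx hy
  | smul c x _ ih =>
    obtain ⟨ι, _, f, g, hx⟩ := ih
    refine ⟨ι, inferInstance, fun i => c • f i, g, ?_⟩
    simp only [Linear.smul_comp]
    rw [← Finset.smul_sum, ← hx]

/-- A morphism in `FIN` is a sum of morphisms through the unit object. -/
theorem FIN.exists_sum (T : SP k) (a : T ⟶ T) (h : (a : K0Q T.alg T.alg) ∈ FIN T.alg) :
    ∃ (n : ℕ) (f : Fin n → (T ⟶ SP.base k)) (g : Fin n → (SP.base k ⟶ T)),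
      a = ∑ i, f i ≫ g i := by
  obtain ⟨ι, _, f, g, h1⟩ := bend_sum T a h
  let e := Fintype.equivFin ι
  refine ⟨Fintype.card ι, fun i => f (e.symm i), fun i => g (e.symm i), ?_⟩
  rw [Equiv.sum_comp e.symm (fun i => f i ≫ g i)]
  exact h1

section unit

variable {C : Type*} [Category C] [MonoidalCategory C] [SymmetricCategory C] [Preadditive C]
  [MonoidalPreadditive C] [Linear ℚ C]

private theorem bend_unit : altSum (𝟙_ C) 2 = 0 := by
  have h1 : gSum (Units.coeHom ℤ) (𝟙_ C) 1 = 𝟙 _ := by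
    unfold gSum
    rw [Fintype.sum_unique]
    change (Units.coeHom ℤ) (Equiv.Perm.sign 1) • ps (𝟙_ C) 1 = _
    rw [ps_one, map_one, map_one, one_smul]
  have h2 := gSum_succ (Units.coeHom ℤ) (𝟙_ C) 1
  have h3 : ps (𝟙_ C) (Equiv.swap (0 : Fin 2) (Fin.succ default)) = 𝟙 _ :=
    (ps_swap (𝟙_ C) 0).trans (sw_unit (C := C) _)
  have h4 : wl (𝟙_ C) (𝟙 (Pool.Agent.MP_6e5bed_ag.tpow (𝟙_ C) 1)) = 𝟙 _ :=
    MonoidalCategory.whiskerLeft_id _ _
  rw [Fintype.sum_unique, h1, h3, h4, Category.comp_id] at h2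
  change gSum (Units.coeHom ℤ) (𝟙_ C) 2 = 0
  rw [h2]
  simp

end unit

theorem FIN.altSum_kill (T : SP k) (a : T ⟶ T) (h : (a : K0Q T.alg T.alg) ∈ FIN T.alg) :
    ∃ r, altSum T r ≫ tmap a r = 0 := by
  obtain ⟨n, f, g, rfl⟩ := FIN.exists_sum T a h
  refine altSum_kill_sum _ fun i => ⟨2, ?_⟩
  have h1 : f i ≫ g i = f i ≫ 𝟙 (SP.base k) ≫ g i := by rw [Category.id_comp]
  rw [h1]
  refine tmap_sandwich _ _ _ (altSum_nat _ _) ?_
  have h2 : altSum (SP.base k) 2 = 0 := bend_unit (C := SP k)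
  rw [h2, Limits.zero_comp]

private theorem bend_mem (T : SP k) (f : T ⟶ SP.base k) (g : SP.base k ⟶ T) :
    (f ≫ g : K0Q T.alg T.alg) ∈ FIN T.alg :=
  JS.comp (Good := fun X => X = base k) base_proper rfl f g

theorem FIN.comp_left (T : SP k) (a b : T ⟶ T) (h : (b : K0Q T.alg T.alg) ∈ FIN T.alg) :
    (a ≫ b : K0Q T.alg T.alg) ∈ FIN T.alg := by
  obtain ⟨n, f, g, rfl⟩ := FIN.exists_sum T b h
  have h1 : a ≫ (∑ i, f i ≫ g i) = ∑ i, (a ≫ f i) ≫ g i := by
    rw [Preadditive.comp_sum]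
    exact Finset.sum_congr rfl fun i _ => (Category.assoc _ _ _).symm
  rw [h1]
  exact Submodule.sum_mem (FIN T.alg) fun i _ => bend_mem T _ _

theorem FIN.comp_right (T : SP k) (a b : T ⟶ T) (h : (a : K0Q T.alg T.alg) ∈ FIN T.alg) :
    (a ≫ b : K0Q T.alg T.alg) ∈ FIN T.alg := by
  obtain ⟨n, f, g, rfl⟩ := FIN.exists_sum T a h
  have h1 : (∑ i, f i ≫ g i) ≫ b = ∑ i, f i ≫ (g i ≫ b) := by
    rw [Preadditive.sum_comp]
    exact Finset.sum_congr rfl fun i _ => Category.assoc _ _ _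
  rw [h1]
  exact Submodule.sum_mem (FIN T.alg) fun i _ => bend_mem T _ _

/-- Kimura-finiteness from an operator `d` with `Sym ^ n d = 0`, which is the identity modulo
`FIN`. -/
theorem kf_of_one (T : SP k) (d : T ⟶ T) (h : (𝟙 T - d : K0Q T.alg T.alg) ∈ FIN T.alg)
    {n : ℕ} (hn : symSum T n ≫ tmap d n = 0) : KimuraFinite (U T) := by
  refine kf_of_kill T (𝟙 T - d) (FIN.altSum_kill T _ h) ⟨n, ?_⟩
  rw [sub_sub_cancel]
  exact hn

theorem kf_of_one' (T : SP k) (d : T ⟶ T) (h : (𝟙 T - d : K0Q T.alg T.alg) ∈ FIN T.alg)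
    {n : ℕ} (hn : tmap d n ≫ symSum T n = 0) : KimuraFinite (U T) := by
  refine kf_of_one T d h (n := n) ?_
  rw [← symSum_nat]
  exact hn

end Pool.Agent.MP_6e5bed_ag_NC
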