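import Pool.Agent.Lib.MP_6e5bed_ag_KC.BB
import Pool.Agent.Lib.MP_6e5bed_ag_CV.Dual
import Pool.Agent.Lib.MP_6e5bed_ag_CV.TriA

set_option autoImplicit false
set_option linter.unusedSectionVars false

/-!
# The algebras of diagrams of modules on the charts, and the Čech bimodules (project KC, part B1)

`Gam D` is the algebra whose left modules are the diagrams `X 0 → X 2 ← X 1` of modules over
`BB D 0`, `BB D 2`, `BB D 1`; the right modules over `Gam' D` are the same. `ZL V` is the
bimodule over `REnd V` and `Gam D` with `ZL V ⊗ X = C(V ⊗ X)`, and `ZR V` is the bimodule over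
`Gam' D` and `REnd V` with `X ⊗ ZR V = C(X ⊗ Vᵛ)`.
-/

namespace Pool.Agent.MP_6e5bed_ag_KC

open RatFunc Pool.Agent.MP_6e5bed_ag_NC

universe u

variable {k : Type u} [Field k]

/-- The chart `a` is contained in the chart `b`. -/
def Le3 (b a : Fin 3) : Prop := b = a ∨ a = 2

instance (b a : Fin 3) : Decidable (Le3 b a) := inferInstanceAs (Decidable (b = a ∨ a = 2))

theorem Le3.refl (a : Fin 3) : Le3 a a := Or.inl rfl

theorem Le3.two (a : Fin 3) : Le3 a 2 := Or.inr rfl

theorem Le3.trans {a b c : Fin 3} (h : Le3 a b) (h' : Le3 b c) : Le3 a c := by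
  rcases h with rfl | rfl
  · exact h'
  · rcases h' with rfl | rfl
    · exact Or.inr rfl
    · exact Or.inr rfl

theorem BB_mono (D : FExt k) {b a : Fin 3} (h : Le3 b a) : BB D b ≤ BB D a := by
  rcases h with rfl | rfl
  · exact le_rfl
  · exact BB_le D b

/-- The algebra of diagrams of left modules: the entry `a`, `b` is the map from the component
`b` to the component `a`. -/
noncomputable def Gam (D : FExt k) : Subalgebra k (Matrix (Fin 3) (Fin 3) D.L) where
  carrier := {g | ∀ a b, g a b ∈ BB D a ∧ (¬ Le3 b a → g a b = 0)}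
  mul_mem' := by
    intro g h hg hh a b
    rw [Matrix.mul_apply]
    refine ⟨Subalgebra.sum_mem _ fun c _ => ?_, fun hab => Finset.sum_eq_zero fun c _ => ?_⟩
    · by_cases hca : Le3 c a
      · exact (BB D a).mul_mem (hg a c).1 (BB_mono D hca (hh c b).1)
      · rw [(hg a c).2 hca, zero_mul]
        exact (BB D a).zero_mem
    · by_cases hca : Le3 c a
      · rw [(hh c b).2 fun hbc => hab (hbc.trans hca), mul_zero]
      · rw [(hg a c).2 hca, zero_mul]
  add_mem' := by
    intro g h hg hh a b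
    refine ⟨(BB D a).add_mem (hg a b).1 (hh a b).1, fun hab => ?_⟩
    rw [Matrix.add_apply, (hg a b).2 hab, (hh a b).2 hab, add_zero]
  algebraMap_mem' := by
    intro r a b
    rw [Matrix.algebraMap_matrix_apply]
    split_ifs with h
    · exact ⟨(BB D a).algebraMap_mem r, fun hab => absurd (h ▸ Le3.refl a) hab⟩
    · exact ⟨(BB D a).zero_mem, fun _ => rfl⟩

/-- The algebra of diagrams of right modules: the entry `a`, `b` is the map from the component
`a` to the component `b`. -/
noncomputable def Gam' (D : FExt k) : Subalgebra k (Matrix (Fin 3) (Fin 3) D.L) where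
  carrier := {g | ∀ a b, g a b ∈ BB D b ∧ (¬ Le3 a b → g a b = 0)}
  mul_mem' := by
    intro g h hg hh a b
    rw [Matrix.mul_apply]
    refine ⟨Subalgebra.sum_mem _ fun c _ => ?_, fun hab => Finset.sum_eq_zero fun c _ => ?_⟩
    · by_cases hcb : Le3 c b
      · exact (BB D b).mul_mem (BB_mono D hcb (hg a c).1) (hh c b).1
      · rw [(hh c b).2 hcb, mul_zero]
        exact (BB D b).zero_mem
    · by_cases hac : Le3 a c
      · rw [(hh c b).2 fun hcb => hab (hac.trans hcb), mul_zero]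
      · rw [(hg a c).2 hac, zero_mul]
  add_mem' := by
    intro g h hg hh a b
    refine ⟨(BB D b).add_mem (hg a b).1 (hh a b).1, fun hab => ?_⟩
    rw [Matrix.add_apply, (hg a b).2 hab, (hh a b).2 hab, add_zero]
  algebraMap_mem' := by
    intro r a b
    rw [Matrix.algebraMap_matrix_apply]
    split_ifs with h
    · exact ⟨(BB D b).algebraMap_mem r, fun hab => absurd (h ▸ Le3.refl a) hab⟩
    · exact ⟨(BB D b).zero_mem, fun _ => rfl⟩

/-- The dg algebra `Gam`. -/
noncomputable abbrev GaL (D : FExt k) : DGA k := ring k (Gam D)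

/-- The dg algebra `Gam'`. -/
noncomputable abbrev GaR (D : FExt k) : DGA k := ring k (Gam' D)

/-- The constant cospan. -/
noncomputable def constC (k : Type u) [Field k] (R : Type u) [Ring R] [Algebra k R] : Cosp k where
  A0 := R
  A1 := R
  A01 := R
  r0 := AlgHom.id k R
  r1 := AlgHom.id k R

/-- The augmentation of the Čech algebra of the constant cospan. -/
noncomputable def augR (k : Type u) [Field k] (R : Type u) [Ring R] [Algebra k R] :
    DHom (ring k R) (constC k R).cech where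
  f := LinearMap.inl k (R × R) R ∘ₗ LinearMap.prod LinearMap.id LinearMap.id
  deg := by
    intro i a ha
    rcases Dg.conc_cases ha with rfl | rfl
    · exact Dg.two_deg0 _ _
    · rw [map_zero]
      exact Dg.IsDeg.zero i
  d := by
    intro a
    change (Dg.two (constC k R).δ).d ((a, a), 0) = _
    rw [Dg.two_d]
    change (0, a - a) = ((0, 0), 0)
    rw [sub_self]
    rfl
  one := rfl
  mul := by
    intro (a : R) (b : R)
    change (((a * b, a * b), 0) : (R × R) × R) = ((a * b, a * b), a * 0 + 0 * b)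
    rw [mul_zero, zero_mul, add_zero]

/-- Three submodules of a bimodule, which form a bimodule over cospans. -/
structure SubTri (S T : Cosp k) (E : KBi k S.A01 T.A01) where
  N : Fin 3 → Submodule k E.M
  le0 : N 0 ≤ N 2
  le1 : N 1 ≤ N 2
  l0 : ∀ a, ∀ v ∈ N 0, E.l (S.r0 a) v ∈ N 0
  r0 : ∀ b, ∀ v ∈ N 0, E.r (T.r0 b) v ∈ N 0
  l1 : ∀ a, ∀ v ∈ N 1, E.l (S.r1 a) v ∈ N 1
  r1 : ∀ b, ∀ v ∈ N 1, E.r (T.r1 b) v ∈ N 1
  l2 : ∀ a, ∀ v ∈ N 2, E.l a v ∈ N 2
  r2 : ∀ b, ∀ v ∈ N 2, E.r b v ∈ N 2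

/-- A sub-bimodule, for two homomorphisms of algebras. -/
noncomputable def subKBi {R R' Q Q' : Type u} [Ring R] [Algebra k R] [Ring R'] [Algebra k R']
    [Ring Q] [Algebra k Q] [Ring Q'] [Algebra k Q'] (E : KBi k R R') (f : Q →ₐ[k] R)
    (g : Q' →ₐ[k] R') (N : Submodule k E.M) (hl : ∀ a, ∀ v ∈ N, E.l (f a) v ∈ N)
    (hr : ∀ b, ∀ v ∈ N, E.r (g b) v ∈ N) : KBi k Q Q' where
  M := N
  l := LinearMap.mk₂ k (fun a v => ⟨E.l (f a) v.1, hl a v.1 v.2⟩)
    (fun a a' v => Subtype.ext (by simp)) (fun c a v => Subtype.ext (by simp))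
    (fun a v v' => Subtype.ext (by simp)) (fun c a v => Subtype.ext (by simp))
  r := LinearMap.mk₂ k (fun b v => ⟨E.r (g b) v.1, hr b v.1 v.2⟩)
    (fun a a' v => Subtype.ext (by simp)) (fun c a v => Subtype.ext (by simp))
    (fun a v v' => Subtype.ext (by simp)) (fun c a v => Subtype.ext (by simp))
  l_one := fun v => Subtype.ext (by simp [E.l_one])
  r_one := fun v => Subtype.ext (by simp [E.r_one])
  l_mul := fun a a' v => Subtype.ext (by simp [E.l_mul])
  r_mul := fun a a' v => Subtype.ext (by simp [E.r_mul])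
  l_r := fun a b v => Subtype.ext (by simp [E.l_r])

/-- The bimodule over cospans. -/
noncomputable def SubTri.tri {S T : Cosp k} {E : KBi k S.A01 T.A01} (N : SubTri S T E) :
    Tri S T where
  M0 := subKBi E S.r0 T.r0 (N.N 0) N.l0 N.r0
  M1 := subKBi E S.r1 T.r1 (N.N 1) N.l1 N.r1
  M01 := subKBi E (AlgHom.id k S.A01) (AlgHom.id k T.A01) (N.N 2) N.l2 N.r2
  ρ0 := Submodule.inclusion N.le0
  ρ1 := Submodule.inclusion N.le1
  ρ0_l := fun _ _ => rfl
  ρ0_r := fun _ _ => rfl
  ρ1_l := fun _ _ => rfl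
  ρ1_r := fun _ _ => rfl

variable {D : FExt k} {F : LSp D}

/-- A lattice pair which is stable under the functions on the charts: a vector bundle. -/
def BSt (V : LP k F.F) : Prop := ∀ c, ∀ b ∈ BB D c, ∀ v ∈ V.cp c, b • v ∈ V.cp c

theorem cp_le (V : LP k F.F) (c : Fin 3) : V.cp c ≤ V.cp 2 := by
  fin_cases c
  · exact fun v hv => V.N0_le hv
  · exact fun v hv => V.N1_le hv
  · exact le_rfl

theorem cp_mono (V : LP k F.F) {b a : Fin 3} (h : Le3 b a) : V.cp b ≤ V.cp a := by
  rcases h with rfl | rfl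
  · exact le_rfl
  · exact cp_le V b

theorem BSt.dual (V : LP k F.F) : BSt (F := F.dual) V.dual := by
  intro c b hb f hf
  have h0 : ∀ b : D.L, b ∈ BB D 0 → ∀ f : F.F →ₗ[D.L] D.L, f ∈ V.dual.N0 → b • f ∈ V.dual.N0 := by
    intro b hb f hf
    refine (LP.mem_dual_N0 V _).2 fun v hv => ?_
    exact IsIntegral.mul (mem_BB0.1 hb) ((LP.mem_dual_N0 V f).1 hf v hv)
  have h1 : ∀ b : D.L, b ∈ BB D 1 → ∀ f : F.F →ₗ[D.L] D.L, f ∈ V.dual.N1 → b • f ∈ V.dual.N1 := by
    intro b hb f hf
    refine (LP.mem_dual_N1 V _).2 fun v hv => ?_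
    exact IsIntegral.mul (mem_BB1.1 hb) ((LP.mem_dual_N1 V f).1 hf v hv)
  fin_cases c
  · exact h0 b hb f hf
  · exact h1 b hb f hf
  · obtain ⟨n, hn⟩ := mem_BB2.1 hb
    obtain ⟨m, hm⟩ := hf
    refine ⟨n + m, ?_⟩
    have h2 := h0 _ hn _ hm
    have e : (X : RatFunc k) ^ (n + m) • (b • f) = (tt D ^ n * b) • ((X : RatFunc k) ^ m • f) := by
      rw [← algebraMap_smul D.L ((X : RatFunc k) ^ (n + m)) (b • f),
        ← algebraMap_smul D.L ((X : RatFunc k) ^ m) f, smul_smul, smul_smul, map_pow, map_pow]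
      congr 1
      change tt D ^ (n + m) * b = tt D ^ n * b * tt D ^ m
      ring
    change (X : RatFunc k) ^ (n + m) • (b • f) ∈ V.dual.N0
    rw [e]
    exact h2

/-- Row vectors with entries in `F`, and the action of the matrices on the right. -/
noncomputable def rowE (V : LP k F.F) : KBi k (endCosp V).A01 (Gam D) where
  M := Fin 3 → F.F
  l := LinearMap.mk₂ k (fun (a : EA01 V) (w : Fin 3 → F.F) => fun j => a.1 (w j))
    (fun a a' w => by ext j; rfl) (fun c a w => by ext j; rfl)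
    (fun a w w' => by ext j; exact map_add a.1 _ _)
    (fun c a w => by ext j; exact (a.1.restrictScalars k).map_smul c (w j))
  r := LinearMap.mk₂ k (fun (g : Gam D) (w : Fin 3 → F.F) => fun j => ∑ i, g.1 i j • w i)
    (fun g g' w => by
      ext j
      change ∑ i, (g.1 i j + g'.1 i j) • w i = (∑ i, g.1 i j • w i) + ∑ i, g'.1 i j • w i
      simp only [add_smul, Finset.sum_add_distrib])
    (fun c g w => by
      ext j
      change ∑ i, (c • g.1 i j) • w i = c • ∑ i, g.1 i j • w i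
      simp only [smul_assoc, Finset.smul_sum])
    (fun g w w' => by
      ext j
      change ∑ i, g.1 i j • (w i + w' i) = (∑ i, g.1 i j • w i) + ∑ i, g.1 i j • w' i
      simp only [smul_add, Finset.sum_add_distrib])
    (fun c g w => by
      ext j
      change ∑ i, g.1 i j • (c • w i) = c • ∑ i, g.1 i j • w i
      rw [Finset.smul_sum]
      exact Finset.sum_congr rfl fun i _ => smul_comm _ _ _)
  l_one := fun w => rfl
  r_one := fun w => by
    funext j
    change ∑ i, (1 : Matrix (Fin 3) (Fin 3) D.L) i j • w i = w j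
    rw [Finset.sum_eq_single j]
    · rw [Matrix.one_apply_eq, one_smul]
    · intro i _ hij
      rw [Matrix.one_apply_ne hij, zero_smul]
    · intro h
      exact absurd (Finset.mem_univ j) h
  l_mul := fun a a' w => rfl
  r_mul := fun g g' w => by
    funext j
    change ∑ i, (g.1 * g'.1) i j • w i = ∑ c, g'.1 c j • ∑ i, g.1 i c • w i
    simp only [Matrix.mul_apply, Finset.sum_smul, Finset.smul_sum, smul_smul]
    rw [Finset.sum_comm]
    refine Finset.sum_congr rfl fun c _ => Finset.sum_congr rfl fun i _ => ?_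
    rw [mul_comm]
  l_r := fun a g w => by
    funext j
    change a.1 (∑ i, g.1 i j • w i) = ∑ i, g.1 i j • a.1 (w i)
    rw [map_sum]
    exact Finset.sum_congr rfl fun i _ => map_smul a.1 _ _

/-- The row `c` of `V ⊗ Gam`. -/
noncomputable def rowN (V : LP k F.F) (c : Fin 3) : Submodule k (Fin 3 → F.F) where
  carrier := {w | ∀ j, w j ∈ V.cp c ∧ (¬ Le3 j c → w j = 0)}
  add_mem' := fun {w w'} hw hw' j => ⟨(V.cp c).add_mem (hw j).1 (hw' j).1, fun h => by
    rw [Pi.add_apply, (hw j).2 h, (hw' j).2 h, add_zero]⟩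
  zero_mem' := fun j => ⟨(V.cp c).zero_mem, fun _ => rfl⟩
  smul_mem' := fun r w hw j => ⟨(V.cp c).smul_mem r (hw j).1, fun h => by
    rw [Pi.smul_apply, (hw j).2 h, smul_zero]⟩

theorem rowN_le (V : LP k F.F) (c : Fin 3) : rowN V c ≤ rowN V 2 := fun _ hw j =>
  ⟨cp_le V c (hw j).1, fun h => absurd (Le3.two j) h⟩

theorem rowN_r {V : LP k F.F} (hV : BSt V) (c : Fin 3) (g : Gam D) (w : Fin 3 → F.F)
    (hw : w ∈ rowN V c) : (rowE V).r g w ∈ rowN V c := by
  intro j
  change (∑ i, g.1 i j • w i) ∈ V.cp c ∧ (¬ Le3 j c → ∑ i, g.1 i j • w i = 0)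
  refine ⟨Submodule.sum_mem _ fun i _ => ?_, fun h => Finset.sum_eq_zero fun i _ => ?_⟩
  · by_cases hi : Le3 i c
    · exact hV c _ (BB_mono D hi (g.2 i j).1) _ (hw i).1
    · rw [(hw i).2 hi, smul_zero]
      exact Submodule.zero_mem _
  · by_cases hi : Le3 i c
    · rw [(g.2 i j).2 fun hji => h (hji.trans hi), zero_smul]
    · rw [(hw i).2 hi, smul_zero]

/-- The rows of `V ⊗ Gam`. -/
noncomputable def rowS (V : LP k F.F) (hV : BSt V) :
    SubTri (endCosp V) (constC k (Gam D)) (rowE V) where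
  N := rowN V
  le0 := rowN_le V 0
  le1 := rowN_le V 1
  l0 := fun a w hw j => ⟨a.2 _ (hw j).1, fun h => by
    change a.1 (w j) = 0
    rw [(hw j).2 h, map_zero]⟩
  r0 := rowN_r hV 0
  l1 := fun a w hw j => ⟨a.2 _ (hw j).1, fun h => by
    change a.1 (w j) = 0
    rw [(hw j).2 h, map_zero]⟩
  r1 := rowN_r hV 1
  l2 := fun a w hw j => ⟨a.2 _ (hw j).1, fun h => by
    change a.1 (w j) = 0
    rw [(hw j).2 h, map_zero]⟩
  r2 := rowN_r hV 2

/-- The Čech bimodule `C(V ⊗ Gam)`. -/
noncomputable def ZL (V : LP k F.F) (hV : BSt V) : Bim (endCosp V).cech (GaL D) :=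
  res (DHom.id _) (augR k (Gam D)) (rowS V hV).tri.bim

/-- Column vectors with entries in the dual of `F`, and the action of the matrices on the
left. -/
noncomputable def colE (V : LP k F.F) : KBi k (Gam' D) (endCosp V).A01 where
  M := Fin 3 → (F.F →ₗ[D.L] D.L)
  l := LinearMap.mk₂ k
    (fun (g : Gam' D) (w : Fin 3 → (F.F →ₗ[D.L] D.L)) => fun i => ∑ j, g.1 i j • w j)
    (fun g g' w => by
      ext1 i
      change ∑ j, (g.1 i j + g'.1 i j) • w j = (∑ j, g.1 i j • w j) + ∑ j, g'.1 i j • w j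
      simp only [add_smul, Finset.sum_add_distrib])
    (fun c g w => by
      ext1 i
      change ∑ j, (c • g.1 i j) • w j = c • ∑ j, g.1 i j • w j
      simp only [smul_assoc, Finset.smul_sum])
    (fun g w w' => by
      ext1 i
      change ∑ j, g.1 i j • (w j + w' j) = (∑ j, g.1 i j • w j) + ∑ j, g.1 i j • w' j
      simp only [smul_add, Finset.sum_add_distrib])
    (fun c g w => by
      ext1 i
      change ∑ j, g.1 i j • (c • w j) = c • ∑ j, g.1 i j • w j
      rw [Finset.smul_sum]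
      exact Finset.sum_congr rfl fun i _ => smul_comm _ _ _)
  r := LinearMap.mk₂ k
    (fun (a : EA01 V) (w : Fin 3 → (F.F →ₗ[D.L] D.L)) => fun j => (w j).comp a.1)
    (fun a a' w => by ext1 j; exact LinearMap.comp_add _ _ _)
    (fun c a w => by
      ext j v
      exact ((w j).restrictScalars k).map_smul c (a.1 v))
    (fun a w w' => by ext1 j; rfl)
    (fun c a w => by ext1 j; rfl)
  l_one := fun w => by
    funext i
    change ∑ j, (1 : Matrix (Fin 3) (Fin 3) D.L) i j • w j = w i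
    rw [Finset.sum_eq_single i]
    · rw [Matrix.one_apply_eq, one_smul]
    · intro j _ hij
      rw [Matrix.one_apply_ne hij.symm, zero_smul]
    · intro h
      exact absurd (Finset.mem_univ i) h
  r_one := fun w => rfl
  l_mul := fun g g' w => by
    funext i
    change ∑ j, (g.1 * g'.1) i j • w j = ∑ c, g.1 i c • ∑ j, g'.1 c j • w j
    simp only [Matrix.mul_apply, Finset.sum_smul, Finset.smul_sum, smul_smul]
    rw [Finset.sum_comm]
  r_mul := fun a a' w => rfl
  l_r := fun g a w => by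
    funext i
    change ∑ j, g.1 i j • (w j).comp a.1 = (∑ j, g.1 i j • w j).comp a.1
    ext v
    simp

/-- The column `c` of `Gam' ⊗ Vᵛ`. -/
noncomputable def colN (V : LP k F.F) (c : Fin 3) :
    Submodule k (Fin 3 → (F.F →ₗ[D.L] D.L)) where
  carrier := {w | ∀ i, w i ∈ LP.cp (E := F.dual.F) V.dual c ∧ (¬ Le3 i c → w i = 0)}
  add_mem' := fun {w w'} hw hw' j => ⟨(LP.cp (E := F.dual.F) V.dual c).add_mem (hw j).1 (hw' j).1,
    fun h => by rw [Pi.add_apply, (hw j).2 h, (hw' j).2 h, add_zero]⟩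
  zero_mem' := fun j => ⟨(LP.cp (E := F.dual.F) V.dual c).zero_mem, fun _ => rfl⟩
  smul_mem' := fun r w hw j => ⟨(LP.cp (E := F.dual.F) V.dual c).smul_mem r (hw j).1, fun h => by
    rw [Pi.smul_apply, (hw j).2 h, smul_zero]⟩

theorem colN_le (V : LP k F.F) (c : Fin 3) : colN V c ≤ colN V 2 := fun _ hw j =>
  ⟨cp_le (F := F.dual) V.dual c (hw j).1, fun h => absurd (Le3.two j) h⟩

theorem colN_l (V : LP k F.F) (c : Fin 3) (g : Gam' D) (w : Fin 3 → (F.F →ₗ[D.L] D.L))
    (hw : w ∈ colN V c) : (colE V).l g w ∈ colN V c := by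
  intro i
  change (∑ j, g.1 i j • w j) ∈ LP.cp (E := F.dual.F) V.dual c ∧
    (¬ Le3 i c → ∑ j, g.1 i j • w j = 0)
  refine ⟨Submodule.sum_mem _ fun j _ => ?_, fun h => Finset.sum_eq_zero fun j _ => ?_⟩
  · by_cases hj : Le3 j c
    · exact BSt.dual V c _ (BB_mono D hj (g.2 i j).1) _ (hw j).1
    · rw [(hw j).2 hj, smul_zero]
      exact Submodule.zero_mem _
  · by_cases hj : Le3 j c
    · rw [(g.2 i j).2 fun hij => h (hij.trans hj), zero_smul]
    · rw [(hw j).2 hj, smul_zero]

/-- The columns of `Gam' ⊗ Vᵛ`. -/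
noncomputable def colS (V : LP k F.F) :
    SubTri (constC k (Gam' D)) (endCosp V) (colE V) where
  N := colN V
  le0 := colN_le V 0
  le1 := colN_le V 1
  l0 := colN_l V 0
  r0 := fun a w hw j => ⟨(endR_st V).s0 a _ (hw j).1, fun h => by
    change (w j).comp a.1 = 0
    rw [(hw j).2 h, LinearMap.zero_comp]⟩
  l1 := colN_l V 1
  r1 := fun a w hw j => ⟨(endR_st V).s1 a _ (hw j).1, fun h => by
    change (w j).comp a.1 = 0
    rw [(hw j).2 h, LinearMap.zero_comp]⟩
  l2 := colN_l V 2
  r2 := fun a w hw j => ⟨(endR_st V).s01 a _ (hw j).1, fun h => by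
    change (w j).comp a.1 = 0
    rw [(hw j).2 h, LinearMap.zero_comp]⟩

/-- The Čech bimodule `C(Gam' ⊗ Vᵛ)`. -/
noncomputable def ZR (V : LP k F.F) : Bim (GaR D) (endCosp V).cech :=
  res (augR k (Gam' D)) (DHom.id _) (colS V).tri.bim

end Pool.Agent.MP_6e5bed_ag_KC
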