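import Pool.Agent.Lib.MP_6e5bed_ag_KC.BGam
import Pool.Agent.Lib.MP_6e5bed_ag_CV.DualB
import Pool.Agent.Lib.MP_6e5bed_ag_CV.LFin

set_option autoImplicit false
set_option linter.unusedSectionVars false

/-!
# Finiteness for line bundles, in one variable (project KC, part B1)

Let `N` be a lattice pair in `L`, stable under the functions (a line bundle). `dgmL N` is its
diagram, a left module over `Gam D`.

Proof of the finiteness. Let `P` be the lattice pair in `F` with the components `P.cp c =` the span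
of the products `b • v` with `b ∈ N.cp c`, `v ∈ V.cp c`, i.e. `V ⊗ N`. The map
`tb (ZL V hV) (dgmL N) → ` Čech complex of `P` (`(P 0 × P 1) × P 2`, difference),
`z ⊗ m ↦ (c ↦ ∑ a, m a • (z_c) a)`, is an isomorphism of complexes: with a dual basis `v j`, `f j`
of `V.cp c` (`exists_dual_basis`; for `c = 2` the one for `c = 0`) the inverse is given, on the
component `c`, by `x ↦ ∑ j, ζ c (v j) ⊗ μ c (f j x)`, where `ζ c v` is the element of `ZL` with the
only component `c`, the row with the entry `v` at the place `c`, and `μ c b` is the element of the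
diagram with the only component `b` at the place `c`; `f j x ∈ N.cp c` for `x ∈ P.cp c`. (`tb` is
spanned by the `ζ c v ⊗ μ c b`: insert matrix units, as in BAWb.) The Čech complex of a lattice pair
has finite-dimensional cohomology (`LP.finCoh`, or `LP.inter_fin` and `LP.sum_fin`).
-/

namespace Pool.Agent.MP_6e5bed_ag_KC

open RatFunc Pool.Agent.MP_6e5bed_ag_NC

universe u

variable {k : Type u} [Field k] {D : FExt k} {F : LSp D}

/-- Column vectors with entries in `L`, as a left module over the matrices. -/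
noncomputable def vecL (D : FExt k) : KBi k (Gam D) k where
  M := Fin 3 → D.L
  l := LinearMap.mk₂ k (fun (g : Gam D) (w : Fin 3 → D.L) => fun a => ∑ b, g.1 a b * w b)
    (fun g g' w => by
      funext a
      change ∑ b, (g.1 a b + g'.1 a b) * w b = (∑ b, g.1 a b * w b) + ∑ b, g'.1 a b * w b
      simp only [add_mul, Finset.sum_add_distrib])
    (fun c g w => by
      funext a
      change ∑ b, (c • g.1 a b) * w b = c • ∑ b, g.1 a b * w b
      simp only [smul_mul_assoc, Finset.smul_sum])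
    (fun g w w' => by
      funext a
      change ∑ b, g.1 a b * (w b + w' b) = (∑ b, g.1 a b * w b) + ∑ b, g.1 a b * w' b
      simp only [mul_add, Finset.sum_add_distrib])
    (fun c g w => by
      funext a
      change ∑ b, g.1 a b * (c • w b) = c • ∑ b, g.1 a b * w b
      simp only [mul_smul_comm, Finset.smul_sum])
  r := (LinearMap.lsmul k (Fin 3 → D.L) : k →ₗ[k] (Fin 3 → D.L) →ₗ[k] (Fin 3 → D.L))
  l_one := fun w => by
    funext a
    change ∑ b, (1 : Matrix (Fin 3) (Fin 3) D.L) a b * w b = w a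
    rw [Finset.sum_eq_single a]
    · rw [Matrix.one_apply_eq, one_mul]
    · intro b _ hb
      rw [Matrix.one_apply_ne hb.symm, zero_mul]
    · intro h
      exact absurd (Finset.mem_univ a) h
  r_one := fun w => one_smul k w
  l_mul := fun g g' w => by
    funext a
    change ∑ b, (g.1 * g'.1) a b * w b = ∑ c, g.1 a c * ∑ b, g'.1 c b * w b
    simp only [Matrix.mul_apply, Finset.sum_mul, Finset.mul_sum, mul_assoc]
    rw [Finset.sum_comm]
  r_mul := fun c c' w => by
    change (c * c') • w = c' • c • w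
    rw [smul_smul, mul_comm]
  l_r := fun g c w => by
    funext a
    change ∑ b, g.1 a b * (c • w b) = c • ∑ b, g.1 a b * w b
    simp only [mul_smul_comm, Finset.smul_sum]

/-- Row vectors with entries in `L`, as a right module over the matrices. -/
noncomputable def vecR (D : FExt k) : KBi k k (Gam' D) where
  M := Fin 3 → D.L
  l := (LinearMap.lsmul k (Fin 3 → D.L) : k →ₗ[k] (Fin 3 → D.L) →ₗ[k] (Fin 3 → D.L))
  r := LinearMap.mk₂ k (fun (g : Gam' D) (w : Fin 3 → D.L) => fun b => ∑ a, g.1 a b * w a)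
    (fun g g' w => by
      funext b
      change ∑ a, (g.1 a b + g'.1 a b) * w a = (∑ a, g.1 a b * w a) + ∑ a, g'.1 a b * w a
      simp only [add_mul, Finset.sum_add_distrib])
    (fun c g w => by
      funext b
      change ∑ a, (c • g.1 a b) * w a = c • ∑ a, g.1 a b * w a
      simp only [smul_mul_assoc, Finset.smul_sum])
    (fun g w w' => by
      funext b
      change ∑ a, g.1 a b * (w a + w' a) = (∑ a, g.1 a b * w a) + ∑ a, g.1 a b * w' a
      simp only [mul_add, Finset.sum_add_distrib])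
    (fun c g w => by
      funext b
      change ∑ a, g.1 a b * (c • w a) = c • ∑ a, g.1 a b * w a
      simp only [mul_smul_comm, Finset.smul_sum])
  l_one := fun w => one_smul k w
  r_one := fun w => by
    funext b
    change ∑ a, (1 : Matrix (Fin 3) (Fin 3) D.L) a b * w a = w b
    rw [Finset.sum_eq_single b]
    · rw [Matrix.one_apply_eq, one_mul]
    · intro a _ ha
      rw [Matrix.one_apply_ne ha, zero_mul]
    · intro h
      exact absurd (Finset.mem_univ b) h
  l_mul := fun c c' w => mul_smul c c' w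
  r_mul := fun g g' w => by
    funext b
    change ∑ a, (g.1 * g'.1) a b * w a = ∑ c, g'.1 c b * ∑ a, g.1 a c * w a
    simp only [Matrix.mul_apply, Finset.sum_mul, Finset.mul_sum]
    rw [Finset.sum_comm]
    refine Finset.sum_congr rfl fun c _ => Finset.sum_congr rfl fun a _ => ?_
    ring
  l_r := fun c g w => by
    funext b
    change c • ∑ a, g.1 a b * w a = ∑ a, g.1 a b * (c • w a)
    simp only [mul_smul_comm, Finset.smul_sum]

/-- The families `w` with `w a ∈ N.cp a`. -/
noncomputable def dgmN (N : LP k (LSp.one D).F) : Submodule k (Fin 3 → D.L) where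
  carrier := {w | ∀ a, w a ∈ N.cp a}
  add_mem' := fun {_ _} hw hw' a => (N.cp a).add_mem (hw a) (hw' a)
  zero_mem' := fun a => (N.cp a).zero_mem
  smul_mem' := fun r _ hw a => (N.cp a).smul_mem r (hw a)

/-- The diagram of a line bundle, as a left module. -/
noncomputable def dgmL (N : LP k (LSp.one D).F) (hN : BSt N) : KBi k (Gam D) k :=
  subKBi (vecL D) (AlgHom.id k (Gam D)) (AlgHom.id k k) (dgmN N)
    (fun g w hw a => by
      change (∑ b, g.1 a b * w b) ∈ N.cp a
      refine Submodule.sum_mem _ fun b _ => ?_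
      by_cases h : Le3 b a
      · exact hN a _ (g.2 a b).1 _ (cp_mono N h (hw b))
      · rw [(g.2 a b).2 h, zero_mul]
        exact Submodule.zero_mem _)
    (fun c w hw => (dgmN N).smul_mem c hw)

/-- The diagram of a line bundle, as a right module. -/
noncomputable def dgmR (N : LP k (LSp.one D).F) (hN : BSt N) : KBi k k (Gam' D) :=
  subKBi (vecR D) (AlgHom.id k k) (AlgHom.id k (Gam' D)) (dgmN N)
    (fun c w hw => (dgmN N).smul_mem c hw)
    (fun g w hw b => by
      change (∑ a, g.1 a b * w a) ∈ N.cp b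
      refine Submodule.sum_mem _ fun a _ => ?_
      by_cases h : Le3 a b
      · exact hN b _ (g.2 a b).1 _ (cp_mono N h (hw a))
      · rw [(g.2 a b).2 h, zero_mul]
        exact Submodule.zero_mem _)

section aux

/-- A complex with components in a lattice pair. -/
private theorem BOne_fin {E : LSp D} (P : LP k E.F) {U : Type u} [AddCommGroup U] [Module k U]
    (Y : Dg k U) (Φ : Fin 3 → U →ₗ[k] E.F) (hm : ∀ c u, Φ c u ∈ P.cp c)
    (hs : ∀ c, ∀ x ∈ P.cp c, ∃ u, Φ c u = x ∧ ∀ c', c' ≠ c → Φ c' u = 0)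
    (hi : ∀ u, (∀ c, Φ c u = 0) → u = 0)
    (hd : ∀ u, Φ 0 (Y.d u) = 0 ∧ Φ 1 (Y.d u) = 0 ∧ Φ 2 (Y.d u) = Φ 1 u - Φ 0 u) :
    Y.FinCoh := by
  let l : LAct k E :=
    { f :=
        { toFun := fun c => c • LinearMap.id
          map_add' := fun c c' => add_smul c c' _
          map_smul' := fun c c' => mul_smul c c' _ }
      one := fun v => one_smul k v
      mul := fun a b v => mul_smul a b v }
  have hl : l.St (S := ptC k) P :=
    { s0 := fun c _ hv => Submodule.smul_mem (Submodule.restrictScalars k P.N0) c hv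
      s1 := fun c _ hv => Submodule.smul_mem (Submodule.restrictScalars k P.N1) c hv
      s01 := fun c _ hv => P.N01.smul_mem c hv }
  have h := LP.finCoh (stable_lG hl)
  let G : U →ₗ[k] (P.N0 × P.N1) × P.N01 :=
    { toFun := fun u => ((⟨Φ 0 u, hm 0 u⟩, ⟨Φ 1 u, hm 1 u⟩), ⟨Φ 2 u, hm 2 u⟩)
      map_add' := fun u v => by
        refine Prod.ext (Prod.ext (Subtype.ext ?_) (Subtype.ext ?_)) (Subtype.ext ?_)
        · exact map_add (Φ 0) u v
        · exact map_add (Φ 1) u v
        · exact map_add (Φ 2) u v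
      map_smul' := fun r u => by
        refine Prod.ext (Prod.ext (Subtype.ext ?_) (Subtype.ext ?_)) (Subtype.ext ?_)
        · exact map_smul (Φ 0) r u
        · exact map_smul (Φ 1) r u
        · exact map_smul (Φ 2) r u }
  have hG : Function.Bijective G := by
    constructor
    · rw [← LinearMap.ker_eq_bot, LinearMap.ker_eq_bot']
      intro u hu
      refine hi u fun c => ?_
      have h0 : Φ 0 u = 0 := congrArg (fun x => (x.1.1 : E.F)) hu
      have h1 : Φ 1 u = 0 := congrArg (fun x => (x.1.2 : E.F)) hu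
      have h2 : Φ 2 u = 0 := congrArg (fun x => (x.2 : E.F)) hu
      fin_cases c
      · exact h0
      · exact h1
      · exact h2
    · rintro ⟨⟨x0, x1⟩, x2⟩
      obtain ⟨u0, h0, h0'⟩ := hs 0 x0.1 x0.2
      obtain ⟨u1, h1, h1'⟩ := hs 1 x1.1 x1.2
      obtain ⟨u2, h2, h2'⟩ := hs 2 x2.1 x2.2
      refine ⟨u0 + u1 + u2, ?_⟩
      refine Prod.ext (Prod.ext (Subtype.ext ?_) (Subtype.ext ?_)) (Subtype.ext ?_)
      · change Φ 0 (u0 + u1 + u2) = x0.1
        rw [map_add, map_add, h0, h1' 0 (by decide), h2' 0 (by decide), add_zero, add_zero]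
      · change Φ 1 (u0 + u1 + u2) = x1.1
        rw [map_add, map_add, h1, h0' 1 (by decide), h2' 1 (by decide), zero_add, add_zero]
      · change Φ 2 (u0 + u1 + u2) = x2.1
        rw [map_add, map_add, h2, h0' 2 (by decide), h1' 2 (by decide), zero_add, zero_add]
  let e : U ≃ₗ[k] (P.N0 × P.N1) × P.N01 := LinearEquiv.ofBijective G hG
  have key : ∀ u, (e (Y.d u) : (P.N0 × P.N1) × P.N01) =
      (LP.tri (stable_lG hl)).bim.dg.d (e u) := by
    intro u
    obtain ⟨h0, h1, h2⟩ := hd u
    refine Prod.ext (Prod.ext (Subtype.ext ?_) (Subtype.ext ?_)) (Subtype.ext ?_)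
    · exact h0
    · exact h1
    · exact h2
  refine Dg.FinCoh.of_equiv (X := (LP.tri (stable_lG hl)).bim.dg) (Y := Y) e.symm ?_ h
  intro x
  obtain ⟨u, rfl⟩ := e.surjective x
  have h1 : e.symm (e u) = u := e.symm_apply_apply u
  have h2 : e.symm (e (Y.d u)) = Y.d u := e.symm_apply_apply _
  exact (congrArg Y.d h1).trans (h2.symm.trans (congrArg e.symm (key u)))

/-- Dual bases on the charts. -/
private theorem BOne_dual {E : LSp D} (C : LP k E.F) (hC : BSt C) (c : Fin 3) :
    ∃ (n : ℕ) (v : Fin n → E.F) (f : Fin n → (E.F →ₗ[D.L] D.L)), (∀ j, v j ∈ C.cp c) ∧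
      (∀ j, f j ∈ LP.cp (E := E.dual.F) C.dual c) ∧ (∀ j, ∀ x ∈ C.cp c, f j x ∈ BB D c) ∧
      ∀ x, x = ∑ j, f j x • v j := by
  have h0 : ∃ (n : ℕ) (v : Fin n → E.F) (f : Fin n → (E.F →ₗ[D.L] D.L)), (∀ j, v j ∈ C.N0) ∧
      (∀ j, ∀ x ∈ C.N0, IsIntegral (kk k X) (f j x)) ∧ ∀ x, x = ∑ j, f j x • v j :=
    exists_dual_basis X C.N0 C.fg0 C.sp0 (fun b hb v hv => hC 0 b hb v hv)
  fin_cases c
  · obtain ⟨n, v, f, hv, hf, hx⟩ := h0
    exact ⟨n, v, f, hv, fun j => (LP.mem_dual_N0 C (f j)).2 (hf j), hf, hx⟩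
  · obtain ⟨n, v, f, hv, hf, hx⟩ :=
      exists_dual_basis X⁻¹ C.N1 C.fg1 C.sp1 (fun b hb v hv => hC 1 b hb v hv)
    exact ⟨n, v, f, hv, fun j => (LP.mem_dual_N1 C (f j)).2 (hf j), hf, hx⟩
  · obtain ⟨n, v, f, hv, hf, hx⟩ := h0
    refine ⟨n, v, f, fun j => C.N0_le (hv j),
      fun j => LP.N0_le (E := E.dual.F) C.dual ((LP.mem_dual_N0 C (f j)).2 (hf j)), ?_, hx⟩
    rintro j x ⟨m, hm⟩
    refine mem_BB2.2 ⟨m, ?_⟩
    have h1 := hf j _ hm
    have h2 : f j ((X : RatFunc k) ^ m • x) = tt D ^ m * f j x := by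
      rw [← smul_tt]
      exact ((f j).restrictScalars (RatFunc k)).map_smul _ x
    rw [h2] at h1
    exact h1

private theorem BOne_pair {E : LSp D} (C : LP k E.F) (c : Fin 3) {f : E.F →ₗ[D.L] D.L}
    (hf : f ∈ LP.cp (E := E.dual.F) C.dual c) {v : E.F} (hv : v ∈ C.cp c) : f v ∈ BB D c := by
  fin_cases c
  · exact hf v hv
  · exact hf v hv
  · exact (LP.mem_hom_N01 (F' := LSp.one D) C (LP.OO D) f).1 hf v hv

/-- The lattice pair `V ⊗ N`, as the pairings with the dual bundle. -/
private noncomputable def BOne_P {E : LSp D} (C : LP k E.F) (N : LP k (LSp.one D).F) :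
    LP k E.dual.dual.F :=
  LP.hom (F := E.dual) (F' := LSp.one D) C.dual N

private theorem BOne_memP {E : LSp D} (C : LP k E.F) (N : LP k (LSp.one D).F) (c : Fin 3)
    (φ : E.dual.F →ₗ[D.L] D.L) : φ ∈ LP.cp (E := E.dual.dual.F) (BOne_P C N) c ↔
      ∀ f ∈ LP.cp (E := E.dual.F) C.dual c, φ f ∈ N.cp c := by
  fin_cases c
  · exact Iff.rfl
  · exact Iff.rfl
  · exact LP.mem_hom_N01 (F := E.dual) (F' := LSp.one D) C.dual N φ

/-- The underlying space of the Čech complex of rows. -/
private abbrev BOne_Z {E : LSp D} (C : LP k E.F) : Type u := (rowN C 0 × rowN C 1) × rowN C 2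

/-- The components. -/
private noncomputable def BOne_cz {E : LSp D} (C : LP k E.F) :
    Fin 3 → BOne_Z C →ₗ[k] (Fin 3 → E.F) :=
  ![(rowN C 0).subtype ∘ₗ LinearMap.fst k (rowN C 0) (rowN C 1) ∘ₗ
      LinearMap.fst k (rowN C 0 × rowN C 1) (rowN C 2),
    (rowN C 1).subtype ∘ₗ LinearMap.snd k (rowN C 0) (rowN C 1) ∘ₗ
      LinearMap.fst k (rowN C 0 × rowN C 1) (rowN C 2),
    (rowN C 2).subtype ∘ₗ LinearMap.snd k (rowN C 0 × rowN C 1) (rowN C 2)]

private theorem BOne_cz_mem {E : LSp D} (C : LP k E.F) (c : Fin 3) (z : BOne_Z C) :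
    BOne_cz C c z ∈ rowN C c := by
  fin_cases c
  · exact z.1.1.2
  · exact z.1.2.2
  · exact z.2.2

private theorem BOne_cz_ext {E : LSp D} (C : LP k E.F) {z z' : BOne_Z C}
    (h : ∀ c, BOne_cz C c z = BOne_cz C c z') : z = z' :=
  Prod.ext (Prod.ext (Subtype.ext (h 0)) (Subtype.ext (h 1))) (Subtype.ext (h 2))

private theorem BOne_cz_ex {E : LSp D} (C : LP k E.F) (c : Fin 3) (w : Fin 3 → E.F)
    (hw : w ∈ rowN C c) : ∃ z : BOne_Z C, BOne_cz C c z = w ∧ ∀ c', c' ≠ c →
      BOne_cz C c' z = 0 := by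
  fin_cases c
  · refine ⟨((⟨w, hw⟩, 0), 0), rfl, fun c' hc' => ?_⟩
    fin_cases c'
    · exact absurd rfl hc'
    · rfl
    · rfl
  · refine ⟨((0, ⟨w, hw⟩), 0), rfl, fun c' hc' => ?_⟩
    fin_cases c'
    · rfl
    · exact absurd rfl hc'
    · rfl
  · refine ⟨(0, ⟨w, hw⟩), rfl, fun c' hc' => ?_⟩
    fin_cases c'
    · rfl
    · rfl
    · exact absurd rfl hc'

/-- One component. -/
private theorem BOne_psi {E : LSp D} (C : LP k E.F) (hC : BSt C) (N : LP k (LSp.one D).F)
    {U : Type u} [AddCommGroup U] [Module k U]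
    (T : BOne_Z C →ₗ[k] (dgmN N) →ₗ[k] U)
    (hT : ∀ (c : Fin 3) (r : Fin 3 → D.L), (∀ a, r a ∈ BB D c ∧ (¬ Le3 a c → r a = 0)) →
      ∀ z z' : BOne_Z C, (∀ c' a, BOne_cz C c' z' a = r a • BOne_cz C c' z c) →
      ∀ m m' : dgmN N, (m'.1 = Pi.single c (∑ a, r a * m.1 a)) → T z' m = T z m')
    (Φ : Fin 3 → U →ₗ[k] (E.dual.F →ₗ[D.L] D.L))
    (hΦ : ∀ c z (m : dgmN N) (f : E.F →ₗ[D.L] D.L),
      Φ c (T z m) f = ∑ a, m.1 a * f (BOne_cz C c z a))
    (hm : ∀ c u, Φ c u ∈ LP.cp (E := E.dual.dual.F) (BOne_P C N) c) (c : Fin 3) :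
    ∃ Ψ : LP.cp (E := E.dual.dual.F) (BOne_P C N) c →ₗ[k] U,
      (∀ z m, (∀ c', c' ≠ c → BOne_cz C c' z = 0) → T z m = Ψ ⟨Φ c (T z m), hm c _⟩) ∧
      (∀ φ, Φ c (Ψ φ) = φ.1) ∧ ∀ φ c', c' ≠ c → Φ c' (Ψ φ) = 0 := by
  classical
  obtain ⟨n, v, f, hv, hf, hfv, hx⟩ := BOne_dual C hC c
  have hz : ∀ j, ∃ z : BOne_Z C, BOne_cz C c z = Pi.single c (v j) ∧ ∀ c', c' ≠ c →
      BOne_cz C c' z = 0 := by
    intro j
    refine BOne_cz_ex C c _ fun a => ?_
    by_cases ha : a = c
    · subst ha
      rw [Pi.single_eq_same]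
      exact ⟨hv j, fun h => absurd (Le3.refl a) h⟩
    · rw [Pi.single_eq_of_ne ha]
      exact ⟨Submodule.zero_mem _, fun _ => rfl⟩
  choose ζ hζ hζ' using hz
  let μ : Fin n → LP.cp (E := E.dual.dual.F) (BOne_P C N) c →ₗ[k] dgmN N := fun j =>
    { toFun := fun φ => ⟨Pi.single c ((show (E.dual.F →ₗ[D.L] D.L) from φ.1) (f j)), by
        intro a
        by_cases ha : a = c
        · subst ha
          rw [Pi.single_eq_same]
          exact (BOne_memP C N a _).1 φ.2 _ (hf j)
        · rw [Pi.single_eq_of_ne ha]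
          exact Submodule.zero_mem _⟩
      map_add' := fun φ ψ => Subtype.ext (Pi.single_add c _ _)
      map_smul' := fun r φ => Subtype.ext (Pi.single_smul c r _) }
  have hμ : ∀ j φ, (μ j φ).1 = Pi.single c ((show (E.dual.F →ₗ[D.L] D.L) from φ.1) (f j)) :=
    fun _ _ => rfl
  refine ⟨∑ j, (T (ζ j)) ∘ₗ (μ j), ?_, ?_, ?_⟩
  · intro z m hzc
    rw [LinearMap.sum_apply]
    have hz' : ∀ j, ∃ z' : BOne_Z C, BOne_cz C c z' = (fun a => f j (BOne_cz C c z a) • v j) ∧
        ∀ c', c' ≠ c → BOne_cz C c' z' = 0 := by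
      intro j
      refine BOne_cz_ex C c _ fun a => ⟨?_, fun h => ?_⟩
      · exact hC c _ (hfv j _ (BOne_cz_mem C c z a).1) _ (hv j)
      · rw [(BOne_cz_mem C c z a).2 h, map_zero, zero_smul]
    choose z' hz1 hz2 using hz'
    have h1 : z = ∑ j, z' j := by
      refine BOne_cz_ext C fun c' => ?_
      rw [map_sum]
      by_cases hc : c' = c
      · subst hc
        funext a
        rw [Finset.sum_apply]
        have h2 := hx (BOne_cz C c' z a)
        rw [h2]
        refine Finset.sum_congr rfl fun j _ => ?_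
        rw [hz1 j]
      · rw [hzc c' hc]
        exact (Finset.sum_eq_zero fun j _ => hz2 j c' hc).symm
    have h3 : T z m = ∑ j, T (z' j) m := by
      conv_lhs => rw [h1]
      rw [map_sum, LinearMap.sum_apply]
    refine h3.trans (Finset.sum_congr rfl fun j _ => ?_)
    rw [LinearMap.comp_apply]
    refine hT c (fun a => f j (BOne_cz C c z a)) (fun a => ⟨?_, fun h => ?_⟩) _ _ ?_ _ _ ?_
    · exact hfv j _ (BOne_cz_mem C c z a).1
    · rw [(BOne_cz_mem C c z a).2 h, map_zero]
    · intro c' a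
      by_cases hc : c' = c
      · subst hc
        rw [hz1 j, hζ j, Pi.single_eq_same]
      · rw [hz2 j c' hc, hζ' j c' hc, Pi.zero_apply, Pi.zero_apply, smul_zero]
    · rw [hμ]
      congr 1
      change Φ c (T z m) (f j) = _
      rw [hΦ]
      exact Finset.sum_congr rfl fun a _ => mul_comm _ _
  · intro φ
    rw [LinearMap.sum_apply, map_sum]
    refine LinearMap.ext fun g => ?_
    change E.F →ₗ[D.L] D.L at g
    rw [LinearMap.sum_apply]
    have h1 : ∀ j, Φ c (((T (ζ j)) ∘ₗ (μ j)) φ) g =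
        g (v j) • (show (E.dual.F →ₗ[D.L] D.L) from φ.1) (f j) := by
      intro j
      rw [LinearMap.comp_apply, hΦ, hμ, hζ, Finset.sum_eq_single c]
      · rw [Pi.single_eq_same, Pi.single_eq_same, smul_eq_mul, mul_comm]
      · intro a _ ha
        rw [Pi.single_eq_of_ne ha, zero_mul]
      · intro h
        exact absurd (Finset.mem_univ c) h
    have h2 : g = ∑ j, g (v j) • f j := by
      refine LinearMap.ext fun x => ?_
      conv_lhs => rw [hx x]
      rw [map_sum, LinearMap.sum_apply]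
      refine Finset.sum_congr rfl fun j _ => ?_
      rw [map_smul, LinearMap.smul_apply, smul_eq_mul, smul_eq_mul, mul_comm]
    have h3 : (show (E.dual.F →ₗ[D.L] D.L) from φ.1) g =
        (show (E.dual.F →ₗ[D.L] D.L) from φ.1) (∑ j, g (v j) • f j) :=
      congrArg _ h2
    refine (Finset.sum_congr rfl fun j _ => h1 j).trans (Eq.trans ?_ h3.symm)
    exact ((map_sum (show (E.dual.F →ₗ[D.L] D.L) from φ.1) (fun j => g (v j) • f j)
      Finset.univ).trans (Finset.sum_congr rfl fun j _ =>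
        map_smul (show (E.dual.F →ₗ[D.L] D.L) from φ.1) (g (v j)) (f j))).symm
  · intro φ c' hc
    rw [LinearMap.sum_apply, map_sum]
    refine Finset.sum_eq_zero fun j _ => LinearMap.ext fun g => ?_
    change E.F →ₗ[D.L] D.L at g
    rw [LinearMap.comp_apply, hΦ, hζ' j c' hc]
    refine Finset.sum_eq_zero fun a _ => ?_
    rw [Pi.zero_apply, map_zero, mul_zero]

/-- The Čech complex of a product is the complex of a lattice pair. -/
private theorem BOne_main {E : LSp D} (C : LP k E.F) (hC : BSt C) (N : LP k (LSp.one D).F)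
    (hN : BSt N) {U : Type u} [AddCommGroup U] [Module k U] (Y : Dg k U)
    (T : BOne_Z C →ₗ[k] (dgmN N) →ₗ[k] U)
    (hT : ∀ (c : Fin 3) (r : Fin 3 → D.L), (∀ a, r a ∈ BB D c ∧ (¬ Le3 a c → r a = 0)) →
      ∀ z z' : BOne_Z C, (∀ c' a, BOne_cz C c' z' a = r a • BOne_cz C c' z c) →
      ∀ m m' : dgmN N, (m'.1 = Pi.single c (∑ a, r a * m.1 a)) → T z' m = T z m')
    (hind : ∀ Q : U → Prop, Q 0 → (∀ x y, Q x → Q y → Q (x + y)) → (∀ z m, Q (T z m)) →
      ∀ u, Q u)
    (Φ : Fin 3 → U →ₗ[k] (E.dual.F →ₗ[D.L] D.L))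
    (hΦ : ∀ c z (m : dgmN N) (f : E.F →ₗ[D.L] D.L),
      Φ c (T z m) f = ∑ a, m.1 a * f (BOne_cz C c z a))
    (hd : ∀ z m, ∃ z', Y.d (T z m) = T z' m ∧ BOne_cz C 0 z' = 0 ∧ BOne_cz C 1 z' = 0 ∧
      BOne_cz C 2 z' = BOne_cz C 1 z - BOne_cz C 0 z) : Y.FinCoh := by
  have hm : ∀ c u, Φ c u ∈ LP.cp (E := E.dual.dual.F) (BOne_P C N) c := by
    intro c u
    refine (BOne_memP C N c _).2 ?_
    refine hind (fun u => ∀ f ∈ LP.cp (E := E.dual.F) C.dual c, Φ c u f ∈ N.cp c)
      ?_ ?_ ?_ u
    · intro f _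
      rw [map_zero]
      exact Submodule.zero_mem _
    · intro x y hx hy f hf
      rw [map_add]
      exact Submodule.add_mem _ (hx f hf) (hy f hf)
    · intro z m f hf
      rw [hΦ c z m f]
      refine Submodule.sum_mem _ fun a _ => ?_
      by_cases h : Le3 a c
      · rw [mul_comm]
        exact hN c _ (BOne_pair C c hf (BOne_cz_mem C c z a).1) _ (cp_mono N h (m.2 a))
      · rw [(BOne_cz_mem C c z a).2 h, map_zero, mul_zero]
        exact Submodule.zero_mem _
  choose Ψ h1 h2 h3 using BOne_psi C hC N T hT Φ hΦ hm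
  have hu : ∀ u, u = ∑ c, Ψ c ⟨Φ c u, hm c u⟩ := by
    refine hind _ ?_ ?_ ?_
    · refine (Finset.sum_eq_zero fun c _ => ?_).symm
      have h : (⟨Φ c 0, hm c 0⟩ : LP.cp (E := E.dual.dual.F) (BOne_P C N) c) = 0 :=
        Subtype.ext (map_zero (Φ c))
      rw [h, map_zero]
    · intro x y hx hy
      conv_lhs => rw [hx, hy]
      rw [← Finset.sum_add_distrib]
      refine Finset.sum_congr rfl fun c _ => ?_
      rw [← map_add]
      congr 1
      exact Subtype.ext (map_add (Φ c) x y).symm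
    · intro z m
      choose zz hz1 hz2 using fun c => BOne_cz_ex C c _ (BOne_cz_mem C c z)
      have e1 : z = ∑ c, zz c := by
        refine BOne_cz_ext C fun c' => ?_
        rw [map_sum, Finset.sum_eq_single c' (fun c _ hc => hz2 c c' hc.symm)
          (fun h => absurd (Finset.mem_univ c') h), hz1 c']
      have e2 : T z m = ∑ c, T (zz c) m := by
        conv_lhs => rw [e1]
        rw [map_sum, LinearMap.sum_apply]
      refine e2.trans (Finset.sum_congr rfl fun c _ => ?_)
      rw [h1 c (zz c) m (hz2 c)]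
      congr 1
      refine Subtype.ext ?_
      change Φ c (T (zz c) m) = Φ c (T z m)
      refine LinearMap.ext fun g => ?_
      change E.F →ₗ[D.L] D.L at g
      rw [hΦ, hΦ, hz1 c]
  refine BOne_fin (E := E.dual.dual) (BOne_P C N) Y Φ hm ?_ ?_ ?_
  · intro c x hx
    exact ⟨Ψ c ⟨x, hx⟩, h2 c _, h3 c _⟩
  · intro u h
    rw [hu u]
    refine Finset.sum_eq_zero fun c _ => ?_
    have e : (⟨Φ c u, hm c u⟩ : LP.cp (E := E.dual.dual.F) (BOne_P C N) c) = 0 :=
      Subtype.ext (h c)
    rw [e, map_zero]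
  · refine hind _ ?_ ?_ ?_
    · simp only [map_zero]
      exact ⟨trivial, trivial, (sub_zero _).symm⟩
    · rintro x y ⟨x0, x1, x2⟩ ⟨y0, y1, y2⟩
      simp only [map_add]
      refine ⟨?_, ?_, ?_⟩
      · rw [x0, y0, add_zero]
      · rw [x1, y1, add_zero]
      · rw [x2, y2]
        abel
    · intro z m
      obtain ⟨z', e, e0, e1, e2⟩ := hd z m
      rw [e]
      refine ⟨LinearMap.ext fun g => ?_, LinearMap.ext fun g => ?_, LinearMap.ext fun g => ?_⟩
      · change E.F →ₗ[D.L] D.L at g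
        refine (hΦ 0 z' m g).trans (Finset.sum_eq_zero fun a _ => ?_)
        rw [e0, Pi.zero_apply, map_zero, mul_zero]
      · change E.F →ₗ[D.L] D.L at g
        refine (hΦ 1 z' m g).trans (Finset.sum_eq_zero fun a _ => ?_)
        rw [e1, Pi.zero_apply, map_zero, mul_zero]
      · change E.F →ₗ[D.L] D.L at g
        refine (hΦ 2 z' m g).trans ?_
        have e3 : Φ 1 (T z m) g - Φ 0 (T z m) g =
            ∑ a, m.1 a * g (BOne_cz C 2 z' a) := by
          rw [hΦ, hΦ, ← Finset.sum_sub_distrib]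
          refine Finset.sum_congr rfl fun a _ => ?_
          rw [e2, Pi.sub_apply, map_sub, mul_sub]
        exact e3.symm

/-- The pairing of rows, diagrams and functionals. -/
private noncomputable def BOne_beta {E : LSp D} (C : LP k E.F) (N : LP k (LSp.one D).F)
    (c : Fin 3) : BOne_Z C →ₗ[k] (dgmN N) →ₗ[k] (E.dual.F →ₗ[D.L] D.L) :=
  LinearMap.mk₂ k (fun (z : BOne_Z C) (m : dgmN N) =>
    ({ toFun := fun f : E.F →ₗ[D.L] D.L => ∑ a, m.1 a * f (BOne_cz C c z a)
       map_add' := fun f g => by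
         rw [← Finset.sum_add_distrib]
         exact Finset.sum_congr rfl fun a _ => mul_add _ _ _
       map_smul' := fun r f => by
         rw [Finset.smul_sum]
         exact Finset.sum_congr rfl fun a _ => mul_left_comm _ _ _ } :
      (E.F →ₗ[D.L] D.L) →ₗ[D.L] D.L))
    (fun z z' m => LinearMap.ext fun f => by
      change ∑ a, m.1 a * f (BOne_cz C c (z + z') a) =
        (∑ a, m.1 a * f (BOne_cz C c z a)) + ∑ a, m.1 a * f (BOne_cz C c z' a)
      rw [← Finset.sum_add_distrib]
      refine Finset.sum_congr rfl fun a _ => ?_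
      rw [map_add, Pi.add_apply, map_add, mul_add])
    (fun r z m => LinearMap.ext fun f => by
      change ∑ a, m.1 a * f (BOne_cz C c (r • z) a) = r • ∑ a, m.1 a * f (BOne_cz C c z a)
      rw [Finset.smul_sum]
      refine Finset.sum_congr rfl fun a _ => ?_
      rw [map_smul, Pi.smul_apply]
      have h : f (r • BOne_cz C c z a) = r • f (BOne_cz C c z a) :=
        (f.restrictScalars k).map_smul r _
      rw [h, mul_smul_comm])
    (fun z m m' => LinearMap.ext fun f => by
      change ∑ a, (m.1 a + m'.1 a) * f (BOne_cz C c z a) =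
        (∑ a, m.1 a * f (BOne_cz C c z a)) + ∑ a, m'.1 a * f (BOne_cz C c z a)
      rw [← Finset.sum_add_distrib]
      exact Finset.sum_congr rfl fun a _ => add_mul _ _ _)
    (fun r z m => LinearMap.ext fun f => by
      change ∑ a, (r • m.1 a) * f (BOne_cz C c z a) = r • ∑ a, m.1 a * f (BOne_cz C c z a)
      rw [Finset.smul_sum]
      exact Finset.sum_congr rfl fun a _ => smul_mul_assoc _ _ _)

private theorem BOne_beta_apply {E : LSp D} (C : LP k E.F) (N : LP k (LSp.one D).F)
    (c : Fin 3) (z : BOne_Z C) (m : dgmN N) (f : E.F →ₗ[D.L] D.L) :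
    BOne_beta C N c z m f = ∑ a, m.1 a * f (BOne_cz C c z a) := rfl

private theorem BOne_cz_r (V : LP k F.F) (hV : BSt V) (c : Fin 3) (g : Gam D)
    (z : (ZL V hV).M) : BOne_cz V c ((ZL V hV).r g z) = (rowE V).r g (BOne_cz V c z) := by
  fin_cases c
  · rfl
  · rfl
  · change (rowE V).r (0 : Gam D) z.1.1.1 + (rowE V).r g z.2.1 = (rowE V).r g z.2.1
    rw [map_zero, LinearMap.zero_apply, zero_add]

/-- The matrix with the only row `c`. -/
private noncomputable def BOne_mat (c : Fin 3) (r : Fin 3 → D.L)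
    (h : ∀ a, r a ∈ BB D c ∧ (¬ Le3 a c → r a = 0)) : Gam D :=
  ⟨fun i j => if i = c then r j else 0, fun i j => by
    change (if i = c then r j else 0) ∈ BB D i ∧
      (¬ Le3 j i → (if i = c then r j else 0) = 0)
    by_cases hi : i = c
    · subst hi
      rw [if_pos rfl]
      exact h j
    · rw [if_neg hi]
      exact ⟨Subalgebra.zero_mem _, fun _ => rfl⟩⟩

private theorem BOne_cz_l (V : LP k F.F) (c : Fin 3) (g : Gam' D) (z : (ZR V).M) :
    BOne_cz (E := F.dual) V.dual c ((ZR V).l g z) =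
      (colE V).l g (BOne_cz (E := F.dual) V.dual c z) := by
  fin_cases c
  · rfl
  · rfl
  · change (colE V).l g z.2.1 + (colE V).l (0 : Gam' D) z.1.2.1 = (colE V).l g z.2.1
    rw [map_zero, LinearMap.zero_apply, add_zero]

/-- The matrix with the only column `c`. -/
private noncomputable def BOne_mat' (c : Fin 3) (r : Fin 3 → D.L)
    (h : ∀ a, r a ∈ BB D c ∧ (¬ Le3 a c → r a = 0)) : Gam' D :=
  ⟨fun i j => if j = c then r i else 0, fun i j => by
    change (if j = c then r i else 0) ∈ BB D j ∧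
      (¬ Le3 i j → (if j = c then r i else 0) = 0)
    by_cases hj : j = c
    · subst hj
      rw [if_pos rfl]
      exact h i
    · rw [if_neg hj]
      exact ⟨Subalgebra.zero_mem _, fun _ => rfl⟩⟩

end aux

theorem finCoh_dgmL (V : LP k F.F) (hV : BSt V) (N : LP k (LSp.one D).F) (hN : BSt N) :
    (tb (C := base k) (ZL V hV) (dgmL N hN).bim).dg.FinCoh := by
  classical
  refine BOne_main V hV N hN (tb (C := base k) (ZL V hV) (dgmL N hN).bim).dg
    (tmB (C := base k) (ZL V hV) (dgmL N hN).bim) ?_ ?_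
    (fun c => tlift (M := ZL V hV) (N := (dgmL N hN).bim) (C := base k) (BOne_beta V N c) ?_)
    ?_ ?_
  · intro c r hr z z' hz m m' hm
    have h1 : z' = (ZL V hV).r (BOne_mat c r hr) z := by
      refine BOne_cz_ext V fun c' => ?_
      rw [BOne_cz_r]
      funext a
      rw [hz c' a]
      change _ = ∑ i, (if i = c then r a else 0) • BOne_cz V c' z i
      rw [Finset.sum_eq_single c]
      · rw [if_pos rfl]
      · intro i _ hi
        rw [if_neg hi, zero_smul]
      · intro h
        exact absurd (Finset.mem_univ c) h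
    have h2 : m' = (dgmL N hN).l (BOne_mat c r hr) m := by
      refine Subtype.ext ?_
      rw [hm]
      funext a
      change _ = ∑ b, (if a = c then r b else 0) * m.1 b
      by_cases ha : a = c
      · subst ha
        rw [Pi.single_eq_same]
        exact Finset.sum_congr rfl fun b _ => by rw [if_pos rfl]
      · rw [Pi.single_eq_of_ne ha]
        exact (Finset.sum_eq_zero fun b _ => by rw [if_neg ha, zero_mul]).symm
    rw [h1, h2]
    exact tm_r_l (M := ZL V hV) (N := (dgmL N hN).bim) z (BOne_mat c r hr) m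
  · intro Q h0 hadd h u
    exact tb_ind (M := ZL V hV) (N := (dgmL N hN).bim) (C := base k) h0 hadd h u
  · intro z g m
    refine LinearMap.ext fun f => ?_
    change F.F →ₗ[D.L] D.L at f
    change ∑ a, m.1 a * f (BOne_cz V c ((ZL V hV).r g z) a) =
      ∑ a, (∑ b, g.1 a b * m.1 b) * f (BOne_cz V c z a)
    rw [BOne_cz_r]
    have h1 : ∀ a, f ((rowE V).r g (BOne_cz V c z) a) = ∑ i, g.1 i a * f (BOne_cz V c z i) := by
      intro a
      change f (∑ i, g.1 i a • BOne_cz V c z i) = _
      rw [map_sum]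
      exact Finset.sum_congr rfl fun i _ => map_smul f _ _
    simp only [h1, Finset.mul_sum, Finset.sum_mul]
    rw [Finset.sum_comm]
    refine Finset.sum_congr rfl fun i _ => Finset.sum_congr rfl fun a _ => ?_
    ring
  · intro c z m f
    have h := tlift_tm (M := ZL V hV) (N := (dgmL N hN).bim) (C := base k) (BOne_beta V N c)
    exact congrArg (fun x : (F.F →ₗ[D.L] D.L) →ₗ[D.L] D.L => x f) (h _ z m)
  · intro z m
    refine ⟨(ZL V hV).dg.d z, ?_, rfl, rfl, rfl⟩
    have h := tb_d (M := ZL V hV) (N := (dgmL N hN).bim) (C := base k) z m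
    have h1 : (dgmL N hN).bim.dg.d m = 0 := rfl
    rw [h1, tm_zero_right, add_zero] at h
    exact h

theorem finCoh_dgmR (V : LP k F.F) (N : LP k (LSp.one D).F) (hN : BSt N) :
    (tb (A := base k) (dgmR N hN).bim (ZR V)).dg.FinCoh := by
  classical
  refine BOne_main (E := F.dual) V.dual (BSt.dual V) N hN
    (tb (A := base k) (dgmR N hN).bim (ZR V)).dg
    (tmB (A := base k) (dgmR N hN).bim (ZR V)).flip ?_ ?_
    (fun c => tlift (M := (dgmR N hN).bim) (N := ZR V) (A := base k)
      (BOne_beta (E := F.dual) V.dual N c).flip ?_) ?_ ?_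
  · intro c r hr z z' hz m m' hm
    have h1 : z' = (ZR V).l (BOne_mat' c r hr) z := by
      refine BOne_cz_ext (E := F.dual) V.dual fun c' => ?_
      rw [BOne_cz_l]
      funext a
      rw [hz c' a]
      change _ = ∑ j, (if j = c then r a else 0) • BOne_cz (E := F.dual) V.dual c' z j
      rw [Finset.sum_eq_single c]
      · rw [if_pos rfl]
      · intro i _ hi
        rw [if_neg hi, zero_smul]
      · intro h
        exact absurd (Finset.mem_univ c) h
    have h2 : m' = (dgmR N hN).r (BOne_mat' c r hr) m := by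
      refine Subtype.ext ?_
      rw [hm]
      funext b
      change _ = ∑ a, (if b = c then r a else 0) * m.1 a
      by_cases hb : b = c
      · subst hb
        rw [Pi.single_eq_same]
        exact Finset.sum_congr rfl fun a _ => by rw [if_pos rfl]
      · rw [Pi.single_eq_of_ne hb]
        exact (Finset.sum_eq_zero fun a _ => by rw [if_neg hb, zero_mul]).symm
    rw [h1, h2]
    exact (tm_r_l (M := (dgmR N hN).bim) (N := ZR V) m (BOne_mat' c r hr) z).symm
  · intro Q h0 hadd h u
    exact tb_ind (M := (dgmR N hN).bim) (N := ZR V) (A := base k) h0 hadd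
      (fun m z => h z m) u
  · intro m g z
    refine LinearMap.ext fun f => ?_
    change F.dual.F →ₗ[D.L] D.L at f
    change ∑ b, (∑ a, g.1 a b * m.1 a) * f (BOne_cz (E := F.dual) V.dual c z b) =
      ∑ a, m.1 a * f (BOne_cz (E := F.dual) V.dual c ((ZR V).l g z) a)
    rw [BOne_cz_l]
    have h1 : ∀ a, f ((colE V).l g (BOne_cz (E := F.dual) V.dual c z) a) =
        ∑ j, g.1 a j * f (BOne_cz (E := F.dual) V.dual c z j) := by
      intro a
      change f (∑ j, g.1 a j • BOne_cz (E := F.dual) V.dual c z j) = _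
      rw [map_sum]
      exact Finset.sum_congr rfl fun i _ => map_smul f _ _
    simp only [h1, Finset.mul_sum, Finset.sum_mul]
    rw [Finset.sum_comm]
    refine Finset.sum_congr rfl fun i _ => Finset.sum_congr rfl fun a _ => ?_
    ring
  · intro c z m f
    have h := tlift_tm (M := (dgmR N hN).bim) (N := ZR V) (A := base k)
      (BOne_beta (E := F.dual) V.dual N c).flip
    exact congrArg (fun x : (F.dual.F →ₗ[D.L] D.L) →ₗ[D.L] D.L => x f) (h _ m z)
  · intro z m
    refine ⟨(ZR V).dg.d z, ?_, rfl, rfl, rfl⟩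
    have h := tb_d (M := (dgmR N hN).bim) (N := ZR V) (A := base k) m z
    have h1 : (dgmR N hN).bim.dg.d m = 0 := rfl
    have h2 : (dgmR N hN).bim.dg.s m = m := Dg.conc_s m
    rw [h1, h2, tm_zero_left, zero_add] at h
    exact h

end Pool.Agent.MP_6e5bed_ag_KC
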