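import Pool.Agent.Lib.MP_6e5bed_ag_KC.LFun
import Pool.Agent.Lib.MP_6e5bed_ag_KC.DBB

set_option autoImplicit false
set_option linter.unusedSectionVars false

/-!
# Project KC: the rings of functions on products of charts are noetherian
-/

noncomputable section

namespace Pool.Agent.MP_6e5bed_ag_KC

open RatFunc
open Pool.Agent.MP_6e5bed_ag_NC

universe u

variable {k : Type u} [Field k] {D : FExt k} {ι : Type} [DecidableEq ι]

/-- The rings of functions on the charts are of finite type: `B_0`, `B_1` (DB) and
`B_2 = B_0[1/t]` (`mem_BB2`). -/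
theorem BB_ft (c : Fin 3) : Algebra.FiniteType k (BB D c) := by
  fin_cases c
  · change Algebra.FiniteType k (BB D 0)
    rw [← B0_eq]
    infer_instance
  · change Algebra.FiniteType k (BB D 1)
    rw [← B1_eq]
    infer_instance
  · change Algebra.FiniteType k (BB D 2)
    have h0 : Algebra.FiniteType k (BB D 0) := by
      rw [← B0_eq]
      infer_instance
    rw [← Subalgebra.fg_iff_finiteType] at h0 ⊢
    obtain ⟨S, hS⟩ := h0
    classical
    refine ⟨insert (tt D)⁻¹ S, ?_⟩
    have h1 : Algebra.adjoin k (S : Set D.L) ≤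
        Algebra.adjoin k ((insert (tt D)⁻¹ S : Finset D.L) : Set D.L) := by
      refine Algebra.adjoin_mono ?_
      rw [Finset.coe_insert]
      exact Set.subset_insert _ _
    have h2 : (tt D)⁻¹ ∈ Algebra.adjoin k ((insert (tt D)⁻¹ S : Finset D.L) : Set D.L) := by
      refine Algebra.subset_adjoin ?_
      rw [Finset.coe_insert]
      exact Set.mem_insert _ _
    refine le_antisymm ?_ ?_
    · refine Algebra.adjoin_le ?_
      rw [Finset.coe_insert]
      rintro x (hx | hx)
      · rw [hx]
        exact BB_le D 1 (tt_inv_mem_BB1 D)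
      · refine BB_le D 0 ?_
        rw [← hS]
        exact Algebra.subset_adjoin hx
    · intro b hb
      obtain ⟨n, hn⟩ := mem_BB2.1 hb
      rw [← hS] at hn
      have h3 := Subalgebra.mul_mem _ (Subalgebra.pow_mem _ h2 n) (h1 hn)
      rwa [inv_pow, inv_mul_cancel_left₀ (pow_ne_zero n (tt_ne_zero D))] at h3

open scoped IsMulCommutative in
private theorem LNoe_comm {A : Type u} [Ring A] [Algebra k A] (S : Finset A)
    (hcomm : ∀ a ∈ (S : Set A), ∀ b ∈ (S : Set A), a * b = b * a) :
    IsNoetherianRing (Algebra.adjoin k (S : Set A)) := by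
  have hft : Algebra.FiniteType k (Algebra.adjoin k (S : Set A)) := by
    rw [← Subalgebra.fg_iff_finiteType]
    exact ⟨S, rfl⟩
  have := Algebra.isMulCommutative_adjoin k hcomm
  exact Algebra.FiniteType.isNoetherianRing k _

/-- `RR c` is generated by finitely many commuting elements (`LSys.comm`, and `L` is commutative),
so it is a quotient of a polynomial ring. -/
theorem RR_noeth [Fintype ι] (E : LSys D ι) (c : ι → Fin 3) : IsNoetherianRing (E.RR c) := by
  classical
  have h1 : ∀ i, ∃ S : Finset D.L, Algebra.adjoin k (S : Set D.L) = BB D (c i) := by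
    intro i
    have h0 := BB_ft (D := D) (c i)
    rw [← Subalgebra.fg_iff_finiteType] at h0
    exact h0
  choose S hS using h1
  have h2 : E.RR c = Algebra.adjoin k
      ((Finset.univ.biUnion fun i => (S i).image (E.act i) : Finset (Module.End k E.H)) :
        Set (Module.End k E.H)) := by
    have h3 : ((Finset.univ.biUnion fun i => (S i).image (E.act i) :
        Finset (Module.End k E.H)) : Set (Module.End k E.H)) =
        ⋃ i, E.act i '' (S i : Set D.L) := by
      ext x
      simp
    rw [h3, Algebra.adjoin_iUnion, LSys.RR]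
    refine iSup_congr fun i => ?_
    rw [← hS i, AlgHom.map_adjoin]
  rw [h2]
  refine LNoe_comm _ ?_
  intro a ha b hb
  simp only [Finset.coe_biUnion, Finset.coe_univ, Set.mem_univ, Set.iUnion_true,
    Finset.coe_image, Set.mem_iUnion, Set.mem_image, Finset.mem_coe] at ha hb
  obtain ⟨i, x, -, rfl⟩ := ha
  obtain ⟨j, y, -, rfl⟩ := hb
  exact E.comm i j x y

end Pool.Agent.MP_6e5bed_ag_KC
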