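import Pool.Agent.Lib.MP_6e5bed_ag_KC.BDel
import Pool.Agent.Lib.MP_6e5bed_ag_KC.BCoh
import Pool.Agent.Lib.MP_6e5bed_ag_KC.BOne
import Pool.Agent.Lib.MP_6e5bed_ag_KC.BAWc
import Pool.Agent.Lib.MP_6e5bed_ag_KC.LNoe

set_option autoImplicit false
set_option linter.unusedSectionVars false

/-!
# The powers of the ideal of the diagonal (project KC, part B3)

Proof of `cohL_SysQ`. The algebra of the functions on the product of the charts `a`, `b` (with
underlying space `BBt D a b`) is of finite type over `k` (`BB D a`, `BB D b` are: `DB`, and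
`BB D 2` is generated by `BB D 0` and `1/t`), hence noetherian, so its ideal
`BBt D a b ⊓ dd D ^ j` has finitely many generators; their symbols generate `(SysQ D j).M a b` over
the values `muL D e`, `e ∈ BBt D a b`, which are in `BB D (jn a b)`. It is not zero: the element
`(u ⊗ v) ^ j * del ^ j` with `u = 1/t` if `a = 1` and `u = 1` otherwise, `v` the same for `b`, is in
`BBt D a b ⊓ dd D ^ j` and its symbol is not zero.

Proof of `ses_SysM`: `SysM D (j + 1) ≤ SysM D j` componentwise, and the symbol is surjective to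
`SysQ` by definition, with kernel `SysM D (j + 1)` by `exists_symb`.

Proof of `ecl_SysM_zero`: `w ⊗ w' ↦ (a, b ↦ w a ⊗ w' b)` is an isomorphism of
`KBi.ext (dgmL (LP.OO D) _) (dgmR (LP.OO D) _)` to `(SysM D 0).kbi`; `C1_ext`, `finCoh_dgmL`,
`finCoh_dgmR`, `HasRes.of_finCoh`, `ecl_tb_base`, `JS.comp`.

Proof of `ecl_SysM`: induction on `j` with `ecl_kses_left`, `ecl_coh`, `cohL_Bv`, `ecl_CB`:
`ecl (SysM j) = ecl (SysM (j + 1)) + ecl (SysQ j)` and `ecl (SysQ j) - one ∈ FIN`.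
-/

namespace Pool.Agent.MP_6e5bed_ag_KC

open RatFunc Pool.Agent.MP_6e5bed_ag_NC
open scoped TensorProduct

universe u

variable {k : Type u} [Field k] {F : FExt k}

/-- The functions on the products of the charts which vanish of order `j` at the diagonal. -/
noncomputable def SysM (D : FExt k) (j : ℕ) : Sys2 D (TTt D) where
  M := fun a b => show Submodule k (D.L ⊗[k] D.L) from
    BBt D a b ⊓ (dd D ^ j).restrictScalars k
  hl := fun a b x hx m hm => ⟨BBt_mul_left hx hm.1, (dd D ^ j).mul_mem_left _ hm.2⟩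
  hr := fun a b x hx m hm => ⟨BBt_mul_right hx hm.1, (dd D ^ j).mul_mem_left _ hm.2⟩
  le_l := fun a b => inf_le_inf_right _ (BBt_mono (BB_le D a) le_rfl)
  le_r := fun a b => inf_le_inf_right _ (BBt_mono le_rfl (BB_le D b))

variable [IsAlgClosed k]

/-- The symbol. -/
noncomputable def symb (D : FExt k) (j : ℕ) : ↥(dd D ^ j) →ₗ[k] D.L := (exists_symb D j).choose

theorem symb_smul (D : FExt k) (j : ℕ) (e : D.L ⊗[k] D.L) (x : ↥(dd D ^ j)) :
    symb D j (e • x) = muL D e * symb D j x := (exists_symb D j).choose_spec.1 e x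

theorem symb_eq_zero (D : FExt k) (j : ℕ) (x : ↥(dd D ^ j)) :
    symb D j x = 0 ↔ x.1 ∈ dd D ^ (j + 1) := (exists_symb D j).choose_spec.2.1 x

theorem symb_del (D : FExt k) (j : ℕ) : symb D j ⟨del D ^ j, del_pow_mem D j⟩ = 1 :=
  (exists_symb D j).choose_spec.2.2

/-- The symbols of the functions which vanish of order `j`. -/
noncomputable def SysQ (D : FExt k) (j : ℕ) : Sys2 D (LLd D) where
  M := fun a b => show Submodule k D.L from
    { carrier := {y | ∃ x : ↥(dd D ^ j), x.1 ∈ BBt D a b ∧ symb D j x = y}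
      add_mem' := by
        rintro _ _ ⟨x, hx, rfl⟩ ⟨y, hy, rfl⟩
        exact ⟨x + y, (BBt D a b).add_mem hx hy, map_add _ _ _⟩
      zero_mem' := ⟨0, (BBt D a b).zero_mem, map_zero _⟩
      smul_mem' := by
        rintro c _ ⟨x, hx, rfl⟩
        exact ⟨c • x, (BBt D a b).smul_mem c hx, map_smul _ _ _⟩ }
  hl := by
    rintro a b x hx _ ⟨y, hy, rfl⟩
    refine ⟨(x ⊗ₜ[k] (1 : D.L)) • y, BBt_mul_left hx hy, ?_⟩
    rw [symb_smul]
    change (x * 1) * _ = x * _
    rw [mul_one]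
  hr := by
    rintro a b x hx _ ⟨y, hy, rfl⟩
    refine ⟨((1 : D.L) ⊗ₜ[k] x) • y, BBt_mul_right hx hy, ?_⟩
    rw [symb_smul]
    change (1 * x) * _ = x * _
    rw [one_mul]
  le_l := by
    rintro a b _ ⟨y, hy, rfl⟩
    exact ⟨y, BBt_mono (BB_le D a) le_rfl hy, rfl⟩
  le_r := by
    rintro a b _ ⟨y, hy, rfl⟩
    exact ⟨y, BBt_mono le_rfl (BB_le D b) hy, rfl⟩

/-! ### The exact sequences -/

/-- The inclusion. -/
private noncomputable def BIdl_i (D : FExt k) (j : ℕ) :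
    (SysM D (j + 1)).kbi.M →ₗ[k] (SysM D j).kbi.M :=
  Submodule.inclusion (p := (SysM D (j + 1)).N) (p' := (SysM D j).N) (fun _ hw a b =>
    ⟨(hw a b).1, Ideal.pow_le_pow_right (Nat.le_succ j) (hw a b).2⟩)

/-- The symbol, componentwise. -/
private noncomputable def BIdl_p (D : FExt k) (j : ℕ) :
    (SysM D j).N →ₗ[k] (SysQ D j).N where
  toFun := fun w => ⟨fun a b => symb D j ⟨w.1 a b, (w.2 a b).2⟩,
    fun a b => ⟨⟨w.1 a b, (w.2 a b).2⟩, (w.2 a b).1, rfl⟩⟩
  map_add' := fun w w' => Subtype.ext (funext fun a => funext fun b => by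
    change symb D j (⟨w.1 a b, (w.2 a b).2⟩ + ⟨w'.1 a b, (w'.2 a b).2⟩) = _
    rw [map_add]
    rfl)
  map_smul' := fun c w => Subtype.ext (funext fun a => funext fun b => by
    change symb D j (c • (⟨w.1 a b, (w.2 a b).2⟩ : ↥(dd D ^ j))) = _
    rw [map_smul]
    rfl)

private theorem BIdl_symb_sum (D : FExt k) (j : ℕ) (e : Fin 3 → D.L ⊗[k] D.L)
    (x : Fin 3 → ↥(dd D ^ j)) (h : (∑ c, e c * (x c).1) ∈ dd D ^ j) :
    symb D j ⟨∑ c, e c * (x c).1, h⟩ = ∑ c, muL D (e c) * symb D j (x c) := by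
  have h1 : (⟨∑ c, e c * (x c).1, h⟩ : ↥(dd D ^ j)) = ∑ c, e c • x c := by
    refine Subtype.ext ?_
    rw [AddSubmonoidClass.coe_finsetSum]
    rfl
  rw [h1, map_sum]
  exact Finset.sum_congr rfl fun c _ => symb_smul D j _ _

private theorem BIdl_muL_left (D : FExt k) (x : D.L) : muL D (x ⊗ₜ[k] (1 : D.L)) = x := by
  change x * 1 = x
  rw [mul_one]

private theorem BIdl_muL_right (D : FExt k) (x : D.L) : muL D ((1 : D.L) ⊗ₜ[k] x) = x := by
  change 1 * x = x
  rw [one_mul]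

theorem ses_SysM (D : FExt k) (j : ℕ) :
    KBi.IsSes (SysM D (j + 1)).kbi (SysM D j).kbi (SysQ D j).kbi := by
  refine ⟨BIdl_i D j, BIdl_p D j, Submodule.inclusion_injective _, ?_, ?_, fun _ _ => rfl,
    fun _ _ => rfl, ?_, ?_⟩
  · rintro ⟨y, hy⟩
    have h1 : ∀ a b, ∃ x : ↥(dd D ^ j), x.1 ∈ BBt D a b ∧ symb D j x = y a b := fun a b => hy a b
    choose x hx1 hx2 using h1
    refine ⟨⟨fun a b => (x a b).1, fun a b => ⟨hx1 a b, (x a b).2⟩⟩, ?_⟩
    exact Subtype.ext (funext fun a => funext fun b => hx2 a b)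
  · intro w
    constructor
    · intro h
      have h1 : ∀ a b, w.1 a b ∈ dd D ^ (j + 1) := by
        intro a b
        refine (symb_eq_zero D j ⟨w.1 a b, (w.2 a b).2⟩).1 ?_
        exact congrFun (congrFun (congrArg Subtype.val h) a) b
      exact ⟨⟨w.1, fun a b => ⟨(w.2 a b).1, h1 a b⟩⟩, rfl⟩
    · rintro ⟨y, rfl⟩
      refine Subtype.ext (funext fun a => funext fun b => ?_)
      change symb D j _ = 0
      rw [symb_eq_zero]
      exact (y.2 a b).2
  · intro g w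
    refine Subtype.ext (funext fun a => funext fun b => ?_)
    refine (BIdl_symb_sum D j (fun c => g.1 a c ⊗ₜ[k] (1 : D.L))
      (fun c => ⟨w.1 c b, (w.2 c b).2⟩) _).trans ?_
    simp only [BIdl_muL_left]
    rfl
  · intro g w
    refine Subtype.ext (funext fun a => funext fun b => ?_)
    refine (BIdl_symb_sum D j (fun c => (1 : D.L) ⊗ₜ[k] g.1 c b)
      (fun c => ⟨w.1 a c, (w.2 a c).2⟩) _).trans ?_
    simp only [BIdl_muL_right]
    rfl

/-! ### Finiteness -/

/-- The functions on the product of the charts. -/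
private noncomputable def BIdl_φ (D : FExt k) (a b : Fin 3) :
    ↥(BB D a) ⊗[k] ↥(BB D b) →ₐ[k] D.L ⊗[k] D.L :=
  Algebra.TensorProduct.map (BB D a).val (BB D b).val

private theorem BIdl_φ_tmul (D : FExt k) (a b : Fin 3) (x : BB D a) (y : BB D b) :
    BIdl_φ D a b (x ⊗ₜ[k] y) = x.1 ⊗ₜ[k] y.1 :=
  Algebra.TensorProduct.map_tmul _ _ _ _

private theorem BIdl_φ_mem (D : FExt k) (a b : Fin 3) (r : ↥(BB D a) ⊗[k] ↥(BB D b)) :
    BIdl_φ D a b r ∈ BBt D a b := by
  induction r using TensorProduct.induction_on with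
  | zero =>
    rw [map_zero]
    exact Submodule.zero_mem _
  | tmul x y =>
    rw [BIdl_φ_tmul]
    have e : x.1 ⊗ₜ[k] y.1 = (x.1 ⊗ₜ[k] (1 : D.L)) * ((1 : D.L) ⊗ₜ[k] y.1) := by
      rw [Algebra.TensorProduct.tmul_mul_tmul, mul_one, one_mul]
    rw [e]
    exact Submodule.mul_mem_mul ⟨x.1, x.2, rfl⟩ ⟨y.1, y.2, rfl⟩
  | add x y hx hy =>
    rw [map_add]
    exact Submodule.add_mem _ hx hy

private theorem BIdl_mem_φ (D : FExt k) (a b : Fin 3) {m : D.L ⊗[k] D.L}
    (hm : m ∈ BBt D a b) : ∃ r, BIdl_φ D a b r = m := by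
  refine Submodule.mul_induction_on hm ?_ ?_
  · rintro _ ⟨x, hx, rfl⟩ _ ⟨y, hy, rfl⟩
    refine ⟨(⟨x, hx⟩ : BB D a) ⊗ₜ[k] (⟨y, hy⟩ : BB D b), ?_⟩
    rw [BIdl_φ_tmul]
    change x ⊗ₜ[k] y = (x ⊗ₜ[k] (1 : D.L)) * ((1 : D.L) ⊗ₜ[k] y)
    rw [Algebra.TensorProduct.tmul_mul_tmul, mul_one, one_mul]
  · rintro x y ⟨r, hr⟩ ⟨s, hs⟩
    exact ⟨r + s, by rw [map_add, hr, hs]⟩

private theorem BIdl_muL_φ (D : FExt k) (a b : Fin 3) (r : ↥(BB D a) ⊗[k] ↥(BB D b)) :
    muL D (BIdl_φ D a b r) ∈ BB D (jn a b) := by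
  induction r using TensorProduct.induction_on with
  | zero =>
    rw [map_zero, map_zero]
    exact Subalgebra.zero_mem _
  | tmul x y =>
    rw [BIdl_φ_tmul]
    exact (BB D (jn a b)).mul_mem (BB_mono D (le_jn_left a b) x.2)
      (BB_mono D (le_jn_right a b) y.2)
  | add x y hx hy =>
    rw [map_add, map_add]
    exact Subalgebra.add_mem _ hx hy

private theorem BIdl_noeth (D : FExt k) (a b : Fin 3) :
    IsNoetherianRing (↥(BB D a) ⊗[k] ↥(BB D b)) := by
  have h1 := BB_ft (D := D) a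
  have h2 := BB_ft (D := D) b
  have h3 : Algebra.FiniteType k (↥(BB D a) ⊗[k] ↥(BB D b)) :=
    Algebra.FiniteType.trans h1 inferInstance
  exact Algebra.FiniteType.isNoetherianRing k _

private theorem BIdl_fg (D : FExt k) (j : ℕ) (a b : Fin 3) : ∃ T : Finset D.L,
    ∀ x : D.L, x ∈ (SysQ D j).M a b → x ∈ Submodule.span (BB D (jn a b)) (T : Set D.L) := by
  classical
  have hN := BIdl_noeth D a b
  obtain ⟨S, hS⟩ := (isNoetherianRing_iff_ideal_fg _).1 hN
    (Ideal.comap (BIdl_φ D a b) (dd D ^ j))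
  have hmem : ∀ r ∈ Submodule.span (↥(BB D a) ⊗[k] ↥(BB D b))
      (S : Set (↥(BB D a) ⊗[k] ↥(BB D b))), BIdl_φ D a b r ∈ dd D ^ j := by
    intro r hr
    have h1 : r ∈ Ideal.comap (BIdl_φ D a b) (dd D ^ j) := by
      rw [← hS]
      exact hr
    exact h1
  refine ⟨S.attach.image fun s => symb D j ⟨BIdl_φ D a b s.1,
    hmem s.1 (Submodule.subset_span s.2)⟩, ?_⟩
  rintro _ ⟨z, hz, rfl⟩
  obtain ⟨r, hr⟩ := BIdl_mem_φ D a b hz
  have hrS : r ∈ Submodule.span (↥(BB D a) ⊗[k] ↥(BB D b))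
      (S : Set (↥(BB D a) ⊗[k] ↥(BB D b))) := by
    have h1 : r ∈ Ideal.comap (BIdl_φ D a b) (dd D ^ j) := by
      change BIdl_φ D a b r ∈ dd D ^ j
      rw [hr]
      exact z.2
    rw [← hS] at h1
    exact h1
  have key : ∀ (r : ↥(BB D a) ⊗[k] ↥(BB D b)) (hr : r ∈ Submodule.span
      (↥(BB D a) ⊗[k] ↥(BB D b)) (S : Set (↥(BB D a) ⊗[k] ↥(BB D b)))),
      symb D j ⟨BIdl_φ D a b r, hmem r hr⟩ ∈ Submodule.span (BB D (jn a b))
        ((S.attach.image fun s => symb D j ⟨BIdl_φ D a b s.1,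
          hmem s.1 (Submodule.subset_span s.2)⟩ : Finset D.L) : Set D.L) := by
    intro r hr
    induction hr using Submodule.span_induction with
    | mem x h =>
      refine Submodule.subset_span ?_
      rw [Finset.coe_image]
      exact ⟨⟨x, h⟩, Finset.mem_coe.2 (Finset.mem_attach _ _), rfl⟩
    | zero =>
      have e : (⟨BIdl_φ D a b 0, hmem 0 (Submodule.zero_mem _)⟩ : ↥(dd D ^ j)) = 0 :=
        Subtype.ext (map_zero _)
      rw [e, map_zero]
      exact Submodule.zero_mem _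
    | add x y hx hy ihx ihy =>
      have e : (⟨BIdl_φ D a b (x + y), hmem _ (Submodule.add_mem _ hx hy)⟩ : ↥(dd D ^ j)) =
          ⟨BIdl_φ D a b x, hmem x hx⟩ + ⟨BIdl_φ D a b y, hmem y hy⟩ :=
        Subtype.ext (map_add _ _ _)
      rw [e, map_add]
      exact Submodule.add_mem _ ihx ihy
    | smul c x hx ihx =>
      have e : (⟨BIdl_φ D a b (c • x), hmem _ (Submodule.smul_mem _ c hx)⟩ : ↥(dd D ^ j)) =
          BIdl_φ D a b c • ⟨BIdl_φ D a b x, hmem x hx⟩ :=
        Subtype.ext (map_mul (BIdl_φ D a b) c x)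
      rw [e, symb_smul]
      exact Submodule.smul_mem _ (⟨_, BIdl_muL_φ D a b c⟩ : BB D (jn a b)) ihx
  have e : z = ⟨BIdl_φ D a b r, hmem r hrS⟩ := Subtype.ext hr.symm
  rw [e]
  exact key r hrS

private theorem BIdl_u (D : FExt k) (a : Fin 3) :
    ∃ u : D.L, u ≠ 0 ∧ u ∈ BB D a ∧ u * tt D ∈ BB D a := by
  fin_cases a
  · refine ⟨1, one_ne_zero, Subalgebra.one_mem _, ?_⟩
    rw [one_mul]
    exact tt_mem_BB0 D
  · refine ⟨(tt D)⁻¹, inv_ne_zero (tt_ne_zero D), tt_inv_mem_BB1 D, ?_⟩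
    rw [inv_mul_cancel₀ (tt_ne_zero D)]
    exact Subalgebra.one_mem _
  · refine ⟨1, one_ne_zero, Subalgebra.one_mem _, ?_⟩
    rw [one_mul]
    exact BB_le D 0 (tt_mem_BB0 D)

private theorem BIdl_ne_bot (D : FExt k) (j : ℕ) (a b : Fin 3) : (SysQ D j).M a b ≠ ⊥ := by
  obtain ⟨u, hu0, hu, hut⟩ := BIdl_u D a
  obtain ⟨v, hv0, hv, hvt⟩ := BIdl_u D b
  have h1 : (u ⊗ₜ[k] v) * del D ∈ BBt D a b := by
    have e : (u ⊗ₜ[k] v) * del D = BIdl_φ D a b ((⟨u * tt D, hut⟩ : BB D a) ⊗ₜ[k]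
        (⟨v, hv⟩ : BB D b) - (⟨u, hu⟩ : BB D a) ⊗ₜ[k] (⟨v * tt D, hvt⟩ : BB D b)) := by
      rw [map_sub, BIdl_φ_tmul, BIdl_φ_tmul, del, mul_sub, Algebra.TensorProduct.tmul_mul_tmul,
        Algebra.TensorProduct.tmul_mul_tmul, mul_one, mul_one]
    rw [e]
    exact BIdl_φ_mem D a b _
  obtain ⟨r, hr⟩ := BIdl_mem_φ D a b h1
  have h2 : (u ⊗ₜ[k] v) ^ j * del D ^ j ∈ BBt D a b := by
    rw [← mul_pow, ← hr, ← map_pow]
    exact BIdl_φ_mem D a b _
  intro h
  have h3 : symb D j ((u ⊗ₜ[k] v) ^ j • ⟨del D ^ j, del_pow_mem D j⟩) ∈ (SysQ D j).M a b :=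
    ⟨_, h2, rfl⟩
  rw [h, symb_smul, symb_del, mul_one, map_pow] at h3
  have h4 : muL D (u ⊗ₜ[k] v) ^ j = 0 := h3
  have h5 : (u * v) ^ j = 0 := h4
  exact pow_ne_zero j (mul_ne_zero hu0 hv0) h5

theorem cohL_SysQ (D : FExt k) (j : ℕ) : CohL (SysQ D j) := by
  exact fun a b => ⟨BIdl_ne_bot D j a b, BIdl_fg D j a b⟩

variable {D : FExt k} {F : LSp D}

/-! ### The structure sheaf of the product -/

/-- The structure sheaf. -/
private noncomputable abbrev BIdl_O (D : FExt k) : LP k (LSp.one D).F := LP.OO D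

/-- The external products of families. -/
private noncomputable def BIdl_g (D : FExt k) :
    (Fin 3 → D.L) ⊗[k] (Fin 3 → D.L) →ₗ[k] (Fin 3 → Fin 3 → D.L ⊗[k] D.L) :=
  TensorProduct.lift (LinearMap.mk₂ k (fun (w w' : Fin 3 → D.L) a b => w a ⊗ₜ[k] w' b)
    (fun w w' v => funext fun a => funext fun b => TensorProduct.add_tmul (w a) (w' a) (v b))
    (fun c w v => funext fun a => funext fun b => (TensorProduct.smul_tmul' c (w a) (v b)).symm)
    (fun w v v' => funext fun a => funext fun b => TensorProduct.tmul_add (w a) (v b) (v' b))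
    (fun c w v => funext fun a => funext fun b => TensorProduct.tmul_smul c (w a) (v b)))

private theorem BIdl_g_tmul (D : FExt k) (w w' : Fin 3 → D.L) :
    BIdl_g D (w ⊗ₜ[k] w') = fun a b => w a ⊗ₜ[k] w' b := rfl

private theorem BIdl_g_inj (D : FExt k) : Function.Injective (BIdl_g D) := by
  classical
  have h : Function.LeftInverse (fun y : Fin 3 → Fin 3 → D.L ⊗[k] D.L => ∑ a, ∑ b,
    TensorProduct.map (LinearMap.single k (fun _ : Fin 3 => D.L) a)
      (LinearMap.single k (fun _ : Fin 3 => D.L) b) (y a b)) (BIdl_g D) := by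
    intro x
    change (∑ a, ∑ b, TensorProduct.map (LinearMap.single k (fun _ : Fin 3 => D.L) a)
      (LinearMap.single k (fun _ : Fin 3 => D.L) b) (BIdl_g D x a b)) = x
    induction x using TensorProduct.induction_on with
    | zero => simp
    | tmul w w' =>
      simp only [BIdl_g_tmul, TensorProduct.map_tmul, ← TensorProduct.tmul_sum,
        ← TensorProduct.sum_tmul, LinearMap.coe_single, Finset.univ_sum_single]
    | add x y hx hy =>
      simp only [map_add, Pi.add_apply, Finset.sum_add_distrib, hx, hy]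
  exact h.injective

private theorem BIdl_OO (D : FExt k) : BSt (F := LSp.one D) (BIdl_O D) := by
  intro c b hb v hv
  exact (BB D c).mul_mem hb hv

/-- The families of functions. -/
private noncomputable abbrev BIdl_N (D : FExt k) : Submodule k (Fin 3 → D.L) := dgmN (BIdl_O D)

/-- The external products of families of functions. -/
private noncomputable def BIdl_h (D : FExt k) :
    ↥(BIdl_N D) ⊗[k] ↥(BIdl_N D) →ₗ[k] (Fin 3 → Fin 3 → D.L ⊗[k] D.L) :=
  BIdl_g D ∘ₗ TensorProduct.map (BIdl_N D).subtype (BIdl_N D).subtype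

private theorem BIdl_h_tmul (D : FExt k) (w w' : ↥(BIdl_N D)) :
    BIdl_h D (w ⊗ₜ[k] w') = fun a b => w.1 a ⊗ₜ[k] w'.1 b := rfl

private theorem BIdl_h_inj (D : FExt k) : Function.Injective (BIdl_h D) := by
  intro x y h
  exact TensorProduct.map_injective_of_flat_flat (BIdl_N D).subtype (BIdl_N D).subtype
    (Submodule.subtype_injective _) (Submodule.subtype_injective _) (BIdl_g_inj D h)

private theorem BIdl_h_mem (D : FExt k) (x : ↥(BIdl_N D) ⊗[k] ↥(BIdl_N D)) (a b : Fin 3) :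
    BIdl_h D x a b ∈ BBt D a b := by
  induction x using TensorProduct.induction_on with
  | zero =>
    rw [map_zero]
    exact Submodule.zero_mem _
  | tmul w w' =>
    exact BIdl_φ_mem D a b ((⟨w.1 a, w.2 a⟩ : BB D a) ⊗ₜ[k] (⟨w'.1 b, w'.2 b⟩ : BB D b))
  | add x y hx hy =>
    rw [map_add]
    exact Submodule.add_mem _ hx hy

/-- The family with one component. -/
private noncomputable def BIdl_s (D : FExt k) (a : Fin 3) : ↥(BB D a) →ₗ[k] ↥(BIdl_N D) :=
  LinearMap.codRestrict (BIdl_N D) (LinearMap.single k (fun _ : Fin 3 => D.L) a ∘ₗ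
    (BB D a).val.toLinearMap) (fun x c => by
      change (Pi.single a x.1 : Fin 3 → D.L) c ∈ (LP.OO D).cp c
      by_cases h : c = a
      · subst h
        rw [Pi.single_eq_same]
        exact x.2
      · rw [Pi.single_eq_of_ne h]
        exact Submodule.zero_mem _)

private theorem BIdl_h_s (D : FExt k) (a b : Fin 3) (r : ↥(BB D a) ⊗[k] ↥(BB D b)) :
    BIdl_h D (TensorProduct.map (BIdl_s D a) (BIdl_s D b) r) =
      Pi.single a (Pi.single b (BIdl_φ D a b r)) := by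
  induction r using TensorProduct.induction_on with
  | zero =>
    rw [map_zero, map_zero, map_zero, Pi.single_zero, Pi.single_zero]
  | tmul x y =>
    rw [TensorProduct.map_tmul, BIdl_h_tmul, BIdl_φ_tmul]
    funext c d
    change (Pi.single a x.1 : Fin 3 → D.L) c ⊗ₜ[k] (Pi.single b y.1 : Fin 3 → D.L) d = _
    by_cases h : c = a
    · subst h
      rw [Pi.single_eq_same, Pi.single_eq_same]
      by_cases h' : d = b
      · subst h'
        rw [Pi.single_eq_same, Pi.single_eq_same]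
      · rw [Pi.single_eq_of_ne h', Pi.single_eq_of_ne h', TensorProduct.tmul_zero]
    · rw [Pi.single_eq_of_ne h, Pi.single_eq_of_ne h, TensorProduct.zero_tmul]
      rfl
  | add x y hx hy =>
    rw [map_add, map_add, map_add, Pi.single_add, Pi.single_add, ← hx, ← hy]

private theorem BIdl_h_surj (D : FExt k) (y : Fin 3 → Fin 3 → D.L ⊗[k] D.L)
    (hy : ∀ a b, y a b ∈ BBt D a b) : ∃ x, BIdl_h D x = y := by
  have h1 : ∀ a b, ∃ r, BIdl_φ D a b r = y a b := fun a b => BIdl_mem_φ D a b (hy a b)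
  choose r hr using h1
  refine ⟨∑ a, ∑ b, TensorProduct.map (BIdl_s D a) (BIdl_s D b) (r a b), ?_⟩
  simp only [map_sum, BIdl_h_s, hr]
  funext c d
  simp only [Finset.sum_apply]
  rw [Finset.sum_eq_single c, Finset.sum_eq_single d]
  · rw [Pi.single_eq_same, Pi.single_eq_same]
  · intro b _ hb
    rw [Pi.single_eq_same, Pi.single_eq_of_ne hb.symm]
  · intro h
    exact absurd (Finset.mem_univ d) h
  · intro a _ ha
    refine Finset.sum_eq_zero fun b _ => ?_
    rw [Pi.single_eq_of_ne ha.symm]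
    rfl
  · intro h
    exact absurd (Finset.mem_univ c) h

private theorem BIdl_h_l (D : FExt k) (g : Gam D) (e : ↥(BIdl_N D) →ₗ[k] ↥(BIdl_N D))
    (he : ∀ w a, (e w).1 a = ∑ c, g.1 a c * w.1 c) (x : ↥(BIdl_N D) ⊗[k] ↥(BIdl_N D)) :
    BIdl_h D (LinearMap.rTensor ↥(BIdl_N D) e x) =
      fun a b => ∑ c, (g.1 a c ⊗ₜ[k] (1 : D.L)) * BIdl_h D x c b := by
  induction x using TensorProduct.induction_on with
  | zero =>
    rw [map_zero, map_zero]
    funext a b
    simp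
  | tmul w w' =>
    rw [LinearMap.rTensor_tmul]
    funext a b
    change (e w).1 a ⊗ₜ[k] w'.1 b =
      ∑ c, (g.1 a c ⊗ₜ[k] (1 : D.L)) * (w.1 c ⊗ₜ[k] w'.1 b)
    rw [he, TensorProduct.sum_tmul]
    refine Finset.sum_congr rfl fun c _ => ?_
    rw [Algebra.TensorProduct.tmul_mul_tmul, one_mul]
  | add x y hx hy =>
    rw [map_add, map_add, map_add, hx, hy]
    funext a b
    simp only [Pi.add_apply, mul_add, Finset.sum_add_distrib]

private theorem BIdl_h_r (D : FExt k) (g : Gam' D) (e : ↥(BIdl_N D) →ₗ[k] ↥(BIdl_N D))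
    (he : ∀ w b, (e w).1 b = ∑ c, g.1 c b * w.1 c) (x : ↥(BIdl_N D) ⊗[k] ↥(BIdl_N D)) :
    BIdl_h D (LinearMap.lTensor ↥(BIdl_N D) e x) =
      fun a b => ∑ c, ((1 : D.L) ⊗ₜ[k] g.1 c b) * BIdl_h D x a c := by
  induction x using TensorProduct.induction_on with
  | zero =>
    rw [map_zero, map_zero]
    funext a b
    simp
  | tmul w w' =>
    rw [LinearMap.lTensor_tmul]
    funext a b
    change w.1 a ⊗ₜ[k] (e w').1 b =
      ∑ c, ((1 : D.L) ⊗ₜ[k] g.1 c b) * (w.1 a ⊗ₜ[k] w'.1 c)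
    rw [he, TensorProduct.tmul_sum]
    refine Finset.sum_congr rfl fun c _ => ?_
    rw [Algebra.TensorProduct.tmul_mul_tmul, one_mul]
  | add x y hx hy =>
    rw [map_add, map_add, map_add, hx, hy]
    funext a b
    simp only [Pi.add_apply, mul_add, Finset.sum_add_distrib]

/-- The isomorphism. -/
private noncomputable def BIdl_f (D : FExt k) :
    ↥(BIdl_N D) ⊗[k] ↥(BIdl_N D) →ₗ[k] ↥(SysM D 0).N where
  toFun := fun x => ⟨BIdl_h D x, fun a b => ⟨BIdl_h_mem D x a b, by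
    change _ ∈ dd D ^ 0
    rw [pow_zero, Ideal.one_eq_top]
    exact Submodule.mem_top⟩⟩
  map_add' := fun x y => Subtype.ext (map_add (BIdl_h D) x y)
  map_smul' := fun c x => Subtype.ext (map_smul (BIdl_h D) c x)

private theorem BIdl_f_bij (D : FExt k) : Function.Bijective (BIdl_f D) := by
  refine ⟨fun x y h => BIdl_h_inj D (congrArg Subtype.val h), fun y => ?_⟩
  obtain ⟨x, hx⟩ := BIdl_h_surj D y.1 (fun a b => (y.2 a b).1)
  exact ⟨x, Subtype.ext hx⟩

private theorem BIdl_iso (D : FExt k) : KBi.Iso (KBi.ext (dgmL (BIdl_O D) (BIdl_OO D))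
    (dgmR (BIdl_O D) (BIdl_OO D))) (SysM D 0).kbi := by
  refine ⟨LinearEquiv.ofBijective (BIdl_f D) (BIdl_f_bij D), ?_, ?_⟩
  · intro g x
    exact Subtype.ext (BIdl_h_l D g ((dgmL (BIdl_O D) (BIdl_OO D)).l g) (fun _ _ => rfl) x)
  · intro g x
    exact Subtype.ext (BIdl_h_r D g ((dgmR (BIdl_O D) (BIdl_OO D)).r g) (fun _ _ => rfl) x)

theorem ecl_SysM_zero (V : LP k F.F) (hV : BSt V) (hW : Smooth (endCosp V).cech)
    (hP : Proper (endCosp V).cech) : HasRes ((C1 (ZL V hV) (ZR V)).obj (SysM D 0).kbi.bim) ∧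
      ecl ((C1 (ZL V hV) (ZR V)).obj (SysM D 0).kbi.bim) ∈ FIN (endCosp V).cech := by
  have e0 : BIso (KBi.ext (dgmL (BIdl_O D) (BIdl_OO D)) (dgmR (BIdl_O D) (BIdl_OO D))).bim
      (SysM D 0).kbi.bim := (BIdl_iso D).biso (DHom.id _) (DHom.id _)
  have e1 : BIso (tb (tb (C := base k) (ZL V hV) (dgmL (BIdl_O D) (BIdl_OO D)).bim)
      (tb (A := base k) (dgmR (BIdl_O D) (BIdl_OO D)).bim (ZR V)))
      ((C1 (ZL V hV) (ZR V)).obj (SysM D 0).kbi.bim) :=
    (C1_ext (ZL V hV) (ZR V) (dgmL (BIdl_O D) (BIdl_OO D)) (dgmR (BIdl_O D) (BIdl_OO D))).symm.trans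
      ((C1 (ZL V hV) (ZR V)).biso e0)
  have h1 : HasRes (tb (C := base k) (ZL V hV) (dgmL (BIdl_O D) (BIdl_OO D)).bim) :=
    HasRes.of_finCoh hW smooth_base _ (finCoh_dgmL V hV (BIdl_O D) (BIdl_OO D))
  have h2 : HasRes (tb (A := base k) (dgmR (BIdl_O D) (BIdl_OO D)).bim (ZR V)) :=
    HasRes.of_finCoh smooth_base hW _ (finCoh_dgmR V (BIdl_O D) (BIdl_OO D))
  have h3 := HasRes.tb proper_base h1 h2 (rflat_base _)
  refine ⟨h3.iso e1, ?_⟩
  rw [← ecl_iso e1, ecl_eq h3]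
  exact JS.tb_base (Good := fun X => X = base k) rfl h1 h2 h3

/-- The class of the `j`-th power of the ideal of the diagonal is `-j`, modulo `FIN`. -/
theorem ecl_SysM (V : LP k F.F) (hV : BSt V) (hW : Smooth (endCosp V).cech)
    (hP : Proper (endCosp V).cech) (j : ℕ) :
    HasRes ((C1 (ZL V hV) (ZR V)).obj (SysM D j).kbi.bim) ∧
      ecl ((C1 (ZL V hV) (ZR V)).obj (SysM D j).kbi.bim) + (j : ℚ) • K0Q.one hW ∈
        FIN (endCosp V).cech := by
  have hB := ecl_CB V hV hW hP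
  induction j with
  | zero =>
    obtain ⟨h1, h2⟩ := ecl_SysM_zero V hV hW hP
    refine ⟨h1, ?_⟩
    rw [Nat.cast_zero, zero_smul, add_zero]
    exact h2
  | succ j ih =>
    obtain ⟨h1, h2⟩ := ih
    obtain ⟨h3, h4⟩ := ecl_coh V hV hW (Bv D) (SysQ D j) (cohL_Bv D) (cohL_SysQ D j) hB.1
    obtain ⟨h5, h6⟩ := ecl_kses_left hW (rperf_ZL V hV) (lperf_ZR V) (ses_SysM D j) h1 h3
    refine ⟨h5, ?_⟩
    have h7 : ecl ((C1 (ZL V hV) (ZR V)).obj (Bv D).kbi.bim) = K0Q.one hW := hB.2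
    rw [h7] at h4
    have e : ecl ((C1 (ZL V hV) (ZR V)).obj (SysM D (j + 1)).kbi.bim) +
        ((j + 1 : ℕ) : ℚ) • K0Q.one hW =
        (ecl ((C1 (ZL V hV) (ZR V)).obj (SysM D j).kbi.bim) + (j : ℚ) • K0Q.one hW) -
        (ecl ((C1 (ZL V hV) (ZR V)).obj (SysQ D j).kbi.bim) - K0Q.one hW) := by
      rw [h6]
      push_cast
      rw [add_smul, one_smul]
      abel
    rw [e]
    exact Submodule.sub_mem _ h2 h4

end Pool.Agent.MP_6e5bed_ag_KC
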