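import Pool.Agent.Lib.MP_6e5bed_ag_KC.BChi
import Pool.Agent.Lib.MP_6e5bed_ag_KC.BChiR

set_option autoImplicit false
set_option linter.unusedSectionVars false

/-!
# The fibre of a vector bundle at the point at infinity is not zero (project KC, part B4)
-/

namespace Pool.Agent.MP_6e5bed_ag_KC

open RatFunc Pool.Agent.MP_6e5bed_ag_NC

universe u

variable {k : Type u} [Field k] {D : FExt k} {F : LSp D} (V : LP k F.F)

/-- The matrix with the entry `b` at `1`, `1`. -/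
private noncomputable def BNz_e (D : FExt k) : BB D 1 →ₗ[k] Gam D where
  toFun := fun b => ⟨Matrix.single 1 1 b.1, fun i j => by
    by_cases h : 1 = i ∧ 1 = j
    · obtain ⟨rfl, rfl⟩ := h
      rw [Matrix.single_apply_same]
      exact ⟨b.2, fun h' => absurd (Le3.refl 1) h'⟩
    · rw [Matrix.single_apply_of_ne _ _ _ _ _ h]
      exact ⟨(BB D i).zero_mem, fun _ => rfl⟩⟩
  map_add' := fun a b => Subtype.ext (Matrix.single_add 1 1 a.1 b.1)
  map_smul' := fun c a => Subtype.ext (by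
    change Matrix.single 1 1 (c • a.1) = c • Matrix.single 1 1 a.1
    rw [Matrix.smul_single])

private theorem BNz_e_mul (a b : BB D 1) : BNz_e D (a * b) = BNz_e D a * BNz_e D b :=
  Subtype.ext (by
    change Matrix.single 1 1 (a.1 * b.1) = Matrix.single 1 1 a.1 * Matrix.single 1 1 b.1
    rw [Matrix.single_mul_single_same])

/-- The character only depends on the entry `1`, `1`. -/
private theorem BNz_chi (χ : Gam D →ₐ[k] k) (h : ∀ g : Gam D, g.1 1 1 = 0 → χ g = 0)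
    (g : Gam D) : χ g = χ (BNz_e D ⟨g.1 1 1, (g.2 1 1).1⟩) := by
  have h1 := h (g - BNz_e D ⟨g.1 1 1, (g.2 1 1).1⟩) (by
    change g.1 1 1 - Matrix.single 1 1 (g.1 1 1) 1 1 = 0
    rw [Matrix.single_apply_same, sub_self])
  rw [map_sub, sub_eq_zero] at h1
  exact h1

/-- The component of a row vector in the summand `O`. -/
private noncomputable def BNz_p : ↥(rowN (F := F.plus) V.plus 1) →ₗ[k] BB D 1 where
  toFun := fun w => ⟨(w.1 1).2.1, (w.2 1).1.2.1⟩
  map_add' := fun _ _ => rfl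
  map_smul' := fun _ _ => rfl

private noncomputable def BNz_b (hV : BSt (F := F.plus) V.plus) (χ : Gam D →ₐ[k] k) :
    (ZL (F := F.plus) V.plus hV).M →ₗ[k] (kapL χ).M →ₗ[k] k :=
  (LinearMap.mul k k).comp (χ.toLinearMap.comp ((BNz_e D).comp ((BNz_p V).comp
    ((LinearMap.snd k ↥(rowN (F := F.plus) V.plus 0) ↥(rowN (F := F.plus) V.plus 1)).comp
      (LinearMap.fst k (↥(rowN (F := F.plus) V.plus 0) × ↥(rowN (F := F.plus) V.plus 1))
        ↥(rowN (F := F.plus) V.plus 2))))))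

private theorem BNz_sum {E : Type*} [AddCommGroup E] [Module D.L E] (x : Fin 3 → D.L)
    (w : Fin 3 → E) (hw : ∀ i, i ≠ 1 → w i = 0) : ∑ i, x i • w i = x 1 • w 1 := by
  rw [Finset.sum_eq_single (1 : Fin 3)]
  · intro i _ hi
    rw [hw i hi, smul_zero]
  · intro h4
    exact absurd (Finset.mem_univ _) h4

private theorem BNz_ne {i : Fin 3} (h : i ≠ 1) : ¬ Le3 i 1 := by
  rintro (h5 | h5)
  · exact h h5
  · exact absurd h5 (by decide)

private theorem BNz_row (g : Gam D) (w : ↥(rowN (F := F.plus) V.plus 1))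
    (h : (rowE (F := F.plus) V.plus).r g w.1 ∈ rowN (F := F.plus) V.plus 1) :
    BNz_p V ⟨(rowE (F := F.plus) V.plus).r g w.1, h⟩ = ⟨g.1 1 1, (g.2 1 1).1⟩ * BNz_p V w :=
  Subtype.ext (congrArg (fun v : F.F × D.L × D.L => v.2.1)
    (BNz_sum (fun i => g.1 i 1) w.1 fun i hi => (w.2 i).2 (BNz_ne hi)))

private theorem BNz_bal (hV : BSt (F := F.plus) V.plus) (χ : Gam D →ₐ[k] k)
    (h : ∀ g : Gam D, g.1 1 1 = 0 → χ g = 0) (z : (ZL (F := F.plus) V.plus hV).M)
    (g : Gam D) (c : k) :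
    BNz_b V hV χ ((ZL (F := F.plus) V.plus hV).r g z) c =
      BNz_b V hV χ z ((kapL χ).l g c) := by
  obtain ⟨⟨w0, w1⟩, w2⟩ := z
  have e1 : BNz_b V hV χ ((ZL (F := F.plus) V.plus hV).r g ((w0, w1), w2)) c =
      χ (BNz_e D (BNz_p V ⟨(rowE (F := F.plus) V.plus).r g w1.1, rowN_r hV 1 g _ w1.2⟩)) * c := by
    have h1 : (ZL (F := F.plus) V.plus hV).r g ((w0, w1), w2) =
        (rowS (F := F.plus) V.plus hV).tri.cr ((g, g), 0) ((w0, w1), w2) := rfl
    rw [h1, Tri.cr_apply]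
    rfl
  have e2 : BNz_b V hV χ ((w0, w1), w2) ((kapL χ).l g c) =
      χ (BNz_e D (BNz_p V w1)) * (χ g * c) := rfl
  have e3 : BNz_p V ⟨(rowE (F := F.plus) V.plus).r g w1.1, rowN_r hV 1 g _ w1.2⟩ =
      ⟨g.1 1 1, (g.2 1 1).1⟩ * BNz_p V w1 := BNz_row V g w1 _
  rw [e1, e2, e3, BNz_e_mul, map_mul, ← BNz_chi χ h]
  ring

private theorem BNz_mem : ((0, 1, 0) : F.F × D.L × D.L) ∈ V.plus.N1 :=
  ⟨V.N1.zero_mem, (A1 D).one_mem, ((LP.OO D).tw 1).N1.zero_mem⟩

private theorem BNz_row_mem : (Pi.single 1 ((0, 1, 0) : F.F × D.L × D.L) : Fin 3 → _) ∈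
    rowN (F := F.plus) V.plus 1 := by
  intro j
  by_cases h : j = 1
  · subst h
    rw [Pi.single_eq_same]
    exact ⟨BNz_mem V, fun h' => absurd (Le3.refl 1) h'⟩
  · rw [Pi.single_eq_of_ne h]
    exact ⟨Submodule.zero_mem _, fun _ => rfl⟩

/-- Proof. For `b ∈ BB D 1` let `e b : Gam D` be the matrix with the entry `b` at `1`, `1` and `0`
elsewhere. Put `φ (tm ((w0, w1), w2) c) = χ (e (w1 1).2.1) * c`: here `w1 ∈ rowN V.plus 1`, so
`w1 1 ∈ V.plus.cp 1` and its component in the summand `O` is in `(LP.OO D).N1 = BB D 1`. `φ` is a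
well defined linear map `SL → k` (`tlift` or `Submodule.liftQ` on the tensor product over `k`,
`rel_ind`): `(w1 g) 1 = g 1 1 • w1 1` (`w1 i = 0` for `i ≠ 1`), `e (g 1 1 * b) = e (g 1 1) * e b`
and `χ g = χ (e (g 1 1))` by `h`. `φ (tm ((0, (0, (0, 1, 0), 0)), 0) 1) = χ (e 1) = χ 1 = 1` by
`h`. So `SL` has a nonzero element, and its differential is zero (`(SL_zero _ _ _ h).d`), so it is
not acyclic. -/
theorem SL_nz (hV : BSt (F := F.plus) V.plus) (χ : Gam D →ₐ[k] k)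
    (h : ∀ g : Gam D, g.1 1 1 = 0 → χ g = 0) : ¬ Acyc (SL (F := F.plus) V.plus hV χ) := by
  intro hA
  have hd := (SL_zero (F := F.plus) V.plus hV χ h).d
  let z : (ZL (F := F.plus) V.plus hV).M :=
    ((0, ⟨Pi.single 1 ((0, 1, 0) : F.F × D.L × D.L), BNz_row_mem V⟩), 0)
  let w : (kapL χ).M := (1 : k)
  let x : (SL (F := F.plus) V.plus hV χ).M := tm z w
  obtain ⟨y, hy⟩ := hA x (hd x)
  rw [hd y] at hy
  have h1 : tlift (BNz_b V hV χ) (BNz_bal V hV χ h) x = 0 := by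
    rw [← hy]
    exact map_zero _
  have h2 : tlift (BNz_b V hV χ) (BNz_bal V hV χ h) x = BNz_b V hV χ z w :=
    tlift_tm _ _ _ _
  have h3 : BNz_b V hV χ z w = χ (BNz_e D 1) * 1 := rfl
  have h4 : χ (BNz_e D 1) = χ 1 := (BNz_chi χ h 1).symm
  rw [h2, h3, h4, map_one, mul_one] at h1
  exact one_ne_zero h1

/-- The matrix with the entry `b` at `1`, `1`. -/
private noncomputable def BNz_e' (D : FExt k) : BB D 1 →ₗ[k] Gam' D where
  toFun := fun b => ⟨Matrix.single 1 1 b.1, fun i j => by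
    by_cases h : 1 = i ∧ 1 = j
    · obtain ⟨rfl, rfl⟩ := h
      rw [Matrix.single_apply_same]
      exact ⟨b.2, fun h' => absurd (Le3.refl 1) h'⟩
    · rw [Matrix.single_apply_of_ne _ _ _ _ _ h]
      exact ⟨(BB D j).zero_mem, fun _ => rfl⟩⟩
  map_add' := fun a b => Subtype.ext (Matrix.single_add 1 1 a.1 b.1)
  map_smul' := fun c a => Subtype.ext (by
    change Matrix.single 1 1 (c • a.1) = c • Matrix.single 1 1 a.1
    rw [Matrix.smul_single])

private theorem BNz_e'_mul (a b : BB D 1) : BNz_e' D (a * b) = BNz_e' D a * BNz_e' D b :=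
  Subtype.ext (by
    change Matrix.single 1 1 (a.1 * b.1) = Matrix.single 1 1 a.1 * Matrix.single 1 1 b.1
    rw [Matrix.single_mul_single_same])

/-- The character only depends on the entry `1`, `1`. -/
private theorem BNz_chi' (χ : Gam' D →ₐ[k] k) (h : ∀ g : Gam' D, g.1 1 1 = 0 → χ g = 0)
    (g : Gam' D) : χ g = χ (BNz_e' D ⟨g.1 1 1, (g.2 1 1).1⟩) := by
  have h1 := h (g - BNz_e' D ⟨g.1 1 1, (g.2 1 1).1⟩) (by
    change g.1 1 1 - Matrix.single 1 1 (g.1 1 1) 1 1 = 0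
    rw [Matrix.single_apply_same, sub_self])
  rw [map_sub, sub_eq_zero] at h1
  exact h1

/-- The value of a column vector at the generator of the summand `O`. -/
private noncomputable def BNz_q : ↥(colN (F := F.plus) V.plus 1) →ₗ[k] BB D 1 where
  toFun := fun w => ⟨w.1 1 ((0, 1, 0) : F.F × D.L × D.L),
    mem_BB1.2 ((LP.mem_dual_N1 (F := F.plus) V.plus (w.1 1)).1 (w.2 1).1 _ (BNz_mem V))⟩
  map_add' := fun _ _ => rfl
  map_smul' := fun _ _ => rfl

private noncomputable def BNz_c (χ : Gam' D →ₐ[k] k) :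
    (kapR χ).M →ₗ[k] (ZR (F := F.plus) V.plus).M →ₗ[k] k :=
  ((LinearMap.mul k k).flip.comp (χ.toLinearMap.comp ((BNz_e' D).comp ((BNz_q V).comp
    ((LinearMap.snd k ↥(colN (F := F.plus) V.plus 0) ↥(colN (F := F.plus) V.plus 1)).comp
      (LinearMap.fst k (↥(colN (F := F.plus) V.plus 0) × ↥(colN (F := F.plus) V.plus 1))
        ↥(colN (F := F.plus) V.plus 2))))))).flip

private theorem BNz_col (g : Gam' D) (w : ↥(colN (F := F.plus) V.plus 1))
    (h : (colE (F := F.plus) V.plus).l g w.1 ∈ colN (F := F.plus) V.plus 1) :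
    BNz_q V ⟨(colE (F := F.plus) V.plus).l g w.1, h⟩ = ⟨g.1 1 1, (g.2 1 1).1⟩ * BNz_q V w :=
  Subtype.ext (congrArg (fun f : (F.F × D.L × D.L) →ₗ[D.L] D.L => f (0, 1, 0))
    (BNz_sum (fun i => g.1 1 i) w.1 fun i hi => (w.2 i).2 (BNz_ne hi)))

private theorem BNz_bal' (χ : Gam' D →ₐ[k] k)
    (h : ∀ g : Gam' D, g.1 1 1 = 0 → χ g = 0) (c : k) (g : Gam' D)
    (z : (ZR (F := F.plus) V.plus).M) :
    BNz_c V χ ((kapR χ).r g c) z = BNz_c V χ c ((ZR (F := F.plus) V.plus).l g z) := by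
  obtain ⟨⟨w0, w1⟩, w2⟩ := z
  have e1 : BNz_c V χ c ((ZR (F := F.plus) V.plus).l g ((w0, w1), w2)) =
      c * χ (BNz_e' D (BNz_q V ⟨(colE (F := F.plus) V.plus).l g w1.1,
        colN_l (F := F.plus) V.plus 1 g _ w1.2⟩)) := by
    have h1 : (ZR (F := F.plus) V.plus).l g ((w0, w1), w2) =
        (colS (F := F.plus) V.plus).tri.cl ((g, g), 0) ((w0, w1), w2) := rfl
    rw [h1, Tri.cl_apply]
    rfl
  have e2 : BNz_c V χ ((kapR χ).r g c) ((w0, w1), w2) =
      (c * χ g) * χ (BNz_e' D (BNz_q V w1)) := rfl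
  have e3 : BNz_q V ⟨(colE (F := F.plus) V.plus).l g w1.1,
        colN_l (F := F.plus) V.plus 1 g _ w1.2⟩ =
      ⟨g.1 1 1, (g.2 1 1).1⟩ * BNz_q V w1 := BNz_col V g w1 _
  rw [e1, e2, e3, BNz_e'_mul, map_mul, ← BNz_chi' χ h]
  ring

/-- The functional `v ↦ v.2.1`. -/
private noncomputable def BNz_f (F : LSp D) : F.plus.F →ₗ[D.L] D.L :=
  (LinearMap.fst D.L D.L D.L).comp (LinearMap.snd D.L F.F (D.L × D.L))

private theorem BNz_col_mem : (Pi.single 1 (BNz_f F) : Fin 3 → (F.plus.F →ₗ[D.L] D.L)) ∈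
    colN (F := F.plus) V.plus 1 := by
  intro j
  by_cases h : j = 1
  · subst h
    rw [Pi.single_eq_same]
    refine ⟨(LP.mem_dual_N1 (F := F.plus) V.plus _).2 fun v hv => ?_,
      fun h' => absurd (Le3.refl 1) h'⟩
    exact hv.2.1
  · rw [Pi.single_eq_of_ne h]
    exact ⟨Submodule.zero_mem _, fun _ => rfl⟩

/-- Proof. The same with `φ (tm c ((w0, w1), w2)) = c * χ (e (w1 1 (0, 1, 0)))`: `w1 1` is in the
dual of `V.plus`, and `(0, 1, 0) ∈ V.plus.N1`. Its value at the column with the entry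
`v ↦ v.2.1` is `1`. -/
theorem SR_nz (χ : Gam' D →ₐ[k] k) (h : ∀ g : Gam' D, g.1 1 1 = 0 → χ g = 0) :
    ¬ Acyc (SR (F := F.plus) V.plus χ) := by
  intro hA
  have hd := (SR_zero (F := F.plus) V.plus χ h).d
  let z : (ZR (F := F.plus) V.plus).M := ((0, ⟨Pi.single 1 (BNz_f F), BNz_col_mem V⟩), 0)
  let w : (kapR χ).M := (1 : k)
  let x : (SR (F := F.plus) V.plus χ).M := tm w z
  obtain ⟨y, hy⟩ := hA x (hd x)
  rw [hd y] at hy
  have h1 : tlift (BNz_c V χ) (BNz_bal' V χ h) x = 0 := by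
    rw [← hy]
    exact map_zero _
  have h2 : tlift (BNz_c V χ) (BNz_bal' V χ h) x = BNz_c V χ w z :=
    tlift_tm _ _ _ _
  have h3 : BNz_c V χ w z = 1 * χ (BNz_e' D 1) := rfl
  have h4 : χ (BNz_e' D 1) = χ 1 := (BNz_chi' χ h 1).symm
  rw [h2, h3, h4, map_one, one_mul] at h1
  exact one_ne_zero h1

end Pool.Agent.MP_6e5bed_ag_KC
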