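import Pool.Agent.Lib.MP_6e5bed_ag_KC.BFlat

set_option autoImplicit false
set_option linter.unusedSectionVars false

/-!
# Compositions of classes (project KC, part B4)
-/

namespace Pool.Agent.MP_6e5bed_ag_NC

open CategoryTheory

universe u

variable {k : Type u} [Field k] {A B W : DGA k}

theorem RPerf.rflat {X : Bim A W} (h : RPerf X) : RFlat X := fun _ _ hY => h.acyc hY

theorem ecl_tb (hW : Proper W) {X : Bim A W} {Y : Bim W B} (hX : HasRes X) (hY : HasRes Y)
    (hf : RFlat X) : HasRes (tb X Y) ∧ K0Q.comp hW (ecl X) (ecl Y) = ecl (tb X Y) := by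
  have h := HasRes.tb hW hX hY hf
  refine ⟨h, ?_⟩
  rw [ecl_eq hX, ecl_eq hY, ecl_eq h]
  exact rcls_tb hW hX hY hf h

/-- Proof. Take a perfect resolution `P → X` (`hX`). `P` is perfect, so `tb P -` preserves acyclic
bimodules (`clos_acycL` or as in `rtb_qiso` in `CV/RTb.lean`), and `ecl_tb` applies to `P` and `Y`;
`ecl P = ecl X` (`ecl_qiso`). `tb P Y → tb X Y` is a quasi-isomorphism, because `Y` is perfect as a
left module (`hf.fex`, `FEx.qiso` for the functor `tbR A Y`). -/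
theorem ecl_tb_lperf (hW : Proper W) {X : Bim A W} {Y : Bim W B} (hX : HasRes X)
    (hY : HasRes Y) (hf : LPerf Y) :
    HasRes (tb X Y) ∧ K0Q.comp hW (ecl X) (ecl Y) = ecl (tb X Y) := by
  obtain ⟨P, φ, hP, hφ⟩ := id hX
  have hfl : RFlat P := fun B' Y' hY' => (clos_acycL hP (rac_iff.2 hY')).acyc
  have hPr : HasRes P := hX.of_qiso' φ hφ
  obtain ⟨h1, h2⟩ := ecl_tb hW hPr hY hfl
  have hq : QIso ((MP_6e5bed_ag_NC.tbR A Y).map φ) := (hf.fex A).qiso φ hφ
  refine ⟨h1.of_qiso _ hq, ?_⟩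
  rw [← ecl_qiso φ hφ, h2]
  exact ecl_qiso _ hq

/-- Proof. `res_tb` and `tb_diag_left`-like isomorphism (`diag W ⊗ X ≅ X`). -/
theorem fgL_diag_tb (X : Bim W B) : BIso (tb (fgL (diag W)) X) (fgL X) := by
  have e1 : BIso (res (DHom.unit W) (DHom.id B) (tb (diag W) X)) (tb (fgL (diag W)) X) :=
    res_tb (DHom.unit W) (DHom.id B) (diag W) X
  have e2 : BIso (res (DHom.unit W) (DHom.id B) (tb (diag W) X)) (fgL X) :=
    (resF (DHom.unit W) (DHom.id B)).biso (tb_diag_left X)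
  exact e1.symm.trans e2

theorem tb_fgR_diag (X : Bim A W) : BIso (tb X (fgR (diag W))) (fgR X) := by
  have e1 : BIso (res (DHom.id A) (DHom.unit W) (tb X (diag W))) (tb X (fgR (diag W))) :=
    res_tb (DHom.id A) (DHom.unit W) X (diag W)
  have e2 : BIso (res (DHom.id A) (DHom.unit W) (tb X (diag W))) (fgR X) :=
    (resF (DHom.id A) (DHom.unit W)).biso (tb_diag_right X)
  exact e1.symm.trans e2

end Pool.Agent.MP_6e5bed_ag_NC
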