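import Pool.Agent.Lib.MP_6e5bed_ag_KC.BPow
import Pool.Agent.Lib.MP_6e5bed_ag_CV.Ring0
import Pool.Agent.Lib.MP_6e5bed_ag_CV.Ses

set_option autoImplicit false
set_option linter.unusedSectionVars false

/-!
# Bimodules over tensor powers of algebras, given by commuting actions (project KC)

`Acts k G G' p q`: a vector space with `p` commuting left actions of `G` and `q` commuting right
actions of `G'`; it is a bimodule over `G ⊗ (G ⊗ ⋯)` and `G' ⊗ (G' ⊗ ⋯)`, concentrated in
degree `0`.
-/

namespace Pool.Agent.MP_6e5bed_ag_NC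

open scoped TensorProduct

universe u

section

variable {k : Type u} [CommRing k]

/-- Everything has degree `0`. -/
def Dg.Zero {V : Type u} [AddCommGroup V] [Module k V] (X : Dg k V) : Prop := ∀ v, X.IsDeg 0 v

theorem Dg.Zero.d {V : Type u} [AddCommGroup V] [Module k V] {X : Dg k V} (h : X.Zero) (v : V) :
    X.d v = 0 := by
  have h1 : X.IsDeg (0 + 1) (X.d v) := (h v).d
  have h2 : X.IsDeg 0 (X.d v) := h _
  have h3 : Finsupp.single ((0 : ℤ) + 1) (X.d v) = Finsupp.single 0 (X.d v) := h1.symm.trans h2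
  have h4 := DFunLike.congr_fun h3 0
  rw [Finsupp.single_eq_same, Finsupp.single_eq_of_ne (by decide)] at h4
  exact h4.symm

theorem Dg.Zero.o {V : Type u} [AddCommGroup V] [Module k V] {X : Dg k V} (h : X.Zero) (v : V) :
    X.o v = 0 := Dg.o_of_even (h v) Even.zero

theorem Dg.Zero.s {V : Type u} [AddCommGroup V] [Module k V] {X : Dg k V} (h : X.Zero) (v : V) :
    X.s v = v := Dg.s_of_even (h.o v)

theorem Dg.Zero.cases {V : Type u} [AddCommGroup V] [Module k V] {X : Dg k V} (h : X.Zero)
    {i : ℤ} {v : V} (hv : X.IsDeg i v) : i = 0 ∨ v = 0 := by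
  by_cases h0 : i = 0
  · exact Or.inl h0
  · have h1 : Finsupp.single (0 : ℤ) v = Finsupp.single i v := (h v).symm.trans hv
    have h2 := DFunLike.congr_fun h1 0
    rw [Finsupp.single_eq_same, Finsupp.single_eq_of_ne (Ne.symm h0)] at h2
    exact Or.inr h2

theorem Dg.conc_zero {V : Type u} [AddCommGroup V] [Module k V] : (Dg.conc k V).Zero :=
  fun v => Dg.conc_deg v

theorem Dg.Zero.tensor {V W : Type u} [AddCommGroup V] [Module k V] [AddCommGroup W] [Module k W]
    {X : Dg k V} {Y : Dg k W} (hX : X.Zero) (hY : Y.Zero) : (X.tensor Y).Zero := by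
  intro v
  induction v using TensorProduct.induction_on with
  | zero => exact Dg.IsDeg.zero 0
  | add x y hx hy => exact hx.add hy
  | tmul x y =>
    have h := Dg.tensor_deg (hX x) (hY y)
    rwa [add_zero] at h

end

section

variable {k : Type u} [Field k] {G G' : Type u} [Ring G] [Algebra k G] [Ring G'] [Algebra k G']

theorem pw_zero (n : ℕ) : (pw (ring k G) n).dg.Zero := by
  induction n with
  | zero =>
    intro v
    exact base_deg (k := k) v
  | succ n ih => exact Dg.Zero.tensor (X := (ring k G).dg) Dg.conc_zero ih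

theorem pw_mul_tmul (n : ℕ) (a b : G) (x y : (pw (ring k G) n).A) :
    (pw (ring k G) (n + 1)).mul (a ⊗ₜ[k] x : G ⊗[k] (pw (ring k G) n).A) (b ⊗ₜ[k] y :
      G ⊗[k] (pw (ring k G) n).A) =
      ((a * b) ⊗ₜ[k] ((pw (ring k G) n).mul x y) : G ⊗[k] (pw (ring k G) n).A) := by
  have h1 : (ring k G).dg.o b = 0 := Dg.Zero.o (X := (ring k G).dg) Dg.conc_zero b
  exact kz_even' (α := (ring k G).mul) (β := (pw (ring k G) n).mul) h1 a x y

variable (k G G') in
/-- A vector space with `p` commuting left actions of `G` and `q` commuting right actions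
of `G'` (`r i b m` is `m b`). -/
structure Acts (p q : ℕ) where
  V : Type u
  [grp : AddCommGroup V]
  [mod : Module k V]
  l : Fin p → G →ₗ[k] V →ₗ[k] V
  r : Fin q → G' →ₗ[k] V →ₗ[k] V
  l_one : ∀ i m, l i 1 m = m
  r_one : ∀ i m, r i 1 m = m
  l_mul : ∀ i a b m, l i (a * b) m = l i a (l i b m)
  r_mul : ∀ i a b m, r i (a * b) m = r i b (r i a m)
  l_l : ∀ i j, i ≠ j → ∀ a b m, l i a (l j b m) = l j b (l i a m)
  r_r : ∀ i j, i ≠ j → ∀ a b m, r i a (r j b m) = r j b (r i a m)
  l_r : ∀ i j a b m, l i a (r j b m) = r j b (l i a m)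

attribute [instance] Acts.grp Acts.mod

section act

variable {V : Type u} [AddCommGroup V] [Module k V]

/-- The combined action of `G ⊗ (G ⊗ ⋯)`. -/
noncomputable def lact : (p : ℕ) → (Fin p → G →ₗ[k] V →ₗ[k] V) →
    ((pw (ring k G) p).A →ₗ[k] V →ₗ[k] V)
  | 0, _ => LinearMap.lsmul k V
  | p + 1, l => TensorProduct.lift
      ((LinearMap.llcomp k V V V).flip.comp (lact p fun i => l i.succ) |>.flip.comp (l 0))

/-- The combined right action. -/
noncomputable abbrev ract (p : ℕ) (r : Fin p → G →ₗ[k] V →ₗ[k] V) :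
    ((pw (ring k G) p).A →ₗ[k] V →ₗ[k] V) := lact p r

@[simp] theorem lact_zero (l : Fin 0 → G →ₗ[k] V →ₗ[k] V) (c : k) (m : V) :
    lact 0 l c m = c • m := rfl

@[simp] theorem lact_tmul (p : ℕ) (l : Fin (p + 1) → G →ₗ[k] V →ₗ[k] V) (a : G)
    (x : (pw (ring k G) p).A) (m : V) :
    lact (p + 1) l (a ⊗ₜ[k] x : G ⊗[k] (pw (ring k G) p).A) m =
      l 0 a (lact p (fun i => l i.succ) x m) := rfl

theorem pw_ind {n : ℕ} {P : (pw (ring k G) (n + 1)).A → Prop} (h0 : P 0)
    (hadd : ∀ x y, P x → P y → P (x + y))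
    (h : ∀ (a : G) (x : (pw (ring k G) n).A), P (a ⊗ₜ[k] x : G ⊗[k] (pw (ring k G) n).A))
    (x : (pw (ring k G) (n + 1)).A) : P x :=
  TensorProduct.induction_on (motive := P) x h0 h hadd

theorem lact_comm (p : ℕ) (l : Fin p → G →ₗ[k] V →ₗ[k] V) (f : V →ₗ[k] V)
    (h : ∀ i a m, f (l i a m) = l i a (f m)) (x : (pw (ring k G) p).A) (m : V) :
    f (lact p l x m) = lact p l x (f m) := by
  induction p generalizing m with
  | zero => exact f.map_smul x m
  | succ p ih =>
    refine pw_ind (P := fun x => f (lact (p + 1) l x m) = lact (p + 1) l x (f m)) ?_ ?_ ?_ x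
    · simp
    · intro x y hx hy
      rw [map_add, LinearMap.add_apply, map_add, hx, hy, LinearMap.add_apply]
    · intro a x
      rw [lact_tmul, lact_tmul, h, ih _ (fun i a m => h i.succ a m)]

theorem lact_one (p : ℕ) (l : Fin p → G →ₗ[k] V →ₗ[k] V) (h1 : ∀ i m, l i 1 m = m) (m : V) :
    lact p l (pw (ring k G) p).one m = m := by
  induction p with
  | zero => exact one_smul k m
  | succ p ih =>
    have h := lact_tmul p l 1 (pw (ring k G) p).one m
    rw [h1, ih _ (fun i m => h1 i.succ m)] at h
    exact h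

theorem lact_mul (p : ℕ) (l : Fin p → G →ₗ[k] V →ₗ[k] V)
    (hm : ∀ i a b m, l i (a * b) m = l i a (l i b m))
    (hc : ∀ i j, i ≠ j → ∀ a b m, l i a (l j b m) = l j b (l i a m))
    (x y : (pw (ring k G) p).A) (m : V) :
    lact p l ((pw (ring k G) p).mul x y) m = lact p l x (lact p l y m) := by
  induction p with
  | zero =>
    have h : ∀ x y : k, (x * y) • m = x • y • m := fun x y => mul_smul x y m
    exact h x y
  | succ p ih =>
    refine pw_ind (P := fun x => lact (p + 1) l ((pw (ring k G) (p + 1)).mul x y) m =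
      lact (p + 1) l x (lact (p + 1) l y m)) ?_ ?_ ?_ x
    · simp
    · intro x x' hx hx'
      rw [map_add, LinearMap.add_apply, map_add, LinearMap.add_apply, hx, hx', map_add,
        LinearMap.add_apply]
    · intro a x
      refine pw_ind (P := fun y => lact (p + 1) l ((pw (ring k G) (p + 1)).mul
        (a ⊗ₜ[k] x : G ⊗[k] (pw (ring k G) p).A) y) m =
        lact (p + 1) l (a ⊗ₜ[k] x : G ⊗[k] (pw (ring k G) p).A) (lact (p + 1) l y m)) ?_ ?_ ?_ y
      · simp
      · intro y y' hy hy'
        rw [map_add, map_add, LinearMap.add_apply, hy, hy', map_add, LinearMap.add_apply, map_add]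
      · intro b y
        rw [pw_mul_tmul, lact_tmul, lact_tmul, lact_tmul, hm,
          ih _ (fun i a b m => hm i.succ a b m)
            (fun i j hij a b m => hc i.succ j.succ (fun h => hij (Fin.succ_injective _ h)) a b m)]
        congr 1
        exact lact_comm p (fun i => l i.succ) (l 0 b)
          (fun i a m => hc 0 i.succ (Fin.succ_ne_zero i).symm b a m) x _

theorem lact_mul' (p : ℕ) (l : Fin p → G →ₗ[k] V →ₗ[k] V)
    (hm : ∀ i a b m, l i (a * b) m = l i b (l i a m))
    (hc : ∀ i j, i ≠ j → ∀ a b m, l i a (l j b m) = l j b (l i a m))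
    (x y : (pw (ring k G) p).A) (m : V) :
    lact p l ((pw (ring k G) p).mul x y) m = lact p l y (lact p l x m) := by
  induction p with
  | zero =>
    have h : ∀ x y : k, (x * y) • m = y • x • m := fun x y => by rw [mul_comm, mul_smul]
    exact h x y
  | succ p ih =>
    refine pw_ind (P := fun x => lact (p + 1) l ((pw (ring k G) (p + 1)).mul x y) m =
      lact (p + 1) l y (lact (p + 1) l x m)) ?_ ?_ ?_ x
    · simp
    · intro x x' hx hx'
      rw [map_add, LinearMap.add_apply, map_add, LinearMap.add_apply, hx, hx', map_add,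
        LinearMap.add_apply, map_add]
    · intro a x
      refine pw_ind (P := fun y => lact (p + 1) l ((pw (ring k G) (p + 1)).mul
        (a ⊗ₜ[k] x : G ⊗[k] (pw (ring k G) p).A) y) m =
        lact (p + 1) l y (lact (p + 1) l (a ⊗ₜ[k] x : G ⊗[k] (pw (ring k G) p).A) m)) ?_ ?_ ?_ y
      · simp
      · intro y y' hy hy'
        rw [map_add, map_add, LinearMap.add_apply, hy, hy', map_add, LinearMap.add_apply]
      · intro b y
        rw [pw_mul_tmul, lact_tmul, lact_tmul, lact_tmul, hm,
          ih _ (fun i a b m => hm i.succ a b m)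
            (fun i j hij a b m => hc i.succ j.succ (fun h => hij (Fin.succ_injective _ h)) a b m)]
        congr 1
        exact lact_comm p (fun i => l i.succ) (l 0 a)
          (fun i b m => hc 0 i.succ (Fin.succ_ne_zero i).symm a b m) y _

end act

namespace Acts

variable {p q : ℕ}

/-- The bimodule over the tensor powers. -/
noncomputable def bim (E : Acts k G G' p q) : Bim (pw (ring k G) p) (pw (ring k G') q) where
  M := E.V
  dg := Dg.conc k E.V
  l := lact p E.l
  r := lact q E.r
  l_one := lact_one p E.l E.l_one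
  r_one := lact_one q E.r E.r_one
  l_mul := lact_mul p E.l E.l_mul E.l_l
  r_mul := lact_mul' q E.r E.r_mul E.r_r
  l_r := fun a b m => by
    refine lact_comm q E.r (lact p E.l a) (fun i b m => ?_) b m
    exact (lact_comm p E.l (E.r i b) (fun j a m => (E.l_r j i a b m).symm) a m).symm
  l_deg := fun {i j a m} ha hm => by
    rcases (pw_zero p).cases ha with rfl | rfl
    · rcases Dg.conc_cases hm with rfl | rfl
      · exact Dg.conc_deg _
      · rw [map_zero]
        exact Dg.IsDeg.zero _
    · rw [map_zero, LinearMap.zero_apply]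
      exact Dg.IsDeg.zero _
  r_deg := fun {i j b m} hm hb => by
    rcases (pw_zero q).cases hb with rfl | rfl
    · rcases Dg.conc_cases hm with rfl | rfl
      · exact Dg.conc_deg _
      · rw [map_zero]
        exact Dg.IsDeg.zero _
    · rw [map_zero, LinearMap.zero_apply]
      exact Dg.IsDeg.zero _
  d_l := fun a m => by
    rw [(pw_zero p).d a, map_zero, LinearMap.zero_apply, zero_add]
    change (0 : E.V) = lact p E.l _ (0 : E.V)
    rw [map_zero]
  d_r := fun b m => by
    rw [(pw_zero q).d b, map_zero, LinearMap.zero_apply, add_zero]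
    change (0 : E.V) = lact q E.r _ (0 : E.V)
    rw [map_zero]

/-- An equivariant linear map. -/
structure Hom (E E' : Acts k G G' p q) where
  f : E.V →ₗ[k] E'.V
  l : ∀ i a m, f (E.l i a m) = E'.l i a (f m)
  r : ∀ i b m, f (E.r i b m) = E'.r i b (f m)

theorem lact_hom {V V' : Type u} [AddCommGroup V] [Module k V] [AddCommGroup V'] [Module k V']
    (p : ℕ) (l : Fin p → G →ₗ[k] V →ₗ[k] V) (l' : Fin p → G →ₗ[k] V' →ₗ[k] V')
    (f : V →ₗ[k] V') (h : ∀ i a m, f (l i a m) = l' i a (f m)) (x : (pw (ring k G) p).A) (m : V) :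
    f (lact p l x m) = lact p l' x (f m) := by
  induction p generalizing m with
  | zero => exact f.map_smul x m
  | succ p ih =>
    refine pw_ind (P := fun x => f (lact (p + 1) l x m) = lact (p + 1) l' x (f m)) ?_ ?_ ?_ x
    · simp
    · intro x y hx hy
      rw [map_add, LinearMap.add_apply, map_add, hx, hy, map_add, LinearMap.add_apply]
    · intro a x
      rw [lact_tmul, lact_tmul, h, ih _ _ (fun i a m => h i.succ a m)]

/-- The morphism of bimodules. -/
noncomputable def Hom.gmap {E E' : Acts k G G' p q} (f : Hom E E') : GMap 0 E.bim E'.bim where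
  f := f.f
  deg := fun {i m} hm => by
    rw [add_zero]
    rcases Dg.conc_cases hm with rfl | rfl
    · exact Dg.conc_deg _
    · rw [map_zero]
      exact Dg.IsDeg.zero _
  map_l := fun a m => by
    rw [Dg.sp_zero]
    exact lact_hom p E.l E'.l f.f f.l a m
  map_r := fun b m => lact_hom q E.r E'.r f.f f.r b m

theorem Hom.gmap_dd {E E' : Acts k G G' p q} (f : Hom E E') : f.gmap.dd = 0 := by
  refine LinearMap.ext fun x => ?_
  rw [GMap.dd_apply, sg_zero, one_smul, LinearMap.zero_apply, sub_eq_zero]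
  change (0 : E'.V) = f.f (0 : E.V)
  rw [map_zero]

theorem biso {E E' : Acts k G G' p q} (f : Hom E E') (h : Function.Bijective f.f) :
    BIso E.bim E'.bim := BIso.of_bij f.gmap f.gmap_dd h

theorem ses {E' E E'' : Acts k G G' p q} (i : Hom E' E) (g : Hom E E'')
    (hi : Function.Injective i.f) (hg : Function.Surjective g.f)
    (he : ∀ x, g.f x = 0 ↔ ∃ y, i.f y = x) : IsSes E'.bim E.bim E''.bim :=
  ⟨i.gmap, g.gmap, i.gmap_dd, g.gmap_dd, hi, hg, he⟩

end Acts

end

end Pool.Agent.MP_6e5bed_ag_NC
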