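import Pool.Agent.Lib.MP_6e5bed_ag_KC.BFlat
import Pool.Agent.Lib.MP_6e5bed_ag_KC.OA
import Pool.Agent.Lib.MP_6e5bed_ag_CV.FCRes
import Pool.Agent.Lib.MP_6e5bed_ag_CV.ClsTors

set_option autoImplicit false
set_option linter.unusedSectionVars false

/-!
# Finite-dimensional complexes in degree zero (project KC, part B4)
-/

namespace Pool.Agent.MP_6e5bed_ag_NC

open CategoryTheory

universe u

variable {k : Type u} [Field k] {A B W : DGA k}

/-- A vector space as a bimodule. -/
private noncomputable def BUb_U (k : Type u) [Field k] (V : Type u) [AddCommGroup V]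
    [Module k V] : KBi k k k where
  M := V
  l := (LinearMap.lsmul k V : k →ₗ[k] V →ₗ[k] V)
  r := (LinearMap.lsmul k V : k →ₗ[k] V →ₗ[k] V)
  l_one := fun m => one_smul k m
  r_one := fun m => one_smul k m
  l_mul := fun a b m => mul_smul a b m
  r_mul := fun a b m => by
    rw [mul_comm]
    exact mul_smul b a m
  l_r := fun a b m => smul_comm a b m

private noncomputable abbrev BUb_B (k : Type u) [Field k] (V : Type u) [AddCommGroup V]
    [Module k V] : Bim (base k) (base k) := (BUb_U k V).bim

private theorem BUb_has (V : Type u) [AddCommGroup V] [Module k V] [hf : Module.Finite k V] :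
    HasRes (BUb_B k V) := by
  refine HasRes.of_finCoh_base ?_
  have : Module.Finite k (BUb_B k V).M := hf
  unfold Dg.FinCoh
  infer_instance

private theorem BUb_ses {V' V V'' : Type u} [AddCommGroup V'] [Module k V'] [AddCommGroup V]
    [Module k V] [AddCommGroup V''] [Module k V''] (i : V' →ₗ[k] V) (p : V →ₗ[k] V'')
    (hi : Function.Injective i) (hp : Function.Surjective p)
    (h : ∀ x, p x = 0 ↔ ∃ y, i y = x) : IsSes (BUb_B k V') (BUb_B k V) (BUb_B k V'') := by
  have h1 : KBi.IsSes (BUb_U k V') (BUb_U k V) (BUb_U k V'') :=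
    ⟨i, p, hi, hp, h, fun a x => map_smul i a x, fun a x => map_smul i a x,
      fun a x => map_smul p a x, fun a x => map_smul p a x⟩
  exact h1.bim (DHom.id (ring k k)) (DHom.id (ring k k))

private theorem BUb_one : ecl (BUb_B k k) = ecl (diag (base k)) :=
  ecl_iso (BIso.ofBase (V := BUb_B k k) (W := diag (base k)) LinearMap.id
    (fun h => h) (fun _ => rfl) Function.bijective_id)

private theorem BUb_fin (n : ℕ) :
    ecl (BUb_B k (Fin n → k)) = (n : ℚ) • ecl (diag (base k)) := by
  induction n with
  | zero =>
    have h : Acyc (BUb_B k (Fin 0 → k)) := fun x _ =>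
      ⟨x, @Subsingleton.elim (Fin 0 → k) inferInstance _ _⟩
    rw [ecl_acyc h, Nat.cast_zero, zero_smul]
  | succ n ih =>
    have h := BUb_ses (k := k) (V' := k) (V := Fin (n + 1) → k) (V'' := Fin n → k)
      (LinearMap.single k (fun _ : Fin (n + 1) => k) 0) (LinearMap.funLeft k k Fin.succ)
      (Pi.single_injective (M := fun _ : Fin (n + 1) => k) 0)
      (LinearMap.funLeft_surjective_of_injective k k Fin.succ (Fin.succ_injective n)) (by
        intro x
        constructor
        · intro hx
          refine ⟨x 0, funext fun j => ?_⟩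
          refine Fin.cases ?_ (fun j => ?_) j
          · exact Pi.single_eq_same (M := fun _ : Fin (n + 1) => k) 0 (x 0)
          · have h1 : x j.succ = 0 := congrFun hx j
            rw [h1]
            exact Pi.single_eq_of_ne (Fin.succ_ne_zero j) (x 0)
        · rintro ⟨y, rfl⟩
          funext j
          exact Pi.single_eq_of_ne (M := fun _ : Fin (n + 1) => k) (Fin.succ_ne_zero j) y)
    rw [ecl_ses h (BUb_has k) (BUb_has (Fin n → k)), ih, BUb_one]
    push_cast
    rw [add_smul, one_smul, add_comm]

/-- Proof. Induction on the dimension (or a basis): `M` has `d = 0` and is concentrated in degree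
`0`, the actions of `base k` are by scalars (`base_l`, `base_r`), so a basis gives an isomorphism
of `M` with a direct sum of copies of `diag (base k)`; `ecl_ses` or `ecl_acyc` for `M = 0`. -/
theorem ecl_base_fd (M : Bim (base k) (base k)) (h0 : M.dg.Zero) (hf : Module.Finite k M.M) :
    ecl M = (Module.finrank k M.M : ℚ) • ecl (diag (base k)) := by
  have hb := Module.finBasis k M.M
  rw [← BUb_fin (k := k) (Module.finrank k M.M)]
  refine ecl_iso (BIso.ofBase (V := M) (W := BUb_B k (Fin (Module.finrank k M.M) → k))
    hb.equivFun.toLinearMap (fun {i v} hv => ?_) (fun v => ?_) hb.equivFun.bijective)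
  · rcases h0.cases hv with rfl | rfl
    · exact Dg.conc_deg _
    · have h1 : hb.equivFun 0 = 0 := map_zero hb.equivFun
      change (Dg.conc k (Fin (Module.finrank k M.M) → k)).IsDeg i (hb.equivFun 0)
      rw [h1]
      exact Dg.IsDeg.zero _
  · rw [h0.d]
    exact (map_zero hb.equivFun).symm

end Pool.Agent.MP_6e5bed_ag_NC
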