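import Pool.Agent.Lib.MP_6e5bed_ag_KC.BEnd
import Pool.Agent.Lib.MP_6e5bed_ag_KC.BUa
import Pool.Agent.Lib.MP_6e5bed_ag_KC.BUb
import Pool.Agent.Lib.MP_6e5bed_ag_CV.CorPerf

set_option autoImplicit false
set_option linter.unusedSectionVars false

/-!
# Projectors which annihilate a finite-dimensional module (project KC, part B4)
-/

namespace Pool.Agent.MP_6e5bed_ag_NC

open CategoryTheory

universe u

variable {k : Type u} [Field k] {A B W : DGA k}

private theorem BU_unit (A : DGA k) : (DHom.unit (base k)).comp (DHom.unit A) = DHom.unit A :=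
  DHom.ext fun (c : k) => by
    change (c • (1 : k)) • A.one = c • A.one
    rw [smul_eq_mul, mul_one]

private theorem BU_idc {A B : DGA k} (φ : DHom A B) : (DHom.id A).comp φ = φ :=
  DHom.ext fun _ => rfl

private theorem BU_fgL (M : Bim A B) : fgL (fgL M) = fgL M := by
  change res ((DHom.unit (base k)).comp (DHom.unit A)) ((DHom.id B).comp (DHom.id B)) M =
    res (DHom.unit A) (DHom.id B) M
  rw [BU_unit, BU_idc]

private theorem BU_fgR (M : Bim A B) : fgR (fgR M) = fgR M := by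
  change res ((DHom.id A).comp (DHom.id A)) ((DHom.unit (base k)).comp (DHom.unit B)) M =
    res (DHom.id A) (DHom.unit B) M
  rw [BU_unit, BU_idc]

private theorem BU_rperf (W : DGA k) : RPerf (fgL (diag W)) := by
  unfold RPerf
  rw [BU_fgL]
  exact perf_fgL_diag W

private theorem BU_lperf (W : DGA k) : LPerf (fgR (diag W)) := by
  unfold LPerf
  rw [BU_fgR]
  exact perf_fgR_diag W

private theorem BU_finCoh {A B : DGA k} (M : Bim A B) (hM : Module.Finite k M.M) :
    M.dg.FinCoh := by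
  have : Module.Finite k M.M := hM
  unfold Dg.FinCoh
  infer_instance

private theorem BU_one : (ecl (diag (base k)) : SP.base k ⟶ SP.base k) = 𝟙 (SP.base k) := by
  have h : HasRes (diag (base k)) := HasRes.of_finCoh smooth_base smooth_base _
    ((proper_iff (base k)).1 proper_base)
  exact (ecl_eq h).trans (rcls_diag smooth_base proper_base h)

private theorem BU_acyc {A B : DGA k} (S : Bim A B) (hf : Module.Finite k S.M) (hr : Module.finrank k S.M = 0) : ecl S = 0 := by
  have h1 : Subsingleton S.M := Module.finrank_zero_iff.1 hr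
  exact ecl_acyc fun x _ => ⟨x, Subsingleton.elim _ _⟩

/-- Proof. `S` has a perfect resolution (`HasRes.of_finCoh`, `T` is smooth). Let
`r = finrank S.M`. If `r = 0`, `S` is acyclic and `ecl S = 0`; take `u = 𝟙`. Otherwise
`u = 𝟙 T - r⁻¹ • (ecl S ≫ ecl (fgL (diag T.alg)))`: `ecl (fgL (diag T.alg)) ≫ ecl S` is
`ecl (tb (fgL (diag T.alg)) S)` (`ecl_tb`, `fgL (diag T.alg)` is perfect, so `RPerf`, as
`fgL (fgL M) = fgL M` up to an isomorphism), which is `ecl (fgL S) = r • ecl (diag (base k))`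
(`fgL_diag_tb`, `ecl_base_fd`), and `ecl (diag (base k)) = 𝟙` (`rcls_diag`, `SP.id_def`).
`𝟙 - u` is in `FIN` (`JS.comp base_proper rfl`). -/
theorem exists_uL (T : SP k) (S : Bim T.alg (base k)) (h0 : S.dg.Zero)
    (hf : Module.Finite k S.M) :
    ∃ u : T ⟶ T, u ≫ (ecl S : T ⟶ SP.base k) = 0 ∧
      (𝟙 T - u : K0Q T.alg T.alg) ∈ FIN T.alg := by
  by_cases hr : Module.finrank k S.M = 0
  · refine ⟨𝟙 T, ?_, ?_⟩
    · rw [Category.id_comp]
      exact BU_acyc S hf hr
    · have h1 : (𝟙 T - 𝟙 T : K0Q T.alg T.alg) = 0 := sub_self _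
      rw [h1]
      exact Submodule.zero_mem _
  · have hS : HasRes S := HasRes.of_finCoh T.smooth smooth_base S (BU_finCoh S hf)
    have hD : HasRes (fgL (diag T.alg)) := (perf_fgL_diag T.alg).hasRes
    obtain ⟨-, h1⟩ := ecl_tb T.proper hD hS (BU_rperf T.alg).rflat
    let s : T ⟶ SP.base k := ecl S
    let f : SP.base k ⟶ T := ecl (fgL (diag T.alg))
    have h2 : f ≫ s = (Module.finrank k S.M : ℚ) • 𝟙 (SP.base k) := by
      rw [← BU_one]
      refine h1.trans ?_
      rw [ecl_iso (fgL_diag_tb S)]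
      exact ecl_base_fd (fgL S) h0 hf
    refine ⟨𝟙 T - (Module.finrank k S.M : ℚ)⁻¹ • (s ≫ f), ?_, ?_⟩
    · change (𝟙 T - (Module.finrank k S.M : ℚ)⁻¹ • (s ≫ f)) ≫ s = 0
      rw [Preadditive.sub_comp, Category.id_comp, Linear.smul_comp, Category.assoc, h2,
        Linear.comp_smul, Category.comp_id, smul_smul,
        inv_mul_cancel₀ (Nat.cast_ne_zero.2 hr), one_smul, sub_self]
    · have h3 : 𝟙 T - (𝟙 T - (Module.finrank k S.M : ℚ)⁻¹ • (s ≫ f)) =
          (Module.finrank k S.M : ℚ)⁻¹ • (s ≫ f) := sub_sub_cancel _ _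
      have h4 : (s ≫ f : K0Q T.alg T.alg) ∈ FIN T.alg :=
        JS.comp (Good := fun X => X = base k) base_proper rfl s f
      have h5 := Submodule.smul_mem (FIN T.alg) (Module.finrank k S.M : ℚ)⁻¹ h4
      exact Eq.mpr (congrArg (fun z : K0Q T.alg T.alg => z ∈ FIN T.alg) h3) h5

/-- Proof. The same with `u = 𝟙 T - r⁻¹ • (ecl (fgR (diag T.alg)) ≫ ecl S)` and `ecl_tb_lperf`. -/
theorem exists_uR (T : SP k) (S : Bim (base k) T.alg) (h0 : S.dg.Zero)
    (hf : Module.Finite k S.M) :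
    ∃ u : T ⟶ T, (ecl S : SP.base k ⟶ T) ≫ u = 0 ∧
      (𝟙 T - u : K0Q T.alg T.alg) ∈ FIN T.alg := by
  by_cases hr : Module.finrank k S.M = 0
  · refine ⟨𝟙 T, ?_, ?_⟩
    · rw [Category.comp_id]
      exact BU_acyc S hf hr
    · have h1 : (𝟙 T - 𝟙 T : K0Q T.alg T.alg) = 0 := sub_self _
      rw [h1]
      exact Submodule.zero_mem _
  · have hS : HasRes S := HasRes.of_finCoh smooth_base T.smooth S (BU_finCoh S hf)
    have hD : HasRes (fgR (diag T.alg)) := (perf_fgR_diag T.alg).hasRes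
    obtain ⟨-, h1⟩ := ecl_tb_lperf T.proper hS hD (BU_lperf T.alg)
    let s : SP.base k ⟶ T := ecl S
    let f : T ⟶ SP.base k := ecl (fgR (diag T.alg))
    have h2 : s ≫ f = (Module.finrank k S.M : ℚ) • 𝟙 (SP.base k) := by
      rw [← BU_one]
      refine h1.trans ?_
      rw [ecl_iso (tb_fgR_diag S)]
      exact ecl_base_fd (fgR S) h0 hf
    refine ⟨𝟙 T - (Module.finrank k S.M : ℚ)⁻¹ • (f ≫ s), ?_, ?_⟩
    · change s ≫ (𝟙 T - (Module.finrank k S.M : ℚ)⁻¹ • (f ≫ s)) = 0
      rw [Preadditive.comp_sub, Category.comp_id, Linear.comp_smul, ← Category.assoc, h2,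
        Linear.smul_comp, Category.id_comp, smul_smul,
        inv_mul_cancel₀ (Nat.cast_ne_zero.2 hr), one_smul, sub_self]
    · have h3 : 𝟙 T - (𝟙 T - (Module.finrank k S.M : ℚ)⁻¹ • (f ≫ s)) =
          (Module.finrank k S.M : ℚ)⁻¹ • (f ≫ s) := sub_sub_cancel _ _
      have h4 : (f ≫ s : K0Q T.alg T.alg) ∈ FIN T.alg :=
        JS.comp (Good := fun X => X = base k) base_proper rfl f s
      have h5 := Submodule.smul_mem (FIN T.alg) (Module.finrank k S.M : ℚ)⁻¹ h4
      exact Eq.mpr (congrArg (fun z : K0Q T.alg T.alg => z ∈ FIN T.alg) h3) h5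

end Pool.Agent.MP_6e5bed_ag_NC
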