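import Pool.Agent.Lib.MP_6e5bed_ag_KC.LMor

set_option autoImplicit false
set_option linter.unusedSectionVars false

/-!
# The character of the point at infinity (project KC, part B5)
-/

namespace Pool.Agent.MP_6e5bed_ag_KC

open RatFunc
open Pool.Agent.MP_6e5bed_ag_NC

universe u

variable {k : Type u} [Field k] {D : FExt k} {ι : Type} [DecidableEq ι]

/-- The values at `x₀` of the functions on the chart `1`. -/
def IsChi (P : Ideal (A1 D)) (χ : Gam D →ₐ[k] k) : Prop :=
  ∀ g : Gam D, g.1 1 1 - algebraMap k D.L (χ g) ∈ pL P 1 1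

/-- The same for `Gam'`. -/
def IsChi' (P : Ideal (A1 D)) (χ : Gam' D →ₐ[k] k) : Prop :=
  ∀ g : Gam' D, g.1 1 1 - algebraMap k D.L (χ g) ∈ pL P 1 1

/-- the constants in `A1 D` -/
private noncomputable def LChar_c (D : FExt k) : k →+* A1 D where
  toFun r := ⟨algebraMap k D.L r, (BB D 1).algebraMap_mem r⟩
  map_one' := Subtype.ext (map_one _)
  map_mul' _ _ := Subtype.ext (map_mul _ _ _)
  map_zero' := Subtype.ext (map_zero _)
  map_add' _ _ := Subtype.ext (map_add _ _ _)

private theorem LChar_kk (P : Ideal (A1 D))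
    (hP : (⟨(tt D)⁻¹, tt_inv_mem_BB1 D⟩ : A1 D) ∈ P) (c : kk k X⁻¹) :
    ∃ r : k, Ideal.Quotient.mk P (algebraMap (kk k X⁻¹) (A1 D) c) =
      Ideal.Quotient.mk P (LChar_c D r) := by
  obtain ⟨c, hc⟩ := c
  refine Algebra.adjoin_induction (p := fun c hc => ∃ r : k,
    Ideal.Quotient.mk P (algebraMap (kk k X⁻¹) (A1 D) ⟨c, hc⟩) =
      Ideal.Quotient.mk P (LChar_c D r)) ?_ ?_ ?_ ?_ hc
  · intro x hx
    rw [Set.mem_singleton_iff] at hx
    subst hx
    refine ⟨0, ?_⟩
    rw [map_zero, map_zero, Ideal.Quotient.eq_zero_iff_mem]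
    have e : algebraMap (kk k X⁻¹) (A1 D)
        ⟨(X : RatFunc k)⁻¹, Algebra.subset_adjoin (Set.mem_singleton _)⟩ =
        (⟨(tt D)⁻¹, tt_inv_mem_BB1 D⟩ : A1 D) := by
      refine Subtype.ext ?_
      change algebraMap (RatFunc k) D.L (X⁻¹) = _
      rw [map_inv₀]
      rfl
    rw [e]
    exact hP
  · intro r
    refine ⟨r, ?_⟩
    congr 1
    refine Subtype.ext ?_
    change algebraMap (RatFunc k) D.L (algebraMap k (RatFunc k) r) = algebraMap k D.L r
    rw [← IsScalarTower.algebraMap_apply]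
  · rintro x y hx hy ⟨r, hr⟩ ⟨s, hs⟩
    refine ⟨r + s, ?_⟩
    rw [map_add, map_add, ← hr, ← hs, ← map_add, ← map_add]
    rfl
  · rintro x y hx hy ⟨r, hr⟩ ⟨s, hs⟩
    refine ⟨r * s, ?_⟩
    rw [map_mul, map_mul, ← hr, ← hs, ← map_mul, ← map_mul]
    rfl

private theorem LChar_gen {R Q : Type u} [CommRing R] [CommRing Q] [IsDomain Q] [IsAlgClosed k]
    (φ : k →+* Q) (ψ : R →+* Q) (h : ∀ c, ∃ r, ψ c = φ r) (x : Q) (p : Polynomial R)
    (hp : p.Monic) (hp' : Polynomial.eval₂ ψ x p = 0) : ∃ r, x = φ r := by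
  have h3 : p.map ψ ∈ Polynomial.lifts φ := by
    rw [Polynomial.lifts_iff_coeff_lifts]
    intro n
    rw [Polynomial.coeff_map]
    obtain ⟨r, hr⟩ := h (p.coeff n)
    exact ⟨r, hr.symm⟩
  obtain ⟨q, hq, -, hqm⟩ := Polynomial.lifts_and_degree_eq_and_monic h3 (hp.map ψ)
  have h4 : Polynomial.eval₂ φ x q = 0 := by
    rw [← Polynomial.eval_map, hq, Polynomial.eval_map]
    exact hp'
  rw [(IsAlgClosed.splits q).eq_prod_roots_of_monic hqm, Polynomial.eval₂_multiset_prod,
    Multiset.map_map, Multiset.prod_eq_zero_iff, Multiset.mem_map] at h4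
  obtain ⟨r, -, hr⟩ := h4
  refine ⟨r, ?_⟩
  rw [Function.comp_apply, Polynomial.eval₂_sub, Polynomial.eval₂_X, Polynomial.eval₂_C] at hr
  exact sub_eq_zero.1 hr

private theorem LChar_surj [IsAlgClosed k] (P : Ideal (A1 D)) (hM : P.IsMaximal)
    (hP : (⟨(tt D)⁻¹, tt_inv_mem_BB1 D⟩ : A1 D) ∈ P) (b : A1 D) :
    ∃ r : k, b - LChar_c D r ∈ P := by
  have hQ : IsDomain (A1 D ⧸ P) := Ideal.Quotient.isDomain_iff_prime P |>.2 hM.isPrime
  have hb : IsIntegral (kk k X⁻¹) (b : D.L) := b.2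
  have hb' : IsIntegral (kk k X⁻¹) b :=
    (isIntegral_algHom_iff (integralClosure (kk k X⁻¹) D.L).val Subtype.val_injective).1 hb
  obtain ⟨p, hp, hp'⟩ := hb'
  obtain ⟨r, hr⟩ := LChar_gen ((Ideal.Quotient.mk P).comp (LChar_c D))
    ((Ideal.Quotient.mk P).comp (algebraMap (kk k X⁻¹) (A1 D))) (LChar_kk P hP)
    (Ideal.Quotient.mk P b) p hp (by
      rw [← Polynomial.hom_eval₂ p (algebraMap (kk k X⁻¹) (A1 D)) (Ideal.Quotient.mk P) b, hp',
        map_zero])
  refine ⟨r, ?_⟩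
  rw [← Ideal.Quotient.eq_zero_iff_mem, map_sub, sub_eq_zero]
  exact hr

/-- the value at the point at infinity -/
private theorem LChar_ev [IsAlgClosed k] (P : Ideal (A1 D)) (hM : P.IsMaximal)
    (hP : (⟨(tt D)⁻¹, tt_inv_mem_BB1 D⟩ : A1 D) ∈ P) :
    ∃ ev : A1 D →+* k, (∀ b, b - LChar_c D (ev b) ∈ P) ∧ ∀ r, ev (LChar_c D r) = r := by
  have hQ : Nontrivial (A1 D ⧸ P) := Ideal.Quotient.nontrivial_iff.2 hM.ne_top
  let φ : k →+* A1 D ⧸ P := (Ideal.Quotient.mk P).comp (LChar_c D)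
  have hinj : Function.Injective φ := φ.injective
  have hsurj : Function.Surjective φ := by
    intro q
    obtain ⟨b, rfl⟩ := Ideal.Quotient.mk_surjective q
    obtain ⟨r, hr⟩ := LChar_surj P hM hP b
    refine ⟨r, ?_⟩
    rw [← Ideal.Quotient.eq_zero_iff_mem, map_sub, sub_eq_zero] at hr
    exact hr.symm
  let e : k ≃+* A1 D ⧸ P := RingEquiv.ofBijective φ ⟨hinj, hsurj⟩
  refine ⟨(e.symm : (A1 D ⧸ P) →+* k).comp (Ideal.Quotient.mk P), fun b => ?_, fun r => ?_⟩
  · rw [← Ideal.Quotient.eq_zero_iff_mem, map_sub, sub_eq_zero]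
    exact (e.apply_symm_apply (Ideal.Quotient.mk P b)).symm
  · exact e.symm_apply_apply r

/-- Proof. `A1 D` is a finite module over `kk k X⁻¹ = k[1/t]` (`(LP.OO D).fg1`), and `1/t ∈ P`, so
`A1 D ⧸ P` is a finite module over `k[1/t] / (1/t) = k`: a finite-dimensional `k`-algebra which is
a field, hence equal to `k` (`IsAlgClosed.algebraMap_bijective_of_isIntegral` or similar). So for
every `b : A1 D` there is a unique `ev b : k` with `b - ev b ∈ P`; `ev` is an algebra
homomorphism `BB D 1 → k` (uniqueness: `P` contains no nonzero constant, `P ≠ ⊤`). Put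
`χ g = ev (g 1 1)`; `χ (g h) = χ g χ h` since `(g h) 1 1 = g 1 1 * h 1 1`: the entries `g 1 0`,
`g 1 2` vanish (`Le3 0 1`, `Le3 2 1` are false). -/
theorem exists_chi [IsAlgClosed k] (P : Ideal (A1 D)) (hM : P.IsMaximal)
    (hP : (⟨(tt D)⁻¹, tt_inv_mem_BB1 D⟩ : A1 D) ∈ P) :
    (∃ χ : Gam D →ₐ[k] k, IsChi P χ) ∧ ∃ χ : Gam' D →ₐ[k] k, IsChi' P χ := by
  obtain ⟨ev, hev, hev1⟩ := LChar_ev P hM hP
  have hz : ∀ d : Fin 3, d ≠ 1 → ¬ Le3 d 1 := by
    intro d hd h
    rcases h with h | h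
    · exact hd h
    · exact absurd h (by decide)
  have key : ∀ (b : D.L) (hb : b ∈ BB D 1) (r : k), ev ⟨b, hb⟩ = r → b - algebraMap k D.L r ∈
      pL P 1 1 := by
    intro b hb r hr
    refine pL_one.2 ⟨⟨b, hb⟩ - LChar_c D r, ?_, rfl⟩
    rw [pow_one, ← hr]
    exact hev _
  constructor
  · refine ⟨{ toFun := fun g => ev ⟨g.1 1 1, (g.2 1 1).1⟩
              map_one' := ?_
              map_mul' := ?_
              map_zero' := ?_
              map_add' := ?_
              commutes' := ?_ }, fun g => key _ _ _ rfl⟩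
    · exact map_one ev
    · intro g h
      rw [← map_mul]
      congr 1
      refine Subtype.ext ?_
      change (g.1 * h.1) 1 1 = g.1 1 1 * h.1 1 1
      rw [Matrix.mul_apply, Finset.sum_eq_single 1]
      · intro d _ hd
        rw [(g.2 1 d).2 (hz d hd), zero_mul]
      · intro h
        exact absurd (Finset.mem_univ _) h
    · exact map_zero ev
    · intro g h
      rw [← map_add]
      rfl
    · intro r
      refine Eq.trans ?_ (hev1 r)
      congr 1
  · refine ⟨{ toFun := fun g => ev ⟨g.1 1 1, (g.2 1 1).1⟩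
              map_one' := ?_
              map_mul' := ?_
              map_zero' := ?_
              map_add' := ?_
              commutes' := ?_ }, fun g => key _ _ _ rfl⟩
    · exact map_one ev
    · intro g h
      rw [← map_mul]
      congr 1
      refine Subtype.ext ?_
      change (g.1 * h.1) 1 1 = g.1 1 1 * h.1 1 1
      rw [Matrix.mul_apply, Finset.sum_eq_single 1]
      · intro d _ hd
        rw [(h.2 d 1).2 (hz d hd), mul_zero]
      · intro h
        exact absurd (Finset.mem_univ _) h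
    · exact map_zero ev
    · intro g h
      rw [← map_add]
      rfl
    · intro r
      refine Eq.trans ?_ (hev1 r)
      congr 1

private theorem LChar_slot {E : LSys D ι} (N' N : Lat E) {P : Ideal (A1 D)}
    (hP : (⟨(tt D)⁻¹, tt_inv_mem_BB1 D⟩ : A1 D) ∈ P) (i : ι) (h : N.pp P hP i ≤ N')
    (x : Matrix (Fin 3) (Fin 3) D.L) (hx : ∀ a b, x a b ∈ BB D a ∧ (¬ Le3 b a → x a b = 0))
    (r : k) (hr : x 1 1 - algebraMap k D.L r ∈ pL P 1 1) (f : (ι → Fin 3) → E.H) (hf : f ∈ N.V) :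
    Lat.slotE E i x f - r • f ∈ N'.V := by
  intro c
  by_cases hc : c i = 1
  · have e1 : Lat.slotE E i x f c = E.act i (x 1 1) (f c) := by
      rw [Lat.slotE_apply, Finset.sum_eq_single 1]
      · rw [hc]
        congr 2
        rw [← hc, Function.update_eq_self]
      · intro d _ hd
        rw [hc, (hx 1 d).2, map_zero]
        · rfl
        · rintro (h | h)
          · exact hd h
          · exact absurd h (by decide)
      · intro h
        exact absurd (Finset.mem_univ _) h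
    have e2 : (Lat.slotE E i x f - r • f) c = E.act i (x 1 1 - algebraMap k D.L r) (f c) := by
      rw [Pi.sub_apply, e1, map_sub, LinearMap.sub_apply, AlgHom.commutes,
        Module.algebraMap_end_apply]
      rfl
    rw [e2]
    refine h c (Submodule.subset_span ⟨_, ?_, _, hf c, rfl⟩)
    rw [hc]
    exact hr
  · refine h c (Submodule.subset_span ⟨1, (pL_ne hc).2 (BB D (c i)).one_mem, _, ?_,
      E.act_one i _⟩)
    exact N.V.sub_mem (N.slotE_mem i x hx hf) (N.V.smul_mem r hf) c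

/-- If `P_i N ≤ N' ≤ N`, the action in the factor `i` on `N / N'` is given by the character.

Proof. Let `f ∈ N.V`, `i = lam j`. To show: `slotE E i g f - χ g • f ∈ N'.V`. The component `c`
with `c i ≠ 1`: `N.N c ≤ N'.N c`, because `1 ∈ pL P 1 (c i) = BB D (c i)`, so `m = act i 1 m` is in
`N.ppN P i c ≤ N'.N c`. The component `c` with `c i = 1`: only the term `d = 1` of
`slotE_apply` is nonzero, `update c i 1 = c`, so the component is
`act i (g 1 1 - algebraMap (χ g)) (f c)`, which is in `N.ppN P i c`. -/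
theorem Lat.quo_l {E : LSys D ι} (N' N : Lat E) {P : Ideal (A1 D)}
    (hP : (⟨(tt D)⁻¹, tt_inv_mem_BB1 D⟩ : A1 D) ∈ P) {χ : Gam D →ₐ[k] k} (hχ : IsChi P χ)
    {p q : ℕ} (lam : Fin p → ι) (rho : Fin q → ι)
    (hl : Function.Injective lam) (hr : Function.Injective rho) (hd : ∀ i j, lam i ≠ rho j)
    (j : Fin p) (h : N.pp P hP (lam j) ≤ N') (a : Gam D)
    (m : (N'.quo N lam rho hl hr hd).V) :
    (N'.quo N lam rho hl hr hd).l j a m = χ a • m := by
  obtain ⟨f, rfl⟩ := (N'.subV N).mkQ_surjective m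
  change (N'.subV N).mkQ (N.slotL (lam j) a f) = χ a • (N'.subV N).mkQ f
  rw [← map_smul, ← sub_eq_zero, ← map_sub, Submodule.mkQ_apply, Submodule.Quotient.mk_eq_zero]
  exact LChar_slot N' N hP (lam j) h a.1 a.2 (χ a) (hχ a) f.1 f.2

/-- The same on the right (with the transposed matrix). -/
theorem Lat.quo_r {E : LSys D ι} (N' N : Lat E) {P : Ideal (A1 D)}
    (hP : (⟨(tt D)⁻¹, tt_inv_mem_BB1 D⟩ : A1 D) ∈ P) {χ : Gam' D →ₐ[k] k} (hχ : IsChi' P χ)
    {p q : ℕ} (lam : Fin p → ι) (rho : Fin q → ι)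
    (hl : Function.Injective lam) (hr : Function.Injective rho) (hd : ∀ i j, lam i ≠ rho j)
    (j : Fin q) (h : N.pp P hP (rho j) ≤ N') (a : Gam' D)
    (m : (N'.quo N lam rho hl hr hd).V) :
    (N'.quo N lam rho hl hr hd).r j a m = χ a • m := by
  obtain ⟨f, rfl⟩ := (N'.subV N).mkQ_surjective m
  change (N'.subV N).mkQ (N.slotR (rho j) a f) = χ a • (N'.subV N).mkQ f
  rw [← map_smul, ← sub_eq_zero, ← map_sub, Submodule.mkQ_apply, Submodule.Quotient.mk_eq_zero]
  exact LChar_slot N' N hP (rho j) h a.1.transpose (fun c d => a.2 d c) (χ a) (hχ a) f.1 f.2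

end Pool.Agent.MP_6e5bed_ag_KC
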