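import Pool.Agent.Lib.MP_6e5bed_ag_KC.BGam
import Pool.Agent.Lib.MP_6e5bed_ag_KC.BCc

set_option autoImplicit false
set_option linter.unusedSectionVars false

/-!
# The degrees in which complexes are not zero (project KC, part B1)

Proof of `tb`: by `tb_ind` and homogeneous components (`Dg.ind`), the component of degree `i` of an
element of `tb M N` is a sum of products `tm m n` with `m`, `n` homogeneous of degrees with sum `i`.
-/

namespace Pool.Agent.MP_6e5bed_ag_NC

universe u

variable {k : Type u} [Field k] {A B C A' B' W G G' W' : DGA k}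

/-- The complex is zero outside of the degrees from `a` to `b`. -/
def Dg.Rng {V : Type u} [AddCommGroup V] [Module k V] (X : Dg k V) (a b : ℤ) : Prop :=
  ∀ i v, X.IsDeg i v → (i < a ∨ b < i) → v = 0

section aux

variable {U V W : Type u} [AddCommGroup U] [Module k U] [AddCommGroup V] [Module k V]
  [AddCommGroup W] [Module k W]

private theorem BRng_of_ρ {X : Dg k V} {a b : ℤ}
    (h : ∀ v i, (i < a ∨ b < i) → X.ρ v i = 0) : X.Rng a b := by
  intro i v hv hi
  have h1 : X.ρ v = Finsupp.single i v := hv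
  have h2 := h v i hi
  rw [h1, Finsupp.single_eq_same] at h2
  exact h2

/-- The range of degrees of a complex spanned by products. -/
private theorem BRng_bil {X : Dg k V} {Y : Dg k W} {Z : Dg k U} (β : V →ₗ[k] W →ₗ[k] U)
    (hβ : ∀ {i j : ℤ} {v : V} {w : W}, X.IsDeg i v → Y.IsDeg j w → Z.IsDeg (i + j) (β v w))
    (hspan : ∀ P : U → Prop, P 0 → (∀ x y, P x → P y → P (x + y)) → (∀ v w, P (β v w)) →
      ∀ x, P x)
    {a b c d : ℤ} (hX : X.Rng a b) (hY : Y.Rng c d) : Z.Rng (a + c) (b + d) := by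
  refine BRng_of_ρ fun x i hi => ?_
  refine hspan (fun x => Z.ρ x i = 0) (by simp) (fun x y hx hy => by
    rw [map_add, Finsupp.add_apply, hx, hy, add_zero]) (fun v w => ?_) x
  refine X.ind (P := fun v => Z.ρ (β v w) i = 0) (by simp) (fun v v' hv hv' => by
    rw [map_add, LinearMap.add_apply, map_add, Finsupp.add_apply, hv, hv', add_zero])
    (fun p v hv => ?_) v
  refine Y.ind (P := fun w => Z.ρ (β v w) i = 0) (by simp) (fun w w' hw hw' => by
    rw [map_add, map_add, Finsupp.add_apply, hw, hw', add_zero]) (fun q w hw => ?_) w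
  by_cases hp : p < a ∨ b < p
  · rw [hX p v hv hp, map_zero, LinearMap.zero_apply, map_zero, Finsupp.zero_apply]
  · by_cases hq : q < c ∨ d < q
    · rw [hY q w hw hq, map_zero, map_zero, Finsupp.zero_apply]
    · have h1 : Z.ρ (β v w) = Finsupp.single (p + q) (β v w) := hβ hv hw
      rw [h1, Finsupp.single_eq_of_ne (by omega)]

end aux

theorem Rng.tb {M : Bim A B} {N : Bim B C} {a b c d : ℤ} (hM : M.dg.Rng a b)
    (hN : N.dg.Rng c d) : (tb M N).dg.Rng (a + c) (b + d) :=
  BRng_bil (Z := (MP_6e5bed_ag_NC.tb M N).dg) (tmB M N) (fun hv hw => tb_deg hv hw)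
    (fun _ h0 hadd h x => tb_ind h0 hadd h x) hM hN

theorem Rng.box {M : Bim A B} {N : Bim A' B'} {a b c d : ℤ} (hM : M.dg.Rng a b)
    (hN : N.dg.Rng c d) : (box M N).dg.Rng (a + c) (b + d) :=
  BRng_bil (Z := (MP_6e5bed_ag_NC.box M N).dg) (TensorProduct.mk k M.M N.M)
    (fun hv hw => Dg.tensor_deg hv hw)
    (fun P h0 hadd h x => by
      induction x using TensorProduct.induction_on with
      | zero => exact h0
      | add x y hx hy => exact hadd _ _ hx hy
      | tmul m n => exact h m n) hM hN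

theorem Rng.bx {M : Bim A B} (hM : M.dg.Rng 0 1) (n : ℕ) : (bx M n).dg.Rng 0 n := by
  induction n with
  | zero =>
    intro i v hv hi
    have hi0 : i ≠ 0 := by
      rintro rfl
      simp at hi
    have key : ∀ c : k, (Finsupp.single (0 : ℤ) c : ℤ →₀ k) = Finsupp.single i c → c = 0 := by
      intro c hc
      have h2 := DFunLike.congr_fun hc 0
      rw [Finsupp.single_eq_same, Finsupp.single_eq_of_ne (Ne.symm hi0)] at h2
      exact h2
    exact key v hv
  | succ n ih =>
    have h := Rng.box hM ih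
    rw [zero_add, add_comm (1 : ℤ)] at h
    intro i v hv hi
    refine h i v hv ?_
    rw [Nat.cast_succ] at hi
    exact hi

theorem Rng.Cc {Z : Bim W G} {Z' : Bim G' W'} (hZ : Z.dg.Rng 0 1) (hZ' : Z'.dg.Rng 0 1)
    (p q : ℕ) {M : Bim (pw G p) (pw G' q)} (hM : M.dg.Rng 0 0) :
    ((Cc Z Z' p q).obj M).dg.Rng 0 (p + q) := by
  have h := Rng.tb (Rng.tb (Rng.bx hZ p) hM) (Rng.bx hZ' q)
  rw [zero_add, zero_add, add_zero] at h
  exact h

end Pool.Agent.MP_6e5bed_ag_NC

namespace Pool.Agent.MP_6e5bed_ag_KC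

open Pool.Agent.MP_6e5bed_ag_NC

universe u

variable {k : Type u} [Field k] {D : FExt k} {F : LSp D}

private theorem BRng_two {V W : Type u} [AddCommGroup V] [Module k V] [AddCommGroup W]
    [Module k W] (δ : V →ₗ[k] W) : (Dg.two δ).Rng 0 1 := by
  rintro i ⟨v, w⟩ hv hi
  rcases Dg.two_isDeg δ hv with ⟨rfl, -⟩ | ⟨rfl, -⟩ | ⟨rfl, rfl⟩
  · omega
  · omega
  · rfl

theorem rng_ZL (V : LP k F.F) (hV : BSt V) : (ZL V hV).dg.Rng 0 1 :=
  BRng_two _

theorem rng_ZR (V : LP k F.F) : (ZR V).dg.Rng 0 1 :=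
  BRng_two _

end Pool.Agent.MP_6e5bed_ag_KC
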