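import Pool.Agent.Lib.MP_6e5bed_ag_KC.OB
import Pool.Agent.Lib.MP_6e5bed_ag_NC.BUnit

set_option autoImplicit false
set_option linter.unusedSectionVars false

/-!
# Products and characters (project KC)
-/

namespace Pool.Agent.MP_6e5bed_ag_NC

open scoped TensorProduct

universe u

variable {k : Type u} [Field k] {G G' : Type u} [Ring G] [Algebra k G] [Ring G'] [Algebra k G']
  {p q : ℕ}

section box

variable (U : KBi k G G') (E : Acts k G G' p q)

/-- The combined left action. -/
private noncomputable def OBox_L :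
    G ⊗[k] (pw (ring k G) p).A →ₗ[k] U.M ⊗[k] E.V →ₗ[k] U.M ⊗[k] E.V :=
  lact (p + 1) (Acts.boxU U E).l

/-- The combined left action of the last factors. -/
private noncomputable def OBox_L' :
    (pw (ring k G) p).A →ₗ[k] U.M ⊗[k] E.V →ₗ[k] U.M ⊗[k] E.V :=
  lact p (fun i => (Acts.boxU U E).l i.succ)

private theorem OBox_L_tmul (a : G) (x : (pw (ring k G) p).A) (m : U.M ⊗[k] E.V) :
    OBox_L U E (a ⊗ₜ x) m = LinearMap.rTensor E.V (U.l a) (OBox_L' U E x m) := rfl

private theorem OBox_L'_tmul (x : (pw (ring k G) p).A) (u : U.M) (v : E.V) :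
    OBox_L' U E x (u ⊗ₜ v) = u ⊗ₜ lact p E.l x v :=
  (Acts.lact_hom p E.l (fun i => (Acts.boxU U E).l i.succ) (TensorProduct.mk k U.M E.V u)
    (fun i a m => rfl) x v).symm

private theorem OBox_l (a : G ⊗[k] (pw (ring k G) p).A) (m : U.M ⊗[k] E.V) :
    OBox_L U E a m = kz (Dg.conc k U.M) (pw (ring k G) p).dg U.l (lact p E.l) a m := by
  induction a using TensorProduct.induction_on with
  | zero => simp
  | add x y hx hy => simp only [map_add, LinearMap.add_apply, hx, hy]
  | tmul a x =>
    induction m using TensorProduct.induction_on with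
    | zero => simp
    | add m m' hm hm' => simp only [map_add, hm, hm']
    | tmul u v =>
      rw [kz_even' (Dg.Zero.o Dg.conc_zero u), OBox_L_tmul, OBox_L'_tmul,
        LinearMap.rTensor_tmul]

/-- The combined right action. -/
private noncomputable def OBox_R :
    G' ⊗[k] (pw (ring k G') q).A →ₗ[k] U.M ⊗[k] E.V →ₗ[k] U.M ⊗[k] E.V :=
  lact (q + 1) (Acts.boxU U E).r

/-- The combined right action of the last factors. -/
private noncomputable def OBox_R' :
    (pw (ring k G') q).A →ₗ[k] U.M ⊗[k] E.V →ₗ[k] U.M ⊗[k] E.V :=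
  lact q (fun i => (Acts.boxU U E).r i.succ)

private theorem OBox_R_tmul (a : G') (x : (pw (ring k G') q).A) (m : U.M ⊗[k] E.V) :
    OBox_R U E (a ⊗ₜ x) m = LinearMap.rTensor E.V (U.r a) (OBox_R' U E x m) := rfl

private theorem OBox_R'_tmul (x : (pw (ring k G') q).A) (u : U.M) (v : E.V) :
    OBox_R' U E x (u ⊗ₜ v) = u ⊗ₜ lact q E.r x v :=
  (Acts.lact_hom q E.r (fun i => (Acts.boxU U E).r i.succ) (TensorProduct.mk k U.M E.V u)
    (fun i a m => rfl) x v).symm

private theorem OBox_r (b : G' ⊗[k] (pw (ring k G') q).A) (m : U.M ⊗[k] E.V) :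
    OBox_R U E b m = kz (Dg.conc k G') (Dg.conc k E.V) U.r.flip (lact q E.r).flip m b := by
  induction b using TensorProduct.induction_on with
  | zero => simp
  | add x y hx hy => simp only [map_add, LinearMap.add_apply, hx, hy]
  | tmul a x =>
    induction m using TensorProduct.induction_on with
    | zero => simp
    | add m m' hm hm' => simp only [map_add, LinearMap.add_apply, hm, hm']
    | tmul u v =>
      rw [kz_even' (Dg.Zero.o Dg.conc_zero a), OBox_R_tmul, OBox_R'_tmul, LinearMap.rTensor_tmul,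
        LinearMap.flip_apply, LinearMap.flip_apply]

end box

private theorem OBox_zero (U : KBi k G G') (E : Acts k G G' p q) :
    (box U.bim E.bim).dg.Zero :=
  Dg.Zero.tensor (X := Dg.conc k U.M) (Y := Dg.conc k E.V) Dg.conc_zero Dg.conc_zero

/-- The box product of a bimodule and of the bimodule of commuting actions.

Proof. The underlying spaces are equal (`U.M ⊗ E.V`); the identity is a graded map (everything
has degree `0`: `Dg.Zero.tensor`) with `dd = 0` (both differentials vanish: `Dg.Zero.d`), and it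
is compatible with the actions: on pure tensors
`kz .. (a ⊗ x) (u ⊗ v) = (a u) ⊗ (x v)` by `kz_even`, `kz_even'` (`o = 0`), which is
`lact_tmul` for `boxU`: `(boxU U E).l 0 a = rTensor (U.l a)`, and
`lact p (fun i => (boxU U E).l i.succ) x (u ⊗ v) = u ⊗ lact p E.l x v` (`Acts.lact_hom` with
`f = TensorProduct.mk k U.M E.V u`). Use `pw_ind` for the algebra and
`TensorProduct.induction_on` for the module. -/
theorem Acts.box_bim (U : KBi k G G') (E : Acts k G G' p q) :
    BIso (box U.bim E.bim) (Acts.boxU U E).bim := by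
  refine BIso.of_bij ⟨LinearMap.id, fun {i m} h => ?_, fun a m => ?_, fun b m => ?_⟩ ?_ ?_
  · rcases (OBox_zero U E).cases h with rfl | rfl
    · exact Dg.conc_deg _
    · exact Dg.IsDeg.zero _
  · rw [Dg.sp_even Even.zero]
    exact (OBox_l U E a m).symm
  · exact (OBox_r U E b m).symm
  · refine LinearMap.ext fun x => ?_
    rw [GMap.dd_apply, (OBox_zero U E).d x, map_zero, smul_zero, sub_zero]
    rfl
  · exact Function.bijective_id

section kill

variable {V : Type u} [AddCommGroup V] [Module k V]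

/-- `m ↦ 1 ⊗ m` -/
private noncomputable def OBox_u (V : Type u) [AddCommGroup V] [Module k V] :
    V →ₗ[k] k ⊗[k] V := (TensorProduct.lid k V).symm.toLinearMap

private theorem OBox_u_apply (m : V) : OBox_u V m = (1 : k) ⊗ₜ[k] m := rfl

/-- A combined action with an explicit type. -/
private noncomputable def OBox_A (n : ℕ) (l : Fin (n + 1) → G →ₗ[k] V →ₗ[k] V) :
    G ⊗[k] (pw (ring k G) n).A →ₗ[k] V →ₗ[k] V := lact (n + 1) l

private theorem OBox_A_tmul (n : ℕ) (l : Fin (n + 1) → G →ₗ[k] V →ₗ[k] V) (a : G)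
    (x : (pw (ring k G) n).A) (m : V) :
    OBox_A n l (a ⊗ₜ x) m = l 0 a (lact n (fun i => l i.succ) x m) := rfl

/-- The one-dimensional left action. -/
private noncomputable def OBox_k (χ : G →ₐ[k] k) : G →ₗ[k] k →ₗ[k] k :=
  (LinearMap.mul k k).comp χ.toLinearMap

private theorem OBox_k_apply (χ : G →ₐ[k] k) (a : G) (c : k) : OBox_k χ a c = χ a * c := rfl

/-- The action through a character. -/
private theorem OBox_kl (χ : G →ₐ[k] k) (n : ℕ) (l : Fin (n + 1) → G →ₗ[k] V →ₗ[k] V)
    (h : ∀ a m, l 0 a m = χ a • m) (a : G ⊗[k] (pw (ring k G) n).A) (m : V) :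
    OBox_u V (OBox_A n l a m) =
      kz (Dg.conc k k) (pw (ring k G) n).dg (OBox_k χ) (lact n (fun i => l i.succ)) a
        (OBox_u V m) := by
  induction a using TensorProduct.induction_on with
  | zero => simp
  | add x y hx hy => simp only [map_add, LinearMap.add_apply, hx, hy]
  | tmul a x =>
    rw [OBox_A_tmul, h, OBox_u_apply, OBox_u_apply, kz_even' (Dg.Zero.o Dg.conc_zero (1 : k)),
      OBox_k_apply, mul_one, ← TensorProduct.smul_tmul, smul_eq_mul, mul_one]

/-- The one-dimensional right action. -/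
private noncomputable def OBox_k' (χ : G →ₐ[k] k) : G →ₗ[k] k →ₗ[k] k :=
  (LinearMap.mul k k).flip.comp χ.toLinearMap

private theorem OBox_k'_apply (χ : G →ₐ[k] k) (a : G) (c : k) :
    OBox_k' χ a c = c * χ a := rfl

/-- The same for right actions. -/
private theorem OBox_kr (χ : G →ₐ[k] k) (n : ℕ) (l : Fin (n + 1) → G →ₗ[k] V →ₗ[k] V)
    (h : ∀ a m, l 0 a m = χ a • m) (a : G ⊗[k] (pw (ring k G) n).A) (m : V) :
    OBox_u V (OBox_A n l a m) =
      kz (Dg.conc k G) (Dg.conc k V) (OBox_k' χ).flip (lact n (fun i => l i.succ)).flip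
        (OBox_u V m) a := by
  induction a using TensorProduct.induction_on with
  | zero => simp
  | add x y hx hy => simp only [map_add, LinearMap.add_apply, hx, hy]
  | tmul a x =>
    rw [OBox_A_tmul, h, OBox_u_apply, OBox_u_apply, kz_even' (Dg.Zero.o Dg.conc_zero a),
      LinearMap.flip_apply, LinearMap.flip_apply, OBox_k'_apply, one_mul,
      ← TensorProduct.smul_tmul, smul_eq_mul, mul_one]

/-- The action of `A` on `V`, as action of `k ⊗ A` on `k ⊗ V`, from the left. -/
private theorem OBox_ul {A : Type u} [AddCommGroup A] [Module k A] (Y : Dg k A)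
    (l : A →ₗ[k] V →ₗ[k] V) (a : A) (m : V) :
    OBox_u V (l a m) =
      kz (Dg.conc k k) Y (LinearMap.mul k k) l (OBox_u A a) (OBox_u V m) := by
  rw [OBox_u_apply, OBox_u_apply, OBox_u_apply, kz_even' (Dg.Zero.o Dg.conc_zero (1 : k)),
    LinearMap.mul_apply', mul_one]

/-- The same from the right. -/
private theorem OBox_ur {A : Type u} [AddCommGroup A] [Module k A]
    (l : A →ₗ[k] V →ₗ[k] V) (a : A) (m : V) :
    OBox_u V (l a m) =
      kz (Dg.conc k k) (Dg.conc k V) (LinearMap.mul k k).flip.flip l.flip (OBox_u V m)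
        (OBox_u A a) := by
  rw [OBox_u_apply, OBox_u_apply, OBox_u_apply, kz_even' (Dg.Zero.o Dg.conc_zero (1 : k)),
    LinearMap.flip_apply, LinearMap.flip_apply, LinearMap.flip_apply, LinearMap.mul_apply',
    mul_one]

private theorem OBox_dd {A B : DGA k} {M N : Bim A B} (φ : GMap 0 M N) (hM : M.dg.Zero)
    (hN : N.dg.Zero) : φ.dd = 0 := by
  refine LinearMap.ext fun x => ?_
  rw [GMap.dd_apply, hM.d, hN.d, map_zero, smul_zero, sub_zero]
  rfl

private theorem OBox_u_zero : ((base k).dg.tensor (Dg.conc k V)).Zero :=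
  Dg.Zero.tensor (X := (base k).dg) (Y := Dg.conc k V) (fun v => base_deg (k := k) v)
    Dg.conc_zero

end kill

/-- If the first left action is given by a character, the bimodule is the box product of a
one-dimensional module and the bimodule of the other actions.

Proof. The map `m ↦ 1 ⊗ m`, `E.V → k ⊗ E.V` (`(TensorProduct.lid k E.V).symm`). Left action:
`a ⊗ x` acts on the right-hand side by `1 ⊗ m ↦ χ a ⊗ (x m)` (`kz_even'`), and on the left-hand
side by `m ↦ E.l 0 a (x m) = χ a • x m`. Right action: `b` acts through `1 ⊗ b`. -/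
theorem Acts.kill_bim (χ : G →ₐ[k] k) (E : Acts k G G' (p + 1) q)
    (h : ∀ a m, E.l 0 a m = χ a • m) :
    BIso E.bim (res (DHom.id (pw (ring k G) (p + 1))) (lunitIso (pw (ring k G') q)).inv
      (box (kapL χ) E.tailL.bim)) := by
  refine BIso.of_bij ⟨OBox_u E.V, fun {i m} h => ?_, fun a m => ?_, fun b m => ?_⟩ ?_ ?_
  · rcases Dg.conc_cases h with rfl | rfl
    · exact OBox_u_zero _
    · rw [map_zero]
      exact Dg.IsDeg.zero _
  · rw [Dg.sp_even Even.zero]
    exact OBox_kl χ p E.l h a m
  · exact OBox_ur (lact q E.r) b m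
  · exact OBox_dd _ Dg.conc_zero OBox_u_zero
  · exact (TensorProduct.lid k E.V).symm.bijective

/-- The same on the right. -/
theorem Acts.kill_bimR (χ : G' →ₐ[k] k) (E : Acts k G G' p (q + 1))
    (h : ∀ a m, E.r 0 a m = χ a • m) :
    BIso E.bim (res (lunitIso (pw (ring k G) p)).inv (DHom.id (pw (ring k G') (q + 1)))
      (box (kapR χ) E.tailR.bim)) := by
  refine BIso.of_bij ⟨OBox_u E.V, fun {i m} h => ?_, fun a m => ?_, fun b m => ?_⟩ ?_ ?_
  · rcases Dg.conc_cases h with rfl | rfl
    · exact OBox_u_zero _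
    · rw [map_zero]
      exact Dg.IsDeg.zero _
  · rw [Dg.sp_even Even.zero]
    exact OBox_ul (pw (ring k G) p).dg (lact p E.l) a m
  · have h1 := OBox_kr χ q E.r h b m
    exact h1
  · exact OBox_dd _ Dg.conc_zero OBox_u_zero
  · exact (TensorProduct.lid k E.V).symm.bijective

end Pool.Agent.MP_6e5bed_ag_NC
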