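import Pool.Agent.Lib.MP_6e5bed_ag_KC.LProd
import Pool.Agent.Lib.MP_6e5bed_ag_KC.OBox
import Pool.Agent.Lib.MP_6e5bed_ag_KC.BCc

set_option autoImplicit false
set_option linter.unusedSectionVars false

/-!
# Products of lattices: the bimodules (project KC, part B5)
-/

namespace Pool.Agent.MP_6e5bed_ag_KC

open RatFunc
open Pool.Agent.MP_6e5bed_ag_NC
open scoped TensorProduct

universe u

variable {k : Type u} [Field k] {D : FExt k} {ι₁ ι ι₂ : Type} [DecidableEq ι₁] [DecidableEq ι]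
  [DecidableEq ι₂] {E₁ : LSys D ι₁} {E : LSys D ι} {E₂ : LSys D ι₂}

/-- The bimodule with the left action in the factor `s` and the right action in the factor `t`. -/
noncomputable def Lat.bi (N : Lat E₁) (s t : ι₁) (h : s ≠ t) : KBi k (Gam D) (Gam' D) where
  M := N.V
  l := N.slotL s
  r := N.slotR t
  l_one := fun f => Subtype.ext (Lat.slotE_one E₁ s f.1)
  r_one := (N.acts (p := 0) (q := 1) (fun i => i.elim0) (fun _ => t)
    (fun i => i.elim0) (fun _ _ _ => Subsingleton.elim _ _) (fun i => i.elim0)).r_one 0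
  l_mul := fun a b f => Subtype.ext (Lat.slotE_mul E₁ s a.1 b.1 f.1)
  r_mul := (N.acts (p := 0) (q := 1) (fun i => i.elim0) (fun _ => t)
    (fun i => i.elim0) (fun _ _ _ => Subsingleton.elim _ _) (fun i => i.elim0)).r_mul 0
  l_r := fun a b f => Subtype.ext (Lat.slotE_comm E₁ h a.1 _ f.1)

/-- The left module of the factor `s`. -/
noncomputable def Lat.li (N : Lat E₁) (s : ι₁) : Bim (GaL D) (base k) where
  M := N.V
  dg := Dg.conc k N.V
  l := N.slotL s
  r := LinearMap.lsmul k N.V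
  l_one := fun f => Subtype.ext (Lat.slotE_one E₁ s f.1)
  r_one := fun m => one_smul k m
  l_mul := fun a b f => Subtype.ext (Lat.slotE_mul E₁ s a.1 b.1 f.1)
  r_mul := fun (b b' : k) m => by
    change (b * b') • m = b' • b • m
    rw [mul_comm, mul_smul]
  l_r := fun a (b : k) m => by
    change N.slotL s a (b • m) = b • N.slotL s a m
    rw [map_smul]
  l_deg := Dg.conc_bil _
  r_deg := fun {i j b m} hm hb => by
    rcases base_deg_cases hb with rfl | rfl
    · rw [add_zero]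
      exact hm.smul _
    · change (Dg.conc k N.V).IsDeg (i + j) ((0 : k) • m)
      rw [zero_smul]
      exact Dg.IsDeg.zero _
  d_l := fun a m => by
    change (0 : N.V) = N.slotL s 0 m + N.slotL s _ (0 : N.V)
    rw [map_zero, LinearMap.zero_apply, map_zero, add_zero]
  d_r := fun b m => by
    change (0 : N.V) = b • (0 : N.V) + (0 : k) • _
    rw [smul_zero, zero_smul, add_zero]

/-- The right module of the factor `t`. -/
noncomputable def Lat.ri (N : Lat E₁) (t : ι₁) : Bim (base k) (GaR D) where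
  M := N.V
  dg := Dg.conc k N.V
  l := LinearMap.lsmul k N.V
  r := N.slotR t
  l_one := fun m => one_smul k m
  r_one := (N.acts (p := 0) (q := 1) (fun i => i.elim0) (fun _ => t)
    (fun i => i.elim0) (fun _ _ _ => Subsingleton.elim _ _) (fun i => i.elim0)).r_one 0
  l_mul := fun (b b' : k) m => mul_smul b b' m
  r_mul := (N.acts (p := 0) (q := 1) (fun i => i.elim0) (fun _ => t)
    (fun i => i.elim0) (fun _ _ _ => Subsingleton.elim _ _) (fun i => i.elim0)).r_mul 0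
  l_r := fun (a : k) b m => by
    change a • N.slotR t b m = N.slotR t b (a • m)
    rw [map_smul]
  l_deg := fun {i j b m} hb hm => by
    rcases base_deg_cases hb with rfl | rfl
    · rw [zero_add]
      exact hm.smul _
    · change (Dg.conc k N.V).IsDeg (i + j) ((0 : k) • m)
      rw [zero_smul]
      exact Dg.IsDeg.zero _
  r_deg := fun {i j b m} hm hb => by
    rw [add_comm]
    exact Dg.conc_bil _ hb hm
  d_l := fun b m => by
    change (0 : N.V) = (0 : k) • m + (show k from (base k).dg.s b) • (0 : N.V)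
    rw [smul_zero, zero_smul, add_zero]
  d_r := fun b m => by
    change (0 : N.V) = N.slotR t b (0 : N.V) + N.slotR t 0 _
    rw [map_zero, map_zero, LinearMap.zero_apply, add_zero]

section slots

variable (P : PData E₁ E E₂) {N₁ : Lat E₁} {N : Lat E} {N₂ : Lat E₂}
  (Φ : (N₁.V ⊗[k] N.V) ≃ₗ[k] N₂.V)
  (hΦ : ∀ (f : N₁.V) (g : N.V) (c : ι₂ → Fin 3),
    (Φ (f ⊗ₜ g)).1 c = P.β (f.1 (c ∘ P.a)) (g.1 (c ∘ P.b)))

include hΦ

private theorem LProdB_l1 (s : ι₁) (x : Gam D) (f : N₁.V) (g : N.V) :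
    Φ (N₁.slotL s x f ⊗ₜ g) = N₂.slotL (P.a s) x (Φ (f ⊗ₜ g)) := by
  refine Subtype.ext ?_
  rw [Lat.slotL_coe, show (Φ (f ⊗ₜ g)).1 = fun c => P.β (f.1 (c ∘ P.a)) (g.1 (c ∘ P.b)) from
    funext (hΦ f g), P.slot1]
  exact funext fun c => hΦ _ _ c

private theorem LProdB_l2 (i : ι) (x : Gam D) (f : N₁.V) (g : N.V) :
    Φ (f ⊗ₜ N.slotL i x g) = N₂.slotL (P.b i) x (Φ (f ⊗ₜ g)) := by
  refine Subtype.ext ?_
  rw [Lat.slotL_coe, show (Φ (f ⊗ₜ g)).1 = fun c => P.β (f.1 (c ∘ P.a)) (g.1 (c ∘ P.b)) from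
    funext (hΦ f g), P.slot2]
  exact funext fun c => hΦ _ _ c

private theorem LProdB_r1 (s : ι₁) (x : Gam' D) (f : N₁.V) (g : N.V) :
    Φ (N₁.slotR s x f ⊗ₜ g) = N₂.slotR (P.a s) x (Φ (f ⊗ₜ g)) := by
  refine Subtype.ext ?_
  rw [Lat.slotR_coe, show (Φ (f ⊗ₜ g)).1 = fun c => P.β (f.1 (c ∘ P.a)) (g.1 (c ∘ P.b)) from
    funext (hΦ f g), P.slot1]
  exact funext fun c => hΦ _ _ c

private theorem LProdB_r2 (i : ι) (x : Gam' D) (f : N₁.V) (g : N.V) :
    Φ (f ⊗ₜ N.slotR i x g) = N₂.slotR (P.b i) x (Φ (f ⊗ₜ g)) := by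
  refine Subtype.ext ?_
  rw [Lat.slotR_coe, show (Φ (f ⊗ₜ g)).1 = fun c => P.β (f.1 (c ∘ P.a)) (g.1 (c ∘ P.b)) from
    funext (hΦ f g), P.slot2]
  exact funext fun c => hΦ _ _ c

end slots

section kzs

variable {G : Type u} [Ring G] [Algebra k G] {U V W : Type u} [AddCommGroup U] [Module k U]
  [AddCommGroup V] [Module k V] [AddCommGroup W] [Module k W]

/-- A combined action with an explicit type. -/
private noncomputable def LProdB_A (n : ℕ) (l : Fin (n + 1) → G →ₗ[k] V →ₗ[k] V) :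
    G ⊗[k] (pw (ring k G) n).A →ₗ[k] V →ₗ[k] V := lact (n + 1) l

private theorem LProdB_A_tmul (n : ℕ) (l : Fin (n + 1) → G →ₗ[k] V →ₗ[k] V) (a : G)
    (x : (pw (ring k G) n).A) (m : V) :
    LProdB_A n l (a ⊗ₜ x) m = l 0 a (lact n (fun i => l i.succ) x m) := rfl

private theorem LProdB_kl (Φ : (U ⊗[k] V) →ₗ[k] W) (n : ℕ) (l0 : G →ₗ[k] U →ₗ[k] U)
    (l' : Fin n → G →ₗ[k] V →ₗ[k] V) (l : Fin (n + 1) → G →ₗ[k] W →ₗ[k] W)
    (h0 : ∀ a u v, Φ (l0 a u ⊗ₜ v) = l 0 a (Φ (u ⊗ₜ v)))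
    (h' : ∀ i a u v, Φ (u ⊗ₜ l' i a v) = l i.succ a (Φ (u ⊗ₜ v)))
    (a : G ⊗[k] (pw (ring k G) n).A) (m : U ⊗[k] V) :
    Φ (kz (Dg.conc k U) (pw (ring k G) n).dg l0 (lact n l') a m) = LProdB_A n l a (Φ m) := by
  induction a using TensorProduct.induction_on with
  | zero => simp
  | add x y hx hy => simp only [map_add, LinearMap.add_apply, hx, hy]
  | tmul a x =>
    induction m using TensorProduct.induction_on with
    | zero => simp
    | add m m' hm hm' => simp only [map_add, hm, hm']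
    | tmul u v =>
      rw [kz_even' (Dg.Zero.o Dg.conc_zero u), LProdB_A_tmul, h0]
      congr 1
      exact Acts.lact_hom n l' (fun i => l i.succ) (Φ.comp (TensorProduct.mk k U V u))
        (fun i a m => h' i a u m) x v

private theorem LProdB_kr (Φ : (U ⊗[k] V) →ₗ[k] W) (n : ℕ) (l0 : G →ₗ[k] U →ₗ[k] U)
    (l' : Fin n → G →ₗ[k] V →ₗ[k] V) (l : Fin (n + 1) → G →ₗ[k] W →ₗ[k] W)
    (h0 : ∀ a u v, Φ (l0 a u ⊗ₜ v) = l 0 a (Φ (u ⊗ₜ v)))
    (h' : ∀ i a u v, Φ (u ⊗ₜ l' i a v) = l i.succ a (Φ (u ⊗ₜ v)))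
    (a : G ⊗[k] (pw (ring k G) n).A) (m : U ⊗[k] V) :
    Φ (kz (Dg.conc k G) (Dg.conc k V) l0.flip (lact n l').flip m a) =
      LProdB_A n l a (Φ m) := by
  induction a using TensorProduct.induction_on with
  | zero => simp
  | add x y hx hy => simp only [map_add, LinearMap.add_apply, hx, hy]
  | tmul a x =>
    induction m using TensorProduct.induction_on with
    | zero => simp
    | add m m' hm hm' => simp only [map_add, LinearMap.add_apply, hm, hm']
    | tmul u v =>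
      rw [kz_even' (Dg.Zero.o Dg.conc_zero a), LProdB_A_tmul, LinearMap.flip_apply,
        LinearMap.flip_apply, h0]
      congr 1
      exact Acts.lact_hom n l' (fun i => l i.succ) (Φ.comp (TensorProduct.mk k U V u))
        (fun i a m => h' i a u m) x v

private theorem LProdB_ul (Φ : (U ⊗[k] V) →ₗ[k] W) (n : ℕ)
    (l' : Fin n → G →ₗ[k] V →ₗ[k] V) (l : Fin n → G →ₗ[k] W →ₗ[k] W)
    (h' : ∀ i a u v, Φ (u ⊗ₜ l' i a v) = l i a (Φ (u ⊗ₜ v)))
    (a : (pw (ring k G) n).A) (m : U ⊗[k] V) :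
    Φ (kz (Dg.conc k U) (pw (ring k G) n).dg (LinearMap.lsmul k U) (lact n l')
      ((1 : k) ⊗ₜ a) m) = lact n l a (Φ m) := by
  induction m using TensorProduct.induction_on with
  | zero => simp
  | add m m' hm hm' => simp only [map_add, hm, hm']
  | tmul u v =>
    rw [kz_even' (Dg.Zero.o Dg.conc_zero u), LinearMap.lsmul_apply, one_smul]
    exact Acts.lact_hom n l' l (Φ.comp (TensorProduct.mk k U V u))
      (fun i a m => h' i a u m) a v

private theorem LProdB_ur (Φ : (U ⊗[k] V) →ₗ[k] W) (n : ℕ)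
    (l' : Fin n → G →ₗ[k] V →ₗ[k] V) (l : Fin n → G →ₗ[k] W →ₗ[k] W)
    (h' : ∀ i a u v, Φ (u ⊗ₜ l' i a v) = l i a (Φ (u ⊗ₜ v)))
    (X : Dg k k) (hX : X.Zero) (a : (pw (ring k G) n).A) (m : U ⊗[k] V) :
    Φ (kz X (Dg.conc k V) (LinearMap.lsmul k U).flip (lact n l').flip m
      ((1 : k) ⊗ₜ a)) = lact n l a (Φ m) := by
  induction m using TensorProduct.induction_on with
  | zero => simp
  | add m m' hm hm' => simp only [map_add, LinearMap.add_apply, hm, hm']
  | tmul u v =>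
    rw [kz_even' (Dg.Zero.o hX (1 : k)), LinearMap.flip_apply, LinearMap.flip_apply,
      LinearMap.lsmul_apply, one_smul]
    exact Acts.lact_hom n l' l (Φ.comp (TensorProduct.mk k U V u))
      (fun i a m => h' i a u m) a v

private theorem LProdB_dd {A B : DGA k} {M N : Bim A B} (φ : GMap 0 M N) (hM : M.dg.Zero)
    (hN : N.dg.Zero) : φ.dd = 0 := by
  refine LinearMap.ext fun x => ?_
  rw [GMap.dd_apply, hM.d, hN.d, map_zero, smul_zero, sub_zero]
  rfl

private theorem LProdB_zero (U V : Type u) [AddCommGroup U] [Module k U] [AddCommGroup V]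
    [Module k V] : ((Dg.conc k U).tensor (Dg.conc k V)).Zero :=
  Dg.Zero.tensor Dg.conc_zero Dg.conc_zero

private theorem LProdB_deg (Φ : (U ⊗[k] V) →ₗ[k] W) {i : ℤ} {m : U ⊗[k] V}
    (h : ((Dg.conc k U).tensor (Dg.conc k V)).IsDeg i m) :
    (Dg.conc k W).IsDeg (i + 0) (Φ m) := by
  rcases (LProdB_zero U V).cases h with rfl | rfl
  · exact Dg.conc_deg _
  · rw [map_zero]
    exact Dg.IsDeg.zero _

private theorem LProdB_ind (Φ : (U ⊗[k] V) →ₗ[k] W) (f : (U ⊗[k] V) →ₗ[k] (U ⊗[k] V))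
    (g : W →ₗ[k] W) (h : ∀ u v, Φ (f (u ⊗ₜ v)) = g (Φ (u ⊗ₜ v))) (m : U ⊗[k] V) :
    Φ (f m) = g (Φ m) := by
  induction m using TensorProduct.induction_on with
  | zero => simp
  | add m m' hm hm' => simp only [map_add, hm, hm']
  | tmul u v => exact h u v

end kzs

variable {p q : ℕ}

/-- Two-sided products.

Proof. `PData.exists_equiv` gives a linear isomorphism `Φ` of the underlying spaces, which is
equivariant by `PData.slot1`, `PData.slot2` (check on `f ⊗ g`, `Subtype.ext`; for the right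
actions use the transposed matrices): a bijective `Acts.Hom`, so `Acts.biso`. -/
theorem PData.biso [Fintype ι₁] [Fintype ι] (P : PData E₁ E E₂) {N₁ : Lat E₁} {N : Lat E}
    {N₂ : Lat E₂} (hP : P.IsProd N₁ N N₂) (s t : ι₁) (hst : s ≠ t)
    (lam : Fin p → ι) (rho : Fin q → ι) (hl : Function.Injective lam)
    (hr : Function.Injective rho) (hd : ∀ i j, lam i ≠ rho j)
    (lam₂ : Fin (p + 1) → ι₂) (rho₂ : Fin (q + 1) → ι₂) (hl₂ : Function.Injective lam₂)
    (hr₂ : Function.Injective rho₂) (hd₂ : ∀ i j, lam₂ i ≠ rho₂ j)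
    (el : lam₂ = Fin.cons (P.a s) (P.b ∘ lam)) (er : rho₂ = Fin.cons (P.a t) (P.b ∘ rho)) :
    BIso (box (N₁.bi s t hst).bim (N.acts lam rho hl hr hd).bim)
      (N₂.acts lam₂ rho₂ hl₂ hr₂ hd₂).bim := by
  obtain ⟨Φ, hΦ⟩ := P.exists_equiv hP
  subst el
  subst er
  refine (Acts.box_bim (N₁.bi s t hst) (N.acts lam rho hl hr hd)).trans
    (Acts.biso ⟨Φ.toLinearMap, ?_, ?_⟩ Φ.bijective)
  · intro i a m
    refine LProdB_ind Φ.toLinearMap ((Acts.boxU (N₁.bi s t hst)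
      (N.acts lam rho hl hr hd)).l i a) ((N₂.acts _ _ hl₂ hr₂ hd₂).l i a) (fun u v => ?_) m
    refine Fin.cases ?_ (fun i => ?_) i
    · exact LProdB_l1 P Φ hΦ s a u v
    · exact LProdB_l2 P Φ hΦ (lam i) a u v
  · intro i a m
    refine LProdB_ind Φ.toLinearMap ((Acts.boxU (N₁.bi s t hst)
      (N.acts lam rho hl hr hd)).r i a) ((N₂.acts _ _ hl₂ hr₂ hd₂).r i a) (fun u v => ?_) m
    refine Fin.cases ?_ (fun i => ?_) i
    · exact LProdB_r1 P Φ hΦ t a u v
    · exact LProdB_r2 P Φ hΦ (rho i) a u v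

/-- Insertion of a left module. The underlying space of the left-hand side is `N₁.V ⊗ N.V`, the
right algebra acts through `b ↦ 1 ⊗ b` (see `Acts.kill_bim` for such computations); use
`PData.exists_equiv` and `BIso.of_bij`. -/
theorem PData.bisoL [Fintype ι₁] [Fintype ι] (P : PData E₁ E E₂) {N₁ : Lat E₁} {N : Lat E}
    {N₂ : Lat E₂} (hP : P.IsProd N₁ N N₂) (s : ι₁)
    (lam : Fin p → ι) (rho : Fin q → ι) (hl : Function.Injective lam)
    (hr : Function.Injective rho) (hd : ∀ i j, lam i ≠ rho j)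
    (lam₂ : Fin (p + 1) → ι₂) (rho₂ : Fin q → ι₂) (hl₂ : Function.Injective lam₂)
    (hr₂ : Function.Injective rho₂) (hd₂ : ∀ i j, lam₂ i ≠ rho₂ j)
    (el : lam₂ = Fin.cons (P.a s) (P.b ∘ lam)) (er : rho₂ = P.b ∘ rho) :
    BIso (insL (N₁.li s) (N.acts lam rho hl hr hd).bim)
      (N₂.acts lam₂ rho₂ hl₂ hr₂ hd₂).bim := by
  obtain ⟨Φ, hΦ⟩ := P.exists_equiv hP
  subst el
  subst er
  refine BIso.of_bij ⟨Φ.toLinearMap, fun {i m} h => ?_, fun a m => ?_, fun b m => ?_⟩ ?_ ?_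
  · exact LProdB_deg Φ.toLinearMap h
  · rw [Dg.sp_even Even.zero]
    exact LProdB_kl Φ.toLinearMap p (N₁.slotL s) (fun i => N.slotL (lam i))
      (fun i => N₂.slotL ((Fin.cons (P.a s) (P.b ∘ lam) : Fin (p + 1) → ι₂) i))
      (fun a u v => LProdB_l1 P Φ hΦ s a u v) (fun i a u v => LProdB_l2 P Φ hΦ (lam i) a u v) a m
  · exact LProdB_ur Φ.toLinearMap q (fun i => N.slotR (rho i))
      (fun i => N₂.slotR (P.b (rho i))) (fun i a u v => LProdB_r2 P Φ hΦ (rho i) a u v)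
      (base k).dg (fun v => base_deg (k := k) v) b m
  · exact LProdB_dd _ (LProdB_zero N₁.V N.V) Dg.conc_zero
  · exact Φ.bijective

/-- Insertion of a right module. -/
theorem PData.bisoR [Fintype ι₁] [Fintype ι] (P : PData E₁ E E₂) {N₁ : Lat E₁} {N : Lat E}
    {N₂ : Lat E₂} (hP : P.IsProd N₁ N N₂) (t : ι₁)
    (lam : Fin p → ι) (rho : Fin q → ι) (hl : Function.Injective lam)
    (hr : Function.Injective rho) (hd : ∀ i j, lam i ≠ rho j)
    (lam₂ : Fin p → ι₂) (rho₂ : Fin (q + 1) → ι₂) (hl₂ : Function.Injective lam₂)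
    (hr₂ : Function.Injective rho₂) (hd₂ : ∀ i j, lam₂ i ≠ rho₂ j)
    (el : lam₂ = P.b ∘ lam) (er : rho₂ = Fin.cons (P.a t) (P.b ∘ rho)) :
    BIso (insR (N₁.ri t) (N.acts lam rho hl hr hd).bim)
      (N₂.acts lam₂ rho₂ hl₂ hr₂ hd₂).bim := by
  obtain ⟨Φ, hΦ⟩ := P.exists_equiv hP
  subst el
  subst er
  refine BIso.of_bij ⟨Φ.toLinearMap, fun {i m} h => ?_, fun a m => ?_, fun b m => ?_⟩ ?_ ?_
  · exact LProdB_deg Φ.toLinearMap h
  · rw [Dg.sp_even Even.zero]
    exact LProdB_ul Φ.toLinearMap p (fun i => N.slotL (lam i))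
      (fun i => N₂.slotL (P.b (lam i))) (fun i a u v => LProdB_l2 P Φ hΦ (lam i) a u v) a m
  · exact LProdB_kr Φ.toLinearMap q (N₁.slotR t) (fun i => N.slotR (rho i))
      (fun i => N₂.slotR ((Fin.cons (P.a t) (P.b ∘ rho) : Fin (q + 1) → ι₂) i))
      (fun a u v => LProdB_r1 P Φ hΦ t a u v) (fun i a u v => LProdB_r2 P Φ hΦ (rho i) a u v) b m
  · exact LProdB_dd _ (LProdB_zero N₁.V N.V) Dg.conc_zero
  · exact Φ.bijective

end Pool.Agent.MP_6e5bed_ag_KC
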