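import Pool.Agent.Lib.MP_6e5bed_ag_KC.LMor
import Pool.Agent.Lib.MP_6e5bed_ag_KC.LProdB
import Pool.Agent.Lib.MP_6e5bed_ag_KC.BFlat
import Pool.Agent.Lib.MP_6e5bed_ag_KC.BRng
import Pool.Agent.Lib.MP_6e5bed_ag_KC.BZPerf

set_option autoImplicit false
set_option linter.unusedSectionVars false

/-!
# The class of a lattice (project KC, part B5)
-/

namespace Pool.Agent.MP_6e5bed_ag_KC

open RatFunc
open Pool.Agent.MP_6e5bed_ag_NC

universe u

variable {k : Type u} [Field k] {D : FExt k} {F : LSp D} (V : LP k F.F) (hV : BSt V)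

/-- The bimodule over the powers of the algebra `(endCosp V).cech` given by a lattice. -/
noncomputable def lbim {p q : ℕ} {E : LSys D (Fin p ⊕ Fin q)} (N : Lat E) :
    Bim (pw (endCosp V).cech p) (pw (endCosp V).cech q) :=
  (Cc (ZL V hV) (ZR V) p q).obj N.bb.bim

/-- Its class. -/
noncomputable def lcl {p q : ℕ} {E : LSys D (Fin p ⊕ Fin q)} (N : Lat E) :
    K0Q (pw (endCosp V).cech p) (pw (endCosp V).cech q) :=
  ecl (lbim V hV N)

theorem lbim_ex (p q : ℕ) : FEx (Cc (ZL V hV) (ZR V) p q) :=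
  Cc_ex (rperf_ZL V hV) (lperf_ZR V) p q

end Pool.Agent.MP_6e5bed_ag_KC
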