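import Pool.Agent.Lib.MP_6e5bed_ag_KC.LFin
import Pool.Agent.Lib.MP_6e5bed_ag_KC.LChar
import Pool.Agent.Lib.MP_6e5bed_ag_KC.LVal
import Pool.Agent.Lib.MP_6e5bed_ag_KC.BIdl
import Pool.Agent.Lib.MP_6e5bed_ag_KC.BU
import Pool.Agent.Lib.MP_6e5bed_ag_KC.BNz
import Pool.Agent.Lib.MP_6e5bed_ag_CV.TorsW

set_option autoImplicit false
set_option linter.unusedSectionVars false

/-!
# Kimura-finiteness of the dg algebra of a curve, from the functions of lattices (project KC)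
-/

namespace Pool.Agent.MP_6e5bed_ag_KC

open RatFunc CategoryTheory MonoidalCategory
open Pool.Agent.MP_6e5bed_ag_NC Pool.Agent.MP_6e5bed_ag

universe u

variable {k : Type u} [Field k] {D : FExt k}

noncomputable instance BKf_lin : MonoidalLinear ℚ (SP k) where
  whiskerLeft_smul := fun X _ _ r f => map_smul (K0Q.box (𝟙 X : X ⟶ X)) r f
  smul_whiskerRight := fun r _ _ f X =>
    LinearMap.congr_fun (map_smul K0Q.box r f) (𝟙 X : X ⟶ X)

theorem pL_const {P : Ideal (A1 D)} (hP : P ≠ ⊤) {r : k} (h : algebraMap k D.L r ∈ pL P 1 1) :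
    r = 0 := by
  obtain ⟨a, ha, e⟩ := pL_one.1 h
  by_contra hr
  refine hP ((Ideal.eq_top_iff_one P).2 ?_)
  rw [pow_one] at ha
  have h1 : (⟨algebraMap k D.L r⁻¹, (BB D 1).algebraMap_mem r⁻¹⟩ : A1 D) * a = 1 := by
    refine Subtype.ext ?_
    change algebraMap k D.L r⁻¹ * (a : D.L) = 1
    rw [e, ← map_mul, inv_mul_cancel₀ hr, map_one]
  rw [← h1]
  exact P.mul_mem_left _ ha

theorem IsChi.eq_zero {P : Ideal (A1 D)} (hP : P ≠ ⊤) {χ : Gam D →ₐ[k] k} (hχ : IsChi P χ)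
    (g : Gam D) (hg : g.1 1 1 ∈ pL P 1 1) : χ g = 0 := by
  refine pL_const hP ?_
  have h := (pL P 1 1).sub_mem hg (hχ g)
  rwa [sub_sub_cancel] at h

theorem IsChi'.eq_zero {P : Ideal (A1 D)} (hP : P ≠ ⊤) {χ : Gam' D →ₐ[k] k} (hχ : IsChi' P χ)
    (g : Gam' D) (hg : g.1 1 1 ∈ pL P 1 1) : χ g = 0 := by
  refine pL_const hP ?_
  have h := (pL P 1 1).sub_mem hg (hχ g)
  rwa [sub_sub_cancel] at h

private theorem BKf_aux {C : Type*} [Category C] [Preadditive C] [Linear ℚ C] {T : C}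
    (u v b : T ⟶ T) (r : ℚ) : u ≫ b ≫ v + r • 𝟙 T =
      u ≫ (b + r • 𝟙 T) ≫ v + r • ((𝟙 T - u) + u ≫ (𝟙 T - v)) := by
  simp only [Preadditive.add_comp, Preadditive.comp_add, Preadditive.comp_sub,
    Category.comp_id, Category.id_comp, Linear.smul_comp, Linear.comp_smul, smul_sub,
    smul_add]
  abel

/-- The object of a vector bundle. -/
noncomputable abbrev spE {F : LSp D} (V : LP k F.F) (hs : Smooth (endCosp V).cech)
    (hp : Proper (endCosp V).cech) : SP k := ⟨(endCosp V).cech, hs, hp⟩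

/-- The class of a bimodule, as a morphism. -/
noncomputable def mor {X Y : SP k} (M : Bim X.alg Y.alg) : X ⟶ Y := ecl M

theorem bst_of {F : LSp D} {V : LP k F.F} (hV : LP.BStable V) : BSt V := by
  intro c b hb v hv
  fin_cases c
  · exact hV.1 b hb v hv
  · exact hV.2 b hb v hv
  · obtain ⟨n, hn⟩ := mem_BB2.1 hb
    obtain ⟨m, hm⟩ := hv
    refine ⟨n + m, ?_⟩
    have h2 := hV.1 _ hn _ hm
    have e : (X : RatFunc k) ^ (n + m) • (b • v) = (tt D ^ n * b) • ((X : RatFunc k) ^ m • v) := by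
      rw [← algebraMap_smul D.L ((X : RatFunc k) ^ (n + m)) (b • v),
        ← algebraMap_smul D.L ((X : RatFunc k) ^ m) v, smul_smul, smul_smul, map_pow, map_pow]
      congr 1
      change tt D ^ (n + m) * b = tt D ^ n * b * tt D ^ m
      ring
    change (X : RatFunc k) ^ (n + m) • (b • v) ∈ V.N0
    rw [e]
    exact h2

theorem bst_plus [IsAlgClosed k] {F : LSp D} {V : LP k F.F} (hV : LP.BStable V) :
    BSt (F := F.plus) V.plus :=
  bst_of hV.plus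

/-- Proof. `P` from `exists_ipt`, `χ`, `χ'` from `exists_chi`; `χ g = 0` if `g 1 1 = 0` or
`g 1 1 = 1/t` (`IsChi.eq_zero`). `uL`, `uR` from `exists_uL`, `exists_uR` (`SL_zero`, `SL_fin`,
`SR_zero`, `SR_fin`). `latFunP_final` for `β j = uL ≫ mor ((C1 ..).obj (SysM D j).kbi.bim) ≫ uR`.
Modulo `FIN` (`FIN.comp_left`, `FIN.comp_right`, `ecl_SysM`) `β j` is `- j • 𝟙`, so
`∑ c j • β j` is `𝟙`; `kf_of_one'`. -/
theorem kf_of_latFun [IsAlgClosed k] {F : LSp D} (V : LP k F.F) (hV : BSt (F := F.plus) V.plus)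
    (hs : Smooth (endCosp V.plus).cech) (hp : Proper (endCosp V.plus).cech)
    (Ψ : ∀ (P : IPt D) (χ : Gam D →ₐ[k] k) (χ' : Gam' D →ₐ[k] k), IsChi P.P χ → IsChi' P.P χ' →
      ∀ uL uR : spE V.plus hs hp ⟶ spE V.plus hs hp,
      uL ≫ mor (X := spE V.plus hs hp) (Y := SP.base k)
        (SL (F := F.plus) V.plus hV χ) = 0 →
      mor (X := SP.base k) (Y := spE V.plus hs hp)
        (SR (F := F.plus) V.plus χ') ≫ uR = 0 → ∀ n, Nonempty (LatFunP D P.P P.hP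
        (spE V.plus hs hp) (fun j => uL ≫ mor (X := spE V.plus hs hp)
          (Y := spE V.plus hs hp) ((C1 (ZL (F := F.plus) V.plus hV)
            (ZR (F := F.plus) V.plus)).obj (SysM D j).kbi.bim) ≫ uR) n)) :
    KimuraFinite (U (spE V.plus hs hp)) := by
  obtain ⟨P⟩ := exists_ipt (D := D)
  have hPt : P.P ≠ ⊤ := P.max.ne_top
  obtain ⟨⟨χ, hχ⟩, χ', hχ'⟩ := exists_chi P.P P.max P.hP
  have h11 : ∀ b : D.L, b = (tt D)⁻¹ → b ∈ pL P.P 1 1 := fun b hb => by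
    rw [hb]
    refine pL_one.2 ⟨⟨(tt D)⁻¹, tt_inv_mem_BB1 D⟩, ?_, rfl⟩
    rw [pow_one]
    exact P.hP
  have h1 : ∀ g : Gam D, g.1 1 1 = 0 → χ g = 0 := fun g hg =>
    hχ.eq_zero hPt g (by rw [hg]; exact Submodule.zero_mem _)
  have h2 : ∀ g : Gam D, g.1 1 1 = (tt D)⁻¹ → χ g = 0 := fun g hg =>
    hχ.eq_zero hPt g (h11 _ hg)
  have h1' : ∀ g : Gam' D, g.1 1 1 = 0 → χ' g = 0 := fun g hg =>
    hχ'.eq_zero hPt g (by rw [hg]; exact Submodule.zero_mem _)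
  have h2' : ∀ g : Gam' D, g.1 1 1 = (tt D)⁻¹ → χ' g = 0 := fun g hg =>
    hχ'.eq_zero hPt g (h11 _ hg)
  obtain ⟨uL, hL, hL'⟩ := exists_uL (spE V.plus hs hp) (SL (F := F.plus) V.plus hV χ)
    (SL_zero V.plus hV χ h1) (SL_fin V.plus hV χ h1 h2)
  obtain ⟨uR, hR, hR'⟩ := exists_uR (spE V.plus hs hp) (SR (F := F.plus) V.plus χ')
    (SR_zero V.plus χ' h1') (SR_fin V.plus χ' h1' h2')
  let b : ℕ → (spE V.plus hs hp ⟶ spE V.plus hs hp) := fun j =>
    mor (X := spE V.plus hs hp) (Y := spE V.plus hs hp) ((C1 (ZL (F := F.plus) V.plus hV)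
      (ZR (F := F.plus) V.plus)).obj (SysM D j).kbi.bim)
  obtain ⟨J, c, n, -, -, hc, hn⟩ := latFunP_final P (spE V.plus hs hp)
    (fun j => uL ≫ b j ≫ uR)
    (fun n => (Ψ P χ χ' hχ hχ' uL uR hL hR n).some)
  refine kf_of_one' (spE V.plus hs hp) _ ?_ hn
  -- modulo `FIN`
  let I := FIN (endCosp V.plus).cech
  let T := spE V.plus hs hp
  have e1 : ∀ j : ℕ, ((uL ≫ b j ≫ uR : T ⟶ T) + (j : ℚ) • 𝟙 T : K0Q T.alg T.alg) ∈ I := by
    intro j
    have hb : ((b j : T ⟶ T) + (j : ℚ) • 𝟙 T : K0Q T.alg T.alg) ∈ I :=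
      (ecl_SysM V.plus hV hs hp j).2
    have e : (uL ≫ b j ≫ uR : T ⟶ T) + (j : ℚ) • 𝟙 T =
        uL ≫ (b j + (j : ℚ) • 𝟙 T) ≫ uR + (j : ℚ) • ((𝟙 T - uL) + uL ≫ (𝟙 T - uR)) :=
      BKf_aux uL uR (b j) j
    rw [e]
    refine Submodule.add_mem I (FIN.comp_left T uL _ (FIN.comp_right T _ uR hb))
      (Submodule.smul_mem I _ (Submodule.add_mem I hL' (FIN.comp_left T uL _ hR')))
  have e2 : (𝟙 T - ∑ j : Fin (J + 1), c j • (uL ≫ b (j : ℕ) ≫ uR) : T ⟶ T) =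
      -∑ j : Fin (J + 1), c j • ((uL ≫ b (j : ℕ) ≫ uR : T ⟶ T) + ((j : ℕ) : ℚ) • 𝟙 T) := by
    have e3 : ∑ j : Fin (J + 1), c j • (((j : ℕ) : ℚ) • 𝟙 T) = -𝟙 T := by
      simp only [smul_smul]
      rw [← Finset.sum_smul]
      have e4 : ∑ j : Fin (J + 1), c j * ((j : ℕ) : ℚ) = -1 := by
        rw [← hc]
        exact Finset.sum_congr rfl fun j _ => mul_comm _ _
      rw [e4, neg_one_smul]
    simp only [smul_add, Finset.sum_add_distrib]
    rw [e3]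
    abel
  rw [e2]
  refine Submodule.neg_mem I (Submodule.sum_mem I fun j _ => Submodule.smul_mem I _ (e1 j))

end Pool.Agent.MP_6e5bed_ag_KC
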