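import Pool.Agent.Lib.MP_6e5bed_ag_NC.Cat

set_option autoImplicit false
set_option linter.unusedSectionVars false

/-!
# Tensor powers of dg algebras and of bimodules (project KC, part B1)
-/

namespace Pool.Agent.MP_6e5bed_ag_NC

universe u

variable {k : Type u} [CommRing k]

/-- The tensor powers of a dg algebra, `A ⊗ (A ⊗ ⋯)`. -/
noncomputable def pw (A : DGA k) : ℕ → DGA k
  | 0 => base k
  | n + 1 => A.tensor (pw A n)

/-- The tensor powers of a bimodule. -/
noncomputable def bx {A B : DGA k} (M : Bim A B) : (n : ℕ) → Bim (pw A n) (pw B n)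
  | 0 => diag (base k)
  | n + 1 => box M (bx M n)

/-- The exchange of the factors number `i` and `i + 1`. -/
noncomputable def adjD (A : DGA k) : (n i : ℕ) → DIso (pw A n) (pw A n)
  | 0, _ => DIso.refl _
  | 1, _ => DIso.refl _
  | n + 2, 0 => ((assocIso A A (pw A n)).symm.trans
      ((swapIso A A).tensor (DIso.refl (pw A n)))).trans (assocIso A A (pw A n))
  | n + 2, i + 1 => (DIso.refl A).tensor (adjD A (n + 1) i)

theorem smooth_pw {A : DGA k} (h : Smooth A) : ∀ n, Smooth (pw A n)
  | 0 => smooth_base
  | n + 1 => h.tensor (smooth_pw h n)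

theorem proper_pw {A : DGA k} (h : Proper A) : ∀ n, Proper (pw A n)
  | 0 => proper_base
  | n + 1 => h.tensor (proper_pw h n)

private theorem BPow_map {A A' : DGA k} (φ : DHom A A) (φ' : DHom A' A')
    (h : ∀ a, φ.f (φ.f a) = a) (h' : ∀ a, φ'.f (φ'.f a) = a) (x : (A.tensor A').A) :
    (φ.tensor φ').f ((φ.tensor φ').f x) = x := by
  change TensorProduct.map φ.f φ'.f (TensorProduct.map φ.f φ'.f x) = x
  induction x using TensorProduct.induction_on with
  | zero => simp
  | add x y hx hy => rw [map_add, map_add, hx, hy]
  | tmul a a' => rw [TensorProduct.map_tmul, TensorProduct.map_tmul, h, h']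

/-- The exchange of two factors is an involution. -/
theorem adjD_adjD (A : DGA k) (n i : ℕ) (x : (pw A n).A) :
    (adjD A n i).hom.f ((adjD A n i).hom.f x) = x := by
  induction n, i using adjD.induct with
  | case1 i => rfl
  | case2 i => rfl
  | case3 n =>
    have h1 := BPow_map (swapIso A A).hom (DHom.id (pw A n)) (fun a => ksw_ksw A.dg A.dg a)
      (fun _ => rfl) ((assocIso A A (pw A n)).inv.f x)
    change (assocIso A A (pw A n)).hom.f (((swapIso A A).hom.tensor (DHom.id (pw A n))).f
      ((assocIso A A (pw A n)).inv.f ((assocIso A A (pw A n)).hom.f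
        (((swapIso A A).hom.tensor (DHom.id (pw A n))).f
          ((assocIso A A (pw A n)).inv.f x))))) = x
    rw [(assocIso A A (pw A n)).hom_inv, h1]
    exact (assocIso A A (pw A n)).inv_hom x
  | case4 n i ih =>
    exact BPow_map (DHom.id A) (adjD A (n + 1) i).hom (fun _ => rfl) (fun a => ih a) x

/-- The tensor powers of a bimodule are symmetric. -/
theorem bx_adj {A B : DGA k} (M : Bim A B) (n i : ℕ) :
    BIso (res (adjD A n i).hom (adjD B n i).hom (bx M n)) (bx M n) := by
  induction n, i using adjD.induct with
  | case1 i => exact BIso.refl (bx M 0)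
  | case2 i => exact BIso.refl (bx M 1)
  | case3 n =>
    have e1 : BIso (res (assocIso A A (pw A n)).hom (assocIso B B (pw B n)).hom
        (box M (box M (bx M n)))) (box (box M M) (bx M n)) := box_assoc M M (bx M n)
    have e2 : BIso (res ((swapIso A A).hom.tensor (DHom.id (pw A n)))
        ((swapIso B B).hom.tensor (DHom.id (pw B n))) (box (box M M) (bx M n)))
        (box (box M M) (bx M n)) :=
      (res_box (swapIso A A).hom (swapIso B B).hom (DHom.id (pw A n)) (DHom.id (pw B n))
        (box M M) (bx M n)).trans
        ((boxR (A.tensor A) (B.tensor B) (bx M n)).biso (box_swap M M))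
    have e3 : BIso (res ((swapIso A A).hom.tensor (DHom.id (pw A n)))
        ((swapIso B B).hom.tensor (DHom.id (pw B n)))
        (res (assocIso A A (pw A n)).hom (assocIso B B (pw B n)).hom (box M (box M (bx M n)))))
        (res (assocIso A A (pw A n)).hom (assocIso B B (pw B n)).hom
          (box M (box M (bx M n)))) :=
      ((resF ((swapIso A A).hom.tensor (DHom.id (pw A n)))
        ((swapIso B B).hom.tensor (DHom.id (pw B n)))).biso e1).trans (e2.trans e1.symm)
    have e4 := (resF (assocIso A A (pw A n)).inv (assocIso B B (pw B n)).inv).biso e3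
    have e5 : res (assocIso A A (pw A n)).inv (assocIso B B (pw B n)).inv
        (res (assocIso A A (pw A n)).hom (assocIso B B (pw B n)).hom
          (box M (box M (bx M n)))) = box M (box M (bx M n)) := by
      have h1 : (assocIso A A (pw A n)).inv.comp (assocIso A A (pw A n)).hom =
          DHom.id (A.tensor (A.tensor (pw A n))) :=
        DHom.ext fun a => (assocIso A A (pw A n)).inv_hom a
      have h2 : (assocIso B B (pw B n)).inv.comp (assocIso B B (pw B n)).hom =
          DHom.id (B.tensor (B.tensor (pw B n))) :=
        DHom.ext fun a => (assocIso B B (pw B n)).inv_hom a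
      change res ((assocIso A A (pw A n)).inv.comp (assocIso A A (pw A n)).hom)
        ((assocIso B B (pw B n)).inv.comp (assocIso B B (pw B n)).hom)
          (box M (box M (bx M n))) = _
      rw [h1, h2]
      rfl
    change BIso (res (assocIso A A (pw A n)).inv (assocIso B B (pw B n)).inv
      (res ((swapIso A A).hom.tensor (DHom.id (pw A n)))
        ((swapIso B B).hom.tensor (DHom.id (pw B n)))
        (res (assocIso A A (pw A n)).hom (assocIso B B (pw B n)).hom
          (box M (box M (bx M n)))))) (box M (box M (bx M n)))
    have e6 : BIso (res (assocIso A A (pw A n)).inv (assocIso B B (pw B n)).inv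
      (res ((swapIso A A).hom.tensor (DHom.id (pw A n)))
        ((swapIso B B).hom.tensor (DHom.id (pw B n)))
        (res (assocIso A A (pw A n)).hom (assocIso B B (pw B n)).hom
          (box M (box M (bx M n)))))) (res (assocIso A A (pw A n)).inv
            (assocIso B B (pw B n)).inv
        (res (assocIso A A (pw A n)).hom (assocIso B B (pw B n)).hom
          (box M (box M (bx M n))))) := e4
    rw [e5] at e6
    exact e6
  | case4 n i ih =>
    change BIso (res ((DHom.id A).tensor (adjD A (n + 1) i).hom)
      ((DHom.id B).tensor (adjD B (n + 1) i).hom) (box M (bx M (n + 1))))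
      (box M (bx M (n + 1)))
    exact (res_box (DHom.id A) (DHom.id B) (adjD A (n + 1) i).hom (adjD B (n + 1) i).hom
      M (bx M (n + 1))).trans ((boxL M (pw A (n + 1)) (pw B (n + 1))).biso ih)

end Pool.Agent.MP_6e5bed_ag_NC
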