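import Pool.Agent.Lib.MP_6e5bed_ag_KC.BFlat
import Pool.Agent.Lib.MP_6e5bed_ag_CV.CorPerf

set_option autoImplicit false
set_option linter.unusedSectionVars false

/-!
# One variable at a time (project KC, part B1)
-/

namespace Pool.Agent.MP_6e5bed_ag_NC

universe u

variable {k : Type u} [Field k] {W G G' W' H K K' : DGA k}

/-- The functor `M ↦ X ⊗_G M` for the first left variable. -/
noncomputable def slotL (X : Bim (base k) G) (K K' : DGA k) : DGFun (G.tensor K) K' K K' :=
  (tbL (box X (diag K)) K').comp (resF (lunitIso K).inv (DHom.id K'))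

/-- The functor `M ↦ M ⊗_{G'} X` for the first right variable. -/
noncomputable def slotR (X : Bim G' (base k)) (K K' : DGA k) : DGFun K (G'.tensor K') K K' :=
  (tbR K (box X (diag K'))).comp (resF (DHom.id K) (lunitIso K').inv)

theorem slotL_obj (X : Bim (base k) G) (M : Bim (G.tensor K) K') : (slotL X K K').obj M =
    res (lunitIso K).inv (DHom.id K') (tb (box X (diag K)) M) := rfl

theorem slotR_obj (X : Bim G' (base k)) (M : Bim K (G'.tensor K')) : (slotR X K K').obj M =
    res (DHom.id K) (lunitIso K').inv (tb M (box X (diag K'))) := rfl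

section aux

variable {A B C D : DGA k}

private theorem BSlot_resR (ψ : DHom D C) (M : Bim A B) (N : Bim B C) :
    BIso (tb M (res (DHom.id B) ψ N)) (res (DHom.id A) ψ (tb M N)) :=
  (res_tb (DHom.id A) ψ M N).symm

private theorem BSlot_resL (φ : DHom D A) (M : Bim A B) (N : Bim B C) :
    BIso (tb (res φ (DHom.id B) M) N) (res φ (DHom.id C) (tb M N)) :=
  (res_tb φ (DHom.id C) M N).symm

private theorem BSlot_inv_hom (φ : DIso A B) : φ.inv.comp φ.hom = DHom.id B :=
  DHom.ext fun a => φ.inv_hom a

private theorem BSlot_id {G G' : DGA k} :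
    (DHom.id G).tensor (DHom.id G') = DHom.id (G.tensor G') :=
  DHom.ext fun x => by
    change TensorProduct.map LinearMap.id LinearMap.id x = x
    rw [TensorProduct.map_id]
    rfl

private theorem BSlot_unit {W W' : DGA k} :
    (lunitIso (base k)).symm.hom.comp ((DHom.unit W).tensor (DHom.unit W')) =
      DHom.unit (W.tensor W') :=
  DHom.ext fun (c : k) => by
    change TensorProduct.map (DHom.unit W).f (DHom.unit W').f (TensorProduct.tmul k (1 : k) c) =
      c • (TensorProduct.tmul k W.one W'.one)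
    rw [TensorProduct.map_tmul]
    change TensorProduct.tmul k ((1 : k) • W.one) (c • W'.one) = _
    rw [one_smul, TensorProduct.tmul_smul]

private theorem BSlot_idid {G G' : DGA k} :
    (DIso.refl (G.tensor G')).hom.comp ((DHom.id G).tensor (DHom.id G')) =
      DHom.id (G.tensor G') := BSlot_id

private theorem BSlot_boxL {W' : DGA k} {Z : Bim W G} {Y : Bim W' G'} (h : Perf (fgL Z))
    (h' : Perf (fgL Y)) : Perf (fgL (box Z Y)) := by
  have h1 := K0Q.res_perf (lunitIso (base k)).symm (DIso.refl (G.tensor G')) (Perf.box h h')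
  have e1 := (resF (lunitIso (base k)).symm.hom (DIso.refl (G.tensor G')).hom).biso
    (res_box (DHom.unit W) (DHom.id G) (DHom.unit W') (DHom.id G') Z Y)
  have e2 : (resF (lunitIso (base k)).symm.hom (DIso.refl (G.tensor G')).hom).obj
      (res ((DHom.unit W).tensor (DHom.unit W')) ((DHom.id G).tensor (DHom.id G')) (box Z Y)) =
      fgL (box Z Y) := by
    change res ((lunitIso (base k)).symm.hom.comp ((DHom.unit W).tensor (DHom.unit W')))
      ((DIso.refl (G.tensor G')).hom.comp ((DHom.id G).tensor (DHom.id G'))) (box Z Y) = _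
    rw [BSlot_idid, BSlot_unit]
    rfl
  rw [e2] at e1
  exact e1.symm.perf h1

private theorem BSlot_boxR {W' : DGA k} {Z : Bim G W} {Y : Bim G' W'} (h : Perf (fgR Z))
    (h' : Perf (fgR Y)) : Perf (fgR (box Z Y)) := by
  have h1 := K0Q.res_perf (DIso.refl (G.tensor G')) (lunitIso (base k)).symm (Perf.box h h')
  have e1 := (resF (DIso.refl (G.tensor G')).hom (lunitIso (base k)).symm.hom).biso
    (res_box (DHom.id G) (DHom.unit W) (DHom.id G') (DHom.unit W') Z Y)
  have e2 : (resF (DIso.refl (G.tensor G')).hom (lunitIso (base k)).symm.hom).obj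
      (res ((DHom.id G).tensor (DHom.id G')) ((DHom.unit W).tensor (DHom.unit W')) (box Z Y)) =
      fgR (box Z Y) := by
    change res ((DIso.refl (G.tensor G')).hom.comp ((DHom.id G).tensor (DHom.id G')))
      ((lunitIso (base k)).symm.hom.comp ((DHom.unit W).tensor (DHom.unit W'))) (box Z Y) = _
    rw [BSlot_idid, BSlot_unit]
    rfl
  rw [e2] at e1
  exact e1.symm.perf h1

private theorem BSlot_ub : DHom.unit (base k) = DHom.id (base k) :=
  DHom.ext fun (c : k) => mul_one c

private theorem BSlot_fin {M N : Bim A B} (h : BIso M N) : M.dg.FinCoh ↔ N.dg.FinCoh := by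
  obtain ⟨φ, ψ, h0, h1, h2⟩ := h
  exact QIso.finCoh φ (qiso_of_inv h0 h1 h2)

/-- `lu⁻¹ (Z ⊠ Y) = Y ⊗ (lu⁻¹ (Z ⊠ diag))`. -/
private theorem BSlot_keyL (X : Bim (base k) G) (Y : Bim H K) :
    BIso (res (lunitIso H).inv (DHom.id (G.tensor K)) (box X Y))
      (tb Y (res (lunitIso K).inv (DHom.id (G.tensor K)) (box X (diag K)))) := by
  have e1 : BIso (tb (box (diag (base k)) Y) (box X (diag K))) (box X Y) :=
    (tb_box_box (diag (base k)) Y X (diag K)).trans
      (((boxR (base k) G (tb Y (diag K))).biso (tb_diag_left X)).trans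
        ((boxL X H K).biso (tb_diag_right Y)))
  have e2 : BIso (tb (res (lunitIso H).hom (lunitIso K).hom Y) (box X (diag K)))
      (tb (box (diag (base k)) Y) (box X (diag K))) :=
    (tbR ((base k).tensor H) (box X (diag K))).biso (box_lunit Y)
  have e3 := (resF (lunitIso H).inv (DHom.id (G.tensor K))).biso (e2.trans e1)
  have e4 : BIso (tb (res (lunitIso H).inv (DHom.id ((base k).tensor K))
        (res (lunitIso H).hom (lunitIso K).hom Y)) (box X (diag K)))
      (res (lunitIso H).inv (DHom.id (G.tensor K))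
        (tb (res (lunitIso H).hom (lunitIso K).hom Y) (box X (diag K)))) :=
    BSlot_resL (lunitIso H).inv (res (lunitIso H).hom (lunitIso K).hom Y) (box X (diag K))
  have e5 : res (lunitIso H).inv (DHom.id ((base k).tensor K))
        (res (lunitIso H).hom (lunitIso K).hom Y) = res (DHom.id H) (lunitIso K).hom Y := by
    change res ((lunitIso H).inv.comp (lunitIso H).hom) (lunitIso K).hom Y = _
    rw [BSlot_inv_hom]
  have e6 := tb_res_mid (lunitIso K) Y
    (res (lunitIso K).inv (DHom.id (G.tensor K)) (box X (diag K)))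
  have e7 : res (lunitIso K).hom (DHom.id (G.tensor K))
      (res (lunitIso K).inv (DHom.id (G.tensor K)) (box X (diag K))) = box X (diag K) := by
    change res ((lunitIso K).symm.inv.comp (lunitIso K).symm.hom) (DHom.id (G.tensor K))
      (box X (diag K)) = _
    rw [BSlot_inv_hom]
    rfl
  rw [e5] at e4
  rw [e7] at e6
  exact e3.symm.trans (e4.symm.trans e6)

private theorem BSlot_keyR (X : Bim G' (base k)) (Y : Bim K' H) :
    BIso (res (DHom.id (G'.tensor K')) (lunitIso H).inv (box X Y))
      (tb (res (DHom.id (G'.tensor K')) (lunitIso K').inv (box X (diag K'))) Y) := by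
  have e1 : BIso (tb (box X (diag K')) (box (diag (base k)) Y)) (box X Y) :=
    (tb_box_box X (diag K') (diag (base k)) Y).trans
      (((boxR G' (base k) (tb (diag K') Y)).biso (tb_diag_right X)).trans
        ((boxL X K' H).biso (tb_diag_left Y)))
  have e2 : BIso (tb (box X (diag K')) (res (lunitIso K').hom (lunitIso H).hom Y))
      (tb (box X (diag K')) (box (diag (base k)) Y)) :=
    (tbL (box X (diag K')) ((base k).tensor H)).biso (box_lunit Y)
  have e3 := (resF (DHom.id (G'.tensor K')) (lunitIso H).inv).biso (e2.trans e1)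
  have e4 : BIso (tb (box X (diag K')) (res (DHom.id ((base k).tensor K')) (lunitIso H).inv
        (res (lunitIso K').hom (lunitIso H).hom Y)))
      (res (DHom.id (G'.tensor K')) (lunitIso H).inv
        (tb (box X (diag K')) (res (lunitIso K').hom (lunitIso H).hom Y))) :=
    BSlot_resR (lunitIso H).inv (box X (diag K')) (res (lunitIso K').hom (lunitIso H).hom Y)
  have e5 : res (DHom.id ((base k).tensor K')) (lunitIso H).inv
        (res (lunitIso K').hom (lunitIso H).hom Y) = res (lunitIso K').hom (DHom.id H) Y := by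
    change res (lunitIso K').hom ((lunitIso H).inv.comp (lunitIso H).hom) Y = _
    rw [BSlot_inv_hom]
  have e6 := tb_res_mid (lunitIso K')
    (res (DHom.id (G'.tensor K')) (lunitIso K').inv (box X (diag K'))) Y
  have e7 : res (DHom.id (G'.tensor K')) (lunitIso K').hom
      (res (DHom.id (G'.tensor K')) (lunitIso K').inv (box X (diag K'))) = box X (diag K') := by
    change res (DHom.id (G'.tensor K')) ((lunitIso K').symm.inv.comp (lunitIso K').symm.hom)
      (box X (diag K')) = _
    rw [BSlot_inv_hom]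
    rfl
  rw [e5] at e4
  rw [e7] at e6
  exact e3.symm.trans (e4.symm.trans e6)

private theorem BSlot_fgL (Z : Bim W G) (Y : Bim H K) :
    BIso (res ((lunitIso H).inv.comp ((DHom.unit W).tensor (DHom.id H)))
      (DHom.id (G.tensor K)) (box Z Y))
      (res (lunitIso H).inv (DHom.id (G.tensor K)) (box (fgL Z) Y)) := by
  have e1 := (resF (lunitIso H).inv (DHom.id (G.tensor K))).biso
    (res_box (DHom.unit W) (DHom.id G) (DHom.id H) (DHom.id K) Z Y)
  rw [BSlot_id] at e1
  exact e1

private theorem BSlot_fgR (Z : Bim G' W') (Y : Bim K' H) :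
    BIso (res (DHom.id (G'.tensor K'))
      ((lunitIso H).inv.comp ((DHom.unit W').tensor (DHom.id H))) (box Z Y))
      (res (DHom.id (G'.tensor K')) (lunitIso H).inv (box (fgR Z) Y)) := by
  have e1 := (resF (DHom.id (G'.tensor K')) (lunitIso H).inv).biso
    (res_box (DHom.id G') (DHom.unit W') (DHom.id K') (DHom.id H) Z Y)
  rw [BSlot_id] at e1
  exact e1

end aux

theorem tb_box_slotL (Z : Bim W G) (Y : Bim H K) (M : Bim (G.tensor K) K') :
    BIso (res ((lunitIso H).inv.comp ((DHom.unit W).tensor (DHom.id H))) (DHom.id K')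
      (tb (box Z Y) M)) (tb Y ((slotL (fgL Z) K K').obj M)) := by
  have e1 := BSlot_resL ((lunitIso H).inv.comp ((DHom.unit W).tensor (DHom.id H))) (box Z Y) M
  have e2 := (tbR H M).biso ((BSlot_fgL Z Y).trans (BSlot_keyL (fgL Z) Y))
  have e3 := tb_assoc Y (res (lunitIso K).inv (DHom.id (G.tensor K)) (box (fgL Z) (diag K))) M
  have e4 := (tbL Y K').biso (BSlot_resL (lunitIso K).inv (box (fgL Z) (diag K)) M)
  exact e1.symm.trans (e2.trans (e3.trans e4))

theorem tb_box_slotR (Z' : Bim G' W') (Y : Bim K' H) (M : Bim K (G'.tensor K')) :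
    BIso (res (DHom.id K) ((lunitIso H).inv.comp ((DHom.unit W').tensor (DHom.id H)))
      (tb M (box Z' Y))) (tb ((slotR (fgR Z') K K').obj M) Y) := by
  have e1 := BSlot_resR ((lunitIso H).inv.comp ((DHom.unit W').tensor (DHom.id H))) M (box Z' Y)
  have e2 := (tbL M H).biso ((BSlot_fgR Z' Y).trans (BSlot_keyR (fgR Z') Y))
  have e3 := tb_assoc M
    (res (DHom.id (G'.tensor K')) (lunitIso K').inv (box (fgR Z') (diag K'))) Y
  have e4 := (tbR K Y).biso (BSlot_resR (lunitIso K').inv M (box (fgR Z') (diag K')))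
  exact e1.symm.trans (e2.trans (e3.symm.trans e4))

theorem slotL_ex {X : Bim (base k) G} (hX : Perf X) (K K' : DGA k) : FEx (slotL X K K') := by
  intro M hM
  have h1 : Perf (fgL X) := by
    have : fgL X = X := by
      unfold fgL
      rw [BSlot_ub]
      rfl
    rw [this]
    exact hX
  have h2 : RPerf (box X (diag K)) := BSlot_boxL h1 (perf_fgL_diag K)
  have h3 : Acyc (tb (box X (diag K)) M) := h2.acyc hM
  exact h3

theorem slotR_ex {X : Bim G' (base k)} (hX : Perf X) (K K' : DGA k) : FEx (slotR X K K') := by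
  intro M hM
  have h1 : Perf (fgR X) := by
    have : fgR X = X := by
      unfold fgR
      rw [BSlot_ub]
      rfl
    rw [this]
    exact hX
  have h2 : LPerf (box X (diag K')) := BSlot_boxR h1 (perf_fgR_diag K')
  have h3 : Acyc (tb M (box X (diag K'))) := h2.acyc hM
  exact h3

variable (Z : Bim W G) (Z' : Bim G' W')

theorem Cc_finCoh_slotL (p q : ℕ) (M : Bim (pw G (p + 1)) (pw G' q)) :
    ((Cc Z Z' (p + 1) q).obj M).dg.FinCoh ↔
      ((Cc Z Z' p q).obj ((slotL (fgL Z) (pw G p) (pw G' q)).obj M)).dg.FinCoh := by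
  have e1 := (tbR (pw W p) (bx Z' q)).biso (tb_box_slotL Z (bx Z p) M)
  have e2 := BSlot_resL ((lunitIso (pw W p)).inv.comp ((DHom.unit W).tensor (DHom.id (pw W p))))
    (tb (box Z (bx Z p)) M) (bx Z' q)
  exact BSlot_fin (e2.symm.trans e1)

theorem Cc_finCoh_slotR (p q : ℕ) (M : Bim (pw G p) (pw G' (q + 1))) :
    ((Cc Z Z' p (q + 1)).obj M).dg.FinCoh ↔
      ((Cc Z Z' p q).obj ((slotR (fgR Z') (pw G p) (pw G' q)).obj M)).dg.FinCoh := by
  have e1 := tb_box_slotR Z' (bx Z' q) (tb (bx Z p) M)
  have e2 := BSlot_resR (lunitIso (pw G' q)).inv (bx Z p)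
    (tb M (box (fgR Z') (diag (pw G' q))))
  have e3 := (resF (DHom.id (pw W p)) (lunitIso (pw G' q)).inv).biso
    (tb_assoc (bx Z p) M (box (fgR Z') (diag (pw G' q))))
  have e4 := (tbR (pw W p) (bx Z' q)).biso (e3.trans e2.symm)
  exact BSlot_fin (e1.trans e4)

end Pool.Agent.MP_6e5bed_ag_NC
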