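import Pool.Agent.Lib.MP_6e5bed_ag_KC.BGam

set_option autoImplicit false
set_option linter.unusedSectionVars false

/-!
# Diagrams of bimodules on the charts, inside a bimodule over the function field (KC, part B)
-/

namespace Pool.Agent.MP_6e5bed_ag_KC

open RatFunc Pool.Agent.MP_6e5bed_ag_NC

universe u

variable {k : Type u} [Field k] {D : FExt k}

/-- The intersection of two charts. -/
def jn (a b : Fin 3) : Fin 3 := if a = b then a else 2

theorem le_jn_left (a b : Fin 3) : Le3 a (jn a b) := by
  unfold jn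
  split_ifs with h
  · exact Le3.refl a
  · exact Le3.two a

theorem le_jn_right (a b : Fin 3) : Le3 b (jn a b) := by
  unfold jn
  split_ifs with h
  · exact Or.inl h.symm
  · exact Le3.two b

/-- Families of elements of `E`, and the actions of the matrices. -/
noncomputable def matE (E : KBi k D.L D.L) : KBi k (Gam D) (Gam' D) where
  M := Fin 3 → Fin 3 → E.M
  l := LinearMap.mk₂ k
    (fun (g : Gam D) (w : Fin 3 → Fin 3 → E.M) => fun a b => ∑ c, E.l (g.1 a c) (w c b))
    (fun g g' w => by
      funext a b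
      change ∑ c, E.l (g.1 a c + g'.1 a c) (w c b) =
        (∑ c, E.l (g.1 a c) (w c b)) + ∑ c, E.l (g'.1 a c) (w c b)
      simp only [map_add, LinearMap.add_apply, Finset.sum_add_distrib])
    (fun r g w => by
      funext a b
      change ∑ c, E.l (r • g.1 a c) (w c b) = r • ∑ c, E.l (g.1 a c) (w c b)
      simp only [map_smul, LinearMap.smul_apply, Finset.smul_sum])
    (fun g w w' => by
      funext a b
      change ∑ c, E.l (g.1 a c) (w c b + w' c b) =
        (∑ c, E.l (g.1 a c) (w c b)) + ∑ c, E.l (g.1 a c) (w' c b)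
      simp only [map_add, Finset.sum_add_distrib])
    (fun r g w => by
      funext a b
      change ∑ c, E.l (g.1 a c) (r • w c b) = r • ∑ c, E.l (g.1 a c) (w c b)
      simp only [map_smul, Finset.smul_sum])
  r := LinearMap.mk₂ k
    (fun (g : Gam' D) (w : Fin 3 → Fin 3 → E.M) => fun a b => ∑ c, E.r (g.1 c b) (w a c))
    (fun g g' w => by
      funext a b
      change ∑ c, E.r (g.1 c b + g'.1 c b) (w a c) =
        (∑ c, E.r (g.1 c b) (w a c)) + ∑ c, E.r (g'.1 c b) (w a c)
      simp only [map_add, LinearMap.add_apply, Finset.sum_add_distrib])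
    (fun r g w => by
      funext a b
      change ∑ c, E.r (r • g.1 c b) (w a c) = r • ∑ c, E.r (g.1 c b) (w a c)
      simp only [map_smul, LinearMap.smul_apply, Finset.smul_sum])
    (fun g w w' => by
      funext a b
      change ∑ c, E.r (g.1 c b) (w a c + w' a c) =
        (∑ c, E.r (g.1 c b) (w a c)) + ∑ c, E.r (g.1 c b) (w' a c)
      simp only [map_add, Finset.sum_add_distrib])
    (fun r g w => by
      funext a b
      change ∑ c, E.r (g.1 c b) (r • w a c) = r • ∑ c, E.r (g.1 c b) (w a c)
      simp only [map_smul, Finset.smul_sum])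
  l_one := fun w => by
    funext a b
    change ∑ c, E.l ((1 : Matrix (Fin 3) (Fin 3) D.L) a c) (w c b) = w a b
    rw [Finset.sum_eq_single a]
    · rw [Matrix.one_apply_eq, E.l_one]
    · intro c _ hc
      rw [Matrix.one_apply_ne hc.symm, map_zero, LinearMap.zero_apply]
    · intro h
      exact absurd (Finset.mem_univ a) h
  r_one := fun w => by
    funext a b
    change ∑ c, E.r ((1 : Matrix (Fin 3) (Fin 3) D.L) c b) (w a c) = w a b
    rw [Finset.sum_eq_single b]
    · rw [Matrix.one_apply_eq, E.r_one]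
    · intro c _ hc
      rw [Matrix.one_apply_ne hc, map_zero, LinearMap.zero_apply]
    · intro h
      exact absurd (Finset.mem_univ b) h
  l_mul := fun g g' w => by
    funext a b
    change ∑ c, E.l ((g.1 * g'.1) a c) (w c b) = ∑ e, E.l (g.1 a e) (∑ c, E.l (g'.1 e c) (w c b))
    simp only [Matrix.mul_apply, map_sum, LinearMap.sum_apply, E.l_mul]
    rw [Finset.sum_comm]
  r_mul := fun g g' w => by
    funext a b
    change ∑ c, E.r ((g.1 * g'.1) c b) (w a c) = ∑ e, E.r (g'.1 e b) (∑ c, E.r (g.1 c e) (w a c))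
    simp only [Matrix.mul_apply, map_sum, LinearMap.sum_apply, E.r_mul]
    rw [Finset.sum_comm]
  l_r := fun g g' w => by
    funext a b
    change ∑ c, E.l (g.1 a c) (∑ e, E.r (g'.1 e b) (w c e)) =
      ∑ e, E.r (g'.1 e b) (∑ c, E.l (g.1 a c) (w c e))
    simp only [map_sum, E.l_r]
    rw [Finset.sum_comm]

/-- A diagram of bimodules on the charts: `M a b` is a bimodule over `BB D a`, `BB D b`. -/
structure Sys2 (D : FExt k) (E : KBi k D.L D.L) where
  M : Fin 3 → Fin 3 → Submodule k E.M
  hl : ∀ a b, ∀ x ∈ BB D a, ∀ m ∈ M a b, E.l x m ∈ M a b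
  hr : ∀ a b, ∀ x ∈ BB D b, ∀ m ∈ M a b, E.r x m ∈ M a b
  le_l : ∀ a b, M a b ≤ M 2 b
  le_r : ∀ a b, M a b ≤ M a 2

namespace Sys2

variable {E : KBi k D.L D.L} (S : Sys2 D E)

theorem mono_l {a a' : Fin 3} (h : Le3 a a') (b : Fin 3) : S.M a b ≤ S.M a' b := by
  rcases h with rfl | rfl
  · exact le_rfl
  · exact S.le_l a b

theorem mono_r {b b' : Fin 3} (h : Le3 b b') (a : Fin 3) : S.M a b ≤ S.M a b' := by
  rcases h with rfl | rfl
  · exact le_rfl
  · exact S.le_r a b

/-- The space of the families `w` with `w a b ∈ M a b`. -/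
noncomputable def N : Submodule k (Fin 3 → Fin 3 → E.M) where
  carrier := {w | ∀ a b, w a b ∈ S.M a b}
  add_mem' := fun {_ _} hw hw' a b => (S.M a b).add_mem (hw a b) (hw' a b)
  zero_mem' := fun a b => (S.M a b).zero_mem
  smul_mem' := fun r _ hw a b => (S.M a b).smul_mem r (hw a b)

theorem mem_N {w : Fin 3 → Fin 3 → E.M} : w ∈ S.N ↔ ∀ a b, w a b ∈ S.M a b := Iff.rfl

theorem N_l (g : Gam D) (w : Fin 3 → Fin 3 → E.M) (hw : w ∈ S.N) : (matE E).l g w ∈ S.N := by
  intro a b
  change (∑ c, E.l (g.1 a c) (w c b)) ∈ S.M a b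
  refine Submodule.sum_mem _ fun c _ => ?_
  by_cases h : Le3 c a
  · exact S.hl a b _ (g.2 a c).1 _ (S.mono_l h b (hw c b))
  · rw [(g.2 a c).2 h, map_zero, LinearMap.zero_apply]
    exact Submodule.zero_mem _

theorem N_r (g : Gam' D) (w : Fin 3 → Fin 3 → E.M) (hw : w ∈ S.N) : (matE E).r g w ∈ S.N := by
  intro a b
  change (∑ c, E.r (g.1 c b) (w a c)) ∈ S.M a b
  refine Submodule.sum_mem _ fun c _ => ?_
  by_cases h : Le3 c b
  · exact S.hr a b _ (g.2 c b).1 _ (S.mono_r h a (hw a c))
  · rw [(g.2 c b).2 h, map_zero, LinearMap.zero_apply]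
    exact Submodule.zero_mem _

/-- The bimodule of a diagram. -/
noncomputable def kbi : KBi k (Gam D) (Gam' D) :=
  subKBi (matE E) (AlgHom.id k (Gam D)) (AlgHom.id k (Gam' D)) S.N S.N_l S.N_r

end Sys2

/-- The function field as a bimodule over itself. -/
noncomputable def LLd (D : FExt k) : KBi k D.L D.L where
  M := D.L
  l := LinearMap.mul k D.L
  r := LinearMap.mul k D.L
  l_one := fun m => one_mul m
  r_one := fun m => one_mul m
  l_mul := fun a a' m => mul_assoc a a' m
  r_mul := fun b b' m => by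
    change b * b' * m = b' * (b * m)
    ring
  l_r := fun a b m => by
    change a * (b * m) = b * (a * m)
    ring

/-- The structure sheaf of the diagonal. -/
noncomputable def Bv (D : FExt k) : Sys2 D (LLd D) where
  M := fun a b => show Submodule k D.L from Subalgebra.toSubmodule (BB D (jn a b))
  hl := fun a b x hx m hm => (BB D (jn a b)).mul_mem (BB_mono D (le_jn_left a b) hx) hm
  hr := fun a b x hx m hm => (BB D (jn a b)).mul_mem (BB_mono D (le_jn_right a b) hx) hm
  le_l := fun a b x hx => by
    have h : jn 2 b = 2 := by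
      unfold jn
      split_ifs with h
      · rfl
      · rfl
    rw [h]
    exact BB_le D _ hx
  le_r := fun a b x hx => by
    have h : jn a 2 = 2 := by
      unfold jn
      split_ifs with h
      · exact h
      · rfl
    rw [h]
    exact BB_le D _ hx

end Pool.Agent.MP_6e5bed_ag_KC
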