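import Pool.Agent.Lib.MP_6e5bed_ag_KC.BPow
import Pool.Agent.Lib.MP_6e5bed_ag_NC.CatSym
import Pool.Agent.Lib.MP_6e5bed_ag_CV.KFin

set_option autoImplicit false
set_option linter.unusedSectionVars false

/-!
# Tensor powers in the category of smooth proper dg algebras (project KC, part B1)
-/

namespace Pool.Agent.MP_6e5bed_ag_NC

open CategoryTheory MonoidalCategory Equiv Pool.Agent.MP_6e5bed_ag

universe u

variable {k : Type u} [CommRing k]

/-- The tensor power as an object of `SP k`. -/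
noncomputable def pwS (X : SP k) (n : ℕ) : SP k :=
  ⟨pw X.alg n, smooth_pw X.smooth n, proper_pw X.proper n⟩

/-- The external product of `n` morphisms. -/
noncomputable def pwFam {X Y : SP k} : {n : ℕ} → (Fin n → (X ⟶ Y)) → (pwS X n ⟶ pwS Y n)
  | 0, _ => 𝟙 (SP.base k)
  | _ + 1, f => SP.tensorHom (f 0) (pwFam fun i => f i.succ)

/-- The two descriptions of the tensor power. -/
noncomputable def tpowIso (X : SP k) : (n : ℕ) → (tpow X n ≅ pwS X n)
  | 0 => Iso.refl (SP.base k)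
  | n + 1 => whiskerLeftIso X (tpowIso X n)

/-- The action of the symmetric group on the tensor power. -/
noncomputable def permS (X : SP k) (n : ℕ) (σ : Perm (Fin n)) : pwS X n ⟶ pwS X n :=
  (tpowIso X n).inv ≫ (perm X n σ : tpow X n ⟶ tpow X n) ≫ (tpowIso X n).hom

private theorem BTpow_hom_succ (X : SP k) (n : ℕ) :
    (tpowIso X (n + 1)).hom = (𝟙 X ⊗ₘ (tpowIso X n).hom : X ⊗ tpow X n ⟶ X ⊗ pwS X n) :=
  (id_tensorHom X (tpowIso X n).hom).symm

private theorem BTpow_fam_succ {X Y : SP k} {n : ℕ} (f : Fin (n + 1) → (X ⟶ Y)) :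
    pwFam f = (f 0 ⊗ₘ pwFam (fun i => f i.succ) : X ⊗ pwS X n ⟶ Y ⊗ pwS Y n) := rfl

theorem tmap_tpowIso {X Y : SP k} (f : X ⟶ Y) (n : ℕ) :
    tmap f n ≫ (tpowIso Y n).hom = (tpowIso X n).hom ≫ pwFam fun _ : Fin n => f := by
  induction n with
  | zero =>
    change 𝟙 (SP.base k) ≫ 𝟙 (SP.base k) = 𝟙 (SP.base k) ≫ 𝟙 (SP.base k)
    rfl
  | succ n ih =>
    rw [BTpow_hom_succ, BTpow_hom_succ, BTpow_fam_succ]
    change (f ⊗ₘ tmap f n) ≫ (𝟙 Y ⊗ₘ (tpowIso Y n).hom) =
      (𝟙 X ⊗ₘ (tpowIso X n).hom) ≫ (f ⊗ₘ pwFam (fun _ : Fin n => f))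
    rw [tensorHom_comp_tensorHom, tensorHom_comp_tensorHom, ih, Category.comp_id,
      Category.id_comp]

private theorem BTpow_adj_zero (X : SP k) {Z W : SP k} (h : Z ⟶ W) :
    ((α_ X X Z).inv ≫ ((β_ X X).hom ▷ Z) ≫ (α_ X X Z).hom) ≫ X ◁ (X ◁ h) =
      X ◁ (X ◁ h) ≫ (α_ X X W).inv ≫ ((β_ X X).hom ▷ W) ≫ (α_ X X W).hom := by
  rw [Category.assoc, Category.assoc, ← associator_naturality_right, ← whisker_exchange_assoc,
    ← associator_inv_naturality_right_assoc]

private theorem BTpow_adj_of (X W : SP k) :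
    (α_ X X W).inv ≫ ((β_ X X).hom ▷ W) ≫ (α_ X X W).hom =
      ofIso (A := X.tensor (X.tensor W)) (B := X.tensor (X.tensor W))
        (((assocIso X.alg X.alg W.alg).symm.trans
          ((swapIso X.alg X.alg).tensor (DIso.refl W.alg))).trans
          (assocIso X.alg X.alg W.alg)) := by
  have h1 : ((β_ X X).hom ▷ W) = ofIso (A := (X.tensor X).tensor W) (B := (X.tensor X).tensor W)
      ((swapIso X.alg X.alg).tensor (DIso.refl W.alg)) :=
    CatMon.tensor_id_right (A := X.tensor X) (B := X.tensor X) (C := W) (swapIso X.alg X.alg)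
  have h2 : (α_ X X W).inv = ofIso (A := X.tensor (X.tensor W)) (B := (X.tensor X).tensor W)
      (assocIso X.alg X.alg W.alg).symm := rfl
  have h3 : (α_ X X W).hom = ofIso (A := (X.tensor X).tensor W) (B := X.tensor (X.tensor W))
      (assocIso X.alg X.alg W.alg) := rfl
  rw [h1, h2, h3, ← Category.assoc]
  refine (congrArg (fun t => t ≫ ofIso (A := (X.tensor X).tensor W)
    (B := X.tensor (X.tensor W)) (assocIso X.alg X.alg W.alg))
    (ofIso_trans (A := X.tensor (X.tensor W)) (B := (X.tensor X).tensor W)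
    (C := (X.tensor X).tensor W) (assocIso X.alg X.alg W.alg).symm
    ((swapIso X.alg X.alg).tensor (DIso.refl W.alg)))).trans ?_
  exact ofIso_trans (A := X.tensor (X.tensor W)) (B := (X.tensor X).tensor W)
    (C := X.tensor (X.tensor W)) _ _

theorem adj_tpowIso (X : SP k) (n i : ℕ) :
    adj X n i ≫ (tpowIso X n).hom =
      (tpowIso X n).hom ≫ ofIso (A := pwS X n) (B := pwS X n) (adjD X.alg n i) := by
  have hrefl : ∀ m, ofIso (A := pwS X m) (B := pwS X m) (DIso.refl (pw X.alg m)) =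
      𝟙 (pwS X m) := fun m => ofIso_refl (A := pwS X m)
  match n, i with
  | 0, i =>
    have h1 : adj X 0 i = 𝟙 (tpow X 0) := rfl
    have h2 : adjD X.alg 0 i = DIso.refl _ := rfl
    rw [h1, h2, hrefl 0]
    exact (Category.id_comp _).trans (Category.comp_id _).symm
  | 1, i =>
    have h1 : adj X 1 i = 𝟙 (tpow X 1) := rfl
    have h2 : adjD X.alg 1 i = DIso.refl _ := rfl
    rw [h1, h2, hrefl 1]
    exact (Category.id_comp _).trans (Category.comp_id _).symm
  | n + 2, 0 =>
    have h1 := BTpow_adj_zero X (tpowIso X n).hom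
    rw [BTpow_adj_of X (pwS X n)] at h1
    exact h1
  | n + 2, i + 1 =>
    have ih := adj_tpowIso X (n + 1) i
    have h1 : X ◁ (ofIso (A := pwS X (n + 1)) (B := pwS X (n + 1)) (adjD X.alg (n + 1) i)) =
        ofIso (A := X.tensor (pwS X (n + 1))) (B := X.tensor (pwS X (n + 1)))
          ((DIso.refl X.alg).tensor (adjD X.alg (n + 1) i)) :=
      CatMon.tensor_id_left (A := pwS X (n + 1)) (B := pwS X (n + 1)) (C := X) _
    have h2 : X ◁ adj X (n + 1) i ≫ X ◁ (tpowIso X (n + 1)).hom =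
        X ◁ (tpowIso X (n + 1)).hom ≫
          X ◁ (ofIso (A := pwS X (n + 1)) (B := pwS X (n + 1)) (adjD X.alg (n + 1) i)) := by
      rw [← MonoidalCategory.whiskerLeft_comp, ← MonoidalCategory.whiskerLeft_comp, ih]
    rw [h1] at h2
    exact h2

theorem permS_one (X : SP k) (n : ℕ) : permS X n 1 = 𝟙 (pwS X n) := by
  unfold permS
  rw [map_one]
  have h1 : ((1 : End (tpow X n)) : tpow X n ⟶ tpow X n) = 𝟙 (tpow X n) := rfl
  rw [h1, Category.id_comp, Iso.inv_hom_id]

theorem permS_mul (X : SP k) (n : ℕ) (σ τ : Perm (Fin n)) :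
    permS X n (σ * τ) = permS X n τ ≫ permS X n σ := by
  unfold permS
  rw [map_mul, End.mul_def]
  simp only [Category.assoc, Iso.hom_inv_id_assoc]

theorem permS_adj (X : SP k) (n i : ℕ) (h : i + 1 < n) :
    permS X n (swap ⟨i, (Nat.lt_succ_self i).trans h⟩ ⟨i + 1, h⟩) =
      ofIso (A := pwS X n) (B := pwS X n) (adjD X.alg n i) := by
  unfold permS
  rw [perm_adj X n i h, adj_tpowIso, Iso.inv_hom_id_assoc]

theorem pwFam_comp {X Y Z : SP k} {n : ℕ} (f : Fin n → (X ⟶ Y)) (g : Fin n → (Y ⟶ Z)) :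
    pwFam f ≫ pwFam g = pwFam fun i => f i ≫ g i := by
  induction n with
  | zero => exact Category.id_comp (𝟙 (SP.base k))
  | succ n ih =>
    rw [BTpow_fam_succ, BTpow_fam_succ, BTpow_fam_succ, ← ih]
    exact tensorHom_comp_tensorHom _ _ _ _

/-- The external product is multilinear. -/
theorem pwFam_sum {X Y : SP k} {n m : ℕ} (c : Fin m → ℚ) (g : Fin m → (X ⟶ Y)) :
    pwFam (fun _ : Fin n => ∑ j, c j • g j) =
      ∑ κ : Fin n → Fin m, (∏ i, c (κ i)) • pwFam fun i => g (κ i) := by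
  induction n with
  | zero =>
    refine Eq.symm ((Fintype.sum_unique _).trans ?_)
    rw [Finset.univ_eq_empty, Finset.prod_empty, one_smul]
    rfl
  | succ n ih =>
    have h1 : pwFam (fun _ : Fin (n + 1) => ∑ j, c j • g j) =
        K0Q.box (∑ j, c j • g j : X ⟶ Y) (pwFam (fun _ : Fin n => ∑ j, c j • g j)) := rfl
    have h2 : K0Q.box (∑ j, c j • g j : X ⟶ Y)
        (∑ κ : Fin n → Fin m, (∏ i, c (κ i)) • pwFam fun i => g (κ i)) =
        ∑ j, ∑ κ : Fin n → Fin m, (c j * ∏ i, c (κ i)) •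
          K0Q.box (g j) (pwFam fun i => g (κ i)) := by
      have hL : K0Q.box (A' := (pwS X n).alg) (B' := (pwS Y n).alg) (∑ j, c j • g j : X ⟶ Y) =
          ∑ j, c j • K0Q.box (g j) := by
        refine (map_sum K0Q.box _ _).trans (Finset.sum_congr rfl fun j _ => ?_)
        exact map_smul K0Q.box (c j) (g j)
      rw [hL, LinearMap.sum_apply]
      refine Finset.sum_congr rfl fun j _ => ?_
      rw [map_sum]
      refine Finset.sum_congr rfl fun κ _ => ?_
      rw [LinearMap.smul_apply, map_smul, smul_smul]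
    rw [h1, ih, h2, ← Fintype.sum_prod_type' (f := fun (j : Fin m) (κ : Fin n → Fin m) =>
      (c j * ∏ i, c (κ i)) • K0Q.box (g j) (pwFam fun i => g (κ i)))]
    refine Fintype.sum_equiv (Fin.consEquiv fun _ => Fin m) _ _ fun p => ?_
    rw [Fin.prod_univ_succ]
    rfl

theorem permS_nat {X Y : SP k} {n : ℕ} (f : X ⟶ Y) (σ : Perm (Fin n)) :
    pwFam (fun _ : Fin n => f) ≫ permS Y n σ = permS X n σ ≫ pwFam fun _ : Fin n => f := by
  have h1 : pwFam (fun _ : Fin n => f) = (tpowIso X n).inv ≫ tmap f n ≫ (tpowIso Y n).hom := by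
    rw [tmap_tpowIso, Iso.inv_hom_id_assoc]
  rw [h1]
  unfold permS
  simp only [Category.assoc, Iso.hom_inv_id_assoc]
  rw [← Category.assoc (tmap f n), perm_naturality, Category.assoc]

private theorem BTpow_symm (A : DGA k) (n i : ℕ) : (adjD A n i).symm = adjD A n i := by
  refine DIso.ext fun x => ?_
  have h1 : (adjD A n i).symm.hom.f ((adjD A n i).hom.f ((adjD A n i).hom.f x)) =
      (adjD A n i).hom.f x := (adjD A n i).hom_inv ((adjD A n i).hom.f x)
  rw [adjD_adjD] at h1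
  exact h1

/-- The composition with the exchange of two factors is the restriction. -/
theorem comp_adjD (X Y : SP k) (n i : ℕ) (f : Y ⟶ pwS X n) :
    f ≫ ofIso (A := pwS X n) (B := pwS X n) (adjD X.alg n i) =
      K0Q.res (DIso.refl Y.alg) (adjD X.alg n i) f := by
  have h1 := BTpow_symm X.alg n i
  exact (comp_ofIso (A := Y) (B := pwS X n) (C := pwS X n) f (adjD X.alg n i)).trans
    (congrArg (fun φ => K0Q.res (DIso.refl Y.alg) φ f) h1)

theorem adjD_comp (X Y : SP k) (n i : ℕ) (f : pwS X n ⟶ Y) :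
    ofIso (A := pwS X n) (B := pwS X n) (adjD X.alg n i) ≫ f =
      K0Q.res (adjD X.alg n i) (DIso.refl Y.alg) f :=
  ofIso_comp (A := pwS X n) (B := pwS X n) (adjD X.alg n i) f

/-- `Sym^n(b) = 0` in terms of `pwFam` and `permS`. -/
theorem symSum_of_pwS {X : SP k} {n : ℕ} (f : X ⟶ X)
    (h : ∑ σ : Perm (Fin n), pwFam (fun _ : Fin n => f) ≫ permS X n σ = 0) :
    symSum X n ≫ tmap f n = 0 := by
  rw [← cancel_mono (tpowIso X n).hom, ← cancel_epi (tpowIso X n).inv, Limits.zero_comp,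
    Limits.comp_zero, Category.assoc, tmap_tpowIso, ← h]
  unfold symSum
  rw [Preadditive.sum_comp, Preadditive.comp_sum]
  refine Finset.sum_congr rfl fun σ _ => ?_
  rw [permS_nat]
  unfold permS
  simp only [Category.assoc]

end Pool.Agent.MP_6e5bed_ag_NC
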