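import Pool.Agent.Lib.MP_6e5bed_ag_KC.DA

set_option autoImplicit false

/-!
# KC, part D: finiteness, integral closedness
-/

namespace Pool.Agent.MP_6e5bed_ag_KC

universe u

variable {A : Type u} [CommRing A] {L : Type u} [Field L] [Algebra A L] {p : Ideal A}
  [IsDedekindDomain A] [IsFractionRing A L]

/-- `pInv j` is a fractional ideal: for `0 ≠ a ∈ p ^ j`, `a pInv j ⊆ A`; `A` is noetherian. -/
theorem pInv_fg [p.IsMaximal] (hp : p ≠ ⊥) (j : ℕ) : (pInv A L p j).FG := by
  have h1 : p ^ j ≠ ⊥ := pow_ne_zero j hp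
  obtain ⟨a, ha, ha0⟩ := Submodule.exists_mem_ne_zero_of_ne_bot h1
  have ha1 : algebraMap A L a ≠ 0 := fun h => ha0 (IsFractionRing.injective A L
    (h.trans (map_zero (algebraMap A L)).symm))
  have hinj : Function.Injective (LinearMap.lsmul A L a) := by
    intro f g h
    change a • f = a • g at h
    rw [Algebra.smul_def, Algebra.smul_def] at h
    exact mul_left_cancel₀ ha1 h
  refine Submodule.fg_of_fg_map_injective (LinearMap.lsmul A L a) hinj ?_
  have h2 : (pInv A L p j).map (LinearMap.lsmul A L a) ≤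
      LinearMap.range (Algebra.linearMap A L) := by
    rintro _ ⟨f, hf, rfl⟩
    obtain ⟨b, hb⟩ := hf a ha
    refine ⟨b, ?_⟩
    change algebraMap A L b = a • f
    rw [hb, Algebra.smul_def]
  have h3 : IsNoetherian A (LinearMap.range (Algebra.linearMap A L)) := isNoetherian_range _
  have h4 : IsNoetherian A ((pInv A L p j).map (LinearMap.lsmul A L a)) :=
    isNoetherian_of_le h2
  exact Module.Finite.iff_fg.1 inferInstance

/-- `pU` is integrally closed in `L`: if `x` is a root of a monic polynomial with coefficients `c`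
with `p ^ j c ⊆ A`, then `y x` is integral over `A` for all `y ∈ p ^ j`. -/
theorem pU_integral [p.IsMaximal] (hp : p ≠ ⊥) {x : L} (hx : IsIntegral (pU A L p) x) :
    x ∈ pU A L p := by
  obtain ⟨P, hP, hPx⟩ := hx
  have h1 : ∀ i : ℕ, ∃ j, ((P.coeff i : pU A L p) : L) ∈ pInv A L p j := fun i =>
    (P.coeff i).2
  choose J hJ using h1
  have h2 : ∀ i < P.natDegree, ((P.coeff i : pU A L p) : L) ∈
      pInv A L p ((Finset.range P.natDegree).sup J) := fun i hi =>
    pInv_mono (Finset.le_sup (Finset.mem_range.2 hi)) (hJ i)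
  refine ⟨(Finset.range P.natDegree).sup J, fun y hy => ?_⟩
  have h3 : ∀ i : Fin P.natDegree, ∃ b : A, algebraMap A L b =
      algebraMap A L y ^ (P.natDegree - i) * ((P.coeff i : pU A L p) : L) := by
    intro i
    obtain ⟨b, hb⟩ := h2 i i.2 y hy
    refine ⟨y ^ (P.natDegree - i - 1) * b, ?_⟩
    rw [map_mul, map_pow, hb, ← mul_assoc, ← pow_succ]
    congr 2
    have := i.2
    omega
  choose b hb using h3
  refine IsIntegrallyClosed.isIntegral_iff.1
    ⟨Polynomial.X ^ P.natDegree + ∑ i : Fin P.natDegree, Polynomial.C (b i) *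
      Polynomial.X ^ (i : ℕ), Polynomial.monic_X_pow_add (Polynomial.degree_sum_fin_lt b), ?_⟩
  rw [Polynomial.eval₂_eq_sum_range, Finset.sum_range_succ, hP.coeff_natDegree, map_one,
    one_mul] at hPx
  rw [Polynomial.eval₂_add, Polynomial.eval₂_pow, Polynomial.eval₂_X, Polynomial.eval₂_finsetSum]
  have h4 : ∑ i : Fin P.natDegree, Polynomial.eval₂ (algebraMap A L) (algebraMap A L y * x)
      (Polynomial.C (b i) * Polynomial.X ^ (i : ℕ)) = algebraMap A L y ^ P.natDegree *
        ∑ i ∈ Finset.range P.natDegree, algebraMap (pU A L p) L (P.coeff i) * x ^ i := by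
    rw [Finset.mul_sum, ← Fin.sum_univ_eq_sum_range (fun i => algebraMap A L y ^ P.natDegree *
      (algebraMap (pU A L p) L (P.coeff i) * x ^ i))]
    refine Finset.sum_congr rfl fun i _ => ?_
    rw [Polynomial.eval₂_mul, Polynomial.eval₂_C, Polynomial.eval₂_pow, Polynomial.eval₂_X, hb]
    have h5 : algebraMap A L y ^ P.natDegree = algebraMap A L y ^ (P.natDegree - i) *
        algebraMap A L y ^ (i : ℕ) := by
      rw [← pow_add]
      congr 1
      have := i.2
      omega
    rw [h5, mul_pow]
    change _ = _ * (((P.coeff i : pU A L p) : L) * _)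
    ring
  rw [h4, mul_pow]
  linear_combination algebraMap A L y ^ P.natDegree * hPx

end Pool.Agent.MP_6e5bed_ag_KC
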