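import Pool.Agent.Lib.MP_6e5bed_ag_KC.DA

set_option autoImplicit false

/-!
# KC, part D: the order of a pole is additive
-/

namespace Pool.Agent.MP_6e5bed_ag_KC

universe u

variable {A : Type u} [CommRing A] {L : Type u} [Field L] [Algebra A L] {p : Ideal A}
  [IsDedekindDomain A] [IsFractionRing A L]

namespace DAo

/-- an element which multiplies `p` to itself is in `A` -/
theorem mem_of_stable (hp : p ≠ ⊥) {x : L}
    (hx : ∀ c ∈ p, ∃ b ∈ p, algebraMap A L b = algebraMap A L c * x) :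
    ∃ b : A, algebraMap A L b = x := by
  have hint : IsIntegral A x := by
    refine isIntegral_of_smul_mem_submodule (M := L)
      (Submodule.map (Algebra.linearMap A L) p) ?_ ?_ x ?_
    · intro h
      obtain ⟨a, ha, ha0⟩ := Submodule.exists_mem_ne_zero_of_ne_bot hp
      have h1 : algebraMap A L a ∈ Submodule.map (Algebra.linearMap A L) p := ⟨a, ha, rfl⟩
      rw [h, Submodule.mem_bot] at h1
      exact ha0 ((map_eq_zero_iff _ (IsFractionRing.injective A L)).1 h1)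
    · exact (IsNoetherian.noetherian p).map _
    · rintro _ ⟨c, hc, rfl⟩
      obtain ⟨b, hb, hb'⟩ := hx c hc
      refine ⟨b, hb, ?_⟩
      rw [Algebra.linearMap_apply, Algebra.linearMap_apply, hb', smul_eq_mul, mul_comm]
  exact IsIntegrallyClosed.isIntegral_iff.1 hint

/-- if `p ^ (m + 1) f` is contained in `p` then `p ^ m f` is contained in `A` -/
theorem mem_of_prev (hp : p ≠ ⊥) {m : ℕ} {f : L}
    (h : ∀ a ∈ p ^ (m + 1), ∃ b ∈ p, algebraMap A L b = algebraMap A L a * f) :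
    f ∈ pInv A L p m := by
  intro a ha
  refine mem_of_stable hp fun c hc => ?_
  obtain ⟨b, hb, hb'⟩ := h (a * c) (by
    rw [pow_succ]
    exact Ideal.mul_mem_mul ha hc)
  refine ⟨b, hb, ?_⟩
  rw [hb', map_mul]
  ring

/-- the leading coefficient -/
theorem exists_unit (hp : p ≠ ⊥) {m : ℕ} {f : L} (h1 : f ∈ pInv A L p (m + 1))
    (h2 : f ∉ pInv A L p m) :
    ∃ a ∈ p ^ (m + 1), ∃ b ∉ p, algebraMap A L b = algebraMap A L a * f := by
  by_contra hcon
  push Not at hcon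
  refine h2 (mem_of_prev hp fun a ha => ?_)
  obtain ⟨b, hb⟩ := h1 a ha
  refine ⟨b, ?_, hb⟩
  by_contra hb'
  exact hcon a ha b hb' hb

omit [IsDedekindDomain A] in
/-- `p ^ (m + 1)` times an element of `pInv m` is in `p` -/
theorem mem_next {m : ℕ} {f : L} (h : f ∈ pInv A L p m) {a : A} (ha : a ∈ p ^ (m + 1))
    {b : A} (hb : algebraMap A L b = algebraMap A L a * f) : b ∈ p := by
  have key : ∀ a ∈ p ^ (m + 1), ∃ b ∈ p, algebraMap A L b = algebraMap A L a * f := by
    intro a ha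
    rw [pow_succ] at ha
    refine Submodule.mul_induction_on
      (C := fun a => ∃ b ∈ p, algebraMap A L b = algebraMap A L a * f) ha ?_ ?_
    · intro x hx y hy
      obtain ⟨b, hb⟩ := h x hx
      refine ⟨b * y, Ideal.mul_mem_left _ _ hy, ?_⟩
      rw [map_mul, map_mul, hb]
      ring
    · rintro x y ⟨b, hb, hb'⟩ ⟨c, hc, hc'⟩
      exact ⟨b + c, p.add_mem hb hc, by rw [map_add, map_add, hb', hc', add_mul]⟩
  obtain ⟨b', hb1, hb2⟩ := key a ha
  have h1 : b = b' := IsFractionRing.injective A L (hb.trans hb2.symm)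
  rw [h1]
  exact hb1

omit [IsDedekindDomain A] [IsFractionRing A L] in
/-- the exact order of a pole -/
theorem exists_ord {i : ℕ} {f : L} (hf : f ∈ pU A L p) (hfi : f ∉ pInv A L p i) :
    ∃ m, i ≤ m ∧ f ∈ pInv A L p (m + 1) ∧ f ∉ pInv A L p m := by
  classical
  obtain ⟨n, hn⟩ := hf
  have hex : ∃ n, f ∈ pInv A L p n := ⟨n, hn⟩
  have h0 : i < Nat.find hex := by
    by_contra h
    exact hfi (pInv_mono (not_lt.1 h) (Nat.find_spec hex))
  refine ⟨Nat.find hex - 1, by omega, ?_, Nat.find_min hex (by omega)⟩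
  have h1 : Nat.find hex - 1 + 1 = Nat.find hex := by omega
  rw [h1]
  exact Nat.find_spec hex

end DAo

/-- `ord_mul`: for `0 ≠ f` in `pU` the fractional ideal `(f)` is `p ^ (-m) c` with an ideal `c ⊄ p`
of `A` and `m ∈ ℤ`, and `f ∈ pInv j` if and only if `m ≤ j`. These `m` are additive. -/
theorem pInv_ord [p.IsPrime] (hp : p ≠ ⊥) {i j : ℕ} {f g : L} (hf : f ∈ pU A L p)
    (hg : g ∈ pU A L p) (hfi : f ∉ pInv A L p i) (hgj : g ∉ pInv A L p j) :
    f * g ∉ pInv A L p (i + j + 1) := by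
  obtain ⟨m, hm, hf1, hf2⟩ := DAo.exists_ord hf hfi
  obtain ⟨n, hn, hg1, hg2⟩ := DAo.exists_ord hg hgj
  obtain ⟨a, ha, b, hb, hab⟩ := DAo.exists_unit hp hf1 hf2
  obtain ⟨a', ha', b', hb', hab'⟩ := DAo.exists_unit hp hg1 hg2
  intro h
  have h1 : f * g ∈ pInv A L p (m + n + 1) := pInv_mono (by omega) h
  have h2 : a * a' ∈ p ^ (m + n + 1 + 1) := by
    have h3 : m + n + 1 + 1 = (m + 1) + (n + 1) := by omega
    rw [h3, pow_add]
    exact Ideal.mul_mem_mul ha ha'
  have h3 : b * b' ∈ p := DAo.mem_next h1 h2 (by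
    rw [map_mul, map_mul, hab, hab']
    ring)
  rcases Ideal.IsPrime.mem_or_mem inferInstance h3 with h4 | h4
  · exact hb h4
  · exact hb' h4

/-- `pInv (j + 1) / pInv j` is a line over the residue field `k`. -/
theorem pInv_line {k : Type u} [Field k] [Algebra k A] [p.IsMaximal] (hp : p ≠ ⊥)
    (hk : ∀ a : A, ∃ c : k, a - algebraMap k A c ∈ p) (j : ℕ) :
    ∃ f₀ ∈ pInv A L p (j + 1), f₀ ∉ pInv A L p j ∧ ∀ f ∈ pInv A L p (j + 1), ∃ c : k,
      f - algebraMap A L (algebraMap k A c) * f₀ ∈ pInv A L p j := by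
  have hpr : p.IsPrime := Ideal.IsMaximal.isPrime inferInstance
  have hp1 : p ≠ ⊤ := hpr.ne_top
  obtain ⟨x, hx1, hx2⟩ := FractionalIdeal.exists_notMem_one_of_ne_bot (K := L) hp hp1
  have hx1' : x ∈ pInv A L p 1 := by
    intro a ha
    rw [pow_one] at ha
    have h1 := (FractionalIdeal.mem_inv_iff (FractionalIdeal.coeIdeal_ne_zero.2 hp)).1 hx1
      (algebraMap A L a) (FractionalIdeal.mem_coeIdeal_of_mem _ ha)
    obtain ⟨b, hb⟩ := (FractionalIdeal.mem_one_iff _).1 h1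
    exact ⟨b, by rw [hb, mul_comm]⟩
  have hx2' : x ∉ pInv A L p 0 := by
    intro h
    exact hx2 ((FractionalIdeal.mem_one_iff _).2 ((mem_pInv_zero x).1 h))
  have hpow : ∀ j : ℕ, x ^ (j + 1) ∈ pInv A L p (j + 1) ∧ x ^ (j + 1) ∉ pInv A L p j := by
    intro j
    induction j with
    | zero =>
      rw [zero_add, pow_one]
      exact ⟨hx1', hx2'⟩
    | succ j ih =>
      have e1 : x ^ (j + 1 + 1) = x ^ (j + 1) * x := pow_succ x (j + 1)
      rw [e1]
      have h3 : x ^ (j + 1) ∈ pU A L p := ⟨j + 1, ih.1⟩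
      have h4 : x ∈ pU A L p := ⟨1, hx1'⟩
      exact ⟨pInv_mul ih.1 hx1', pInv_ord (i := j) (j := 0) hp h3 h4 ih.2 hx2'⟩
  obtain ⟨h1, h2⟩ := hpow j
  refine ⟨x ^ (j + 1), h1, h2, fun f hf => ?_⟩
  obtain ⟨a, ha, b, hb, hab⟩ := DAo.exists_unit hp h1 h2
  have ha' : a ∉ p ^ (j + 1 + 1) := fun h => hb (DAo.mem_next h1 h hab)
  obtain ⟨b', hb'⟩ := hf a ha
  obtain ⟨β, hβ⟩ := hk b
  obtain ⟨β', hβ'⟩ := hk b'
  have hβ0 : β ≠ 0 := by
    rintro rfl
    rw [map_zero, sub_zero] at hβ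
    exact hb hβ
  refine ⟨β' / β, DAo.mem_of_prev hp fun c hc => ?_⟩
  obtain ⟨d, e, he, hde⟩ := Ideal.exists_mul_add_mem_pow_succ hp a c ha ha' hc
  have h3 : f - algebraMap A L (algebraMap k A (β' / β)) * x ^ (j + 1) ∈
      pInv A L p (j + 1) := by
    refine Submodule.sub_mem _ hf ?_
    rw [← Algebra.smul_def]
    exact Submodule.smul_mem _ _ h1
  obtain ⟨r, hr⟩ := h3 c hc
  obtain ⟨r2, hr2⟩ := h3 e (Ideal.pow_le_pow_right (by omega) he)
  refine ⟨r, ?_, hr⟩
  have h4 : r2 ∈ p := DAo.mem_next h3 he hr2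
  have h5 : b' - algebraMap k A (β' / β) * b ∈ p := by
    have h6 : b' - algebraMap k A (β' / β) * b = (b' - algebraMap k A β') -
        algebraMap k A (β' / β) * (b - algebraMap k A β) := by
      have h7 : algebraMap k A β' = algebraMap k A (β' / β) * algebraMap k A β := by
        rw [← map_mul, div_mul_cancel₀ _ hβ0]
      rw [h7]
      ring
    rw [h6]
    exact p.sub_mem hβ' (p.mul_mem_left _ hβ)
  have h6 : r = d * (b' - algebraMap k A (β' / β) * b) + r2 := by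
    apply IsFractionRing.injective A L
    rw [hr, ← hde, map_add, map_add, map_mul, map_mul, map_sub, map_mul, hr2, hb', hab]
    ring
  rw [h6]
  exact p.add_mem (p.mul_mem_left _ h5) h4

end Pool.Agent.MP_6e5bed_ag_KC
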