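import Mathlib

set_option autoImplicit false

/-!
# KC, part D: filtered domains with one-dimensional graded pieces
-/

namespace Pool.Agent.MP_6e5bed_ag_KC

universe u

/-- An increasing multiplicative filtration `F j` of a domain `B` by finite-dimensional spaces, such
that the order of poles is additive and `dim F j = j + 1 - g` for large `j`. -/
structure Filt (k : Type u) [Field k] (B : Type u) [CommRing B] [Algebra k B] where
  F : ℕ → Submodule k B
  g : ℤ
  j₀ : ℕ
  mono : Monotone F
  mem_zero : ∀ b, b ∈ F 0 ↔ ∃ c : k, algebraMap k B c = b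
  mul_mem : ∀ {i j a b}, a ∈ F i → b ∈ F j → a * b ∈ F (i + j)
  exhaust : ∀ b, ∃ j, b ∈ F j
  ord_mul : ∀ {i j a b}, a ∉ F i → b ∉ F j → a * b ∉ F (i + j + 1)
  fin : ∀ j, Module.Finite k (F j)
  finrank : ∀ j, j₀ ≤ j → (Module.finrank k (F j) : ℤ) = j + 1 - g

variable {k : Type u} [Field k] {B : Type u} [CommRing B] [IsDomain B] [Algebra k B]

/-- There are nonconstant elements. -/
theorem Filt.exists_not_mem (W : Filt k B) : ∃ f : B, f ∉ W.F 0 := by
  by_contra hc
  push Not at hc
  have h1 := W.finrank (W.j₀ + W.g.toNat + 2) (by omega)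
  have h2 : W.F (W.j₀ + W.g.toNat + 2) ≤ LinearMap.range (Algebra.linearMap k B) := by
    intro b _
    obtain ⟨c, hc'⟩ := (W.mem_zero b).1 (hc b)
    exact ⟨c, hc'⟩
  have h3 := Submodule.finrank_mono h2
  have h4 := LinearMap.finrank_range_le (Algebra.linearMap k B)
  rw [Module.finrank_self] at h4
  have h5 := Int.self_le_toNat W.g
  push_cast at h1
  omega

/-- For `f ∉ F 0` the ring `B` is a finitely generated module over `k[f]`.

Proof. Let `e ≥ 1` be the least number with `f ∈ F e`, `M = j₀ + e + 1`. For `j > M` choose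
`c ∈ F (j - e)`, `c ∉ F (j - e - 1)` (`finrank`); then `f c ∈ F j`, `f c ∉ F (j - 1)` (`ord_mul`
for `f ∉ F (e - 1)`), and `dim F j / F (j - 1) = 1`, so `F j = F (j - 1) + f F (j - e)`. By
induction `B = ∑_i f^i F M`, and `F M` is finite-dimensional. -/
theorem Filt.finite_adjoin (W : Filt k B) {f : B} (hf : f ∉ W.F 0) :
    Module.Finite (Algebra.adjoin k {f}) B := by
  classical
  obtain ⟨e, he, hmin⟩ : ∃ e, f ∈ W.F e ∧ ∀ i < e, f ∉ W.F i :=
    ⟨Nat.find (W.exhaust f), Nat.find_spec (W.exhaust f), fun i hi => Nat.find_min _ hi⟩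
  have he1 : 1 ≤ e := by
    by_contra h
    have h0 : e = 0 := by omega
    rw [h0] at he
    exact hf he
  obtain ⟨M, hM⟩ : ∃ M, M = W.j₀ + e + 1 := ⟨_, rfl⟩
  have hstep : ∀ j, M < j → ∃ c ∈ W.F (j - e), ∀ b ∈ W.F j, ∃ a ∈ W.F (j - 1), ∃ t : k,
      b = a + t • (f * c) := by
    intro j hj
    obtain ⟨c, hc, hc'⟩ : ∃ c ∈ W.F (j - e), c ∉ W.F (j - e - 1) := by
      by_contra h
      push Not at h
      have h1 : W.F (j - e) ≤ W.F (j - e - 1) := h
      have := W.fin (j - e - 1)
      have h2 := Submodule.finrank_mono h1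
      have h3 := W.finrank (j - e) (by omega)
      have h4 := W.finrank (j - e - 1) (by omega)
      have h5 : ((j - e : ℕ) : ℤ) = ((j - e - 1 : ℕ) : ℤ) + 1 := by
        have h6 : j - e = (j - e - 1) + 1 := by omega
        exact_mod_cast h6
      omega
    refine ⟨c, hc, ?_⟩
    have h1 : f * c ∈ W.F j := by
      have h2 := W.mul_mem he hc
      rwa [show e + (j - e) = j by omega] at h2
    have h2 : f * c ∉ W.F (j - 1) := by
      have h3 := W.ord_mul (hmin (e - 1) (by omega)) hc'
      rwa [show e - 1 + (j - e - 1) + 1 = j - 1 by omega] at h3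
    have h3 : W.F (j - 1) ⊔ Submodule.span k {f * c} ≤ W.F j := by
      refine sup_le (W.mono (by omega)) ?_
      rw [Submodule.span_le, Set.singleton_subset_iff]
      exact h1
    have h4 : W.F (j - 1) < W.F (j - 1) ⊔ Submodule.span k {f * c} := by
      refine lt_of_le_of_ne le_sup_left fun h => h2 ?_
      rw [h]
      exact Submodule.mem_sup_right (Submodule.mem_span_singleton_self _)
    have : Module.Finite k (W.F j) := W.fin j
    have : Module.Finite k (W.F (j - 1) ⊔ Submodule.span k {f * c} : Submodule k B) :=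
      Submodule.finiteDimensional_of_le h3
    have h5 := Submodule.finrank_lt_finrank_of_lt h4
    have h6 := W.finrank j (by omega)
    have h7 := W.finrank (j - 1) (by omega)
    have h8 : ((j : ℕ) : ℤ) = ((j - 1 : ℕ) : ℤ) + 1 := by
      have h9 : j = (j - 1) + 1 := by omega
      exact_mod_cast h9
    have h10 := Submodule.eq_of_le_of_finrank_le h3 (by omega)
    intro b hb
    rw [← h10] at hb
    obtain ⟨a, ha, y, hy, hab⟩ := Submodule.mem_sup.1 hb
    obtain ⟨t, ht⟩ := Submodule.mem_span_singleton.1 hy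
    exact ⟨a, ha, t, by rw [← hab, ht]⟩
  obtain ⟨S, hS⟩ : (W.F M).FG := Module.Finite.iff_fg.1 (W.fin M)
  obtain ⟨N, hN⟩ : ∃ N : Submodule (Algebra.adjoin k {f}) B,
    N = Submodule.span (Algebra.adjoin k {f}) (S : Set B) := ⟨_, rfl⟩
  have hN1 : ∀ b ∈ W.F M, b ∈ N := by
    have h1 : W.F M ≤ N.restrictScalars k := by
      rw [← hS, Submodule.span_le]
      intro b hb
      rw [hN]
      exact Submodule.subset_span hb
    exact fun b hb => h1 hb
  have hN2 : ∀ j, ∀ b ∈ W.F j, b ∈ N := by
    intro j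
    induction j using Nat.strong_induction_on with
    | _ j ih =>
      intro b hb
      by_cases hj : j ≤ M
      · exact hN1 b (W.mono hj hb)
      · obtain ⟨c, hc, h⟩ := hstep j (by omega)
        obtain ⟨a, ha, t, hab⟩ := h b hb
        rw [hab]
        refine N.add_mem (ih (j - 1) (by omega) a ha) ?_
        have h1 : c ∈ N := ih (j - e) (by omega) c hc
        have h2 : t • (f * c) = (t • (⟨f, Algebra.subset_adjoin (Set.mem_singleton f)⟩ :
            Algebra.adjoin k {f})) • c := by
          rw [Subalgebra.smul_def]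
          simp
        rw [h2]
        exact N.smul_mem _ h1
  refine ⟨⟨S, ?_⟩⟩
  rw [← hN, eq_top_iff]
  intro b _
  obtain ⟨j, hj⟩ := W.exhaust b
  exact hN2 j b hj

theorem Filt.finiteType (W : Filt k B) : Algebra.FiniteType k B := by
  obtain ⟨f, hf⟩ := W.exists_not_mem
  have := W.finite_adjoin hf
  have : Algebra.FiniteType k (Algebra.adjoin k {f}) := by
    rw [← Subalgebra.fg_iff_finiteType]
    exact ⟨{f}, by rw [Finset.coe_singleton]⟩
  exact Algebra.FiniteType.trans (S := Algebra.adjoin k {f}) inferInstance inferInstance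

/-- `B` is integral over `k[f]`, a quotient of the principal ideal domain `k[X]`. -/
theorem Filt.dimensionLEOne (W : Filt k B) : Ring.DimensionLEOne B := by
  obtain ⟨f, hf⟩ := W.exists_not_mem
  have := W.finite_adjoin hf
  have : Algebra.IsIntegral (Algebra.adjoin k {f}) B := inferInstance
  have hA : ∀ P : Ideal (Algebra.adjoin k {f}), P ≠ ⊥ → P.IsPrime → P.IsMaximal := by
    obtain ⟨φ, hφ⟩ : ∃ φ : Polynomial k →+* Algebra.adjoin k {f}, Function.Surjective φ := by
      have h1 : (Polynomial.aeval f : Polynomial k →ₐ[k] B).range = Algebra.adjoin k {f} :=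
        (Algebra.adjoin_singleton_eq_range_aeval k f).symm
      rw [← h1]
      exact ⟨_, AlgHom.rangeRestrict_surjective _⟩
    intro P hP hP'
    have h1 : Ideal.map φ (Ideal.comap φ P) = P := Ideal.map_comap_of_surjective φ hφ P
    have h2 : Ideal.comap φ P ≠ ⊥ := by
      intro h
      rw [h, Ideal.map_bot] at h1
      exact hP h1.symm
    have h3 : (Ideal.comap φ P).IsMaximal :=
      Ideal.IsPrime.isMaximal (Ideal.comap_isPrime φ P) h2
    rcases Ideal.map_eq_top_or_isMaximal_of_surjective φ hφ h3 with h4 | h4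
    · rw [h1] at h4
      exact absurd h4 hP'.ne_top
    · rwa [h1] at h4
  refine ⟨fun {P} hP hP' => ?_⟩
  obtain ⟨x, hx, hx0⟩ := Submodule.exists_mem_ne_zero_of_ne_bot hP
  have h1 := Ideal.comap_ne_bot_of_integral_mem (R := Algebra.adjoin k {f}) hx0 hx
    (Algebra.IsIntegral.isIntegral x)
  exact Ideal.isMaximal_of_isIntegral_of_isMaximal_comap P
    (hA _ h1 (Ideal.comap_isPrime _ P))

end Pool.Agent.MP_6e5bed_ag_KC
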