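import Pool.Agent.Lib.MP_6e5bed_ag_KC.DB
import Pool.Agent.Lib.MP_6e5bed_ag_KC.DFil
import Pool.Agent.Lib.MP_6e5bed_ag_KC.DAo
import Pool.Agent.Lib.MP_6e5bed_ag_KC.DAi

set_option autoImplicit false

/-!
# KC, part D: the curve minus a point over `t = ∞`
-/

namespace Pool.Agent.MP_6e5bed_ag_KC

open Pool.Agent.MP_6e5bed_ag_NC RatFunc

universe u

variable {k : Type u} [Field k] (D : FExt k)

/-- The element `1/t` of `B_1`. -/
noncomputable def ti : B1 D := ⟨algebraMap (RatFunc k) D.L X⁻¹,
  (integralClosure (kk k X⁻¹) D.L).algebraMap_mem (kk.gen k X⁻¹)⟩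

/-- A point `x_0` of the curve over `t = ∞`. -/
structure IPt where
  p : Ideal (B1 D)
  max : p.IsMaximal
  mem : ti D ∈ p

attribute [instance] IPt.max

/-- the elements of `k[1/t]` have degree at most zero -/
theorem DC.deg_le {f : RatFunc k} (hf : f ∈ kk k X⁻¹) : f ≠ 0 → f.intDegree ≤ 0 := by
  refine Algebra.adjoin_induction (s := {(X : RatFunc k)⁻¹})
    (p := fun f _ => f ≠ 0 → f.intDegree ≤ 0) ?_ ?_ ?_ ?_ hf
  · intro x hx _
    rw [Set.mem_singleton_iff] at hx
    rw [hx, RatFunc.intDegree_inv, RatFunc.intDegree_X]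
    norm_num
  · intro r _
    have h1 : algebraMap k (RatFunc k) r = RatFunc.C r := (RatFunc.algebraMap_eq_C (K := k)) ▸ rfl
    rw [h1, RatFunc.intDegree_C]
  · intro x y _ _ hx hy hxy
    by_cases hx0 : x = 0
    · rw [hx0, zero_add] at hxy ⊢
      exact hy hxy
    · by_cases hy0 : y = 0
      · rw [hy0, add_zero]
        exact hx hx0
      · exact (RatFunc.intDegree_add_le hy0 hxy).trans (max_le (hx hx0) (hy hy0))
  · intro x y _ _ hx hy hxy
    have hx0 : x ≠ 0 := left_ne_zero_of_mul hxy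
    have hy0 : y ≠ 0 := right_ne_zero_of_mul hxy
    rw [RatFunc.intDegree_mul hx0 hy0]
    have h1 := hx hx0
    have h2 := hy hy0
    omega

theorem DC.X_notMem : (X : RatFunc k) ∉ kk k X⁻¹ := by
  intro h
  have h1 := DC.deg_le h RatFunc.X_ne_zero
  rw [RatFunc.intDegree_X] at h1
  omega

/-- There is a point over `t = ∞`: `1/t` is not a unit of `B_1` (its inverse `t` is not integral
over `k[1/t]`, which is integrally closed in `k(t)`). -/
theorem exists_ipt : Nonempty (IPt D) := by
  have h1 : ti D ∈ nonunits (B1 D) := by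
    intro hu
    obtain ⟨g, hg⟩ := hu.exists_right_inv
    have h2 : algebraMap (RatFunc k) D.L X⁻¹ * (g : D.L) = 1 := congrArg Subtype.val hg
    have h3 : (g : D.L) = algebraMap (RatFunc k) D.L X := by
      have h4 : algebraMap (RatFunc k) D.L X * algebraMap (RatFunc k) D.L X⁻¹ = 1 := by
        rw [← map_mul, mul_inv_cancel₀ RatFunc.X_ne_zero, map_one]
      calc (g : D.L) = (algebraMap (RatFunc k) D.L X * algebraMap (RatFunc k) D.L X⁻¹) * g := by
            rw [h4, one_mul]
        _ = algebraMap (RatFunc k) D.L X := by rw [mul_assoc, h2, mul_one]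
    have h5 : IsIntegral (kk k X⁻¹) (algebraMap (RatFunc k) D.L X) := by
      rw [← h3]
      exact g.2
    have h6 : IsIntegral (kk k X⁻¹) (X : RatFunc k) :=
      (isIntegral_algebraMap_iff (algebraMap (RatFunc k) D.L).injective).1 h5
    obtain ⟨y, hy⟩ := (IsIntegrallyClosed.isIntegral_iff (R := kk k X⁻¹)).1 h6
    have h7 : (y : RatFunc k) ∈ kk k X⁻¹ := y.2
    have h8 : (y : RatFunc k) = X := hy
    rw [h8] at h7
    exact DC.X_notMem h7
  obtain ⟨I, hI, h2⟩ := exists_max_ideal_of_mem_nonunits h1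
  exact ⟨⟨I, hI, h2⟩⟩

variable {D} (P : IPt D)

theorem IPt.ne_bot : P.p ≠ ⊥ := fun h => by
  have h1 : ti D = 0 := by
    have h2 := P.mem
    rw [h] at h2
    exact (Submodule.mem_bot _).1 h2
  have h3 : algebraMap (RatFunc k) D.L X⁻¹ = 0 := congrArg Subtype.val h1
  exact inv_ne_zero RatFunc.X_ne_zero ((map_eq_zero _).1 h3)

/-- The residue field is `k` (Nullstellensatz, `B_1` is of finite type). -/
theorem IPt.res [IsAlgClosed k] (a : B1 D) : ∃ c : k, a - algebraMap k (B1 D) c ∈ P.p := by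
  let _ : Field (B1 D ⧸ P.p) := Ideal.Quotient.field P.p
  have h1 : Algebra.FiniteType k (B1 D ⧸ P.p) :=
    Algebra.FiniteType.of_surjective (Ideal.Quotient.mkₐ k P.p)
      (Ideal.Quotient.mkₐ_surjective k P.p)
  have h2 : Module.Finite k (B1 D ⧸ P.p) := finite_of_finite_type_of_isJacobsonRing k _
  have h3 : Algebra.IsIntegral k (B1 D ⧸ P.p) := inferInstance
  obtain ⟨c, hc⟩ := (IsAlgClosed.algebraMap_bijective_of_isIntegral
    (k := k) (K := B1 D ⧸ P.p)).2 (Ideal.Quotient.mk P.p a)
  refine ⟨c, ?_⟩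
  rw [← Ideal.Quotient.eq]
  exact hc.symm

/-- The functions on the curve minus the point `x_0`. -/
noncomputable def IPt.B : Subalgebra k D.L where
  carrier := {f | f ∈ B0 D ∧ f ∈ pU (B1 D) D.L P.p}
  mul_mem' := fun hf hg => ⟨(B0 D).mul_mem hf.1 hg.1, (pU (B1 D) D.L P.p).mul_mem hf.2 hg.2⟩
  add_mem' := fun hf hg => ⟨(B0 D).add_mem hf.1 hg.1, (pU (B1 D) D.L P.p).add_mem hf.2 hg.2⟩
  algebraMap_mem' := fun c => ⟨(B0 D).algebraMap_mem c,
    ⟨0, (mem_pInv_zero _).2 ⟨algebraMap k (B1 D) c, rfl⟩⟩⟩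

/-- The functions with a pole of order at most `j` at `x_0`. -/
noncomputable def IPt.F (j : ℕ) : Submodule k P.B where
  carrier := {f | f.1 ∈ pInv (B1 D) D.L P.p j}
  add_mem' := fun hf hg => (pInv (B1 D) D.L P.p j).add_mem hf hg
  zero_mem' := (pInv (B1 D) D.L P.p j).zero_mem
  smul_mem' := fun c f hf => by
    have h := (pInv (B1 D) D.L P.p j).smul_mem (algebraMap k (B1 D) c) hf
    rw [algebraMap_smul] at h
    exact h

/-- The lattice pair `(B_0, p^{-j})`: the line bundle `O(j x_0)`. -/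
theorem exists_lp [IsAlgClosed k] (j : ℕ) : ∃ N : LP k D.L, (∀ f, f ∈ N.N0 ↔ f ∈ B0 D) ∧
    (∀ f, f ∈ N.N1 ↔ f ∈ pInv (B1 D) D.L P.p j) ∧ ∀ f, f ∈ N.N01 ↔ f ∈ B01 D := by
  have hsub : ∀ f : D.L, f ∈ (LP.OO D).N1 → f ∈ pInv (B1 D) D.L P.p j := fun f hf =>
    pInv_mono (Nat.zero_le j) ((mem_pInv_zero f).2 ⟨⟨f, hf⟩, rfl⟩)
  let N1 : Submodule (kk k X⁻¹) D.L :=
    { carrier := {f | f ∈ pInv (B1 D) D.L P.p j}
      add_mem' := fun hf hg => (pInv (B1 D) D.L P.p j).add_mem hf hg
      zero_mem' := (pInv (B1 D) D.L P.p j).zero_mem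
      smul_mem' := fun c f hf => by
        have h := (pInv (B1 D) D.L P.p j).smul_mem (⟨algebraMap (RatFunc k) D.L c,
          (integralClosure (kk k X⁻¹) D.L).algebraMap_mem c⟩ : B1 D) hf
        have e : c • f = (⟨algebraMap (RatFunc k) D.L c,
          (integralClosure (kk k X⁻¹) D.L).algebraMap_mem c⟩ : B1 D) • f := by
          rw [Subalgebra.smul_def, Algebra.smul_def]
          rfl
        change c • f ∈ pInv (B1 D) D.L P.p j
        rw [e]
        exact h }
  have hfg : N1.FG := by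
    obtain ⟨S, hS⟩ := pInv_fg (A := B1 D) (L := D.L) (p := P.p) P.ne_bot j
    obtain ⟨T, hT⟩ := (LP.OO D).fg1
    classical
    refine ⟨(T ×ˢ S).image (fun x : D.L × D.L => x.1 * x.2), le_antisymm ?_ ?_⟩
    · rw [Submodule.span_le]
      intro y hy
      rw [Finset.coe_image] at hy
      obtain ⟨⟨a, b⟩, hab, rfl⟩ := hy
      rw [Finset.mem_coe, Finset.mem_product] at hab
      have ha : a ∈ (LP.OO D).N1 := by
        rw [← hT]
        exact Submodule.subset_span hab.1
      have hb : b ∈ pInv (B1 D) D.L P.p j := by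
        rw [← hS]
        exact Submodule.subset_span hab.2
      exact (pInv (B1 D) D.L P.p j).smul_mem (⟨a, ha⟩ : B1 D) hb
    · intro f hf
      have hf' : f ∈ Submodule.span (B1 D) (S : Set D.L) := by
        rw [hS]
        exact hf
      refine Submodule.span_induction (p := fun f _ => f ∈ Submodule.span (kk k X⁻¹)
        (((T ×ˢ S).image (fun x : D.L × D.L => x.1 * x.2) : Finset D.L) : Set D.L))
        ?_ ?_ ?_ ?_ hf'
      · intro x hx
        have h1 : (1 : D.L) ∈ Submodule.span (kk k X⁻¹) (T : Set D.L) := by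
          rw [hT]
          exact (integralClosure (kk k X⁻¹) D.L).one_mem
        have h2 := Submodule.mem_map_of_mem (f := LinearMap.mulRight (kk k X⁻¹) x) h1
        rw [Submodule.map_span, LinearMap.mulRight_apply, one_mul] at h2
        refine Submodule.span_mono ?_ h2
        rintro _ ⟨a, ha, rfl⟩
        rw [Finset.coe_image]
        exact ⟨(a, x), Finset.mem_coe.2 (Finset.mem_product.2 ⟨ha, hx⟩), rfl⟩
      · exact Submodule.zero_mem _
      · intro x y _ _ hx hy
        exact Submodule.add_mem _ hx hy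
      · intro c x _ hx
        have hc : (c : D.L) ∈ Submodule.span (kk k X⁻¹) (T : Set D.L) := by
          rw [hT]
          exact c.2
        have h2 : ∀ y ∈ Submodule.span (kk k X⁻¹)
            (((T ×ˢ S).image (fun x : D.L × D.L => x.1 * x.2) : Finset D.L) : Set D.L),
            (c : D.L) * y ∈ Submodule.span (kk k X⁻¹)
              (((T ×ˢ S).image (fun x : D.L × D.L => x.1 * x.2) : Finset D.L) : Set D.L) := by
          intro y hy
          refine Submodule.span_induction (p := fun y _ => (c : D.L) * y ∈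
            Submodule.span (kk k X⁻¹)
            (((T ×ˢ S).image (fun x : D.L × D.L => x.1 * x.2) : Finset D.L) : Set D.L))
            ?_ ?_ ?_ ?_ hy
          · intro z hz
            rw [Finset.coe_image] at hz
            obtain ⟨⟨a, b⟩, hab, rfl⟩ := hz
            rw [Finset.mem_coe, Finset.mem_product] at hab
            have ha : a ∈ (LP.OO D).N1 := by
              rw [← hT]
              exact Submodule.subset_span hab.1
            have h3 : (c : D.L) * a ∈ Submodule.span (kk k X⁻¹) (T : Set D.L) := by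
              rw [hT]
              exact (integralClosure (kk k X⁻¹) D.L).mul_mem c.2 ha
            have h4 := Submodule.mem_map_of_mem (f := LinearMap.mulRight (kk k X⁻¹) b) h3
            rw [Submodule.map_span, LinearMap.mulRight_apply, mul_assoc] at h4
            refine Submodule.span_mono ?_ h4
            rintro _ ⟨a', ha', rfl⟩
            rw [Finset.coe_image]
            exact ⟨(a', b), Finset.mem_coe.2 (Finset.mem_product.2 ⟨ha', hab.2⟩), rfl⟩
          · rw [mul_zero]
            exact Submodule.zero_mem _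
          · intro x y _ _ hx hy
            rw [mul_add]
            exact Submodule.add_mem _ hx hy
          · intro r x _ hx
            rw [mul_smul_comm]
            exact Submodule.smul_mem _ r hx
        exact h2 x hx
  refine ⟨⟨(LP.OO D).N0, N1, (LP.OO D).fg0, hfg, (LP.OO D).sp0, ?_, ?_, ?_⟩, fun f => Iff.rfl,
    fun f => Iff.rfl, fun f => Iff.rfl⟩
  · rw [eq_top_iff, ← (LP.OO D).sp1]
    exact Submodule.span_mono hsub
  · intro v hv
    obtain ⟨n, hn⟩ := (LP.OO D).loc01 v hv
    exact ⟨n, hsub _ hn⟩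
  · intro v hv
    have hX : (X : RatFunc k) ≠ 0 := RatFunc.X_ne_zero
    obtain ⟨b, hb⟩ := hv (ti D ^ j) (Ideal.pow_mem_pow P.mem j)
    have h1 : ((X : RatFunc k)⁻¹) ^ j • v ∈ (LP.OO D).N1 := by
      have e : ((X : RatFunc k)⁻¹) ^ j • v = (b : D.L) := by
        have h2 : (b : D.L) = algebraMap (B1 D) D.L (ti D ^ j) * v := hb
        rw [h2, map_pow, Algebra.smul_def, map_pow]
        rfl
      rw [e]
      exact b.2
    obtain ⟨m, hm⟩ := (LP.OO D).loc10 _ h1
    refine ⟨m, ?_⟩
    have h3 := (LP.OO D).X_pow_mem hm j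
    have e : (X : RatFunc k) ^ j • (X : RatFunc k) ^ m • ((X : RatFunc k)⁻¹) ^ j • v =
        (X : RatFunc k) ^ m • v := by
      rw [smul_smul, smul_smul]
      congr 1
      rw [mul_right_comm, ← mul_pow, mul_inv_cancel₀ hX, one_pow, one_mul]
    rw [e] at h3
    exact h3

end Pool.Agent.MP_6e5bed_ag_KC
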