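import Pool.Agent.Lib.MP_6e5bed_ag_KC.DC
import Pool.Agent.Lib.MP_6e5bed_ag_KC.DLF

set_option autoImplicit false

/-!
# KC, part D: finiteness, the dimensions of the spaces `F j`
-/

namespace Pool.Agent.MP_6e5bed_ag_KC

open Pool.Agent.MP_6e5bed_ag_NC RatFunc

universe u

variable {k : Type u} [Field k] [IsAlgClosed k] {D : FExt k} (P : IPt D)

/-- `F j` embeds into `N0 ∩ N1` for the lattice pair of `exists_lp` (`LP.inter_fin`). -/
theorem IPt.fin (j : ℕ) : Module.Finite k (P.F j) := by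
  obtain ⟨N, h0, h1, -⟩ := exists_lp P j
  have h2 := N.inter_fin
  let φ : P.F j →ₗ[k] ↥(N.N0.restrictScalars k ⊓ N.N1.restrictScalars k) :=
    { toFun := fun f => ⟨f.1.1, (h0 _).2 f.1.2.1, (h1 _).2 f.2⟩
      map_add' := fun _ _ => rfl
      map_smul' := fun _ _ => rfl }
  refine Module.Finite.of_injective φ fun f g h => ?_
  exact Subtype.ext (Subtype.ext (congrArg
    (fun z : ↥(N.N0.restrictScalars k ⊓ N.N1.restrictScalars k) => (z : D.L)) h))

/-- the spaces `pInv j` over `k` -/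
private def DFin_p (P : IPt D) (j : ℕ) : Submodule k D.L where
  carrier := {f | f ∈ pInv (B1 D) D.L P.p j}
  add_mem' := fun hf hg => (pInv (B1 D) D.L P.p j).add_mem hf hg
  zero_mem' := (pInv (B1 D) D.L P.p j).zero_mem
  smul_mem' := fun c f hf => by
    have h := (pInv (B1 D) D.L P.p j).smul_mem (algebraMap k (B1 D) c) hf
    rw [algebraMap_smul] at h
    exact h

private theorem DFin_smul (P : IPt D) {j : ℕ} (c : k) {f : D.L}
    (hf : f ∈ pInv (B1 D) D.L P.p j) : c • f ∈ pInv (B1 D) D.L P.p j :=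
  (DFin_p P j).smul_mem c hf

private theorem DFin_line (P : IPt D) (j : ℕ) :
    ∃ f₀ ∈ pInv (B1 D) D.L P.p (j + 1), f₀ ∉ pInv (B1 D) D.L P.p j ∧
      ∀ f ∈ pInv (B1 D) D.L P.p (j + 1), ∃ c : k, f - c • f₀ ∈ pInv (B1 D) D.L P.p j := by
  obtain ⟨f₀, h1, h2, h3⟩ := pInv_line (A := B1 D) (L := D.L) (p := P.p) P.ne_bot
    (fun a => P.res a) j
  refine ⟨f₀, h1, h2, fun f hf => ?_⟩
  obtain ⟨c, hc⟩ := h3 f hf
  refine ⟨c, ?_⟩
  have e : algebraMap (B1 D) D.L (algebraMap k (B1 D) c) * f₀ = c • f₀ := by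
    rw [← IsScalarTower.algebraMap_apply k (B1 D) D.L, Algebra.smul_def]
  rw [e] at hc
  exact hc

/-- For large `j` there are functions with a pole of order exactly `j + 1`.

Proof. Let `S_j = B_0 + p^{-j} ⊆ B_01` (`k`-subspaces of `L`). By `LP.sum_fin` (`j = 0`),
`B_01 ⊆ S_0 + V` with `V` finite-dimensional, so the increasing chain `S_j` is stationary from some
`j₀` on. Let `f₀ ∈ p^{-(j+1)}`, `f₀ ∉ p^{-j}` (`pInv_line`). `f₀ ∈ S_{j+1} = S_j`: `f₀ = b + c`,
`b ∈ B_0`, `c ∈ p^{-j}`; then `b = f₀ - c ∈ F (j + 1)`, `b ∉ F j`. -/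
theorem IPt.exists_new : ∃ j₀ : ℕ, ∀ j, j₀ ≤ j → ∃ f ∈ P.F (j + 1), f ∉ P.F j := by
  obtain ⟨N, hN0, hN1, hN01⟩ := exists_lp P 0
  obtain ⟨V, hV, hle⟩ := N.sum_fin
  set S : ℕ → Submodule k D.L := fun j => Subalgebra.toSubmodule (B0 D) ⊔ DFin_p P j with hS
  have hSmono : Monotone S := fun i j hij => sup_le_sup_left (fun f hf => pInv_mono hij hf) _
  have hS0 : N.N0.restrictScalars k ⊔ N.N1.restrictScalars k ≤ S 0 := by
    refine sup_le ?_ ?_
    · intro f hf
      exact Submodule.mem_sup_left ((hN0 f).1 hf)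
    · intro f hf
      exact Submodule.mem_sup_right ((hN1 f).1 hf)
  have hSle : ∀ j, S j ≤ S 0 ⊔ V := by
    intro j
    refine le_trans ?_ (hle.trans (sup_le_sup_right hS0 V))
    refine sup_le ?_ ?_
    · intro f hf
      refine (hN01 f).2 ⟨0, ?_⟩
      rw [pow_zero, one_smul]
      exact hf
    · intro f hf
      obtain ⟨N', -, hN'1, hN'01⟩ := exists_lp P j
      refine (hN01 f).2 ((hN'01 f).1 ?_)
      rw [LP.mem_N01']
      refine ⟨0, ?_⟩
      rw [pow_zero, one_smul]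
      exact (hN'1 f).2 hf
  have hnoe : IsNoetherian k V := inferInstance
  obtain ⟨j₀, hj₀⟩ := monotone_stabilizes_iff_noetherian.2 hnoe
    ⟨fun j => (S j).comap V.subtype, fun i j hij => Submodule.comap_mono (hSmono hij)⟩
  have hst : ∀ j, j₀ ≤ j → S (j + 1) ≤ S j := by
    intro j hj x hx
    obtain ⟨a, ha, v, hv, hav⟩ := Submodule.mem_sup.1 (hSle (j + 1) hx)
    have h1 : v ∈ S (j + 1) := by
      have h2 : v = x - a := by rw [← hav, add_sub_cancel_left]
      rw [h2]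
      exact (S (j + 1)).sub_mem hx (hSmono (Nat.zero_le _) ha)
    have h2 : (⟨v, hv⟩ : V) ∈ (S (j + 1)).comap V.subtype := h1
    have h3 : (S (j + 1)).comap V.subtype = (S j).comap V.subtype :=
      (hj₀ (j + 1) (by omega)).symm.trans (hj₀ j hj)
    rw [h3] at h2
    rw [← hav]
    exact (S j).add_mem (hSmono (Nat.zero_le _) ha) h2
  refine ⟨j₀, fun j hj => ?_⟩
  obtain ⟨f₀, h1, h2, -⟩ := DFin_line P j
  have h3 : f₀ ∈ S j := hst j hj (Submodule.mem_sup_right h1)
  obtain ⟨b, hb, c, hc, hbc⟩ := Submodule.mem_sup.1 h3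
  have h4 : b ∈ pInv (B1 D) D.L P.p (j + 1) := by
    have h5 : b = f₀ - c := by rw [← hbc, add_sub_cancel_right]
    rw [h5]
    exact (pInv (B1 D) D.L P.p (j + 1)).sub_mem h1 (pInv_mono (Nat.le_succ j) hc)
  refine ⟨⟨b, hb, j + 1, h4⟩, h4, fun h5 => h2 ?_⟩
  rw [← hbc]
  exact (pInv (B1 D) D.L P.p j).add_mem h5 hc

/-- `dim F (j + 1) ≤ dim F j + 1` (`pInv_line`), with equality if `F (j + 1) ≠ F j`. -/
theorem IPt.finrank_succ (j : ℕ) (h : ∃ f ∈ P.F (j + 1), f ∉ P.F j) :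
    Module.finrank k (P.F (j + 1)) = Module.finrank k (P.F j) + 1 := by
  obtain ⟨g, hg, hg'⟩ := h
  obtain ⟨f₀, -, -, h3⟩ := DFin_line P j
  obtain ⟨c, hc⟩ := h3 g.1 hg
  have hc0 : c ≠ 0 := by
    rintro rfl
    rw [zero_smul, sub_zero] at hc
    exact hg' hc
  have h4 : P.F (j + 1) = P.F j ⊔ Submodule.span k {g} := by
    apply le_antisymm
    · intro f hf
      obtain ⟨c', hc'⟩ := h3 f.1 hf
      rw [Submodule.mem_sup]
      refine ⟨f - (c' / c) • g, ?_, (c' / c) • g,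
        Submodule.smul_mem _ _ (Submodule.mem_span_singleton_self g), sub_add_cancel _ _⟩
      change f.1 - (c' / c) • g.1 ∈ pInv (B1 D) D.L P.p j
      have e : f.1 - (c' / c) • g.1 = (f.1 - c' • f₀) - (c' / c) • (g.1 - c • f₀) := by
        rw [smul_sub, smul_smul, div_mul_cancel₀ _ hc0]
        abel
      rw [e]
      exact (pInv (B1 D) D.L P.p j).sub_mem hc' (DFin_smul P _ hc)
    · refine sup_le ?_ ?_
      · intro f hf
        exact pInv_mono (Nat.le_succ j) hf
      · rw [Submodule.span_le, Set.singleton_subset_iff]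
        exact hg
  have h5 : P.F j ⊓ Submodule.span k {g} = ⊥ := by
    rw [eq_bot_iff]
    intro x hx
    obtain ⟨t, rfl⟩ := Submodule.mem_span_singleton.1 hx.2
    by_cases ht : t = 0
    · rw [ht, zero_smul]
      exact Submodule.zero_mem _
    · exfalso
      apply hg'
      have h6 := (P.F j).smul_mem t⁻¹ hx.1
      rwa [smul_smul, inv_mul_cancel₀ ht, one_smul] at h6
  have hg0 : g ≠ 0 := by
    rintro rfl
    exact hg' (P.F j).zero_mem
  have := P.fin j
  have h6 := Submodule.finrank_sup_add_finrank_inf_eq (P.F j) (Submodule.span k {g})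
  rw [h5, finrank_bot, add_zero, finrank_span_singleton hg0, ← h4] at h6
  exact h6

/-- The dimensions of the spaces `F j` for large `j`. -/
theorem IPt.finrank : ∃ (j₀ : ℕ) (g : ℤ), ∀ j, j₀ ≤ j →
    (Module.finrank k (P.F j) : ℤ) = j + 1 - g := by
  obtain ⟨j₀, h⟩ := P.exists_new
  refine ⟨j₀, j₀ + 1 - (Module.finrank k (P.F j₀) : ℤ), fun j hj => ?_⟩
  obtain ⟨i, rfl⟩ := Nat.exists_eq_add_of_le hj
  induction i with
  | zero => rw [add_zero]; ring
  | succ i ih =>
    have h1 := P.finrank_succ (j₀ + i) (h _ (Nat.le_add_right _ _))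
    have h2 := ih (Nat.le_add_right _ _)
    rw [← add_assoc, h1]
    push_cast at h2 ⊢
    linarith

/-- `F 0 = k`: for `f ∈ F 0` the powers of `f` are in the finite-dimensional space `F 0`, so `f` is
algebraic over `k`. -/
theorem IPt.mem_zero (b : P.B) : b ∈ P.F 0 ↔ ∃ c : k, algebraMap k P.B c = b := by
  have h0 : ∀ c : k, algebraMap k P.B c ∈ P.F 0 := fun c =>
    (mem_pInv_zero _).2 ⟨algebraMap k (B1 D) c, rfl⟩
  constructor
  · intro hb
    let S : Subalgebra k P.B :=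
      { carrier := P.F 0
        mul_mem' := fun {x y} hx hy => by
          have h1 := pInv_mul hx hy
          exact h1
        add_mem' := (P.F 0).add_mem
        algebraMap_mem' := h0 }
    have h1 : Module.Finite k S := P.fin 0
    have h2 : Algebra.IsIntegral k S := inferInstance
    obtain ⟨c, hc⟩ := (IsAlgClosed.algebraMap_bijective_of_isIntegral (k := k) (K := S)).2
      ⟨b, hb⟩
    exact ⟨c, congrArg (fun z : S => (z : P.B)) hc⟩
  · rintro ⟨c, rfl⟩
    exact h0 c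

end Pool.Agent.MP_6e5bed_ag_KC
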