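import Pool.Agent.Lib.MP_6e5bed_ag_KC.DFin

set_option autoImplicit false

/-!
# KC, part D: the ring of the curve minus a point is a Dedekind domain with fraction field `L`
-/

namespace Pool.Agent.MP_6e5bed_ag_KC

open Pool.Agent.MP_6e5bed_ag_NC RatFunc

universe u

variable {k : Type u} [Field k] [IsAlgClosed k] {D : FExt k} (P : IPt D)

namespace DInt

omit [IsAlgClosed k] in
theorem trdeg_rf : Algebra.trdeg k (RatFunc k) ≤ 1 := by
  have : Algebra.IsAlgebraic (Polynomial k) (RatFunc k) :=
    IsLocalization.isAlgebraic (RatFunc k) (nonZeroDivisors (Polynomial k))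
  have h1 := trdeg_add_eq k (Polynomial k) (A := RatFunc k)
  rw [trdeg_eq_zero (R := Polynomial k) (A := RatFunc k), Polynomial.trdeg_of_isDomain,
    add_zero] at h1
  exact h1.symm.le

omit [IsAlgClosed k] in
theorem trdeg_L (D : FExt k) : Algebra.trdeg k D.L ≤ 1 := by
  have h1 := trdeg_add_eq k (RatFunc k) (A := D.L)
  rw [trdeg_eq_zero (R := RatFunc k) (A := D.L), add_zero] at h1
  rw [← h1]
  exact trdeg_rf

omit [IsAlgClosed k] in
theorem alg_adjoin {f : D.L} (hf : Transcendental k f) :
    Algebra.IsAlgebraic (Algebra.adjoin k {f}) D.L := by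
  have h1 : AlgebraicIndependent k (fun _ : Unit => f) :=
    algebraicIndependent_unique_type_iff.2 hf
  have h2 : IsTranscendenceBasis k (fun _ : Unit => f) := by
    refine h1.isTranscendenceBasis_of_lift_trdeg_le_of_finite ?_
    rw [Cardinal.mk_fintype]
    simpa using trdeg_L D
  have h3 := h2.isAlgebraic
  rwa [Set.range_const] at h3

/-- An element of `L` which is algebraic over `k` is in `k`. -/
theorem alg_mem {f : D.L} (hf : IsAlgebraic k f) : ∃ c : k, algebraMap k D.L c = f := by
  have h1 : IsIntegral k f := hf.isIntegral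
  have h2 : (minpoly k f).degree = 1 :=
    IsAlgClosed.degree_eq_one_of_irreducible k (minpoly.irreducible h1)
  have h3 := minpoly.mem_range_of_degree_eq_one k f h2
  exact h3

end DInt

/-- The filtration (`pInv_mul`, `pInv_ord`, `IPt.fin`, `IPt.finrank`, `IPt.mem_zero`). -/
theorem IPt.exists_filt : ∃ W : Filt k P.B, W.F = P.F := by
  obtain ⟨j₀, g, h⟩ := P.finrank
  exact ⟨{  F := P.F
            g := g
            j₀ := j₀
            mono := fun i j hij f hf => pInv_mono hij hf
            mem_zero := P.mem_zero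
            mul_mem := fun ha hb => pInv_mul ha hb
            exhaust := fun b => b.2.2
            ord_mul := fun {i j a b} ha hb => pInv_ord P.ne_bot a.2.2 b.2.2 ha hb
            fin := P.fin
            finrank := h }, rfl⟩

/-- `B` is integrally closed in `L`: an element `x` of `L` which is integral over `B` is integral
over `B_0` and over `pU`, so it is in `B_0` and in `pU` (`pU_integral`). -/
theorem IPt.integral_mem {x : D.L} (hx : IsIntegral P.B x) : x ∈ P.B := by
  obtain ⟨p, hp, hpx⟩ := hx
  constructor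
  · let ι : P.B →+* integralClosure (kk k X) D.L :=
      { toFun := fun f => ⟨f.1, f.2.1⟩
        map_one' := rfl
        map_mul' := fun _ _ => rfl
        map_zero' := rfl
        map_add' := fun _ _ => rfl }
    have h1 : IsIntegral (integralClosure (kk k X) D.L) x := by
      refine ⟨p.map ι, hp.map ι, ?_⟩
      rw [Polynomial.eval₂_map]
      exact hpx
    exact isIntegral_trans (R := kk k X) (A := integralClosure (kk k X) D.L) x h1
  · let ι : P.B →+* pU (B1 D) D.L P.p :=
      { toFun := fun f => ⟨f.1, f.2.2⟩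
        map_one' := rfl
        map_mul' := fun _ _ => rfl
        map_zero' := rfl
        map_add' := fun _ _ => rfl }
    refine pU_integral P.ne_bot ⟨p.map ι, hp.map ι, ?_⟩
    rw [Polynomial.eval₂_map]
    exact hpx

/-- Every element `x` of `L` is a quotient of elements of `B`. Let `f ∈ B`, `f ∉ k`
(`Filt.exists_not_mem`); `f` is transcendental over `k`, and `L` has transcendence degree `1` over
`k`, so `x` is algebraic over `k(f)`: some nonzero multiple `c x`, `c ∈ k[f]`, is integral over
`k[f]`, so `c x ∈ B` by `integral_mem`. -/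
theorem IPt.exists_div (x : D.L) : ∃ c ∈ P.B, c ≠ 0 ∧ c * x ∈ P.B := by
  obtain ⟨W, -⟩ := P.exists_filt
  obtain ⟨f, hf⟩ := W.exists_not_mem
  have h1 : Transcendental k (f : D.L) := by
    intro h
    obtain ⟨c, hc⟩ := DInt.alg_mem h
    exact hf ((W.mem_zero f).2 ⟨c, Subtype.ext hc⟩)
  have h2 := (DInt.alg_adjoin h1).isAlgebraic x
  obtain ⟨c, hc, hcx⟩ := h2.exists_integral_multiple
  have h3 : Algebra.adjoin k {(f : D.L)} ≤ P.B := by
    rw [Algebra.adjoin_le_iff, Set.singleton_subset_iff]
    exact f.2
  refine ⟨c, h3 c.2, fun h => hc (Subtype.ext h), ?_⟩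
  refine P.integral_mem ?_
  obtain ⟨p, hp, hpx⟩ := hcx
  refine ⟨p.map (Subalgebra.inclusion h3).toRingHom, hp.map _, ?_⟩
  rw [Polynomial.eval₂_map]
  exact hpx

instance : IsFractionRing P.B D.L := by
  refine IsFractionRing.of_field P.B D.L fun x => ?_
  obtain ⟨c, hc, hc0, hcx⟩ := P.exists_div x
  refine ⟨⟨c * x, hcx⟩, ⟨c, hc⟩, ?_⟩
  change x = c * x / c
  rw [mul_div_cancel_left₀ _ hc0]

instance : Algebra.FiniteType k P.B := by
  obtain ⟨W, -⟩ := P.exists_filt
  exact W.finiteType

/-- Noetherian (finite type over `k`), of dimension at most one (`Filt.dimensionLEOne`), integrally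
closed (`integral_mem`). -/
instance : IsDedekindDomain P.B := by
  obtain ⟨W, -⟩ := P.exists_filt
  refine (isDedekindDomain_iff P.B D.L).2 ⟨inferInstance,
    Algebra.FiniteType.isNoetherianRing k P.B, W.dimensionLEOne, fun {x} hx => ?_⟩
  exact ⟨⟨x, P.integral_mem hx⟩, rfl⟩

end Pool.Agent.MP_6e5bed_ag_KC
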