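import Mathlib

set_option autoImplicit false

/-!
# KC, part D: overrings of a Dedekind domain
-/

namespace Pool.Agent.MP_6e5bed_ag_KC

universe u

/-- DENOMINATORS. `B` a Dedekind domain with fraction field `L`, `B ⊆ S ⊆ L` a subring, `f ∈ S`. The
ideal of denominators `d = {h ∈ B : h f ∈ B}` generates the unit ideal of `S`.

Proof. Otherwise `d ⊆ q` for a maximal ideal `q` of `S`; `P = q ∩ B` is a prime ideal, `P ≠ 0` since
`d ≠ 0`. The valuation ring `B_P` of `L` is contained in `S_q` (the elements of `B \ P` are not in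
`q`) and `S_q ≠ L`, so `S_q = B_P`: if `x ∈ S_q`, `x ∉ B_P`, then `x⁻¹` is in the maximal ideal of
`B_P`, so that `x = s'/s`, `x⁻¹ = r/r'` with `r ∈ P`, `r' ∈ B \ P`, `s ∉ q`: `r s' = r' s`, with
`r ∈ q` and `r' s ∉ q`, a contradiction. So `f ∈ B_P`: `s f ∈ B` for some `s ∈ B \ P`, `s ∈ d`. -/
theorem denominators {B L : Type u} [CommRing B] [IsDedekindDomain B] [Field L] [Algebra B L]
    [IsFractionRing B L] (S : Subring L) (hS : ∀ b : B, algebraMap B L b ∈ S) {f : L}
    (hf : f ∈ S) : ∃ (n : ℕ) (h : Fin n → B) (g : Fin n → L), (∀ j, g j ∈ S) ∧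
      (∀ j, ∃ b : B, algebraMap B L b = algebraMap B L (h j) * f) ∧
      ∑ j, g j * algebraMap B L (h j) = 1 := by
  -- the fractional ideal `J` generated by `1` and `f`; `J * J⁻¹ = 1`
  set J : FractionalIdeal (nonZeroDivisors B) L :=
    FractionalIdeal.spanSingleton (nonZeroDivisors B) (1 : L) +
      FractionalIdeal.spanSingleton (nonZeroDivisors B) f with hJ
  have h1J : (1 : L) ∈ J := by
    rw [hJ, FractionalIdeal.mem_add]
    exact ⟨1, FractionalIdeal.mem_spanSingleton_self _ _, 0, FractionalIdeal.zero_mem _, add_zero _⟩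
  have hfJ : f ∈ J := by
    rw [hJ, FractionalIdeal.mem_add]
    exact ⟨0, FractionalIdeal.zero_mem _, f, FractionalIdeal.mem_spanSingleton_self _ _, zero_add _⟩
  have hJ0 : J ≠ 0 := by
    intro h0
    rw [h0] at h1J
    exact one_ne_zero ((FractionalIdeal.mem_zero_iff _).1 h1J)
  have hJJ : J * J⁻¹ = 1 := mul_inv_cancel₀ hJ0
  have h1 : (1 : L) ∈ J * J⁻¹ := by
    rw [hJJ]
    exact FractionalIdeal.one_mem_one _
  rw [hJ, add_mul, FractionalIdeal.mem_add] at h1
  obtain ⟨a, ha, c, hc, hac⟩ := h1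
  rw [FractionalIdeal.mem_singleton_mul] at ha hc
  obtain ⟨a', ha', rfl⟩ := ha
  obtain ⟨b, hb, rfl⟩ := hc
  rw [← hJ] at ha' hb
  have key : ∀ x ∈ J⁻¹, ∃ y : B, algebraMap B L y = x ∧ ∃ z : B, algebraMap B L z = x * f := by
    intro x hx
    rw [FractionalIdeal.mem_inv_iff hJ0] at hx
    obtain ⟨y, hy⟩ := (FractionalIdeal.mem_one_iff _).1 (hx 1 h1J)
    obtain ⟨z, hz⟩ := (FractionalIdeal.mem_one_iff _).1 (hx f hfJ)
    exact ⟨y, by rw [hy, mul_one], z, hz⟩
  obtain ⟨y, hy, z, hz⟩ := key a' ha'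
  obtain ⟨y', hy', z', hz'⟩ := key b hb
  refine ⟨2, ![y, y'], ![1, f], ?_, ?_, ?_⟩
  · intro j
    fin_cases j
    · exact S.one_mem
    · exact hf
  · intro j
    fin_cases j
    · exact ⟨z, by
        change algebraMap B L z = algebraMap B L y * f
        rw [hz, hy]⟩
    · exact ⟨z', by
        change algebraMap B L z' = algebraMap B L y' * f
        rw [hz', hy']⟩
  · rw [Fin.sum_univ_two]
    change 1 * algebraMap B L y + f * algebraMap B L y' = 1
    rw [hy, hy']
    exact hac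

end Pool.Agent.MP_6e5bed_ag_KC
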