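import Mathlib

set_option autoImplicit false

/-!
# Project KC: Kimura-finiteness of curves. Pointed curves, additive functions
-/

namespace Pool.Agent.MP_6e5bed_ag_KC

open scoped TensorProduct

universe u v

/-- The ring `B` of functions on an affine curve `C ∖ x₀` (`C` smooth and projective), with the
spaces `F j` of functions with a pole of order at most `j` at `x₀`. -/
structure PtCurve (k : Type u) [Field k] where
  B : Type u
  [cr : CommRing B]
  [dom : IsDomain B]
  [ded : IsDedekindDomain B]
  [alg : Algebra k B]
  [ft : Algebra.FiniteType k B]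
  /-- functions with a pole of order at most `j` at `x₀` -/
  F : ℕ → Submodule k B
  /-- the genus -/
  g : ℤ
  j₀ : ℕ
  mono : Monotone F
  mem_zero : ∀ b, b ∈ F 0 ↔ ∃ c : k, algebraMap k B c = b
  mul_mem : ∀ {i j a b}, a ∈ F i → b ∈ F j → a * b ∈ F (i + j)
  exhaust : ∀ b, ∃ j, b ∈ F j
  ord_mul : ∀ {i j a b}, a ∉ F i → b ∉ F j → a * b ∉ F (i + j + 1)
  fin : ∀ j, Module.Finite k (F j)
  finrank : ∀ j, j₀ ≤ j → (Module.finrank k (F j) : ℤ) = j + 1 - g

attribute [instance] PtCurve.cr PtCurve.dom PtCurve.ded PtCurve.alg PtCurve.ft PtCurve.fin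

/-- A function on the finitely generated projective modules, invariant under isomorphisms and
additive on direct sums, with values in an abelian group. -/
structure AddFun (R : Type u) [CommRing R] (V : Type v) [AddCommGroup V] where
  f : ∀ (N : Type u) [AddCommGroup N] [Module R N] [Module.Finite R N] [Module.Projective R N], V
  iso : ∀ {N N' : Type u} [AddCommGroup N] [Module R N] [Module.Finite R N]
    [Module.Projective R N] [AddCommGroup N'] [Module R N'] [Module.Finite R N']
    [Module.Projective R N'], (N ≃ₗ[R] N') → f N = f N'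
  prod : ∀ (N N' : Type u) [AddCommGroup N] [Module R N] [Module.Finite R N]
    [Module.Projective R N] [AddCommGroup N'] [Module R N'] [Module.Finite R N']
    [Module.Projective R N'], f (N × N') = f N + f N'

variable {k : Type u} [Field k]

namespace PtCurve

variable (C : PtCurve k)

/-- The ideal of the diagonal in `B ⊗ B`. -/
noncomputable def diag : Ideal (C.B ⊗[k] C.B) :=
  RingHom.ker (Algebra.TensorProduct.lmul' k : C.B ⊗[k] C.B →ₐ[k] C.B)

/-- The pair of two `R`-valued points. -/
noncomputable def pair {R : Type u} [CommRing R] [Algebra k R] (x y : C.B →ₐ[k] R) :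
    C.B ⊗[k] C.B →ₐ[k] R :=
  Algebra.TensorProduct.lift x y fun _ _ => Commute.all _ _

/-- The ideal of `R` which is generated by the `x(b) - y(b)`. -/
noncomputable def coin {R : Type u} [CommRing R] [Algebra k R] (x y : C.B →ₐ[k] R) : Ideal R :=
  Ideal.map (C.pair x y) C.diag

end PtCurve

end Pool.Agent.MP_6e5bed_ag_KC
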