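import Pool.Agent.Lib.MP_6e5bed_ag_KC.DInt
import Pool.Agent.Lib.MP_6e5bed_ag_KC.DOv
import Pool.Agent.Lib.MP_6e5bed_ag_KC.Defs

set_option autoImplicit false

/-!
# KC, part D: the pointed curve of a point over `t = ∞`; denominators on the charts
-/

namespace Pool.Agent.MP_6e5bed_ag_KC

open Pool.Agent.MP_6e5bed_ag_NC RatFunc

universe u

variable {k : Type u} [Field k] [IsAlgClosed k] {D : FExt k} (P : IPt D)

/-- The pointed curve `(C, x_0)`. -/
noncomputable def IPt.curve : PtCurve k where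
  B := P.B
  F := P.exists_filt.choose.F
  g := P.exists_filt.choose.g
  j₀ := P.exists_filt.choose.j₀
  mono := P.exists_filt.choose.mono
  mem_zero := P.exists_filt.choose.mem_zero
  mul_mem := P.exists_filt.choose.mul_mem
  exhaust := P.exists_filt.choose.exhaust
  ord_mul := P.exists_filt.choose.ord_mul
  fin := P.exists_filt.choose.fin
  finrank := P.exists_filt.choose.finrank

theorem IPt.curve_F : P.curve.F = P.F := P.exists_filt.choose_spec

private theorem DPt_den (S : Subring D.L) (hS : ∀ b : P.B, (b : D.L) ∈ S) {f : D.L}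
    (hf : f ∈ S) : ∃ (n : ℕ) (h g : Fin n → D.L),
    (∀ j, h j ∈ P.B) ∧ (∀ j, g j ∈ S) ∧ (∀ j, h j * f ∈ P.B) ∧ ∑ j, g j * h j = 1 := by
  obtain ⟨n, h, g, h1, h2, h3⟩ := denominators (B := P.B) (L := D.L) S hS hf
  refine ⟨n, fun j => (h j : D.L), g, fun j => (h j).2, h1, fun j => ?_, h3⟩
  obtain ⟨b, hb⟩ := h2 j
  have e : (h j : D.L) * f = (b : D.L) := hb.symm
  rw [e]
  exact b.2

/-- Denominators on the chart `t ≠ ∞` (`denominators` for `S = B_0`). -/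
theorem IPt.den0 {f : D.L} (hf : f ∈ B0 D) : ∃ (n : ℕ) (h g : Fin n → D.L),
    (∀ j, h j ∈ P.B) ∧ (∀ j, g j ∈ B0 D) ∧ (∀ j, h j * f ∈ P.B) ∧ ∑ j, g j * h j = 1 :=
  DPt_den P (B0 D).toSubring (fun b => b.2.1) hf

/-- Denominators on the chart `t ≠ 0, ∞`. -/
theorem IPt.den01 {f : D.L} (hf : f ∈ B01 D) : ∃ (n : ℕ) (h g : Fin n → D.L),
    (∀ j, h j ∈ P.B) ∧ (∀ j, g j ∈ B01 D) ∧ (∀ j, h j * f ∈ P.B) ∧ ∑ j, g j * h j = 1 := by
  refine DPt_den P (B01 D).toSubring (fun b => ?_) hf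
  refine ⟨0, ?_⟩
  rw [pow_zero, one_smul]
  exact b.2.1

/-- Denominators on the chart `t ≠ 0` (`denominators` for `S = pU`, which contains `B`). -/
theorem IPt.den1 {f : D.L} (hf : f ∈ pU (B1 D) D.L P.p) : ∃ (n : ℕ) (h g : Fin n → D.L),
    (∀ j, h j ∈ P.B) ∧ (∀ j, g j ∈ pU (B1 D) D.L P.p) ∧ (∀ j, h j * f ∈ P.B) ∧
      ∑ j, g j * h j = 1 :=
  DPt_den P (pU (B1 D) D.L P.p) (fun b => b.2.2) hf

end Pool.Agent.MP_6e5bed_ag_KC
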