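import Pool.Agent.Lib.MP_6e5bed_ag_KC.BFlat
import Pool.Agent.Lib.MP_6e5bed_ag_KC.BRng

set_option autoImplicit false
set_option linter.unusedSectionVars false

/-!
# Finite-dimensional cohomology in one degree (project KC, part B2)
-/

namespace Pool.Agent.MP_6e5bed_ag_NC

universe u

variable {k : Type u} [Field k] {A B A' B' : DGA k} {V : Type u} [AddCommGroup V] [Module k V]

/-- The cohomology in degree `j` is finite-dimensional. -/
def Dg.HF (X : Dg k V) (j : ℤ) : Prop :=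
  ∃ S : Finset V, (∀ s ∈ S, X.IsDeg j s ∧ X.d s = 0) ∧
    ∀ v, X.IsDeg j v → X.d v = 0 →
      ∃ w, X.IsDeg (j - 1) w ∧ v - X.d w ∈ Submodule.span k (S : Set V)

section aux

variable {W : Type u} [AddCommGroup W] [Module k W]

/-- The cycles of degree `j`. -/
private def HFin_cyc (X : Dg k V) (j : ℤ) : Submodule k V where
  carrier := {v | X.IsDeg j v ∧ X.d v = 0}
  add_mem' := fun {v w} hv hw => ⟨hv.1.add hw.1, by rw [map_add, hv.2, hw.2, add_zero]⟩
  zero_mem' := ⟨Dg.IsDeg.zero j, map_zero _⟩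
  smul_mem' := fun c v hv => ⟨hv.1.smul c, by rw [map_smul, hv.2, smul_zero]⟩

/-- The cohomology in degree `j`, in the quotient by the boundaries. -/
private def HFin_H (X : Dg k V) (j : ℤ) : Submodule k (V ⧸ LinearMap.range X.d) :=
  (HFin_cyc X j).map (LinearMap.range X.d).mkQ

private theorem HFin_eq {X : Dg k V} {v w : V} :
    (LinearMap.range X.d).mkQ v = (LinearMap.range X.d).mkQ w ↔ ∃ u, X.d u = v - w := by
  rw [Submodule.mkQ_apply, Submodule.mkQ_apply, Submodule.Quotient.eq]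
  exact Iff.rfl

private theorem HFin_comp {X : Dg k V} {j : ℤ} {v : V} (hv : X.IsDeg j v) : X.ρ v j = v := by
  have h : X.ρ v = Finsupp.single j v := hv
  rw [h, Finsupp.single_eq_same]

/-- A boundary of degree `j` is the boundary of an element of degree `j - 1`. -/
private theorem HFin_bd {X : Dg k V} {j : ℤ} {v u : V} (hv : X.IsDeg j v) (h : X.d u = v) :
    X.IsDeg (j - 1) (X.ρ u (j - 1)) ∧ X.d (X.ρ u (j - 1)) = v := by
  refine ⟨Dg.isDeg_ρ _ _, ?_⟩
  rw [← X.ρ_d, sub_add_cancel, h, HFin_comp hv]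

private theorem HFin_of_weak {X : Dg k V} {j : ℤ} (F : Submodule k V) [Module.Finite k F]
    (h : ∀ v, X.IsDeg j v → X.d v = 0 → ∃ w, v - X.d w ∈ F) :
    Module.Finite k (HFin_H X j) := by
  have hle : HFin_H X j ≤ F.map (LinearMap.range X.d).mkQ := by
    rintro _ ⟨v, hv, rfl⟩
    obtain ⟨w, hw⟩ := h v hv.1 hv.2
    exact ⟨v - X.d w, hw, HFin_eq.2 ⟨-w, by rw [map_neg]; abel⟩⟩
  have : Module.Finite k (F.map (LinearMap.range X.d).mkQ) := Module.Finite.map F _
  exact Submodule.finiteDimensional_of_le hle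

private theorem HFin_to {X : Dg k V} {j : ℤ} (h : Module.Finite k (HFin_H X j)) : X.HF j := by
  classical
  obtain ⟨T, hT⟩ := (Module.Finite.iff_fg (N := HFin_H X j)).1 h
  have hc : ∀ t : V ⧸ LinearMap.range X.d, ∃ c : V, t ∈ T → c ∈ HFin_cyc X j ∧
      (LinearMap.range X.d).mkQ c = t := by
    intro t
    by_cases ht : t ∈ T
    · have h1 : t ∈ HFin_H X j := hT ▸ Submodule.subset_span ht
      obtain ⟨c, hc, hc'⟩ := h1
      exact ⟨c, fun _ => ⟨hc, hc'⟩⟩
    · exact ⟨0, fun h => absurd h ht⟩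
  choose c hc using hc
  refine ⟨T.image c, ?_, ?_⟩
  · intro s hs
    obtain ⟨t, ht, rfl⟩ := Finset.mem_image.1 hs
    exact (hc t ht).1
  · intro v hv hv'
    have h1 : (LinearMap.range X.d).mkQ v ∈
        (Submodule.span k ((T.image c : Finset V) : Set V)).map (LinearMap.range X.d).mkQ := by
      have h2 : (LinearMap.range X.d).mkQ v ∈ Submodule.span k (T : Set _) := by
        rw [hT]
        exact ⟨v, ⟨hv, hv'⟩, rfl⟩
      refine Submodule.span_le.2 ?_ h2
      intro t ht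
      exact ⟨c t, Submodule.subset_span (Finset.mem_coe.2 (Finset.mem_image_of_mem c ht)),
        (hc t ht).2⟩
    obtain ⟨s, hs, hs'⟩ := h1
    have hsC : s ∈ HFin_cyc X j := by
      refine Submodule.span_le.2 ?_ hs
      intro x hx
      obtain ⟨t, ht, rfl⟩ := Finset.mem_image.1 (Finset.mem_coe.1 hx)
      exact (hc t ht).1
    obtain ⟨u, hu⟩ := HFin_eq.1 hs'.symm
    obtain ⟨h3, h4⟩ := HFin_bd (hv.sub hsC.1) hu
    refine ⟨_, h3, ?_⟩
    rw [h4, sub_sub_cancel]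
    exact hs

private theorem HFin_from {X : Dg k V} {j : ℤ} (h : X.HF j) : Module.Finite k (HFin_H X j) := by
  obtain ⟨S, -, hS⟩ := h
  have : Module.Finite k (Submodule.span k (S : Set V)) := Module.Finite.span_finset k S
  refine HFin_of_weak (Submodule.span k (S : Set V)) fun v hv hv' => ?_
  obtain ⟨w, -, hw⟩ := hS v hv hv'
  exact ⟨w, hw⟩

end aux

/-- A weaker condition suffices.

Proof. The projection `π` to degree `j` (`v ↦ X.ρ v j`) maps `v - d w ∈ span S` to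
`v - d (w_(j-1)) ∈ span (π S)`, a finite-dimensional space `F` of elements of degree `j`. So the
space `Z` of the cycles of degree `j` is contained in `F + B`, `B = d (X_(j-1)) ≤ Z`, hence
`Z = (F ⊓ Z) + B`; take for `S` a basis of `F ⊓ Z`. -/
theorem Dg.HF.of_weak {X : Dg k V} {j : ℤ} (h : ∃ S : Finset V, ∀ v, X.IsDeg j v → X.d v = 0 →
    ∃ w, v - X.d w ∈ Submodule.span k (S : Set V)) : X.HF j := by
  obtain ⟨S, hS⟩ := h
  have : Module.Finite k (Submodule.span k (S : Set V)) := Module.Finite.span_finset k S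
  exact HFin_to (HFin_of_weak (Submodule.span k (S : Set V)) hS)

/-- By `Dg.finCoh_iff` and `of_weak`. -/
theorem Dg.FinCoh.HF {X : Dg k V} (h : X.FinCoh) (j : ℤ) : X.HF j := by
  obtain ⟨S, -, hS⟩ := X.finCoh_iff.1 h
  refine Dg.HF.of_weak ⟨S, fun v _ hv => ?_⟩
  obtain ⟨y, hy, z, hz⟩ := hS v hv
  refine ⟨z, ?_⟩
  rw [hz, add_sub_cancel_right]
  exact hy

theorem Dg.Rng.HF {X : Dg k V} {a b : ℤ} (h : X.Rng a b) {j : ℤ} (hj : b < j) : X.HF j :=
  ⟨∅, by simp, fun v hv _ => ⟨0, Dg.IsDeg.zero _, by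
    rw [map_zero, h j v hv (Or.inr hj), sub_zero]
    exact Submodule.zero_mem _⟩⟩

theorem Dg.Rng.HF' {X : Dg k V} {a b : ℤ} (h : X.Rng a b) {j : ℤ} (hj : j < a) : X.HF j :=
  ⟨∅, by simp, fun v hv _ => ⟨0, Dg.IsDeg.zero _, by
    rw [map_zero, h j v hv (Or.inl hj), sub_zero]
    exact Submodule.zero_mem _⟩⟩

/-- A bounded complex with finite-dimensional cohomology in every degree.

Proof. `Dg.finCoh_iff` with the union of the sets for `j` from `a` to `b`. A cycle is the sum of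
its components (`X.sum_ρ`), which are cycles (`X.ρ_d`), zero outside of `[a, b]`. -/
theorem Dg.finCoh_of_HF {X : Dg k V} {a b : ℤ} (h : X.Rng a b) (hj : ∀ j, X.HF j) :
    X.FinCoh := by
  classical
  choose S hS hS' using hj
  rw [Dg.finCoh_iff]
  refine ⟨(Finset.Icc a b).biUnion S, fun x hx => ?_, fun x hx => ?_⟩
  · obtain ⟨j, -, hj⟩ := Finset.mem_biUnion.1 hx
    exact (hS j x hj).2
  · have h1 : x ∈ Submodule.span k (((Finset.Icc a b).biUnion S : Finset V) : Set V) ⊔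
        LinearMap.range X.d := by
      rw [← X.sum_ρ x]
      refine Submodule.sum_mem _ fun n _ => ?_
      by_cases hn : n < a ∨ b < n
      · rw [h n _ (Dg.isDeg_ρ x n) hn]
        exact Submodule.zero_mem _
      · have h2 : X.d (X.ρ x n) = 0 := by
          rw [← X.ρ_d, hx, map_zero, Finsupp.zero_apply]
        obtain ⟨w, -, hw⟩ := hS' n _ (Dg.isDeg_ρ x n) h2
        have h3 : X.ρ x n = (X.ρ x n - X.d w) + X.d w := by abel
        rw [h3]
        refine Submodule.add_mem_sup ?_ ⟨w, rfl⟩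
        refine Submodule.span_mono ?_ hw
        intro y hy
        refine Finset.mem_coe.2 (Finset.mem_biUnion.2 ⟨n, ?_, Finset.mem_coe.1 hy⟩)
        rw [Finset.mem_Icc]
        omega
    obtain ⟨y, hy, z, ⟨w, rfl⟩, hz⟩ := Submodule.mem_sup.1 h1
    exact ⟨y, hy, w, hz.symm⟩

theorem HF.shift {M : Bim A B} {j : ℤ} (h : M.dg.HF (j + 1)) : (M.shift 1).dg.HF j := by
  obtain ⟨S, hS, hS'⟩ := h
  have hd : ∀ v : M.M, (M.shift 1).dg.d v = - M.dg.d v := by
    intro v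
    have h1 : (M.shift 1).dg.d v = sg 1 • M.dg.d v := M.dg.shift_d 1 v
    rw [h1, sg_one, neg_smul, one_smul]
  refine ⟨S, fun s hs => ⟨M.dg.shift_deg.2 (hS s hs).1, ?_⟩, fun v hv hv' => ?_⟩
  · exact (hd s).trans ((congrArg Neg.neg (hS s hs).2).trans neg_zero)
  · have hv2 : M.dg.d v = 0 := neg_eq_zero.1 ((hd v).symm.trans hv')
    obtain ⟨w, hw, hw'⟩ := hS' v (M.dg.shift_deg.1 hv) hv2
    refine ⟨(-w : M.M), M.dg.shift_deg.2 ?_, ?_⟩
    · rw [sub_add_cancel]
      rw [add_sub_cancel_right] at hw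
      exact hw.neg
    · have e : (M.shift 1).dg.d (-w : M.M) = M.dg.d w :=
        (hd (-w : M.M)).trans (by rw [map_neg, neg_neg])
      rw [e]
      exact hw'

/-- Extensions. In the notation `i, p, r, σ` of `IsExt`: let `S'` and `S''` be the finite sets for
`M'` and `M''`. The space `U` of the cycles `v` of degree `j` in `M` with `p v ∈ span S''` has
image under `p` of finite dimension: there is a finite `T ⊆ U` such that `U ≤ span T + (ker p ⊓ U)`.
An element of `ker p ⊓ U` is `i x`, `x = r v` a cycle of degree `j` (`i` is injective), so it is in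
`span (i S') + d (M_(j-1))`. If `v` is any cycle of degree `j` then `p v - d w'' ∈ span S''`, `w''`
of degree `j - 1`, and `v - d (σ w'') ∈ U`. -/
theorem HF.ext {M' M M'' : Bim A B} (h : IsExt M' M M'') {j : ℤ} (h' : M'.dg.HF j)
    (h'' : M''.dg.HF j) : M.dg.HF j := by
  obtain ⟨i, p, r, σ, hi, hp, hri, hpσ, hpi, hrσ, hs⟩ := h
  have f' := HFin_from h'
  have f'' := HFin_from h''
  refine HFin_to ?_
  let I : (M'.M ⧸ LinearMap.range M'.dg.d) →ₗ[k] (M.M ⧸ LinearMap.range M.dg.d) :=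
    Submodule.mapQ _ _ i.f (by
      rintro _ ⟨x, rfl⟩
      exact ⟨i.f x, GMap.d_f_zero hi x⟩)
  let P : (M.M ⧸ LinearMap.range M.dg.d) →ₗ[k] (M''.M ⧸ LinearMap.range M''.dg.d) :=
    Submodule.mapQ _ _ p.f (by
      rintro _ ⟨x, rfl⟩
      exact ⟨p.f x, GMap.d_f_zero hp x⟩)
  have e1 : (HFin_H M.dg j).map P ≤ HFin_H M''.dg j := by
    rintro _ ⟨_, ⟨v, hv, rfl⟩, rfl⟩
    refine ⟨p.f v, ⟨?_, ?_⟩, rfl⟩
    · have h1 := p.deg hv.1
      rwa [add_zero] at h1
    · rw [GMap.d_f_zero hp, hv.2, map_zero]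
  have e2 : HFin_H M.dg j ⊓ LinearMap.ker P ≤ (HFin_H M'.dg j).map I := by
    rintro _ ⟨⟨v, hv, rfl⟩, hk⟩
    have h1 : (LinearMap.range M''.dg.d).mkQ (p.f v) = (LinearMap.range M''.dg.d).mkQ 0 := by
      rw [map_zero]
      exact LinearMap.mem_ker.1 hk
    obtain ⟨u, hu⟩ := HFin_eq.1 h1
    rw [sub_zero] at hu
    have h2 : M''.dg.IsDeg j (p.f v) := by
      have h3 := p.deg hv.1
      rwa [add_zero] at h3
    obtain ⟨h3, h4⟩ := HFin_bd h2 hu
    have h5 : M.dg.IsDeg j (M.dg.d (σ.f (M''.dg.ρ u (j - 1)))) := by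
      have h6 := (σ.deg h3).d
      rwa [add_zero, sub_add_cancel] at h6
    have hpw : p.f (v - M.dg.d (σ.f (M''.dg.ρ u (j - 1)))) = 0 := by
      rw [map_sub, ← GMap.d_f_zero hp, hpσ, h4, sub_self]
    have hw : i.f (r.f (v - M.dg.d (σ.f (M''.dg.ρ u (j - 1))))) =
        v - M.dg.d (σ.f (M''.dg.ρ u (j - 1))) := by
      have h7 := hs (v - M.dg.d (σ.f (M''.dg.ρ u (j - 1))))
      rwa [hpw, map_zero, add_zero] at h7
    refine ⟨(LinearMap.range M'.dg.d).mkQ
      (r.f (v - M.dg.d (σ.f (M''.dg.ρ u (j - 1))))), ⟨_, ⟨?_, ?_⟩, rfl⟩, ?_⟩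
    · have h8 := r.deg (hv.1.sub h5)
      rwa [add_zero] at h8
    · rw [← hri (M'.dg.d (r.f (v - M.dg.d (σ.f (M''.dg.ρ u (j - 1)))))),
        ← GMap.d_f_zero hi, hw, map_sub, hv.2, M.dg.d_d, sub_zero, map_zero]
    · change (LinearMap.range M.dg.d).mkQ
        (i.f (r.f (v - M.dg.d (σ.f (M''.dg.ρ u (j - 1)))))) = _
      rw [hw]
      exact HFin_eq.2 ⟨-σ.f (M''.dg.ρ u (j - 1)), by rw [map_neg]; abel⟩
  have g1 : Module.Finite k ((HFin_H M.dg j).map P) := Submodule.finiteDimensional_of_le e1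
  have g2 : Module.Finite k ((HFin_H M'.dg j).map I) := Module.Finite.map _ _
  have g3 : Module.Finite k ↥(HFin_H M.dg j ⊓ LinearMap.ker P) :=
    Submodule.finiteDimensional_of_le e2
  exact Module.Finite.iff_fg.2 (Submodule.fg_of_fg_map_of_fg_inf_ker P
    (Module.Finite.iff_fg.1 g1) (Module.Finite.iff_fg.1 g3))

/-- Quasi-isomorphisms (take homogeneous components). -/
theorem HF.qiso {M N : Bim A B} (φ : GMap 0 M N) (hφ : QIso φ) {j : ℤ} (h : M.dg.HF j) :
    N.dg.HF j := by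
  classical
  obtain ⟨S, -, hS⟩ := h
  obtain ⟨h0, -, h2⟩ := hφ
  refine Dg.HF.of_weak ⟨S.image φ.f, fun y hy hy' => ?_⟩
  obtain ⟨x, hx, z, hz⟩ := h2 y hy'
  have hρ := (Dg.degMap_iff (X := M.dg) (Y := N.dg) (n := 0) φ.f).1 (fun j v hv => φ.deg hv) x j
  rw [add_zero] at hρ
  have h3 : N.dg.d (N.dg.ρ z (j - 1)) = y - φ.f (M.dg.ρ x j) := by
    rw [← N.dg.ρ_d, sub_add_cancel, hz, map_sub, Finsupp.sub_apply, HFin_comp hy, hρ]
  have h4 : M.dg.d (M.dg.ρ x j) = 0 := by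
    rw [← M.dg.ρ_d, hx, map_zero, Finsupp.zero_apply]
  obtain ⟨w, -, hw⟩ := hS _ (Dg.isDeg_ρ x j) h4
  refine ⟨N.dg.ρ z (j - 1) + φ.f w, ?_⟩
  have h5 : y - N.dg.d (N.dg.ρ z (j - 1) + φ.f w) = φ.f (M.dg.ρ x j - M.dg.d w) := by
    rw [map_add, h3, GMap.d_f_zero h0, map_sub]
    abel
  rw [h5, Finset.coe_image]
  have h6 : φ.f (M.dg.ρ x j - M.dg.d w) ∈ (Submodule.span k (S : Set M.M)).map φ.f :=
    ⟨_, hw, rfl⟩
  rwa [Submodule.map_span] at h6

theorem HF.biso {M N : Bim A B} (e : BIso M N) {j : ℤ} (h : M.dg.HF j) : N.dg.HF j := by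
  obtain ⟨φ, ψ, h0, h1, h2⟩ := e
  exact HF.qiso φ (qiso_of_inv h0 h1 h2) h

/-- `H^j(M) → H^j(M'') → H^(j+1)(M')`.

Proof. As for `FEx.finCoh_right` in BFlat: there are `C` with `IsExt (F.obj M) C
((F.obj M').shift 1)` and a quasi-isomorphism `C → F.obj M''` (`IsSes.cone`, `isCone_cone`,
`IsCone.isExt`; copy the private lemma `BFlat_ext`); `HF.ext`, `HF.shift`, `HF.qiso`. -/
theorem FEx.HF_right {F : DGFun A B A' B'} (hF : FEx F) {M' M M'' : Bim A B}
    (h : IsSes M' M M'') {j : ℤ} (hM : (F.obj M).dg.HF j) (h' : (F.obj M').dg.HF (j + 1)) :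
    (F.obj M'').dg.HF j := by
  obtain ⟨i, h0, q, hq⟩ := h.cone
  exact HF.qiso (F.map q) (hF.qiso q hq)
    (HF.ext (F.isCone (isCone_cone i h0)).isExt hM (HF.shift h'))

end Pool.Agent.MP_6e5bed_ag_NC
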