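import Pool.Agent.Lib.MP_6e5bed_ag_KC.BFlat
import Pool.Agent.Lib.MP_6e5bed_ag_NC.FinPerf

set_option autoImplicit false
set_option linter.unusedSectionVars false

/-!
# Finite-dimensional cohomology of external products (project KC, part B2)
-/

namespace Pool.Agent.MP_6e5bed_ag_NC

open scoped TensorProduct

universe u

variable {k : Type u} [Field k] {A B A' B' H K K' : DGA k}

/-- Proof. The condition depends only on the complexes, so we may replace `M`, `N` by `und M`,
`und N`; these are perfect (`perf_of_finCoh`), so their external product is perfect (`Perf.box`),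
as is its restriction to the base field (`K0Q.res_perf` for `lunitIso`), and `Perf.finCoh`.
(For the comparison of the underlying complexes: `res` does not change them.) -/
theorem finCoh_box {M : Bim A B} {N : Bim A' B'} (hM : M.dg.FinCoh) (hN : N.dg.FinCoh) :
    (box M N).dg.FinCoh := by
  have h1 : Perf (und M) := (perf_of_finCoh (V := und M) hM).choose
  have h2 : Perf (und N) := (perf_of_finCoh (V := und N) hN).choose
  exact (K0Q.res_perf (lunitIso (base k)).symm (lunitIso (base k)).symm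
    (Perf.box h1 h2)).finCoh

theorem finCoh_insL {X : Bim H (base k)} {M : Bim K K'} (hX : X.dg.FinCoh)
    (hM : M.dg.FinCoh) : (insL X M).dg.FinCoh := finCoh_box hX hM

theorem finCoh_insR {X : Bim (base k) H} {M : Bim K K'} (hX : X.dg.FinCoh)
    (hM : M.dg.FinCoh) : (insR X M).dg.FinCoh := finCoh_box hX hM

private theorem HKun_fun {V : Type u} [AddCommGroup V] [Module k V] (X : Dg k V)
    (h : ∃ m, X.d m = 0 ∧ ∀ y, X.d y ≠ m) : ∃ (m : V) (f : V →ₗ[k] k) (ε : k), X.d m = 0 ∧
      ε * ε = 1 ∧ f m = 1 ∧ (∀ x, f (X.d x) = 0) ∧ ∀ x, f (X.s x) = ε * f x := by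
  obtain ⟨m, hm, hy⟩ := h
  have h1 : ∃ i, X.ρ m i ∉ LinearMap.range X.d := by
    by_contra hc
    push Not at hc
    have h2 : m ∈ LinearMap.range X.d := by
      rw [← X.sum_ρ m, Finsupp.sum]
      exact Submodule.sum_mem _ fun i _ => hc i
    obtain ⟨y, hy'⟩ := h2
    exact hy y hy'
  obtain ⟨i, hi⟩ := h1
  obtain ⟨f₀, hf₀, hr⟩ := Submodule.exists_dual_map_eq_bot_of_notMem hi inferInstance
  have hd : ∀ x, f₀ (X.d x) = 0 := fun x => by
    have h2 : f₀ (X.d x) ∈ (LinearMap.range X.d).map f₀ := ⟨X.d x, ⟨x, rfl⟩, rfl⟩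
    rw [hr] at h2
    exact h2
  let f : V →ₗ[k] k := ((f₀ (X.ρ m i))⁻¹ • f₀) ∘ₗ (Finsupp.lapply i) ∘ₗ X.ρ
  have hf : ∀ x, f x = (f₀ (X.ρ m i))⁻¹ * f₀ (X.ρ x i) := fun x => rfl
  refine ⟨X.ρ m i, f, if Even i then 1 else -1, ?_, ?_, ?_, ?_, ?_⟩
  · have h2 := X.ρ_d m i
    rw [hm, map_zero] at h2
    exact h2.symm
  · split_ifs <;> ring
  · rw [hf, X.ρ_ρ, Finsupp.single_eq_same]
    exact inv_mul_cancel₀ hf₀
  · intro x
    have h2 := X.ρ_d x (i - 1)
    rw [sub_add_cancel] at h2
    rw [hf, h2, hd, mul_zero]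
  · intro x
    have h2 : f.comp X.s = (if Even i then (1 : k) else -1) • f := by
      refine X.hom_ext fun n v hv => ?_
      rw [LinearMap.comp_apply, LinearMap.smul_apply, smul_eq_mul]
      by_cases hn : n = i
      · subst hn
        rcases Dg.o_of_parity hv with ⟨he, ho⟩ | ⟨he, ho⟩
        · rw [Dg.s_of_even ho, if_pos he, one_mul]
        · rw [Dg.s_of_odd ho, if_neg (by simpa using he), map_neg, neg_one_mul]
      · have h3 : ∀ w : V, X.IsDeg n w → f w = 0 := fun w hw => by
          have h4 : X.ρ w = Finsupp.single n w := hw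
          rw [hf, h4, Finsupp.single_eq_of_ne (Ne.symm hn), map_zero, mul_zero]
        rw [h3 _ hv.s, h3 _ hv, mul_zero]
    exact LinearMap.congr_fun h2 x

private theorem HKun_d {V W : Type u} [AddCommGroup V] [Module k V] [AddCommGroup W]
    [Module k W] (X : Dg k V) (Y : Dg k W) (f : V →ₗ[k] k) (ε : k)
    (hd : ∀ x, f (X.d x) = 0) (hs : ∀ x, f (X.s x) = ε * f x) (z : V ⊗[k] W) :
    TensorProduct.lid k W (LinearMap.rTensor W f ((X.tensor Y).d z)) =
      ε • Y.d (TensorProduct.lid k W (LinearMap.rTensor W f z)) := by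
  induction z using TensorProduct.induction_on with
  | zero => simp
  | add x y hx hy => simp only [map_add, hx, hy, smul_add]
  | tmul x y =>
    rw [Dg.tensor_d, map_add, map_add, LinearMap.rTensor_tmul, LinearMap.rTensor_tmul,
      LinearMap.rTensor_tmul, TensorProduct.lid_tmul, TensorProduct.lid_tmul,
      TensorProduct.lid_tmul, hd, hs, zero_smul, zero_add, map_smul, mul_smul]

/-- Proof. As `M` is not acyclic there is a cycle `m` which is not a boundary; one of its
components, of degree `i` say, is a cycle and not a boundary (`X.ρ_d`), and we may take it for `m`.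
There is a linear functional `f` on `M.M` with `f m = 1`, `f (d x) = 0` for all `x`, and `f x = 0`
for `x` homogeneous of degree `≠ i` (compose a functional which vanishes on the boundaries with the
projection to degree `i`). Then `g = f ⊗ id : M.M ⊗ N.M → N.M` satisfies
`g (d z) = (-1) ^ i • d (g z)` (`box` has the complex `M.dg.tensor N.dg`, `Dg.tensor_d`), and
`g (m ⊗ n) = n`, where `m ⊗ n` is a cycle if `n` is one. Use `finCoh_exact` with `f := g`,
`g := 0`. -/
theorem finCoh_of_box {M : Bim A B} {N : Bim A' B'} (hM : ¬ Acyc M)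
    (h : (box M N).dg.FinCoh) : N.dg.FinCoh := by
  have h0 : ∃ m, M.dg.d m = 0 ∧ ∀ y, M.dg.d y ≠ m := by
    unfold Acyc at hM
    push Not at hM
    exact hM
  obtain ⟨m, f, ε, hm, hε, hfm, hd, hs⟩ := HKun_fun M.dg h0
  obtain ⟨Z, hZ, hZ0⟩ := contr_zero (A := A) (B := B)
  have hZf : Z.dg.FinCoh := FinCoh.of_acyc hZ.acyc
  have key := HKun_d M.dg N.dg f ε hd hs
  let g : M.M ⊗[k] N.M →ₗ[k] N.M :=
    (TensorProduct.lid k N.M).toLinearMap ∘ₗ LinearMap.rTensor N.M f
  have hg : ∀ z, g ((M.dg.tensor N.dg).d z) = ε • N.dg.d (g z) := key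
  have hg2 : ∀ z, N.dg.d (g z) = ε • g ((M.dg.tensor N.dg).d z) := fun z => by
    rw [hg, smul_smul, hε, one_smul]
  refine finCoh_exact (X := M.dg.tensor N.dg) (Z := Z.dg) g (0 : N.M →ₗ[k] Z.M) ?_ ?_ ?_ ?_ ?_
    h hZf
  · intro x hx
    rw [hg2, hx, map_zero, smul_zero]
  · intro u
    exact ⟨ε • g u, by rw [map_smul, hg]⟩
  · intro y _
    rw [LinearMap.zero_apply, map_zero]
  · intro v
    exact ⟨0, by rw [LinearMap.zero_apply, map_zero]⟩
  · intro y hy _
    refine ⟨m ⊗ₜ y, ?_, 0, ?_⟩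
    · rw [Dg.tensor_d, hm, hy, TensorProduct.zero_tmul, TensorProduct.tmul_zero, add_zero]
    · change y = TensorProduct.lid k N.M (LinearMap.rTensor N.M f (m ⊗ₜ y)) + N.dg.d 0
      rw [LinearMap.rTensor_tmul, TensorProduct.lid_tmul, hfm, one_smul, map_zero, add_zero]

theorem finCoh_of_insL {X : Bim H (base k)} {M : Bim K K'} (hX : ¬ Acyc X)
    (h : (insL X M).dg.FinCoh) : M.dg.FinCoh := finCoh_of_box (M := X) hX h

theorem finCoh_of_insR {X : Bim (base k) H} {M : Bim K K'} (hX : ¬ Acyc X)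
    (h : (insR X M).dg.FinCoh) : M.dg.FinCoh := finCoh_of_box (M := X) hX h

/-- Isomorphisms (`QIso.finCoh`, `qiso_of_inv`). -/
theorem BIso.finCoh {M N : Bim A B} (e : BIso M N) (h : M.dg.FinCoh) : N.dg.FinCoh := by
  obtain ⟨φ, ψ, h0, h1, h2⟩ := e
  exact (QIso.finCoh φ (qiso_of_inv h0 h1 h2)).1 h

end Pool.Agent.MP_6e5bed_ag_NC
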