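import Pool.Agent.Lib.MP_6e5bed_ag_KC.LLcl
import Pool.Agent.Lib.MP_6e5bed_ag_KC.BKf

set_option autoImplicit false
set_option linter.unusedSectionVars false

/-!
# The functions of lattices exist (project KC, part B5)
-/

namespace Pool.Agent.MP_6e5bed_ag_NC

open CategoryTheory MonoidalCategory Equiv
open Pool.Agent.MP_6e5bed_ag

universe u

variable {k : Type u} [Field k] {X : SP k}

theorem tfam_tpowIso (n : ℕ) : ∀ f : Fin n → (X ⟶ X),
    tfam n f ≫ (tpowIso X n).hom = (tpowIso X n).hom ≫ pwFam f := by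
  induction n with
  | zero =>
    intro f
    change 𝟙 (SP.base k) ≫ 𝟙 (SP.base k) = 𝟙 (SP.base k) ≫ 𝟙 (SP.base k)
    rfl
  | succ n ih =>
    intro f
    have h1 : (tpowIso X (n + 1)).hom =
        (𝟙 X ⊗ₘ (tpowIso X n).hom : X ⊗ tpow X n ⟶ X ⊗ pwS X n) :=
      (id_tensorHom X (tpowIso X n).hom).symm
    rw [h1]
    change (f 0 ⊗ₘ tfam n (fun i => f i.succ)) ≫ (𝟙 X ⊗ₘ (tpowIso X n).hom) =
      (𝟙 X ⊗ₘ (tpowIso X n).hom) ≫ (f 0 ⊗ₘ pwFam (fun i => f (Fin.succ i)))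
    rw [tensorHom_comp_tensorHom, tensorHom_comp_tensorHom, ih, Category.comp_id,
      Category.id_comp]

/-- Transport of an endomorphism of the tensor power. -/
noncomputable def tcj (n : ℕ) (f : pwS X n ⟶ pwS X n) : tpow X n ⟶ tpow X n :=
  (tpowIso X n).hom ≫ f ≫ (tpowIso X n).inv

theorem tcj_add (n : ℕ) (f g : pwS X n ⟶ pwS X n) : tcj n (f + g) = tcj n f + tcj n g := by
  unfold tcj
  rw [Preadditive.add_comp, Preadditive.comp_add]

theorem tcj_adj (n i : ℕ) (f : pwS X n ⟶ pwS X n) : tcj n (f ≫ aS X n i) = tcj n f ≫ adj X n i := by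
  unfold tcj
  have h1 : adj X n i ≫ (tpowIso X n).hom = (tpowIso X n).hom ≫ aS X n i := adj_tpowIso X n i
  have h2 : aS X n i ≫ (tpowIso X n).inv = (tpowIso X n).inv ≫ adj X n i := by
    rw [Iso.eq_inv_comp, ← Category.assoc, ← h1, Category.assoc, Iso.hom_inv_id, Category.comp_id]
  rw [Category.assoc, h2, Category.assoc, Category.assoc]

theorem tcj_pwFam (n : ℕ) (f : Fin n → (X ⟶ X)) : tcj n (pwFam f) = tfam n f := by
  unfold tcj
  rw [← Category.assoc, ← tfam_tpowIso, Category.assoc, Iso.hom_inv_id, Category.comp_id]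

end Pool.Agent.MP_6e5bed_ag_NC

namespace Pool.Agent.MP_6e5bed_ag_KC

open RatFunc Equiv CategoryTheory MonoidalCategory
open Pool.Agent.MP_6e5bed_ag_NC
open Pool.Agent.MP_6e5bed_ag

universe u

variable {k : Type u} [Field k] {D : FExt k} {F : LSp D} (V : LP k F.F) (hV : BSt V)
  (hsm : Smooth (endCosp V).cech) (hpr : Proper (endCosp V).cech)
  {P : Ideal (A1 D)} (hP : (⟨(tt D)⁻¹, tt_inv_mem_BB1 D⟩ : A1 D) ∈ P)
  (U : UData V hV hsm hpr P)

/-- The function of lattices. -/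
noncomputable def latFun (hC : ∀ j, HasRes ((C1 (ZL V hV) (ZR V)).obj (SysM D j).kbi.bim))
    (n : ℕ) : LatFunP D P hP (TS V hsm hpr) (fun j => U.ul ≫ bJ V hV hsm hpr j ≫ U.ur) n where
  val := fun N => tcj n (sw V hV hsm hpr U.ul U.ur N)
  kill := fun N N' hN hN' hle i h => by
    rcases i with ⟨s, hs⟩ | ⟨s, hs⟩
    · exact congrArg (tcj n) (sw_killL V hV hsm hpr hP U s hs N' N hN hN' hle h)
    · exact congrArg (tcj n) (sw_killR V hV hsm hpr hP U s hs N' N hN hN' hle h)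
  iso := fun N N' _ _ f hf he hc =>
    congrArg (tcj n) (sw_iso V hV hsm hpr U.ul U.ur N N' f hf he hc)
  add := fun N N' hN hN' => by
    rw [sw_add V hV hsm hpr U.ul U.ur N N' hN hN', tcj_add]
  perm := fun N _ i h => by
    rw [sw_reindexR V hV hsm hpr U.ul U.ur N i h, tcj_adj]
  prod := fun κ => by
    rw [sw_LL V hV hsm hpr hC U.ul U.ur n κ, tcj_pwFam]

end Pool.Agent.MP_6e5bed_ag_KC
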