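import Pool.Agent.Lib.MP_6e5bed_ag_KC.BKf
import Pool.Agent.Lib.MP_6e5bed_ag_KC.LPsiF

set_option autoImplicit false
set_option linter.unusedSectionVars false

/-!
# The noncommutative motives of the dg algebras of curves are Kimura-finite (project KC)
-/

namespace Pool.Agent.MP_6e5bed_ag_KC

open RatFunc CategoryTheory MonoidalCategory
open Pool.Agent.MP_6e5bed_ag_NC Pool.Agent.MP_6e5bed_ag

universe u

variable {k : Type u} [Field k]

/-- The functions of lattices. -/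
theorem exists_latFun [IsAlgClosed k] {D : FExt k} {F : LSp D} (V : LP k F.F)
    (hV : BSt (F := F.plus) V.plus)
    (hs : Smooth (endCosp V.plus).cech) (hp : Proper (endCosp V.plus).cech)
    (P : IPt D) (χ : Gam D →ₐ[k] k) (χ' : Gam' D →ₐ[k] k) (hχ : IsChi P.P χ)
    (hχ' : IsChi' P.P χ') (uL uR : spE V.plus hs hp ⟶ spE V.plus hs hp)
    (hL : uL ≫ mor (X := spE V.plus hs hp) (Y := SP.base k)
        (SL (F := F.plus) V.plus hV χ) = 0)
    (hR : mor (X := SP.base k) (Y := spE V.plus hs hp)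
        (SR (F := F.plus) V.plus χ') ≫ uR = 0) (n : ℕ) :
    Nonempty (LatFunP D P.P P.hP
        (spE V.plus hs hp) (fun j => uL ≫ mor (X := spE V.plus hs hp)
          (Y := spE V.plus hs hp) ((C1 (ZL (F := F.plus) V.plus hV)
            (ZR (F := F.plus) V.plus)).obj (SysM D j).kbi.bim) ≫ uR) n) := by
  have hPt : P.P ≠ ⊤ := P.max.ne_top
  have h11 : ∀ b : D.L, b = (tt D)⁻¹ → b ∈ pL P.P 1 1 := fun b hb => by
    rw [hb]
    refine pL_one.2 ⟨⟨(tt D)⁻¹, tt_inv_mem_BB1 D⟩, ?_, rfl⟩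
    rw [pow_one]
    exact P.hP
  have h1 : ∀ g : Gam D, g.1 1 1 = 0 → χ g = 0 := fun g hg =>
    hχ.eq_zero hPt g (by rw [hg]; exact Submodule.zero_mem _)
  have h2 : ∀ g : Gam D, g.1 1 1 = (tt D)⁻¹ → χ g = 0 := fun g hg =>
    hχ.eq_zero hPt g (h11 _ hg)
  have h1' : ∀ g : Gam' D, g.1 1 1 = 0 → χ' g = 0 := fun g hg =>
    hχ'.eq_zero hPt g (by rw [hg]; exact Submodule.zero_mem _)
  have h2' : ∀ g : Gam' D, g.1 1 1 = (tt D)⁻¹ → χ' g = 0 := fun g hg =>
    hχ'.eq_zero hPt g (h11 _ hg)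
  have f1 : Module.Finite k (SL (F := F.plus) V.plus hV χ).M := SL_fin V.plus hV χ h1 h2
  have f2 : Module.Finite k (SR (F := F.plus) V.plus χ').M := SR_fin V.plus χ' h1' h2'
  have r1 : (SL (F := F.plus) V.plus hV χ).dg.FinCoh := Dg.finCoh_of_finite _
  have r2 : (SR (F := F.plus) V.plus χ').dg.FinCoh := Dg.finCoh_of_finite _
  let U : UData (F := F.plus) V.plus hV hs hp P.P :=
    { χ := χ
      χ' := χ'
      hχ := hχ
      hχ' := hχ'
      hS := SL_nz V hV χ h1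
      hS' := SR_nz V χ' h1'
      rS := HasRes.of_finCoh hs smooth_base _ r1
      rS' := HasRes.of_finCoh smooth_base hs _ r2
      ul := uL
      ur := uR
      hul := hL
      hur := hR }
  exact ⟨latFun (F := F.plus) V.plus hV hs hp P.hP U
    (fun j => (ecl_SysM (F := F.plus) V.plus hV hs hp j).1) n⟩

/-- THE END. -/
theorem kf_curve [IsAlgClosed k] (W : SP k) (hW : IsCurve W.alg) : KimuraFinite (U W) := by
  obtain ⟨W, hs, hp⟩ := W
  obtain ⟨D, F, V, hB, rfl⟩ := hW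
  exact kf_of_latFun V (bst_plus hB) hs hp fun P χ χ' hχ hχ' uL uR hL hR n =>
    exists_latFun V (bst_plus hB) hs hp P χ χ' hχ hχ' uL uR hL hR n

end Pool.Agent.MP_6e5bed_ag_KC
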