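import Pool.Agent.Lib.MP_6e5bed_ag_KC.LLat
import Pool.Agent.Lib.MP_6e5bed_ag.STfam

set_option autoImplicit false
set_option linter.unusedSectionVars false

/-!
# Project KC: the universal algebra with `2 n` points in `L`; the interface of the bridge
-/

noncomputable section

namespace Pool.Agent.MP_6e5bed_ag_KC

open RatFunc CategoryTheory MonoidalCategory Equiv
open Pool.Agent.MP_6e5bed_ag_NC
open Pool.Agent.MP_6e5bed_ag
open scoped TensorProduct

universe u v w

/-- A commutative algebra. -/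
structure KAlg (k : Type u) [Field k] where
  A : Type u
  [cr : CommRing A]
  [alg : Algebra k A]

attribute [instance] KAlg.cr KAlg.alg

variable {k : Type u} [Field k] (D : FExt k)

/-- The algebra `(L ⊗ L) ⊗ ((L ⊗ L) ⊗ (⋯ ⊗ k))`. -/
def KT : ℕ → KAlg k
  | 0 => ⟨k⟩
  | n + 1 => ⟨(D.L ⊗[k] D.L) ⊗[k] (KT n).A⟩

/-- The first `n` points. -/
def kx : (n : ℕ) → Fin n → (D.L →ₐ[k] (KT D n).A)
  | 0 => fun i => i.elim0
  | n + 1 => Fin.cons
      ((Algebra.TensorProduct.includeLeft : D.L ⊗[k] D.L →ₐ[k] (KT D (n + 1)).A).comp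
        Algebra.TensorProduct.includeLeft)
      fun i => Algebra.TensorProduct.includeRight.comp (kx n i)

/-- The last `n` points. -/
def ky : (n : ℕ) → Fin n → (D.L →ₐ[k] (KT D n).A)
  | 0 => fun i => i.elim0
  | n + 1 => Fin.cons
      ((Algebra.TensorProduct.includeLeft : D.L ⊗[k] D.L →ₐ[k] (KT D (n + 1)).A).comp
        Algebra.TensorProduct.includeRight)
      fun i => Algebra.TensorProduct.includeRight.comp (ky n i)

variable {D}

theorem prL_comp {K K' : Type u} [CommRing K] [Algebra k K] [CommRing K'] [Algebra k K']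
    (ρ : K →ₐ[k] K') (x y : D.L →ₐ[k] K) : ρ.comp (prL x y) = prL (ρ.comp x) (ρ.comp y) := by
  refine Algebra.TensorProduct.ext' fun a b => ?_
  change ρ (prL x y (a ⊗ₜ[k] b)) = prL (ρ.comp x) (ρ.comp y) (a ⊗ₜ[k] b)
  unfold prL
  rw [Algebra.TensorProduct.lift_tmul, Algebra.TensorProduct.lift_tmul, map_mul]
  rfl

/-- The components of `LL` under a homomorphism of algebras. -/
theorem LLN_map {K K' : Type u} [CommRing K] [Algebra k K] [CommRing K'] [Algebra k K'] {n : ℕ}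
    (ρ : K →ₐ[k] K') (κ : Fin n → ℕ) (x y : Fin n → (D.L →ₐ[k] K))
    (c : Fin n ⊕ Fin n → Fin 3) :
    (LLN κ x y c).map ρ.toLinearMap = LLN κ (fun i => ρ.comp (x i)) (fun i => ρ.comp (y i)) c := by
  unfold LLN
  have h : ∀ s : Finset (Fin n),
      (∏ i ∈ s, (Jk D (κ i) (c (Sum.inl i)) (c (Sum.inr i))).map
        (prL (x i) (y i)).toLinearMap).map ρ.toLinearMap =
      ∏ i ∈ s, (Jk D (κ i) (c (Sum.inl i)) (c (Sum.inr i))).map
        (prL (ρ.comp (x i)) (ρ.comp (y i))).toLinearMap := by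
    intro s
    induction s using Finset.induction_on with
    | empty =>
      rw [Finset.prod_empty, Finset.prod_empty]
      exact Submodule.map_one ρ
    | insert a s ha ih =>
      rw [Finset.prod_insert ha, Finset.prod_insert ha]
      refine (Submodule.map_mul _ _ ρ).trans ?_
      rw [ih, ← prL_comp, ← Submodule.map_comp]
      rfl
  exact h Finset.univ

/-- The recursion for the universal lattices. -/
theorem LLN_succ {n : ℕ} (κ : Fin (n + 1) → ℕ) (c : Fin (n + 1) ⊕ Fin (n + 1) → Fin 3) :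
    LLN κ (kx D (n + 1)) (ky D (n + 1)) c =
      Submodule.map₂ (TensorProduct.mk k (D.L ⊗[k] D.L) (KT D n).A)
        (Jk D (κ 0) (c (Sum.inl 0)) (c (Sum.inr 0)))
        (LLN (fun i => κ i.succ) (kx D n) (ky D n)
          (Sum.elim (fun i => c (Sum.inl i.succ)) fun i => c (Sum.inr i.succ))) := by
  have h0 : prL (kx D (n + 1) 0) (ky D (n + 1) 0) =
      (Algebra.TensorProduct.includeLeft : D.L ⊗[k] D.L →ₐ[k] (D.L ⊗[k] D.L) ⊗[k] (KT D n).A) := by
    refine Algebra.TensorProduct.ext' fun a b => ?_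
    unfold prL
    rw [Algebra.TensorProduct.lift_tmul]
    change ((a ⊗ₜ[k] (1 : D.L)) ⊗ₜ[k] (1 : (KT D n).A) : (D.L ⊗[k] D.L) ⊗[k] (KT D n).A) *
      (((1 : D.L) ⊗ₜ[k] b) ⊗ₜ[k] (1 : (KT D n).A)) = (a ⊗ₜ[k] b) ⊗ₜ[k] (1 : (KT D n).A)
    rw [Algebra.TensorProduct.tmul_mul_tmul, Algebra.TensorProduct.tmul_mul_tmul, mul_one,
      one_mul, mul_one]
  have h1 := LLN_map (Algebra.TensorProduct.includeRight :
    (KT D n).A →ₐ[k] (D.L ⊗[k] D.L) ⊗[k] (KT D n).A) (fun i => κ i.succ) (kx D n) (ky D n)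
    (Sum.elim (fun i => c (Sum.inl i.succ)) fun i => c (Sum.inr i.succ))
  have h2 : LLN κ (kx D (n + 1)) (ky D (n + 1)) c =
      (Jk D (κ 0) (c (Sum.inl 0)) (c (Sum.inr 0))).map
          (Algebra.TensorProduct.includeLeft :
            D.L ⊗[k] D.L →ₐ[k] (D.L ⊗[k] D.L) ⊗[k] (KT D n).A).toLinearMap *
        (LLN (fun i => κ i.succ) (kx D n) (ky D n)
          (Sum.elim (fun i => c (Sum.inl i.succ)) fun i => c (Sum.inr i.succ))).map
            (Algebra.TensorProduct.includeRight :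
              (KT D n).A →ₐ[k] (D.L ⊗[k] D.L) ⊗[k] (KT D n).A).toLinearMap := by
    rw [h1, ← h0]
    exact Fin.prod_univ_succ _
  rw [h2]
  refine le_antisymm (Submodule.mul_le.2 ?_) (Submodule.map₂_le.2 ?_)
  · rintro _ ⟨a, ha, rfl⟩ _ ⟨b, hb, rfl⟩
    change (a ⊗ₜ[k] (1 : (KT D n).A) : (D.L ⊗[k] D.L) ⊗[k] (KT D n).A) *
      ((1 : D.L ⊗[k] D.L) ⊗ₜ[k] b) ∈ _
    rw [Algebra.TensorProduct.tmul_mul_tmul, mul_one, one_mul]
    exact Submodule.apply_mem_map₂ _ ha hb
  · intro a ha b hb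
    have e : TensorProduct.mk k (D.L ⊗[k] D.L) (KT D n).A a b =
        (a ⊗ₜ[k] (1 : (KT D n).A) : (D.L ⊗[k] D.L) ⊗[k] (KT D n).A) *
          ((1 : D.L ⊗[k] D.L) ⊗ₜ[k] b) := by
      rw [Algebra.TensorProduct.tmul_mul_tmul, mul_one, one_mul]
      rfl
    rw [e]
    exact Submodule.mul_mem_mul ⟨a, ha, rfl⟩ ⟨b, hb, rfl⟩

variable (D)

/-- A function of the lattices for `2 n` factors with values in the endomorphisms of the `n`-th
tensor power of an object, with the right behaviour for permutations and products. -/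
structure LatFunP (P : Ideal (A1 D)) (hP : (⟨(tt D)⁻¹, tt_inv_mem_BB1 D⟩ : A1 D) ∈ P)
    {C : Type w} [Category.{v} C] [MonoidalCategory C] [SymmetricCategory C] [Preadditive C]
    (X : C) (β : ℕ → (X ⟶ X)) (n : ℕ) extends
    LatFun D (Fin n ⊕ Fin n) P hP (tpow X n ⟶ tpow X n) where
  perm : ∀ {E : LSys D (Fin n ⊕ Fin n)} (N : Lat E), N.FG → ∀ (i : ℕ) (h : i + 1 < n),
    val (N.reindex (Equiv.sumCongr (Equiv.refl (Fin n))
      (swap ⟨i, (Nat.lt_succ_self i).trans h⟩ ⟨i + 1, h⟩))) = val N ≫ adj X n i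
  prod : ∀ κ : Fin n → ℕ, val (LL κ (kx D n) (ky D n)) = tfam n fun i => β (κ i)

end Pool.Agent.MP_6e5bed_ag_KC
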