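import Pool.Agent.Lib.MP_6e5bed_ag_KC.LFun
import Pool.Agent.Lib.MP_6e5bed_ag_KC.BGam
import Pool.Agent.Lib.MP_6e5bed_ag_KC.OB

set_option autoImplicit false
set_option linter.unusedSectionVars false

/-!
# The bimodule of a lattice (project KC, part B5)

For a lattice `N` the space `N.V` of the families `f c ∈ N.N c` (`c` a choice of charts) has for
every factor `i` a left action `slotL i` of `Gam D` and a right action `slotR i` of `Gam' D`. If
`lam : Fin p → ι` and `rho : Fin q → ι` are injective with disjoint images, this gives a bimodule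
`N.acts lam rho`.
-/

namespace Pool.Agent.MP_6e5bed_ag_KC

open RatFunc
open Pool.Agent.MP_6e5bed_ag_NC

universe u

variable {k : Type u} [Field k] {D : FExt k} {ι : Type} [DecidableEq ι] {E : LSys D ι}

namespace Lat

theorem N_update_le (N : Lat E) (c : ι → Fin 3) (i : ι) {d : Fin 3} (h : Le3 d (c i)) :
    N.N (Function.update c i d) ≤ N.N c := by
  rcases h with h | h
  · rw [h, Function.update_eq_self]
  · have h1 := N.mono (Function.update c i d) i
    rw [Function.update_idem] at h1
    have h2 : Function.update c i 2 = c := by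
      rw [← h, Function.update_eq_self]
    rwa [h2] at h1

/-- The families of elements of the components of a lattice. -/
def V (N : Lat E) : Submodule k ((ι → Fin 3) → E.H) where
  carrier := {f | ∀ c, f c ∈ N.N c}
  add_mem' := fun hf hg c => (N.N c).add_mem (hf c) (hg c)
  zero_mem' := fun c => (N.N c).zero_mem
  smul_mem' := fun r _ hf c => (N.N c).smul_mem r (hf c)

theorem mem_V {N : Lat E} {f : (ι → Fin 3) → E.H} : f ∈ N.V ↔ ∀ c, f c ∈ N.N c := Iff.rfl

/-- The action of a matrix of functions in the factor `i`: `x a b` maps the component `b` to the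
component `a`. -/
noncomputable def slotE (E : LSys D ι) (i : ι) :
    Matrix (Fin 3) (Fin 3) D.L →ₗ[k] ((ι → Fin 3) → E.H) →ₗ[k] ((ι → Fin 3) → E.H) :=
  LinearMap.mk₂ k (fun x f c => ∑ d, E.act i (x (c i) d) (f (Function.update c i d)))
    (fun x x' f => by
      funext c
      simp only [Matrix.add_apply, map_add, LinearMap.add_apply, Finset.sum_add_distrib,
        Pi.add_apply])
    (fun r x f => by
      funext c
      simp only [Matrix.smul_apply, map_smul, LinearMap.smul_apply, Finset.smul_sum,
        Pi.smul_apply])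
    (fun x f f' => by
      funext c
      simp only [map_add, Finset.sum_add_distrib, Pi.add_apply])
    (fun r x f => by
      funext c
      simp only [map_smul, Finset.smul_sum, Pi.smul_apply])

theorem slotE_apply (E : LSys D ι) (i : ι) (x : Matrix (Fin 3) (Fin 3) D.L)
    (f : (ι → Fin 3) → E.H) (c : ι → Fin 3) :
    slotE E i x f c = ∑ d, E.act i (x (c i) d) (f (Function.update c i d)) := rfl

theorem slotE_one (E : LSys D ι) (i : ι) (f : (ι → Fin 3) → E.H) : slotE E i 1 f = f := by
  funext c
  rw [slotE_apply, Finset.sum_eq_single (c i)]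
  · rw [Matrix.one_apply_eq, E.act_one, Function.update_eq_self]
  · intro d _ hd
    rw [Matrix.one_apply_ne hd.symm, map_zero]
    rfl
  · intro h
    exact absurd (Finset.mem_univ _) h

theorem slotE_mul (E : LSys D ι) (i : ι) (x y : Matrix (Fin 3) (Fin 3) D.L)
    (f : (ι → Fin 3) → E.H) : slotE E i (x * y) f = slotE E i x (slotE E i y f) := by
  funext c
  rw [slotE_apply, slotE_apply]
  simp only [slotE_apply, Matrix.mul_apply, map_sum, Function.update_self, Function.update_idem,
    LinearMap.sum_apply, ← E.act_mul]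
  rw [Finset.sum_comm]

theorem slotE_comm (E : LSys D ι) {i j : ι} (h : i ≠ j) (x y : Matrix (Fin 3) (Fin 3) D.L)
    (f : (ι → Fin 3) → E.H) :
    slotE E i x (slotE E j y f) = slotE E j y (slotE E i x f) := by
  funext c
  rw [slotE_apply, slotE_apply]
  simp only [slotE_apply, map_sum]
  rw [Finset.sum_comm]
  refine Finset.sum_congr rfl fun d _ => Finset.sum_congr rfl fun e _ => ?_
  rw [Function.update_of_ne h.symm, Function.update_of_ne h, E.act_act i j,
    Function.update_comm h]

theorem slotE_mem (N : Lat E) (i : ι) (x : Matrix (Fin 3) (Fin 3) D.L)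
    (hx : ∀ a b, x a b ∈ BB D a ∧ (¬ Le3 b a → x a b = 0)) {f : (ι → Fin 3) → E.H}
    (hf : f ∈ N.V) : slotE E i x f ∈ N.V := by
  intro c
  rw [slotE_apply]
  refine Submodule.sum_mem _ fun d _ => ?_
  by_cases h : Le3 d (c i)
  · exact N.smul c i _ (hx (c i) d).1 _ (N.N_update_le c i h (hf _))
  · rw [(hx (c i) d).2 h, map_zero]
    exact Submodule.zero_mem _

/-- The left action of `Gam D` in the factor `i`. -/
noncomputable def slotL (N : Lat E) (i : ι) : Gam D →ₗ[k] N.V →ₗ[k] N.V :=
  LinearMap.mk₂ k (fun x f => ⟨slotE E i x.1 f.1, N.slotE_mem i x.1 x.2 f.2⟩)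
    (fun x x' f => Subtype.ext (by simp)) (fun r x f => Subtype.ext (by simp))
    (fun x f f' => Subtype.ext (by simp)) (fun r x f => Subtype.ext (by simp))

/-- The right action of `Gam' D` in the factor `i`. -/
noncomputable def slotR (N : Lat E) (i : ι) : Gam' D →ₗ[k] N.V →ₗ[k] N.V :=
  LinearMap.mk₂ k (fun x f => ⟨slotE E i x.1.transpose f.1,
      N.slotE_mem i _ (fun a b => x.2 b a) f.2⟩)
    (fun x x' f => Subtype.ext (by simp [Matrix.transpose_add]))
    (fun r x f => Subtype.ext (by simp [Matrix.transpose_smul]))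
    (fun x f f' => Subtype.ext (by simp)) (fun r x f => Subtype.ext (by simp))

theorem slotL_coe (N : Lat E) (i : ι) (x : Gam D) (f : N.V) :
    ((N.slotL i x f : N.V) : (ι → Fin 3) → E.H) = slotE E i x.1 f.1 := rfl

theorem slotR_coe (N : Lat E) (i : ι) (x : Gam' D) (f : N.V) :
    ((N.slotR i x f : N.V) : (ι → Fin 3) → E.H) = slotE E i x.1.transpose f.1 := rfl

/-- The bimodule given by the left actions in the factors `lam` and the right actions in the
factors `rho`. -/
noncomputable def acts (N : Lat E) {p q : ℕ} (lam : Fin p → ι) (rho : Fin q → ι)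
    (hl : Function.Injective lam) (hr : Function.Injective rho) (hd : ∀ i j, lam i ≠ rho j) :
    Acts k (Gam D) (Gam' D) p q where
  V := N.V
  l := fun i => N.slotL (lam i)
  r := fun i => N.slotR (rho i)
  l_one := fun i f => Subtype.ext (slotE_one E (lam i) f.1)
  r_one := fun i f => Subtype.ext (by
    rw [slotR_coe]
    change slotE E (rho i) (1 : Matrix (Fin 3) (Fin 3) D.L).transpose f.1 = f.1
    rw [Matrix.transpose_one, slotE_one])
  l_mul := fun i a b f => Subtype.ext (slotE_mul E (lam i) a.1 b.1 f.1)
  r_mul := fun i a b f => Subtype.ext (by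
    rw [slotR_coe, slotR_coe, slotR_coe]
    change slotE E (rho i) (a.1 * b.1).transpose f.1 = _
    rw [Matrix.transpose_mul, slotE_mul])
  l_l := fun i j h a b f => Subtype.ext (slotE_comm E (hl.ne h) a.1 b.1 f.1)
  r_r := fun i j h a b f => Subtype.ext (slotE_comm E (hr.ne h) _ _ f.1)
  l_r := fun i j a b f => Subtype.ext (slotE_comm E (hd i j) a.1 _ f.1)

end Lat

/-- The bimodule of a lattice with `p` factors on the left and `q` factors on the right. -/
noncomputable def Lat.bb {p q : ℕ} {E : LSys D (Fin p ⊕ Fin q)} (N : Lat E) :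
    Acts k (Gam D) (Gam' D) p q :=
  N.acts Sum.inl Sum.inr Sum.inl_injective Sum.inr_injective (fun _ _ => Sum.inl_ne_inr)

end Pool.Agent.MP_6e5bed_ag_KC
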