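import Pool.Agent.Lib.MP_6e5bed_ag_KC.LComm
import Pool.Agent.Lib.MP_6e5bed_ag_KC.Defs

set_option autoImplicit false
set_option linter.unusedSectionVars false

/-!
# Project KC: the additive function on modules of a function of lattices
-/

noncomputable section

namespace Pool.Agent.MP_6e5bed_ag_KC

open RatFunc
open Pool.Agent.MP_6e5bed_ag_NC
open scoped TensorProduct

universe u v

variable {k : Type u} [Field k] {D : FExt k} {ι : Type} [DecidableEq ι] [Fintype ι]
  {P : Ideal (A1 D)} {hP : (⟨(tt D)⁻¹, tt_inv_mem_BB1 D⟩ : A1 D) ∈ P}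
  {W : Type v} [AddCommGroup W] (Φ : LatFun D ι P hP W)
  {K : Type u} [CommRing K] [Algebra k K] (z : ι → D.L →ₐ[k] K)
  (R : Type u) [CommRing R] [Algebra k R] [Algebra R K] [IsScalarTower k R K]

/-- The generators `1 ⊗ s` of `K ⊗ Q`. -/
def tgen (K : Type u) [CommRing K] {R : Type u} [CommRing R] [Algebra R K] {Q : Type u}
    [AddCommGroup Q] [Module R Q] (S : Finset Q) : Finset (K ⊗[R] Q) := by
  classical
  exact S.image fun s => (1 : K) ⊗ₜ[R] s

/-- The value of the lattice generated by `S` in `K ⊗ Q`. -/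
def LatFun.vS {Q : Type u} [AddCommGroup Q] [Module R Q] (S : Finset Q) : W :=
  Φ.val (spanL z (K ⊗[R] Q) (tgen K S))

/-- Elements of `R` are in `sat (RRm z c)`: the functions of `R` have bounded poles at `x₀`. -/
def RSat (P : Ideal (A1 D)) (z : ι → D.L →ₐ[k] K) (R : Type u) [CommRing R] [Algebra R K] : Prop :=
  ∀ (r : R) (c : ι → Fin 3), algebraMap R K r ∈ sat P z c (RRm z c)

namespace LChi

/-- The image of a lattice of finite type under an equivariant map is of finite type. -/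
theorem fg_map {ι : Type} [DecidableEq ι] {E E' : LSys D ι} (N : Lat E) (N' : Lat E')
    (hN : N.FG) (f : E.H →ₗ[k] E'.H) (hf : ∀ i a m, f (E.act i a m) = E'.act i a (f m))
    (h : ∀ c, N'.N c = (N.N c).map f) : N'.FG := by
  classical
  intro c
  obtain ⟨S, hS, hS'⟩ := hN c
  have key : ∀ φ ∈ E.RR c, ∃ φ' ∈ E'.RR c, ∀ m, f (φ m) = φ' (f m) := by
    let T : Subalgebra k (Module.End k E.H) :=
      { carrier := {φ | ∃ φ' ∈ E'.RR c, ∀ m, f (φ m) = φ' (f m)}
        mul_mem' := by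
          rintro φ ψ ⟨φ', hφ', h1⟩ ⟨ψ', hψ', h2⟩
          exact ⟨φ' * ψ', (E'.RR c).mul_mem hφ' hψ', fun m => by
            change f (φ (ψ m)) = φ' (ψ' (f m))
            rw [h1, h2]⟩
        add_mem' := by
          rintro φ ψ ⟨φ', hφ', h1⟩ ⟨ψ', hψ', h2⟩
          exact ⟨φ' + ψ', (E'.RR c).add_mem hφ' hψ', fun m => by
            change f (φ m + ψ m) = φ' (f m) + ψ' (f m)
            rw [map_add, h1, h2]⟩
        algebraMap_mem' := fun r => ⟨algebraMap k _ r, (E'.RR c).algebraMap_mem r, fun m => by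
          rw [Module.algebraMap_end_apply, Module.algebraMap_end_apply, map_smul]⟩ }
    have hT : E.RR c ≤ T := iSup_le fun i => by
      rintro _ ⟨b, hb, rfl⟩
      exact ⟨E'.act i b, (le_iSup (fun i => (BB D (c i)).map (E'.act i)) i) ⟨b, hb, rfl⟩,
        fun m => hf i b m⟩
    exact fun φ hφ => hT hφ
  refine ⟨S.image f, ?_, ?_⟩
  · intro s hs
    obtain ⟨m, hm, rfl⟩ := Finset.mem_image.1 hs
    rw [h c]
    exact ⟨m, hS m hm, rfl⟩
  · intro m' hm'
    rw [h c] at hm'
    obtain ⟨m, hm, rfl⟩ := hm'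
    refine Submodule.span_induction (p := fun m _ =>
      f m ∈ Submodule.span (E'.RR c) ((S.image f : Finset E'.H) : Set E'.H)) ?_ ?_ ?_ ?_
      (hS' m hm)
    · intro x hx
      exact Submodule.subset_span (Finset.mem_coe.2 (Finset.mem_image_of_mem f hx))
    · rw [map_zero]
      exact Submodule.zero_mem _
    · intro x y _ _ hx hy
      rw [map_add]
      exact Submodule.add_mem _ hx hy
    · rintro ⟨φ, hφ⟩ x _ hx
      obtain ⟨φ', hφ', h'⟩ := key φ hφ
      have e : f ((⟨φ, hφ⟩ : E.RR c) • x) = (⟨φ', hφ'⟩ : E'.RR c) • f x := h' x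
      rw [e]
      exact Submodule.smul_mem _ _ hx

section mods

variable {H H' : Type u} [AddCommGroup H] [Module k H] [Module K H] [IsScalarTower k K H]
  [AddCommGroup H'] [Module k H'] [Module K H'] [IsScalarTower k K H']

/-- A `K`-linear map, as a linear map. -/
def rs (F : H →ₗ[K] H') : H →ₗ[k] H' := F.restrictScalars k

theorem rs_apply (F : H →ₗ[K] H') (x : H) : rs (k := k) F x = F x := rfl

theorem map_smul (F : H →ₗ[K] H') (A : Submodule k K) (M : Submodule k H) :
    (A • M).map (rs F) = A • M.map (rs F) := by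
  refine le_antisymm (Submodule.map_le_iff_le_comap.2 (Submodule.smul_le.2 fun r hr m hm => ?_))
    (Submodule.smul_le.2 fun r hr m hm => ?_)
  · rw [Submodule.mem_comap, rs_apply, F.map_smul]
    exact Submodule.smul_mem_smul hr ⟨m, hm, rfl⟩
  · obtain ⟨x, hx, rfl⟩ := hm
    refine ⟨r • x, Submodule.smul_mem_smul hr hx, ?_⟩
    rw [rs_apply, rs_apply, F.map_smul]

/-- Injective maps preserve the values. -/
theorem val_map (F : H →ₗ[K] H') (hF : Function.Injective F) (S : Finset H) (S' : Finset H')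
    (h : (S' : Set H') = F '' (S : Set H)) :
    Φ.val (spanL z H S) = Φ.val (spanL z H' S') := by
  let f : H →ₗ[k] H' := rs F
  refine Φ.iso (spanL z H S) (spanL z H' S') (spanL_fg z H S) (spanL_fg z H' S') f hF
    (fun i a (m : H) => F.map_smul (z i a) m) fun c => ?_
  change RRm z c • Submodule.span k (S' : Set H') =
    (RRm z c • Submodule.span k (S : Set H)).map (rs F)
  rw [map_smul, Submodule.map_span, h]
  rfl

end mods

theorem mem_tgen (K : Type u) [CommRing K] {R : Type u} [CommRing R] [Algebra R K] {Q : Type u}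
    [AddCommGroup Q] [Module R Q] (S : Finset Q) (x : K ⊗[R] Q) :
    x ∈ tgen K S ↔ ∃ s ∈ S, (1 : K) ⊗ₜ[R] s = x := by
  classical
  unfold tgen
  exact Finset.mem_image

theorem coe_tgen (K : Type u) [CommRing K] {R : Type u} [CommRing R] [Algebra R K] {Q : Type u}
    [AddCommGroup Q] [Module R Q] (S : Finset Q) :
    ((tgen K S : Finset (K ⊗[R] Q)) : Set (K ⊗[R] Q)) =
      (fun s : Q => (1 : K) ⊗ₜ[R] s) '' (S : Set Q) := by
  ext x
  rw [Finset.mem_coe, mem_tgen]
  rfl

theorem tgen_le (hR : RSat P z R) {Q : Type u} [AddCommGroup Q] [Module R Q]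
    (S S' : Finset Q) (hS' : Submodule.span R (S' : Set Q) = ⊤) (c : ι → Fin 3) :
    (spanL z (K ⊗[R] Q) (tgen K S)).NK c ≤
      sat P z c ((spanL z (K ⊗[R] Q) (tgen K S')).NK c) := by
  have hA : ∀ r ∈ RRm z c, ∀ m ∈ (spanL z (K ⊗[R] Q) (tgen K S')).NK c,
      r • m ∈ (spanL z (K ⊗[R] Q) (tgen K S')).NK c := fun r hr m hm =>
    Lat.RRm_smul z (K ⊗[R] Q) _ c hr hm
  have h1 : ∀ q : Q, (1 : K) ⊗ₜ[R] q ∈ sat P z c ((spanL z (K ⊗[R] Q) (tgen K S')).NK c) := by
    intro q
    have hq : q ∈ Submodule.span R (S' : Set Q) := by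
      rw [hS']
      exact Submodule.mem_top
    refine Submodule.span_induction (p := fun q _ => (1 : K) ⊗ₜ[R] q ∈
      sat P z c ((spanL z (K ⊗[R] Q) (tgen K S')).NK c)) ?_ ?_ ?_ ?_ hq
    · intro s hs
      refine le_sat hA ?_
      have h2 := Submodule.smul_mem_smul (RRm_one z c) (Submodule.subset_span (R := k)
        (Finset.mem_coe.2 ((mem_tgen K S' ((1 : K) ⊗ₜ[R] s)).2 ⟨s, hs, rfl⟩)))
      rwa [one_smul] at h2
    · rw [TensorProduct.tmul_zero]
      exact Submodule.zero_mem _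
    · intro x y _ _ hx hy
      rw [TensorProduct.tmul_add]
      exact Submodule.add_mem _ hx hy
    · intro r x _ hx
      rw [TensorProduct.tmul_smul, ← algebraMap_smul K r]
      exact sat_stable hA (hR r c) hx
  rw [spanL_NK]
  refine Submodule.smul_le.2 fun r hr m hm => ?_
  refine sat_stable hA (le_sat (fun a ha b hb => RRm_mul z ha hb) hr) ?_
  refine (Submodule.span_le.2 ?_ : Submodule.span k ((tgen K S : Finset (K ⊗[R] Q)) :
    Set (K ⊗[R] Q)) ≤ _) hm
  intro x hx
  obtain ⟨s, _, rfl⟩ := (mem_tgen K S x).1 hx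
  exact h1 s

section maps

variable (K) in
/-- `K ⊗ e` -/
def cg {R : Type u} [CommRing R] [Algebra R K] {Q Q' : Type u} [AddCommGroup Q] [Module R Q]
    [AddCommGroup Q'] [Module R Q'] (e : Q ≃ₗ[R] Q') : K ⊗[R] Q →ₗ[K] K ⊗[R] Q' :=
  (TensorProduct.AlgebraTensorModule.congr (LinearEquiv.refl K K) e).toLinearMap

variable (K) in
theorem cg_inj {R : Type u} [CommRing R] [Algebra R K] {Q Q' : Type u} [AddCommGroup Q]
    [Module R Q] [AddCommGroup Q'] [Module R Q'] (e : Q ≃ₗ[R] Q') :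
    Function.Injective (cg K e) :=
  (TensorProduct.AlgebraTensorModule.congr (LinearEquiv.refl K K) e).injective

variable (Q Q' : Type u) [AddCommGroup Q] [Module R Q] [AddCommGroup Q'] [Module R Q']

variable (K) in
/-- `K ⊗ (Q × Q') = (K ⊗ Q) × (K ⊗ Q')` -/
def pr (R : Type u) [CommRing R] [Algebra R K] (Q Q' : Type u) [AddCommGroup Q] [Module R Q]
    [AddCommGroup Q'] [Module R Q'] :
    K ⊗[R] (Q × Q') →ₗ[K] (K ⊗[R] Q) × (K ⊗[R] Q') :=
  (TensorProduct.prodRight R K K Q Q').toLinearMap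

variable (K) in
theorem pr_inj (R : Type u) [CommRing R] [Algebra R K] (Q Q' : Type u) [AddCommGroup Q]
    [Module R Q] [AddCommGroup Q'] [Module R Q'] : Function.Injective (pr K R Q Q') :=
  (TensorProduct.prodRight R K K Q Q').injective

variable {R Q Q'}

theorem pr_act (i : ι) (a : D.L) (m : (LSys.ofAlg z (K ⊗[R] (Q × Q'))).H) :
    rs (k := k) (pr K R Q Q') ((LSys.ofAlg z (K ⊗[R] (Q × Q'))).act i a m) =
      ((LSys.ofAlg z (K ⊗[R] Q)).prod (LSys.ofAlg z (K ⊗[R] Q'))).act i a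
        (rs (k := k) (pr K R Q Q') m) :=
  (pr K R Q Q').map_smul (z i a) (m : K ⊗[R] (Q × Q'))

open Classical in
theorem pr_image (S : Finset Q) (S' : Finset Q') :
    (pr K R Q Q') '' ((tgen K (S.image (LinearMap.inl R Q Q') ∪
      S'.image (LinearMap.inr R Q Q')) : Finset (K ⊗[R] (Q × Q'))) : Set (K ⊗[R] (Q × Q'))) =
        (LinearMap.inl k (K ⊗[R] Q) (K ⊗[R] Q')) ''
          ((tgen K S : Finset (K ⊗[R] Q)) : Set (K ⊗[R] Q)) ∪
        (LinearMap.inr k (K ⊗[R] Q) (K ⊗[R] Q')) ''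
          ((tgen K S' : Finset (K ⊗[R] Q')) : Set (K ⊗[R] Q')) := by
  rw [coe_tgen, coe_tgen, coe_tgen, Finset.coe_union, Finset.coe_image,
    Finset.coe_image, Set.image_union, Set.image_union]
  simp only [Set.image_image]
  congr 1
  · refine Set.image_congr fun q _ => ?_
    change ((1 : K) ⊗ₜ[R] q, (1 : K) ⊗ₜ[R] (0 : Q')) = ((1 : K) ⊗ₜ[R] q, 0)
    rw [TensorProduct.tmul_zero]
  · refine Set.image_congr fun q _ => ?_
    change ((1 : K) ⊗ₜ[R] (0 : Q), (1 : K) ⊗ₜ[R] q) = (0, (1 : K) ⊗ₜ[R] q)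
    rw [TensorProduct.tmul_zero]

open Classical in
theorem prod_eq (S : Finset Q) (S' : Finset Q') (c : ι → Fin 3) :
    ((spanL z (K ⊗[R] Q) (tgen K S)).prod (spanL z (K ⊗[R] Q') (tgen K S'))).N c =
      ((spanL z (K ⊗[R] (Q × Q')) (tgen K (S.image (LinearMap.inl R Q Q') ∪
        S'.image (LinearMap.inr R Q Q')))).N c).map (rs (k := k) (pr K R Q Q')) := by
  change (RRm z c • Submodule.span k ((tgen K S : Finset (K ⊗[R] Q)) : Set (K ⊗[R] Q))).prod
    (RRm z c • Submodule.span k ((tgen K S' : Finset (K ⊗[R] Q')) : Set (K ⊗[R] Q'))) =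
    (RRm z c • Submodule.span k ((tgen K (S.image (LinearMap.inl R Q Q') ∪
      S'.image (LinearMap.inr R Q Q')) : Finset (K ⊗[R] (Q × Q'))) :
        Set (K ⊗[R] (Q × Q')))).map (rs (k := k) (pr K R Q Q'))
  have h4 : (Submodule.span k ((tgen K (S.image (LinearMap.inl R Q Q') ∪
      S'.image (LinearMap.inr R Q Q')) : Finset (K ⊗[R] (Q × Q'))) :
        Set (K ⊗[R] (Q × Q')))).map (rs (k := k) (pr K R Q Q')) =
      (Submodule.span k ((tgen K S : Finset (K ⊗[R] Q)) : Set (K ⊗[R] Q))).map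
        (LinearMap.inl k _ _) ⊔
      (Submodule.span k ((tgen K S' : Finset (K ⊗[R] Q')) : Set (K ⊗[R] Q'))).map
        (LinearMap.inr k _ _) := by
    rw [Submodule.map_span, ← LinearMap.prod_eq_sup_map, ← LinearMap.span_inl_union_inr,
      ← pr_image]
    rfl
  rw [LChi.map_smul, h4, Submodule.smul_sup, LinearMap.prod_eq_sup_map]
  congr 1
  · exact LChi.map_smul (LinearMap.inl K (K ⊗[R] Q) (K ⊗[R] Q')) _ _
  · exact LChi.map_smul (LinearMap.inr K (K ⊗[R] Q) (K ⊗[R] Q')) _ _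

end maps

end LChi

/-- The value does not depend on the generators (`LatFun.comm`, `sat_stable`). -/
theorem LatFun.vS_eq (hR : RSat P z R) {Q : Type u} [AddCommGroup Q] [Module R Q]
    (S S' : Finset Q) (hS : Submodule.span R (S : Set Q) = ⊤)
    (hS' : Submodule.span R (S' : Set Q) = ⊤) : Φ.vS z R S = Φ.vS z R S' :=
  Φ.comm z (K ⊗[R] Q) _ _ (spanL_fg z _ _) (spanL_fg z _ _) (LChi.tgen_le z R hR S S' hS')
    (LChi.tgen_le z R hR S' S hS)

/-- Isomorphic modules: `LatFun.iso` for `K ⊗ e`. -/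
theorem LatFun.vS_iso (hR : RSat P z R) {Q Q' : Type u} [AddCommGroup Q] [Module R Q]
    [AddCommGroup Q'] [Module R Q'] (e : Q ≃ₗ[R] Q') (S : Finset Q) (S' : Finset Q')
    (hS : Submodule.span R (S : Set Q) = ⊤)
    (hS' : Submodule.span R (S' : Set Q') = ⊤) : Φ.vS z R S = Φ.vS z R S' := by
  classical
  have h1 : Submodule.span R ((S.image e : Finset Q') : Set Q') = ⊤ := by
    rw [Finset.coe_image]
    have h2 := Submodule.map_span e.toLinearMap (S : Set Q)
    rw [hS, Submodule.map_top, LinearEquiv.range] at h2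
    exact h2.symm
  rw [← Φ.vS_eq z R hR (S.image e) S' h1 hS']
  refine LChi.val_map Φ z (LChi.cg K e) (LChi.cg_inj K e) _ _ ?_
  rw [LChi.coe_tgen, LChi.coe_tgen, Finset.coe_image, Set.image_image, Set.image_image]
  exact Set.image_congr fun q _ => rfl

/-- Products: `LatFun.iso` for `K ⊗ (Q × Q') = (K ⊗ Q) × (K ⊗ Q')`, `LatFun.add`, and the
generators `(s, 0)`, `(0, s')`. -/
theorem LatFun.vS_prod (hR : RSat P z R) {Q Q' : Type u} [AddCommGroup Q] [Module R Q]
    [AddCommGroup Q'] [Module R Q'] (S : Finset Q) (S' : Finset Q') (T : Finset (Q × Q'))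
    (hS : Submodule.span R (S : Set Q) = ⊤) (hS' : Submodule.span R (S' : Set Q') = ⊤)
    (hT : Submodule.span R (T : Set (Q × Q')) = ⊤) :
    Φ.vS z R T = Φ.vS z R S + Φ.vS z R S' := by
  classical
  set T' : Finset (Q × Q') := S.image (LinearMap.inl R Q Q') ∪ S'.image (LinearMap.inr R Q Q')
    with hT'
  have h1 : Submodule.span R (T' : Set (Q × Q')) = ⊤ := by
    rw [hT', Finset.coe_union, Finset.coe_image, Finset.coe_image,
      LinearMap.span_inl_union_inr, hS, hS', Submodule.prod_top]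
  rw [Φ.vS_eq z R hR T T' hT h1, LatFun.vS, LatFun.vS, LatFun.vS,
    ← Φ.add _ _ (spanL_fg z _ _) (spanL_fg z _ _)]
  have h2 := LChi.prod_eq z (K := K) (R := R) S S'
  rw [← hT'] at h2
  exact Φ.iso (spanL z (K ⊗[R] (Q × Q')) (tgen K T'))
    ((spanL z (K ⊗[R] Q) (tgen K S)).prod (spanL z (K ⊗[R] Q') (tgen K S')))
    (spanL_fg z _ _) (LChi.fg_map _ _ (spanL_fg z _ (tgen K T')) _ (LChi.pr_act z) h2) _
    (LChi.pr_inj K R Q Q') (LChi.pr_act z) h2

/-- The additive function on the finitely generated projective `R`-modules. -/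
def LatFun.chi (hR : RSat P z R) : AddFun R W where
  f := fun N _ _ _ _ => Φ.vS z R (Module.Finite.fg_top (R := R) (M := N)).choose
  iso := fun {N N'} _ _ _ _ _ _ _ _ e => Φ.vS_iso z R hR e _ _
    (Module.Finite.fg_top (R := R) (M := N)).choose_spec
    (Module.Finite.fg_top (R := R) (M := N')).choose_spec
  prod := fun N N' _ _ _ _ _ _ _ _ => Φ.vS_prod z R hR _ _ _
    (Module.Finite.fg_top (R := R) (M := N)).choose_spec
    (Module.Finite.fg_top (R := R) (M := N')).choose_spec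
    (Module.Finite.fg_top (R := R) (M := N × N')).choose_spec

theorem LatFun.chi_eq (hR : RSat P z R) (N : Type u) [AddCommGroup N] [Module R N]
    [Module.Finite R N] [Module.Projective R N] (S : Finset N)
    (hS : Submodule.span R (S : Set N) = ⊤) : (Φ.chi z R hR).f N = Φ.vS z R S :=
  Φ.vS_eq z R hR _ _ (Module.Finite.fg_top (R := R) (M := N)).choose_spec hS

end Pool.Agent.MP_6e5bed_ag_KC
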