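import Pool.Agent.Lib.MP_6e5bed_ag_KC.LPpw

set_option autoImplicit false
set_option linter.unusedSectionVars false

/-!
# Project KC: commensurable lattices
-/

noncomputable section

namespace Pool.Agent.MP_6e5bed_ag_KC

open RatFunc
open Pool.Agent.MP_6e5bed_ag_NC
open scoped TensorProduct

universe u v

variable {k : Type u} [Field k] {D : FExt k} {ι : Type} [DecidableEq ι]

variable [Fintype ι] {P : Ideal (A1 D)} {hP : (⟨(tt D)⁻¹, tt_inv_mem_BB1 D⟩ : A1 D) ∈ P}
  {W : Type v} [AddCommGroup W] (Φ : LatFun D ι P hP W)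

/-- Induction on `w`: `M₁ = N.sup (M.pp i)` for `w = i :: w'`; `Φ.kill M M₁`, and
`ppW M₁ w' ≤ N`. -/
theorem LatFun.val_ppW {E : LSys D ι} (N M : Lat E) (hN : N.FG) (hM : M.FG) (h : N ≤ M)
    (w : List ι) (hw : M.ppW P hP w ≤ N) : Φ.val M = Φ.val N := by
  induction w generalizing M with
  | nil =>
    have e : M = N := Lat.ext fun c => le_antisymm (hw c) (h c)
    rw [e]
  | cons i w ih =>
    have hM1 : (N.sup (M.pp P hP i)).FG := hN.sup (hM.pp i)
    have hle : N.sup (M.pp P hP i) ≤ M := fun c => sup_le (h c) (M.pp_le P hP i c)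
    rw [Φ.kill M (N.sup (M.pp P hP i)) hM hM1 hle i (Lat.le_sup_right' _ _)]
    refine ih _ hM1 (Lat.le_sup_left' _ _) ?_
    refine Lat.le_trans' (Lat.ppW_sup P hP N (M.pp P hP i) w) fun c => ?_
    exact sup_le (Lat.ppW_le P hP N w c) (hw c)

/-- A power of the ideals of `x₀` works for all the charts and all the elements (`FG_iff`,
`sat_sat`). -/
theorem exists_PPm {K : Type u} [CommRing K] [Algebra k K]
    (z : ι → D.L →ₐ[k] K) (H : Type u) [AddCommGroup H] [Module k H] [Module K H]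
    [IsScalarTower k K H] (N N' : Lat (LSys.ofAlg z H)) (hN : N.FG)
    (h : ∀ c, N.NK c ≤ sat P z c (N'.NK c)) :
    ∃ l : ℕ, ∀ c, ∀ p ∈ PPm P z l c, ∀ m ∈ N.NK c, p • m ∈ N'.NK c := by
  classical
  rw [FG_iff] at hN
  choose S hS using hN
  have h1 : ∀ c, ∃ l : ℕ, ∀ g ∈ S c, ∀ p ∈ PPm P z l c, p • g ∈ N'.NK c := by
    intro c
    refine sat_sat fun g hg => h c ?_
    rw [hS c]
    have h2 := Submodule.smul_mem_smul (RRm_one z c) (Submodule.subset_span (R := k)
      (Finset.mem_coe.2 hg))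
    rwa [one_smul] at h2
  choose l hl using h1
  refine ⟨Finset.univ.sup l, fun c p hp m hm => ?_⟩
  have hp' : p ∈ PPm P z (l c) c := PPm_anti P z (Finset.le_sup (Finset.mem_univ c)) c hp
  rw [hS c] at hm
  refine Submodule.smul_induction_on (p := fun m => p • m ∈ N'.NK c) hm
    (fun r hr s hs => ?_) (fun x y hx hy => ?_)
  · rw [smul_comm]
    refine N'.RRm_smul z H c hr ?_
    refine Submodule.span_induction (p := fun s _ => p • s ∈ N'.NK c) ?_ ?_ ?_ ?_ hs
    · exact fun g hg => hl c g (Finset.mem_coe.1 hg) p hp'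
    · rw [smul_zero]
      exact Submodule.zero_mem _
    · intro x y _ _ hx hy
      rw [smul_add]
      exact Submodule.add_mem _ hx hy
    · intro a x _ hx
      rw [smul_comm]
      exact Submodule.smul_mem _ a hx
  · rw [smul_add]
    exact Submodule.add_mem _ hx hy

/-- Commensurable lattices have the same value (`M = N.sup N'`, `val_ppW` for `N ≤ M` and for
`N' ≤ M`). -/
theorem LatFun.comm {K : Type u} [CommRing K] [Algebra k K]
    (z : ι → D.L →ₐ[k] K) (H : Type u) [AddCommGroup H] [Module k H] [Module K H]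
    [IsScalarTower k K H] (N N' : Lat (LSys.ofAlg z H)) (hN : N.FG) (hN' : N'.FG)
    (h : ∀ c, N.NK c ≤ sat P z c (N'.NK c)) (h' : ∀ c, N'.NK c ≤ sat P z c (N.NK c)) :
    Φ.val N = Φ.val N' := by
  have hM : (N.sup N').FG := hN.sup hN'
  obtain ⟨l, hl⟩ := exists_PPm (P := P) z H (N.sup N') N hM (fun c => by
    have e : (N.sup N').NK c = N.NK c ⊔ N'.NK c := rfl
    rw [e]
    exact sup_le (le_sat fun r hr m hm => N.RRm_smul z H c hr hm) (h' c))
  obtain ⟨l', hl'⟩ := exists_PPm (P := P) z H (N.sup N') N' hM (fun c => by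
    have e : (N.sup N').NK c = N.NK c ⊔ N'.NK c := rfl
    rw [e]
    exact sup_le (h c) (le_sat fun r hr m hm => N'.RRm_smul z H c hr hm))
  obtain ⟨w, hw⟩ := Lat.ppW_le_of P hP z H _ _ l hl
  obtain ⟨w', hw'⟩ := Lat.ppW_le_of P hP z H _ _ l' hl'
  rw [← Φ.val_ppW N (N.sup N') hN hM (Lat.le_sup_left' _ _) w hw,
    ← Φ.val_ppW N' (N.sup N') hN' hM (Lat.le_sup_right' _ _) w' hw']

end Pool.Agent.MP_6e5bed_ag_KC
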