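import Pool.Agent.Lib.MP_6e5bed_ag_KC.LNoe

set_option autoImplicit false
set_option linter.unusedSectionVars false

/-!
# Project KC: lattices of finite type
-/

noncomputable section

namespace Pool.Agent.MP_6e5bed_ag_KC

open RatFunc
open Pool.Agent.MP_6e5bed_ag_NC

universe u

variable {k : Type u} [Field k] {D : FExt k} {ι : Type} [DecidableEq ι]

variable {E : LSys D ι}

/-- A lattice is stable under `RR`. -/
theorem Lat.RR_smul (N : Lat E) (c : ι → Fin 3) {r : Module.End k E.H} (hr : r ∈ E.RR c)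
    {m : E.H} (hm : m ∈ N.N c) : r m ∈ N.N c := by
  let T : Subalgebra k (Module.End k E.H) :=
    { carrier := {r | ∀ m ∈ N.N c, r m ∈ N.N c}
      mul_mem' := fun {r s} hr hs m hm => hr _ (hs m hm)
      add_mem' := fun {r s} hr hs m hm => (N.N c).add_mem (hr m hm) (hs m hm)
      algebraMap_mem' := fun a m hm => by
        rw [Module.algebraMap_end_apply]
        exact (N.N c).smul_mem a hm }
  have h1 : E.RR c ≤ T := by
    refine iSup_le fun i => ?_
    rintro _ ⟨b, hb, rfl⟩ m hm
    exact N.smul c i b hb m hm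
  exact h1 hr m hm

/-- The components of a lattice as modules over the rings `RR c`. -/
def Lat.NR (N : Lat E) (c : ι → Fin 3) : Submodule (E.RR c) E.H where
  carrier := N.N c
  add_mem' := (N.N c).add_mem
  zero_mem' := (N.N c).zero_mem
  smul_mem' := fun r _ hm => N.RR_smul c r.2 hm

theorem Lat.fg_iff (N : Lat E) : N.FG ↔ ∀ c, (N.NR c).FG := by
  refine forall_congr' fun c => exists_congr fun S => ?_
  constructor
  · rintro ⟨h1, h2⟩
    exact le_antisymm (Submodule.span_le.2 fun s hs => h1 s hs) fun m hm => h2 m hm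
  · intro h
    refine ⟨fun s hs => ?_, fun m hm => ?_⟩
    · have h1 : s ∈ N.NR c := by
        rw [← h]
        exact Submodule.subset_span hs
      exact h1
    · have h1 : m ∈ N.NR c := hm
      rwa [← h] at h1

/-- A lattice which is contained in one of finite type is of finite type. -/
theorem Lat.FG.of_le [Fintype ι] {N N' : Lat E} (hN : N.FG) (h : N' ≤ N) : N'.FG := by
  rw [Lat.fg_iff] at hN ⊢
  intro c
  have := RR_noeth E c
  exact (hN c).of_le fun m hm => h c hm

theorem Lat.FG.sup {N N' : Lat E} (hN : N.FG) (hN' : N'.FG) : (N.sup N').FG := by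
  classical
  intro c
  obtain ⟨S, h1, h2⟩ := hN c
  obtain ⟨S', h1', h2'⟩ := hN' c
  refine ⟨S ∪ S', fun s hs => ?_, fun m hm => ?_⟩
  · rcases Finset.mem_union.1 hs with h | h
    · exact Submodule.mem_sup_left (h1 s h)
    · exact Submodule.mem_sup_right (h1' s h)
  · obtain ⟨x, hx, y, hy, rfl⟩ := Submodule.mem_sup.1 hm
    rw [Finset.coe_union]
    exact Submodule.add_mem _ (Submodule.span_mono Set.subset_union_left (h2 x hx))
      (Submodule.span_mono Set.subset_union_right (h2' y hy))

theorem Lat.pp_le (P : Ideal (A1 D)) (hP : (⟨(tt D)⁻¹, tt_inv_mem_BB1 D⟩ : A1 D) ∈ P)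
    (N : Lat E) (i : ι) : N.pp P hP i ≤ N := by
  intro c
  refine Submodule.span_le.2 ?_
  rintro _ ⟨b, hb, m, hm, rfl⟩
  exact N.smul c i b (pL_le hb) m hm

theorem Lat.FG.pp [Fintype ι] {P : Ideal (A1 D)}
    {hP : (⟨(tt D)⁻¹, tt_inv_mem_BB1 D⟩ : A1 D) ∈ P} {N : Lat E} (hN : N.FG) (i : ι) :
    (N.pp P hP i).FG := hN.of_le (N.pp_le P hP i)

end Pool.Agent.MP_6e5bed_ag_KC
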