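import Pool.Agent.Lib.MP_6e5bed_ag_KC.LPL
import Pool.Agent.Lib.MP_6e5bed_ag_KC.LNoeB

set_option autoImplicit false
set_option linter.unusedSectionVars false

/-!
# Lattices of finite type: products (project KC, part B2)
-/

namespace Pool.Agent.MP_6e5bed_ag_KC

open RatFunc
open Pool.Agent.MP_6e5bed_ag_NC
open scoped TensorProduct

universe u

variable {k : Type u} [Field k] {D : FExt k} {ι₁ ι ι₂ : Type} [DecidableEq ι₁] [DecidableEq ι]
  [DecidableEq ι₂]

/-- The subspace `Q` is stable under the functions on the charts `c i`. -/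
def StQ (E : LSys D ι) (c : ι → Fin 3) (Q : Submodule k E.H) : Prop :=
  ∀ i, ∀ b ∈ BB D (c i), ∀ q ∈ Q, E.act i b q ∈ Q

/-- Proof. The `r` with `r Q ⊆ Q` form a subalgebra which contains the generators of `RR`. -/
theorem StQ.RR {E : LSys D ι} {c : ι → Fin 3} {Q : Submodule k E.H} (h : StQ E c Q)
    {r : Module.End k E.H} (hr : r ∈ E.RR c) {q : E.H} (hq : q ∈ Q) : r q ∈ Q := by
  let T : Subalgebra k (Module.End k E.H) :=
    { carrier := {r | ∀ m ∈ Q, r m ∈ Q}
      mul_mem' := fun {r s} hr hs m hm => hr _ (hs m hm)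
      add_mem' := fun {r s} hr hs m hm => Q.add_mem (hr m hm) (hs m hm)
      algebraMap_mem' := fun a m hm => by
        rw [Module.algebraMap_end_apply]
        exact Q.smul_mem a hm }
  have h1 : E.RR c ≤ T := by
    refine iSup_le fun i => ?_
    rintro _ ⟨b, hb, rfl⟩ m hm
    exact h i b hb m hm
  exact h1 hr q hq

private theorem LFGb_act {E : LSys D ι} {c : ι → Fin 3} (i : ι) {b : D.L} (hb : b ∈ BB D (c i)) :
    E.act i b ∈ E.RR c :=
  (le_iSup (fun i => (BB D (c i)).map (E.act i)) i) ⟨b, hb, rfl⟩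

/-- Finite generation in terms of stable subspaces.

Proof. A stable subspace is an `RR c`-submodule (`StQ.RR`), which gives one direction. For the
other one take for `Q` the `RR c`-submodule generated by `S`. -/
theorem Lat.fg_iff_stable {E : LSys D ι} (N : Lat E) : N.FG ↔ ∀ c, ∃ S : Finset E.H,
    (∀ s ∈ S, s ∈ N.N c) ∧
      ∀ Q : Submodule k E.H, StQ E c Q → (∀ s ∈ S, s ∈ Q) → N.N c ≤ Q := by
  refine forall_congr' fun c => exists_congr fun S => and_congr_right fun _ => ?_
  constructor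
  · intro h Q hQ hS m hm
    refine Submodule.span_induction (p := fun m _ => m ∈ Q) ?_ ?_ ?_ ?_ (h m hm)
    · exact fun x hx => hS x hx
    · exact Q.zero_mem
    · exact fun x y _ _ hx hy => Q.add_mem hx hy
    · exact fun r x _ hx => hQ.RR r.2 hx
  · intro h m hm
    let Q : Submodule k E.H :=
      { carrier := {m | m ∈ Submodule.span (E.RR c) (S : Set E.H)}
        add_mem' := fun hx hy => (Submodule.span (E.RR c) (S : Set E.H)).add_mem hx hy
        zero_mem' := (Submodule.span (E.RR c) (S : Set E.H)).zero_mem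
        smul_mem' := fun a x hx => by
          have h1 := Submodule.smul_mem (Submodule.span (E.RR c) (S : Set E.H))
            (algebraMap k (E.RR c) a) hx
          exact h1 }
    refine h Q ?_ (fun s hs => Submodule.subset_span hs) hm
    intro i b hb q hq
    exact Submodule.smul_mem (Submodule.span (E.RR c) (S : Set E.H))
      (⟨E.act i b, LFGb_act i hb⟩ : E.RR c) hq

/-- Proof. Generators: `(s, 0)` and `(0, s')`; for `Q` stable in `E.H × E'.H` the preimages under
the two inclusions are stable. -/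
theorem Lat.FG.prod {E E' : LSys D ι} {N : Lat E} {N' : Lat E'} (hN : N.FG) (hN' : N'.FG) :
    (N.prod N').FG := by
  classical
  rw [Lat.fg_iff_stable] at hN hN' ⊢
  intro c
  obtain ⟨S, h1, h2⟩ := hN c
  obtain ⟨S', h1', h2'⟩ := hN' c
  refine ⟨S.image (fun s => ((s, 0) : E.H × E'.H)) ∪ S'.image (fun s => ((0, s) : E.H × E'.H)),
    fun s hs => ?_, fun Q hQ hS => ?_⟩
  · rcases Finset.mem_union.1 hs with h | h
    · obtain ⟨t, ht, rfl⟩ := Finset.mem_image.1 h
      exact ⟨h1 t ht, (N'.N c).zero_mem⟩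
    · obtain ⟨t, ht, rfl⟩ := Finset.mem_image.1 h
      exact ⟨(N.N c).zero_mem, h1' t ht⟩
  · have e1 : N.N c ≤ Q.comap (LinearMap.inl k E.H E'.H) := by
      refine h2 _ (fun i b hb q hq => ?_) (fun s hs => ?_)
      · have h3 := hQ i b hb _ hq
        have e : (E.prod E').act i b ((LinearMap.inl k E.H E'.H) q) =
            (LinearMap.inl k E.H E'.H) (E.act i b q) := by
          rw [LSys.prod_act]
          change (E.act i b q, E'.act i b 0) = (E.act i b q, (0 : E'.H))
          rw [map_zero]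
        rw [e] at h3
        exact h3
      · exact hS _ (Finset.mem_union_left _ (Finset.mem_image_of_mem _ hs))
    have e2 : N'.N c ≤ Q.comap (LinearMap.inr k E.H E'.H) := by
      refine h2' _ (fun i b hb q hq => ?_) (fun s hs => ?_)
      · have h3 := hQ i b hb _ hq
        have e : (E.prod E').act i b ((LinearMap.inr k E.H E'.H) q) =
            (LinearMap.inr k E.H E'.H) (E'.act i b q) := by
          rw [LSys.prod_act]
          change (E.act i b 0, E'.act i b q) = ((0 : E.H), E'.act i b q)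
          rw [map_zero]
        rw [e] at h3
        exact h3
      · exact hS _ (Finset.mem_union_right _ (Finset.mem_image_of_mem _ hs))
    rintro ⟨x, y⟩ hxy
    have e3 : ((x, y) : E.H × E'.H) = (x, 0) + (0, y) := by
      rw [Prod.mk_add_mk, add_zero, zero_add]
    have e4 : ((x, 0) : E.H × E'.H) ∈ Q := e1 hxy.1
    have e5 : ((0, y) : E.H × E'.H) ∈ Q := e2 hxy.2
    have e6 : ((x, 0) + (0, y) : E.H × E'.H) ∈ Q := Q.add_mem e4 e5
    rw [← e3] at e6
    exact e6

/-- Proof. Generators: `P.β s s'`. For a stable `Q` and fixed `s'` the preimage of `Q` under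
`P.β · s'` is stable, hence contains `N₁.N _`; then for fixed `u ∈ N₁.N _` the preimage under
`P.β u` is stable and contains the `s'`. -/
theorem PData.lat_FG {E₁ : LSys D ι₁} {E : LSys D ι} {E₂ : LSys D ι₂} (P : PData E₁ E E₂)
    {N₁ : Lat E₁} {N : Lat E} (h₁ : N₁.FG) (h : N.FG) : (P.lat N₁ N).FG := by
  classical
  rw [Lat.fg_iff_stable] at h h₁ ⊢
  intro c
  obtain ⟨S, h1, h2⟩ := h₁ (c ∘ P.a)
  obtain ⟨S', h1', h2'⟩ := h (c ∘ P.b)
  refine ⟨(S ×ˢ S').image (fun s => P.β s.1 s.2), fun s hs => ?_, fun Q hQ hS => ?_⟩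
  · obtain ⟨⟨s, s'⟩, ht, rfl⟩ := Finset.mem_image.1 hs
    rw [Finset.mem_product] at ht
    exact Submodule.subset_span ⟨s, h1 s ht.1, s', h1' s' ht.2, rfl⟩
  · refine Submodule.span_le.2 ?_
    rintro _ ⟨u, hu, v, hv, rfl⟩
    have e2 : N.N (c ∘ P.b) ≤ Q.comap (P.β u) := by
      refine h2' _ (fun i b hb q hq => ?_) (fun s' hs' => ?_)
      · rw [Submodule.mem_comap, P.act2]
        exact hQ _ b hb _ hq
      · have e1 : N₁.N (c ∘ P.a) ≤ Q.comap (P.β.flip s') := by
          refine h2 _ (fun i b hb q hq => ?_) (fun s hs => ?_)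
          · rw [Submodule.mem_comap, LinearMap.flip_apply, P.act1]
            exact hQ _ b hb _ hq
          · exact hS _ (Finset.mem_image.2 ⟨(s, s'), Finset.mem_product.2 ⟨hs, hs'⟩, rfl⟩)
        exact e1 hu
    exact e2 hv

/-- Generator: the inverse of `twc D d m (c ())`. -/
theorem tws_FG (D : FExt k) (d : Fin 3) (m : ℕ) : (tws D d m).FG := by
  rw [Lat.fg_iff_stable]
  intro c
  have h0 : twc D d m (c ()) ≠ 0 := by
    intro h
    obtain ⟨b, -, hb⟩ := twc_cases D d m (c ())
    rw [h, mul_zero] at hb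
    exact zero_ne_one hb
  refine ⟨({(twc D d m (c ()))⁻¹} : Finset D.L), fun s hs => ?_, fun Q hQ hS x hx => ?_⟩
  · have hs' : s = (twc D d m (c ()))⁻¹ := Finset.mem_singleton.1 hs
    subst hs'
    change twc D d m (c ()) * (twc D d m (c ()))⁻¹ ∈ BB D (c ())
    rw [mul_inv_cancel₀ h0]
    exact (BB D (c ())).one_mem
  · have h1 : (twc D d m (c ()))⁻¹ ∈ Q := hS _ (Finset.mem_singleton_self _)
    have hx' : (x : D.L) ∈ twN D d m (c ()) := hx
    have h2 := hQ () _ (mem_twN.1 hx') _ h1
    rw [LSys.fn_act] at h2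
    have e : ∀ y : D.L, twc D d m (c ()) * y * (twc D d m (c ()))⁻¹ = y := fun y => by
      rw [mul_comm (twc D d m (c ())) y, mul_assoc, mul_inv_cancel₀ h0, mul_one]
    have e' := e x
    rw [e'] at h2
    exact h2

end Pool.Agent.MP_6e5bed_ag_KC
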