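import Pool.Agent.Lib.MP_6e5bed_ag_KC.LGen
import Pool.Agent.Lib.MP_6e5bed_ag_KC.LFGb

set_option autoImplicit false
set_option linter.unusedSectionVars false

/-!
# Lattices as quotients of products of lattices with fewer factors (project KC, part B2)
-/

namespace Pool.Agent.MP_6e5bed_ag_KC

open RatFunc
open Pool.Agent.MP_6e5bed_ag_NC
open scoped TensorProduct

universe u

variable {k : Type u} [Field k] {D : FExt k} {ι ι₂ : Type} [DecidableEq ι] [DecidableEq ι₂]

/-- The choice of charts with the chart `d` in the first factor. -/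
def cmk (e : Unit ⊕ ι ≃ ι₂) (d : Fin 3) (c : ι → Fin 3) : ι₂ → Fin 3 := fun i =>
  Sum.elim (fun _ => d) c (e.symm i)

theorem cmk_inl (e : Unit ⊕ ι ≃ ι₂) (d : Fin 3) (c : ι → Fin 3) :
    cmk e d c (e (Sum.inl ())) = d := by
  rw [cmk, e.symm_apply_apply]
  rfl

theorem cmk_inr (e : Unit ⊕ ι ≃ ι₂) (d : Fin 3) (c : ι → Fin 3) (j : ι) :
    cmk e d c (e (Sum.inr j)) = c j := by
  rw [cmk, e.symm_apply_apply]
  rfl

theorem cmk_eta (e : Unit ⊕ ι ≃ ι₂) (c : ι₂ → Fin 3) :
    cmk e (c (e (Sum.inl ()))) (fun j => c (e (Sum.inr j))) = c := by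
  funext i
  rw [cmk]
  obtain ⟨x, rfl⟩ := e.surjective i
  rw [e.symm_apply_apply]
  rcases x with x | x <;> rfl

theorem cmk_update_inl (e : Unit ⊕ ι ≃ ι₂) (d a : Fin 3) (c : ι → Fin 3) :
    Function.update (cmk e d c) (e (Sum.inl ())) a = cmk e a c := by
  funext i
  obtain ⟨x, rfl⟩ := e.surjective i
  rcases x with x | x
  · rw [Function.update_self, cmk_inl]
  · rw [Function.update_of_ne (fun h => by simpa using e.injective h), cmk_inr, cmk_inr]

theorem cmk_update_inr (e : Unit ⊕ ι ≃ ι₂) (d a : Fin 3) (c : ι → Fin 3) (j : ι) :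
    Function.update (cmk e d c) (e (Sum.inr j)) a = cmk e d (Function.update c j a) := by
  funext i
  obtain ⟨x, rfl⟩ := e.surjective i
  rcases x with x | x
  · rw [Function.update_of_ne (fun h => by simpa using e.injective h), cmk_inl, cmk_inl]
  · rw [cmk_inr]
    by_cases h : x = j
    · subst h
      rw [Function.update_self, Function.update_self]
    · rw [Function.update_of_ne (fun h' => h (by simpa using e.injective h')), cmk_inr,
        Function.update_of_ne h]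

/-- The remaining factors. -/
abbrev LSys.tl (E : LSys D ι₂) (e : Unit ⊕ ι ≃ ι₂) : LSys D ι := E.pull fun j => e (Sum.inr j)

/-- The restriction of a lattice to the chart `d` in the first factor. -/
def Lat.rest {E : LSys D ι₂} (N : Lat E) (e : Unit ⊕ ι ≃ ι₂) (d : Fin 3) : Lat (E.tl e) where
  N := fun c => N.N (cmk e d c)
  smul := fun c j b hb m hm => N.smul _ (e (Sum.inr j)) b (by rwa [cmk_inr]) m hm
  mono := fun c j => by
    rw [← cmk_update_inr]
    exact N.mono _ _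
  loc0 := fun c j m hm => by
    rw [← cmk_update_inr] at hm ⊢
    exact N.loc0 _ _ m hm
  loc1 := fun c j m hm => by
    rw [← cmk_update_inr] at hm ⊢
    exact N.loc1 _ _ m hm

/-- The action of the functions of the first factor, as a map on the tensor product. -/
noncomputable def LSys.mu (E : LSys D ι₂) (i : ι₂) : D.L ⊗[k] E.H →ₗ[k] E.H :=
  TensorProduct.lift (E.act i).toLinearMap

theorem LSys.mu_tmul (E : LSys D ι₂) (i : ι₂) (b : D.L) (h : E.H) :
    E.mu i (b ⊗ₜ h) = E.act i b h := rfl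

/-- Proof. `TensorProduct.induction_on`, `cons_inl`, `cons_inr`, `act_mul`, `act_act`; the cases
for `i` by `e.surjective`. -/
theorem LSys.mu_act (E : LSys D ι₂) (e : Unit ⊕ ι ≃ ι₂) (i : ι₂) (a : D.L)
    (z : ((E.tl e).cons e).H) :
    E.mu (e (Sum.inl ())) (((E.tl e).cons e).act i a z) =
      E.act i a (E.mu (e (Sum.inl ())) z) := by
  have h : (E.mu (e (Sum.inl ()))).comp (((E.tl e).cons e).act i a) =
      (E.act i a).comp (E.mu (e (Sum.inl ()))) := by
    obtain ⟨x, rfl⟩ := e.surjective i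
    rcases x with x | j
    · refine TensorProduct.ext' fun x y => ?_
      have h1 := (E.tl e).cons_inl e () a x y
      refine (congrArg (E.mu (e (Sum.inl ()))) h1).trans ?_
      exact E.act_mul (e (Sum.inl ())) a x y
    · refine TensorProduct.ext' fun x y => ?_
      have h1 := (E.tl e).cons_inr e j a x y
      refine (congrArg (E.mu (e (Sum.inl ()))) h1).trans ?_
      exact E.act_act (e (Sum.inl ())) (e (Sum.inr j)) x a y
  exact LinearMap.congr_fun h z

/-- The product of the twisted structure sheaf and a lattice. -/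
noncomputable def twP (E : LSys D ι₂) (e : Unit ⊕ ι ≃ ι₂) (d : Fin 3) (m : ℕ)
    (M : Lat (E.tl e)) : Lat ((E.tl e).cons e) :=
  (PData.cons (E.tl e) e).lat (tws D d m) M

theorem twP_FG (E : LSys D ι₂) (e : Unit ⊕ ι ≃ ι₂) (d : Fin 3) (m : ℕ)
    {M : Lat (E.tl e)} (hM : M.FG) : (twP E e d m M).FG :=
  (PData.cons (E.tl e) e).lat_FG (tws_FG D d m) hM

theorem map_twP (E : LSys D ι₂) (e : Unit ⊕ ι ≃ ι₂) (d : Fin 3) (m : ℕ) (M : Lat (E.tl e))
    (c : ι₂ → Fin 3) : ((twP E e d m M).N c).map (E.mu (e (Sum.inl ()))) =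
      Submodule.span k {x | ∃ b ∈ twN D d m (c (e (Sum.inl ()))),
        ∃ h ∈ M.N (fun j => c (e (Sum.inr j))), E.act (e (Sum.inl ())) b h = x} := by
  change (Submodule.span k _).map _ = _
  rw [Submodule.map_span]
  congr 1
  ext x
  constructor
  · rintro ⟨_, ⟨b, hb, h, hh, rfl⟩, rfl⟩
    exact ⟨b, hb, h, hh, rfl⟩
  · rintro ⟨b, hb, h, hh, rfl⟩
    exact ⟨_, ⟨b, hb, h, hh, rfl⟩, rfl⟩

/-- The generation on the chart `d`: if `M ≤ N.rest e d` contains generators of the components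
`N.N (cmk e d c)`, then these are the spans of the products.

Proof. The span `Q` is stable: for `i = e (inl ())` by `twN_smul`, for `i = e (inr j)` by `M.smul`.
It contains the generators (`b = 1`). Use `fg_iff_stable`-style: `hS`. The other inclusion: for
`b ∈ BB D d` and `h ∈ N.N (cmk e d c)` by `N.smul`. -/
theorem cover_d {E : LSys D ι₂} (N : Lat E) (e : Unit ⊕ ι ≃ ι₂) (d : Fin 3)
    (M : Lat (E.tl e)) (hM : M ≤ N.rest e d) (c : ι → Fin 3) (S : Finset E.H)
    (hSM : ∀ s ∈ S, s ∈ M.N c)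
    (hS : ∀ Q : Submodule k E.H, StQ E (cmk e d c) Q → (∀ s ∈ S, s ∈ Q) → N.N (cmk e d c) ≤ Q) :
    N.N (cmk e d c) = Submodule.span k {x | ∃ b ∈ BB D d, ∃ h ∈ M.N c,
      E.act (e (Sum.inl ())) b h = x} := by
  refine le_antisymm (hS _ ?_ ?_) ?_
  · intro i b hb q hq
    obtain ⟨y, rfl⟩ := e.surjective i
    refine Submodule.span_induction (p := fun q _ => E.act (e y) b q ∈
      Submodule.span k {x | ∃ b ∈ BB D d, ∃ h ∈ M.N c, E.act (e (Sum.inl ())) b h = x})
      ?_ ?_ ?_ ?_ hq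
    · rintro _ ⟨b', hb', h, hh, rfl⟩
      rcases y with y | j
      · have hb2 : b ∈ BB D d := by rwa [cmk_inl] at hb
        exact Submodule.subset_span ⟨b * b', (BB D d).mul_mem hb2 hb', h, hh,
          E.act_mul _ _ _ _⟩
      · rw [cmk_inr] at hb
        exact Submodule.subset_span ⟨b', hb', E.act (e (Sum.inr j)) b h,
          M.smul c j b hb h hh, E.act_act _ _ _ _ _⟩
    · rw [map_zero]
      exact Submodule.zero_mem _
    · intro x y _ _ hx hy
      rw [map_add]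
      exact Submodule.add_mem _ hx hy
    · intro r x _ hx
      rw [map_smul]
      exact Submodule.smul_mem _ r hx
  · intro s hs
    exact Submodule.subset_span ⟨1, (BB D d).one_mem, s, hSM s hs, E.act_one _ _⟩
  · refine Submodule.span_le.2 ?_
    rintro _ ⟨b, hb, h, hh, rfl⟩
    exact N.smul _ (e (Sum.inl ())) b (by rwa [cmk_inl]) h (hM c hh)

private theorem LCov_exp [Fintype ι] {E : LSys D ι₂} (N : Lat E) (e : Unit ⊕ ι ≃ ι₂)
    (d d' : Fin 3) (u : D.L) (hu : u ∈ BB D d')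
    (hloc : ∀ (c : ι₂ → Fin 3) (i : ι₂), ∀ m ∈ N.N (Function.update c i 2),
      ∃ n : ℕ, E.act i (u ^ n) m ∈ N.N (Function.update c i d'))
    (M : Lat (E.tl e)) (hM : M ≤ N.rest e d) (hf : M.FG) :
    ∃ m₀ : ℕ, ∀ m, m₀ ≤ m → ∀ (c : ι → Fin 3), ∀ h ∈ M.N c,
      E.act (e (Sum.inl ())) (u ^ m) h ∈ N.N (cmk e d' c) := by
  classical
  have hone : ∀ c : ι → Fin 3, ∃ m₀ : ℕ, ∀ m, m₀ ≤ m → ∀ h ∈ M.N c,
      E.act (e (Sum.inl ())) (u ^ m) h ∈ N.N (cmk e d' c) := by
    intro c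
    obtain ⟨S, hS1, hS2⟩ := (Lat.fg_iff_stable M).1 hf c
    have hs : ∀ s ∈ S, ∃ n₀ : ℕ, ∀ n, n₀ ≤ n →
        E.act (e (Sum.inl ())) (u ^ n) s ∈ N.N (cmk e d' c) := by
      intro s hs
      have h1 : s ∈ N.N (cmk e d c) := hM c (hS1 s hs)
      have h2 := N.mono (cmk e d c) (e (Sum.inl ())) h1
      obtain ⟨n₀, hn₀⟩ := hloc _ _ s h2
      rw [cmk_update_inl] at hn₀
      refine ⟨n₀, fun n hn => ?_⟩
      obtain ⟨l, rfl⟩ := Nat.exists_eq_add_of_le hn
      rw [add_comm, pow_add, E.act_mul]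
      refine N.smul _ _ _ ?_ _ hn₀
      rw [cmk_inl]
      exact (BB D d').pow_mem hu l
    choose! g hg using hs
    refine ⟨S.sup g, fun m hm h hh => ?_⟩
    have h3 : M.N c ≤ (N.N (cmk e d' c)).comap (E.act (e (Sum.inl ())) (u ^ m)) := by
      refine hS2 _ ?_ ?_
      · intro j b hb q hq
        have h4 : E.act (e (Sum.inl ())) (u ^ m) q ∈ N.N (cmk e d' c) := hq
        have h5 := N.smul (cmk e d' c) (e (Sum.inr j)) b (by rwa [cmk_inr]) _ h4
        rw [E.act_act] at h5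
        exact h5
      · intro s hs
        exact hg s hs m ((Finset.le_sup hs).trans hm)
    exact h3 hh
  choose g hg using hone
  refine ⟨Finset.univ.sup g, fun m hm c h hh => ?_⟩
  exact hg c m ((Finset.le_sup (Finset.mem_univ c)).trans hm) h hh

/-- The exponent: for `M ≤ N.rest e d` of finite type and `d ≠ 2` there is an `m` such that
the twisted products are in `N`.

Proof. Let `d = 0` (the case `d = 1` is the same with `t` and `1/t`, `0` and `1` exchanged). For
`h ∈ M.N c ⊆ N.N (cmk e 0 c) ⊆ N.N (cmk e 2 c)` (`N.mono`) there is an `n` with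
`act (t⁻¹ ^ n) h ∈ N.N (cmk e 1 c)` (`N.loc1`, `cmk_update_inl`). For fixed `c` and `n` the set of
these `h` is a subspace `Q n`, stable in the sense of `StQ (E.tl e) c`, and `Q n ≤ Q (n + 1)` since
`t⁻¹ ∈ BB D 1`. As `M.N c` has a finite set of generators there is an `n` which is good for `M.N c`
(`fg_iff_stable`), and as there are only finitely many `c` there is an `m` good for all of them.
Now let `b ∈ twN D 0 m a`, `h ∈ M.N c`. For `a = 0`: `b ∈ BB D 0` and `N.smul`. For `a = 2`: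
`b ∈ BB D 2` and `h ∈ N.N (cmk e 2 c)`. For `a = 1`: `b = (t ^ m b) t⁻¹ ^ m` with
`t ^ m b ∈ BB D 1`. -/
theorem cover_exp [Fintype ι] {E : LSys D ι₂} (N : Lat E) (e : Unit ⊕ ι ≃ ι₂) (d : Fin 3)
    (hd : d ≠ 2) (M : Lat (E.tl e)) (hM : M ≤ N.rest e d) (hf : M.FG) :
    ∃ m₀ : ℕ, ∀ m, m₀ ≤ m → ∀ (a : Fin 3) (c : ι → Fin 3), ∀ b ∈ twN D d m a, ∀ h ∈ M.N c,
      E.act (e (Sum.inl ())) b h ∈ N.N (cmk e a c) := by
  have hmain : ∀ (d d' : Fin 3) (u w : D.L), u ∈ BB D d' → w * u = 1 →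
      (∀ (c : ι₂ → Fin 3) (i : ι₂), ∀ m ∈ N.N (Function.update c i 2),
        ∃ n : ℕ, E.act i (u ^ n) m ∈ N.N (Function.update c i d')) →
      (∀ m, twc D d m d' = w ^ m) → (∀ a : Fin 3, a = d ∨ a = d' ∨ a = 2) →
      ∀ M : Lat (E.tl e), M ≤ N.rest e d → M.FG →
      ∃ m₀ : ℕ, ∀ m, m₀ ≤ m → ∀ (a : Fin 3) (c : ι → Fin 3), ∀ b ∈ twN D d m a, ∀ h ∈ M.N c,
      E.act (e (Sum.inl ())) b h ∈ N.N (cmk e a c) := by
    intro d d' u w hu hwu hloc htw hall M hM hf
    obtain ⟨m₀, hm₀⟩ := LCov_exp N e d d' u hu hloc M hM hf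
    refine ⟨m₀, fun m hm a c b hb h hh => ?_⟩
    rcases hall a with rfl | rfl | rfl
    · rw [mem_twN_self] at hb
      exact N.smul _ _ b (by rwa [cmk_inl]) h (hM c hh)
    · rw [mem_twN, htw] at hb
      have h1 : b = (w ^ m * b) * u ^ m := by
        have h2 : w ^ m * u ^ m = 1 := by rw [← mul_pow, hwu, one_pow]
        calc b = (w ^ m * u ^ m) * b := by rw [h2, one_mul]
          _ = _ := by ring
      rw [h1, E.act_mul]
      exact N.smul _ _ _ (by rwa [cmk_inl]) _ (hm₀ m hm c h hh)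
    · rw [mem_twN_two] at hb
      have h1 : h ∈ N.N (cmk e d c) := hM c hh
      have h2 := N.mono (cmk e d c) (e (Sum.inl ())) h1
      rw [cmk_update_inl] at h2
      exact N.smul _ _ b (by rwa [cmk_inl]) h h2
  have hd' : d = 0 ∨ d = 1 := by omega
  rcases hd' with rfl | rfl
  · refine hmain 0 1 (tt D)⁻¹ (tt D) (tt_inv_mem_BB1 D) (mul_inv_cancel₀ (tt_ne_zero D))
      N.loc1 (fun m => ?_) (by decide) M hM hf
    simp [twc]
  · refine hmain 1 0 (tt D) (tt D)⁻¹ (tt_mem_BB0 D) (inv_mul_cancel₀ (tt_ne_zero D))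
      N.loc0 (fun m => ?_) (by decide) M hM hf
    simp [twc]

/-- Every lattice of finite type is a quotient of a sum of two products.

Proof. Let `S d c` be generators of `N.N (cmk e d c)` (`fg_iff_stable`) and `M d ≤ N.rest e d` of
finite type with `S d c ⊆ (M d).N c` (`exists_fg_le`), `m` good for `d = 0` and `d = 1`
(`cover_exp`). By `map_twP` and `cover_exp` (and `cmk_eta`) the sum is contained in `N.N c`. Let
`a = c (e (inl ()))`, `c' = fun j => c (e (inr j))`, so `c = cmk e a c'`. For `a = 0`, `a = 1` the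
equality follows from `cover_d` and `mem_twN_self`. For `a = 2` and `x ∈ N.N c` there is an `n` with
`act (t ^ n) x ∈ N.N (cmk e 0 c')` (`N.loc0`, `cmk_update_inl`), which is in the span of the
`act b h`, `b ∈ BB D 0`, `h ∈ (M 0).N c'`, so `x = act (t⁻¹ ^ n) (act (t ^ n) x)` is in the span of
the `act (t⁻¹ ^ n * b) h`, with `t⁻¹ ^ n * b ∈ BB D 2` (`mem_twN_two`). -/
theorem Lat.cover [Fintype ι] {E : LSys D ι₂} (N : Lat E) (hN : N.FG)
    (e : Unit ⊕ ι ≃ ι₂) : ∃ (m : ℕ) (M₀ M₁ : Lat (E.tl e)), M₀.FG ∧ M₁.FG ∧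
      ∀ c, N.N c = ((twP E e 0 m M₀).N c).map (E.mu (e (Sum.inl ()))) ⊔
        ((twP E e 1 m M₁).N c).map (E.mu (e (Sum.inl ()))) := by
  have hN' := (Lat.fg_iff_stable N).1 hN
  choose S hS1 hS2 using hN'
  obtain ⟨M₀, hM₀f, hM₀l, hM₀s⟩ := Lat.exists_fg_le (N.rest e 0)
    (fun c => S (cmk e 0 c)) (fun c s hs => hS1 _ s hs)
  obtain ⟨M₁, hM₁f, hM₁l, hM₁s⟩ := Lat.exists_fg_le (N.rest e 1)
    (fun c => S (cmk e 1 c)) (fun c s hs => hS1 _ s hs)
  obtain ⟨m₀, hm₀⟩ := cover_exp N e 0 (by decide) M₀ hM₀l hM₀f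
  obtain ⟨m₁, hm₁⟩ := cover_exp N e 1 (by decide) M₁ hM₁l hM₁f
  refine ⟨max m₀ m₁, M₀, M₁, hM₀f, hM₁f, fun c => ?_⟩
  rw [map_twP, map_twP]
  have hc := cmk_eta e c
  refine le_antisymm ?_ (sup_le (Submodule.span_le.2 ?_) (Submodule.span_le.2 ?_))
  · have h0 := cover_d N e 0 M₀ hM₀l (fun j => c (e (Sum.inr j)))
      (S (cmk e 0 (fun j => c (e (Sum.inr j))))) (hM₀s _) (hS2 _)
    have h1 := cover_d N e 1 M₁ hM₁l (fun j => c (e (Sum.inr j)))
      (S (cmk e 1 (fun j => c (e (Sum.inr j))))) (hM₁s _) (hS2 _)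
    have h3 : ∀ a : Fin 3, a = 0 ∨ a = 1 ∨ a = 2 := by decide
    generalize ha : c (e (Sum.inl ())) = a at hc
    rcases h3 a with rfl | rfl | rfl
    · rw [← hc, h0]
      refine le_trans ?_ le_sup_left
      refine Submodule.span_mono ?_
      rintro _ ⟨b, hb, h, hh, rfl⟩
      have hcj : (fun j => cmk e 0 (fun j => c (e (Sum.inr j))) (e (Sum.inr j))) =
          fun j => c (e (Sum.inr j)) := by
        funext j
        exact cmk_inr e _ _ j
      refine ⟨b, mem_twN_self.2 hb, h, ?_, rfl⟩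
      rw [hcj]
      exact hh
    · rw [← hc, h1]
      refine le_trans ?_ le_sup_right
      refine Submodule.span_mono ?_
      rintro _ ⟨b, hb, h, hh, rfl⟩
      have hcj : (fun j => cmk e 1 (fun j => c (e (Sum.inr j))) (e (Sum.inr j))) =
          fun j => c (e (Sum.inr j)) := by
        funext j
        exact cmk_inr e _ _ j
      refine ⟨b, mem_twN_self.2 hb, h, ?_, rfl⟩
      rw [hcj]
      exact hh
    · refine le_trans ?_ le_sup_left
      intro x hx
      rw [← hc] at hx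
      have hx2 : x ∈ N.N (Function.update (cmk e 0 (fun j => c (e (Sum.inr j))))
          (e (Sum.inl ())) 2) := by
        rw [cmk_update_inl]
        exact hx
      obtain ⟨n, hn⟩ := N.loc0 _ _ x hx2
      rw [cmk_update_inl, h0] at hn
      have hx3 : x = E.act (e (Sum.inl ())) ((tt D)⁻¹ ^ n)
          (E.act (e (Sum.inl ())) (tt D ^ n) x) := by
        rw [← E.act_mul, ← mul_pow, inv_mul_cancel₀ (tt_ne_zero D), one_pow, E.act_one]
      rw [hx3]
      refine Submodule.span_induction (p := fun y _ =>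
        E.act (e (Sum.inl ())) ((tt D)⁻¹ ^ n) y ∈ Submodule.span k
          {x | ∃ b ∈ twN D 0 (max m₀ m₁) 2,
            ∃ h ∈ M₀.N (fun j => c (e (Sum.inr j))), E.act (e (Sum.inl ())) b h = x})
        ?_ ?_ ?_ ?_ hn
      · rintro _ ⟨b, hb, h, hh, rfl⟩
        refine Submodule.subset_span ⟨(tt D)⁻¹ ^ n * b, ?_, h, hh, E.act_mul _ _ _ _⟩
        rw [mem_twN_two]
        exact (BB D 2).mul_mem ((BB D 2).pow_mem (tt_inv_mem_BB2 D) n) (BB_le D 0 hb)
      · rw [map_zero]
        exact Submodule.zero_mem _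
      · intro x y _ _ hx hy
        rw [map_add]
        exact Submodule.add_mem _ hx hy
      · intro r x _ hx
        rw [map_smul]
        exact Submodule.smul_mem _ r hx
  · rintro _ ⟨b, hb, h, hh, rfl⟩
    have h1 := hm₀ (max m₀ m₁) (le_max_left _ _) _ _ b hb h hh
    rw [hc] at h1
    exact h1
  · rintro _ ⟨b, hb, h, hh, rfl⟩
    have h1 := hm₁ (max m₀ m₁) (le_max_right _ _) _ _ b hb h hh
    rw [hc] at h1
    exact h1

end Pool.Agent.MP_6e5bed_ag_KC
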