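import Pool.Agent.Lib.MP_6e5bed_ag_KC.LSat
import Pool.Agent.Lib.MP_6e5bed_ag_KC.DBB
import Pool.Agent.Lib.MP_6e5bed_ag_KC.DPt

set_option autoImplicit false
set_option linter.unusedSectionVars false

/-!
# Project KC: denominators on the charts, up to poles at `x₀`
-/

noncomputable section

namespace Pool.Agent.MP_6e5bed_ag_KC

open RatFunc
open Pool.Agent.MP_6e5bed_ag_NC
open scoped TensorProduct

universe u

variable {k : Type u} [Field k] {D : FExt k}

/-- The ideal of the point `x₀` (`A1 D` and `B1 D` are the same ring by definition). -/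
def IPt.P (P : IPt D) : Ideal (A1 D) := P.p

theorem IPt.hP (P : IPt D) : (⟨(tt D)⁻¹, tt_inv_mem_BB1 D⟩ : A1 D) ∈ P.P := by
  have h := P.mem
  have e : (⟨(tt D)⁻¹, tt_inv_mem_BB1 D⟩ : A1 D) = ti D := by
    apply Subtype.ext
    change (tt D)⁻¹ = algebraMap (RatFunc k) D.L X⁻¹
    rw [map_inv₀]
    rfl
  rw [e]
  exact h

variable (P : IPt D)

/-- The functions on the chart `c`, up to poles at `x₀`. -/
def IPt.Bh (c : Fin 3) : Subalgebra k D.L where
  carrier := {g | ∃ l : ℕ, ∀ b ∈ pL P.P l c, b * g ∈ BB D c}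
  mul_mem' := by
    rintro f g ⟨l, hl⟩ ⟨m, hm⟩
    refine ⟨l + m, fun b hb => ?_⟩
    rw [pL_add] at hb
    refine Submodule.mul_induction_on (C := fun b => b * (f * g) ∈ BB D c) hb
      (fun x hx y hy => ?_) (fun x y hx hy => ?_)
    · have e : x * y * (f * g) = (x * f) * (y * g) := by ring
      rw [e]
      exact (BB D c).mul_mem (hl x hx) (hm y hy)
    · rw [add_mul]
      exact (BB D c).add_mem hx hy
  add_mem' := by
    rintro f g ⟨l, hl⟩ ⟨m, hm⟩
    refine ⟨l + m, fun b hb => ?_⟩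
    rw [mul_add]
    exact (BB D c).add_mem (hl b (pL_anti P.P (Nat.le_add_right l m) c hb))
      (hm b (pL_anti P.P (Nat.le_add_left m l) c hb))
  algebraMap_mem' := fun r => ⟨0, fun b hb => (BB D c).mul_mem (pL_le hb)
    ((BB D c).algebraMap_mem r)⟩

theorem IPt.mem_Bh {c : Fin 3} {g : D.L} :
    g ∈ P.Bh c ↔ ∃ l : ℕ, ∀ b ∈ pL P.P l c, b * g ∈ BB D c := Iff.rfl

theorem IPt.BB_le_Bh (c : Fin 3) : BB D c ≤ P.Bh c := fun _ hg =>
  ⟨0, fun _ hb => (BB D c).mul_mem (pL_le hb) hg⟩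

theorem IPt.mem_Bh0 {g : D.L} : g ∈ P.Bh 0 ↔ g ∈ B0 D := by
  have h0 : (0 : Fin 3) ≠ 1 := by decide
  rw [B0_eq, P.mem_Bh]
  constructor
  · rintro ⟨l, hl⟩
    have h := hl 1 ((pL_ne h0).2 (BB D 0).one_mem)
    rwa [one_mul] at h
  · intro h
    exact ⟨0, fun b hb => (BB D 0).mul_mem (pL_le hb) h⟩

theorem IPt.mem_Bh1 {g : D.L} : g ∈ P.Bh 1 ↔ g ∈ pU (B1 D) D.L P.p := by
  rw [P.mem_Bh]
  constructor
  · rintro ⟨l, hl⟩
    refine ⟨l, fun a ha => ?_⟩
    have h := hl (a : D.L) (pL_one.2 ⟨a, ha, rfl⟩)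
    exact ⟨⟨_, h⟩, rfl⟩
  · rintro ⟨l, hl⟩
    refine ⟨l, fun b hb => ?_⟩
    obtain ⟨a, ha, rfl⟩ := pL_one.1 hb
    obtain ⟨b, hb⟩ := hl a ha
    have e : ((a : A1 D) : D.L) * g = (b : D.L) := hb.symm
    rw [e]
    exact b.2

theorem IPt.mem_Bh2 {g : D.L} : g ∈ P.Bh 2 ↔ g ∈ B01 D := by
  have h0 : (2 : Fin 3) ≠ 1 := by decide
  rw [B01_eq, P.mem_Bh]
  constructor
  · rintro ⟨l, hl⟩
    have h := hl 1 ((pL_ne h0).2 (BB D 2).one_mem)
    rwa [one_mul] at h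
  · intro h
    exact ⟨0, fun b hb => (BB D 2).mul_mem (pL_le hb) h⟩

theorem IPt.B_le_Bh (c : Fin 3) : P.B ≤ P.Bh c := by
  intro b hb
  fin_cases c
  · exact P.mem_Bh0.2 hb.1
  · exact P.mem_Bh1.2 hb.2
  · refine P.mem_Bh2.2 ⟨0, ?_⟩
    rw [pow_zero, one_smul]
    exact hb.1

/-- Denominators, for all the charts (`den0`, `den1`, `den01`). -/
theorem IPt.den [IsAlgClosed k] (c : Fin 3) {f : D.L} (hf : f ∈ P.Bh c) :
    ∃ (n : ℕ) (h g : Fin n → D.L), (∀ j, h j ∈ P.B) ∧ (∀ j, g j ∈ P.Bh c) ∧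
      (∀ j, h j * f ∈ P.B) ∧ ∑ j, g j * h j = 1 := by
  fin_cases c
  · obtain ⟨n, h, g, h1, h2, h3⟩ := P.den0 (P.mem_Bh0.1 hf)
    exact ⟨n, h, g, h1, fun j => P.mem_Bh0.2 (h2 j), h3⟩
  · obtain ⟨n, h, g, h1, h2, h3⟩ := P.den1 (P.mem_Bh1.1 hf)
    exact ⟨n, h, g, h1, fun j => P.mem_Bh1.2 (h2 j), h3⟩
  · obtain ⟨n, h, g, h1, h2, h3⟩ := P.den01 (P.mem_Bh2.1 hf)
    exact ⟨n, h, g, h1, fun j => P.mem_Bh2.2 (h2 j), h3⟩

/-- Common denominators of finitely many functions (induction: products of the partitions of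
unity). -/
theorem IPt.den_fin [IsAlgClosed k] (c : Fin 3) (S : Finset D.L) (hS : ∀ f ∈ S, f ∈ P.Bh c) :
    ∃ (n : ℕ) (h g : Fin n → D.L), (∀ j, h j ∈ P.B) ∧ (∀ j, g j ∈ P.Bh c) ∧
      (∀ j, ∀ f ∈ S, h j * f ∈ P.B) ∧ ∑ j, g j * h j = 1 := by
  classical
  induction S using Finset.induction_on with
  | empty =>
    exact ⟨1, fun _ => 1, fun _ => 1, fun _ => P.B.one_mem, fun _ => (P.Bh c).one_mem,
      fun _ f hf => absurd hf (Finset.notMem_empty f), by
        rw [Finset.sum_const, Finset.card_univ, Fintype.card_fin, one_smul, one_mul]⟩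
  | insert f S _ ih =>
    obtain ⟨n, h, g, h1, h2, h3, h4⟩ := ih fun x hx => hS x (Finset.mem_insert_of_mem hx)
    obtain ⟨m, h', g', h1', h2', h3', h4'⟩ := P.den c (hS f (Finset.mem_insert_self f S))
    refine ⟨n * m, fun j => h (finProdFinEquiv.symm j).1 * h' (finProdFinEquiv.symm j).2,
      fun j => g (finProdFinEquiv.symm j).1 * g' (finProdFinEquiv.symm j).2,
      fun j => P.B.mul_mem (h1 _) (h1' _), fun j => (P.Bh c).mul_mem (h2 _) (h2' _), ?_, ?_⟩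
    · intro j x hx
      change h (finProdFinEquiv.symm j).1 * h' (finProdFinEquiv.symm j).2 * x ∈ P.B
      rcases Finset.mem_insert.1 hx with rfl | hx
      · rw [mul_assoc]
        exact P.B.mul_mem (h1 _) (h3' _)
      · rw [mul_comm (h _), mul_assoc]
        exact P.B.mul_mem (h1' _) (h3 _ x hx)
    · have e : ∑ j : Fin (n * m), g (finProdFinEquiv.symm j).1 * g' (finProdFinEquiv.symm j).2 *
          (h (finProdFinEquiv.symm j).1 * h' (finProdFinEquiv.symm j).2) =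
          ∑ x : Fin n × Fin m, g x.1 * g' x.2 * (h x.1 * h' x.2) :=
        Equiv.sum_comp finProdFinEquiv.symm
          (fun x : Fin n × Fin m => g x.1 * g' x.2 * (h x.1 * h' x.2))
      rw [e, Fintype.sum_prod_type]
      have e2 : ∀ x : Fin n, ∑ y : Fin m, g x * g' y * (h x * h' y) = g x * h x := by
        intro x
        have e3 : ∀ y : Fin m, g x * g' y * (h x * h' y) = g x * h x * (g' y * h' y) :=
          fun y => by ring
        simp only [e3]
        rw [← Finset.mul_sum, h4', mul_one]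
      simp only [e2]
      exact h4

end Pool.Agent.MP_6e5bed_ag_KC
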