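import Pool.Agent.Lib.MP_6e5bed_ag_KC.LDen

set_option autoImplicit false
set_option linter.unusedSectionVars false

/-!
# Project KC: the ideal of the diagonal on the charts and on the curve minus `x₀`
-/

noncomputable section

namespace Pool.Agent.MP_6e5bed_ag_KC

open RatFunc
open Pool.Agent.MP_6e5bed_ag_NC
open scoped TensorProduct

universe u

variable {k : Type u} [Field k] {D : FExt k} (P : IPt D)

/-- The image of the ideal of the diagonal of `B ⊗ B` in `L ⊗ L`. -/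
def IPt.dgB : Submodule k (D.L ⊗[k] D.L) :=
  (LinearMap.ker (Algebra.TensorProduct.lmul' k : P.B ⊗[k] P.B →ₐ[k] P.B).toLinearMap).map
    (Algebra.TensorProduct.map P.B.val P.B.val).toLinearMap

/-- The functions on the product of two charts, up to poles at `x₀`. -/
def IPt.BBh (c d : Fin 3) : Submodule k (D.L ⊗[k] D.L) :=
  (Subalgebra.toSubmodule (P.Bh c)).map
      (Algebra.TensorProduct.includeLeft : D.L →ₐ[k] D.L ⊗[k] D.L).toLinearMap *
    (Subalgebra.toSubmodule (P.Bh d)).map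
      (Algebra.TensorProduct.includeRight : D.L →ₐ[k] D.L ⊗[k] D.L).toLinearMap

private theorem LDiag_mu (v : P.B ⊗[k] P.B) :
    muL D (Algebra.TensorProduct.map P.B.val P.B.val v) =
      P.B.val ((Algebra.TensorProduct.lmul' k : P.B ⊗[k] P.B →ₐ[k] P.B) v) := by
  induction v using TensorProduct.induction_on with
  | zero => rw [map_zero, map_zero, map_zero, map_zero]
  | tmul x y =>
    rw [Algebra.TensorProduct.map_tmul, Algebra.TensorProduct.lmul'_apply_tmul, muL,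
      Algebra.TensorProduct.lmul'_apply_tmul, map_mul]
  | add x y hx hy => rw [map_add, map_add, map_add, map_add, hx, hy]

private theorem LDiag_tmul {c d : Fin 3} {a b : D.L} (ha : a ∈ BB D c) (hb : b ∈ BB D d) :
    a ⊗ₜ[k] b ∈ BBt D c d := by
  have h1 : a ⊗ₜ[k] b = (Algebra.TensorProduct.includeLeft : D.L →ₐ[k] D.L ⊗[k] D.L) a *
      (Algebra.TensorProduct.includeRight : D.L →ₐ[k] D.L ⊗[k] D.L) b := by
    rw [Algebra.TensorProduct.includeLeft_apply, Algebra.TensorProduct.includeRight_apply,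
      Algebra.TensorProduct.tmul_mul_tmul, mul_one, one_mul]
  rw [h1]
  exact Submodule.mul_mem_mul ⟨a, ha, rfl⟩ ⟨b, hb, rfl⟩

private theorem LDiag_hat {c d : Fin 3} {a b : D.L} (ha : a ∈ P.Bh c) (hb : b ∈ P.Bh d) :
    a ⊗ₜ[k] b ∈ P.BBh c d := by
  have h1 : a ⊗ₜ[k] b = (Algebra.TensorProduct.includeLeft : D.L →ₐ[k] D.L ⊗[k] D.L) a *
      (Algebra.TensorProduct.includeRight : D.L →ₐ[k] D.L ⊗[k] D.L) b := by
    rw [Algebra.TensorProduct.includeLeft_apply, Algebra.TensorProduct.includeRight_apply,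
      Algebra.TensorProduct.tmul_mul_tmul, mul_one, one_mul]
  rw [h1]
  exact Submodule.mul_mem_mul ⟨a, ha, rfl⟩ ⟨b, hb, rfl⟩

/-- finitely many denominators for an element of `BBt` -/
private theorem LDiag_fin (c d : Fin 3) {w : D.L ⊗[k] D.L} (hw : w ∈ BBt D c d) :
    ∃ S S' : Finset D.L, (∀ f ∈ S, f ∈ BB D c) ∧ (∀ f ∈ S', f ∈ BB D d) ∧
      ∀ h h' : D.L, (∀ f ∈ S, h * f ∈ P.B) → (∀ f ∈ S', h' * f ∈ P.B) →
        (h ⊗ₜ[k] h') * w ∈ (Algebra.TensorProduct.map P.B.val P.B.val).range := by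
  classical
  refine Submodule.mul_induction_on (C := fun w => ∃ S S' : Finset D.L,
    (∀ f ∈ S, f ∈ BB D c) ∧ (∀ f ∈ S', f ∈ BB D d) ∧
      ∀ h h' : D.L, (∀ f ∈ S, h * f ∈ P.B) → (∀ f ∈ S', h' * f ∈ P.B) →
        (h ⊗ₜ[k] h') * w ∈ (Algebra.TensorProduct.map P.B.val P.B.val).range) hw ?_ ?_
  · rintro _ ⟨f, hf, rfl⟩ _ ⟨f', hf', rfl⟩
    refine ⟨{f}, {f'}, fun x hx => ?_, fun x hx => ?_, fun h h' h1 h2 => ?_⟩
    · rw [Finset.mem_singleton.1 hx]
      exact hf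
    · rw [Finset.mem_singleton.1 hx]
      exact hf'
    · have h3 := h1 f (Finset.mem_singleton_self f)
      have h4 := h2 f' (Finset.mem_singleton_self f')
      refine ⟨(⟨h * f, h3⟩ : P.B) ⊗ₜ[k] (⟨h' * f', h4⟩ : P.B), ?_⟩
      change (h * f) ⊗ₜ[k] (h' * f') = (h ⊗ₜ[k] h') * ((f ⊗ₜ[k] (1 : D.L)) * ((1 : D.L) ⊗ₜ[k] f'))
      rw [Algebra.TensorProduct.tmul_mul_tmul, Algebra.TensorProduct.tmul_mul_tmul, mul_one,
        one_mul]
  · rintro x y ⟨S, S', h1, h2, h3⟩ ⟨T, T', h4, h5, h6⟩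
    refine ⟨S ∪ T, S' ∪ T', fun f hf => ?_, fun f hf => ?_, fun h h' hh hh' => ?_⟩
    · exact (Finset.mem_union.1 hf).elim (h1 f) (h4 f)
    · exact (Finset.mem_union.1 hf).elim (h2 f) (h5 f)
    · rw [mul_add]
      exact Subalgebra.add_mem _
        (h3 h h' (fun f hf => hh f (Finset.mem_union_left _ hf))
          (fun f hf => hh' f (Finset.mem_union_left _ hf)))
        (h6 h h' (fun f hf => hh f (Finset.mem_union_right _ hf))
          (fun f hf => hh' f (Finset.mem_union_right _ hf)))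

/-- An element of `L ⊗ L` which is in the image of `B ⊗ B` and is killed by the multiplication is in
`dgB`. -/
theorem IPt.mem_dgB {w : D.L ⊗[k] D.L}
    (hw : w ∈ (Algebra.TensorProduct.map P.B.val P.B.val).range) (h : muL D w = 0) :
    w ∈ P.dgB := by
  obtain ⟨v, rfl⟩ := hw
  refine ⟨v, ?_, rfl⟩
  have h1 : muL D (Algebra.TensorProduct.map P.B.val P.B.val v) = 0 := h
  rw [LDiag_mu] at h1
  exact Subtype.val_injective h1

/-- The ideal of the diagonal on the product of two charts is generated by the functions of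
`B ⊗ B`, up to poles at `x₀`. For `w = ∑ f_i ⊗ f'_i` take common denominators `h_j` of the `f_i`
(`den_fin`, chart `c`, `∑ g_j h_j = 1`) and `h'_j` of the `f'_i` (chart `d`):
`w = ∑ (g_j ⊗ g'_j') (h_j ⊗ h'_j') w`, and `(h_j ⊗ h'_j') w ∈ B ⊗ B` is killed by the
multiplication. -/
theorem IPt.II_le [IsAlgClosed k] (c d : Fin 3) : II D c d ≤ P.BBh c d * P.dgB := by
  intro w hw
  have hw2 : muL D w = 0 := hw.2
  obtain ⟨S, S', h1, h2, h3⟩ := LDiag_fin P c d hw.1
  obtain ⟨n, h, g, hh, hg, hf, hs⟩ := P.den_fin c S fun f hf => P.BB_le_Bh c (h1 f hf)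
  obtain ⟨n', h', g', hh', hg', hf', hs'⟩ := P.den_fin d S' fun f hf => P.BB_le_Bh d (h2 f hf)
  have e1 : ∑ j, ∑ j', (g j ⊗ₜ[k] g' j') * ((h j ⊗ₜ[k] h' j') * w) = w := by
    have e2 : ∑ j, ∑ j', ((g j * h j) ⊗ₜ[k] (g' j' * h' j')) = (1 : D.L ⊗[k] D.L) := by
      have e3 : ∀ j, ∑ j', ((g j * h j) ⊗ₜ[k] (g' j' * h' j')) = (g j * h j) ⊗ₜ[k] (1 : D.L) := by
        intro j
        rw [← TensorProduct.tmul_sum, hs']
      rw [Finset.sum_congr rfl fun j _ => e3 j, ← TensorProduct.sum_tmul, hs]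
      rfl
    calc ∑ j, ∑ j', (g j ⊗ₜ[k] g' j') * ((h j ⊗ₜ[k] h' j') * w)
        = (∑ j, ∑ j', ((g j * h j) ⊗ₜ[k] (g' j' * h' j'))) * w := by
          rw [Finset.sum_mul]
          refine Finset.sum_congr rfl fun j _ => ?_
          rw [Finset.sum_mul]
          refine Finset.sum_congr rfl fun j' _ => ?_
          rw [← mul_assoc, Algebra.TensorProduct.tmul_mul_tmul]
      _ = w := by rw [e2, one_mul]
  rw [← e1]
  refine Submodule.sum_mem _ fun j _ => Submodule.sum_mem _ fun j' _ => ?_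
  refine Submodule.mul_mem_mul (LDiag_hat P (hg j) (hg' j')) ?_
  refine P.mem_dgB (h3 _ _ (hf j) (hf' j')) ?_
  rw [map_mul, hw2, mul_zero]

/-- Conversely: `w = ∑ f_i ⊗ f'_i` with `f_i`, `f'_i` in `B`. -/
theorem IPt.dgB_le (c d : Fin 3) {w : D.L ⊗[k] D.L} (hw : w ∈ P.dgB) :
    ∃ l : ℕ, ∀ b ∈ pL P.P l c, ∀ b' ∈ pL P.P l d, (b ⊗ₜ[k] b') * w ∈ II D c d := by
  obtain ⟨v, hv, rfl⟩ := hw
  have hv' : (Algebra.TensorProduct.lmul' k : P.B ⊗[k] P.B →ₐ[k] P.B) v = 0 := hv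
  have key : ∀ v : P.B ⊗[k] P.B, ∃ l : ℕ, ∀ b ∈ pL P.P l c, ∀ b' ∈ pL P.P l d,
      (b ⊗ₜ[k] b') * Algebra.TensorProduct.map P.B.val P.B.val v ∈ BBt D c d := by
    intro v
    induction v using TensorProduct.induction_on with
    | zero =>
      refine ⟨0, fun b _ b' _ => ?_⟩
      rw [map_zero, mul_zero]
      exact Submodule.zero_mem _
    | tmul x y =>
      obtain ⟨l, hl⟩ := P.mem_Bh.1 (P.B_le_Bh c x.2)
      obtain ⟨l', hl'⟩ := P.mem_Bh.1 (P.B_le_Bh d y.2)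
      refine ⟨l + l', fun b hb b' hb' => ?_⟩
      rw [Algebra.TensorProduct.map_tmul, Algebra.TensorProduct.tmul_mul_tmul]
      exact LDiag_tmul (hl b (pL_anti P.P (Nat.le_add_right l l') c hb))
        (hl' b' (pL_anti P.P (Nat.le_add_left l' l) d hb'))
    | add x y hx hy =>
      obtain ⟨l, hl⟩ := hx
      obtain ⟨l', hl'⟩ := hy
      refine ⟨l + l', fun b hb b' hb' => ?_⟩
      rw [map_add, mul_add]
      exact Submodule.add_mem _
        (hl b (pL_anti P.P (Nat.le_add_right l l') c hb) b' (pL_anti P.P (Nat.le_add_right l l') d hb'))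
        (hl' b (pL_anti P.P (Nat.le_add_left l' l) c hb) b'
          (pL_anti P.P (Nat.le_add_left l' l) d hb'))
  obtain ⟨l, hl⟩ := key v
  refine ⟨l, fun b hb b' hb' => ⟨hl b hb b' hb', ?_⟩⟩
  have h1 : muL D (Algebra.TensorProduct.map P.B.val P.B.val v) = 0 := by
    rw [LDiag_mu, hv', map_zero]
  change muL D ((b ⊗ₜ[k] b') * Algebra.TensorProduct.map P.B.val P.B.val v) = 0
  rw [map_mul, h1, mul_zero]

end Pool.Agent.MP_6e5bed_ag_KC
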