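import Pool.Agent.Lib.MP_6e5bed_ag_KC.LSpan

set_option autoImplicit false
set_option linter.unusedSectionVars false

/-!
# Project KC: lattices of finite type in the systems of an algebra
-/

noncomputable section

namespace Pool.Agent.MP_6e5bed_ag_KC

open RatFunc
open Pool.Agent.MP_6e5bed_ag_NC
open scoped TensorProduct

universe u

variable {k : Type u} [Field k] {D : FExt k} {ι : Type} [Fintype ι] [DecidableEq ι]
  {K : Type u} [CommRing K] [Algebra k K] (z : ι → D.L →ₐ[k] K)
  (H : Type u) [AddCommGroup H] [Module k H] [Module K H] [IsScalarTower k K H]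

omit [DecidableEq ι] in
/-- The functions on a product of charts lie in every subalgebra which contains the functions of
the factors. -/
theorem LFG.RRm_le (c : ι → Fin 3) (A : Subalgebra k K)
    (h : ∀ i, ∀ b ∈ BB D (c i), z i b ∈ A) : RRm z c ≤ Subalgebra.toSubmodule A := by
  classical
  have key : ∀ s : Finset ι, ∏ i ∈ s,
      (Subalgebra.toSubmodule (BB D (c i))).map (z i).toLinearMap ≤ Subalgebra.toSubmodule A := by
    intro s
    induction s using Finset.induction_on with
    | empty =>
      rw [Finset.prod_empty]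
      exact Submodule.one_le.2 A.one_mem
    | insert i s hi ih =>
      rw [Finset.prod_insert hi]
      refine Submodule.mul_le.2 fun x hx y hy => ?_
      obtain ⟨b, hb, rfl⟩ := hx
      exact A.mul_mem (h i b hb) (ih hy)
  exact key Finset.univ

/-- The elements of `K` which preserve a lattice. -/
def LFG.stab (N : Lat (LSys.ofAlg z H)) (c : ι → Fin 3) : Subalgebra k K where
  carrier := {r | ∀ m ∈ N.NK c, r • m ∈ N.NK c}
  mul_mem' := by
    intro a b ha hb m hm
    rw [mul_smul]
    exact ha _ (hb _ hm)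
  add_mem' := by
    intro a b ha hb m hm
    rw [add_smul]
    exact Submodule.add_mem _ (ha _ hm) (hb _ hm)
  algebraMap_mem' := by
    intro r m hm
    rw [algebraMap_smul]
    exact Submodule.smul_mem _ r hm

/-- The operators given by the functions on the product of the charts `c i`: for the inclusion of
`RR` in the set of the `lsmul r`, `r ∈ RRm`, note that this set is a subalgebra (`RRm_one`,
`RRm_mul`) which contains the generators (`mem_RRm`). Conversely (the product of submodules is
generated by the products of elements) it is enough that `lsmul (∏ i, z i (b i)) ∈ RR`. -/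
theorem mem_RR_ofAlg (c : ι → Fin 3) (φ : Module.End k H) :
    φ ∈ (LSys.ofAlg z H).RR c ↔ ∃ r ∈ RRm z c, φ = Algebra.lsmul k k H r := by
  constructor
  · intro h
    let B : Subalgebra k K :=
      { carrier := {r | r ∈ RRm z c}
        mul_mem' := fun ha hb => RRm_mul z ha hb
        add_mem' := fun ha hb => Submodule.add_mem _ ha hb
        algebraMap_mem' := fun r => by
          change algebraMap k K r ∈ RRm z c
          rw [Algebra.algebraMap_eq_smul_one]
          exact Submodule.smul_mem _ r (RRm_one z c) }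
    have h1 : (LSys.ofAlg z H).RR c ≤ B.map (Algebra.lsmul k k H : K →ₐ[k] Module.End k H) := by
      refine iSup_le fun i => ?_
      rintro _ ⟨b, hb, rfl⟩
      exact ⟨z i b, mem_RRm z c i hb, rfl⟩
    obtain ⟨r, hr, hr2⟩ := h1 h
    exact ⟨r, hr, hr2.symm⟩
  · rintro ⟨r, hr, rfl⟩
    have h1 := LFG.RRm_le z c (((LSys.ofAlg z H).RR c).comap
      (Algebra.lsmul k k H : K →ₐ[k] Module.End k H)) (fun i b hb => by
        change (LSys.ofAlg z H).act i b ∈ (LSys.ofAlg z H).RR c
        exact (le_iSup (fun i => (BB D (c i)).map ((LSys.ofAlg z H).act i)) i) ⟨b, hb, rfl⟩)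
    exact h1 hr

/-- A lattice is stable under `RRm`. -/
theorem LFG.smul (N : Lat (LSys.ofAlg z H)) (c : ι → Fin 3) {r : K} (hr : r ∈ RRm z c)
    {m : H} (hm : m ∈ N.NK c) : r • m ∈ N.NK c :=
  LFG.RRm_le z c (LFG.stab z H N c) (fun i b hb m hm => N.smul c i b hb m hm) hr m hm

/-- A finite set of the system of an algebra, as a set of elements of the module. -/
def LFG.cs (S : Finset (LSys.ofAlg z H).H) : Set H := (S : Set (LSys.ofAlg z H).H)

theorem LFG.smul_span (c : ι → Fin 3) (S : Set H) {r : K} (hr : r ∈ RRm z c) {m : H}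
    (hm : m ∈ RRm z c • Submodule.span k S) : r • m ∈ RRm z c • Submodule.span k S := by
  refine Submodule.smul_induction_on (p := fun m => r • m ∈ RRm z c • Submodule.span k S) hm
    (fun a ha n hn => ?_) (fun x y hx hy => ?_)
  · rw [smul_smul]
    exact Submodule.smul_mem_smul (RRm_mul z hr ha) hn
  · rw [smul_add]
    exact Submodule.add_mem _ hx hy

theorem LFG.mem_of (c : ι → Fin 3) (S : Set H) {x : H} (hx : x ∈ S) :
    x ∈ RRm z c • Submodule.span k S := by
  have h1 : (1 : K) • x ∈ RRm z c • Submodule.span k S :=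
    Submodule.smul_mem_smul (RRm_one z c) (Submodule.subset_span hx)
  rwa [one_smul] at h1

theorem LFG.exists_of_mem (c : ι → Fin 3) (φ : (LSys.ofAlg z H).RR c) :
    ∃ r ∈ RRm z c, ∀ m : H, φ.1 m = r • m := by
  have h := mem_RR_ofAlg z H c
  obtain ⟨r, hr, e⟩ := (h φ.1).1 φ.2
  exact ⟨r, hr, fun m => LinearMap.congr_fun e m⟩

theorem LFG.mem_act (c : ι → Fin 3) (S : Set H) (φ : (LSys.ofAlg z H).RR c) (x : H)
    (hx : x ∈ RRm z c • Submodule.span k S) : φ.1 x ∈ RRm z c • Submodule.span k S := by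
  obtain ⟨r, hr, h1⟩ := LFG.exists_of_mem z H c φ
  have h2 := LFG.smul_span z H c S hr hx
  have h3 := h1 x
  exact h3 ▸ h2

theorem LFG.mem_span1 (c : ι → Fin 3) (S : Finset (LSys.ofAlg z H).H) (m : (LSys.ofAlg z H).H)
    (h : m ∈ Submodule.span ((LSys.ofAlg z H).RR c) (S : Set (LSys.ofAlg z H).H)) :
    (m : H) ∈ RRm z c • Submodule.span k (LFG.cs z H S) := by
  refine Submodule.span_induction (M := (LSys.ofAlg z H).H) (R := (LSys.ofAlg z H).RR c)
    (p := fun m _ => (m : H) ∈ (RRm z c • Submodule.span k (LFG.cs z H S) : Submodule k H))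
    ?_ ?_ ?_ ?_ h
  · intro x hx
    exact LFG.mem_of z H c (LFG.cs z H S) hx
  · exact (RRm z c • Submodule.span k (LFG.cs z H S)).zero_mem
  · intro x y _ _ hx hy
    exact (RRm z c • Submodule.span k (LFG.cs z H S)).add_mem hx hy
  · intro φ x _ hx
    exact LFG.mem_act z H c _ φ x hx

theorem LFG.mem_span2 (c : ι → Fin 3) (S : Finset (LSys.ofAlg z H).H) (m : H)
    (h : m ∈ RRm z c • Submodule.span k (LFG.cs z H S)) :
    (m : (LSys.ofAlg z H).H) ∈
      Submodule.span ((LSys.ofAlg z H).RR c) (S : Set (LSys.ofAlg z H).H) := by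
  have h0 : ∀ n ∈ Submodule.span k (LFG.cs z H S), (n : (LSys.ofAlg z H).H) ∈
      Submodule.span ((LSys.ofAlg z H).RR c) (S : Set (LSys.ofAlg z H).H) := by
    intro n hn
    refine Submodule.span_induction (p := fun (n : H) _ => (n : (LSys.ofAlg z H).H) ∈
      Submodule.span ((LSys.ofAlg z H).RR c) (S : Set (LSys.ofAlg z H).H)) ?_ ?_ ?_ ?_ hn
    · intro x hx
      exact Submodule.subset_span hx
    · exact (Submodule.span ((LSys.ofAlg z H).RR c) (S : Set (LSys.ofAlg z H).H)).zero_mem
    · intro x y _ _ hx hy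
      exact (Submodule.span ((LSys.ofAlg z H).RR c) (S : Set (LSys.ofAlg z H).H)).add_mem hx hy
    · intro a x _ hx
      exact (Submodule.span ((LSys.ofAlg z H).RR c) (S : Set (LSys.ofAlg z H).H)).smul_mem
        (algebraMap k ((LSys.ofAlg z H).RR c) a) hx
  refine Submodule.smul_induction_on (p := fun (m : H) => (m : (LSys.ofAlg z H).H) ∈
      Submodule.span ((LSys.ofAlg z H).RR c) (S : Set (LSys.ofAlg z H).H)) h
      (fun r hr n hn => ?_) (fun x y hx hy => ?_)
  · have h1 := mem_RR_ofAlg z H c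
    exact (Submodule.span ((LSys.ofAlg z H).RR c) (S : Set (LSys.ofAlg z H).H)).smul_mem
      (⟨Algebra.lsmul k k H r, (h1 _).2 ⟨r, hr, rfl⟩⟩ : (LSys.ofAlg z H).RR c) (h0 n hn)
  · exact (Submodule.span ((LSys.ofAlg z H).RR c) (S : Set (LSys.ofAlg z H).H)).add_mem hx hy

/-- Finite generation, for the systems of an algebra. -/
theorem FG_iff (N : Lat (LSys.ofAlg z H)) : N.FG ↔ ∀ c, ∃ S : Finset H,
    N.NK c = RRm z c • Submodule.span k (S : Set H) := by
  constructor
  · intro h c
    obtain ⟨S, hS, hm⟩ := h c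
    have hS' : LFG.cs z H S ⊆ (N.NK c : Set H) := hS
    have h1 : N.NK c = RRm z c • Submodule.span k (LFG.cs z H S) := by
      refine le_antisymm (fun m hm' => LFG.mem_span1 z H c S m (hm m hm')) ?_
      have h1 : Submodule.span k (LFG.cs z H S) ≤ N.NK c := Submodule.span_le.2 hS'
      exact Submodule.smul_le.2 fun r hr n hn => LFG.smul z H N c hr (h1 hn)
    exact ⟨S, h1⟩
  · intro h c
    obtain ⟨S, hS⟩ := h c
    have key : ∀ T : Finset (LSys.ofAlg z H).H,
        N.NK c = RRm z c • Submodule.span k (LFG.cs z H T) → (∀ s ∈ T, s ∈ N.N c) ∧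
        ∀ m ∈ N.N c, m ∈ Submodule.span ((LSys.ofAlg z H).RR c) (T : Set (LSys.ofAlg z H).H) := by
      intro T hT
      refine ⟨fun s hs => ?_, fun m hm => LFG.mem_span2 z H c T m ?_⟩
      · have h1 := LFG.mem_of z H c (LFG.cs z H T) (x := s) hs
        rw [← hT] at h1
        exact h1
      · rw [← hT]
        exact hm
    exact ⟨S, key S hS⟩

theorem spanL_fg (S : Finset H) : (spanL z H S).FG :=
  (FG_iff z H _).2 fun _ => ⟨S, rfl⟩

/-- A lattice is stable under `RRm`. -/
theorem Lat.RRm_smul (N : Lat (LSys.ofAlg z H)) (c : ι → Fin 3) {r : K} (hr : r ∈ RRm z c)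
    {m : H} (hm : m ∈ N.NK c) : r • m ∈ N.NK c :=
  LFG.smul z H N c hr hm

end Pool.Agent.MP_6e5bed_ag_KC
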