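import Pool.Agent.Lib.MP_6e5bed_ag_KC.LChi

set_option autoImplicit false
set_option linter.unusedSectionVars false

/-!
# Project KC: the additive function on ideals
-/

noncomputable section

namespace Pool.Agent.MP_6e5bed_ag_KC

open RatFunc
open Pool.Agent.MP_6e5bed_ag_NC
open scoped TensorProduct

universe u v

variable {k : Type u} [Field k] {D : FExt k} {ι : Type} [DecidableEq ι] [Fintype ι]
  {P : Ideal (A1 D)} {hP : (⟨(tt D)⁻¹, tt_inv_mem_BB1 D⟩ : A1 D) ∈ P}
  {W : Type v} [AddCommGroup W] (Φ : LatFun D ι P hP W)
  {K : Type u} [Field K] [Algebra k K] (z : ι → D.L →ₐ[k] K)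
  (R : Type u) [CommRing R] [Algebra k R] [Algebra R K] [IsScalarTower k R K]

/-- For a domain `R` contained in the field `K` and an ideal `I` of `R` the map `K ⊗ I → K` is
injective (`K` is flat over `R`: it is free over the fraction field of `R`). -/
theorem flat_of_injective {R K : Type u} [CommRing R] [IsDomain R] [Field K] [Algebra R K]
    (h : Function.Injective (algebraMap R K)) : Module.Flat R K := by
  have : FaithfulSMul R K := (faithfulSMul_iff_algebraMap_injective R K).2 h
  let _ : Algebra (FractionRing R) K := FractionRing.liftAlgebra R K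
  have : IsScalarTower R (FractionRing R) K := FractionRing.isScalarTower_liftAlgebra R K
  have : Module.Flat R (FractionRing R) := IsLocalization.flat (FractionRing R) (nonZeroDivisors R)
  exact Module.Flat.trans R (FractionRing R) K

namespace LIdl

/-- The map `K ⊗ I → K`. -/
def mp {K : Type u} [Field K] {R : Type u} [CommRing R] [Algebra R K] (I : Ideal R) :
    K ⊗[R] I →ₗ[K] K :=
  (TensorProduct.AlgebraTensorModule.rid R K K).toLinearMap ∘ₗ
    TensorProduct.AlgebraTensorModule.lTensor K K (Submodule.subtype I)

theorem mp_tmul {K : Type u} [Field K] {R : Type u} [CommRing R] [Algebra R K] (I : Ideal R)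
    (s : I) : mp I ((1 : K) ⊗ₜ[R] s) = algebraMap R K s := by
  change (s : R) • (1 : K) = _
  rw [Algebra.algebraMap_eq_smul_one]

theorem mp_inj {K : Type u} [Field K] {R : Type u} [CommRing R] [Algebra R K]
    [Module.Flat R K] (I : Ideal R) : Function.Injective (mp (K := K) I) := by
  have h1 : Function.Injective (LinearMap.lTensor K (Submodule.subtype I)) :=
    Module.Flat.lTensor_preserves_injective_linearMap _ (Submodule.subtype_injective I)
  exact (TensorProduct.AlgebraTensorModule.rid R K K).injective.comp h1

end LIdl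

/-- The value on an ideal `I`: `LatFun.iso` for the injective map `K ⊗ I → K`, `c ⊗ a ↦ c a`. -/
theorem LatFun.chi_ideal [IsDomain R] (h : Function.Injective (algebraMap R K))
    (hR : RSat P z R) (I : Ideal R) [Module.Finite R I] [Module.Projective R I] (S : Finset R)
    (hS : Ideal.span (S : Set R) = I) (S' : Finset K)
    (hS' : (S' : Set K) = algebraMap R K '' (S : Set R)) :
    (Φ.chi z R hR).f I = Φ.val (spanL z K S') := by
  classical
  have hflat : Module.Flat R K := flat_of_injective h
  have hSI : ∀ s ∈ S, s ∈ I := fun s hs => by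
    rw [← hS]
    exact Ideal.subset_span hs
  set T : Finset I := S.attach.image fun s => ⟨s.1, hSI s.1 s.2⟩ with hT
  have hTS : (Submodule.subtype I) '' (T : Set I) = (S : Set R) := by
    ext x
    rw [hT, Finset.coe_image]
    constructor
    · rintro ⟨_, ⟨s, _, rfl⟩, rfl⟩
      exact s.2
    · intro hx
      exact ⟨⟨x, hSI x hx⟩, ⟨⟨x, hx⟩, Finset.mem_coe.2 (Finset.mem_attach _ _), rfl⟩, rfl⟩
  have hspan : Submodule.span R (T : Set I) = ⊤ := by
    refine Submodule.map_injective_of_injective (Submodule.subtype_injective I) ?_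
    rw [Submodule.map_span, hTS, Submodule.map_top, Submodule.range_subtype]
    exact hS
  rw [Φ.chi_eq z R hR I T hspan]
  refine LChi.val_map Φ z (LIdl.mp I) (LIdl.mp_inj I) _ _ ?_
  rw [LChi.coe_tgen, hS', ← hTS, Set.image_image, Set.image_image]
  exact Set.image_congr fun s _ => (LIdl.mp_tmul I s).symm

end Pool.Agent.MP_6e5bed_ag_KC
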