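import Pool.Agent.Lib.MP_6e5bed_ag_KC.VInv

set_option autoImplicit false

/-!
# KC, commutative side: locally principal ideals
-/

namespace Pool.Agent.MP_6e5bed_ag_KC

open scoped TensorProduct

universe u v

variable {R : Type u} [CommRing R] [IsDomain R]

/-- A finitely generated ideal `I ≠ 0` of a domain which is principal at every maximal ideal `𝔪`
(`s I ⊆ (ν)`, `ν ∈ I`, `s ∉ 𝔪`) is invertible.

Proof. `0 ≠ a ∈ I`, `J = {x : x I ⊆ (a)}`. Then `I J ⊆ (a)`. If `a ∉ I J`, the ideal
`{r : r a ∈ I J}` is in some maximal `𝔪`. With `s, ν` for `𝔪`: `s a = ν w`, so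
`s w I ⊆ w (ν) = (s a) ⊆ (a)`, `s w ∈ J`, `ν s w = s² a ∈ I J`, `s² ∉ 𝔪`, contradiction. -/
theorem inv_of_local {I : Ideal R} (hI : I ≠ ⊥)
    (h : ∀ m : Ideal R, m.IsMaximal → ∃ s ∉ m, ∃ ν ∈ I, ∀ x ∈ I, s * x ∈ Ideal.span {ν}) :
    Inv I := by
  obtain ⟨a, haI, ha⟩ := Submodule.exists_mem_ne_zero_of_ne_bot hI
  let J : Ideal R :=
    { carrier := {x | ∀ y ∈ I, x * y ∈ Ideal.span {a}}
      add_mem' := fun {x x'} hx hx' y hy => by
        rw [add_mul]
        exact add_mem (hx y hy) (hx' y hy)
      zero_mem' := fun y _ => by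
        rw [zero_mul]
        exact zero_mem _
      smul_mem' := fun c x hx y hy => by
        rw [smul_eq_mul, mul_assoc]
        exact Ideal.mul_mem_left _ c (hx y hy) }
  refine ⟨J, a, ha, le_antisymm ?_ ?_⟩
  · refine Ideal.mul_le.2 fun r hr s hs => ?_
    rw [mul_comm]
    exact hs r hr
  · rw [Ideal.span_singleton_le_iff_mem]
    by_contra hcon
    let K : Ideal R :=
      { carrier := {r | r * a ∈ I * J}
        add_mem' := fun {x x'} hx hx' => by
          have h1 : (x + x') * a = x * a + x' * a := add_mul _ _ _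
          change (x + x') * a ∈ I * J
          rw [h1]
          exact add_mem hx hx'
        zero_mem' := by
          change (0 : R) * a ∈ I * J
          rw [zero_mul]
          exact zero_mem _
        smul_mem' := fun c x hx => by
          change (c * x) * a ∈ I * J
          rw [mul_assoc]
          exact Ideal.mul_mem_left _ c hx }
    have hK : K ≠ ⊤ := by
      intro hK
      have h1 : (1 : R) ∈ K := by
        rw [hK]
        exact Submodule.mem_top
      have h2 : (1 : R) * a ∈ I * J := h1
      rw [one_mul] at h2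
      exact hcon h2
    obtain ⟨m, hm, hKm⟩ := Ideal.exists_le_maximal K hK
    obtain ⟨s, hs, ν, hν, hx⟩ := h m hm
    obtain ⟨w, hw⟩ := Ideal.mem_span_singleton'.1 (hx a haI)
    have h1 : s * w ∈ J := by
      intro y hy
      obtain ⟨c, hc⟩ := Ideal.mem_span_singleton'.1 (hx y hy)
      have h2 : s * w * y = c * s * a := by
        calc s * w * y = w * (s * y) := by ring
          _ = w * (c * ν) := by rw [hc]
          _ = c * (w * ν) := by ring
          _ = c * (s * a) := by rw [hw]
          _ = c * s * a := by ring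
      rw [h2]
      exact Ideal.mul_mem_left _ _ (Ideal.mem_span_singleton_self a)
    have h3 : s * s ∈ K := by
      change s * s * a ∈ I * J
      have h4 : s * s * a = ν * (s * w) := by
        calc s * s * a = s * (s * a) := by ring
          _ = s * (w * ν) := by rw [hw]
          _ = ν * (s * w) := by ring
      rw [h4]
      exact Ideal.mul_mem_mul hν h1
    rcases hm.isPrime.mem_or_mem (hKm h3) with h4 | h4
    · exact hs h4
    · exact hs h4

/-- An invertible ideal `N` and `σ ∈ N`: there is an ideal `b` with `b N = (σ)`.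
(`N J = (a)`, `σ J ⊆ (a)`, `b = {x : x a ∈ σ J}`: `b (a) = σ J`, `b N (a) = σ J N = (σ) (a)`.) -/
theorem Inv.colon {N : Ideal R} (hN : Inv N) {σ : R} (h : σ ∈ N) :
    ∃ b : Ideal R, b * N = Ideal.span {σ} := by
  obtain ⟨J, a, ha, hJ⟩ := hN
  let b : Ideal R :=
    { carrier := {x | x * a ∈ Ideal.span {σ} * J}
      add_mem' := fun {x x'} hx hx' => by
        change (x + x') * a ∈ Ideal.span {σ} * J
        rw [add_mul]
        exact add_mem hx hx'
      zero_mem' := by
        change (0 : R) * a ∈ Ideal.span {σ} * J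
        rw [zero_mul]
        exact zero_mem _
      smul_mem' := fun c x hx => by
        change (c * x) * a ∈ Ideal.span {σ} * J
        rw [mul_assoc]
        exact Ideal.mul_mem_left _ c hx }
  have h1 : b * Ideal.span {a} = Ideal.span {σ} * J := by
    apply le_antisymm
    · refine Ideal.mul_le.2 fun x hx y hy => ?_
      obtain ⟨c, rfl⟩ := Ideal.mem_span_singleton'.1 hy
      have h2 : x * (c * a) = c * (x * a) := by ring
      rw [h2]
      exact Ideal.mul_mem_left _ c hx
    · intro z hz
      have h2 : Ideal.span {σ} * J ≤ Ideal.span {a} := by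
        rw [← hJ]
        exact Ideal.mul_mono_left (by rwa [Ideal.span_singleton_le_iff_mem])
      obtain ⟨w, rfl⟩ := Ideal.mem_span_singleton'.1 (h2 hz)
      exact Ideal.mul_mem_mul hz (Ideal.mem_span_singleton_self a)
  refine ⟨b, ?_⟩
  apply (Ideal.span_singleton_mul_right_inj ha).1
  calc Ideal.span {a} * (b * N) = (b * Ideal.span {a}) * N := by ring
    _ = (Ideal.span {σ} * J) * N := by rw [h1]
    _ = Ideal.span {σ} * (N * J) := by ring
    _ = Ideal.span {σ} * Ideal.span {a} := by rw [hJ]
    _ = Ideal.span {a} * Ideal.span {σ} := by ring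

end Pool.Agent.MP_6e5bed_ag_KC
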