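import Pool.Agent.Lib.MP_6e5bed_ag_KC.VMap
import Pool.Agent.Lib.MP_6e5bed_ag_KC.VLp

set_option autoImplicit false

/-!
# KC, commutative side: the ideals of coincidence are invertible
-/

namespace Pool.Agent.MP_6e5bed_ag_KC

open scoped TensorProduct

universe u v

variable {k : Type u} [Field k] (C : PtCurve k)

/-- The ideal `coin x y` of two different points with values in a domain of finite type is
invertible: `inv_of_local`; at a maximal ideal, `map_coin` to the local ring and
`coin_principal`, `gI_step`; `coin x y` is finitely generated (`coin_gens`), so there is a common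
denominator `s`. It is not zero because `x ≠ y` (`coin_eq`). -/
theorem PtCurve.coin_inv [IsAlgClosed k] {R : Type u} [CommRing R] [IsDomain R] [Algebra k R]
    [Algebra.FiniteType k R] {x y : C.Pt R} (h : x ≠ y) : Inv (C.coin x y) := by
  classical
  refine inv_of_local ?_ fun m hm => ?_
  · intro h0
    refine h (AlgHom.ext fun b => ?_)
    have h1 : x b - y b ∈ C.coin x y := by
      rw [C.coin_eq]
      exact Ideal.subset_span ⟨b, rfl⟩
    rw [h0, Ideal.mem_bot] at h1
    exact sub_eq_zero.1 h1
  · have := hm
    obtain ⟨_, ρ, -, -⟩ := exists_res (k := k) m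
    obtain ⟨g, hg⟩ := C.gI_step ρ ((IsScalarTower.toAlgHom k R (Localization.AtPrime m)).comp y)
      ((IsScalarTower.toAlgHom k R (Localization.AtPrime m)).comp x)
    have h1 := C.coin_principal _ _ hg
    rw [← C.map_coin] at h1
    have hmem : ∀ b, x b - y b ∈ C.coin x y := by
      intro b
      rw [C.coin_eq]
      exact Ideal.subset_span ⟨b, rfl⟩
    have h2 : ∀ b : C.B, ∃ s ∉ m, s * (x b - y b) ∈ Ideal.span {y g - x g} := by
      intro b
      have h3 := Ideal.mem_map_of_mem (IsScalarTower.toAlgHom k R (Localization.AtPrime m))
        (hmem b)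
      rw [h1, Ideal.mem_span_singleton'] at h3
      obtain ⟨t, ht⟩ := h3
      obtain ⟨⟨r, s⟩, hrs⟩ := IsLocalization.surj m.primeCompl t
      refine ⟨s, s.2, Ideal.mem_span_singleton'.2 ⟨r, ?_⟩⟩
      apply IsLocalization.injective (Localization.AtPrime m) m.primeCompl_le_nonZeroDivisors
      have h4 : t * algebraMap R (Localization.AtPrime m) (y g - x g) =
          algebraMap R (Localization.AtPrime m) (x b - y b) := by
        rw [map_sub]
        exact ht
      have h5 : t * algebraMap R (Localization.AtPrime m) s =
          algebraMap R (Localization.AtPrime m) r := hrs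
      rw [map_mul, map_mul, ← h4, ← h5]
      ring
    obtain ⟨K, b, hb⟩ := C.coin_gens
    choose s hs hsm using h2
    refine ⟨∏ l, s (b l), ?_, y g - x g, ?_, fun r hr => ?_⟩
    · intro h3
      obtain ⟨l, -, hl⟩ := (Ideal.IsPrime.prod_mem_iff (hp := hm.isPrime)).1 h3
      exact hs (b l) hl
    · have h3 : y g - x g = -(x g - y g) := by ring
      rw [h3]
      exact neg_mem (hmem g)
    · rw [hb R x y] at hr
      induction hr using Submodule.span_induction with
      | mem z hz =>
        obtain ⟨l, rfl⟩ := hz
        rw [← Finset.prod_erase_mul Finset.univ _ (Finset.mem_univ l), mul_assoc]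
        exact Ideal.mul_mem_left _ _ (hsm (b l))
      | zero =>
        rw [mul_zero]
        exact zero_mem _
      | add z w _ _ hz hw =>
        rw [mul_add]
        exact add_mem hz hw
      | smul c z _ hz =>
        rw [smul_eq_mul, mul_left_comm]
        exact Ideal.mul_mem_left _ _ hz

end Pool.Agent.MP_6e5bed_ag_KC
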