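import Pool.Agent.Lib.MP_6e5bed_ag_KC.VPt

set_option autoImplicit false

/-!
# KC, commutative side: products of maximal ideals, existence of points
-/

namespace Pool.Agent.MP_6e5bed_ag_KC

open scoped TensorProduct

universe u v

variable {k : Type u} [Field k] (C : PtCurve k)

namespace VPtC

/-- There are nonconstant functions. -/
theorem exists_nonconst (C : PtCurve k) : ∃ f : C.B, ∀ c : k, algebraMap k C.B c ≠ f := by
  by_contra hcon
  push Not at hcon
  have h1 : C.F (C.j₀ + C.g.toNat + 1) ≤ LinearMap.range (Algebra.linearMap k C.B) := by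
    intro b _
    obtain ⟨c, hc⟩ := hcon b
    exact ⟨c, hc⟩
  have h2 : Module.finrank k (C.F (C.j₀ + C.g.toNat + 1)) ≤
      Module.finrank k (LinearMap.range (Algebra.linearMap k C.B)) :=
    Submodule.finrank_mono h1
  have h3 : Module.finrank k (LinearMap.range (Algebra.linearMap k C.B)) ≤ 1 := by
    refine (LinearMap.finrank_range_le _).trans ?_
    rw [Module.finrank_self]
  have h4 := C.finrank (C.j₀ + C.g.toNat + 1) (by omega)
  have h5 : C.g ≤ C.g.toNat := Int.self_le_toNat _
  push_cast at h4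
  omega

theorem mI_ne_bot (C : PtCurve k) (p : C.Pt k) : C.mI p ≠ ⊥ := by
  intro h
  obtain ⟨f, hf⟩ := exists_nonconst C
  have h1 : f - algebraMap k C.B (p f) ∈ C.mI p := by
    show p (f - algebraMap k C.B (p f)) = 0
    rw [map_sub, AlgHom.commutes]
    exact sub_self _
  rw [h, Ideal.mem_bot] at h1
  exact hf (p f) (sub_eq_zero.1 h1).symm

/-- One more point. -/
theorem step (C : PtCurve k) {a : Ideal C.B} (ha : a ≠ ⊥) (p : C.Pt k) (n : ℕ)
    (h1 : Module.Finite k (C.B ⧸ a)) (h2 : Module.finrank k (C.B ⧸ a) = n) :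
    Module.Finite k (C.B ⧸ a * C.mI p) ∧ Module.finrank k (C.B ⧸ a * C.mI p) = n + 1 := by
  obtain ⟨hne, f₀, hf₀, hl⟩ := C.line ha p
  obtain ⟨φ, hφ⟩ : ∃ φ : (C.B ⧸ a * C.mI p) →ₗ[k] (C.B ⧸ a),
      ∀ f : C.B, φ (Ideal.Quotient.mk _ f) = Ideal.Quotient.mk _ f :=
    ⟨(Ideal.Quotient.factorₐ k (Ideal.mul_le_left : a * C.mI p ≤ a)).toLinearMap,
      fun f => rfl⟩
  have hsurj : Function.Surjective φ := by
    intro x
    obtain ⟨f, rfl⟩ := Ideal.Quotient.mk_surjective x
    exact ⟨_, hφ f⟩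
  have hsm : ∀ c : k, (Ideal.Quotient.mk (a * C.mI p) (c • f₀)) =
      c • Ideal.Quotient.mk (a * C.mI p) f₀ := fun c => rfl
  have hker : LinearMap.ker φ = Submodule.span k {Ideal.Quotient.mk (a * C.mI p) f₀} := by
    apply le_antisymm
    · intro x hx
      obtain ⟨f, rfl⟩ := Ideal.Quotient.mk_surjective x
      have h3 : φ (Ideal.Quotient.mk _ f) = 0 := hx
      rw [hφ, Ideal.Quotient.eq_zero_iff_mem] at h3
      obtain ⟨c, hc⟩ := hl f h3
      have h4 : Ideal.Quotient.mk (a * C.mI p) f = c • Ideal.Quotient.mk (a * C.mI p) f₀ := by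
        rw [← hsm]
        exact Ideal.Quotient.eq.2 hc
      rw [h4]
      exact Submodule.smul_mem _ _ (Submodule.mem_span_singleton_self _)
    · rw [Submodule.span_singleton_le_iff_mem]
      show φ (Ideal.Quotient.mk _ f₀) = 0
      rw [hφ]
      exact Ideal.Quotient.eq_zero_iff_mem.2 hf₀
  have hv : Ideal.Quotient.mk (a * C.mI p) f₀ ≠ 0 := by
    intro h
    rw [Ideal.Quotient.eq_zero_iff_mem] at h
    refine hne (le_antisymm Ideal.mul_le_left fun f hf => ?_)
    obtain ⟨c, hc⟩ := hl f hf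
    have h3 : c • f₀ ∈ a * C.mI p := by
      rw [Algebra.smul_def]
      exact Ideal.mul_mem_left _ _ h
    have h4 := Ideal.add_mem _ hc h3
    rwa [sub_add_cancel] at h4
  have hK : Module.Finite k (LinearMap.ker φ) := by
    rw [hker]
    infer_instance
  have hQ : Module.Finite k ((C.B ⧸ a * C.mI p) ⧸ LinearMap.ker φ) :=
    Module.Finite.equiv (φ.quotKerEquivOfSurjective hsurj).symm
  have hF : Module.Finite k (C.B ⧸ a * C.mI p) :=
    Module.Finite.of_submodule_quotient (LinearMap.ker φ)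
  refine ⟨hF, ?_⟩
  have h5 := LinearMap.finrank_range_add_finrank_ker φ
  rw [LinearMap.range_eq_top.2 hsurj, finrank_top, h2, hker, finrank_span_singleton hv] at h5
  exact h5.symm

theorem prod_ne_bot (C : PtCurve k) {ι : Type} (s : Finset ι) (p : ι → C.Pt k) :
    ∏ i ∈ s, C.mI (p i) ≠ ⊥ := by
  have h := Finset.prod_ne_zero_iff.2 fun i (_ : i ∈ s) => (show C.mI (p i) ≠ 0 from
    mI_ne_bot C (p i))
  exact h

/-- The point with `f = c`. -/
theorem exists_pt [IsAlgClosed k] (C : PtCurve k) (f : C.B)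
    (hf : ∀ c : k, algebraMap k C.B c ≠ f) (c : k) : ∃ p : C.Pt k, p f = c := by
  have hun : ¬ IsUnit (f - algebraMap k C.B c) := by
    intro h
    obtain ⟨u, hu⟩ := h.exists_right_inv
    have h1 : f - algebraMap k C.B c ∉ C.F 0 := by
      intro h2
      obtain ⟨c', hc'⟩ := (C.mem_zero _).1 h2
      exact hf (c' + c) (by rw [map_add, hc', sub_add_cancel])
    by_cases h3 : u ∈ C.F 0
    · obtain ⟨c', hc'⟩ := (C.mem_zero _).1 h3
      have hc0 : c' ≠ 0 := by
        rintro rfl
        rw [map_zero] at hc'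
        rw [← hc', mul_zero] at hu
        exact zero_ne_one hu
      refine hf (c'⁻¹ + c) ?_
      have h4 : f - algebraMap k C.B c = algebraMap k C.B c'⁻¹ := by
        calc f - algebraMap k C.B c
            = (f - algebraMap k C.B c) * (algebraMap k C.B c' * algebraMap k C.B c'⁻¹) := by
              rw [← map_mul, mul_inv_cancel₀ hc0, map_one, mul_one]
          _ = ((f - algebraMap k C.B c) * u) * algebraMap k C.B c'⁻¹ := by
              rw [hc', mul_assoc]
          _ = _ := by rw [hu, one_mul]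
      rw [map_add, ← h4, sub_add_cancel]
    · have h4 := C.ord_mul h1 h3
      rw [hu] at h4
      exact h4 (C.mono (Nat.zero_le _) ((C.mem_zero 1).2 ⟨1, map_one _⟩))
  obtain ⟨m, hm, hmem⟩ := exists_max_ideal_of_mem_nonunits (mem_nonunits_iff.2 hun)
  let _ : Field (C.B ⧸ m) := Ideal.Quotient.field m
  have hfin : Module.Finite k (C.B ⧸ m) := finite_of_finite_type_of_isJacobsonRing k (C.B ⧸ m)
  have hbij : Function.Bijective (algebraMap k (C.B ⧸ m)) :=
    IsAlgClosed.algebraMap_bijective_of_isIntegral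
  obtain ⟨e, he⟩ : ∃ e : k ≃ₐ[k] (C.B ⧸ m), ∀ x, e x = algebraMap k (C.B ⧸ m) x :=
    ⟨AlgEquiv.ofBijective (Algebra.ofId k (C.B ⧸ m)) hbij, fun x => rfl⟩
  refine ⟨(e.symm : (C.B ⧸ m) →ₐ[k] k).comp (Ideal.Quotient.mkₐ k m), ?_⟩
  show e.symm (Ideal.Quotient.mk m f) = c
  rw [AlgEquiv.symm_apply_eq, he]
  show Ideal.Quotient.mk m f = Ideal.Quotient.mk m (algebraMap k C.B c)
  exact Ideal.Quotient.eq.2 hmem

end VPtC

/-- The colength of a product of `n` maximal ideals is `n` (`line`, and `B = k + m_p`). -/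
theorem PtCurve.colength (n : ℕ) (p : Fin n → C.Pt k) :
    Module.Finite k (C.B ⧸ ∏ i, C.mI (p i)) ∧
      Module.finrank k (C.B ⧸ ∏ i, C.mI (p i)) = n := by
  induction n with
  | zero =>
    have h1 : ∏ i, C.mI (p i) = ⊤ := by
      rw [Finset.univ_eq_empty, Finset.prod_empty]
      exact Ideal.one_eq_top
    rw [h1]
    have h2 : Subsingleton (C.B ⧸ (⊤ : Ideal C.B)) :=
      Ideal.Quotient.subsingleton_iff.2 rfl
    exact ⟨inferInstance, Module.finrank_zero_of_subsingleton⟩
  | succ n ih =>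
    obtain ⟨h1, h2⟩ := ih fun i => p i.castSucc
    rw [Fin.prod_univ_castSucc]
    exact VPtC.step C (VPtC.prod_ne_bot C _ _) (p (Fin.last n)) n h1 h2

/-- There are infinitely many points: for `f ∈ B`, `f ∉ k`, and `c ∈ k` the element `f - c` is not a
unit (`ord_mul`, `mem_zero`), so it lies in a maximal ideal, whose residue field is `k`
(Nullstellensatz, `B` is of finite type). There are `f ∉ k` because of `finrank`. -/
theorem PtCurve.exists_pts [IsAlgClosed k] (n : ℕ) :
    ∃ c : Fin n → C.Pt k, Function.Injective c := by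
  obtain ⟨f, hf⟩ := VPtC.exists_nonconst C
  choose P hP using VPtC.exists_pt C f hf
  refine ⟨fun i => P (Infinite.natEmbedding k i), fun i j hij => ?_⟩
  have h1 : P (Infinite.natEmbedding k i) = P (Infinite.natEmbedding k j) := hij
  have h2 : Infinite.natEmbedding k i = Infinite.natEmbedding k j := by
    rw [← hP (Infinite.natEmbedding k i), h1, hP]
  exact Fin.ext ((Infinite.natEmbedding k).injective h2)

end Pool.Agent.MP_6e5bed_ag_KC
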