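import Pool.Agent.Lib.MP_6e5bed_ag_KC.LDiag
import Pool.Agent.Lib.MP_6e5bed_ag_KC.VCoin
import Pool.Agent.Lib.MP_6e5bed_ag_KC.VDom
import Pool.Agent.Lib.MP_6e5bed_ag_KC.VPtC

set_option autoImplicit false
set_option linter.unusedSectionVars false

/-!
# Project KC: functions which vanish of order `j` at the diagonal
-/

noncomputable section

namespace Pool.Agent.MP_6e5bed_ag_KC

open RatFunc
open Pool.Agent.MP_6e5bed_ag_NC
open scoped TensorProduct

universe u

theorem LSym.inv_pow {A : Type u} [CommRing A] [IsDomain A] {I : Ideal A} (hI : Inv I) (j : ℕ) :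
    Inv (I ^ j) := by
  induction j with
  | zero =>
    rw [pow_zero, Ideal.one_eq_top]
    exact Inv.top
  | succ j ih =>
    rw [pow_succ]
    exact ih.mul hI

/-- The powers of an invertible prime ideal are primary. Induction on `i ≤ j`: `x ∈ I ^ i`. Let
`I ^ i J = (a)` (`Inv`, powers). For `y ∈ J` one has `x y = a c`, `s x y ∈ I ^ (i + 1) J = a I`, so
`s c ∈ I`, `c ∈ I`; hence `x J ⊆ a I = I ^ (i + 1) J`, and multiplication by `I ^ i` and
cancellation of `a` give `x ∈ I ^ (i + 1)`. -/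
theorem inv_pow_primary {A : Type u} [CommRing A] [IsDomain A] {I : Ideal A} (hI : Inv I)
    (hp : I.IsPrime) {s x : A} (hs : s ∉ I) (j : ℕ) (h : s * x ∈ I ^ j) : x ∈ I ^ j := by
  induction j with
  | zero =>
    rw [pow_zero, Ideal.one_eq_top]
    exact Submodule.mem_top
  | succ j ih =>
    have hx : x ∈ I ^ j := ih (Ideal.pow_le_pow_right (Nat.le_succ j) h)
    obtain ⟨J, a, ha, hJ⟩ := LSym.inv_pow hI j
    have h1 : Ideal.span {x} * J ≤ Ideal.span {a} * I := by
      rw [Ideal.span_singleton_mul_le_iff]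
      intro y hy
      have h2 : x * y ∈ Ideal.span {a} := by
        rw [← hJ]
        exact Ideal.mul_mem_mul hx hy
      obtain ⟨c, hc⟩ := Ideal.mem_span_singleton'.1 h2
      have h3 : s * x * y ∈ Ideal.span {a} * I := by
        rw [← hJ, mul_assoc, mul_comm J I, ← mul_assoc, ← pow_succ]
        exact Ideal.mul_mem_mul h hy
      obtain ⟨c', hc', hc2⟩ := Ideal.mem_span_singleton_mul.1 h3
      have h4 : s * c = c' := by
        apply mul_left_cancel₀ ha
        rw [hc2]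
        calc a * (s * c) = s * (c * a) := by ring
          _ = s * x * y := by rw [hc]; ring
      have h5 : c ∈ I := (hp.mem_or_mem (by rw [h4]; exact hc')).resolve_left hs
      rw [← hc, mul_comm c a]
      exact Ideal.mul_mem_mul (Ideal.mem_span_singleton_self a) h5
    have h6 : Ideal.span {x} * Ideal.span {a} ≤ Ideal.span {a} * I ^ (j + 1) := by
      calc Ideal.span {x} * Ideal.span {a} = I ^ j * (Ideal.span {x} * J) := by
            rw [← hJ]
            ring
        _ ≤ I ^ j * (Ideal.span {a} * I) := Ideal.mul_mono_right h1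
        _ = Ideal.span {a} * I ^ (j + 1) := by ring
    have h7 : x * a ∈ Ideal.span {a} * I ^ (j + 1) :=
      h6 (Ideal.mul_mem_mul (Ideal.mem_span_singleton_self x) (Ideal.mem_span_singleton_self a))
    obtain ⟨z, hz, hz2⟩ := Ideal.mem_span_singleton_mul.1 h7
    have h8 : z = x := by
      apply mul_left_cancel₀ ha
      rw [hz2, mul_comm]
    rw [← h8]
    exact hz

theorem LSym.diag_inv {k : Type u} [Field k] [IsAlgClosed k] (C : PtCurve k) : Inv C.diag := by
  have : IsDomain (C.B ⊗[k] C.B) := tensor_domain C.B C.B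
  have : Algebra.FiniteType k (C.B ⊗[k] C.B) :=
    Algebra.FiniteType.trans (S := C.B) inferInstance inferInstance
  have hne : (Algebra.TensorProduct.includeLeft : C.B →ₐ[k] C.B ⊗[k] C.B) ≠
      Algebra.TensorProduct.includeRight := by
    intro h
    obtain ⟨c, hc⟩ := C.exists_pts 2
    have h1 : c 0 = c 1 := by
      refine AlgHom.ext fun b => ?_
      have h2 := congrArg (C.pair (c 0) (c 1)) (DFunLike.congr_fun h b)
      unfold PtCurve.pair at h2
      rw [Algebra.TensorProduct.includeLeft_apply, Algebra.TensorProduct.includeRight_apply,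
        Algebra.TensorProduct.lift_tmul, Algebra.TensorProduct.lift_tmul, map_one, map_one,
        mul_one, one_mul] at h2
      exact h2
    exact absurd (hc h1) (by decide)
  have h1 := C.coin_inv hne
  have h2 : C.coin (Algebra.TensorProduct.includeLeft : C.B →ₐ[k] C.B ⊗[k] C.B)
      Algebra.TensorProduct.includeRight = C.diag := by
    have h3 : C.pair (Algebra.TensorProduct.includeLeft : C.B →ₐ[k] C.B ⊗[k] C.B)
        Algebra.TensorProduct.includeRight = AlgHom.id k _ := by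
      refine Algebra.TensorProduct.ext' fun a b => ?_
      unfold PtCurve.pair
      rw [Algebra.TensorProduct.lift_tmul, Algebra.TensorProduct.includeLeft_apply,
        Algebra.TensorProduct.includeRight_apply, Algebra.TensorProduct.tmul_mul_tmul, mul_one,
        one_mul]
      rfl
    unfold PtCurve.coin
    rw [h3]
    exact Ideal.map_id _
  rw [← h2]
  exact h1

variable {k : Type u} [Field k] [IsAlgClosed k] {D : FExt k} (P : IPt D)

/-- The ideal of the diagonal of `B ⊗ B` is invertible: `coin_inv` for the two points `B → B ⊗ B`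
(which are different, as `B ≠ k`; `B ⊗ B` is a domain by `tensor_domain`). -/
theorem IPt.diag_inv : Inv (P.curve.diag) := LSym.diag_inv P.curve

/-- The ideal of the diagonal, in terms of `P.B`. -/
def LSym.dI : Ideal (P.B ⊗[k] P.B) :=
  RingHom.ker (Algebra.TensorProduct.lmul' k : P.B ⊗[k] P.B →ₐ[k] P.B)

theorem LSym.dI_inv : Inv (LSym.dI P) := P.diag_inv

theorem LSym.dom : IsDomain (P.B ⊗[k] P.B) := tensor_domain P.B P.B

theorem LSym.dI_prime : (LSym.dI P).IsPrime := by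
  have := LSym.dom P
  exact RingHom.ker_isPrime _

theorem LSym.pow_mul_mem {A : Type u} [CommRing A] (I : Ideal A) {i j : ℕ} {v w : A}
    (hv : v ∈ I ^ i) (hw : w ∈ I ^ j) : v * w ∈ I ^ (i + j) := by
  rw [pow_add]
  exact Ideal.mul_mem_mul hv hw

theorem LSym.mem_pow_zero {A : Type u} [CommRing A] (I : Ideal A) (v : A) : v ∈ I ^ 0 := by
  rw [pow_zero, Ideal.one_eq_top]
  exact Submodule.mem_top

theorem LSym.mem_pow_one {A : Type u} [CommRing A] (I : Ideal A) {v : A} (h : v ∈ I) :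
    v ∈ I ^ 1 := by
  rwa [pow_one]

theorem LSym.pow_ind {A : Type u} [CommRing A] (I : Ideal A) (p : ℕ → A → Prop)
    (h0 : ∀ v, p 0 v) (hm : ∀ j v w, v ∈ I ^ j → p j v → w ∈ I → p (j + 1) (v * w))
    (ha : ∀ j v w, p j v → p j w → p j (v + w)) (j : ℕ) {v : A} (hv : v ∈ I ^ j) : p j v := by
  induction j generalizing v with
  | zero => exact h0 v
  | succ j ih =>
    rw [pow_succ] at hv
    exact Submodule.mul_induction_on (C := fun v => p (j + 1) v) hv
      (fun x hx y hy => hm j x y hx (ih hx) hy) (fun x y hx hy => ha _ x y hx hy)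

/-- The map `B ⊗ B → L ⊗ L`. -/
def LSym.io : P.B ⊗[k] P.B →ₐ[k] D.L ⊗[k] D.L := Algebra.TensorProduct.map P.B.val P.B.val

theorem LSym.io_inj : Function.Injective (LSym.io P) :=
  TensorProduct.map_injective_of_flat_flat P.B.val.toLinearMap P.B.val.toLinearMap
    Subtype.val_injective Subtype.val_injective

theorem LSym.io_tmul (a b : P.B) : LSym.io P (a ⊗ₜ[k] b) = (a : D.L) ⊗ₜ[k] (b : D.L) := rfl

theorem LSym.mu (v : P.B ⊗[k] P.B) : muL D (LSym.io P v) =
    ((Algebra.TensorProduct.lmul' k : P.B ⊗[k] P.B →ₐ[k] P.B) v : D.L) := by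
  induction v using TensorProduct.induction_on with
  | zero => rw [map_zero, map_zero, map_zero, ZeroMemClass.coe_zero]
  | tmul x y =>
    rw [LSym.io_tmul, muL, Algebra.TensorProduct.lmul'_apply_tmul,
      Algebra.TensorProduct.lmul'_apply_tmul]
    rfl
  | add x y hx hy =>
    rw [map_add, map_add, map_add, hx, hy]
    rfl

/-- The elements of `L ⊗ L` which are in the image of `diag ^ j` up to denominators. -/
def LSym.MJ (j : ℕ) : Submodule k (D.L ⊗[k] D.L) where
  carrier := {z | ∃ h h' : P.B, h ≠ 0 ∧ h' ≠ 0 ∧ ∃ v ∈ (LSym.dI P) ^ j,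
    LSym.io P v = LSym.io P (h ⊗ₜ[k] h') * z}
  add_mem' := by
    rintro x y ⟨h, h', hh, hh', v, hv, e⟩ ⟨g, g', hg, hg', w, hw, e'⟩
    refine ⟨h * g, h' * g', mul_ne_zero hh hg, mul_ne_zero hh' hg',
      (g ⊗ₜ[k] g') * v + (h ⊗ₜ[k] h') * w,
      Ideal.add_mem _ (Ideal.mul_mem_left _ _ hv) (Ideal.mul_mem_left _ _ hw), ?_⟩
    rw [map_add, map_mul, map_mul, e, e', ← Algebra.TensorProduct.tmul_mul_tmul, map_mul]
    ring
  zero_mem' := ⟨1, 1, one_ne_zero, one_ne_zero, 0, Ideal.zero_mem _, by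
    rw [map_zero, mul_zero]⟩
  smul_mem' := by
    rintro r x ⟨h, h', hh, hh', v, hv, e⟩
    exact ⟨h, h', hh, hh', r • v, Submodule.smul_of_tower_mem _ r hv, by
      rw [map_smul, e, mul_smul_comm]⟩

theorem LSym.MJ_mul {i j : ℕ} {x y : D.L ⊗[k] D.L} (hx : x ∈ LSym.MJ P i)
    (hy : y ∈ LSym.MJ P j) : x * y ∈ LSym.MJ P (i + j) := by
  obtain ⟨h, h', hh, hh', v, hv, e⟩ := hx
  obtain ⟨g, g', hg, hg', w, hw, e'⟩ := hy
  refine ⟨h * g, h' * g', mul_ne_zero hh hg, mul_ne_zero hh' hg', v * w,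
    LSym.pow_mul_mem (LSym.dI P) hv hw, ?_⟩
  rw [map_mul, e, e', ← Algebra.TensorProduct.tmul_mul_tmul, map_mul]
  ring

theorem LSym.MJ_zero (z : D.L ⊗[k] D.L) : z ∈ LSym.MJ P 0 := by
  induction z using TensorProduct.induction_on with
  | zero => exact Submodule.zero_mem _
  | tmul f g =>
    obtain ⟨c, hc, hc0, hcf⟩ := P.exists_div f
    obtain ⟨d, hd, hd0, hdg⟩ := P.exists_div g
    refine ⟨⟨c, hc⟩, ⟨d, hd⟩, fun h => hc0 (congrArg Subtype.val h),
      fun h => hd0 (congrArg Subtype.val h),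
      (⟨c * f, hcf⟩ : P.B) ⊗ₜ[k] (⟨d * g, hdg⟩ : P.B), LSym.mem_pow_zero (LSym.dI P) _, ?_⟩
    rw [LSym.io_tmul, LSym.io_tmul, Algebra.TensorProduct.tmul_mul_tmul]
  | add x y hx hy => exact Submodule.add_mem _ hx hy

theorem LSym.MJ_one {z : D.L ⊗[k] D.L} (hz : muL D z = 0) : z ∈ LSym.MJ P 1 := by
  obtain ⟨h, h', hh, hh', v, -, e⟩ := LSym.MJ_zero P z
  refine ⟨h, h', hh, hh', v, LSym.mem_pow_one (LSym.dI P) ?_, e⟩
  have h1 : muL D (LSym.io P v) = 0 := by rw [e, map_mul, hz, mul_zero]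
  rw [LSym.mu] at h1
  exact Subtype.val_injective h1

theorem LSym.le_MJ (j : ℕ) {z : D.L ⊗[k] D.L}
    (hz : z ∈ (RingHom.ker (muL D) : Ideal (D.L ⊗[k] D.L)) ^ j) : z ∈ LSym.MJ P j := by
  induction j generalizing z with
  | zero => exact LSym.MJ_zero P z
  | succ j ih =>
    rw [pow_succ] at hz
    refine Submodule.mul_induction_on (C := fun z => z ∈ LSym.MJ P (j + 1)) hz
      (fun x hx y hy => ?_) (fun x y hx hy => Submodule.add_mem _ hx hy)
    exact LSym.MJ_mul P (ih hx) (LSym.MJ_one P hy)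

theorem LSym.mem_pow (j : ℕ) {v : P.B ⊗[k] P.B} (hv : v ∈ LSym.dI P ^ j) :
    LSym.io P v ∈ Subalgebra.toSubmodule (LSym.io P).range * P.dgB ^ j := by
  refine LSym.pow_ind (LSym.dI P) (fun j v => LSym.io P v ∈
    Subalgebra.toSubmodule (LSym.io P).range * P.dgB ^ j) (fun v => ?_)
    (fun j x y _ hx hy => ?_) (fun j x y hx hy => ?_) j hv
  · rw [pow_zero, mul_one]
    exact ⟨v, rfl⟩
  · rw [pow_succ, ← mul_assoc, map_mul]
    exact Submodule.mul_mem_mul hx ⟨y, hy, rfl⟩
  · rw [map_add]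
    exact Submodule.add_mem _ hx hy

/-- An element of the image of `B ⊗ B` which vanishes of order `j` at the diagonal of `L ⊗ L`. The
ideal `ker muL` is generated by the image of the ideal `diag` of `B ⊗ B` (common denominators:
`exists_div`), so `(h ⊗ h') w` is in the image of `diag ^ j` for some `h`, `h' ≠ 0` in `B`;
`h ⊗ h'` is not in `diag`; `inv_pow_primary`, `diag_inv`. -/
theorem IPt.mem_dgB_pow (j : ℕ) {w : D.L ⊗[k] D.L}
    (hw : w ∈ (Algebra.TensorProduct.map P.B.val P.B.val).range)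
    (h : w ∈ (RingHom.ker (muL D) : Ideal (D.L ⊗[k] D.L)) ^ j) :
    w ∈ Subalgebra.toSubmodule (Algebra.TensorProduct.map P.B.val P.B.val).range *
      P.dgB ^ j := by
  obtain ⟨v, rfl⟩ := hw
  obtain ⟨c, d, hc, hd, u, hu, e⟩ := LSym.le_MJ P j h
  have := LSym.dom P
  have e1 : u = (c ⊗ₜ[k] d) * v := by
    apply LSym.io_inj P
    rw [e, map_mul]
    rfl
  have hcd : (c ⊗ₜ[k] d : P.B ⊗[k] P.B) ∉ LSym.dI P := by
    intro h1
    have h2 : (Algebra.TensorProduct.lmul' k : P.B ⊗[k] P.B →ₐ[k] P.B) (c ⊗ₜ[k] d) = 0 := h1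
    rw [Algebra.TensorProduct.lmul'_apply_tmul] at h2
    exact mul_ne_zero hc hd h2
  rw [e1] at hu
  exact LSym.mem_pow P j (inv_pow_primary (LSym.dI_inv P) (LSym.dI_prime P) hcd j hu)

theorem LSym.hat {c d : Fin 3} {a b : D.L} (ha : a ∈ P.Bh c) (hb : b ∈ P.Bh d) :
    a ⊗ₜ[k] b ∈ P.BBh c d := by
  have h1 : a ⊗ₜ[k] b = (Algebra.TensorProduct.includeLeft : D.L →ₐ[k] D.L ⊗[k] D.L) a *
      (Algebra.TensorProduct.includeRight : D.L →ₐ[k] D.L ⊗[k] D.L) b := by
    rw [Algebra.TensorProduct.includeLeft_apply, Algebra.TensorProduct.includeRight_apply,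
      Algebra.TensorProduct.tmul_mul_tmul, mul_one, one_mul]
  rw [h1]
  exact Submodule.mul_mem_mul ⟨a, ha, rfl⟩ ⟨b, hb, rfl⟩

/-- The functions on the product of two charts, up to poles at `x₀`, form an algebra. -/
theorem LSym.hat_mul (c d : Fin 3) {x y : D.L ⊗[k] D.L} (hx : x ∈ P.BBh c d)
    (hy : y ∈ P.BBh c d) : x * y ∈ P.BBh c d := by
  have h1 : P.BBh c d * P.BBh c d ≤ P.BBh c d := by
    unfold IPt.BBh
    rw [mul_mul_mul_comm, ← Submodule.map_mul, ← Submodule.map_mul]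
    exact mul_le_mul' (Submodule.map_mono (Subalgebra.mul_toSubmodule_le _ _ |>.trans
      (by rw [sup_idem]))) (Submodule.map_mono (Subalgebra.mul_toSubmodule_le _ _ |>.trans
      (by rw [sup_idem])))
  exact h1 (Submodule.mul_mem_mul hx hy)

theorem LSym.range_le (c d : Fin 3) :
    Subalgebra.toSubmodule (LSym.io P).range ≤ P.BBh c d := by
  rintro _ ⟨v, rfl⟩
  change LSym.io P v ∈ P.BBh c d
  induction v using TensorProduct.induction_on with
  | zero =>
    rw [map_zero]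
    exact Submodule.zero_mem _
  | tmul x y =>
    rw [LSym.io_tmul]
    exact LSym.hat P (P.B_le_Bh c x.2) (P.B_le_Bh d y.2)
  | add x y hx hy =>
    rw [map_add]
    exact Submodule.add_mem _ hx hy

/-- finitely many denominators for an element of `BBt` -/
theorem LSym.fin (c d : Fin 3) {w : D.L ⊗[k] D.L} (hw : w ∈ BBt D c d) :
    ∃ S S' : Finset D.L, (∀ f ∈ S, f ∈ BB D c) ∧ (∀ f ∈ S', f ∈ BB D d) ∧
      ∀ h h' : D.L, (∀ f ∈ S, h * f ∈ P.B) → (∀ f ∈ S', h' * f ∈ P.B) →
        (h ⊗ₜ[k] h') * w ∈ (Algebra.TensorProduct.map P.B.val P.B.val).range := by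
  classical
  refine Submodule.mul_induction_on (C := fun w => ∃ S S' : Finset D.L,
    (∀ f ∈ S, f ∈ BB D c) ∧ (∀ f ∈ S', f ∈ BB D d) ∧
      ∀ h h' : D.L, (∀ f ∈ S, h * f ∈ P.B) → (∀ f ∈ S', h' * f ∈ P.B) →
        (h ⊗ₜ[k] h') * w ∈ (Algebra.TensorProduct.map P.B.val P.B.val).range) hw ?_ ?_
  · rintro _ ⟨f, hf, rfl⟩ _ ⟨f', hf', rfl⟩
    refine ⟨{f}, {f'}, fun x hx => ?_, fun x hx => ?_, fun h h' h1 h2 => ?_⟩
    · rw [Finset.mem_singleton.1 hx]
      exact hf
    · rw [Finset.mem_singleton.1 hx]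
      exact hf'
    · have h3 := h1 f (Finset.mem_singleton_self f)
      have h4 := h2 f' (Finset.mem_singleton_self f')
      refine ⟨(⟨h * f, h3⟩ : P.B) ⊗ₜ[k] (⟨h' * f', h4⟩ : P.B), ?_⟩
      change (h * f) ⊗ₜ[k] (h' * f') = (h ⊗ₜ[k] h') * ((f ⊗ₜ[k] (1 : D.L)) * ((1 : D.L) ⊗ₜ[k] f'))
      rw [Algebra.TensorProduct.tmul_mul_tmul, Algebra.TensorProduct.tmul_mul_tmul, mul_one,
        one_mul]
  · rintro x y ⟨S, S', h1, h2, h3⟩ ⟨T, T', h4, h5, h6⟩
    refine ⟨S ∪ T, S' ∪ T', fun f hf => ?_, fun f hf => ?_, fun h h' hh hh' => ?_⟩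
    · exact (Finset.mem_union.1 hf).elim (h1 f) (h4 f)
    · exact (Finset.mem_union.1 hf).elim (h2 f) (h5 f)
    · rw [mul_add]
      exact Subalgebra.add_mem _
        (h3 h h' (fun f hf => hh f (Finset.mem_union_left _ hf))
          (fun f hf => hh' f (Finset.mem_union_left _ hf)))
        (h6 h h' (fun f hf => hh f (Finset.mem_union_right _ hf))
          (fun f hf => hh' f (Finset.mem_union_right _ hf)))

/-- The functions on the product of two charts which vanish of order `j` at the diagonal are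
generated by those of `B ⊗ B`, up to poles at `x₀` (the proof of `II_le`, with `mem_dgB_pow`). -/
theorem IPt.Jk_le (j : ℕ) (c d : Fin 3) : Jk D j c d ≤ P.BBh c d * P.dgB ^ j := by
  intro w hw
  have hw2 : w ∈ (RingHom.ker (muL D) : Ideal (D.L ⊗[k] D.L)) ^ j := hw.2
  obtain ⟨S, S', h1, h2, h3⟩ := LSym.fin P c d hw.1
  obtain ⟨n, h, g, hh, hg, hf, hs⟩ := P.den_fin c S fun f hf => P.BB_le_Bh c (h1 f hf)
  obtain ⟨n', h', g', hh', hg', hf', hs'⟩ := P.den_fin d S' fun f hf => P.BB_le_Bh d (h2 f hf)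
  have e1 : ∑ i, ∑ i', (g i ⊗ₜ[k] g' i') * ((h i ⊗ₜ[k] h' i') * w) = w := by
    have e2 : ∑ i, ∑ i', ((g i * h i) ⊗ₜ[k] (g' i' * h' i')) = (1 : D.L ⊗[k] D.L) := by
      have e3 : ∀ i, ∑ i', ((g i * h i) ⊗ₜ[k] (g' i' * h' i')) = (g i * h i) ⊗ₜ[k] (1 : D.L) := by
        intro i
        rw [← TensorProduct.tmul_sum, hs']
      rw [Finset.sum_congr rfl fun i _ => e3 i, ← TensorProduct.sum_tmul, hs]
      rfl
    calc ∑ i, ∑ i', (g i ⊗ₜ[k] g' i') * ((h i ⊗ₜ[k] h' i') * w)
        = (∑ i, ∑ i', ((g i * h i) ⊗ₜ[k] (g' i' * h' i'))) * w := by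
          rw [Finset.sum_mul]
          refine Finset.sum_congr rfl fun i _ => ?_
          rw [Finset.sum_mul]
          refine Finset.sum_congr rfl fun i' _ => ?_
          rw [← mul_assoc, Algebra.TensorProduct.tmul_mul_tmul]
      _ = w := by rw [e2, one_mul]
  have h4 : P.BBh c d * (Subalgebra.toSubmodule (LSym.io P).range * P.dgB ^ j) ≤
      P.BBh c d * P.dgB ^ j := by
    rw [← mul_assoc]
    refine mul_le_mul' ?_ le_rfl
    exact Submodule.mul_le.2 fun x hx y hy => LSym.hat_mul P c d hx (LSym.range_le P c d hy)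
  rw [← e1]
  refine Submodule.sum_mem _ fun i _ => Submodule.sum_mem _ fun i' _ => ?_
  refine h4 (Submodule.mul_mem_mul (LSym.hat P (hg i) (hg' i')) ?_)
  exact P.mem_dgB_pow j (h3 _ _ (hf i) (hf' i')) (Ideal.mul_mem_left _ _ hw2)

end Pool.Agent.MP_6e5bed_ag_KC
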