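import Pool.Agent.Lib.MP_6e5bed_ag_KC.LGr
import Pool.Agent.Lib.MP_6e5bed_ag_KC.LSym

set_option autoImplicit false
set_option linter.unusedSectionVars false

/-!
# Project KC: functions which vanish of order `j` at the diagonals, in an algebra
-/

noncomputable section

namespace Pool.Agent.MP_6e5bed_ag_KC

open RatFunc
open Pool.Agent.MP_6e5bed_ag_NC
open scoped TensorProduct

universe u

variable {k : Type u} [Field k] {D : FExt k} (P : IPt D) {ι : Type} [Fintype ι] [DecidableEq ι]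
  {K : Type u} [CommRing K] [Algebra k K] (z : ι → D.L →ₐ[k] K)

/-- The functions which vanish of order `e` at a diagonal (`IPt.Jk_le`, `Bh_sat`,
`sat_RRm_mul`; `Submodule.map_mul`, `Submodule.map_pow`). -/
theorem IPt.Jk_sat [IsAlgClosed k] (e : ℕ) (c : ι → Fin 3) (i j : ι) :
    (Jk D e (c i) (c j)).map (prL (z i) (z j)).toLinearMap ≤
      sat P.P z c (RRm z c) * P.dgB.map (prL (z i) (z j)).toLinearMap ^ e := by
  refine (Submodule.map_mono (P.Jk_le e (c i) (c j))).trans ?_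
  rw [Submodule.map_mul, Submodule.map_pow]
  refine mul_le_mul' ?_ le_rfl
  unfold IPt.BBh
  rw [Submodule.map_mul]
  refine Submodule.mul_le.2 ?_
  rintro _ ⟨_, ⟨a, ha, rfl⟩, rfl⟩ _ ⟨_, ⟨b, hb, rfl⟩, rfl⟩
  refine sat_RRm_mul z P.P c ?_ ?_
  · change prL (z i) (z j) (a ⊗ₜ[k] (1 : D.L)) ∈ _
    rw [prL_left]
    exact P.Bh_sat z c i ha
  · change prL (z i) (z j) ((1 : D.L) ⊗ₜ[k] b) ∈ _
    rw [prL_right]
    exact P.Bh_sat z c j hb

end Pool.Agent.MP_6e5bed_ag_KC
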