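import Pool.Agent.Lib.MP_6e5bed_ag_KC.LPid
import Pool.Agent.Lib.MP_6e5bed_ag_KC.LSymB

set_option autoImplicit false
set_option linter.unusedSectionVars false

/-!
# Project KC: the lattices of the ideals of the graphs of permutations are commensurable
-/

noncomputable section

namespace Pool.Agent.MP_6e5bed_ag_KC

open RatFunc Equiv
open Pool.Agent.MP_6e5bed_ag_NC
open scoped TensorProduct

universe u

variable {k : Type u} [Field k] [IsAlgClosed k] {D : FExt k} (P : IPt D)
  {K : Type u} [CommRing K] [Algebra k K]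
  {R : Type u} [CommRing R] [Algebra k R] [Algebra R K] [IsScalarTower k R K]

variable {n J : ℕ} (x y : Fin n → (D.L →ₐ[k] K)) (xB yB : Fin n → P.curve.Pt R)

namespace LPidB

section aux

variable {D : FExt k} {ι : Type} [Fintype ι] (Q : Ideal (A1 D)) (z : ι → D.L →ₐ[k] K)
  (c : ι → Fin 3)

private theorem one_le : (1 : Submodule k K) ≤ sat Q z c (RRm z c) :=
  Submodule.one_le.2 (le_sat (fun _ hr _ hm => RRm_mul z hr hm) (RRm_one z c))

private theorem mul_sat {X Y A B : Submodule k K} (hX : X ≤ sat Q z c (A * RRm z c))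
    (hY : Y ≤ sat Q z c (B * RRm z c)) : X * Y ≤ sat Q z c (A * B * RRm z c) := by
  refine Submodule.mul_le.2 fun a ha b hb => ?_
  have h := sat_mul (hX ha) (hY hb)
  have e : A * RRm z c * (B * RRm z c) = A * B * RRm z c := by
    rw [mul_mul_mul_comm, RRm_sq]
  rwa [e] at h

private theorem pow_sat {X A : Submodule k K} (hX : X ≤ sat Q z c (A * RRm z c)) (m : ℕ) :
    X ^ m ≤ sat Q z c (A ^ m * RRm z c) := by
  induction m with
  | zero =>
    rw [pow_zero, pow_zero, one_mul]
    exact one_le Q z c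
  | succ m ih =>
    rw [pow_succ, pow_succ]
    exact mul_sat Q z c ih hX

private theorem prod_sat {j : Type} (s : Finset j) (X A : j → Submodule k K)
    (hX : ∀ i, X i ≤ sat Q z c (A i * RRm z c)) :
    ∏ i ∈ s, X i ≤ sat Q z c ((∏ i ∈ s, A i) * RRm z c) := by
  classical
  induction s using Finset.induction_on with
  | empty =>
    rw [Finset.prod_empty, Finset.prod_empty, one_mul]
    exact one_le Q z c
  | insert i s hi ih =>
    rw [Finset.prod_insert hi, Finset.prod_insert hi]
    exact mul_sat Q z c (hX i) ih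

private theorem mul_le' {T X Y A B : Submodule k K} (hT : T * T ≤ T) (hX : X ≤ T * A)
    (hY : Y ≤ T * B) : X * Y ≤ T * (A * B) := by
  refine (mul_le_mul' hX hY).trans ?_
  rw [mul_mul_mul_comm]
  exact mul_le_mul' hT le_rfl

private theorem pow_le' {T X A : Submodule k K} (hT : T * T ≤ T) (h1 : 1 ≤ T) (hX : X ≤ T * A)
    (m : ℕ) : X ^ m ≤ T * A ^ m := by
  induction m with
  | zero =>
    rw [pow_zero, pow_zero, mul_one]
    exact h1
  | succ m ih =>
    rw [pow_succ, pow_succ]
    exact mul_le' hT ih hX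

private theorem prod_le' {j : Type} (s : Finset j) {T : Submodule k K} (hT : T * T ≤ T)
    (h1 : 1 ≤ T) (X A : j → Submodule k K) (hX : ∀ i, X i ≤ T * A i) :
    ∏ i ∈ s, X i ≤ T * ∏ i ∈ s, A i := by
  classical
  induction s using Finset.induction_on with
  | empty =>
    rw [Finset.prod_empty, Finset.prod_empty, mul_one]
    exact h1
  | insert i s hi ih =>
    rw [Finset.prod_insert hi, Finset.prod_insert hi]
    exact mul_le' hT (hX i) ih

private theorem stable_mul (A : Submodule k K) : ∀ r ∈ RRm z c, ∀ m ∈ A * RRm z c,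
    r • m ∈ A * RRm z c := by
  intro r hr m hm
  have h1 : r * m ∈ RRm z c * (A * RRm z c) := Submodule.mul_mem_mul hr hm
  rw [mul_left_comm, RRm_sq] at h1
  exact h1

private theorem stable_span (S : Set K) :
    ∀ r ∈ RRm z c, ∀ m ∈ (RRm z c • Submodule.span k S : Submodule k K),
      r • m ∈ (RRm z c • Submodule.span k S : Submodule k K) := by
  intro r hr m hm
  refine Submodule.smul_induction_on (p := fun m =>
    r • m ∈ (RRm z c • Submodule.span k S : Submodule k K)) hm ?_ ?_
  · intro r' hr' m hm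
    rw [smul_smul]
    exact Submodule.smul_mem_smul (RRm_mul z hr hr') hm
  · intro x y hx hy
    rw [smul_add]
    exact Submodule.add_mem _ hx hy

end aux

end LPidB

/-- The lattice generated by the ideal is contained in `LLs`, up to poles at `x₀`. By
`prodIdeal_le` the image of the ideal is in `RKm * ∏ i, G_i ^ (κ i)`, with
`G_i ≤ sat (A_i * RRm)` (`dgB_sat` for the factors `inl i`, `inr (σ i)`), so that
`∏ i, G_i ^ (κ i) ≤ sat (∏ i, A_i ^ (κ i) * RRm) ≤ sat (LLsN)` (`sat_mul`, `le_LLsN`), and the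
elements of `RKm` are in `sat RRm` (`hR`, `sat_stable`). -/
theorem IPt.span_le_LLs (hx : ∀ i, ∀ b : P.B, algebraMap R K (xB i b) = x i (b : D.L))
    (hy : ∀ i, ∀ b : P.B, algebraMap R K (yB i b) = y i (b : D.L))
    (hR : RSat P.P (Sum.elim x y) R) (σ : Perm (Fin n)) (κ : Fin n → Fin (J + 1))
    (S : Finset R) (hS : Ideal.span (S : Set R) = P.curve.prodIdeal xB yB σ κ) (S' : Finset K)
    (hS' : (S' : Set K) = algebraMap R K '' (S : Set R)) (c : Fin n ⊕ Fin n → Fin 3) :
    (spanL (Sum.elim x y) K S').NK c ≤ sat P.P (Sum.elim x y) c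
      ((LLs (fun i => (κ i : ℕ)) σ x y).NK c) := by
  have hst := LPidB.stable_mul (Sum.elim x y) c (∏ i, ((II D (c (Sum.inl i))
    (c (Sum.inr (σ i)))).map (prL (x i) (y (σ i))).toLinearMap) ^ (κ i : ℕ))
  rw [spanL_NK, LLs_NK]
  refine le_trans ?_ (sat_mono (le_LLsN x y (fun i => (κ i : ℕ)) σ c))
  have h1 : ∏ i, (P.dgB.map (prL (x i) (y (σ i))).toLinearMap) ^ (κ i : ℕ) ≤
      sat P.P (Sum.elim x y) c ((∏ i, ((II D (c (Sum.inl i)) (c (Sum.inr (σ i)))).map
        (prL (x i) (y (σ i))).toLinearMap) ^ (κ i : ℕ)) * RRm (Sum.elim x y) c) := by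
    refine LPidB.prod_sat P.P (Sum.elim x y) c Finset.univ _ _ fun i => ?_
    refine LPidB.pow_sat P.P (Sum.elim x y) c ?_ _
    exact P.dgB_sat (Sum.elim x y) c (i := Sum.inl i) (j := Sum.inr (σ i)) Sum.inl_ne_inr
  have h2 : ∀ s ∈ S', s ∈ sat P.P (Sum.elim x y) c ((∏ i, ((II D (c (Sum.inl i))
      (c (Sum.inr (σ i)))).map (prL (x i) (y (σ i))).toLinearMap) ^ (κ i : ℕ)) *
        RRm (Sum.elim x y) c) := by
    intro s hs
    have hs' : s ∈ (S' : Set K) := hs
    rw [hS'] at hs'
    obtain ⟨r, hr, rfl⟩ := hs'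
    have h3 : r ∈ P.curve.prodIdeal xB yB σ κ := by
      rw [← hS]
      exact Ideal.subset_span hr
    have h4 := P.prodIdeal_le x y xB yB hx hy σ κ h3
    refine (Submodule.mul_le.2 fun a ha b hb => ?_) h4
    obtain ⟨a', rfl⟩ := mem_RKm.1 ha
    exact sat_stable hst (hR a' c) (h1 hb)
  intro m hm
  refine Submodule.smul_induction_on (p := fun m => m ∈ sat P.P (Sum.elim x y) c
    ((∏ i, ((II D (c (Sum.inl i)) (c (Sum.inr (σ i)))).map
      (prL (x i) (y (σ i))).toLinearMap) ^ (κ i : ℕ)) * RRm (Sum.elim x y) c)) hm ?_ ?_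
  · intro r hr s hs
    refine sat_stable hst (le_sat (fun _ hr _ hm => RRm_mul _ hr hm) hr) ?_
    exact (Submodule.span_le.2 h2) hs
  · intro a b ha hb
    exact Submodule.add_mem _ ha hb

/-- Conversely: `(Jk (κ i)).map ≤ sat (RRm) * G_i ^ (κ i)` (`Jk_sat`), so that by `LLsN_eq`
`LLsN ≤ sat (RRm) * ∏ i, G_i ^ (κ i)`; by `le_prodIdeal` the last factor is in the image of the
ideal, that is in the `RKm`-span of `S'`. -/
theorem IPt.LLs_le_span (hx : ∀ i, ∀ b : P.B, algebraMap R K (xB i b) = x i (b : D.L))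
    (hy : ∀ i, ∀ b : P.B, algebraMap R K (yB i b) = y i (b : D.L))
    (hR : RSat P.P (Sum.elim x y) R) (σ : Perm (Fin n)) (κ : Fin n → Fin (J + 1))
    (S : Finset R) (hS : Ideal.span (S : Set R) = P.curve.prodIdeal xB yB σ κ) (S' : Finset K)
    (hS' : (S' : Set K) = algebraMap R K '' (S : Set R)) (c : Fin n ⊕ Fin n → Fin 3) :
    (LLs (fun i => (κ i : ℕ)) σ x y).NK c ≤ sat P.P (Sum.elim x y) c
      ((spanL (Sum.elim x y) K S').NK c) := by
  have hst := LPidB.stable_span (Sum.elim x y) c (S' : Set K)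
  rw [spanL_NK, LLs_NK, LLsN_eq]
  set T : Submodule k K := sat P.P (Sum.elim x y) c (RRm (Sum.elim x y) c) with hTdef
  have hT : T * T ≤ T := Submodule.mul_le.2 fun a ha b hb =>
    sat_RRm_mul (Sum.elim x y) P.P c ha hb
  have hT1 : (1 : Submodule k K) ≤ T := LPidB.one_le P.P (Sum.elim x y) c
  have h2 : ∏ i, (Jk D (κ i : ℕ) (c (Sum.inl i)) (c (Sum.inr (σ i)))).map
      (prL (x i) (y (σ i))).toLinearMap ≤
      T * ∏ i, (P.dgB.map (prL (x i) (y (σ i))).toLinearMap) ^ (κ i : ℕ) := by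
    refine LPidB.prod_le' Finset.univ hT hT1 _ _ fun i => ?_
    exact P.Jk_sat (Sum.elim x y) (κ i) c (Sum.inl i) (Sum.inr (σ i))
  refine h2.trans (Submodule.mul_le.2 fun a ha b hb => ?_)
  refine sat_stable hst ha ?_
  obtain ⟨r, hr, rfl⟩ := P.le_prodIdeal x y xB yB hx hy σ κ hb
  rw [← hS] at hr
  refine Submodule.span_induction (p := fun r _ => algebraMap R K r ∈
    sat P.P (Sum.elim x y) c (RRm (Sum.elim x y) c • Submodule.span k (S' : Set K) :
      Submodule k K)) ?_ ?_ ?_ ?_ hr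
  · intro s hs
    refine le_sat hst ?_
    have h3 : algebraMap R K s ∈ Submodule.span k (S' : Set K) := by
      refine Submodule.subset_span ?_
      rw [hS']
      exact ⟨s, hs, rfl⟩
    have h4 := Submodule.smul_mem_smul (RRm_one (Sum.elim x y) c) h3
    rwa [one_smul] at h4
  · rw [map_zero]
    exact Submodule.zero_mem _
  · intro a b _ _ ha hb
    rw [map_add]
    exact Submodule.add_mem _ ha hb
  · intro a b _ hb
    have e : algebraMap R K (a • b) = algebraMap R K a * algebraMap R K b :=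
      map_mul (algebraMap R K) a b
    rw [e]
    exact sat_stable hst (hR a c) hb

end Pool.Agent.MP_6e5bed_ag_KC
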