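import Pool.Agent.Lib.MP_6e5bed_ag_KC.KT
import Pool.Agent.Lib.MP_6e5bed_ag_KC.VDom
import Pool.Agent.Lib.MP_6e5bed_ag_KC.DPt
import Pool.Agent.Lib.MP_6e5bed_ag_KC.VPtC

set_option autoImplicit false
set_option linter.unusedSectionVars false

/-!
# Project KC: the universal algebra `KT n`: universal property, domain, its points
-/

noncomputable section

namespace Pool.Agent.MP_6e5bed_ag_KC

open RatFunc Equiv
open Pool.Agent.MP_6e5bed_ag_NC
open scoped TensorProduct

universe u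

namespace LKD

theorem mem_range {k A B : Type u} [Field k] [CommRing A] [Algebra k A] [CommRing B]
    [Algebra k B] (v : A ⊗[k] B) : ∃ S : Finset B, ∀ B' : Subalgebra k B, (S : Set B) ⊆ B' →
      ∃ v' : A ⊗[k] B', Algebra.TensorProduct.map (AlgHom.id k A) B'.val v' = v := by
  classical
  induction v using TensorProduct.induction_on with
  | zero => exact ⟨∅, fun B' _ => ⟨0, map_zero _⟩⟩
  | tmul a b =>
    refine ⟨{b}, fun B' h => ⟨a ⊗ₜ[k] ⟨b, h (by simp)⟩, ?_⟩⟩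
    rw [Algebra.TensorProduct.map_tmul]
    rfl
  | add v w hv hw =>
    obtain ⟨S, hS⟩ := hv
    obtain ⟨T, hT⟩ := hw
    refine ⟨S ∪ T, fun B' h => ?_⟩
    rw [Finset.coe_union, Set.union_subset_iff] at h
    obtain ⟨v', hv'⟩ := hS B' h.1
    obtain ⟨w', hw'⟩ := hT B' h.2
    exact ⟨v' + w', by rw [map_add, hv', hw']⟩

theorem map_inj {k A B : Type u} [Field k] [CommRing A] [Algebra k A] [CommRing B]
    [Algebra k B] (B' : Subalgebra k B) :
    Function.Injective (Algebra.TensorProduct.map (AlgHom.id k A) B'.val) := by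
  have h1 := Module.Flat.lTensor_preserves_injective_linearMap (M := A)
    B'.val.toLinearMap Subtype.val_injective
  exact h1

theorem sub_domain {k : Type u} [Field k] [IsAlgClosed k] (A B : Type u) [CommRing A]
    [IsDomain A] [Algebra k A] [CommRing B] [IsDomain B] [Algebra k B] (S : Finset B) :
    IsDomain (A ⊗[k] (Algebra.adjoin k (S : Set B))) := by
  have : Algebra.FiniteType k (Algebra.adjoin k (S : Set B)) :=
    (Subalgebra.fg_iff_finiteType _).1 (Subalgebra.fg_adjoin_finset S)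
  exact tensor_domain A (Algebra.adjoin k (S : Set B))

theorem incl_ne {k L : Type u} [Field k] [Field L] [Algebra k L] {b : L}
    (hb : ∀ c : k, algebraMap k L c ≠ b) : (b ⊗ₜ[k] (1 : L)) ≠ ((1 : L) ⊗ₜ[k] b) := by
  intro h
  have h1 : b ∉ Submodule.span k {(1 : L)} := by
    intro h2
    obtain ⟨c, hc⟩ := Submodule.mem_span_singleton.1 h2
    apply hb c
    rw [← hc, Algebra.smul_def, mul_one]
  obtain ⟨φ, hφ, hφ'⟩ := Submodule.exists_le_ker_of_notMem h1
  have h3 : φ 1 = 0 := hφ' (Submodule.mem_span_singleton_self 1)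
  have h4 := congrArg (TensorProduct.lift ((LinearMap.lsmul k L).comp φ)) h
  rw [TensorProduct.lift.tmul, TensorProduct.lift.tmul] at h4
  have h5 : φ b • (1 : L) = φ 1 • b := h4
  rw [h3, zero_smul, Algebra.smul_def, mul_one, map_eq_zero] at h5
  exact hφ h5

end LKD

/-- `A ⊗ B` is a domain for domains `A`, `B` over an algebraically closed field: two elements of
`A ⊗ B` are in the image of `A ⊗ B'` for a finitely generated subalgebra `B'` of `B`, and
`A ⊗ B' → A ⊗ B` is injective; `tensor_domain`. -/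
theorem tensor_domain' {k : Type u} [Field k] [IsAlgClosed k] (A B : Type u) [CommRing A]
    [IsDomain A] [Algebra k A] [CommRing B] [IsDomain B] [Algebra k B] : IsDomain (A ⊗[k] B) := by
  classical
  have hnt : Nontrivial (A ⊗[k] B) := by
    have h1 := LKD.sub_domain (k := k) A B ∅
    exact (LKD.map_inj (A := A) (Algebra.adjoin k ((∅ : Finset B) : Set B))).nontrivial
  have hnz : NoZeroDivisors (A ⊗[k] B) := by
    refine ⟨fun {v w} hvw => ?_⟩
    obtain ⟨S, hS⟩ := LKD.mem_range v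
    obtain ⟨T, hT⟩ := LKD.mem_range w
    have h1 := LKD.sub_domain (k := k) A B (S ∪ T)
    have h2 : ((S ∪ T : Finset B) : Set B) ⊆ Algebra.adjoin k ((S ∪ T : Finset B) : Set B) :=
      Algebra.subset_adjoin
    rw [Finset.coe_union, Set.union_subset_iff] at h2
    rw [← Finset.coe_union] at h2
    obtain ⟨v', hv'⟩ := hS _ h2.1
    obtain ⟨w', hw'⟩ := hT _ h2.2
    have h3 := LKD.map_inj (A := A) (Algebra.adjoin k ((S ∪ T : Finset B) : Set B))
    have h4 : v' * w' = 0 := by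
      apply h3
      rw [map_mul, hv', hw', hvw, map_zero]
    rcases mul_eq_zero.1 h4 with h5 | h5
    · left
      rw [← hv', h5, map_zero]
    · right
      rw [← hw', h5, map_zero]
  exact IsDomain.mk

variable {k : Type u} [Field k] (D : FExt k)

instance KT_dom [IsAlgClosed k] (n : ℕ) : IsDomain (KT D n).A := by
  induction n with
  | zero => exact (inferInstance : IsDomain k)
  | succ n ih =>
    have h1 := tensor_domain' (k := k) D.L D.L
    exact tensor_domain' (D.L ⊗[k] D.L) (KT D n).A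

variable {D}

/-- The universal property. -/
theorem KT_exists_hom {S : Type u} [CommRing S] [Algebra k S] (n : ℕ)
    (x y : Fin n → (D.L →ₐ[k] S)) : ∃ ρ : (KT D n).A →ₐ[k] S,
      (∀ i, ρ.comp (kx D n i) = x i) ∧ ∀ i, ρ.comp (ky D n i) = y i := by
  induction n with
  | zero => exact ⟨Algebra.ofId k S, fun i => i.elim0, fun i => i.elim0⟩
  | succ n ih =>
    obtain ⟨ρ, hρx, hρy⟩ := ih (fun i => x i.succ) (fun i => y i.succ)
    let σ : (D.L ⊗[k] D.L) ⊗[k] (KT D n).A →ₐ[k] S :=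
      Algebra.TensorProduct.lift (Algebra.TensorProduct.lift (x 0) (y 0) fun _ _ =>
        Commute.all _ _) ρ fun _ _ => Commute.all _ _
    refine ⟨σ, fun i => ?_, fun i => ?_⟩
    · refine Fin.cases ?_ (fun i => ?_) i
      · ext a
        change σ ((a ⊗ₜ[k] (1 : D.L)) ⊗ₜ[k] (1 : (KT D n).A)) = x 0 a
        rw [Algebra.TensorProduct.lift_tmul, Algebra.TensorProduct.lift_tmul, map_one, map_one,
          mul_one, mul_one]
      · ext a
        change σ ((1 : D.L ⊗[k] D.L) ⊗ₜ[k] (kx D n i a)) = x i.succ a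
        rw [Algebra.TensorProduct.lift_tmul, map_one, one_mul, ← hρx i]
        rfl
    · refine Fin.cases ?_ (fun i => ?_) i
      · ext a
        change σ (((1 : D.L) ⊗ₜ[k] a) ⊗ₜ[k] (1 : (KT D n).A)) = y 0 a
        rw [Algebra.TensorProduct.lift_tmul, Algebra.TensorProduct.lift_tmul, map_one, map_one,
          mul_one, one_mul]
      · ext a
        change σ ((1 : D.L ⊗[k] D.L) ⊗ₜ[k] (ky D n i a)) = y i.succ a
        rw [Algebra.TensorProduct.lift_tmul, map_one, one_mul, ← hρy i]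
        rfl

theorem KT_hom_ext {S : Type u} [CommRing S] [Algebra k S] (n : ℕ)
    (ρ ρ' : (KT D n).A →ₐ[k] S) (hx : ∀ i, ρ.comp (kx D n i) = ρ'.comp (kx D n i))
    (hy : ∀ i, ρ.comp (ky D n i) = ρ'.comp (ky D n i)) : ρ = ρ' := by
  induction n with
  | zero =>
    refine AlgHom.ext fun c => ?_
    exact (ρ.commutes c).trans (ρ'.commutes c).symm
  | succ n ih =>
    have h1 : ∀ b : (KT D n).A, ρ ((1 : D.L ⊗[k] D.L) ⊗ₜ[k] b) =
        ρ' ((1 : D.L ⊗[k] D.L) ⊗ₜ[k] b) := by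
      have h2 := ih (ρ.comp (Algebra.TensorProduct.includeRight :
          (KT D n).A →ₐ[k] (D.L ⊗[k] D.L) ⊗[k] (KT D n).A))
        (ρ'.comp (Algebra.TensorProduct.includeRight :
          (KT D n).A →ₐ[k] (D.L ⊗[k] D.L) ⊗[k] (KT D n).A))
        (fun i => hx i.succ) (fun i => hy i.succ)
      exact fun b => AlgHom.congr_fun h2 b
    have h3 : ∀ a b : D.L, ρ ((a ⊗ₜ[k] b) ⊗ₜ[k] (1 : (KT D n).A)) =
        ρ' ((a ⊗ₜ[k] b) ⊗ₜ[k] (1 : (KT D n).A)) := by
      intro a b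
      have h4 : ρ ((a ⊗ₜ[k] (1 : D.L)) ⊗ₜ[k] (1 : (KT D n).A)) =
        ρ' ((a ⊗ₜ[k] (1 : D.L)) ⊗ₜ[k] (1 : (KT D n).A)) := AlgHom.congr_fun (hx 0) a
      have h5 : ρ (((1 : D.L) ⊗ₜ[k] b) ⊗ₜ[k] (1 : (KT D n).A)) =
        ρ' (((1 : D.L) ⊗ₜ[k] b) ⊗ₜ[k] (1 : (KT D n).A)) := AlgHom.congr_fun (hy 0) b
      have h6 : ((a ⊗ₜ[k] b) ⊗ₜ[k] (1 : (KT D n).A) : (D.L ⊗[k] D.L) ⊗[k] (KT D n).A) =
          ((a ⊗ₜ[k] (1 : D.L)) ⊗ₜ[k] (1 : (KT D n).A)) *
          (((1 : D.L) ⊗ₜ[k] b) ⊗ₜ[k] (1 : (KT D n).A)) := by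
        rw [Algebra.TensorProduct.tmul_mul_tmul, Algebra.TensorProduct.tmul_mul_tmul, mul_one,
          one_mul, mul_one]
      rw [h6]
      exact (map_mul ρ _ _).trans ((congrArg₂ (· * ·) h4 h5).trans (map_mul ρ' _ _).symm)
    have h7 : ∀ a : D.L ⊗[k] D.L, ρ (a ⊗ₜ[k] (1 : (KT D n).A)) =
        ρ' (a ⊗ₜ[k] (1 : (KT D n).A)) := by
      intro a
      have h8 : ρ.comp (Algebra.TensorProduct.includeLeft :
          D.L ⊗[k] D.L →ₐ[k] (D.L ⊗[k] D.L) ⊗[k] (KT D n).A) =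
          ρ'.comp (Algebra.TensorProduct.includeLeft :
          D.L ⊗[k] D.L →ₐ[k] (D.L ⊗[k] D.L) ⊗[k] (KT D n).A) :=
        Algebra.TensorProduct.ext' h3
      exact AlgHom.congr_fun h8 a
    refine Algebra.TensorProduct.ext' fun a b => ?_
    have h9 : (a ⊗ₜ[k] b : (D.L ⊗[k] D.L) ⊗[k] (KT D n).A) =
        (a ⊗ₜ[k] (1 : (KT D n).A)) * ((1 : D.L ⊗[k] D.L) ⊗ₜ[k] b) := by
      rw [Algebra.TensorProduct.tmul_mul_tmul, mul_one, one_mul]
    rw [h9]
    exact (map_mul ρ _ _).trans ((congrArg₂ (· * ·) (h7 a) (h1 b)).trans (map_mul ρ' _ _).symm)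

/-- The automorphism of the permutation `σ` of the last `n` points. -/
theorem KT_perm (n : ℕ) (σ : Perm (Fin n)) : ∃ ρ : (KT D n).A →ₐ[k] (KT D n).A,
    Function.Injective ρ ∧ (∀ i, ρ.comp (kx D n i) = kx D n i) ∧
      ∀ i, ρ.comp (ky D n i) = ky D n (σ i) := by
  obtain ⟨ρ, hx, hy⟩ := KT_exists_hom n (kx D n) (fun i => ky D n (σ i))
  obtain ⟨ρ', hx', hy'⟩ := KT_exists_hom n (kx D n) (fun i => ky D n (σ.symm i))
  refine ⟨ρ, ?_, hx, hy⟩
  have h1 : ρ'.comp ρ = AlgHom.id k (KT D n).A := by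
    refine KT_hom_ext n _ _ (fun i => ?_) (fun i => ?_)
    · rw [AlgHom.comp_assoc, hx i, hx' i, AlgHom.id_comp]
    · rw [AlgHom.comp_assoc, hy i, hy' (σ i), AlgHom.id_comp, σ.symm_apply_apply]
  intro a b hab
  have h2 := congrArg ρ' hab
  have h3 : ∀ a, ρ' (ρ a) = a := fun a => AlgHom.congr_fun h1 a
  rwa [h3, h3] at h2

/-- The `2 n` points are pairwise distinct on `B`: there are two homomorphisms `L → L ⊗ L` which
are different on `B` (`B ≠ k`, `C.exists_pts` for `P.curve`); `KT_exists_hom`. -/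
theorem KT_pts_inj [IsAlgClosed k] (P : IPt D) (n : ℕ) : Function.Injective fun i =>
    (Sum.elim (kx D n) (ky D n) i).comp P.B.val := by
  classical
  obtain ⟨f, hf⟩ := VPtC.exists_nonconst P.curve
  obtain ⟨b, hb⟩ : ∃ b : P.B, ∀ c : k, algebraMap k P.B c ≠ b := ⟨f, hf⟩
  have hb' : ∀ c : k, algebraMap k D.L c ≠ (b : D.L) := fun c h => hb c (Subtype.ext h)
  intro i j hij
  by_contra hne
  obtain ⟨z, hz⟩ : ∃ z : Fin n ⊕ Fin n → (D.L →ₐ[k] D.L ⊗[k] D.L), ∀ l, z l =
      if l = i then Algebra.TensorProduct.includeLeft else Algebra.TensorProduct.includeRight :=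
    ⟨_, fun l => rfl⟩
  obtain ⟨ρ, hx, hy⟩ := KT_exists_hom n (fun l => z (Sum.inl l)) (fun l => z (Sum.inr l))
  have h1 : ∀ l, ρ.comp (Sum.elim (kx D n) (ky D n) l) = z l := by
    rintro (l | l)
    · exact hx l
    · exact hy l
  have h2 := AlgHom.congr_fun hij b
  have h3 : ρ (Sum.elim (kx D n) (ky D n) i b) = ρ (Sum.elim (kx D n) (ky D n) j b) :=
    congrArg ρ h2
  have h4 : ∀ l, ρ (Sum.elim (kx D n) (ky D n) l (b : D.L)) = z l b :=
    fun l => AlgHom.congr_fun (h1 l) b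
  rw [h4, h4, hz, hz, if_pos rfl, if_neg (Ne.symm hne)] at h3
  exact LKD.incl_ne hb' h3

/-- The `2 n` points are not constant on `B`: the composition with the injective homomorphism
`L → KT n` is injective. -/
theorem KT_pts_ne [IsAlgClosed k] (P : IPt D) (n : ℕ) (i : Fin n ⊕ Fin n) (p : P.B →ₐ[k] k) :
    (Sum.elim (kx D n) (ky D n) i).comp P.B.val ≠ (Algebra.ofId k (KT D n).A).comp p := by
  intro h
  obtain ⟨f, hf⟩ := VPtC.exists_nonconst P.curve
  obtain ⟨b, hb⟩ : ∃ b : P.B, ∀ c : k, algebraMap k P.B c ≠ b := ⟨f, hf⟩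
  have hb' : ∀ c : k, algebraMap k D.L c ≠ (b : D.L) := fun c h => hb c (Subtype.ext h)
  have h1 : Sum.elim (kx D n) (ky D n) i (b : D.L) = algebraMap k (KT D n).A (p b) :=
    AlgHom.congr_fun h b
  rw [← (Sum.elim (kx D n) (ky D n) i).commutes] at h1
  have h2 := KT_dom D n
  exact hb' (p b) ((Sum.elim (kx D n) (ky D n) i).toRingHom.injective h1).symm

end Pool.Agent.MP_6e5bed_ag_KC
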