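import Pool.Agent.Lib.MP_6e5bed_ag_KC.LGr
import Pool.Agent.Lib.MP_6e5bed_ag_KC.LChi
import Pool.Agent.Lib.MP_6e5bed_ag_KC.LKD

set_option autoImplicit false
set_option linter.unusedSectionVars false

/-!
# Project KC: the ring of functions on the product of the curves minus `x₀`
-/

noncomputable section

namespace Pool.Agent.MP_6e5bed_ag_KC

open RatFunc Equiv
open Pool.Agent.MP_6e5bed_ag_NC
open scoped TensorProduct

universe u

variable {k : Type u} [Field k] {D : FExt k} (P : IPt D) {ι : Type} [Fintype ι] [DecidableEq ι]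
  {K : Type u} [CommRing K] [Algebra k K] (z : ι → D.L →ₐ[k] K)

/-- The subalgebra of `K` generated by the `z_i(B)`. -/
def IPt.RK : Subalgebra k K := ⨆ i, P.B.map (z i)

theorem IPt.mem_RK (i : ι) (b : P.B) : z i (b : D.L) ∈ P.RK z :=
  le_iSup (fun i => P.B.map (z i)) i ⟨b, b.2, rfl⟩

/-- The points of the ring `RK`. -/
def IPt.pB (i : ι) : P.B →ₐ[k] P.RK z :=
  ((z i).comp P.B.val).codRestrict (P.RK z) fun b => P.mem_RK z i b

theorem IPt.pB_apply (i : ι) (b : P.B) : (P.pB z i b : K) = z i (b : D.L) := rfl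

/-- `RK` is of finite type: it is generated by the images of the generators of `B` (`DInt`). -/
instance IPt.RK_ft [IsAlgClosed k] : Algebra.FiniteType k (P.RK z) := by
  rw [← Subalgebra.fg_iff_finiteType]
  unfold IPt.RK
  rw [← Finset.sup_univ_eq_iSup]
  refine Finset.sup_induction (p := fun S : Subalgebra k K => S.FG) Subalgebra.fg_bot
    (fun S hS T hT => hS.sup hT) fun i _ => ?_
  exact ((Subalgebra.fg_iff_finiteType P.B).2 inferInstance).map (z i)

/-- The elements of `RK` have bounded poles at `x₀` (`Bh_sat`, `B_le_Bh`, `sat_RRm_mul`). -/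
theorem IPt.RK_sat : RSat P.P z (P.RK z) := by
  intro r c
  let S : Subalgebra k K :=
    { carrier := sat P.P z c (RRm z c)
      mul_mem' := fun ha hb => sat_RRm_mul z P.P c ha hb
      one_mem' := le_sat (fun r hr m hm => RRm_mul z hr hm) (RRm_one z c)
      add_mem' := fun ha hb => (sat P.P z c (RRm z c)).add_mem ha hb
      zero_mem' := (sat P.P z c (RRm z c)).zero_mem
      algebraMap_mem' := fun a => by
        rw [Algebra.algebraMap_eq_smul_one]
        exact (sat P.P z c (RRm z c)).smul_mem a
          (le_sat (fun r hr m hm => RRm_mul z hr hm) (RRm_one z c)) }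
  have h : P.RK z ≤ S := by
    refine iSup_le fun i => ?_
    rintro _ ⟨b, hb, rfl⟩
    exact P.Bh_sat z c i (P.B_le_Bh (c i) hb)
  exact h r.2

end Pool.Agent.MP_6e5bed_ag_KC
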