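import Pool.Agent.Lib.MP_6e5bed_ag.STfam

set_option autoImplicit false

/-!
# Project KC: the tensor power of a linear combination
-/

noncomputable section

namespace Pool.Agent.MP_6e5bed_ag_KC

open CategoryTheory MonoidalCategory Equiv
open Pool.Agent.MP_6e5bed_ag

universe v w

variable {C : Type w} [Category.{v} C] [MonoidalCategory C] [SymmetricCategory C] [Preadditive C]
  [Linear ℚ C] [MonoidalPreadditive C] [MonoidalLinear ℚ C] {X : C}

omit [SymmetricCategory C] in
private theorem LTm_smul {Y Y' Z Z' : C} (a b : ℚ) (f : Y ⟶ Y') (g : Z ⟶ Z') :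
    (a • f) ⊗ₘ (b • g) = (a * b) • (f ⊗ₘ g) := by
  rw [MonoidalCategory.tensorHom_def, MonoidalCategory.tensorHom_def,
    MonoidalLinear.smul_whiskerRight, MonoidalLinear.whiskerLeft_smul,
    Linear.smul_comp, Linear.comp_smul, smul_smul]

/-- Expansion of the tensor power of a linear combination (induction on `n`, `Fin.consEquiv`). -/
theorem tmap_sum {m : ℕ} (c : Fin m → ℚ) (β : Fin m → (X ⟶ X)) (n : ℕ) :
    tmap (∑ j, c j • β j) n =
      ∑ κ : Fin n → Fin m, (∏ i, c (κ i)) • tfam n fun i => β (κ i) := by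
  induction n with
  | zero =>
    refine Eq.trans ?_ (Fintype.sum_unique _).symm
    rw [Fin.prod_univ_zero, one_smul]
    rfl
  | succ n ih =>
    rw [← Equiv.sum_comp (Fin.consEquiv (fun _ : Fin (n + 1) => Fin m)), Fintype.sum_prod_type]
    change (∑ j, c j • β j) ⊗ₘ tmap (∑ j, c j • β j) n = _
    rw [ih, sum_tensor]
    refine Finset.sum_congr rfl fun j _ => ?_
    rw [tensor_sum]
    refine Finset.sum_congr rfl fun κ _ => ?_
    rw [LTm_smul, Fin.prod_univ_succ, tfam_succ]
    rfl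

/-- The sum over all permutations. -/
theorem sum_perm_tfam {m : ℕ} (c : Fin m → ℚ) (β : Fin m → (X ⟶ X)) (n : ℕ)
    (h : ∑ σ : Perm (Fin n), ∑ κ : Fin n → Fin m, (∏ i, c (κ i)) •
      (tfam n (fun i => β (κ i)) ≫ (perm X n σ : tpow X n ⟶ tpow X n)) = 0) :
    tmap (∑ j, c j • β j) n ≫ symSum X n = 0 := by
  rw [← h, tmap_sum, symSum, Preadditive.comp_sum]
  refine Finset.sum_congr rfl fun σ _ => ?_
  rw [Preadditive.sum_comp]
  refine Finset.sum_congr rfl fun κ _ => ?_
  rw [Linear.smul_comp]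

end Pool.Agent.MP_6e5bed_ag_KC
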