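import Pool.Agent.Lib.MP_6e5bed_ag_KC.VInv

set_option autoImplicit false

/-!
# KC, commutative side: additive functions on projective modules and on invertible ideals
-/

namespace Pool.Agent.MP_6e5bed_ag_KC

universe u v

variable {R : Type u} [CommRing R]

namespace VAdd

open scoped nonZeroDivisors

theorem isUnit [IsDomain R] {I : Ideal R} (h : Inv I) :
    IsUnit (I : FractionalIdeal R⁰ (FractionRing R)) := by
  obtain ⟨J, a, ha, hJ⟩ := h
  have h1 : (I : FractionalIdeal R⁰ (FractionRing R)) * (J : FractionalIdeal R⁰ (FractionRing R)) =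
      FractionalIdeal.spanSingleton R⁰ (algebraMap R (FractionRing R) a) := by
    rw [← FractionalIdeal.coeIdeal_mul, hJ, FractionalIdeal.coeIdeal_span_singleton]
  have h2 : algebraMap R (FractionRing R) a ≠ 0 := by
    intro h3
    exact ha ((IsFractionRing.injective R (FractionRing R)) (h3.trans (map_zero _).symm))
  refine IsUnit.of_mul_eq_one ((J : FractionalIdeal R⁰ (FractionRing R)) *
    FractionalIdeal.spanSingleton R⁰ (algebraMap R (FractionRing R) a)⁻¹) ?_
  rw [← mul_assoc, h1, FractionalIdeal.spanSingleton_mul_spanSingleton, mul_inv_cancel₀ h2,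
    FractionalIdeal.spanSingleton_one]

theorem pi_projective {ι : Type} [Fintype ι] (N : ι → Type u) [∀ i, AddCommGroup (N i)]
    [∀ i, Module R (N i)] [∀ i, Module.Projective R (N i)] : Module.Projective R (∀ i, N i) :=
  Module.Projective.of_equiv' (DFinsupp.linearEquivFunOnFintype (R := R) (M := N))

/-- the value on a trivial module -/
theorem f_sub {V : Type v} [AddCommGroup V] (χ : AddFun R V) (N : Type u) [AddCommGroup N]
    [Module R N] [Module.Finite R N] [Module.Projective R N] [Subsingleton N] : χ.f N = 0 := by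
  have h1 := χ.prod N N
  have h2 : χ.f (N × N) = χ.f N := χ.iso (0 : (N × N) ≃ₗ[R] N)
  rw [h2] at h1
  exact left_eq_add.1 h1

theorem f_fin {V : Type v} [AddCommGroup V] (χ : AddFun R V) (n : ℕ) :
    ∀ (N : Fin n → Type u) [∀ i, AddCommGroup (N i)] [∀ i, Module R (N i)]
      [∀ i, Module.Finite R (N i)] [∀ i, Module.Projective R (N i)]
      [Module.Projective R (∀ i, N i)], ∑ i, χ.f (N i) = χ.f (∀ i, N i) := by
  induction n with
  | zero =>
    intro N _ _ _ _ _
    rw [f_sub, Fin.sum_univ_zero]
  | succ n ih =>
    intro N _ _ _ _ _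
    haveI h1 : Module.Projective R (∀ i : Fin n, N i.succ) :=
      pi_projective fun i : Fin n => N i.succ
    rw [Fin.sum_univ_succ, ih (fun i : Fin n => N i.succ), ← χ.prod]
    exact χ.iso (Fin.consLinearEquiv R N)

end VAdd

/-- `I J = (a)`: `a = ∑ x_l y_l` with `x_l ∈ I`, `y_l ∈ J`, and for `x ∈ I`, `x y_l = a c_l`, so
`x = ∑ x_l c_l`: `I` is generated by the `x_l`. -/
theorem Inv.finite [IsDomain R] {I : Ideal R} (h : Inv I) : Module.Finite R I :=
  Module.Finite.iff_fg.2 (Ideal.fg_of_isUnit (IsFractionRing.injective R (FractionRing R)) I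
    (VAdd.isUnit h))

/-- As in `Inv.finite`: the maps `x ↦ (c_l)`, `c_l = x y_l / a`, and `(c_l) ↦ ∑ c_l x_l` make `I`
a direct summand of `R^n` (or use `FractionalIdeal` and projectivity of units). -/
theorem Inv.projective [IsDomain R] {I : Ideal R} (h : Inv I) : Module.Projective R I := by
  have h1 := (VAdd.isUnit h).map
    (FractionalIdeal.coeSubmoduleHom (nonZeroDivisors R) (FractionRing R))
  have h2 : IsUnit (Submodule.map (Algebra.linearMap R (FractionRing R)) I) := h1
  haveI h3 := Submodule.projective_of_isUnit h2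
  exact Module.Projective.of_equiv' (Submodule.equivMapOfInjective
    (Algebra.linearMap R (FractionRing R)) (IsFractionRing.injective R (FractionRing R)) I).symm

open Classical in
/-- The value of an additive function on an ideal. -/
noncomputable def AddFun.g {V : Type v} [AddCommGroup V] (χ : AddFun R V) (I : Ideal R) : V :=
  if h : Module.Finite R I ∧ Module.Projective R I then
    (haveI := h.1; haveI := h.2; χ.f I) else 0

theorem AddFun.g_eq {V : Type v} [AddCommGroup V] (χ : AddFun R V) {I : Ideal R}
    [Module.Finite R I] [Module.Projective R I] : χ.g I = χ.f I := by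
  unfold AddFun.g
  rw [dif_pos ⟨inferInstance, inferInstance⟩]

theorem VAdd.g_all [IsDomain R] {V : Type v} [AddCommGroup V] (χ : AddFun R V)
    {ι : Type} [Fintype ι] (I : ι → Ideal R) (hI : ∀ i, Inv (I i))
    [Module.Finite R (∀ i, I i)] [Module.Projective R (∀ i, I i)] :
    ∑ i, χ.g (I i) = χ.f (∀ i, I i) := by
  haveI h1 : ∀ i, Module.Finite R (I i) := fun i => (hI i).finite
  haveI h2 : ∀ i, Module.Projective R (I i) := fun i => (hI i).projective
  let e := Fintype.equivFin ι
  haveI h3 : Module.Projective R (∀ i, I (e.symm i)) :=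
    VAdd.pi_projective fun i => (I (e.symm i) : Type u)
  have h4 := VAdd.f_fin χ (Fintype.card ι) (fun i => (I (e.symm i) : Type u))
  have h5 : ∑ i, χ.g (I i) = ∑ i, χ.f (I (e.symm i)) := by
    rw [← Equiv.sum_comp e.symm]
    exact Finset.sum_congr rfl fun i _ => χ.g_eq
  rw [h5, h4]
  exact χ.iso (LinearEquiv.piCongrLeft' R (fun i => (I i : Type u)) e).symm

/-- Additive functions are additive on finite direct sums (induction on the number of summands;
`χ.f PUnit = 0` because `PUnit × PUnit ≃ PUnit`), so isomorphic direct sums of invertible ideals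
have the same values (both direct sums are finitely generated projective modules). -/
theorem AddFun.g_sum [IsDomain R] {V : Type v} [AddCommGroup V] (χ : AddFun R V)
    {ι κ : Type} [Fintype ι] [Fintype κ] (I : ι → Ideal R) (J : κ → Ideal R)
    (hI : ∀ i, Inv (I i)) (hJ : ∀ j, Inv (J j)) (e : Nonempty ((∀ i, I i) ≃ₗ[R] (∀ j, J j))) :
    ∑ i, χ.g (I i) = ∑ j, χ.g (J j) := by
  haveI h1 : ∀ i, Module.Finite R (I i) := fun i => (hI i).finite
  haveI h2 : ∀ i, Module.Projective R (I i) := fun i => (hI i).projective
  haveI h3 : ∀ i, Module.Finite R (J i) := fun i => (hJ i).finite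
  haveI h4 : ∀ i, Module.Projective R (J i) := fun i => (hJ i).projective
  haveI h5 : Module.Projective R (∀ i, I i) := VAdd.pi_projective fun i => (I i : Type u)
  haveI h6 : Module.Projective R (∀ i, J i) := VAdd.pi_projective fun i => (J i : Type u)
  obtain ⟨e⟩ := e
  rw [VAdd.g_all χ I hI, VAdd.g_all χ J hJ]
  exact χ.iso e

/-- The function on ideals given by an additive function. -/
noncomputable def AddFun.idFun [IsDomain R] {V : Type v} [AddCommGroup V] (χ : AddFun R V) :
    IdFun R V where
  g := χ.g
  sum := fun I J hI hJ e => χ.g_sum I J hI hJ e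

end Pool.Agent.MP_6e5bed_ag_KC
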