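import Pool.Agent.Lib.MP_6e5bed_ag_KC.VPI
import Pool.Agent.Lib.MP_6e5bed_ag_KC.VAdd

set_option autoImplicit false

/-!
# The permanent identity (interface of parts C and A of project KC)
-/

namespace Pool.Agent.MP_6e5bed_ag_KC

open scoped TensorProduct
open Equiv

universe u v

/-- The permanent identity in the Grothendieck group of projective modules. -/
theorem permanent_identity {k : Type u} [Field k] [IsAlgClosed k] (C : PtCurve k) :
    ∃ (J : ℕ) (c : Fin (J + 1) → ℚ) (n : ℕ), 0 < n ∧
      (∑ j, c j) = 0 ∧ (∑ j : Fin (J + 1), ((j : ℕ) : ℚ) * c j) = -1 ∧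
      ∀ (R : Type u) [CommRing R] [IsDomain R] [Algebra k R] [Algebra.FiniteType k R]
        (x y : Fin n → C.B →ₐ[k] R), Function.Injective (Sum.elim x y) →
        (∀ i p, x i ≠ C.cst p) → (∀ i p, y i ≠ C.cst p) →
        ∃ (hp : ∀ (σ : Perm (Fin n)) (κ : Fin n → Fin (J + 1)),
            Module.Projective R (C.prodIdeal x y σ κ))
          (hf : ∀ (σ : Perm (Fin n)) (κ : Fin n → Fin (J + 1)),
            Module.Finite R (C.prodIdeal x y σ κ)),
          ∀ (V : Type v) [AddCommGroup V] [Module ℚ V] (χ : AddFun R V),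
            ∑ σ : Perm (Fin n), ∑ κ : Fin n → Fin (J + 1), (∏ i, c (κ i)) •
              (haveI := hp σ κ; haveI := hf σ κ; χ.f (C.prodIdeal x y σ κ)) = 0 := by
  obtain ⟨J, c, n, hn, h1, h2, h⟩ := permIdentity.{u, v} C
  refine ⟨J, c, n, hn, h1, h2, fun R _ _ _ _ x y hxy hx hy => ?_⟩
  have hz : Function.Injective (Fin.append x y) := by
    have h3 : Fin.append x y = Sum.elim x y ∘ finSumFinEquiv.symm := by
      funext i
      obtain ⟨s, rfl⟩ := finSumFinEquiv.surjective i
      rcases s with s | s
      · rw [Function.comp_apply, Equiv.symm_apply_apply, finSumFinEquiv_apply_left,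
          Fin.append_left]
        rfl
      · rw [Function.comp_apply, Equiv.symm_apply_apply, finSumFinEquiv_apply_right,
          Fin.append_right]
        rfl
    rw [h3]
    exact hxy.comp finSumFinEquiv.symm.injective
  obtain ⟨hI, h4⟩ := h R x y hz (fun i p => by
    refine Fin.addCases (fun i => ?_) (fun i => ?_) i
    · rw [Fin.append_left]
      exact hx i p
    · rw [Fin.append_right]
      exact hy i p)
  refine ⟨fun σ κ => (hI σ κ).projective, fun σ κ => (hI σ κ).finite, fun V _ _ χ => ?_⟩
  refine Eq.trans ?_ (h4 V χ.idFun)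
  refine Finset.sum_congr rfl fun σ _ => Finset.sum_congr rfl fun κ _ => ?_
  have := (hI σ κ).projective
  have := (hI σ κ).finite
  exact congrArg _ (χ.g_eq (I := C.prodIdeal x y σ κ)).symm

end Pool.Agent.MP_6e5bed_ag_KC
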