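import Pool.Agent.Lib.MP_6e5bed_ag_KC.LPerm
import Pool.Agent.Lib.MP_6e5bed_ag_KC.LTm
import Pool.Agent.Lib.MP_6e5bed_ag_KC.LRK
import Pool.Agent.Lib.MP_6e5bed_ag_KC.LPidB
import Pool.Agent.Lib.MP_6e5bed_ag_KC.LIdl
import Pool.Agent.Lib.MP_6e5bed_ag_KC.PI

set_option autoImplicit false
set_option linter.unusedSectionVars false

/-!
# Project KC: the symmetrization of a power of the diagonal vanishes
-/

noncomputable section

namespace Pool.Agent.MP_6e5bed_ag_KC

open RatFunc CategoryTheory MonoidalCategory Equiv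
open Pool.Agent.MP_6e5bed_ag_NC
open Pool.Agent.MP_6e5bed_ag
open scoped TensorProduct

universe u v w

variable {k : Type u} [Field k] [IsAlgClosed k] {D : FExt k} (P : IPt D)

theorem latFunP_value {C : Type w} [Category.{v} C] [MonoidalCategory C] [SymmetricCategory C]
    [Preadditive C] {X : C} {β : ℕ → (X ⟶ X)} {n J : ℕ} (Φ : LatFunP D P.P P.hP X β n)
    {K : Type u} [Field K] [Algebra k K] (f : (KT D n).A →ₐ[k] K) (hf : Function.Injective f)
    {R : Type u} [CommRing R] [IsDomain R] [Algebra k R] [Algebra R K] [IsScalarTower k R K]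
    (hRK : Function.Injective (algebraMap R K))
    (xB yB : Fin n → P.curve.Pt R)
    (hx : ∀ i, ∀ b : P.B, algebraMap R K (xB i b) = f.comp (kx D n i) (b : D.L))
    (hy : ∀ i, ∀ b : P.B, algebraMap R K (yB i b) = f.comp (ky D n i) (b : D.L))
    (hR : RSat P.P (Sum.elim (fun i => f.comp (kx D n i)) fun i => f.comp (ky D n i)) R)
    (σ : Perm (Fin n)) (κ : Fin n → Fin (J + 1))
    (hp : Module.Projective R (P.curve.prodIdeal xB yB σ κ))
    (hf' : Module.Finite R (P.curve.prodIdeal xB yB σ κ)) :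
    (Φ.toLatFun.chi (Sum.elim (fun i => f.comp (kx D n i)) fun i => f.comp (ky D n i)) R hR).f
      (P.curve.prodIdeal xB yB σ κ) =
      tfam n (fun i => β (κ i : ℕ)) ≫ (perm X n σ : tpow X n ⟶ tpow X n) := by
  classical
  obtain ⟨S, hS⟩ := Module.Finite.iff_fg.1 hf'
  rw [Φ.toLatFun.chi_ideal (Sum.elim (fun i => f.comp (kx D n i)) fun i => f.comp (ky D n i)) R
    hRK hR (P.curve.prodIdeal xB yB σ κ) S hS (S.image (algebraMap R K)) (Finset.coe_image),
    ← Φ.val_LLs f hf (fun i => (κ i : ℕ)) σ]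
  refine Φ.toLatFun.comm _ K _ _ (spanL_fg _ K _) (LLs_fg _ σ _ _) (fun c => ?_) fun c => ?_
  · exact P.span_le_LLs _ _ xB yB hx hy hR σ κ S hS _ Finset.coe_image c
  · exact P.LLs_le_span _ _ xB yB hx hy hR σ κ S hS _ Finset.coe_image c

/-- THE END of the abstract part of the bridge. -/
theorem latFunP_final {C : Type w} [Category.{v} C] [MonoidalCategory C] [SymmetricCategory C]
    [Preadditive C] [Linear ℚ C] [MonoidalPreadditive C] [MonoidalLinear ℚ C] (X : C)
    (β : ℕ → (X ⟶ X)) (Φ : ∀ n, LatFunP D P.P P.hP X β n) :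
    ∃ (J : ℕ) (c : Fin (J + 1) → ℚ) (n : ℕ), 0 < n ∧ (∑ j, c j) = 0 ∧
      (∑ j : Fin (J + 1), ((j : ℕ) : ℚ) * c j) = -1 ∧
      tmap (∑ j : Fin (J + 1), c j • β (j : ℕ)) n ≫ symSum X n = 0 := by
  obtain ⟨J, c, n, hn, h1, h2, h⟩ := permanent_identity.{u, v} P.curve
  refine ⟨J, c, n, hn, h1, h2, ?_⟩
  let K : Type u := FractionRing (KT D n).A
  let f : (KT D n).A →ₐ[k] K := IsScalarTower.toAlgHom k (KT D n).A K
  have hf : Function.Injective f := IsFractionRing.injective (KT D n).A K
  let x : Fin n → (D.L →ₐ[k] K) := fun i => f.comp (kx D n i)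
  let y : Fin n → (D.L →ₐ[k] K) := fun i => f.comp (ky D n i)
  let R := P.RK (Sum.elim x y)
  let xB : Fin n → P.curve.Pt R := fun i => P.pB (Sum.elim x y) (Sum.inl i)
  let yB : Fin n → P.curve.Pt R := fun i => P.pB (Sum.elim x y) (Sum.inr i)
  have hRK : Function.Injective (algebraMap R K) := Subtype.val_injective
  have hR : RSat P.P (Sum.elim x y) R := P.RK_sat (Sum.elim x y)
  have hft : Algebra.FiniteType k R := P.RK_ft (Sum.elim x y)
  have key : ∀ i j : Fin n ⊕ Fin n, ((Sum.elim x y i).comp P.B.val =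
      (Sum.elim x y j).comp P.B.val) → i = j := by
    intro i j hij
    refine KT_pts_inj P n (AlgHom.ext fun b => hf ?_)
    have h3 := AlgHom.congr_fun hij b
    rcases i with i | i <;> rcases j with j | j <;> exact h3
  have hinj : Function.Injective (Sum.elim xB yB) := by
    intro i j hij
    refine key i j (AlgHom.ext fun b => ?_)
    have h3 : Sum.elim xB yB i b = Sum.elim xB yB j b := by rw [hij]
    have h4 := congrArg (Subtype.val : R → K) h3
    rcases i with i | i <;> rcases j with j | j <;> exact h4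
  have hcst : ∀ (i : Fin n ⊕ Fin n) (p : P.curve.Pt k), Sum.elim xB yB i ≠ P.curve.cst p := by
    intro i p hip
    refine KT_pts_ne P n i p (AlgHom.ext fun b => hf ?_)
    have h3 : Sum.elim xB yB i b = P.curve.cst p b := by rw [hip]
    have h4 := congrArg (Subtype.val : R → K) h3
    have h5 : f (algebraMap k (KT D n).A (p b)) = algebraMap k K (p b) := f.commutes _
    rcases i with i | i
    · exact h4.trans h5.symm
    · exact h4.trans h5.symm
  obtain ⟨hp, hfin, h3⟩ := h R xB yB hinj (fun i p => hcst (Sum.inl i) p)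
    fun i p => hcst (Sum.inr i) p
  have h4 := h3 (tpow X n ⟶ tpow X n) ((Φ n).toLatFun.chi (Sum.elim x y) R hR)
  refine sum_perm_tfam c (fun j => β (j : ℕ)) n (Eq.trans ?_ h4)
  refine Finset.sum_congr rfl fun σ _ => Finset.sum_congr rfl fun κ _ => ?_
  have h5 := latFunP_value P (Φ n) f hf hRK xB yB (fun i b => rfl) (fun i b => rfl) hR σ κ
    (hp σ κ) (hfin σ κ)
  exact congrArg _ h5.symm

end Pool.Agent.MP_6e5bed_ag_KC
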