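import Pool.Agent.Lib.MP_6e5bed_ag_KC.LMor
import Pool.Agent.Lib.MP_6e5bed_ag_KC.LNoeB

set_option autoImplicit false
set_option linter.unusedSectionVars false

/-!
# Kernels of maps of lattices (project KC, part B2)
-/

namespace Pool.Agent.MP_6e5bed_ag_KC

open RatFunc
open Pool.Agent.MP_6e5bed_ag_NC

universe u

variable {k : Type u} [Field k] {D : FExt k} {ι : Type} [DecidableEq ι]

private theorem LKer_slotE {E E' : LSys D ι} (f : E.H →ₗ[k] E'.H)
    (he : ∀ i a m, f (E.act i a m) = E'.act i a (f m)) (i : ι)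
    (x : Matrix (Fin 3) (Fin 3) D.L) (F : (ι → Fin 3) → E.H) (c : ι → Fin 3) :
    f (Lat.slotE E i x F c) = Lat.slotE E' i x (fun c => f (F c)) c := by
  rw [Lat.slotE_apply, Lat.slotE_apply, map_sum]
  exact Finset.sum_congr rfl fun d _ => he i _ _

/-- the map of the spaces of families given by an equivariant map of systems -/
private noncomputable def LKer_map {E E' : LSys D ι} (N : Lat E) (N' : Lat E')
    (f : E.H →ₗ[k] E'.H) (hN : ∀ c, ∀ m ∈ N.N c, f m ∈ N'.N c) : N.V →ₗ[k] N'.V where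
  toFun F := ⟨fun c => f (F.1 c), fun c => hN c _ (F.2 c)⟩
  map_add' F G := Subtype.ext (funext fun c => by
    change f ((F + G : N.V).1 c) = f (F.1 c) + f (G.1 c)
    rw [← map_add]
    rfl)
  map_smul' r F := Subtype.ext (funext fun c => by
    change f ((r • F : N.V).1 c) = r • f (F.1 c)
    rw [← map_smul]
    rfl)

/-- the equivariant map of the bimodules -/
private noncomputable def LKer_hom {E E' : LSys D ι} (N : Lat E) (N' : Lat E')
    (f : E.H →ₗ[k] E'.H) (he : ∀ i a m, f (E.act i a m) = E'.act i a (f m))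
    (hN : ∀ c, ∀ m ∈ N.N c, f m ∈ N'.N c) {p q : ℕ} (lam : Fin p → ι) (rho : Fin q → ι)
    (hl : Function.Injective lam) (hr : Function.Injective rho) (hd : ∀ i j, lam i ≠ rho j) :
    Acts.Hom (N.acts lam rho hl hr hd) (N'.acts lam rho hl hr hd) where
  f := LKer_map N N' f hN
  l i a F := Subtype.ext (funext fun c => LKer_slotE f he (lam i) a.1 F.1 c)
  r i b F := Subtype.ext (funext fun c => LKer_slotE f he (rho i) b.1.transpose F.1 c)

/-- The elements of a lattice which are killed by an equivariant map `φ`. -/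
def Lat.kerIn {E E' : LSys D ι} (P : Lat E) (φ : E.H →ₗ[k] E'.H)
    (he : ∀ i a m, φ (E.act i a m) = E'.act i a (φ m)) : Lat E where
  N := fun c => P.N c ⊓ LinearMap.ker φ
  smul := fun c i b hb m hm => ⟨P.smul c i b hb m hm.1, by
    rw [SetLike.mem_coe, LinearMap.mem_ker, he, LinearMap.mem_ker.1 hm.2, map_zero]⟩
  mono := fun c i => inf_le_inf_right _ (P.mono c i)
  loc0 := fun c i m hm => by
    obtain ⟨n, hn⟩ := P.loc0 c i m hm.1
    refine ⟨n, hn, ?_⟩
    rw [SetLike.mem_coe, LinearMap.mem_ker, he, LinearMap.mem_ker.1 hm.2, map_zero]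
  loc1 := fun c i m hm => by
    obtain ⟨n, hn⟩ := P.loc1 c i m hm.1
    refine ⟨n, hn, ?_⟩
    rw [SetLike.mem_coe, LinearMap.mem_ker, he, LinearMap.mem_ker.1 hm.2, map_zero]

theorem Lat.kerIn_FG [Fintype ι] {E E' : LSys D ι} {P : Lat E} (hP : P.FG) (φ : E.H →ₗ[k] E'.H)
    (he : ∀ i a m, φ (E.act i a m) = E'.act i a (φ m)) : (P.kerIn φ he).FG :=
  hP.of_le fun _ => inf_le_left

/-- The exact sequence of the kernel.

Proof. `Acts.ses` for the inclusion `f ↦ f` and `f ↦ (c ↦ φ (f c))`; the second map is surjective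
since the components are (choose preimages). The maps are compatible with `slotE` by `he`
(`slotL_coe`, `slotR_coe`, `slotE_apply`, `map_sum`). -/
theorem Lat.kerIn_ses {E E' : LSys D ι} (P : Lat E) (N : Lat E') (φ : E.H →ₗ[k] E'.H)
    (he : ∀ i a m, φ (E.act i a m) = E'.act i a (φ m)) (hN : ∀ c, N.N c = (P.N c).map φ)
    {p q : ℕ} (lam : Fin p → ι) (rho : Fin q → ι)
    (hl : Function.Injective lam) (hr : Function.Injective rho) (hd : ∀ i j, lam i ≠ rho j) :
    IsSes ((P.kerIn φ he).acts lam rho hl hr hd).bim (P.acts lam rho hl hr hd).bim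
      (N.acts lam rho hl hr hd).bim := by
  have n1 : ∀ c, ∀ m ∈ (P.kerIn φ he).N c, (LinearMap.id : E.H →ₗ[k] E.H) m ∈ P.N c :=
    fun c m hm => hm.1
  have n2 : ∀ c, ∀ m ∈ P.N c, φ m ∈ N.N c := fun c m hm => by
    rw [hN c]
    exact Submodule.mem_map_of_mem hm
  refine Acts.ses (LKer_hom (P.kerIn φ he) P LinearMap.id (fun _ _ _ => rfl) n1 lam rho hl hr hd)
    (LKer_hom P N φ he n2 lam rho hl hr hd) ?_ ?_ ?_
  · intro F G h
    refine Subtype.ext (funext fun c => ?_)
    exact congrFun (congrArg Subtype.val h) c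
  · intro G
    have h1 : ∀ c, ∃ m ∈ P.N c, φ m = G.1 c := fun c => by
      have h2 := G.2 c
      rw [hN c] at h2
      exact h2
    choose m hm hm' using h1
    exact ⟨⟨m, hm⟩, Subtype.ext (funext hm')⟩
  · intro x
    constructor
    · intro h
      refine ⟨⟨x.1, fun c => ⟨x.2 c, ?_⟩⟩, rfl⟩
      exact congrFun (congrArg Subtype.val h) c
    · rintro ⟨y, rfl⟩
      exact Subtype.ext (funext fun c => (y.2 c).2)

end Pool.Agent.MP_6e5bed_ag_KC
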