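import Pool.Agent.Lib.MP_6e5bed_ag_KC.LPL
import Pool.Agent.Lib.MP_6e5bed_ag_KC.LProdB
import Pool.Agent.Lib.MP_6e5bed_ag_KC.BOne
import Pool.Agent.Lib.MP_6e5bed_ag_CV.LPB

set_option autoImplicit false
set_option linter.unusedSectionVars false

/-!
# Finiteness for the twists of the structure sheaf (project KC, part B2)

Proof of `tws_li`, `tws_ri`. Let `N` be the lattice pair `LP.tw (LP.OO D) (-m)` in
`(LSp.one D).F = D.L` (`mem_tw_N0`, `mem_tw_N1`, `smul_tt`, `smul_tt_inv`): its components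
`N.cp a` are `twN D 0 m a` (`mem_twN`, `mem_BB`; for `a = 2` both are `BB D 2`, `mem_twN_two`,
`mem_BB2`), so it is stable (`twN_smul`). For `d = 0` the isomorphism is
`f ↦ (a ↦ f (fun _ => a))`. For `d = 1` one has `x ∈ twN D 1 m a ↔ (tt D)⁻¹ ^ m * x ∈ twN D 0 m a`,
and the isomorphism is `f ↦ (a ↦ (tt D)⁻¹ ^ m * f (fun _ => a))`.
-/

namespace Pool.Agent.MP_6e5bed_ag_KC

open RatFunc
open Pool.Agent.MP_6e5bed_ag_NC

universe u

variable {k : Type u} [Field k] {D : FExt k} {F : LSp D}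

/-- The twist of the structure sheaf, as a lattice pair. -/
private noncomputable def LOne_N (D : FExt k) (m : ℕ) : LP k (LSp.one D).F :=
  LP.tw (E := D.L) (LP.OO D) (-(m : ℤ))

private theorem LOne_mem (D : FExt k) (m : ℕ) (a : Fin 3) (v : D.L) :
    v ∈ LP.cp (E := (LSp.one D).F) (LOne_N D m) a ↔ v ∈ twN D 0 m a := by
  fin_cases a
  · change v ∈ (LP.OO D).cp 0 ↔ twc D 0 m 0 * v ∈ BB D 0
    rw [twc_self, one_mul]
    exact Iff.rfl
  · have e : twc D 0 m 1 = tt D ^ m := by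
      unfold twc
      rw [if_neg (by decide), if_neg (by decide)]
    change (X : RatFunc k) ^ (-(-(m : ℤ))) • v ∈ (LP.OO D).N1 ↔ twc D 0 m 1 * v ∈ BB D 1
    rw [neg_neg, zpow_natCast, smul_tt, e]
    exact Iff.rfl
  · change v ∈ (LP.OO D).cp 2 ↔ v ∈ twN D 0 m 2
    rw [mem_twN_two]
    exact Iff.rfl

private theorem LOne_st (D : FExt k) (m : ℕ) : BSt (F := LSp.one D) (LOne_N D m) := by
  intro c b hb v hv
  exact (LOne_mem D m c (b * (show D.L from v))).2 (twN_smul hb ((LOne_mem D m c v).1 hv))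

private theorem LOne_sc (D : FExt k) (d : Fin 3) (hd : d ≠ 2) (m : ℕ) : ∃ s : D.L, s ≠ 0 ∧
    ∀ (a : Fin 3) (x : D.L), x ∈ twN D d m a ↔ s * x ∈ twN D 0 m a := by
  have ht := tt_ne_zero D
  have h1 : tt D ^ m * (tt D)⁻¹ ^ m = 1 := by
    rw [← mul_pow, mul_inv_cancel₀ ht, one_pow]
  fin_cases d
  · exact ⟨1, one_ne_zero, fun a x => by rw [one_mul]; exact Iff.rfl⟩
  · refine ⟨(tt D)⁻¹ ^ m, pow_ne_zero m (inv_ne_zero ht), fun a x => ?_⟩
    change x ∈ twN D 1 m a ↔ _
    fin_cases a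
    · change x ∈ twN D 1 m 0 ↔ (tt D)⁻¹ ^ m * x ∈ twN D 0 m 0
      rw [mem_twN_self, mem_twN]
      unfold twc
      rw [if_neg (by decide), if_pos rfl]
    · change x ∈ twN D 1 m 1 ↔ (tt D)⁻¹ ^ m * x ∈ twN D 0 m 1
      rw [mem_twN_self, mem_twN]
      unfold twc
      rw [if_neg (by decide), if_neg (by decide), ← mul_assoc, h1, one_mul]
    · change x ∈ twN D 1 m 2 ↔ (tt D)⁻¹ ^ m * x ∈ twN D 0 m 2
      rw [mem_twN_two, mem_twN_two]
      constructor
      · exact fun h => (BB D 2).mul_mem ((BB D 2).pow_mem (tt_inv_mem_BB2 D) m) h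
      · intro h
        have h2 := (BB D 2).mul_mem ((BB D 2).pow_mem (tt_mem_BB2 D) m) h
        rwa [← mul_assoc, h1, one_mul] at h2
  · exact absurd rfl hd

/-- The comparison map. -/
private noncomputable def LOne_f (N' : Lat (LSys.fn D)) (N : LP k (LSp.one D).F) (s : D.L)
    (h : ∀ (c : Unit → Fin 3) (x : D.L), x ∈ (show Submodule k D.L from N'.N c) ↔
      s * x ∈ (show Submodule k D.L from N.cp (c ()))) : N'.V →ₗ[k] dgmN N where
  toFun f := ⟨fun a => s * (show D.L from f.1 (fun _ => a)),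
    fun a => (h (fun _ => a) _).1 (f.2 (fun _ => a))⟩
  map_add' f g := Subtype.ext (funext fun a => mul_add s (show D.L from f.1 (fun _ => a))
    (show D.L from g.1 (fun _ => a)))
  map_smul' r f := Subtype.ext (funext fun a => mul_smul_comm r s
    (show D.L from f.1 (fun _ => a)))

private theorem LOne_bij (N' : Lat (LSys.fn D)) (N : LP k (LSp.one D).F) (s : D.L) (hs : s ≠ 0)
    (h : ∀ (c : Unit → Fin 3) (x : D.L), x ∈ (show Submodule k D.L from N'.N c) ↔
      s * x ∈ (show Submodule k D.L from N.cp (c ()))) : Function.Bijective (LOne_f N' N s h) := by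
  constructor
  · intro f g hfg
    refine Subtype.ext (funext fun c => ?_)
    have h1 : s * (show D.L from f.1 (fun _ => c ())) = s * (show D.L from g.1 (fun _ => c ())) :=
      congrFun (congrArg Subtype.val hfg) (c ())
    have h2 : (show D.L from f.1 (fun _ => c ())) = (show D.L from g.1 (fun _ => c ())) :=
      mul_left_cancel₀ hs h1
    exact h2
  · intro w
    refine ⟨⟨fun c => (show D.L from s⁻¹ * (show D.L from w.1 (c ()))), fun c => ?_⟩, ?_⟩
    · refine (h c (s⁻¹ * (show D.L from w.1 (c ())))).2 ?_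
      have e : s * (s⁻¹ * (show D.L from w.1 (c ()))) = w.1 (c ()) := by
        rw [← mul_assoc, mul_inv_cancel₀ hs, one_mul]
      rw [e]
      exact w.2 (c ())
    · refine Subtype.ext (funext fun a => ?_)
      change s * (s⁻¹ * (show D.L from w.1 a)) = w.1 a
      rw [← mul_assoc, mul_inv_cancel₀ hs, one_mul]

private theorem LOne_upd (a d : Fin 3) : Function.update (fun _ : Unit => a) () d =
    fun _ => d := by
  funext i
  simp

private theorem LOne_li (N' : Lat (LSys.fn D)) (N : LP k (LSp.one D).F) (hN : BSt N) (s : D.L)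
    (hs : s ≠ 0) (h : ∀ (c : Unit → Fin 3) (x : D.L), x ∈ (show Submodule k D.L from N'.N c) ↔
      s * x ∈ (show Submodule k D.L from N.cp (c ()))) :
    BIso (A := GaL D) (B := base k) (N'.li ()) (dgmL N hN).bim := by
  refine BIso.of_bij (A := GaL D) (B := base k) (M := N'.li ()) (N := (dgmL N hN).bim)
    ⟨LOne_f N' N s h, fun {i m} hm => ?_, fun a m => ?_, fun b m => ?_⟩ ?_
    (LOne_bij N' N s hs h)
  · rw [add_zero]
    rcases Dg.conc_cases hm with rfl | rfl
    · exact Dg.conc_deg _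
    · rw [map_zero]
      exact Dg.IsDeg.zero _
  · rw [Dg.sp_even Even.zero]
    refine Subtype.ext (funext fun a' => ?_)
    change s * (∑ d, a.1 a' d * (show D.L from m.1 (Function.update (fun _ => a') () d))) =
      ∑ b, a.1 a' b * (s * (show D.L from m.1 (fun _ => b)))
    rw [Finset.mul_sum]
    refine Finset.sum_congr rfl fun d _ => ?_
    rw [LOne_upd, mul_left_comm]
  · exact (LOne_f N' N s h).map_smul b m
  · refine LinearMap.ext fun x => ?_
    rw [GMap.dd_apply, sg_zero, one_smul, LinearMap.zero_apply, sub_eq_zero]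
    change (0 : dgmN N) = LOne_f N' N s h (0 : N'.V)
    rw [map_zero]

private theorem LOne_ri (N' : Lat (LSys.fn D)) (N : LP k (LSp.one D).F) (hN : BSt N) (s : D.L)
    (hs : s ≠ 0) (h : ∀ (c : Unit → Fin 3) (x : D.L), x ∈ (show Submodule k D.L from N'.N c) ↔
      s * x ∈ (show Submodule k D.L from N.cp (c ()))) :
    BIso (A := base k) (B := GaR D) (N'.ri ()) (dgmR N hN).bim := by
  refine BIso.of_bij (A := base k) (B := GaR D) (M := N'.ri ()) (N := (dgmR N hN).bim)
    ⟨LOne_f N' N s h, fun {i m} hm => ?_, fun a m => ?_, fun b m => ?_⟩ ?_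
    (LOne_bij N' N s hs h)
  · rw [add_zero]
    rcases Dg.conc_cases hm with rfl | rfl
    · exact Dg.conc_deg _
    · rw [map_zero]
      exact Dg.IsDeg.zero _
  · rw [Dg.sp_even Even.zero]
    exact (LOne_f N' N s h).map_smul a m
  · refine Subtype.ext (funext fun a' => ?_)
    change s * (∑ d, b.1 d a' * (show D.L from m.1 (Function.update (fun _ => a') () d))) =
      ∑ a, b.1 a a' * (s * (show D.L from m.1 (fun _ => a)))
    rw [Finset.mul_sum]
    refine Finset.sum_congr rfl fun d _ => ?_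
    rw [LOne_upd, mul_left_comm]
  · refine LinearMap.ext fun x => ?_
    rw [GMap.dd_apply, sg_zero, one_smul, LinearMap.zero_apply, sub_eq_zero]
    change (0 : dgmN N) = LOne_f N' N s h (0 : N'.V)
    rw [map_zero]

theorem tws_li (d : Fin 3) (hd : d ≠ 2) (m : ℕ) :
    ∃ (N : LP k (LSp.one D).F) (hN : BSt N),
      BIso (A := GaL D) (B := base k) ((tws D d m).li ()) (dgmL N hN).bim := by
  obtain ⟨s, hs, h⟩ := LOne_sc D d hd m
  exact ⟨LOne_N D m, LOne_st D m, LOne_li (tws D d m) (LOne_N D m) (LOne_st D m) s hs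
    fun c x => (h (c ()) x).trans (LOne_mem D m (c ()) (s * x)).symm⟩

theorem tws_ri (d : Fin 3) (hd : d ≠ 2) (m : ℕ) :
    ∃ (N : LP k (LSp.one D).F) (hN : BSt N),
      BIso (A := base k) (B := GaR D) ((tws D d m).ri ()) (dgmR N hN).bim := by
  obtain ⟨s, hs, h⟩ := LOne_sc D d hd m
  exact ⟨LOne_N D m, LOne_st D m, LOne_ri (tws D d m) (LOne_N D m) (LOne_st D m) s hs
    fun c x => (h (c ()) x).trans (LOne_mem D m (c ()) (s * x)).symm⟩

/-- `finCoh_dgmL`, `(tbL (ZL V hV) (base k)).biso` and `QIso.finCoh` (with `qiso_of_inv`). -/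
theorem finCoh_tws_li (V : LP k F.F) (hV : BSt V) (d : Fin 3) (hd : d ≠ 2) (m : ℕ) :
    (tb (ZL V hV) ((tws D d m).li ())).dg.FinCoh := by
  obtain ⟨N, hN, e⟩ := tws_li (D := D) d hd m
  obtain ⟨φ, ψ, h0, h1, h2⟩ := (tbL (ZL V hV) (base k)).biso e
  exact (QIso.finCoh φ (qiso_of_inv h0 h1 h2)).2 (finCoh_dgmL V hV N hN)

theorem finCoh_tws_ri (V : LP k F.F) (d : Fin 3) (hd : d ≠ 2) (m : ℕ) :
    (tb ((tws D d m).ri ()) (ZR V)).dg.FinCoh := by
  obtain ⟨N, hN, e⟩ := tws_ri (D := D) d hd m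
  obtain ⟨φ, ψ, h0, h1, h2⟩ := (tbR (base k) (ZR V)).biso e
  exact (QIso.finCoh φ (qiso_of_inv h0 h1 h2)).2 (finCoh_dgmR V N hN)

end Pool.Agent.MP_6e5bed_ag_KC
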