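import Pool.Agent.Lib.MP_6e5bed_ag_KC.LVal
import Pool.Agent.Lib.MP_6e5bed_ag_KC.LCov
import Pool.Agent.Lib.MP_6e5bed_ag_KC.LKer
import Pool.Agent.Lib.MP_6e5bed_ag_KC.HFin
import Pool.Agent.Lib.MP_6e5bed_ag_KC.HKun
import Pool.Agent.Lib.MP_6e5bed_ag_KC.LOne
import Pool.Agent.Lib.MP_6e5bed_ag_CV.FCRes

set_option autoImplicit false
set_option linter.unusedSectionVars false

/-!
# Finiteness for lattices (project KC, part B2)
-/

namespace Pool.Agent.MP_6e5bed_ag_KC

open RatFunc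
open Pool.Agent.MP_6e5bed_ag_NC

universe u

variable {k : Type u} [Field k] {D : FExt k} {F : LSp D} (V : LP k F.F) (hV : BSt V)

private theorem LFinC_rng {p q : ℕ} {E : LSys D (Fin p ⊕ Fin q)} (N : Lat E) :
    (lbim V hV N).dg.Rng 0 (p + q) := by
  refine Rng.Cc (rng_ZL V hV) (rng_ZR V) p q ?_
  intro i v hv hi
  have h0 : Dg.Zero (Dg.conc k N.bb.V) := Dg.conc_zero
  rcases h0.cases hv with h | h
  · omega
  · exact h

private theorem LFinC_zero {E : LSys D (Fin 0 ⊕ Fin 0)} (N : Lat E) (hN : N.FG) :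
    (lbim V hV N).dg.FinCoh := by
  have hf : Module.Finite k N.V := by
    let c₀ : Fin 0 ⊕ Fin 0 → Fin 3 := fun _ => 0
    have hc : ∀ c : Fin 0 ⊕ Fin 0 → Fin 3, c = c₀ := fun c => funext fun i => by
      rcases i with i | i <;> exact i.elim0
    obtain ⟨S, h1, h2⟩ := N.fg_iff_stable.1 hN c₀
    have h3 : N.N c₀ ≤ Submodule.span k (S : Set E.H) :=
      h2 _ (fun i => by rcases i with i | i <;> exact i.elim0)
        fun s hs => Submodule.subset_span hs
    have h4 : Module.Finite k (Submodule.span k (S : Set E.H)) :=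
      FiniteDimensional.span_finset k S
    let g : N.V →ₗ[k] Submodule.span k (S : Set E.H) :=
      { toFun := fun f => ⟨f.1 c₀, h3 (f.2 c₀)⟩
        map_add' := fun f f' => rfl
        map_smul' := fun r f => rfl }
    refine Module.Finite.of_injective g fun f f' h => ?_
    refine Subtype.ext (funext fun c => ?_)
    rw [hc c]
    exact congrArg Subtype.val h
  have h5 : N.bb.bim.dg.FinCoh := by
    have : Module.Finite k N.bb.V := hf
    exact Dg.finCoh_of_finite (Dg.conc k N.bb.V)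
  exact (Cc_zero (ZL V hV) (ZR V) N.bb.bim).symm.finCoh h5

private theorem LFinC_prod {p q : ℕ} {E E' : LSys D (Fin p ⊕ Fin q)} (N : Lat E) (N' : Lat E')
    (h : (lbim V hV N).dg.FinCoh) (h' : (lbim V hV N').dg.FinCoh) :
    (lbim V hV (N.prod N')).dg.FinCoh :=
  (lbim_ex V hV p q).finCoh_mid (N.acts_prod N' Sum.inl Sum.inr Sum.inl_injective
    Sum.inr_injective fun _ _ => Sum.inl_ne_inr) h h'

/-- The descending induction. -/
private theorem LFinC_desc {p q : ℕ} {ι : Type} [DecidableEq ι] [Fintype ι]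
    (e : Unit ⊕ ι ≃ Fin p ⊕ Fin q)
    (hp : ∀ (E : LSys D (Fin p ⊕ Fin q)) (d : Fin 3) (_ : d ≠ 2) (m : ℕ)
      (M : Lat (E.tl e)), M.FG → (lbim V hV (twP E e d m M)).dg.FinCoh) :
    ∀ (n : ℕ) (j : ℤ), (p : ℤ) + q < j + n → ∀ (E : LSys D (Fin p ⊕ Fin q)) (N : Lat E), N.FG →
      (lbim V hV N).dg.HF j := by
  intro n
  induction n with
  | zero =>
    intro j hj E N _
    exact (LFinC_rng V hV N).HF (by push_cast at hj; omega)
  | succ n ih =>
    intro j hj E N hN
    obtain ⟨m, M₀, M₁, h₀, h₁, hc⟩ := N.cover hN e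
    let P : Lat (((E.tl e).cons e).prod ((E.tl e).cons e)) :=
      (twP E e 0 m M₀).prod (twP E e 1 m M₁)
    let φ : (((E.tl e).cons e).prod ((E.tl e).cons e)).H →ₗ[k] E.H :=
      (E.mu (e (Sum.inl ()))).coprod (E.mu (e (Sum.inl ())))
    have he : ∀ i a m, φ ((((E.tl e).cons e).prod ((E.tl e).cons e)).act i a m) =
        E.act i a (φ m) := by
      rintro i a ⟨x, y⟩
      change E.mu (e (Sum.inl ())) (((E.tl e).cons e).act i a x) +
        E.mu (e (Sum.inl ())) (((E.tl e).cons e).act i a y) =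
          E.act i a (E.mu (e (Sum.inl ())) x + E.mu (e (Sum.inl ())) y)
      rw [E.mu_act, E.mu_act, map_add]
    have hNc : ∀ c, N.N c = (P.N c).map φ := by
      intro c
      rw [hc c]
      refine le_antisymm (sup_le ?_ ?_) ?_
      · rintro _ ⟨x, hx, rfl⟩
        refine ⟨(x, 0), ⟨hx, Submodule.zero_mem _⟩, ?_⟩
        change E.mu (e (Sum.inl ())) x + E.mu (e (Sum.inl ())) 0 = _
        rw [map_zero, add_zero]
      · rintro _ ⟨x, hx, rfl⟩
        refine ⟨(0, x), ⟨Submodule.zero_mem _, hx⟩, ?_⟩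
        change E.mu (e (Sum.inl ())) 0 + E.mu (e (Sum.inl ())) x = _
        rw [map_zero, zero_add]
      · rintro _ ⟨⟨x, y⟩, ⟨hx, hy⟩, rfl⟩
        exact Submodule.add_mem_sup ⟨x, hx, rfl⟩ ⟨y, hy, rfl⟩
    have hP : P.FG := (twP_FG E e 0 m h₀).prod (twP_FG E e 1 m h₁)
    have hPf : (lbim V hV P).dg.FinCoh :=
      LFinC_prod V hV _ _ (hp E 0 (by decide) m M₀ h₀) (hp E 1 (by decide) m M₁ h₁)
    have hK := ih (j + 1) (by push_cast at hj ⊢; omega) _ (P.kerIn φ he) (P.kerIn_FG hP φ he)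
    exact (lbim_ex V hV p q).HF_right (P.kerIn_ses N φ he hNc Sum.inl Sum.inr
      Sum.inl_injective Sum.inr_injective fun _ _ => Sum.inl_ne_inr) (hPf.HF j) hK

private theorem LFinC_of {p q : ℕ} {ι : Type} [DecidableEq ι] [Fintype ι]
    (e : Unit ⊕ ι ≃ Fin p ⊕ Fin q)
    (hp : ∀ (E : LSys D (Fin p ⊕ Fin q)) (d : Fin 3) (_ : d ≠ 2) (m : ℕ)
      (M : Lat (E.tl e)), M.FG → (lbim V hV (twP E e d m M)).dg.FinCoh)
    (E : LSys D (Fin p ⊕ Fin q)) (N : Lat E) (hN : N.FG) : (lbim V hV N).dg.FinCoh := by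
  refine Dg.finCoh_of_HF (LFinC_rng V hV N) fun j => ?_
  refine LFinC_desc V hV e hp ((p : ℤ) + q + 1 - j).toNat j ?_ E N hN
  have := Int.self_le_toNat ((p : ℤ) + q + 1 - j)
  omega

/-- The first left factor. -/
private noncomputable def LFinC_eL (p q : ℕ) : Unit ⊕ (Fin p ⊕ Fin q) ≃ Fin (p + 1) ⊕ Fin q :=
  Equiv.ofBijective (Sum.elim (fun _ => Sum.inl 0) (Sum.map Fin.succ id)) (by
    constructor
    · rintro (a | a | a) (b | b | b) h
      · rfl
      · exact absurd (Sum.inl_injective h) (Fin.succ_ne_zero b).symm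
      · exact absurd h Sum.inl_ne_inr
      · exact absurd (Sum.inl_injective h) (Fin.succ_ne_zero a)
      · rw [Fin.succ_injective _ (Sum.inl_injective h)]
      · exact absurd h Sum.inl_ne_inr
      · exact absurd h Sum.inr_ne_inl
      · exact absurd h Sum.inr_ne_inl
      · rw [show a = b from Sum.inr_injective h]
    · rintro (a | a)
      · refine Fin.cases ?_ (fun a => ?_) a
        · exact ⟨Sum.inl (), rfl⟩
        · exact ⟨Sum.inr (Sum.inl a), rfl⟩
      · exact ⟨Sum.inr (Sum.inr a), rfl⟩)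

/-- The first right factor. -/
private noncomputable def LFinC_eR (p q : ℕ) : Unit ⊕ (Fin p ⊕ Fin q) ≃ Fin p ⊕ Fin (q + 1) :=
  Equiv.ofBijective (Sum.elim (fun _ => Sum.inr 0) (Sum.map id Fin.succ)) (by
    constructor
    · rintro (a | a | a) (b | b | b) h
      · rfl
      · exact absurd h Sum.inr_ne_inl
      · exact absurd (Sum.inr_injective h) (Fin.succ_ne_zero b).symm
      · exact absurd h Sum.inl_ne_inr
      · rw [show a = b from Sum.inl_injective h]
      · exact absurd h Sum.inl_ne_inr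
      · exact absurd (Sum.inr_injective h) (Fin.succ_ne_zero a)
      · exact absurd h Sum.inr_ne_inl
      · rw [Fin.succ_injective _ (Sum.inr_injective h)]
    · rintro (a | a)
      · exact ⟨Sum.inr (Sum.inl a), rfl⟩
      · refine Fin.cases ?_ (fun a => ?_) a
        · exact ⟨Sum.inl (), rfl⟩
        · exact ⟨Sum.inr (Sum.inr a), rfl⟩)

private theorem LFinC_twL {p q : ℕ}
    (ih : ∀ (E : LSys D (Fin p ⊕ Fin q)) (N : Lat E), N.FG → (lbim V hV N).dg.FinCoh)
    (E : LSys D (Fin (p + 1) ⊕ Fin q)) (d : Fin 3) (hd : d ≠ 2) (m : ℕ)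
    (M : Lat (E.tl (LFinC_eL p q))) (hM : M.FG) :
    (lbim V hV (twP E (LFinC_eL p q) d m M)).dg.FinCoh := by
  have e1 := (PData.cons (E.tl (LFinC_eL p q)) (LFinC_eL p q)).bisoL
    ((PData.cons (E.tl (LFinC_eL p q)) (LFinC_eL p q)).isProd_lat (tws D d m) M) ()
    Sum.inl Sum.inr Sum.inl_injective Sum.inr_injective (fun _ _ => Sum.inl_ne_inr)
    (Sum.inl : Fin (p + 1) → Fin (p + 1) ⊕ Fin q) Sum.inr Sum.inl_injective Sum.inr_injective
    (fun _ _ => Sum.inl_ne_inr)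
    (funext fun i => Fin.cases rfl (fun i => rfl) i) rfl
  have e2 := (Cc (ZL V hV) (ZR V) (p + 1) q).biso e1
  have e3 := Cc_insL (ZL V hV) (ZR V) p q ((tws D d m).li ()) M.bb.bim
  have h1 : (insL (tb (ZL V hV) ((tws D d m).li ())) (lbim V hV M)).dg.FinCoh :=
    finCoh_insL (finCoh_tws_li V hV d hd m) (ih _ M hM)
  exact e2.finCoh (e3.symm.finCoh h1)

private theorem LFinC_twR {p q : ℕ}
    (ih : ∀ (E : LSys D (Fin p ⊕ Fin q)) (N : Lat E), N.FG → (lbim V hV N).dg.FinCoh)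
    (E : LSys D (Fin p ⊕ Fin (q + 1))) (d : Fin 3) (hd : d ≠ 2) (m : ℕ)
    (M : Lat (E.tl (LFinC_eR p q))) (hM : M.FG) :
    (lbim V hV (twP E (LFinC_eR p q) d m M)).dg.FinCoh := by
  have e1 := (PData.cons (E.tl (LFinC_eR p q)) (LFinC_eR p q)).bisoR
    ((PData.cons (E.tl (LFinC_eR p q)) (LFinC_eR p q)).isProd_lat (tws D d m) M) ()
    Sum.inl Sum.inr Sum.inl_injective Sum.inr_injective (fun _ _ => Sum.inl_ne_inr)
    (Sum.inl : Fin p → Fin p ⊕ Fin (q + 1)) Sum.inr Sum.inl_injective Sum.inr_injective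
    (fun _ _ => Sum.inl_ne_inr) rfl
    (funext fun i => Fin.cases rfl (fun i => rfl) i)
  have e2 := (Cc (ZL V hV) (ZR V) p (q + 1)).biso e1
  have e3 := Cc_insR (ZL V hV) (ZR V) p q ((tws D d m).ri ()) M.bb.bim
  have h1 : (insR (tb ((tws D d m).ri ()) (ZR V)) (lbim V hV M)).dg.FinCoh :=
    finCoh_insR (finCoh_tws_ri V d hd m) (ih _ M hM)
  exact e2.finCoh (e3.symm.finCoh h1)

private theorem LFinC_all (p q : ℕ) (E : LSys D (Fin p ⊕ Fin q)) (N : Lat E) (hN : N.FG) :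
    (lbim V hV N).dg.FinCoh := by
  induction q with
  | zero =>
    induction p with
    | zero => exact LFinC_zero V hV N hN
    | succ p ih => exact LFinC_of V hV (LFinC_eL p 0) (LFinC_twL V hV ih) E N hN
  | succ q ih => exact LFinC_of V hV (LFinC_eR p q) (LFinC_twR V hV ih) E N hN

/-- The cohomology of the complex of a lattice of finite type is finite-dimensional. -/
theorem Lat.finCoh {p q : ℕ} {E : LSys D (Fin p ⊕ Fin q)} (N : Lat E) (hN : N.FG) :
    (lbim V hV N).dg.FinCoh :=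
  LFinC_all V hV p q E N hN

theorem Lat.hasRes (hW : Smooth (endCosp V).cech) {p q : ℕ} {E : LSys D (Fin p ⊕ Fin q)}
    (N : Lat E) (hN : N.FG) : HasRes (lbim V hV N) :=
  HasRes.of_finCoh (smooth_pw hW p) (smooth_pw hW q) _ (N.finCoh V hV hN)

end Pool.Agent.MP_6e5bed_ag_KC
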