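import Pool.Agent.Lib.MP_6e5bed_ag_KC.Lat

set_option autoImplicit false
set_option linter.unusedSectionVars false

/-!
# Project KC: additive functions of lattices, definitions
-/

noncomputable section

namespace Pool.Agent.MP_6e5bed_ag_KC

open RatFunc
open Pool.Agent.MP_6e5bed_ag_NC

universe u v

variable {k : Type u} [Field k] {D : FExt k} {ι : Type} [DecidableEq ι]

/-- The product of two systems. -/
def LSys.prod (E E' : LSys D ι) : LSys D ι where
  H := E.H × E'.H
  act := fun i => (LinearMap.prodMapAlgHom k E.H E'.H).comp ((E.act i).prod (E'.act i))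
  comm := fun i j a b => by
    refine LinearMap.ext fun m => Prod.ext ?_ ?_
    · exact E.act_act i j a b m.1
    · exact E'.act_act i j a b m.2

theorem LSys.prod_act (E E' : LSys D ι) (i : ι) (a : D.L) (m : (E.prod E').H) :
    (E.prod E').act i a m = (E.act i a m.1, E'.act i a m.2) := rfl

/-- The product of two lattices. -/
def Lat.prod {E E' : LSys D ι} (N : Lat E) (N' : Lat E') : Lat (E.prod E') where
  N := fun c => (N.N c).prod (N'.N c)
  smul := fun c i b hb m hm => ⟨N.smul c i b hb m.1 hm.1, N'.smul c i b hb m.2 hm.2⟩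
  mono := fun c i m hm => ⟨N.mono c i hm.1, N'.mono c i hm.2⟩
  loc0 := fun c i m hm => by
    obtain ⟨n, hn⟩ := N.loc0 c i m.1 hm.1
    obtain ⟨n', hn'⟩ := N'.loc0 c i m.2 hm.2
    have ht : ∀ l : ℕ, tt D ^ l ∈ BB D (Function.update c i 0 i) := fun l => by
      rw [Function.update_self]
      exact Subalgebra.pow_mem _ (tt_mem_BB0 D) l
    refine ⟨n + n', ?_, ?_⟩
    · change E.act i (tt D ^ (n + n')) m.1 ∈ _
      rw [add_comm, pow_add, E.act_mul]
      exact N.smul _ i _ (ht n') _ hn
    · change E'.act i (tt D ^ (n + n')) m.2 ∈ _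
      rw [pow_add, E'.act_mul]
      exact N'.smul _ i _ (ht n) _ hn'
  loc1 := fun c i m hm => by
    obtain ⟨n, hn⟩ := N.loc1 c i m.1 hm.1
    obtain ⟨n', hn'⟩ := N'.loc1 c i m.2 hm.2
    have ht : ∀ l : ℕ, (tt D)⁻¹ ^ l ∈ BB D (Function.update c i 1 i) := fun l => by
      rw [Function.update_self]
      exact Subalgebra.pow_mem _ (tt_inv_mem_BB1 D) l
    refine ⟨n + n', ?_, ?_⟩
    · change E.act i ((tt D)⁻¹ ^ (n + n')) m.1 ∈ _
      rw [add_comm, pow_add, E.act_mul]
      exact N.smul _ i _ (ht n') _ hn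
    · change E'.act i ((tt D)⁻¹ ^ (n + n')) m.2 ∈ _
      rw [pow_add, E'.act_mul]
      exact N'.smul _ i _ (ht n) _ hn'

/-- The factors of a system renamed by a bijection. -/
def LSys.reindex (e : ι ≃ ι) (E : LSys D ι) : LSys D ι where
  H := E.H
  act := fun i => E.act (e i)
  comm := fun i j a b => E.comm (e i) (e j) a b

theorem update_comp_symm (e : ι ≃ ι) (c : ι → Fin 3) (i : ι) (a : Fin 3) :
    Function.update c i a ∘ e.symm = Function.update (c ∘ e.symm) (e i) a := by
  funext j
  rw [Function.comp_apply, Function.update_apply, Function.update_apply, Function.comp_apply]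
  exact if_congr e.symm_apply_eq rfl rfl

/-- The factors of a lattice renamed by a bijection. -/
def Lat.reindex (e : ι ≃ ι) {E : LSys D ι} (N : Lat E) : Lat (E.reindex e) where
  N := fun c => N.N (c ∘ e.symm)
  smul := fun c i b hb m hm => N.smul (c ∘ e.symm) (e i) b (by
    rw [Function.comp_apply, e.symm_apply_apply]
    exact hb) m hm
  mono := fun c i => by
    rw [update_comp_symm]
    exact N.mono (c ∘ e.symm) (e i)
  loc0 := fun c i m hm => by
    rw [update_comp_symm] at hm ⊢
    exact N.loc0 (c ∘ e.symm) (e i) m hm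
  loc1 := fun c i m hm => by
    rw [update_comp_symm] at hm ⊢
    exact N.loc1 (c ∘ e.symm) (e i) m hm

variable (D ι)

/-- A function of lattices of finite type, with values in an abelian group, which does not see the
modules which are killed by the ideal of `x₀` on one of the factors. -/
structure LatFun (P : Ideal (A1 D)) (hP : (⟨(tt D)⁻¹, tt_inv_mem_BB1 D⟩ : A1 D) ∈ P)
    (W : Type v) [AddCommGroup W] where
  val : ∀ {E : LSys D ι}, Lat E → W
  kill : ∀ {E : LSys D ι} (N N' : Lat E), N.FG → N'.FG → N' ≤ N → ∀ i : ι,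
    N.pp P hP i ≤ N' → val N = val N'
  iso : ∀ {E E' : LSys D ι} (N : Lat E) (N' : Lat E'), N.FG → N'.FG →
    ∀ f : E.H →ₗ[k] E'.H, Function.Injective f →
      (∀ i a m, f (E.act i a m) = E'.act i a (f m)) →
      (∀ c, N'.N c = (N.N c).map f) → val N = val N'
  add : ∀ {E E' : LSys D ι} (N : Lat E) (N' : Lat E'), N.FG → N'.FG →
    val (N.prod N') = val N + val N'

end Pool.Agent.MP_6e5bed_ag_KC
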