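import Pool.Agent.Lib.MP_6e5bed_ag_KC.LPL
import Pool.Agent.Lib.MP_6e5bed_ag_KC.LNoeB

set_option autoImplicit false
set_option linter.unusedSectionVars false

/-!
# Lattices of finite type: sublattices with given elements (project KC, part B2)
-/

namespace Pool.Agent.MP_6e5bed_ag_KC

open RatFunc
open Pool.Agent.MP_6e5bed_ag_NC
open scoped TensorProduct

universe u

variable {k : Type u} [Field k] {D : FExt k} {ι : Type} [DecidableEq ι]

theorem RR_mono (E : LSys D ι) (c : ι → Fin 3) (i : ι) :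
    E.RR c ≤ E.RR (Function.update c i 2) := by
  refine iSup_le fun j => ?_
  refine le_trans ?_ (le_iSup (fun j => (BB D (Function.update c i 2 j)).map (E.act j)) j)
  rintro _ ⟨b, hb, rfl⟩
  refine ⟨b, ?_, rfl⟩
  by_cases hj : j = i
  · subst hj
    rw [Function.update_self]
    exact BB_le D _ hb
  · rw [Function.update_of_ne hj]
    exact hb

private theorem LGen_mem (E : LSys D ι) (c : ι → Fin 3) (i : ι) {b : D.L} (hb : b ∈ BB D (c i)) :
    E.act i b ∈ E.RR c :=
  (le_iSup (fun i => (BB D (c i)).map (E.act i)) i) ⟨b, hb, rfl⟩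

private theorem LGen_loc (E : LSys D ι) (c : ι → Fin 3) (i : ι) (d : Fin 3) {u : D.L}
    (hu : u ∈ BB D d) (hloc : ∀ b ∈ BB D 2, ∃ n : ℕ, u ^ n * b ∈ BB D d) {r : Module.End k E.H}
    (hr : r ∈ E.RR (Function.update c i 2)) :
    ∃ n : ℕ, E.act i (u ^ n) * r ∈ E.RR (Function.update c i d) := by
  have hup : ∀ n : ℕ, E.act i (u ^ n) ∈ E.RR (Function.update c i d) := fun n => by
    refine LGen_mem E _ i ?_
    rw [Function.update_self]
    exact (BB D d).pow_mem hu n
  let T : Subalgebra k (Module.End k E.H) :=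
    { carrier := {r | (∀ b, E.act i b * r = r * E.act i b) ∧
        ∃ n : ℕ, E.act i (u ^ n) * r ∈ E.RR (Function.update c i d)}
      mul_mem' := by
        rintro r s ⟨h1, n, hn⟩ ⟨h2, m, hm⟩
        refine ⟨fun b => ?_, n + m, ?_⟩
        · rw [← mul_assoc, h1, mul_assoc, h2, mul_assoc]
        · have e : E.act i (u ^ (n + m)) * (r * s) =
              (E.act i (u ^ n) * r) * (E.act i (u ^ m) * s) := by
            rw [pow_add, map_mul, mul_assoc, ← mul_assoc (E.act i (u ^ m)) r s, h1, mul_assoc,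
              mul_assoc]
          rw [e]
          exact (E.RR _).mul_mem hn hm
      add_mem' := by
        rintro r s ⟨h1, n, hn⟩ ⟨h2, m, hm⟩
        refine ⟨fun b => ?_, n + m, ?_⟩
        · rw [mul_add, add_mul, h1, h2]
        · have e : E.act i (u ^ (n + m)) * (r + s) =
              E.act i (u ^ m) * (E.act i (u ^ n) * r) +
                E.act i (u ^ n) * (E.act i (u ^ m) * s) := by
            rw [mul_add, ← mul_assoc, ← mul_assoc, ← map_mul, ← map_mul, ← pow_add, ← pow_add,
              add_comm m n]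
          rw [e]
          exact (E.RR _).add_mem ((E.RR _).mul_mem (hup m) hn) ((E.RR _).mul_mem (hup n) hm)
      algebraMap_mem' := fun a => by
        refine ⟨fun b => (Algebra.commutes a (E.act i b)).symm, 0, ?_⟩
        rw [pow_zero, map_one, one_mul]
        exact (E.RR _).algebraMap_mem a }
  have h1 : E.RR (Function.update c i 2) ≤ T := by
    refine iSup_le fun j => ?_
    rintro _ ⟨b, hb, rfl⟩
    refine ⟨fun b' => E.comm i j b' b, ?_⟩
    by_cases hj : j = i
    · subst hj
      rw [Function.update_self] at hb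
      obtain ⟨n, hn⟩ := hloc b hb
      refine ⟨n, ?_⟩
      change E.act j (u ^ n) * E.act j b ∈ _
      rw [← map_mul]
      refine LGen_mem E _ j ?_
      rw [Function.update_self]
      exact hn
    · refine ⟨0, ?_⟩
      change E.act i (u ^ 0) * E.act j b ∈ _
      rw [pow_zero, map_one, one_mul]
      refine LGen_mem E _ j ?_
      rw [Function.update_of_ne hj] at hb ⊢
      exact hb
  exact (h1 hr).2

/-- Proof. The `r` which commute with all `E.act i b` and for which an `n` as wanted exists form a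
subalgebra (for products add the exponents, `t ^ n` can be moved past `r`) which contains the
generators `E.act j b`, `b ∈ BB D (update c i 2 j)`: for `j ≠ i` take `n = 0`, for `j = i` use
`mem_BB2`. -/
theorem RR_loc0 (E : LSys D ι) (c : ι → Fin 3) (i : ι) {r : Module.End k E.H}
    (hr : r ∈ E.RR (Function.update c i 2)) :
    ∃ n : ℕ, E.act i (tt D ^ n) * r ∈ E.RR (Function.update c i 0) :=
  LGen_loc E c i 0 (tt_mem_BB0 D) (fun _ hb => mem_BB2.1 hb) hr

/-- The same with `mem_BB2'`. -/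
theorem RR_loc1 (E : LSys D ι) (c : ι → Fin 3) (i : ι) {r : Module.End k E.H}
    (hr : r ∈ E.RR (Function.update c i 2)) :
    ∃ n : ℕ, E.act i ((tt D)⁻¹ ^ n) * r ∈ E.RR (Function.update c i 1) :=
  LGen_loc E c i 1 (tt_inv_mem_BB1 D) (fun _ hb => mem_BB2'.1 hb) hr

/-- The components of the lattice generated by a finite set. -/
def genN (E : LSys D ι) (S : Finset E.H) (c : ι → Fin 3) : Submodule k E.H :=
  Submodule.span k {x | ∃ r ∈ E.RR c, ∃ s ∈ S, r s = x}

theorem act_mem_RR (E : LSys D ι) (c : ι → Fin 3) (i : ι) {b : D.L} (hb : b ∈ BB D (c i)) :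
    E.act i b ∈ E.RR c :=
  (le_iSup (fun i => (BB D (c i)).map (E.act i)) i) ⟨b, hb, rfl⟩

theorem genN_smul (E : LSys D ι) (S : Finset E.H) (c : ι → Fin 3) (i : ι) (b : D.L)
    (hb : b ∈ BB D (c i)) (m : E.H) (hm : m ∈ genN E S c) : E.act i b m ∈ genN E S c := by
  refine Submodule.span_induction (p := fun m _ => E.act i b m ∈ genN E S c) ?_ ?_ ?_ ?_ hm
  · rintro _ ⟨r, hr, s, hs, rfl⟩
    exact Submodule.subset_span ⟨E.act i b * r, (E.RR c).mul_mem (act_mem_RR E c i hb) hr, s, hs,
      rfl⟩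
  · rw [map_zero]
    exact Submodule.zero_mem _
  · intro x y _ _ hx hy
    rw [map_add]
    exact Submodule.add_mem _ hx hy
  · intro r x _ hx
    rw [map_smul]
    exact Submodule.smul_mem _ r hx

/-- The lattice generated by a finite set. -/
def Lat.gen (E : LSys D ι) (S : Finset E.H) : Lat E where
  N := genN E S
  smul := genN_smul E S
  mono := fun c i => Submodule.span_mono (by
    rintro _ ⟨r, hr, s, hs, rfl⟩
    exact ⟨r, RR_mono E c i hr, s, hs, rfl⟩)
  loc0 := fun c i m hm => by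
    refine E.loc_span i (tt D) _ _ (fun m hm => genN_smul E S _ i _ ?_ m hm) ?_ hm
    · rw [Function.update_self]
      exact tt_mem_BB0 D
    · rintro _ ⟨r, hr, s, hs, rfl⟩
      obtain ⟨n, hn⟩ := RR_loc0 E c i hr
      exact ⟨n, Submodule.subset_span ⟨_, hn, s, hs, rfl⟩⟩
  loc1 := fun c i m hm => by
    refine E.loc_span i (tt D)⁻¹ _ _ (fun m hm => genN_smul E S _ i _ ?_ m hm) ?_ hm
    · rw [Function.update_self]
      exact tt_inv_mem_BB1 D
    · rintro _ ⟨r, hr, s, hs, rfl⟩
      obtain ⟨n, hn⟩ := RR_loc1 E c i hr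
      exact ⟨n, Submodule.subset_span ⟨_, hn, s, hs, rfl⟩⟩

theorem Lat.mem_gen (E : LSys D ι) (S : Finset E.H) (c : ι → Fin 3) {s : E.H} (hs : s ∈ S) :
    s ∈ (Lat.gen E S).N c :=
  Submodule.subset_span ⟨1, (E.RR c).one_mem, s, hs, rfl⟩

/-- Generators: `S`. -/
theorem Lat.gen_FG (E : LSys D ι) (S : Finset E.H) : (Lat.gen E S).FG := by
  intro c
  refine ⟨S, fun s hs => Lat.mem_gen E S c hs, fun m hm => ?_⟩
  refine Submodule.span_induction
    (p := fun m _ => m ∈ Submodule.span (E.RR c) (S : Set E.H)) ?_ ?_ ?_ ?_ hm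
  · rintro _ ⟨r, hr, s, hs, rfl⟩
    exact Submodule.smul_mem _ (⟨r, hr⟩ : E.RR c) (Submodule.subset_span hs)
  · exact Submodule.zero_mem _
  · intro x y _ _ hx hy
    exact Submodule.add_mem _ hx hy
  · intro a x _ hx
    have h1 := Submodule.smul_mem (Submodule.span (E.RR c) (S : Set E.H))
      (⟨algebraMap k (Module.End k E.H) a, (E.RR c).algebraMap_mem a⟩ : E.RR c) hx
    exact h1

/-- The intersection of two lattices. For `loc0`, `loc1` add the exponents. -/
theorem Lat.exists_inf {E : LSys D ι} (N N' : Lat E) :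
    ∃ N'' : Lat E, ∀ c, N''.N c = N.N c ⊓ N'.N c := by
  refine ⟨⟨fun c => N.N c ⊓ N'.N c, fun c i b hb m hm => ⟨N.smul c i b hb m hm.1,
    N'.smul c i b hb m hm.2⟩, fun c i => inf_le_inf (N.mono c i) (N'.mono c i),
    fun c i m hm => ?_, fun c i m hm => ?_⟩, fun c => rfl⟩
  · obtain ⟨n, hn⟩ := N.loc0 c i m hm.1
    obtain ⟨n', hn'⟩ := N'.loc0 c i m hm.2
    have ht : ∀ l : ℕ, tt D ^ l ∈ BB D (Function.update c i 0 i) := fun l => by
      rw [Function.update_self]
      exact Subalgebra.pow_mem _ (tt_mem_BB0 D) l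
    refine ⟨n + n', ?_, ?_⟩
    · rw [add_comm, pow_add, E.act_mul]
      exact N.smul _ i _ (ht n') _ hn
    · rw [pow_add, E.act_mul]
      exact N'.smul _ i _ (ht n) _ hn'
  · obtain ⟨n, hn⟩ := N.loc1 c i m hm.1
    obtain ⟨n', hn'⟩ := N'.loc1 c i m hm.2
    have ht : ∀ l : ℕ, (tt D)⁻¹ ^ l ∈ BB D (Function.update c i 1 i) := fun l => by
      rw [Function.update_self]
      exact Subalgebra.pow_mem _ (tt_inv_mem_BB1 D) l
    refine ⟨n + n', ?_, ?_⟩
    · rw [add_comm, pow_add, E.act_mul]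
      exact N.smul _ i _ (ht n') _ hn
    · rw [pow_add, E.act_mul]
      exact N'.smul _ i _ (ht n) _ hn'

/-- In every lattice `M` there is a lattice of finite type which contains given finite sets.

Proof. The intersection of `M` with `Lat.gen E T`, `T` the union of the `S c` (finitely many `c`);
`Lat.FG.of_le`. -/
theorem Lat.exists_fg_le [Fintype ι] {E : LSys D ι} (M : Lat E)
    (S : (ι → Fin 3) → Finset E.H) (hS : ∀ c, ∀ s ∈ S c, s ∈ M.N c) :
    ∃ M' : Lat E, M'.FG ∧ M' ≤ M ∧ ∀ c, ∀ s ∈ S c, s ∈ M'.N c := by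
  classical
  obtain ⟨M', hM'⟩ := Lat.exists_inf M (Lat.gen E (Finset.univ.biUnion S))
  refine ⟨M', (Lat.gen_FG E (Finset.univ.biUnion S)).of_le fun c => ?_, fun c => ?_,
    fun c s hs => ?_⟩
  · rw [hM']
    exact inf_le_right
  · rw [hM']
    exact inf_le_left
  · rw [hM']
    exact ⟨hS c s hs, Lat.mem_gen E _ c (Finset.mem_biUnion.2 ⟨c, Finset.mem_univ c, hs⟩)⟩

end Pool.Agent.MP_6e5bed_ag_KC
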