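import Pool.Agent.Lib.MP_6e5bed_ag_KC.LSat

set_option autoImplicit false
set_option linter.unusedSectionVars false

/-!
# Project KC: the lattice generated by a finite set
-/

noncomputable section

namespace Pool.Agent.MP_6e5bed_ag_KC

open RatFunc
open Pool.Agent.MP_6e5bed_ag_NC
open scoped TensorProduct

universe u

variable {k : Type u} [Field k] {D : FExt k} {ι : Type} [Fintype ι] [DecidableEq ι]
  {K : Type u} [CommRing K] [Algebra k K] (z : ι → D.L →ₐ[k] K)

theorem RRm_mono (c : ι → Fin 3) (i : ι) : RRm z c ≤ RRm z (Function.update c i 2) := by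
  refine Finset.prod_le_prod' fun j _ => Submodule.map_mono ?_
  change BB D (c j) ≤ BB D (Function.update c i 2 j)
  rw [Function.update_apply]
  split_ifs
  · exact BB_le D _
  · exact le_rfl

theorem RRm_loc (c : ι → Fin 3) (i : ι) (a : Fin 3) (u : D.L)
    (h : ∀ b ∈ BB D 2, ∃ n : ℕ, u ^ n * b ∈ BB D a) (hu : u ∈ BB D a) :
    ∀ m ∈ RRm z (Function.update c i 2), ∃ n : ℕ,
      z i u ^ n * m ∈ RRm z (Function.update c i a) := by
  unfold RRm
  rw [← Finset.mul_prod_erase Finset.univ _ (Finset.mem_univ i),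
    ← Finset.mul_prod_erase Finset.univ (fun j =>
      (Subalgebra.toSubmodule (BB D (Function.update c i a j))).map (z j).toLinearMap)
      (Finset.mem_univ i)]
  have e : ∏ j ∈ Finset.univ.erase i,
      (Subalgebra.toSubmodule (BB D (Function.update c i 2 j))).map (z j).toLinearMap =
      ∏ j ∈ Finset.univ.erase i,
        (Subalgebra.toSubmodule (BB D (Function.update c i a j))).map (z j).toLinearMap := by
    refine Finset.prod_congr rfl fun j hj => ?_
    rw [Function.update_of_ne (Finset.ne_of_mem_erase hj),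
      Function.update_of_ne (Finset.ne_of_mem_erase hj)]
  rw [e]
  refine loc_mul ?_ ?_ fun m hm => ⟨0, by rw [pow_zero, one_mul]; exact hm⟩
  · rw [Function.update_self]
    rintro _ ⟨b, hb, rfl⟩
    exact ⟨u * b, (BB D a).mul_mem hu hb, map_mul (z i) u b⟩
  · rw [Function.update_self, Function.update_self]
    rintro _ ⟨b, hb, rfl⟩
    obtain ⟨n, hn⟩ := h b hb
    refine ⟨n, u ^ n * b, hn, ?_⟩
    change z i (u ^ n * b) = _
    rw [map_mul, map_pow]
    rfl

variable (H : Type u) [AddCommGroup H] [Module k H] [Module K H] [IsScalarTower k K H]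

theorem spanL_loc (S : Finset H) (c : ι → Fin 3) (i : ι) (a : Fin 3) (u : D.L)
    (h : ∀ b ∈ BB D 2, ∃ n : ℕ, u ^ n * b ∈ BB D a) (hu : u ∈ BB D a) :
    ∀ m ∈ RRm z (Function.update c i 2) • Submodule.span k (S : Set H), ∃ n : ℕ,
      z i (u ^ n) • m ∈ RRm z (Function.update c i a) • Submodule.span k (S : Set H) := by
  intro m hm
  have hp : ∀ l : ℕ, ∀ m ∈ RRm z (Function.update c i a) • Submodule.span k (S : Set H),
      z i u ^ l • m ∈ RRm z (Function.update c i a) • Submodule.span k (S : Set H) := by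
    intro l m hm
    refine Submodule.smul_induction_on (p := fun m => z i u ^ l • m ∈
      RRm z (Function.update c i a) • Submodule.span k (S : Set H)) hm
      (fun r hr m hm => ?_) (fun x y hx hy => ?_)
    · rw [smul_smul]
      refine Submodule.smul_mem_smul (RRm_mul z ?_ hr) hm
      rw [← map_pow]
      exact mem_RRm z _ i (by
        rw [Function.update_self]
        exact Subalgebra.pow_mem _ hu l)
    · rw [smul_add]
      exact Submodule.add_mem _ hx hy
  refine Submodule.smul_induction_on (p := fun m => ∃ n : ℕ, z i (u ^ n) • m ∈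
      RRm z (Function.update c i a) • Submodule.span k (S : Set H)) hm
      (fun r hr m hm => ?_) ?_
  · obtain ⟨n, hn⟩ := RRm_loc z c i a u h hu r hr
    refine ⟨n, ?_⟩
    rw [map_pow, smul_smul]
    exact Submodule.smul_mem_smul hn hm
  · rintro x y ⟨n, hn⟩ ⟨n', hn'⟩
    refine ⟨n + n', ?_⟩
    rw [smul_add]
    refine Submodule.add_mem _ ?_ ?_
    · rw [map_pow] at hn ⊢
      rw [add_comm, pow_add, ← smul_smul]
      exact hp n' _ hn
    · rw [map_pow] at hn' ⊢
      rw [pow_add, ← smul_smul]
      exact hp n _ hn'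

theorem spanL_smul (S : Finset H) (c : ι → Fin 3) (i : ι) (b : D.L) (hb : b ∈ BB D (c i)) :
    ∀ m ∈ RRm z c • Submodule.span k (S : Set H),
      z i b • m ∈ RRm z c • Submodule.span k (S : Set H) := by
  intro m hm
  refine Submodule.smul_induction_on (p := fun m => z i b • m ∈
      RRm z c • Submodule.span k (S : Set H)) hm
      (fun r hr m hm => ?_) (fun x y hx hy => ?_)
  · rw [smul_smul]
    exact Submodule.smul_mem_smul (RRm_mul z (mem_RRm z c i hb) hr) hm
  · rw [smul_add]
    exact Submodule.add_mem _ hx hy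

/-- The lattice generated by a finite set `S`. -/
def spanL (S : Finset H) : Lat (LSys.ofAlg z H) where
  N := fun c => (RRm z c • Submodule.span k (S : Set H) : Submodule k H)
  smul := fun c i b hb => spanL_smul z H S c i b hb
  mono := fun c i => Submodule.smul_mono_left (M := H) (RRm_mono z c i)
  loc0 := fun c i => spanL_loc z H S c i 0 (tt D) (fun _ hb => mem_BB2.1 hb) (tt_mem_BB0 D)
  loc1 := fun c i => spanL_loc z H S c i 1 (tt D)⁻¹ (fun _ hb => mem_BB2'.1 hb)
    (tt_inv_mem_BB1 D)

variable {z H}

/-- The components of a lattice in the system of an algebra, as subspaces of the module `H`. -/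
def Lat.NK (N : Lat (LSys.ofAlg z H)) (c : ι → Fin 3) : Submodule k H := N.N c

theorem mem_NK {N : Lat (LSys.ofAlg z H)} {c : ι → Fin 3} {m : H} : m ∈ N.NK c ↔ m ∈ N.N c :=
  Iff.rfl

theorem spanL_NK (S : Finset H) (c : ι → Fin 3) :
    (spanL z H S).NK c = RRm z c • Submodule.span k (S : Set H) := rfl

end Pool.Agent.MP_6e5bed_ag_KC
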