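import Pool.Agent.Lib.MP_6e5bed_ag_KC.LDiag
import Pool.Agent.Lib.MP_6e5bed_ag_KC.LSpan

set_option autoImplicit false
set_option linter.unusedSectionVars false

/-!
# Project KC: functions and ideals of the diagonals, up to poles at `x₀`, in an algebra
-/

noncomputable section

namespace Pool.Agent.MP_6e5bed_ag_KC

open RatFunc
open Pool.Agent.MP_6e5bed_ag_NC
open scoped TensorProduct

universe u

variable {k : Type u} [Field k] {D : FExt k} (P : IPt D) {ι : Type} [Fintype ι] [DecidableEq ι]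
  {K : Type u} [CommRing K] [Algebra k K] (z : ι → D.L →ₐ[k] K)

/-- The functions `z_i(g)`, `g ∈ Bh (c i)`. -/
theorem IPt.Bh_sat (c : ι → Fin 3) (i : ι) {g : D.L} (hg : g ∈ P.Bh (c i)) :
    z i g ∈ sat P.P z c (RRm z c) := by
  obtain ⟨l, hl⟩ := P.mem_Bh.1 hg
  refine ⟨l, fun p hp => ?_⟩
  unfold PPm at hp
  rw [← Finset.mul_prod_erase Finset.univ _ (Finset.mem_univ i)] at hp
  refine Submodule.mul_induction_on (C := fun p => p • z i g ∈ RRm z c) hp
    (fun x hx y hy => ?_) (fun x y hx hy => ?_)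
  · obtain ⟨b, hb, rfl⟩ := hx
    have h1 : y ∈ ∏ j ∈ Finset.univ.erase i,
        (Subalgebra.toSubmodule (BB D (c j))).map (z j).toLinearMap :=
      Finset.prod_le_prod' (fun j _ => Submodule.map_mono fun b hb => pL_le hb) hy
    unfold RRm
    rw [← Finset.mul_prod_erase Finset.univ _ (Finset.mem_univ i)]
    have e : ((z i).toLinearMap b * y) • z i g = z i (b * g) * y := by
      rw [smul_eq_mul, map_mul]
      change z i b * y * z i g = _
      ring
    rw [e]
    exact Submodule.mul_mem_mul ⟨b * g, hl b hb, rfl⟩ h1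
  · rw [add_smul]
    exact Submodule.add_mem _ hx hy

/-- `sat (RRm)` is closed under multiplication (`sat_mul`, `RRm_sq`). -/
theorem sat_RRm_mul (Q : Ideal (A1 D)) (c : ι → Fin 3) {a b : K}
    (ha : a ∈ sat Q z c (RRm z c)) (hb : b ∈ sat Q z c (RRm z c)) :
    a * b ∈ sat Q z c (RRm z c) := by
  have h := sat_mul ha hb
  rwa [RRm_sq] at h

/-- The ideal of the diagonal on the product of the charts of the factors `i ≠ j` (`II_le`). -/
theorem IPt.II_sat [IsAlgClosed k] (c : ι → Fin 3) (i j : ι) :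
    (II D (c i) (c j)).map (prL (z i) (z j)).toLinearMap ≤
      sat P.P z c (RRm z c) * P.dgB.map (prL (z i) (z j)).toLinearMap := by
  refine (Submodule.map_mono (P.II_le (c i) (c j))).trans ?_
  rw [Submodule.map_mul]
  refine mul_le_mul' ?_ le_rfl
  unfold IPt.BBh
  rw [Submodule.map_mul]
  refine Submodule.mul_le.2 ?_
  rintro _ ⟨_, ⟨a, ha, rfl⟩, rfl⟩ _ ⟨_, ⟨b, hb, rfl⟩, rfl⟩
  refine sat_RRm_mul z P.P c ?_ ?_
  · change prL (z i) (z j) (a ⊗ₜ[k] (1 : D.L)) ∈ _
    rw [prL_left]
    exact P.Bh_sat z c i ha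
  · change prL (z i) (z j) ((1 : D.L) ⊗ₜ[k] b) ∈ _
    rw [prL_right]
    exact P.Bh_sat z c j hb

/-- Conversely (`dgB_le`; the elements of `PPm P z l c` are sums of products of `z_i(b) z_j(b')`,
`b ∈ pL l (c i)`, `b' ∈ pL l (c j)`, with elements of `RRm z c`). -/
theorem IPt.dgB_sat (c : ι → Fin 3) {i j : ι} (hij : i ≠ j) :
    P.dgB.map (prL (z i) (z j)).toLinearMap ≤
      sat P.P z c ((II D (c i) (c j)).map (prL (z i) (z j)).toLinearMap * RRm z c) := by
  rintro _ ⟨w, hw, rfl⟩
  obtain ⟨l, hl⟩ := P.dgB_le (c i) (c j) hw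
  refine ⟨l, fun p hp => ?_⟩
  unfold PPm at hp
  rw [← Finset.mul_prod_erase Finset.univ _ (Finset.mem_univ i),
    ← Finset.mul_prod_erase (Finset.univ.erase i) _
      (Finset.mem_erase.2 ⟨hij.symm, Finset.mem_univ j⟩), ← mul_assoc] at hp
  have hq : ∏ m ∈ (Finset.univ.erase i).erase j, (pL P.P l (c m)).map (z m).toLinearMap ≤
      RRm z c := by
    unfold RRm
    rw [← Finset.mul_prod_erase Finset.univ _ (Finset.mem_univ i),
      ← Finset.mul_prod_erase (Finset.univ.erase i) _
        (Finset.mem_erase.2 ⟨hij.symm, Finset.mem_univ j⟩), ← mul_assoc,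
      ← one_mul (∏ m ∈ (Finset.univ.erase i).erase j, (pL P.P l (c m)).map (z m).toLinearMap)]
    refine mul_le_mul' ?_
      (Finset.prod_le_prod' fun j _ => Submodule.map_mono fun b hb => pL_le hb)
    rw [← one_mul (1 : Submodule k K)]
    refine mul_le_mul' ?_ ?_
    · rw [Submodule.one_le]
      exact ⟨1, (BB D (c i)).one_mem, map_one (z i)⟩
    · rw [Submodule.one_le]
      exact ⟨1, (BB D (c j)).one_mem, map_one (z j)⟩
  refine Submodule.mul_induction_on (C := fun p => p • (prL (z i) (z j)).toLinearMap w ∈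
    (II D (c i) (c j)).map (prL (z i) (z j)).toLinearMap * RRm z c) hp
    (fun x hx y hy => ?_) (fun x y hx hy => ?_)
  · have hy' := hq hy
    refine Submodule.mul_induction_on (C := fun x => (x * y) • (prL (z i) (z j)).toLinearMap w ∈
      (II D (c i) (c j)).map (prL (z i) (z j)).toLinearMap * RRm z c) hx
      (fun x hx x' hx' => ?_) (fun x y hx hy => ?_)
    · obtain ⟨b, hb, rfl⟩ := hx
      obtain ⟨b', hb', rfl⟩ := hx'
      have e : ((z i).toLinearMap b * (z j).toLinearMap b' * y) •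
          (prL (z i) (z j)).toLinearMap w =
          (prL (z i) (z j)).toLinearMap ((b ⊗ₜ[k] b') * w) * y := by
        change (z i b * z j b' * y) * prL (z i) (z j) w = prL (z i) (z j) ((b ⊗ₜ[k] b') * w) * y
        rw [map_mul]
        have e2 : prL (z i) (z j) (b ⊗ₜ[k] b') = z i b * z j b' := by
          unfold prL
          rw [Algebra.TensorProduct.lift_tmul]
        rw [e2]
        ring
      rw [e]
      exact Submodule.mul_mem_mul ⟨_, hl b hb b' hb', rfl⟩ hy'
    · rw [add_mul, add_smul]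
      exact Submodule.add_mem _ hx hy
  · rw [add_smul]
    exact Submodule.add_mem _ hx hy

end Pool.Agent.MP_6e5bed_ag_KC
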