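import Pool.Agent.Lib.MP_6e5bed_ag_KC.LFinC
import Pool.Agent.Lib.MP_6e5bed_ag_KC.LChar
import Pool.Agent.Lib.MP_6e5bed_ag_KC.OBox

set_option autoImplicit false
set_option linter.unusedSectionVars false

/-!
# Lattices whose quotient is killed by the ideal of the point at infinity in the first factor
(project KC, part B5)
-/

namespace Pool.Agent.MP_6e5bed_ag_KC

open RatFunc
open Pool.Agent.MP_6e5bed_ag_NC

universe u

variable {k : Type u} [Field k] {D : FExt k} {F : LSp D} (V : LP k F.F) (hV : BSt V)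

theorem kill0L (hW : Smooth (endCosp V).cech) {P : Ideal (A1 D)}
    (hP : (⟨(tt D)⁻¹, tt_inv_mem_BB1 D⟩ : A1 D) ∈ P) {χ : Gam D →ₐ[k] k} (hχ : IsChi P χ)
    (hS : ¬ Acyc (tb (ZL V hV) (kapL χ)))
    {p q : ℕ} {E : LSys D (Fin (p + 1) ⊕ Fin q)} (N' N : Lat E) (hN : N.FG) (hN' : N'.FG)
    (hle : N' ≤ N) (h : N.pp P hP (Sum.inl 0) ≤ N') :
    ∃ Y : Bim (pw (endCosp V).cech p) (pw (endCosp V).cech q), HasRes Y ∧
      lcl V hV N = lcl V hV N' + ecl (A := pw (endCosp V).cech (p + 1))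
        (B := pw (endCosp V).cech q) (insL (tb (ZL V hV) (kapL χ)) Y) := by
  let Q : Acts k (Gam D) (Gam' D) (p + 1) q := N'.quo N Sum.inl Sum.inr Sum.inl_injective
    Sum.inr_injective (fun _ _ => Sum.inl_ne_inr)
  have hs : IsSes N'.bb.bim N.bb.bim Q.bim := N'.quo_ses N hle Sum.inl Sum.inr Sum.inl_injective
    Sum.inr_injective (fun _ _ => Sum.inl_ne_inr)
  have h1 : ∀ a m, Q.l 0 a m = χ a • m := fun a m => N'.quo_l N hP hχ Sum.inl Sum.inr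
    Sum.inl_injective Sum.inr_injective (fun _ _ => Sum.inl_ne_inr) 0 h a m
  have e1 : BIso Q.bim (insL (kapL χ) Q.tailL.bim) := Acts.kill_bim χ Q h1
  have e2 : BIso ((Cc (ZL V hV) (ZR V) (p + 1) q).obj Q.bim)
      (insL (tb (ZL V hV) (kapL χ)) ((Cc (ZL V hV) (ZR V) p q).obj Q.tailL.bim)) :=
    ((Cc (ZL V hV) (ZR V) (p + 1) q).biso e1).trans
      (Cc_insL (ZL V hV) (ZR V) p q (kapL χ) Q.tailL.bim)
  have hQ : ((Cc (ZL V hV) (ZR V) (p + 1) q).obj Q.bim).dg.FinCoh :=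
    (lbim_ex V hV (p + 1) q).finCoh_right hs (N'.finCoh V hV hN') (N.finCoh V hV hN)
  refine ⟨(Cc (ZL V hV) (ZR V) p q).obj Q.tailL.bim,
    HasRes.of_finCoh (smooth_pw hW p) (smooth_pw hW q) _
      (finCoh_of_insL (X := tb (ZL V hV) (kapL χ)) hS (e2.finCoh hQ)), ?_⟩
  have h2 : ecl ((Cc (ZL V hV) (ZR V) (p + 1) q).obj N.bb.bim) =
      ecl ((Cc (ZL V hV) (ZR V) (p + 1) q).obj N'.bb.bim) +
        ecl ((Cc (ZL V hV) (ZR V) (p + 1) q).obj Q.bim) :=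
    (lbim_ex V hV (p + 1) q).ecl_ses hs (N'.hasRes V hV hW hN')
      (HasRes.of_finCoh (smooth_pw hW (p + 1)) (smooth_pw hW q) _ hQ)
  exact h2.trans (congrArg _ (ecl_iso e2))

theorem kill0R (hW : Smooth (endCosp V).cech) {P : Ideal (A1 D)}
    (hP : (⟨(tt D)⁻¹, tt_inv_mem_BB1 D⟩ : A1 D) ∈ P) {χ : Gam' D →ₐ[k] k} (hχ : IsChi' P χ)
    (hS : ¬ Acyc (tb (kapR χ) (ZR V)))
    {p q : ℕ} {E : LSys D (Fin p ⊕ Fin (q + 1))} (N' N : Lat E) (hN : N.FG) (hN' : N'.FG)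
    (hle : N' ≤ N) (h : N.pp P hP (Sum.inr 0) ≤ N') :
    ∃ Y : Bim (pw (endCosp V).cech p) (pw (endCosp V).cech q), HasRes Y ∧
      lcl V hV N = lcl V hV N' + ecl (A := pw (endCosp V).cech p)
        (B := pw (endCosp V).cech (q + 1)) (insR (tb (kapR χ) (ZR V)) Y) := by
  let Q : Acts k (Gam D) (Gam' D) p (q + 1) := N'.quo N Sum.inl Sum.inr Sum.inl_injective
    Sum.inr_injective (fun _ _ => Sum.inl_ne_inr)
  have hs : IsSes N'.bb.bim N.bb.bim Q.bim := N'.quo_ses N hle Sum.inl Sum.inr Sum.inl_injective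
    Sum.inr_injective (fun _ _ => Sum.inl_ne_inr)
  have h1 : ∀ a m, Q.r 0 a m = χ a • m := fun a m => N'.quo_r N hP hχ Sum.inl Sum.inr
    Sum.inl_injective Sum.inr_injective (fun _ _ => Sum.inl_ne_inr) 0 h a m
  have e1 : BIso Q.bim (insR (kapR χ) Q.tailR.bim) := Acts.kill_bimR χ Q h1
  have e2 : BIso ((Cc (ZL V hV) (ZR V) p (q + 1)).obj Q.bim)
      (insR (tb (kapR χ) (ZR V)) ((Cc (ZL V hV) (ZR V) p q).obj Q.tailR.bim)) :=
    ((Cc (ZL V hV) (ZR V) p (q + 1)).biso e1).trans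
      (Cc_insR (ZL V hV) (ZR V) p q (kapR χ) Q.tailR.bim)
  have hQ : ((Cc (ZL V hV) (ZR V) p (q + 1)).obj Q.bim).dg.FinCoh :=
    (lbim_ex V hV p (q + 1)).finCoh_right hs (N'.finCoh V hV hN') (N.finCoh V hV hN)
  refine ⟨(Cc (ZL V hV) (ZR V) p q).obj Q.tailR.bim,
    HasRes.of_finCoh (smooth_pw hW p) (smooth_pw hW q) _
      (finCoh_of_insR (X := tb (kapR χ) (ZR V)) hS (e2.finCoh hQ)), ?_⟩
  have h2 : ecl ((Cc (ZL V hV) (ZR V) p (q + 1)).obj N.bb.bim) =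
      ecl ((Cc (ZL V hV) (ZR V) p (q + 1)).obj N'.bb.bim) +
        ecl ((Cc (ZL V hV) (ZR V) p (q + 1)).obj Q.bim) :=
    (lbim_ex V hV p (q + 1)).ecl_ses hs (N'.hasRes V hV hW hN')
      (HasRes.of_finCoh (smooth_pw hW p) (smooth_pw hW (q + 1)) _ hQ)
  exact h2.trans (congrArg _ (ecl_iso e2))

end Pool.Agent.MP_6e5bed_ag_KC
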