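import Pool.Agent.Lib.MP_6e5bed_ag_KC.BTpow
import Pool.Agent.Lib.MP_6e5bed_ag_KC.BCls
import Pool.Agent.Lib.MP_6e5bed_ag_KC.BCc

set_option autoImplicit false
set_option linter.unusedSectionVars false

/-!
# Morphisms which are killed in one factor (project KC, part B5)
-/

namespace Pool.Agent.MP_6e5bed_ag_NC

open CategoryTheory MonoidalCategory

universe u

variable {k : Type u} [Field k]

theorem ecl_insL {H K K' : SP k} {S : Bim H.alg (base k)} {Y : Bim K.alg K'.alg}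
    (hS : HasRes S) (hY : HasRes Y) :
    (ecl (insL S Y) : H.tensor K ⟶ K') =
      SP.tensorHom (ecl S : H ⟶ SP.base k) (ecl Y : K ⟶ K') ≫
        ofIso (A := (SP.base k).tensor K') (B := K') (lunitIso K'.alg) := by
  have h1 := ecl_resIso (DIso.refl (H.alg.tensor K.alg)) (lunitIso K'.alg).symm (box S Y)
  rw [ecl_box hS hY] at h1
  exact h1.trans (comp_ofIso (A := H.tensor K) (B := (SP.base k).tensor K') (C := K') _
    (lunitIso K'.alg)).symm

theorem ecl_insR {H K K' : SP k} {S : Bim (base k) H.alg} {Y : Bim K.alg K'.alg}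
    (hS : HasRes S) (hY : HasRes Y) :
    (ecl (insR S Y) : K ⟶ H.tensor K') =
      ofIso (A := K) (B := (SP.base k).tensor K) (lunitIso K.alg).symm ≫
        SP.tensorHom (ecl S : SP.base k ⟶ H) (ecl Y : K ⟶ K') := by
  have h1 := ecl_resIso (lunitIso K.alg).symm (DIso.refl (H.alg.tensor K'.alg)) (box S Y)
  rw [ecl_box hS hY] at h1
  exact h1.trans (ofIso_comp (A := K) (B := (SP.base k).tensor K) (C := H.tensor K')
    (lunitIso K.alg).symm _).symm

theorem comp_insL_zero {H K K' H' K'' : SP k} {S : Bim H.alg (base k)} {Y : Bim K.alg K'.alg}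
    (hS : HasRes S) (hY : HasRes Y) (u : H' ⟶ H) (w : K'' ⟶ K)
    (hu : u ≫ (ecl S : H ⟶ SP.base k) = 0) :
    SP.tensorHom u w ≫ (ecl (insL S Y) : H.tensor K ⟶ K') = 0 := by
  rw [ecl_insL hS hY, ← Category.assoc]
  have h1 : SP.tensorHom u w ≫ SP.tensorHom (ecl S : H ⟶ SP.base k) (ecl Y : K ⟶ K') =
      SP.tensorHom (u ≫ (ecl S : H ⟶ SP.base k)) (w ≫ (ecl Y : K ⟶ K')) :=
    (tensorHom_comp _ _ _ _)
  rw [h1, hu]
  have h2 : SP.tensorHom (0 : H' ⟶ SP.base k) (w ≫ (ecl Y : K ⟶ K')) = 0 :=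
    LinearMap.congr_fun (map_zero K0Q.box) _
  rw [h2, Limits.zero_comp]

theorem insR_comp_zero {H K K' H' K'' : SP k} {S : Bim (base k) H.alg} {Y : Bim K.alg K'.alg}
    (hS : HasRes S) (hY : HasRes Y) (u : H ⟶ H') (w : K' ⟶ K'')
    (hu : (ecl S : SP.base k ⟶ H) ≫ u = 0) :
    (ecl (insR S Y) : K ⟶ H.tensor K') ≫ SP.tensorHom u w = 0 := by
  rw [ecl_insR hS hY, Category.assoc]
  have h1 : SP.tensorHom (ecl S : SP.base k ⟶ H) (ecl Y : K ⟶ K') ≫ SP.tensorHom u w =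
      SP.tensorHom ((ecl S : SP.base k ⟶ H) ≫ u) ((ecl Y : K ⟶ K') ≫ w) :=
    (tensorHom_comp _ _ _ _)
  rw [h1, hu]
  have h2 : SP.tensorHom (0 : SP.base k ⟶ H') ((ecl Y : K ⟶ K') ≫ w) = 0 :=
    LinearMap.congr_fun (map_zero K0Q.box) _
  rw [h2, Limits.comp_zero]

end Pool.Agent.MP_6e5bed_ag_NC
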