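import Pool.Agent.Lib.MP_6e5bed_ag_KC.LKillC

set_option autoImplicit false
set_option linter.unusedSectionVars false

/-!
# Classes between powers of two endomorphisms (project KC, part B5)
-/

namespace Pool.Agent.MP_6e5bed_ag_NC

open CategoryTheory MonoidalCategory Equiv

universe u

variable {k : Type u} [Field k] (T : SP k)

/-- The exchange of two factors. -/
noncomputable def aS (p i : ℕ) : pwS T p ⟶ pwS T p :=
  ofIso (A := pwS T p) (B := pwS T p) (adjD T.alg p i)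

variable {T}

theorem aS_aS (p i : ℕ) (h : i + 1 < p) : aS T p i ≫ aS T p i = 𝟙 _ := by
  have h1 := permS_adj T p i h
  have h2 := permS_mul T p (swap ⟨i, (Nat.lt_succ_self i).trans h⟩ ⟨i + 1, h⟩)
    (swap ⟨i, (Nat.lt_succ_self i).trans h⟩ ⟨i + 1, h⟩)
  rw [swap_mul_self, permS_one, h1] at h2
  exact h2.symm

theorem aS_nat (u : T ⟶ T) (p i : ℕ) (h : i + 1 < p) :
    pwFam (fun _ : Fin p => u) ≫ aS T p i = aS T p i ≫ pwFam (fun _ : Fin p => u) := by
  have h1 := permS_nat u (swap (⟨i, (Nat.lt_succ_self i).trans h⟩ : Fin p) ⟨i + 1, h⟩)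
  rw [permS_adj] at h1
  exact h1

/-- A class as a morphism. -/
noncomputable def toH {p q : ℕ} (L : K0Q (pw T.alg p) (pw T.alg q)) : pwS T p ⟶ pwS T q := L

theorem toH_add {p q : ℕ} (L L' : K0Q (pw T.alg p) (pw T.alg q)) :
    toH (L + L') = toH L + toH L' := rfl

theorem toH_adjL {p q : ℕ} (L : K0Q (pw T.alg p) (pw T.alg q)) (i : ℕ) :
    toH (K0Q.res (adjD T.alg p i) (DIso.refl (pw T.alg q)) L) = aS T p i ≫ toH L :=
  (adjD_comp T (pwS T q) p i (toH L)).symm

theorem toH_adjR {p q : ℕ} (L : K0Q (pw T.alg p) (pw T.alg q)) (i : ℕ) :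
    toH (K0Q.res (DIso.refl (pw T.alg p)) (adjD T.alg q i) L) = toH L ≫ aS T q i :=
  (comp_adjD T (pwS T p) q i (toH L)).symm

/-- A class between powers of two endomorphisms. -/
noncomputable def swA (ul ur : T ⟶ T) {p q : ℕ} (L : K0Q (pw T.alg p) (pw T.alg q)) :
    pwS T p ⟶ pwS T q :=
  pwFam (fun _ : Fin p => ul) ≫ toH L ≫ pwFam fun _ : Fin q => ur

variable (ul ur : T ⟶ T) {p q : ℕ}

theorem swA_add (L L' : K0Q (pw T.alg p) (pw T.alg q)) :
    swA ul ur (L + L') = swA ul ur L + swA ul ur L' := by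
  unfold swA
  rw [toH_add, Preadditive.add_comp, Preadditive.comp_add]

theorem swA_adjL (L : K0Q (pw T.alg p) (pw T.alg q)) (i : ℕ) (h : i + 1 < p) :
    swA ul ur (K0Q.res (adjD T.alg p i) (DIso.refl (pw T.alg q)) L) =
      aS T p i ≫ swA ul ur L := by
  unfold swA
  rw [toH_adjL, Category.assoc, ← Category.assoc, aS_nat ul p i h, Category.assoc]

theorem swA_adjR (L : K0Q (pw T.alg p) (pw T.alg q)) (i : ℕ) (h : i + 1 < q) :
    swA ul ur (K0Q.res (DIso.refl (pw T.alg p)) (adjD T.alg q i) L) =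
      swA ul ur L ≫ aS T q i := by
  unfold swA
  rw [toH_adjR, Category.assoc, Category.assoc, Category.assoc, aS_nat ur q i h]

/-- The class of `S ⊠ Y`. -/
noncomputable def clL (S : Bim T.alg (base k)) (Y : Bim (pw T.alg p) (pw T.alg q)) :
    K0Q (pw T.alg (p + 1)) (pw T.alg q) := ecl (insL S Y)

/-- The class of `S ⊠ Y`. -/
noncomputable def clR (S : Bim (base k) T.alg) (Y : Bim (pw T.alg p) (pw T.alg q)) :
    K0Q (pw T.alg p) (pw T.alg (q + 1)) := ecl (insR S Y)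

theorem swA_insL {S : Bim T.alg (base k)} {Y : Bim (pw T.alg p) (pw T.alg q)}
    (hS : HasRes S) (hY : HasRes Y) (hu : ul ≫ (ecl S : T ⟶ SP.base k) = 0) :
    swA ul ur (clL S Y) = 0 := by
  unfold swA
  have h1 : SP.tensorHom ul (pwFam fun _ : Fin p => ul) ≫
      (ecl (insL S Y) : T.tensor (pwS T p) ⟶ pwS T q) = 0 :=
    comp_insL_zero (H := T) (K := pwS T p) (K' := pwS T q) hS hY ul _ hu
  have h2 : (pwFam fun _ : Fin (p + 1) => ul) ≫ toH (clL S Y) = 0 := h1
  rw [← Category.assoc, h2, Limits.zero_comp]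

theorem swA_insR {S : Bim (base k) T.alg} {Y : Bim (pw T.alg p) (pw T.alg q)}
    (hS : HasRes S) (hY : HasRes Y) (hu : (ecl S : SP.base k ⟶ T) ≫ ur = 0) :
    swA ul ur (clR S Y) = 0 := by
  unfold swA
  have h1 : (ecl (insR S Y) : pwS T p ⟶ T.tensor (pwS T q)) ≫
      SP.tensorHom ur (pwFam fun _ : Fin q => ur) = 0 :=
    insR_comp_zero (H := T) (K := pwS T p) (K' := pwS T q) hS hY ur _ hu
  have h2 : toH (clR S Y) ≫ (pwFam fun _ : Fin (q + 1) => ur) = 0 := h1
  rw [h2, Limits.comp_zero]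

/-- A class of the first factor as a morphism. -/
noncomputable def toH1 (L : K0Q T.alg T.alg) : T ⟶ T := L

/-- The product of two classes. -/
noncomputable def bxc (L : K0Q T.alg T.alg) (L' : K0Q (pw T.alg p) (pw T.alg q)) :
    K0Q (pw T.alg (p + 1)) (pw T.alg (q + 1)) := K0Q.box L L'

/-- Products of classes. -/
theorem swA_box (L : K0Q T.alg T.alg) (L' : K0Q (pw T.alg p) (pw T.alg q)) :
    swA ul ur (bxc L L') = SP.tensorHom (ul ≫ toH1 L ≫ ur) (swA ul ur L') := by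
  unfold swA
  have h1 : SP.tensorHom ul (pwFam fun _ : Fin p => ul) ≫
      SP.tensorHom (toH1 L) (toH L') ≫ SP.tensorHom ur (pwFam fun _ : Fin q => ur) =
      SP.tensorHom (ul ≫ toH1 L ≫ ur) ((pwFam fun _ : Fin p => ul) ≫
        toH L' ≫ (pwFam fun _ : Fin q => ur)) := by
    rw [tensorHom_comp, tensorHom_comp]
  exact h1

end Pool.Agent.MP_6e5bed_ag_NC
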