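import Pool.Agent.Lib.MP_6e5bed_ag_KC.LFun

set_option autoImplicit false
set_option linter.unusedSectionVars false

/-!
# Project KC: the lattices of the powers of the ideals of the diagonals
-/

noncomputable section

namespace Pool.Agent.MP_6e5bed_ag_KC

open RatFunc
open Pool.Agent.MP_6e5bed_ag_NC
open scoped TensorProduct

universe u

variable {k : Type u} [Field k]

/-! ### Denominators which are powers of one element -/

section Loc

variable {K : Type u} [CommRing K] [Algebra k K]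

/-- The elements `m` with `u ^ n m ∈ A` for some `n`. -/
def locK (u : K) (A : Submodule k K) (h : ∀ m ∈ A, u * m ∈ A) : Submodule k K where
  carrier := {m | ∃ n : ℕ, u ^ n * m ∈ A}
  add_mem' := by
    rintro a b ⟨n, hn⟩ ⟨m, hm⟩
    have hp : ∀ l : ℕ, ∀ m ∈ A, u ^ l * m ∈ A := by
      intro l
      induction l with
      | zero => intro m hm; rw [pow_zero, one_mul]; exact hm
      | succ l ih => intro m hm; rw [pow_succ', mul_assoc]; exact h _ (ih m hm)
    refine ⟨n + m, ?_⟩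
    rw [mul_add]
    refine A.add_mem ?_ ?_
    · rw [add_comm n m, pow_add, mul_assoc]
      exact hp m _ hn
    · rw [pow_add, mul_assoc]
      exact hp n _ hm
  zero_mem' := ⟨0, by rw [mul_zero]; exact A.zero_mem⟩
  smul_mem' := by
    rintro r a ⟨n, hn⟩
    exact ⟨n, by rw [mul_smul_comm]; exact A.smul_mem r hn⟩

theorem mem_locK {u : K} {A : Submodule k K} {h : ∀ m ∈ A, u * m ∈ A} {m : K} :
    m ∈ locK u A h ↔ ∃ n : ℕ, u ^ n * m ∈ A := Iff.rfl

/-- Localization of a product of submodules. -/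
theorem loc_mul {u : K} {A A' B B' : Submodule k K} (hB : ∀ m ∈ B, u * m ∈ B)
    (h : ∀ m ∈ A, ∃ n : ℕ, u ^ n * m ∈ B) (h' : ∀ m ∈ A', ∃ n : ℕ, u ^ n * m ∈ B') :
    ∀ m ∈ A * A', ∃ n : ℕ, u ^ n * m ∈ B * B' := by
  have hBB : ∀ m ∈ B * B', u * m ∈ B * B' := by
    intro m hm
    refine Submodule.mul_induction_on hm (fun a ha b hb => ?_) (fun x y hx hy => ?_)
    · rw [← mul_assoc]
      exact Submodule.mul_mem_mul (hB a ha) hb
    · rw [mul_add]
      exact Submodule.add_mem _ hx hy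
  intro m hm
  refine Submodule.mul_induction_on (C := fun m => m ∈ locK u (B * B') hBB) hm
    (fun a ha b hb => ?_) (fun x y hx hy => Submodule.add_mem _ hx hy)
  obtain ⟨n, hn⟩ := h a ha
  obtain ⟨m, hm⟩ := h' b hb
  refine ⟨n + m, ?_⟩
  have e : u ^ (n + m) * (a * b) = (u ^ n * a) * (u ^ m * b) := by ring
  rw [e]
  exact Submodule.mul_mem_mul hn hm

end Loc

variable (D : FExt k)

/-! ### The ideals of the diagonal on the products of the charts -/

/-- The functions on the product of the charts `c` and `d`, as a subspace of `L ⊗ L`. -/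
def BBt (c d : Fin 3) : Submodule k (D.L ⊗[k] D.L) :=
  (Subalgebra.toSubmodule (BB D c)).map
      (Algebra.TensorProduct.includeLeft : D.L →ₐ[k] D.L ⊗[k] D.L).toLinearMap *
    (Subalgebra.toSubmodule (BB D d)).map
      (Algebra.TensorProduct.includeRight : D.L →ₐ[k] D.L ⊗[k] D.L).toLinearMap

/-- The multiplication `L ⊗ L → L`. -/
def muL : D.L ⊗[k] D.L →ₐ[k] D.L := Algebra.TensorProduct.lmul' k

/-- The functions on the product of the charts `c` and `d` which vanish on the diagonal. -/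
def II (c d : Fin 3) : Submodule k (D.L ⊗[k] D.L) := BBt D c d ⊓ LinearMap.ker (muL D).toLinearMap

/-- The functions on the product of the charts `c` and `d` which vanish of order `j` at the
diagonal. -/
def Jk (j : ℕ) (c d : Fin 3) : Submodule k (D.L ⊗[k] D.L) :=
  BBt D c d ⊓ ((RingHom.ker (muL D) : Ideal (D.L ⊗[k] D.L)) ^ j).restrictScalars k

variable {D}

theorem BBt_mul_left {c d : Fin 3} {b : D.L} (hb : b ∈ BB D c) {m : D.L ⊗[k] D.L}
    (hm : m ∈ BBt D c d) : (b ⊗ₜ[k] (1 : D.L)) * m ∈ BBt D c d := by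
  refine Submodule.mul_induction_on hm (fun x hx y hy => ?_) (fun x y hx hy => ?_)
  · obtain ⟨a, ha, rfl⟩ := hx
    rw [← mul_assoc]
    refine Submodule.mul_mem_mul ⟨b * a, (BB D c).mul_mem hb ha, ?_⟩ hy
    exact map_mul (Algebra.TensorProduct.includeLeft : D.L →ₐ[k] D.L ⊗[k] D.L) b a
  · rw [mul_add]
    exact Submodule.add_mem _ hx hy

theorem BBt_mul_right {c d : Fin 3} {b : D.L} (hb : b ∈ BB D d) {m : D.L ⊗[k] D.L}
    (hm : m ∈ BBt D c d) : ((1 : D.L) ⊗ₜ[k] b) * m ∈ BBt D c d := by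
  refine Submodule.mul_induction_on hm (fun x hx y hy => ?_) (fun x y hx hy => ?_)
  · obtain ⟨a, ha, rfl⟩ := hy
    rw [mul_left_comm]
    refine Submodule.mul_mem_mul hx ⟨b * a, (BB D d).mul_mem hb ha, ?_⟩
    exact map_mul (Algebra.TensorProduct.includeRight : D.L →ₐ[k] D.L ⊗[k] D.L) b a
  · rw [mul_add]
    exact Submodule.add_mem _ hx hy

theorem BBt_mono {c c' d d' : Fin 3} (hc : BB D c ≤ BB D c') (hd : BB D d ≤ BB D d') :
    BBt D c d ≤ BBt D c' d' :=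
  mul_le_mul' (Submodule.map_mono hc) (Submodule.map_mono hd)

theorem II_mono {c c' d d' : Fin 3} (hc : BB D c ≤ BB D c') (hd : BB D d ≤ BB D d') :
    II D c d ≤ II D c' d' := inf_le_inf_right _ (BBt_mono hc hd)

theorem Jk_mono (j : ℕ) {c c' d d' : Fin 3} (hc : BB D c ≤ BB D c') (hd : BB D d ≤ BB D d') :
    Jk D j c d ≤ Jk D j c' d' := inf_le_inf_right _ (BBt_mono hc hd)

theorem Jk_mul_left (j : ℕ) {c d : Fin 3} {b : D.L} (hb : b ∈ BB D c) {m : D.L ⊗[k] D.L}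
    (hm : m ∈ Jk D j c d) : (b ⊗ₜ[k] (1 : D.L)) * m ∈ Jk D j c d :=
  ⟨BBt_mul_left hb hm.1, Ideal.mul_mem_left _ _ hm.2⟩

theorem Jk_mul_right (j : ℕ) {c d : Fin 3} {b : D.L} (hb : b ∈ BB D d) {m : D.L ⊗[k] D.L}
    (hm : m ∈ Jk D j c d) : ((1 : D.L) ⊗ₜ[k] b) * m ∈ Jk D j c d :=
  ⟨BBt_mul_right hb hm.1, Ideal.mul_mem_left _ _ hm.2⟩

theorem II_mul_left {c d : Fin 3} {b : D.L} (hb : b ∈ BB D c) {m : D.L ⊗[k] D.L}
    (hm : m ∈ II D c d) : (b ⊗ₜ[k] (1 : D.L)) * m ∈ II D c d := by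
  refine ⟨BBt_mul_left hb hm.1, ?_⟩
  have h2 : muL D m = 0 := hm.2
  change muL D _ = 0
  rw [map_mul, h2, mul_zero]

theorem II_mul_right {c d : Fin 3} {b : D.L} (hb : b ∈ BB D d) {m : D.L ⊗[k] D.L}
    (hm : m ∈ II D c d) : ((1 : D.L) ⊗ₜ[k] b) * m ∈ II D c d := by
  refine ⟨BBt_mul_right hb hm.1, ?_⟩
  have h2 : muL D m = 0 := hm.2
  change muL D _ = 0
  rw [map_mul, h2, mul_zero]

theorem BBt_loc_left {u : D.L} {a d : Fin 3} (h : ∀ b ∈ BB D 2, ∃ n : ℕ, u ^ n * b ∈ BB D a)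
    (hu : u ∈ BB D a) :
    ∀ m ∈ BBt D 2 d, ∃ n : ℕ, (u ⊗ₜ[k] (1 : D.L)) ^ n * m ∈ BBt D a d := by
  refine loc_mul ?_ ?_ ?_
  · rintro _ ⟨b, hb, rfl⟩
    refine ⟨u * b, (BB D a).mul_mem hu hb, ?_⟩
    exact map_mul (Algebra.TensorProduct.includeLeft : D.L →ₐ[k] D.L ⊗[k] D.L) u b
  · rintro _ ⟨b, hb, rfl⟩
    obtain ⟨n, hn⟩ := h b hb
    refine ⟨n, u ^ n * b, hn, ?_⟩
    have h1 := map_mul (Algebra.TensorProduct.includeLeft : D.L →ₐ[k] D.L ⊗[k] D.L) (u ^ n) b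
    rw [map_pow] at h1
    exact h1
  · intro m hm
    exact ⟨0, by rw [pow_zero, one_mul]; exact hm⟩

theorem BBt_loc_right {u : D.L} {a c : Fin 3} (h : ∀ b ∈ BB D 2, ∃ n : ℕ, u ^ n * b ∈ BB D a)
    (hu : u ∈ BB D a) :
    ∀ m ∈ BBt D c 2, ∃ n : ℕ, ((1 : D.L) ⊗ₜ[k] u) ^ n * m ∈ BBt D c a := by
  unfold BBt
  rw [mul_comm]
  intro m hm
  rw [mul_comm (Submodule.map _ _) _]
  revert m hm
  refine loc_mul ?_ ?_ ?_
  · rintro _ ⟨b, hb, rfl⟩
    refine ⟨u * b, (BB D a).mul_mem hu hb, ?_⟩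
    exact map_mul (Algebra.TensorProduct.includeRight : D.L →ₐ[k] D.L ⊗[k] D.L) u b
  · rintro _ ⟨b, hb, rfl⟩
    obtain ⟨n, hn⟩ := h b hb
    refine ⟨n, u ^ n * b, hn, ?_⟩
    have h1 := map_mul (Algebra.TensorProduct.includeRight : D.L →ₐ[k] D.L ⊗[k] D.L) (u ^ n) b
    rw [map_pow] at h1
    exact h1
  · intro m hm
    exact ⟨0, by rw [pow_zero, one_mul]; exact hm⟩

/-- the same for the ideals -/
theorem II_loc {w : D.L ⊗[k] D.L} {c d c' d' : Fin 3}
    (h : ∀ m ∈ BBt D c d, ∃ n : ℕ, w ^ n * m ∈ BBt D c' d') :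
    ∀ m ∈ II D c d, ∃ n : ℕ, w ^ n * m ∈ II D c' d' := by
  intro m hm
  obtain ⟨n, hn⟩ := h m hm.1
  refine ⟨n, hn, ?_⟩
  have h2 : muL D m = 0 := hm.2
  change muL D _ = 0
  rw [map_mul, h2, mul_zero]

theorem Jk_loc {w : D.L ⊗[k] D.L} {c d c' d' : Fin 3} (j : ℕ)
    (h : ∀ m ∈ BBt D c d, ∃ n : ℕ, w ^ n * m ∈ BBt D c' d') :
    ∀ m ∈ Jk D j c d, ∃ n : ℕ, w ^ n * m ∈ Jk D j c' d' := by
  intro m hm
  obtain ⟨n, hn⟩ := h m hm.1
  exact ⟨n, hn, Ideal.mul_mem_left _ _ hm.2⟩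

/-! ### The product lattices -/

variable {K : Type u} [CommRing K] [Algebra k K] {n : ℕ}

/-- The homomorphism `L ⊗ L → K` given by two points. -/
def prL (x y : D.L →ₐ[k] K) : D.L ⊗[k] D.L →ₐ[k] K :=
  Algebra.TensorProduct.lift x y fun _ _ => Commute.all _ _

theorem prL_left (x y : D.L →ₐ[k] K) (b : D.L) : prL x y (b ⊗ₜ[k] (1 : D.L)) = x b := by
  unfold prL
  rw [Algebra.TensorProduct.lift_tmul, map_one, mul_one]

theorem prL_right (x y : D.L →ₐ[k] K) (b : D.L) : prL x y ((1 : D.L) ⊗ₜ[k] b) = y b := by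
  unfold prL
  rw [Algebra.TensorProduct.lift_tmul, map_one, one_mul]

/-- The components of the lattice `∏ i, I(x i, y i) ^ (κ i)`. -/
def LLN (κ : Fin n → ℕ) (x y : Fin n → (D.L →ₐ[k] K)) (c : Fin n ⊕ Fin n → Fin 3) :
    Submodule k K :=
  ∏ i, (Jk D (κ i) (c (Sum.inl i)) (c (Sum.inr i))).map (prL (x i) (y i)).toLinearMap

/-- the change of one factor -/
theorem LLN_aux (F F' : Fin n → Submodule k K) (i : Fin n) (h : ∀ j, j ≠ i → F j = F' j)
    (u : K) (hi : ∀ m ∈ F i, ∃ n : ℕ, u ^ n * m ∈ F' i) (hu : ∀ m ∈ F' i, u * m ∈ F' i) :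
    ∀ m ∈ ∏ j, F j, ∃ n : ℕ, u ^ n * m ∈ ∏ j, F' j := by
  rw [← Finset.mul_prod_erase Finset.univ F (Finset.mem_univ i),
    ← Finset.mul_prod_erase Finset.univ F' (Finset.mem_univ i),
    Finset.prod_congr rfl fun j hj => h j (Finset.ne_of_mem_erase hj)]
  exact loc_mul hu hi fun m hm => ⟨0, by rw [pow_zero, one_mul]; exact hm⟩

theorem LLN_mul_aux (F : Fin n → Submodule k K) (i : Fin n) (u : K)
    (hu : ∀ m ∈ F i, u * m ∈ F i) : ∀ m ∈ ∏ j, F j, u * m ∈ ∏ j, F j := by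
  rw [← Finset.mul_prod_erase Finset.univ F (Finset.mem_univ i)]
  intro m hm
  refine Submodule.mul_induction_on hm (fun x hx y hy => ?_) (fun x y hx hy => ?_)
  · rw [← mul_assoc]
    exact Submodule.mul_mem_mul (hu x hx) hy
  · rw [mul_add]
    exact Submodule.add_mem _ hx hy

theorem prod_mono_aux (F F' : Fin n → Submodule k K) (h : ∀ j, F j ≤ F' j) :
    ∏ j, F j ≤ ∏ j, F' j := Finset.prod_le_prod' fun j _ => h j

theorem map_mul_aux {x y : D.L →ₐ[k] K} {A : Submodule k (D.L ⊗[k] D.L)} {w : D.L ⊗[k] D.L}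
    (h : ∀ m ∈ A, w * m ∈ A) :
    ∀ m ∈ A.map (prL x y).toLinearMap, prL x y w * m ∈ A.map (prL x y).toLinearMap := by
  rintro _ ⟨m, hm, rfl⟩
  exact ⟨w * m, h m hm, map_mul (prL x y) w m⟩

theorem map_loc_aux {x y : D.L →ₐ[k] K} {A A' : Submodule k (D.L ⊗[k] D.L)}
    {w : D.L ⊗[k] D.L} (h : ∀ m ∈ A, ∃ n : ℕ, w ^ n * m ∈ A') :
    ∀ m ∈ A.map (prL x y).toLinearMap, ∃ n : ℕ,
      prL x y w ^ n * m ∈ A'.map (prL x y).toLinearMap := by
  rintro _ ⟨m, hm, rfl⟩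
  obtain ⟨n, hn⟩ := h m hm
  refine ⟨n, w ^ n * m, hn, ?_⟩
  change prL x y (w ^ n * m) = _
  rw [map_mul, map_pow]
  rfl

theorem LLN_smul (κ : Fin n → ℕ) (x y : Fin n → (D.L →ₐ[k] K)) (c : Fin n ⊕ Fin n → Fin 3)
    (i : Fin n ⊕ Fin n) (b : D.L) (hb : b ∈ BB D (c i)) (m : K) (hm : m ∈ LLN κ x y c) :
    Sum.elim x y i b * m ∈ LLN κ x y c := by
  rcases i with i | i
  · have h := LLN_mul_aux _ i (prL (x i) (y i) (b ⊗ₜ[k] (1 : D.L)))
      (map_mul_aux fun m hm => Jk_mul_left (κ i) hb hm) m hm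
    rw [prL_left] at h
    exact h
  · have h := LLN_mul_aux _ i (prL (x i) (y i) ((1 : D.L) ⊗ₜ[k] b))
      (map_mul_aux fun m hm => Jk_mul_right (κ i) hb hm) m hm
    rw [prL_right] at h
    exact h

theorem BB_update (c : Fin n ⊕ Fin n → Fin 3) (i j : Fin n ⊕ Fin n) :
    BB D (c j) ≤ BB D (Function.update c i 2 j) := by
  rw [Function.update_apply]
  split_ifs
  · exact BB_le D _
  · exact le_rfl

theorem LLN_mono (κ : Fin n → ℕ) (x y : Fin n → (D.L →ₐ[k] K)) (c : Fin n ⊕ Fin n → Fin 3)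
    (i : Fin n ⊕ Fin n) : LLN κ x y c ≤ LLN κ x y (Function.update c i 2) :=
  prod_mono_aux _ _ fun j => Submodule.map_mono
    (Jk_mono (κ j) (BB_update c i (Sum.inl j)) (BB_update c i (Sum.inr j)))

theorem LLN_loc (κ : Fin n → ℕ) (x y : Fin n → (D.L →ₐ[k] K)) (c : Fin n ⊕ Fin n → Fin 3)
    (i : Fin n ⊕ Fin n) (a : Fin 3) (u : D.L)
    (h : ∀ b ∈ BB D 2, ∃ n : ℕ, u ^ n * b ∈ BB D a) (hu : u ∈ BB D a) :
    ∀ m ∈ LLN κ x y (Function.update c i 2), ∃ n : ℕ,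
      Sum.elim x y i (u ^ n) * m ∈ LLN κ x y (Function.update c i a) := by
  rcases i with i | i
  · have h1 : ∀ m ∈ LLN κ x y (Function.update c (Sum.inl i) 2), ∃ n : ℕ,
        prL (x i) (y i) (u ⊗ₜ[k] (1 : D.L)) ^ n * m ∈
          LLN κ x y (Function.update c (Sum.inl i) a) := by
      refine LLN_aux _ _ i (fun j hj => ?_) _ (map_loc_aux ?_) (map_mul_aux ?_)
      · rw [Function.update_of_ne (fun h => hj (Sum.inl_injective h)),
          Function.update_of_ne (by simp),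
          Function.update_of_ne (fun h => hj (Sum.inl_injective h)),
          Function.update_of_ne (by simp)]
      · rw [Function.update_self, Function.update_self, Function.update_of_ne (by simp),
          Function.update_of_ne (by simp)]
        exact Jk_loc (κ i) (BBt_loc_left h hu)
      · rw [Function.update_self, Function.update_of_ne (by simp)]
        exact fun m hm => Jk_mul_left (κ i) hu hm
    intro m hm
    obtain ⟨n, hn⟩ := h1 m hm
    refine ⟨n, ?_⟩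
    rw [prL_left, ← map_pow] at hn
    exact hn
  · have h1 : ∀ m ∈ LLN κ x y (Function.update c (Sum.inr i) 2), ∃ n : ℕ,
        prL (x i) (y i) ((1 : D.L) ⊗ₜ[k] u) ^ n * m ∈
          LLN κ x y (Function.update c (Sum.inr i) a) := by
      refine LLN_aux _ _ i (fun j hj => ?_) _ (map_loc_aux ?_) (map_mul_aux ?_)
      · rw [Function.update_of_ne (by simp),
          Function.update_of_ne (fun h => hj (Sum.inr_injective h)),
          Function.update_of_ne (by simp),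
          Function.update_of_ne (fun h => hj (Sum.inr_injective h))]
      · rw [Function.update_self, Function.update_self, Function.update_of_ne (by simp),
          Function.update_of_ne (by simp)]
        exact Jk_loc (κ i) (BBt_loc_right h hu)
      · rw [Function.update_self, Function.update_of_ne (by simp)]
        exact fun m hm => Jk_mul_right (κ i) hu hm
    intro m hm
    obtain ⟨n, hn⟩ := h1 m hm
    refine ⟨n, ?_⟩
    rw [prL_right, ← map_pow] at hn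
    exact hn

/-- The lattice `∏ i, I(x i, y i) ^ (κ i)` in the algebra `K` with the points `x i`, `y i`. -/
def LL (κ : Fin n → ℕ) (x y : Fin n → (D.L →ₐ[k] K)) :
    Lat (LSys.ofAlg (D := D) (ι := Fin n ⊕ Fin n) (Sum.elim x y) K) where
  N := LLN (K := K) κ x y
  smul := fun c i b hb => LLN_smul (K := K) κ x y c i b hb
  mono := LLN_mono (K := K) κ x y
  loc0 := fun c i => LLN_loc (K := K) κ x y c i 0 (tt D) (fun _ hb => mem_BB2.1 hb) (tt_mem_BB0 D)
  loc1 := fun c i => LLN_loc (K := K) κ x y c i 1 (tt D)⁻¹ (fun _ hb => mem_BB2'.1 hb)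
    (tt_inv_mem_BB1 D)

theorem LL_N (κ : Fin n → ℕ) (x y : Fin n → (D.L →ₐ[k] K)) (c : Fin n ⊕ Fin n → Fin 3) :
    (LL κ x y).N c = LLN (K := K) κ x y c := rfl

end Pool.Agent.MP_6e5bed_ag_KC
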