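import Pool.Agent.Lib.MP_6e5bed_ag_KC.LPsi
import Pool.Agent.Lib.MP_6e5bed_ag_KC.BIdl
import Pool.Agent.Lib.MP_6e5bed_ag_CV.FCRes

set_option autoImplicit false
set_option linter.unusedSectionVars false

/-!
# The classes of the universal lattices (project KC, part B5)
-/

namespace Pool.Agent.MP_6e5bed_ag_KC

open RatFunc Equiv CategoryTheory MonoidalCategory
open Pool.Agent.MP_6e5bed_ag_NC
open Pool.Agent.MP_6e5bed_ag
open scoped TensorProduct

universe u

variable {k : Type u} [Field k] (D : FExt k)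

/-- The first point of `L ⊗ L`. -/
noncomputable abbrev zl : D.L →ₐ[k] D.L ⊗[k] D.L := Algebra.TensorProduct.includeLeft

/-- The second point of `L ⊗ L`. -/
noncomputable abbrev zr : D.L →ₐ[k] D.L ⊗[k] D.L := Algebra.TensorProduct.includeRight

/-- The two points of `L ⊗ L`. -/
noncomputable abbrev zT : Fin 1 ⊕ Fin 1 → (D.L →ₐ[k] D.L ⊗[k] D.L) :=
  Sum.elim (fun _ => zl D) (fun _ => zr D)

/-- The system of the square of the curve. -/
noncomputable abbrev E1 : LSys D (Fin 1 ⊕ Fin 1) := LSys.ofAlg (zT D) (D.L ⊗[k] D.L)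

/-- The lattice of the functions on the square of the curve which vanish of order `j` at the
diagonal. -/
noncomputable def L1 (j : ℕ) : Lat (E1 D) :=
  LL (K := D.L ⊗[k] D.L) (fun _ : Fin 1 => j) (fun _ => zl D) (fun _ => zr D)

variable {D}

theorem prL_incl : prL (zl D) (zr D) = AlgHom.id k _ := by
  refine Algebra.TensorProduct.ext' fun a b => ?_
  unfold prL
  rw [Algebra.TensorProduct.lift_tmul]
  change (a ⊗ₜ[k] (1 : D.L)) * ((1 : D.L) ⊗ₜ[k] b) = a ⊗ₜ[k] b
  rw [Algebra.TensorProduct.tmul_mul_tmul, mul_one, one_mul]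

theorem L1_N (j : ℕ) (c : Fin 1 ⊕ Fin 1 → Fin 3) :
    (L1 D j).N c = Jk D j (c (Sum.inl 0)) (c (Sum.inr 0)) := by
  have h : LLN (K := D.L ⊗[k] D.L) (fun _ : Fin 1 => j) (fun _ => zl D) (fun _ => zr D) c =
      Jk D j (c (Sum.inl 0)) (c (Sum.inr 0)) := by
    unfold LLN
    rw [Fin.prod_univ_one, prL_incl]
    exact Submodule.map_id _
  exact h

/-- The choice of charts with two given components. -/
def c2 (a b : Fin 3) : Fin 1 ⊕ Fin 1 → Fin 3 := Sum.elim (fun _ => a) fun _ => b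

theorem c2_eta (c : Fin 1 ⊕ Fin 1 → Fin 3) : c2 (c (Sum.inl 0)) (c (Sum.inr 0)) = c := by
  funext i
  rcases i with i | i
  · rw [Subsingleton.elim i 0]
    rfl
  · rw [Subsingleton.elim i 0]
    rfl

theorem c2_inl (a b d : Fin 3) : Function.update (c2 a b) (Sum.inl 0) d = c2 d b := by
  funext i
  rcases i with i | i
  · rw [Subsingleton.elim i 0, Function.update_self]
    rfl
  · rw [Function.update_of_ne Sum.inr_ne_inl]
    rfl

theorem c2_inr (a b d : Fin 3) : Function.update (c2 a b) (Sum.inr 0) d = c2 a d := by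
  funext i
  rcases i with i | i
  · rw [Function.update_of_ne Sum.inl_ne_inr]
    rfl
  · rw [Subsingleton.elim i 0, Function.update_self]
    rfl

/-- The bimodule of `L1` is the one of the diagram `SysM`. -/
theorem L1_iso (j : ℕ) : KBi.Iso ((L1 D j).bi (Sum.inl 0) (Sum.inr 0) Sum.inl_ne_inr)
    (SysM D j).kbi := by
  let f : (L1 D j).V ≃ₗ[k] (SysM D j).N :=
    { toFun := fun f => ⟨fun a b => f.1 (c2 a b), fun a b => by
        have h := f.2 (c2 a b)
        rw [L1_N] at h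
        exact h⟩
      map_add' := fun _ _ => rfl
      map_smul' := fun _ _ => rfl
      invFun := fun w => ⟨fun c => w.1 (c (Sum.inl 0)) (c (Sum.inr 0)), fun c => by
        rw [L1_N]
        exact w.2 _ _⟩
      left_inv := fun f => Subtype.ext (funext fun c => by
        change f.1 (c2 (c (Sum.inl 0)) (c (Sum.inr 0))) = f.1 c
        rw [c2_eta])
      right_inv := fun w => rfl }
  refine ⟨f, fun g x => ?_, fun g x => ?_⟩
  · refine Subtype.ext (funext fun a => funext fun b => ?_)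
    change Lat.slotE _ (Sum.inl 0) g.1 x.1 (c2 a b) = ∑ c, (TTt D).l (g.1 a c) (x.1 (c2 c b))
    rw [Lat.slotE_apply]
    refine Finset.sum_congr rfl fun d _ => ?_
    rw [c2_inl]
    rfl
  · refine Subtype.ext (funext fun a => funext fun b => ?_)
    change Lat.slotE _ (Sum.inr 0) g.1.transpose x.1 (c2 a b) =
      ∑ c, (TTt D).r (g.1 c b) (x.1 (c2 a c))
    rw [Lat.slotE_apply]
    refine Finset.sum_congr rfl fun d _ => ?_
    rw [c2_inr]
    rfl

variable (D)

/-- The system of the universal algebra. -/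
noncomputable abbrev EK (n : ℕ) : LSys D (Fin n ⊕ Fin n) :=
  LSys.ofAlg (Sum.elim (kx D n) (ky D n)) (KT D n).A

private theorem LLcl_a1 (n : ℕ) (z u : D.L ⊗[k] D.L) (v : (KT D n).A) :
    ((z * u) ⊗ₜ[k] v : (D.L ⊗[k] D.L) ⊗[k] (KT D n).A) =
      (z ⊗ₜ[k] (1 : (KT D n).A)) * (u ⊗ₜ[k] v) := by
  rw [Algebra.TensorProduct.tmul_mul_tmul, one_mul]

private theorem LLcl_a2 (n : ℕ) (z : (KT D n).A) (u : D.L ⊗[k] D.L) (v : (KT D n).A) :
    (u ⊗ₜ[k] (z * v) : (D.L ⊗[k] D.L) ⊗[k] (KT D n).A) =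
      ((1 : D.L ⊗[k] D.L) ⊗ₜ[k] z) * (u ⊗ₜ[k] v) := by
  rw [Algebra.TensorProduct.tmul_mul_tmul, one_mul]

/-- The universal algebra with one more pair of points. -/
noncomputable def P1 (n : ℕ) : PData (E1 D) (EK D n) (EK D (n + 1)) where
  a := Sum.elim (fun _ => Sum.inl 0) (fun _ => Sum.inr 0)
  b := Sum.map Fin.succ Fin.succ
  bij := by
    constructor
    · rintro ((a | a) | (a | a)) ((b | b) | (b | b)) h
      · rw [Subsingleton.elim a b]
      · exact absurd h Sum.inl_ne_inr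
      · exact absurd (Sum.inl_injective h) (Fin.succ_ne_zero b).symm
      · exact absurd h Sum.inl_ne_inr
      · exact absurd h Sum.inr_ne_inl
      · rw [Subsingleton.elim a b]
      · exact absurd h Sum.inr_ne_inl
      · exact absurd (Sum.inr_injective h) (Fin.succ_ne_zero b).symm
      · exact absurd (Sum.inl_injective h) (Fin.succ_ne_zero a)
      · exact absurd h Sum.inl_ne_inr
      · rw [Fin.succ_injective _ (Sum.inl_injective h)]
      · exact absurd h Sum.inl_ne_inr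
      · exact absurd h Sum.inr_ne_inl
      · exact absurd (Sum.inr_injective h) (Fin.succ_ne_zero a)
      · exact absurd h Sum.inr_ne_inl
      · rw [Fin.succ_injective _ (Sum.inr_injective h)]
    · rintro (a | a)
      · refine Fin.cases ?_ (fun a => ?_) a
        · exact ⟨Sum.inl (Sum.inl 0), rfl⟩
        · exact ⟨Sum.inr (Sum.inl a), rfl⟩
      · refine Fin.cases ?_ (fun a => ?_) a
        · exact ⟨Sum.inl (Sum.inr 0), rfl⟩
        · exact ⟨Sum.inr (Sum.inr a), rfl⟩
  β := TensorProduct.mk k (D.L ⊗[k] D.L) (KT D n).A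
  inj := by
    intro x y hxy
    have h : TensorProduct.lift (TensorProduct.mk k (D.L ⊗[k] D.L) (KT D n).A) =
        LinearMap.id := TensorProduct.ext' fun x y => rfl
    exact (LinearMap.congr_fun h x).symm.trans (hxy.trans (LinearMap.congr_fun h y))
  act1 := fun i x u v => by
    rcases i with i | i
    · exact LLcl_a1 D n (zl D x) u v
    · exact LLcl_a1 D n (zr D x) u v
  act2 := fun i x u v => by
    rcases i with i | i
    · exact LLcl_a2 D n (kx D n i x) u v
    · exact LLcl_a2 D n (ky D n i x) u v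

variable {D}

theorem P1_prod (n : ℕ) (κ : Fin (n + 1) → ℕ) :
    (P1 D n).IsProd (L1 D (κ 0)) (LL (fun i => κ i.succ) (kx D n) (ky D n))
      (LL κ (kx D (n + 1)) (ky D (n + 1))) := by
  intro c
  have h1 : (LL κ (kx D (n + 1)) (ky D (n + 1))).N c = _ := LLN_succ κ c
  rw [h1, L1_N, Submodule.map₂_eq_span_image2]
  have h2 : (c ∘ (P1 D n).b) = Sum.elim (fun i => c (Sum.inl i.succ)) fun i =>
      c (Sum.inr i.succ) := by
    funext i
    rcases i with i | i <;> rfl
  rw [h2]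
  rfl

section cls

variable {F : LSp D} (V : LP k F.F) (hV : BSt V)

private theorem LLcl_c0 (c : Fin 0 ⊕ Fin 0 → Fin 3) : c = fun _ => 0 := funext fun i => by
  rcases i with i | i <;> exact i.elim0

private theorem LLcl_mem0 (κ : Fin 0 → ℕ) (c : Fin 0 ⊕ Fin 0 → Fin 3) (r : k) :
    (r : (KT D 0).A) ∈ LLN κ (kx D 0) (ky D 0) c := by
  have h : LLN κ (kx D 0) (ky D 0) c = (1 : Submodule k (KT D 0).A) := Fin.prod_univ_zero _
  rw [h]
  exact Submodule.algebraMap_mem r

private theorem LLcl_diag (κ : Fin 0 → ℕ) :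
    BIso (A := base k) (B := base k) (LL κ (kx D 0) (ky D 0)).bb.bim (diag (base k)) := by
  let f : (LL κ (kx D 0) (ky D 0)).V →ₗ[k] k :=
    { toFun := fun f => f.1 fun _ => 0
      map_add' := fun _ _ => rfl
      map_smul' := fun _ _ => rfl }
  refine BIso.of_bij (M := (LL κ (kx D 0) (ky D 0)).bb.bim) (N := diag (base k))
    ⟨f, fun {i m} h => ?_, fun a m => ?_, fun b m => ?_⟩ ?_ ?_
  · rw [add_zero]
    rcases Dg.conc_cases h with rfl | rfl
    · exact base_deg (k := k) _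
    · rw [map_zero]
      exact Dg.IsDeg.zero _
  · rw [Dg.sp_even Even.zero]
    exact f.map_smul a m
  · have h1 : ∀ (b : k) (m : (LL κ (kx D 0) (ky D 0)).V), f (b • m) = f m * b := fun b m =>
      (f.map_smul b m).trans (mul_comm b (f m))
    exact h1 b m
  · refine LinearMap.ext fun x => ?_
    rw [GMap.dd_apply, sg_zero, one_smul, LinearMap.zero_apply, sub_eq_zero]
    exact (map_zero f).symm
  · constructor
    · intro x y h
      refine Subtype.ext (funext fun c => ?_)
      rw [LLcl_c0 c]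
      exact h
    · have h1 : Function.Surjective f := fun r =>
        ⟨⟨fun _ => r, fun c => LLcl_mem0 κ c r⟩, rfl⟩
      exact h1

theorem lcl_zero (κ : Fin 0 → ℕ) : HasRes (lbim V hV (LL κ (kx D 0) (ky D 0))) ∧
    (lcl V hV (LL κ (kx D 0) (ky D 0)) : K0Q (base k) (base k)) = K0Q.one smooth_base := by
  have e : BIso (A := base k) (B := base k) (lbim V hV (LL κ (kx D 0) (ky D 0)))
      (diag (base k)) := (Cc_zero (ZL V hV) (ZR V) _).trans (LLcl_diag κ)
  have h : HasRes (diag (base k)) := Smooth.hasRes_diag smooth_base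
  refine ⟨h.iso e.symm, ?_⟩
  exact (ecl_iso e).trans ((ecl_eq h).trans (rcls_diag smooth_base proper_base h))

theorem lcl_succ (n : ℕ) (κ : Fin (n + 1) → ℕ)
    (h0 : HasRes ((C1 (ZL V hV) (ZR V)).obj (SysM D (κ 0)).kbi.bim))
    (h : HasRes (lbim V hV (LL (fun i => κ i.succ) (kx D n) (ky D n)))) :
    HasRes (lbim V hV (LL κ (kx D (n + 1)) (ky D (n + 1)))) ∧
      (lcl V hV (LL κ (kx D (n + 1)) (ky D (n + 1))) :
        K0Q ((endCosp V).cech.tensor (pw (endCosp V).cech n))
          ((endCosp V).cech.tensor (pw (endCosp V).cech n))) =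
        K0Q.box (ecl ((C1 (ZL V hV) (ZR V)).obj (SysM D (κ 0)).kbi.bim))
          (lcl V hV (LL (fun i => κ i.succ) (kx D n) (ky D n))) := by
  have e1 := (P1 D n).biso (P1_prod n κ) (Sum.inl 0) (Sum.inr 0) Sum.inl_ne_inr
    Sum.inl Sum.inr Sum.inl_injective Sum.inr_injective (fun _ _ => Sum.inl_ne_inr)
    (Sum.inl : Fin (n + 1) → Fin (n + 1) ⊕ Fin (n + 1)) Sum.inr Sum.inl_injective
    Sum.inr_injective (fun _ _ => Sum.inl_ne_inr)
    (funext fun i => Fin.cases rfl (fun i => rfl) i)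
    (funext fun i => Fin.cases rfl (fun i => rfl) i)
  have e2 : BIso ((L1 D (κ 0)).bi (Sum.inl 0) (Sum.inr 0) Sum.inl_ne_inr).bim
      (SysM D (κ 0)).kbi.bim := (L1_iso (κ 0)).biso (DHom.id _) (DHom.id _)
  have e3 := (boxR (GaL D) (GaR D)
    (LL (fun i => κ i.succ) (kx D n) (ky D n)).bb.bim).biso e2
  have e4 := (Cc (ZL V hV) (ZR V) (n + 1) (n + 1)).biso (e3.symm.trans e1)
  have e5 := Cc_box (ZL V hV) (ZR V) n n (SysM D (κ 0)).kbi.bim
    (LL (fun i => κ i.succ) (kx D n) (ky D n)).bb.bim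
  have e6 := e4.symm.trans e5
  exact ⟨(h0.box h).iso e6.symm, (ecl_iso e6).trans (ecl_box h0 h)⟩

end cls

section fin

variable {F : LSp D} (V : LP k F.F) (hV : BSt V) (hsm : Smooth (endCosp V).cech)
  (hpr : Proper (endCosp V).cech)

/-- The class of the `j`-th power of the ideal of the diagonal, as a morphism. -/
noncomputable def bJ (j : ℕ) : TS V hsm hpr ⟶ TS V hsm hpr :=
  ecl ((C1 (ZL V hV) (ZR V)).obj (SysM D j).kbi.bim)

theorem lcl_LL (hC : ∀ j, HasRes ((C1 (ZL V hV) (ZR V)).obj (SysM D j).kbi.bim)) (n : ℕ) :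
    ∀ κ : Fin n → ℕ, HasRes (lbim V hV (LL κ (kx D n) (ky D n))) ∧
      toH (T := TS V hsm hpr) (lcl V hV (LL κ (kx D n) (ky D n))) =
        pwFam fun i => bJ V hV hsm hpr (κ i) := by
  induction n with
  | zero => exact fun κ => lcl_zero V hV κ
  | succ n ih =>
    intro κ
    obtain ⟨h1, h2⟩ := ih fun i => κ i.succ
    obtain ⟨h3, h4⟩ := lcl_succ V hV n κ (hC _) h1
    refine ⟨h3, ?_⟩
    have h5 : (pwFam fun i => bJ V hV hsm hpr (κ i)) = SP.tensorHom (bJ V hV hsm hpr (κ 0))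
        (pwFam fun i => bJ V hV hsm hpr (κ (Fin.succ i))) := rfl
    rw [h5, ← h2]
    exact h4

theorem sw_LL (hC : ∀ j, HasRes ((C1 (ZL V hV) (ZR V)).obj (SysM D j).kbi.bim))
    (ul ur : TS V hsm hpr ⟶ TS V hsm hpr) (n : ℕ) (κ : Fin n → ℕ) :
    sw V hV hsm hpr ul ur (LL κ (kx D n) (ky D n)) =
      pwFam fun i => ul ≫ bJ V hV hsm hpr (κ i) ≫ ur := by
  unfold sw swA
  rw [(lcl_LL V hV hsm hpr hC n κ).2, pwFam_comp, pwFam_comp]

end fin

end Pool.Agent.MP_6e5bed_ag_KC
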