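import Pool.Agent.Lib.MP_6e5bed_ag_KC.KT
import Pool.Agent.Lib.MP_6e5bed_ag_KC.LSpan

set_option autoImplicit false
set_option linter.unusedSectionVars false

/-!
# Project KC: the lattices of the ideals of the graphs of permutations
-/

noncomputable section

namespace Pool.Agent.MP_6e5bed_ag_KC

open RatFunc Equiv
open Pool.Agent.MP_6e5bed_ag_NC
open scoped TensorProduct

universe u

variable {k : Type u} [Field k] {D : FExt k} {K : Type u} [CommRing K] [Algebra k K] {n : ℕ}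

/-- The permutation `σ` on the right factors. -/
def rperm (σ : Perm (Fin n)) : (Fin n ⊕ Fin n) ≃ (Fin n ⊕ Fin n) :=
  Equiv.sumCongr (Equiv.refl (Fin n)) σ

theorem elim_rperm (σ : Perm (Fin n)) (x y : Fin n → (D.L →ₐ[k] K)) (i : Fin n ⊕ Fin n) :
    Sum.elim x (fun i => y (σ i)) i = Sum.elim x y (rperm σ i) := by
  rcases i with i | i
  · rfl
  · rfl

theorem update_rperm (σ : Perm (Fin n)) (c : Fin n ⊕ Fin n → Fin 3) (i : Fin n ⊕ Fin n)
    (a : Fin 3) : Function.update c (rperm σ i) a ∘ rperm σ =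
      Function.update (c ∘ rperm σ) i a := by
  funext j
  rw [Function.comp_apply, Function.update_apply, Function.update_apply, Function.comp_apply]
  exact if_congr (rperm σ).injective.eq_iff rfl rfl

/-- The components of the lattice `∏ i, I(x i, y (σ i)) ^ (κ i)`. -/
def LLsN (κ : Fin n → ℕ) (σ : Perm (Fin n)) (x y : Fin n → (D.L →ₐ[k] K))
    (c : Fin n ⊕ Fin n → Fin 3) : Submodule k K :=
  LLN κ x (fun i => y (σ i)) (c ∘ rperm σ)

theorem LLsN_eq (κ : Fin n → ℕ) (σ : Perm (Fin n)) (x y : Fin n → (D.L →ₐ[k] K))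
    (c : Fin n ⊕ Fin n → Fin 3) : LLsN κ σ x y c =
      ∏ i, (Jk D (κ i) (c (Sum.inl i)) (c (Sum.inr (σ i)))).map
        (prL (x i) (y (σ i))).toLinearMap := rfl

theorem LLsN_smul (κ : Fin n → ℕ) (σ : Perm (Fin n)) (x y : Fin n → (D.L →ₐ[k] K))
    (c : Fin n ⊕ Fin n → Fin 3) (i : Fin n ⊕ Fin n) (b : D.L) (hb : b ∈ BB D (c i)) (m : K)
    (hm : m ∈ LLsN κ σ x y c) : Sum.elim x y i b * m ∈ LLsN κ σ x y c := by
  obtain ⟨i, rfl⟩ := (rperm σ).surjective i
  rw [← elim_rperm]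
  exact LLN_smul κ x (fun i => y (σ i)) (c ∘ rperm σ) i b hb m hm

theorem LLsN_mono (κ : Fin n → ℕ) (σ : Perm (Fin n)) (x y : Fin n → (D.L →ₐ[k] K))
    (c : Fin n ⊕ Fin n → Fin 3) (i : Fin n ⊕ Fin n) :
    LLsN κ σ x y c ≤ LLsN κ σ x y (Function.update c i 2) := by
  obtain ⟨i, rfl⟩ := (rperm σ).surjective i
  unfold LLsN
  rw [update_rperm]
  exact LLN_mono κ x (fun i => y (σ i)) (c ∘ rperm σ) i

theorem LLsN_loc (κ : Fin n → ℕ) (σ : Perm (Fin n)) (x y : Fin n → (D.L →ₐ[k] K))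
    (c : Fin n ⊕ Fin n → Fin 3) (i : Fin n ⊕ Fin n) (a : Fin 3) (u : D.L)
    (h : ∀ b ∈ BB D 2, ∃ n : ℕ, u ^ n * b ∈ BB D a) (hu : u ∈ BB D a) :
    ∀ m ∈ LLsN κ σ x y (Function.update c i 2), ∃ n : ℕ,
      Sum.elim x y i (u ^ n) * m ∈ LLsN κ σ x y (Function.update c i a) := by
  obtain ⟨i, rfl⟩ := (rperm σ).surjective i
  unfold LLsN
  rw [update_rperm, update_rperm, ← elim_rperm]
  exact LLN_loc κ x (fun i => y (σ i)) (c ∘ rperm σ) i a u h hu

/-- The lattice `∏ i, I(x i, y (σ i)) ^ (κ i)` in the algebra `K` with the points `x i`, `y i`. -/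
def LLs (κ : Fin n → ℕ) (σ : Perm (Fin n)) (x y : Fin n → (D.L →ₐ[k] K)) :
    Lat (LSys.ofAlg (D := D) (ι := Fin n ⊕ Fin n) (Sum.elim x y) K) where
  N := LLsN (K := K) κ σ x y
  smul := fun c i b hb => LLsN_smul (K := K) κ σ x y c i b hb
  mono := LLsN_mono (K := K) κ σ x y
  loc0 := fun c i => LLsN_loc (K := K) κ σ x y c i 0 (tt D) (fun _ hb => mem_BB2.1 hb)
    (tt_mem_BB0 D)
  loc1 := fun c i => LLsN_loc (K := K) κ σ x y c i 1 (tt D)⁻¹ (fun _ hb => mem_BB2'.1 hb)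
    (tt_inv_mem_BB1 D)

theorem LLs_NK (κ : Fin n → ℕ) (σ : Perm (Fin n)) (x y : Fin n → (D.L →ₐ[k] K))
    (c : Fin n ⊕ Fin n → Fin 3) : (LLs κ σ x y).NK c = LLsN κ σ x y c := rfl

theorem LL_NK (κ : Fin n → ℕ) (x y : Fin n → (D.L →ₐ[k] K))
    (c : Fin n ⊕ Fin n → Fin 3) : (LL κ x y).NK c = LLN κ x y c := rfl

/-- The products of the functions on the charts: the product over the pairs `(x i, y (σ i))`. -/
theorem RRm_pairs (σ : Perm (Fin n)) (x y : Fin n → (D.L →ₐ[k] K))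
    (c : Fin n ⊕ Fin n → Fin 3) : RRm (Sum.elim x y) c =
      ∏ i, (BBt D (c (Sum.inl i)) (c (Sum.inr (σ i)))).map
        (prL (x i) (y (σ i))).toLinearMap := by
  have h : ∀ i, (BBt D (c (Sum.inl i)) (c (Sum.inr (σ i)))).map
      (prL (x i) (y (σ i))).toLinearMap =
      (Subalgebra.toSubmodule (BB D (c (Sum.inl i)))).map (x i).toLinearMap *
        (Subalgebra.toSubmodule (BB D (c (Sum.inr (σ i))))).map (y (σ i)).toLinearMap := by
    intro i
    refine (Submodule.map_mul _ _ (prL (x i) (y (σ i)))).trans ?_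
    rw [← Submodule.map_comp, ← Submodule.map_comp]
    have h1 : (prL (x i) (y (σ i))).toLinearMap ∘ₗ
        (Algebra.TensorProduct.includeLeft : D.L →ₐ[k] D.L ⊗[k] D.L).toLinearMap =
        (x i).toLinearMap := LinearMap.ext fun b => prL_left _ _ b
    have h2 : (prL (x i) (y (σ i))).toLinearMap ∘ₗ
        (Algebra.TensorProduct.includeRight : D.L →ₐ[k] D.L ⊗[k] D.L).toLinearMap =
        (y (σ i)).toLinearMap := LinearMap.ext fun b => prL_right _ _ b
    rw [h1, h2]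
  rw [Finset.prod_congr rfl fun i _ => h i, Finset.prod_mul_distrib]
  unfold RRm
  rw [Fintype.prod_sum_type]
  congr 1
  exact (Equiv.prod_comp σ fun i => (Subalgebra.toSubmodule (BB D (c (Sum.inr i)))).map
    (y i).toLinearMap).symm

theorem BBt_sq (c d : Fin 3) : BBt D c d * BBt D c d = BBt D c d := by
  unfold BBt
  rw [mul_mul_mul_comm, ← Submodule.map_mul, ← Submodule.map_mul,
    Subalgebra.isIdempotentElem_toSubmodule, Subalgebra.isIdempotentElem_toSubmodule]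

theorem Jk_le (j : ℕ) (c d : Fin 3) : Jk D j c d ≤ BBt D c d := inf_le_left

/-- The powers of `II` are contained in `Jk`. -/
theorem II_pow_le (j : ℕ) (c d : Fin 3) : II D c d ^ j * BBt D c d ≤ Jk D j c d := by
  unfold Jk
  induction j with
  | zero =>
    rw [pow_zero, one_mul]
    exact le_inf le_rfl fun m _ => by
      rw [pow_zero, Ideal.one_eq_top]
      exact Submodule.mem_top
  | succ j ih =>
    rw [pow_succ', mul_assoc]
    refine Submodule.mul_le.2 fun a ha b hb => ?_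
    obtain ⟨hb1, hb2⟩ := ih hb
    refine ⟨?_, ?_⟩
    · have h := Submodule.mul_mem_mul ha.1 hb1
      rwa [BBt_sq] at h
    · change a * b ∈ (RingHom.ker (muL D) : Ideal (D.L ⊗[k] D.L)) ^ (j + 1)
      rw [pow_succ']
      exact Ideal.mul_mem_mul ha.2 hb2

/-- The components are contained in the rings of functions. -/
theorem LLsN_le (κ : Fin n → ℕ) (σ : Perm (Fin n)) (x y : Fin n → (D.L →ₐ[k] K))
    (c : Fin n ⊕ Fin n → Fin 3) : LLsN κ σ x y c ≤ RRm (Sum.elim x y) c := by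
  rw [LLsN_eq, RRm_pairs σ]
  exact prod_mono_aux _ _ fun i => Submodule.map_mono (Jk_le _ _ _)

end Pool.Agent.MP_6e5bed_ag_KC
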