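import Pool.Agent.Lib.MP_6e5bed_ag_KC.OB

set_option autoImplicit false
set_option linter.unusedSectionVars false

/-!
# Quotients of spaces with commuting actions (project KC)
-/

namespace Pool.Agent.MP_6e5bed_ag_NC

universe u

variable {k : Type u} [Field k] {G G' : Type u} [Ring G] [Algebra k G] [Ring G'] [Algebra k G']
  {p q : ℕ}

namespace Acts

/-- The quotient by a stable subspace. -/
noncomputable def quot (E : Acts k G G' p q) (S : Submodule k E.V)
    (hl : ∀ i a, ∀ v ∈ S, E.l i a v ∈ S) (hr : ∀ i a, ∀ v ∈ S, E.r i a v ∈ S) :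
    Acts k G G' p q where
  V := E.V ⧸ S
  l := fun i =>
    { toFun := fun a => S.mapQ S (E.l i a) (hl i a)
      map_add' := fun a b => by
        refine Submodule.linearMap_qext _ (LinearMap.ext fun v => ?_)
        simp
      map_smul' := fun c a => by
        refine Submodule.linearMap_qext _ (LinearMap.ext fun v => ?_)
        simp }
  r := fun i =>
    { toFun := fun a => S.mapQ S (E.r i a) (hr i a)
      map_add' := fun a b => by
        refine Submodule.linearMap_qext _ (LinearMap.ext fun v => ?_)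
        simp
      map_smul' := fun c a => by
        refine Submodule.linearMap_qext _ (LinearMap.ext fun v => ?_)
        simp }
  l_one := fun i m => by
    obtain ⟨v, rfl⟩ := S.mkQ_surjective m
    change S.mapQ S (E.l i 1) (hl i 1) (S.mkQ v) = _
    rw [Submodule.mkQ_apply, Submodule.mapQ_apply, E.l_one]
  r_one := fun i m => by
    obtain ⟨v, rfl⟩ := S.mkQ_surjective m
    change S.mapQ S (E.r i 1) (hr i 1) (S.mkQ v) = _
    rw [Submodule.mkQ_apply, Submodule.mapQ_apply, E.r_one]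
  l_mul := fun i a b m => by
    obtain ⟨v, rfl⟩ := S.mkQ_surjective m
    change S.mkQ (E.l i (a * b) v) = S.mkQ (E.l i a (E.l i b v))
    rw [E.l_mul]
  r_mul := fun i a b m => by
    obtain ⟨v, rfl⟩ := S.mkQ_surjective m
    change S.mkQ (E.r i (a * b) v) = S.mkQ (E.r i b (E.r i a v))
    rw [E.r_mul]
  l_l := fun i j h a b m => by
    obtain ⟨v, rfl⟩ := S.mkQ_surjective m
    change S.mkQ (E.l i a (E.l j b v)) = S.mkQ (E.l j b (E.l i a v))
    rw [E.l_l i j h]
  r_r := fun i j h a b m => by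
    obtain ⟨v, rfl⟩ := S.mkQ_surjective m
    change S.mkQ (E.r i a (E.r j b v)) = S.mkQ (E.r j b (E.r i a v))
    rw [E.r_r i j h]
  l_r := fun i j a b m => by
    obtain ⟨v, rfl⟩ := S.mkQ_surjective m
    change S.mkQ (E.l i a (E.r j b v)) = S.mkQ (E.r j b (E.l i a v))
    rw [E.l_r]

theorem quot_l (E : Acts k G G' p q) (S : Submodule k E.V)
    (hl : ∀ i a, ∀ v ∈ S, E.l i a v ∈ S) (hr : ∀ i a, ∀ v ∈ S, E.r i a v ∈ S) (i : Fin p)
    (a : G) (v : E.V) : (E.quot S hl hr).l i a (S.mkQ v) = S.mkQ (E.l i a v) := rfl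

theorem quot_r (E : Acts k G G' p q) (S : Submodule k E.V)
    (hl : ∀ i a, ∀ v ∈ S, E.l i a v ∈ S) (hr : ∀ i a, ∀ v ∈ S, E.r i a v ∈ S) (i : Fin q)
    (a : G') (v : E.V) : (E.quot S hl hr).r i a (S.mkQ v) = S.mkQ (E.r i a v) := rfl

/-- The projection. -/
noncomputable def quotHom (E : Acts k G G' p q) (S : Submodule k E.V)
    (hl : ∀ i a, ∀ v ∈ S, E.l i a v ∈ S) (hr : ∀ i a, ∀ v ∈ S, E.r i a v ∈ S) :
    Hom E (E.quot S hl hr) where
  f := S.mkQ
  l := fun _ _ _ => rfl
  r := fun _ _ _ => rfl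

/-- The exact sequence of an injective map `E' → E` and of the quotient. -/
theorem quot_ses {E' E : Acts k G G' p q} (i : Hom E' E) (hi : Function.Injective i.f)
    (S : Submodule k E.V) (hS : LinearMap.range i.f = S)
    (hl : ∀ i a, ∀ v ∈ S, E.l i a v ∈ S) (hr : ∀ i a, ∀ v ∈ S, E.r i a v ∈ S) :
    IsSes E'.bim E.bim (E.quot S hl hr).bim :=
  ses i (E.quotHom S hl hr) hi S.mkQ_surjective (fun x => by
    change S.mkQ x = 0 ↔ _
    rw [Submodule.mkQ_apply, Submodule.Quotient.mk_eq_zero, ← hS]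
    rfl)

end Acts

end Pool.Agent.MP_6e5bed_ag_NC
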