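import Pool.Agent.Lib.MP_6e5bed_ag_KC.OB

set_option autoImplicit false
set_option linter.unusedSectionVars false

/-!
# Exchange of neighbouring actions (project KC)
-/

namespace Pool.Agent.MP_6e5bed_ag_NC

open scoped TensorProduct
open Equiv

universe u

variable {k : Type u} [Field k] {G G' : Type u} [Ring G] [Algebra k G] [Ring G'] [Algebra k G']
  {p q : ℕ}

private theorem OSwap_adj0 (n : ℕ) (a b : G) (y : (pw (ring k G) n).A) :
    (adjD (ring k G) (n + 2) 0).hom.f (a ⊗ₜ[k] (b ⊗ₜ[k] y : G ⊗[k] (pw (ring k G) n).A) :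
      G ⊗[k] (pw (ring k G) (n + 1)).A) =
      (b ⊗ₜ[k] (a ⊗ₜ[k] y : G ⊗[k] (pw (ring k G) n).A) :
      G ⊗[k] (pw (ring k G) (n + 1)).A) := by
  have h1 : (ring k G).dg.o a = 0 := Dg.Zero.o (X := (ring k G).dg) Dg.conc_zero a
  have h2 : ksw (ring k G).dg (ring k G).dg (a ⊗ₜ[k] b : G ⊗[k] G) = (b ⊗ₜ[k] a : G ⊗[k] G) := by
    have h3 := ksw_tmul (ring k G).dg (ring k G).dg a b
    rw [h1, TensorProduct.tmul_zero, smul_zero, sub_zero] at h3
    exact h3
  change (TensorProduct.assoc k G G (pw (ring k G) n).A)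
    ((ksw (ring k G).dg (ring k G).dg (a ⊗ₜ[k] b : G ⊗[k] G)) ⊗ₜ[k] y :
      (G ⊗[k] G) ⊗[k] (pw (ring k G) n).A) = _
  rw [h2]
  rfl

private theorem OSwap_adj1 (n i : ℕ) (a : G) (y : (pw (ring k G) (n + 1)).A) :
    (adjD (ring k G) (n + 2) (i + 1)).hom.f (a ⊗ₜ[k] y : G ⊗[k] (pw (ring k G) (n + 1)).A) =
      (a ⊗ₜ[k] ((adjD (ring k G) (n + 1) i).hom.f y) :
        G ⊗[k] (pw (ring k G) (n + 1)).A) := rfl

/-- The combined action, after the exchange of two factors of `G ⊗ (G ⊗ ⋯)`.

Proof. Induction following the recursion of `adjD` (`adjD.induct`, see `bx_adj` in BPow.lean);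
by `pw_ind` one may take `x` to be a pure tensor. For `n + 2, 0`: `x = a ⊗ (b ⊗ y)`, and
`adjD` maps it to `b ⊗ (a ⊗ y)` (the sign of `swapIso` is trivial since `o = 0` in degree `0`:
`Dg.Zero.o`), so both sides are `l 0 b (l 1 a (lact y m))` and `l 1 a (l 0 b (lact y m))`: use
`hc 0 1`. For `n + 2, i + 1`: `x = a ⊗ y`, `adjD` maps it to `a ⊗ adjD y`; use the induction
hypothesis for `fun j => l j.succ`; the transposition of `Fin (n + 2)` maps `0` to `0` and
`j.succ` to `(swap j).succ`. -/
theorem lact_adj {V : Type u} [AddCommGroup V] [Module k V] (n i : ℕ) (h : i + 1 < n)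
    (l : Fin n → G →ₗ[k] V →ₗ[k] V)
    (hc : ∀ i j, i ≠ j → ∀ a b m, l i a (l j b m) = l j b (l i a m))
    (x : (pw (ring k G) n).A) (m : V) :
    lact n l ((adjD (ring k G) n i).hom.f x) m =
      lact n (fun j => l (swap ⟨i, (Nat.lt_succ_self i).trans h⟩ ⟨i + 1, h⟩ j)) x m := by
  induction n, i using adjD.induct generalizing m with
  | case1 i => exact absurd h (Nat.not_lt_zero _)
  | case2 i => exact absurd h (by omega)
  | case3 n =>
    obtain ⟨l', hl'⟩ : ∃ l' : Fin (n + 2) → G →ₗ[k] V →ₗ[k] V, l' = fun j =>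
      l (swap ⟨0, (Nat.lt_succ_self 0).trans h⟩ ⟨0 + 1, h⟩ j) := ⟨_, rfl⟩
    rw [← hl']
    have e0 : l' 0 = l 1 := by
      rw [hl']
      exact congrArg l (swap_apply_left _ _)
    have e1 : l' 1 = l 0 := by
      rw [hl']
      exact congrArg l (swap_apply_right _ _)
    have e2 : ∀ j : Fin n, l' j.succ.succ = l j.succ.succ := by
      intro j
      rw [hl']
      refine congrArg l (swap_apply_of_ne_of_ne ?_ ?_)
      · intro h'
        exact absurd (congrArg Fin.val h') (by simp)
      · intro h'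
        exact absurd (congrArg Fin.val h') (by simp)
    refine pw_ind (P := fun x => lact (n + 2) l ((adjD (ring k G) (n + 2) 0).hom.f x) m =
      lact (n + 2) l' x m) ?_ ?_ ?_ x
    · rw [map_zero, map_zero, map_zero]
    · intro x y hx hy
      rw [map_add, map_add, map_add, LinearMap.add_apply, LinearMap.add_apply, hx, hy]
    · intro a x
      obtain ⟨t, ht⟩ : ∃ t : (pw (ring k G) (n + 1)).A →ₗ[k] (pw (ring k G) (n + 2)).A,
          ∀ x, t x = (a ⊗ₜ[k] x : G ⊗[k] (pw (ring k G) (n + 1)).A) :=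
        ⟨TensorProduct.mk k G (pw (ring k G) (n + 1)).A a, fun _ => rfl⟩
      rw [← ht]
      refine pw_ind (P := fun x => lact (n + 2) l ((adjD (ring k G) (n + 2) 0).hom.f (t x)) m =
        lact (n + 2) l' (t x) m) ?_ ?_ ?_ x
      · rw [map_zero, map_zero, map_zero, map_zero]
      · intro x y hx hy
        rw [map_add, map_add, map_add, map_add, LinearMap.add_apply, LinearMap.add_apply, hx,
          hy]
      · intro b y
        rw [ht]
        rw [OSwap_adj0, lact_tmul, lact_tmul, lact_tmul, lact_tmul, e0]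
        have e3 : (fun i : Fin n => l' i.succ.succ) = fun i : Fin n => l i.succ.succ :=
          funext e2
        rw [e3]
        have e4 : l' (Fin.succ 0) = l 0 := e1
        rw [e4]
        exact hc 0 1 (by simp) b a _
  | case4 n i ih =>
    have h' : i + 1 < n + 1 := by omega
    obtain ⟨l', hl'⟩ : ∃ l' : Fin (n + 2) → G →ₗ[k] V →ₗ[k] V, l' = fun j =>
      l (swap ⟨i + 1, (Nat.lt_succ_self (i + 1)).trans h⟩ ⟨i + 1 + 1, h⟩ j) := ⟨_, rfl⟩
    rw [← hl']
    have e0 : l' 0 = l 0 := by
      rw [hl']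
      refine congrArg l (swap_apply_of_ne_of_ne ?_ ?_)
      · intro h'
        exact absurd (congrArg Fin.val h') (by simp)
      · intro h'
        exact absurd (congrArg Fin.val h') (by simp)
    have e1 : (fun j : Fin (n + 1) => l' j.succ) = fun j : Fin (n + 1) => (fun j => l j.succ)
        (swap ⟨i, (Nat.lt_succ_self i).trans h'⟩ ⟨i + 1, h'⟩ j) := by
      funext j
      rw [hl']
      exact congrArg l ((Fin.succ_injective (n + 1)).swap_apply
        ⟨i, (Nat.lt_succ_self i).trans h'⟩ ⟨i + 1, h'⟩ j)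
    refine pw_ind (P := fun x => lact (n + 2) l ((adjD (ring k G) (n + 2) (i + 1)).hom.f x) m =
      lact (n + 2) l' x m) ?_ ?_ ?_ x
    · rw [map_zero, map_zero, map_zero]
    · intro x y hx hy
      rw [map_add, map_add, map_add, LinearMap.add_apply, LinearMap.add_apply, hx, hy]
    · intro a x
      rw [OSwap_adj1, lact_tmul, lact_tmul, e0, e1]
      congr 1
      exact ih h' (fun j => l j.succ)
        (fun i j hij a b m => hc i.succ j.succ (fun h => hij (Fin.succ_injective _ h)) a b m) x m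

/-- Immediate from `lact_adj` (the identity is an isomorphism; `BIso.of_bij` with `GMap` given by
`LinearMap.id`, as in `Acts.Hom.gmap`; on the right the action of `DHom.id` is unchanged). -/
theorem Acts.swapL (E : Acts k G G' p q) (i : ℕ) (h : i + 1 < p) :
    BIso (res (adjD (ring k G) p i).hom (DHom.id (pw (ring k G') q)) E.bim)
      (E.permL (swap ⟨i, (Nat.lt_succ_self i).trans h⟩ ⟨i + 1, h⟩)).bim := by
  refine BIso.of_bij
    { f := (LinearMap.id : E.V →ₗ[k] E.V)
      deg := fun {j m} hm => ?_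
      map_l := fun x m => ?_
      map_r := fun b m => rfl } ?_ Function.bijective_id
  · rw [add_zero]
    exact hm
  · rw [Dg.sp_zero]
    exact lact_adj p i h E.l E.l_l x m
  · refine LinearMap.ext fun x => ?_
    rw [GMap.dd_apply, sg_zero, one_smul, LinearMap.zero_apply, sub_eq_zero]
    rfl

/-- The same on the right. -/
theorem Acts.swapR (E : Acts k G G' p q) (i : ℕ) (h : i + 1 < q) :
    BIso (res (DHom.id (pw (ring k G) p)) (adjD (ring k G') q i).hom E.bim)
      (E.permR (swap ⟨i, (Nat.lt_succ_self i).trans h⟩ ⟨i + 1, h⟩)).bim := by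
  refine BIso.of_bij
    { f := (LinearMap.id : E.V →ₗ[k] E.V)
      deg := fun {j m} hm => ?_
      map_l := fun x m => ?_
      map_r := fun b m => ?_ } ?_ Function.bijective_id
  · rw [add_zero]
    exact hm
  · rw [Dg.sp_zero]
    rfl
  · exact lact_adj q i h E.r E.r_r b m
  · refine LinearMap.ext fun x => ?_
    rw [GMap.dd_apply, sg_zero, one_smul, LinearMap.zero_apply, sub_eq_zero]
    rfl

end Pool.Agent.MP_6e5bed_ag_NC
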