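import Pool.Agent.Lib.MP_6e5bed_ag_KC.LAct
import Pool.Agent.Lib.MP_6e5bed_ag_KC.OQuot
import Pool.Agent.Lib.MP_6e5bed_ag_KC.OSwap

set_option autoImplicit false
set_option linter.unusedSectionVars false

/-!
# Bimodules of lattices: isomorphisms, direct sums, quotients, reindexing (project KC, part B5)
-/

namespace Pool.Agent.MP_6e5bed_ag_KC

open RatFunc
open Pool.Agent.MP_6e5bed_ag_NC
open Equiv

universe u

variable {k : Type u} [Field k] {D : FExt k} {ι : Type} [DecidableEq ι]

namespace Lat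

private theorem LMor_slotE {E E' : LSys D ι} (f : E.H →ₗ[k] E'.H)
    (he : ∀ i a m, f (E.act i a m) = E'.act i a (f m)) (i : ι)
    (x : Matrix (Fin 3) (Fin 3) D.L) (F : (ι → Fin 3) → E.H) (c : ι → Fin 3) :
    f (slotE E i x F c) = slotE E' i x (fun c => f (F c)) c := by
  rw [slotE_apply, slotE_apply, map_sum]
  exact Finset.sum_congr rfl fun d _ => he i _ _

/-- the map of the spaces of families given by an equivariant map of systems -/
private noncomputable def LMor_map {E E' : LSys D ι} (N : Lat E) (N' : Lat E')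
    (f : E.H →ₗ[k] E'.H) (hN : ∀ c, ∀ m ∈ N.N c, f m ∈ N'.N c) : N.V →ₗ[k] N'.V where
  toFun F := ⟨fun c => f (F.1 c), fun c => hN c _ (F.2 c)⟩
  map_add' F G := Subtype.ext (funext fun c => by
    change f ((F + G : N.V).1 c) = f (F.1 c) + f (G.1 c)
    rw [← map_add]
    rfl)
  map_smul' r F := Subtype.ext (funext fun c => by
    change f ((r • F : N.V).1 c) = r • f (F.1 c)
    rw [← map_smul]
    rfl)

private theorem LMor_map_coe {E E' : LSys D ι} (N : Lat E) (N' : Lat E')
    (f : E.H →ₗ[k] E'.H) (hN : ∀ c, ∀ m ∈ N.N c, f m ∈ N'.N c) (F : N.V) (c : ι → Fin 3) :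
    (LMor_map N N' f hN F).1 c = f (F.1 c) := rfl

/-- the equivariant map of the bimodules -/
private noncomputable def LMor_hom {E E' : LSys D ι} (N : Lat E) (N' : Lat E')
    (f : E.H →ₗ[k] E'.H) (he : ∀ i a m, f (E.act i a m) = E'.act i a (f m))
    (hN : ∀ c, ∀ m ∈ N.N c, f m ∈ N'.N c) {p q : ℕ} (lam : Fin p → ι) (rho : Fin q → ι)
    (hl : Function.Injective lam) (hr : Function.Injective rho) (hd : ∀ i j, lam i ≠ rho j) :
    Acts.Hom (N.acts lam rho hl hr hd) (N'.acts lam rho hl hr hd) where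
  f := LMor_map N N' f hN
  l i a F := Subtype.ext (funext fun c => LMor_slotE f he (lam i) a.1 F.1 c)
  r i b F := Subtype.ext (funext fun c => LMor_slotE f he (rho i) b.1.transpose F.1 c)

/-- An injective equivariant map `f` of systems which maps the components of `N` onto those of
`N'` gives an isomorphism of the bimodules.

Proof. `F c ↦ f (F c)` is a linear bijection `N.V → N'.V` (surjective: choose preimages in the
components, unique by injectivity), compatible with `slotE` since `f` is equivariant: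
`Acts.biso`. -/
theorem acts_iso {E E' : LSys D ι} (N : Lat E) (N' : Lat E') (f : E.H →ₗ[k] E'.H)
    (hf : Function.Injective f) (he : ∀ i a m, f (E.act i a m) = E'.act i a (f m))
    (hN : ∀ c, N'.N c = (N.N c).map f) {p q : ℕ} (lam : Fin p → ι) (rho : Fin q → ι)
    (hl : Function.Injective lam) (hr : Function.Injective rho) (hd : ∀ i j, lam i ≠ rho j) :
    BIso (N.acts lam rho hl hr hd).bim (N'.acts lam rho hl hr hd).bim := by
  have hN' : ∀ c, ∀ m ∈ N.N c, f m ∈ N'.N c := fun c m hm => by
    rw [hN c]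
    exact Submodule.mem_map_of_mem hm
  refine Acts.biso (LMor_hom N N' f he hN' lam rho hl hr hd) ⟨?_, ?_⟩
  · intro F G h
    refine Subtype.ext (funext fun c => hf ?_)
    exact congrFun (congrArg Subtype.val h) c
  · intro G
    have h1 : ∀ c, ∃ m ∈ N.N c, f m = G.1 c := fun c => by
      have h2 := G.2 c
      rw [hN c] at h2
      exact h2
    choose m hm hm' using h1
    exact ⟨⟨m, hm⟩, Subtype.ext (funext hm')⟩

/-- Direct sums: the exact sequence `N → N × N' → N'`. -/
theorem acts_prod {E E' : LSys D ι} (N : Lat E) (N' : Lat E')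
    {p q : ℕ} (lam : Fin p → ι) (rho : Fin q → ι)
    (hl : Function.Injective lam) (hr : Function.Injective rho) (hd : ∀ i j, lam i ≠ rho j) :
    IsSes (N.acts lam rho hl hr hd).bim ((N.prod N').acts lam rho hl hr hd).bim
      (N'.acts lam rho hl hr hd).bim := by
  have e1 : ∀ i a m, (LinearMap.inl k E.H E'.H : E.H →ₗ[k] (E.prod E').H) (E.act i a m) =
      (E.prod E').act i a ((LinearMap.inl k E.H E'.H : E.H →ₗ[k] (E.prod E').H) m) := by
    intro i a m
    rw [LSys.prod_act]
    change (E.act i a m, (0 : E'.H)) = (E.act i a m, E'.act i a 0)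
    rw [map_zero]
  have e2 : ∀ i a m, (LinearMap.snd k E.H E'.H : (E.prod E').H →ₗ[k] E'.H)
      ((E.prod E').act i a m) =
      E'.act i a ((LinearMap.snd k E.H E'.H : (E.prod E').H →ₗ[k] E'.H) m) := by
    intro i a m
    rw [LSys.prod_act]
    rfl
  have n1 : ∀ c, ∀ m ∈ N.N c, (LinearMap.inl k E.H E'.H : E.H →ₗ[k] (E.prod E').H) m ∈
      (N.prod N').N c := fun c m hm => ⟨hm, (N'.N c).zero_mem⟩
  have n2 : ∀ c, ∀ m ∈ (N.prod N').N c,
      (LinearMap.snd k E.H E'.H : (E.prod E').H →ₗ[k] E'.H) m ∈ N'.N c := fun c m hm => hm.2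
  refine Acts.ses (LMor_hom N (N.prod N') _ e1 n1 lam rho hl hr hd)
    (LMor_hom (N.prod N') N' _ e2 n2 lam rho hl hr hd) ?_ ?_ ?_
  · intro F G h
    refine Subtype.ext (funext fun c => ?_)
    have h1 := congrFun (congrArg Subtype.val h) c
    exact congrArg Prod.fst h1
  · intro G
    exact ⟨⟨fun c => ((0 : E.H), G.1 c), fun c => ⟨(N.N c).zero_mem, G.2 c⟩⟩,
      Subtype.ext (funext fun c => rfl)⟩
  · intro x
    constructor
    · intro h
      refine ⟨⟨fun c => (x.1 c).1, fun c => (x.2 c).1⟩, Subtype.ext (funext fun c => ?_)⟩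
      have h1 : (x.1 c).2 = 0 := congrFun (congrArg Subtype.val h) c
      change ((x.1 c).1, (0 : E'.H)) = x.1 c
      exact Prod.ext rfl h1.symm
    · rintro ⟨y, rfl⟩
      exact Subtype.ext (funext fun c => rfl)

variable {E : LSys D ι}

/-- The subspace of the families in `N'`. -/
def subV (N' N : Lat E) : Submodule k N.V := N'.V.comap N.V.subtype

theorem mem_subV {N' N : Lat E} {f : N.V} : f ∈ N'.subV N ↔ ∀ c, f.1 c ∈ N'.N c := Iff.rfl

/-- The quotient of two lattices. -/
noncomputable def quo (N' N : Lat E) {p q : ℕ} (lam : Fin p → ι) (rho : Fin q → ι)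
    (hl : Function.Injective lam) (hr : Function.Injective rho) (hd : ∀ i j, lam i ≠ rho j) :
    Acts k (Gam D) (Gam' D) p q :=
  (N.acts lam rho hl hr hd).quot (N'.subV N)
    (fun i a f hf => N'.slotE_mem (lam i) a.1 a.2 hf)
    (fun i a f hf => N'.slotE_mem (rho i) a.1.transpose (fun c d => a.2 d c) hf)

/-- The exact sequence `N' → N → N / N'` (`Acts.quot_ses` for the inclusion). -/
theorem quo_ses (N' N : Lat E) (h : N' ≤ N) {p q : ℕ} (lam : Fin p → ι) (rho : Fin q → ι)
    (hl : Function.Injective lam) (hr : Function.Injective rho) (hd : ∀ i j, lam i ≠ rho j) :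
    IsSes (N'.acts lam rho hl hr hd).bim (N.acts lam rho hl hr hd).bim
      (N'.quo N lam rho hl hr hd).bim := by
  refine Acts.quot_ses (LMor_hom N' N (LinearMap.id : E.H →ₗ[k] E.H) (fun _ _ _ => rfl)
    (fun c m hm => h c hm) lam rho hl hr hd) ?_ (N'.subV N) ?_ _ _
  · intro F G hFG
    refine Subtype.ext (funext fun c => ?_)
    exact congrFun (congrArg Subtype.val hFG) c
  · ext F
    constructor
    · rintro ⟨G, rfl⟩
      exact fun c => G.2 c
    · intro hF
      exact ⟨⟨F.1, hF⟩, Subtype.ext rfl⟩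

end Lat

/-- Renaming the factors.

Proof. `f ↦ (c ↦ f (c ∘ e.symm))` is a bijection `N.V → (N.reindex e).V`; it carries the action
in the factor `e i` of `N` to the action in the factor `i` of `N.reindex e`
(`update_comp_symm`). -/
theorem Lat.acts_reindex {E : LSys D ι} (e : ι ≃ ι) (N : Lat E) {p q : ℕ} (lam : Fin p → ι)
    (rho : Fin q → ι)
    (hl : Function.Injective lam) (hr : Function.Injective rho) (hd : ∀ i j, lam i ≠ rho j)
    (hl' : Function.Injective (e ∘ lam)) (hr' : Function.Injective (e ∘ rho))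
    (hd' : ∀ i j, (e ∘ lam) i ≠ (e ∘ rho) j) :
    BIso (N.acts (e ∘ lam) (e ∘ rho) hl' hr' hd').bim
      ((N.reindex e).acts lam rho hl hr hd).bim := by
  have key : ∀ (i : ι) (x : Matrix (Fin 3) (Fin 3) D.L) (F : (ι → Fin 3) → E.H)
      (c : ι → Fin 3), Lat.slotE E (e i) x F (c ∘ e.symm) =
        Lat.slotE (E.reindex e) i x (fun c => F (c ∘ e.symm)) c := by
    intro i x F c
    rw [Lat.slotE_apply, Lat.slotE_apply]
    refine Finset.sum_congr rfl fun d _ => ?_
    rw [update_comp_symm, Function.comp_apply, e.symm_apply_apply]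
    rfl
  refine Acts.biso (E := N.acts (e ∘ lam) (e ∘ rho) hl' hr' hd')
    (E' := (N.reindex e).acts lam rho hl hr hd)
    { f :=
        { toFun := fun F => (⟨fun c => F.1 (c ∘ e.symm), fun c => F.2 (c ∘ e.symm)⟩ :
            (N.reindex e).V)
          map_add' := fun F G => rfl
          map_smul' := fun r F => rfl }
      l := fun i a F => Subtype.ext (funext fun c => key (lam i) a.1 F.1 c)
      r := fun i b F => Subtype.ext (funext fun c => key (rho i) b.1.transpose F.1 c) }
    ⟨?_, ?_⟩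
  · intro F G h
    refine Subtype.ext (funext fun c => ?_)
    have h1 : F.1 ((c ∘ e) ∘ e.symm) = G.1 ((c ∘ e) ∘ e.symm) :=
      congrFun (congrArg Subtype.val h) (c ∘ e)
    have h2 : (c ∘ e) ∘ e.symm = c := by
      funext j
      exact congrArg c (e.apply_symm_apply j)
    rwa [h2] at h1
  · intro G
    have h2 : ∀ c : ι → Fin 3, (c ∘ e.symm) ∘ e = c := by
      intro c
      funext j
      exact congrArg c (e.symm_apply_apply j)
    have h3 : ∀ c : ι → Fin 3, (c ∘ e) ∘ e.symm = c := by
      intro c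
      funext j
      exact congrArg c (e.apply_symm_apply j)
    refine ⟨⟨fun c => G.1 (c ∘ e), fun c => ?_⟩, Subtype.ext (funext fun c => ?_)⟩
    · have h4 : G.1 (c ∘ e) ∈ N.N ((c ∘ e) ∘ e.symm) := G.2 (c ∘ e)
      rwa [h3] at h4
    · exact congrArg G.1 (h2 c)

end Pool.Agent.MP_6e5bed_ag_KC
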