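import Pool.Agent.Lib.MP_6e5bed_ag_KC.LProd

set_option autoImplicit false
set_option linter.unusedSectionVars false

/-!
# Products of lattices: construction (project KC, part B2)
-/

namespace Pool.Agent.MP_6e5bed_ag_KC

open RatFunc
open Pool.Agent.MP_6e5bed_ag_NC
open scoped TensorProduct

universe u

variable {k : Type u} [Field k] {D : FExt k} {ι₁ ι ι₂ : Type} [DecidableEq ι₁] [DecidableEq ι]
  [DecidableEq ι₂]

theorem update_comp_inj {α β : Type} [DecidableEq α] [DecidableEq β] {f : α → β}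
    (hf : Function.Injective f) (c : β → Fin 3) (i : α) (d : Fin 3) :
    Function.update c (f i) d ∘ f = Function.update (c ∘ f) i d := by
  funext j
  rw [Function.comp_apply]
  by_cases h : j = i
  · subst h
    rw [Function.update_self, Function.update_self]
  · rw [Function.update_of_ne (hf.ne h), Function.update_of_ne h]
    rfl

theorem update_comp_ne {α β : Type} [DecidableEq β] {f : α → β} (c : β → Fin 3) (i : β)
    (hi : ∀ j, f j ≠ i) (d : Fin 3) : Function.update c i d ∘ f = c ∘ f := by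
  funext j
  rw [Function.comp_apply, Function.update_of_ne (hi j)]
  rfl

namespace PData

variable {E₁ : LSys D ι₁} {E : LSys D ι} {E₂ : LSys D ι₂} (P : PData E₁ E E₂)

theorem a_inj : Function.Injective P.a := fun i j h => by
  have := P.bij.1 (show Sum.elim P.a P.b (Sum.inl i) = Sum.elim P.a P.b (Sum.inl j) from h)
  exact Sum.inl_injective this

theorem b_inj : Function.Injective P.b := fun i j h => by
  have := P.bij.1 (show Sum.elim P.a P.b (Sum.inr i) = Sum.elim P.a P.b (Sum.inr j) from h)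
  exact Sum.inr_injective this

theorem a_ne_b (i : ι₁) (j : ι) : P.a i ≠ P.b j := fun h => by
  have := P.bij.1 (show Sum.elim P.a P.b (Sum.inl i) = Sum.elim P.a P.b (Sum.inr j) from h)
  exact Sum.inl_ne_inr this

theorem cases {Q : ι₂ → Prop} (ha : ∀ i, Q (P.a i)) (hb : ∀ j, Q (P.b j)) (i : ι₂) : Q i := by
  obtain ⟨x, rfl⟩ := P.bij.2 i
  cases x with
  | inl i => exact ha i
  | inr j => exact hb j

/-- The components of the product. -/
noncomputable def latN (N₁ : Lat E₁) (N : Lat E) (c : ι₂ → Fin 3) : Submodule k E₂.H :=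
  Submodule.span k {x | ∃ u ∈ N₁.N (c ∘ P.a), ∃ v ∈ N.N (c ∘ P.b), P.β u v = x}

theorem latN_smul (N₁ : Lat E₁) (N : Lat E) (c : ι₂ → Fin 3) (i : ι₂) (b : D.L)
    (hb : b ∈ BB D (c i)) (m : E₂.H) (hm : m ∈ P.latN N₁ N c) :
    E₂.act i b m ∈ P.latN N₁ N c := by
  refine Submodule.span_induction (p := fun m _ => E₂.act i b m ∈ P.latN N₁ N c) ?_ ?_ ?_ ?_ hm
  · rintro _ ⟨u, hu, v, hv, rfl⟩
    revert hb
    refine P.cases (Q := fun i => b ∈ BB D (c i) → E₂.act i b (P.β u v) ∈ P.latN N₁ N c)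
      (fun i hb => ?_) (fun j hb => ?_) i
    · rw [← P.act1]
      exact Submodule.subset_span ⟨_, N₁.smul _ i b hb u hu, v, hv, rfl⟩
    · rw [← P.act2]
      exact Submodule.subset_span ⟨u, hu, _, N.smul _ j b hb v hv, rfl⟩
  · rw [map_zero]
    exact Submodule.zero_mem _
  · intro x y _ _ hx hy
    rw [map_add]
    exact Submodule.add_mem _ hx hy
  · intro r x _ hx
    rw [map_smul]
    exact Submodule.smul_mem _ r hx

/-- The product of two lattices. -/
noncomputable def lat (N₁ : Lat E₁) (N : Lat E) : Lat E₂ where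
  N := P.latN N₁ N
  smul := P.latN_smul N₁ N
  mono := fun c i => by
    refine Submodule.span_le.2 ?_
    rintro _ ⟨u, hu, v, hv, rfl⟩
    refine P.cases (Q := fun i => P.β u v ∈ P.latN N₁ N (Function.update c i 2))
      (fun i => ?_) (fun j => ?_) i
    · refine Submodule.subset_span ⟨u, ?_, v, ?_, rfl⟩
      · rw [update_comp_inj P.a_inj]
        exact N₁.mono _ i hu
      · rw [update_comp_ne c (P.a i) (fun j => (P.a_ne_b i j).symm)]
        exact hv
    · refine Submodule.subset_span ⟨u, ?_, v, ?_, rfl⟩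
      · rw [update_comp_ne c (P.b j) (fun i => P.a_ne_b i j)]
        exact hu
      · rw [update_comp_inj P.b_inj]
        exact N.mono _ j hv
  loc0 := fun c i m hm => by
    refine E₂.loc_span i (tt D) _ _ (fun m hm => P.latN_smul N₁ N _ i _ ?_ m hm) ?_ hm
    · rw [Function.update_self]
      exact tt_mem_BB0 D
    rintro _ ⟨u, hu, v, hv, rfl⟩
    revert hu hv
    refine P.cases (Q := fun i => u ∈ N₁.N (Function.update c i 2 ∘ P.a) →
      v ∈ N.N (Function.update c i 2 ∘ P.b) → ∃ n : ℕ, E₂.act i (tt D ^ n) (P.β u v) ∈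
        P.latN N₁ N (Function.update c i 0)) (fun i hu hv => ?_) (fun j hu hv => ?_) i
    · rw [update_comp_inj P.a_inj] at hu
      rw [update_comp_ne c (P.a i) (fun j => (P.a_ne_b i j).symm)] at hv
      obtain ⟨n, hn⟩ := N₁.loc0 _ i u hu
      refine ⟨n, Submodule.subset_span ⟨_, ?_, v, ?_, P.act1 i _ u v⟩⟩
      · rw [update_comp_inj P.a_inj]
        exact hn
      · rw [update_comp_ne c (P.a i) (fun j => (P.a_ne_b i j).symm)]
        exact hv
    · rw [update_comp_ne c (P.b j) (fun i => P.a_ne_b i j)] at hu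
      rw [update_comp_inj P.b_inj] at hv
      obtain ⟨n, hn⟩ := N.loc0 _ j v hv
      refine ⟨n, Submodule.subset_span ⟨u, ?_, _, ?_, P.act2 j _ u v⟩⟩
      · rw [update_comp_ne c (P.b j) (fun i => P.a_ne_b i j)]
        exact hu
      · rw [update_comp_inj P.b_inj]
        exact hn
  loc1 := fun c i m hm => by
    refine E₂.loc_span i (tt D)⁻¹ _ _ (fun m hm => P.latN_smul N₁ N _ i _ ?_ m hm) ?_ hm
    · rw [Function.update_self]
      exact tt_inv_mem_BB1 D
    rintro _ ⟨u, hu, v, hv, rfl⟩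
    revert hu hv
    refine P.cases (Q := fun i => u ∈ N₁.N (Function.update c i 2 ∘ P.a) →
      v ∈ N.N (Function.update c i 2 ∘ P.b) → ∃ n : ℕ, E₂.act i ((tt D)⁻¹ ^ n) (P.β u v) ∈
        P.latN N₁ N (Function.update c i 1)) (fun i hu hv => ?_) (fun j hu hv => ?_) i
    · rw [update_comp_inj P.a_inj] at hu
      rw [update_comp_ne c (P.a i) (fun j => (P.a_ne_b i j).symm)] at hv
      obtain ⟨n, hn⟩ := N₁.loc1 _ i u hu
      refine ⟨n, Submodule.subset_span ⟨_, ?_, v, ?_, P.act1 i _ u v⟩⟩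
      · rw [update_comp_inj P.a_inj]
        exact hn
      · rw [update_comp_ne c (P.a i) (fun j => (P.a_ne_b i j).symm)]
        exact hv
    · rw [update_comp_ne c (P.b j) (fun i => P.a_ne_b i j)] at hu
      rw [update_comp_inj P.b_inj] at hv
      obtain ⟨n, hn⟩ := N.loc1 _ j v hv
      refine ⟨n, Submodule.subset_span ⟨u, ?_, _, ?_, P.act2 j _ u v⟩⟩
      · rw [update_comp_ne c (P.b j) (fun i => P.a_ne_b i j)]
        exact hu
      · rw [update_comp_inj P.b_inj]
        exact hn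

theorem isProd_lat (N₁ : Lat E₁) (N : Lat E) : P.IsProd N₁ N (P.lat N₁ N) := fun _ => rfl

end PData

/-- Restriction to some of the factors. -/
def LSys.pull (E : LSys D ι₂) (b : ι → ι₂) : LSys D ι where
  H := E.H
  act := fun i => E.act (b i)
  comm := fun i j => E.comm (b i) (b j)

/-- The function field, as a system with one factor. -/
noncomputable def LSys.fn (D : FExt k) : LSys D Unit where
  H := D.L
  act := fun _ => Algebra.lmul k D.L
  comm := fun _ _ a b => by rw [← map_mul, ← map_mul, mul_comm]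

theorem LSys.fn_act (i : Unit) (a b : D.L) : (LSys.fn D).act i a b = a * b := rfl

/-- The system `L ⊗ H` with one more factor. -/
noncomputable def LSys.cons (E : LSys D ι) (e : Unit ⊕ ι ≃ ι₂) : LSys D ι₂ where
  H := D.L ⊗[k] E.H
  act := fun i => Sum.elim
    (fun _ => (Module.End.rTensorAlgHom k D.L E.H).comp (Algebra.lmul k D.L))
    (fun j => (Module.End.lTensorAlgHom k E.H D.L).comp (E.act j)) (e.symm i)
  comm := fun i j a b => by
    refine TensorProduct.ext' fun x y => ?_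
    generalize e.symm i = i'
    generalize e.symm j = j'
    rcases i' with i' | i' <;> rcases j' with j' | j'
    · change (a * (b * x)) ⊗ₜ[k] y = (b * (a * x)) ⊗ₜ[k] y
      rw [mul_left_comm]
    · rfl
    · rfl
    · change x ⊗ₜ[k] (E.act i' a (E.act j' b y)) = x ⊗ₜ[k] (E.act j' b (E.act i' a y))
      rw [E.act_act]

theorem LSys.cons_inl (E : LSys D ι) (e : Unit ⊕ ι ≃ ι₂) (i : Unit) (a x : D.L) (y : E.H) :
    (E.cons e).act (e (Sum.inl i)) a (x ⊗ₜ[k] y) = (a * x) ⊗ₜ[k] y := by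
  have h : (E.cons e).act (e (Sum.inl i)) =
      (Module.End.rTensorAlgHom k D.L E.H).comp (Algebra.lmul k D.L) := by
    change Sum.elim _ _ (e.symm (e (Sum.inl i))) = _
    rw [e.symm_apply_apply]
    rfl
  rw [h]
  rfl

theorem LSys.cons_inr (E : LSys D ι) (e : Unit ⊕ ι ≃ ι₂) (j : ι) (a x : D.L) (y : E.H) :
    (E.cons e).act (e (Sum.inr j)) a (x ⊗ₜ[k] y) = x ⊗ₜ[k] (E.act j a y) := by
  have h : (E.cons e).act (e (Sum.inr j)) =
      (Module.End.lTensorAlgHom k E.H D.L).comp (E.act j) := by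
    change Sum.elim _ _ (e.symm (e (Sum.inr j))) = _
    rw [e.symm_apply_apply]
    rfl
  rw [h]
  rfl

/-- The product data of the function field and `E`. -/
noncomputable def PData.cons (E : LSys D ι) (e : Unit ⊕ ι ≃ ι₂) :
    PData (LSys.fn D) E (E.cons e) where
  a := fun i => e (Sum.inl i)
  b := fun j => e (Sum.inr j)
  bij := by
    have h : Sum.elim (fun i => e (Sum.inl i)) (fun j => e (Sum.inr j)) = e := by
      funext x
      cases x <;> rfl
    rw [h]
    exact e.bijective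
  β := TensorProduct.mk k D.L E.H
  inj := by
    intro x y hxy
    have h : TensorProduct.lift (TensorProduct.mk k D.L E.H) = LinearMap.id :=
      TensorProduct.ext' fun x y => rfl
    exact (LinearMap.congr_fun h x).symm.trans (hxy.trans (LinearMap.congr_fun h y))
  act1 := fun i x u v => (E.cons_inl e i x u v).symm
  act2 := fun j x u v => (E.cons_inr e j x u v).symm

/-- The twists `1`, `(1/t) ^ m`, `t ^ m`. -/
noncomputable def twc (D : FExt k) (d : Fin 3) (m : ℕ) (a : Fin 3) : D.L :=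
  if a = 2 ∨ a = d then 1 else if a = 0 then (tt D)⁻¹ ^ m else tt D ^ m

theorem tt_mem_BB2 (D : FExt k) : tt D ∈ BB D 2 := BB_le D 0 (tt_mem_BB0 D)

theorem tt_inv_mem_BB2 (D : FExt k) : (tt D)⁻¹ ∈ BB D 2 := BB_le D 1 (tt_inv_mem_BB1 D)

theorem twc_cases (D : FExt k) (d : Fin 3) (m : ℕ) (a : Fin 3) :
    ∃ b ∈ BB D 2, b * twc D d m a = 1 := by
  unfold twc
  split_ifs
  · exact ⟨1, (BB D 2).one_mem, one_mul 1⟩
  · refine ⟨tt D ^ m, (BB D 2).pow_mem (tt_mem_BB2 D) m, ?_⟩
    rw [← mul_pow, mul_inv_cancel₀ (tt_ne_zero D), one_pow]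
  · refine ⟨(tt D)⁻¹ ^ m, (BB D 2).pow_mem (tt_inv_mem_BB2 D) m, ?_⟩
    rw [← mul_pow, inv_mul_cancel₀ (tt_ne_zero D), one_pow]

/-- The components of the twisted structure sheaves: `x` with `twc d m a * x ∈ BB D a`. -/
noncomputable def twN (D : FExt k) (d : Fin 3) (m : ℕ) (a : Fin 3) : Submodule k D.L :=
  (Subalgebra.toSubmodule (BB D a)).comap (LinearMap.mulLeft k (twc D d m a))

theorem mem_twN {d : Fin 3} {m : ℕ} {a : Fin 3} {x : D.L} :
    x ∈ twN D d m a ↔ twc D d m a * x ∈ BB D a := Iff.rfl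

theorem twc_two (D : FExt k) (d : Fin 3) (m : ℕ) : twc D d m 2 = 1 := if_pos (Or.inl rfl)

theorem twc_self (D : FExt k) (d : Fin 3) (m : ℕ) : twc D d m d = 1 := if_pos (Or.inr rfl)

theorem mem_twN_two {d : Fin 3} {m : ℕ} {x : D.L} : x ∈ twN D d m 2 ↔ x ∈ BB D 2 := by
  rw [mem_twN, twc_two, one_mul]

theorem mem_twN_self {d : Fin 3} {m : ℕ} {x : D.L} : x ∈ twN D d m d ↔ x ∈ BB D d := by
  rw [mem_twN, twc_self, one_mul]

theorem twN_smul {d : Fin 3} {m : ℕ} {a : Fin 3} {b x : D.L} (hb : b ∈ BB D a)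
    (hx : x ∈ twN D d m a) : b * x ∈ twN D d m a := by
  rw [mem_twN, mul_left_comm]
  exact (BB D a).mul_mem hb hx

theorem twN_mono {d : Fin 3} {m : ℕ} {a : Fin 3} {x : D.L} (hx : x ∈ twN D d m a) :
    x ∈ twN D d m 2 := by
  rw [mem_twN_two]
  obtain ⟨b, hb, hb1⟩ := twc_cases D d m a
  have h1 : b * (twc D d m a * x) ∈ BB D 2 := (BB D 2).mul_mem hb (BB_le D _ hx)
  rwa [← mul_assoc, hb1, one_mul] at h1

theorem twN_loc0 {d : Fin 3} {m : ℕ} {x : D.L} (hx : x ∈ twN D d m 2) :
    ∃ n : ℕ, tt D ^ n * x ∈ twN D d m 0 := by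
  obtain ⟨n, hn⟩ := mem_BB2.1 (mem_twN_two.1 hx)
  refine ⟨n + m, ?_⟩
  rw [mem_twN]
  unfold twc
  split_ifs with h1 h2
  · rw [one_mul, add_comm, pow_add, mul_assoc]
    exact (BB D 0).mul_mem ((BB D 0).pow_mem (tt_mem_BB0 D) m) hn
  · have e : (tt D)⁻¹ ^ m * (tt D ^ (n + m) * x) = ((tt D)⁻¹ * tt D) ^ m * (tt D ^ n * x) := by
      ring
    rw [e, inv_mul_cancel₀ (tt_ne_zero D), one_pow, one_mul]
    exact hn
  · exact absurd rfl h2

theorem twN_loc1 {d : Fin 3} {m : ℕ} {x : D.L} (hx : x ∈ twN D d m 2) :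
    ∃ n : ℕ, (tt D)⁻¹ ^ n * x ∈ twN D d m 1 := by
  obtain ⟨n, hn⟩ := mem_BB2'.1 (mem_twN_two.1 hx)
  refine ⟨n + m, ?_⟩
  rw [mem_twN]
  unfold twc
  split_ifs with h1 h2
  · rw [one_mul, add_comm, pow_add, mul_assoc]
    exact (BB D 1).mul_mem ((BB D 1).pow_mem (tt_inv_mem_BB1 D) m) hn
  · exact absurd h2 (by decide)
  · have e : tt D ^ m * ((tt D)⁻¹ ^ (n + m) * x) =
        (tt D * (tt D)⁻¹) ^ m * ((tt D)⁻¹ ^ n * x) := by
      ring
    rw [e, mul_inv_cancel₀ (tt_ne_zero D), one_pow, one_mul]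
    exact hn

/-- The twisted structure sheaf: `B_c` on the charts `2` and `d`, and `t ^ m B_0` or
`t ^ (- m) B_1` on the other chart. -/
noncomputable def tws (D : FExt k) (d : Fin 3) (m : ℕ) : Lat (LSys.fn D) where
  N := fun c => twN D d m (c ())
  smul := fun _ _ _ hb _ hx => twN_smul hb hx
  mono := fun c i x hx => by
    have h : (x : D.L) ∈ twN D d m 2 := twN_mono hx
    have e : Function.update c i 2 () = 2 := Function.update_self () 2 c
    change (x : D.L) ∈ twN D d m (Function.update c i 2 ())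
    rw [e]
    exact h
  loc0 := fun c i x hx => by
    have e : Function.update c i 2 () = 2 := Function.update_self () 2 c
    have e' : Function.update c i 0 () = 0 := Function.update_self () 0 c
    have hx' : (x : D.L) ∈ twN D d m (Function.update c i 2 ()) := hx
    rw [e] at hx'
    obtain ⟨n, hn⟩ := twN_loc0 hx'
    refine ⟨n, ?_⟩
    rw [← e'] at hn
    exact hn
  loc1 := fun c i x hx => by
    have e : Function.update c i 2 () = 2 := Function.update_self () 2 c
    have e' : Function.update c i 1 () = 1 := Function.update_self () 1 c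
    have hx' : (x : D.L) ∈ twN D d m (Function.update c i 2 ()) := hx
    rw [e] at hx'
    obtain ⟨n, hn⟩ := twN_loc1 hx'
    refine ⟨n, ?_⟩
    rw [← e'] at hn
    exact hn

end Pool.Agent.MP_6e5bed_ag_KC
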