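import Pool.Agent.Lib.MP_6e5bed_ag_KC.LLs
import Pool.Agent.Lib.MP_6e5bed_ag_KC.LFG
import Pool.Agent.Lib.MP_6e5bed_ag_KC.LNoeB
import Pool.Agent.Lib.MP_6e5bed_ag_KC.LKD

set_option autoImplicit false
set_option linter.unusedSectionVars false

/-!
# Project KC: permutations and the values of the lattices `LLs`
-/

noncomputable section

namespace Pool.Agent.MP_6e5bed_ag_KC

open RatFunc CategoryTheory MonoidalCategory Equiv
open Pool.Agent.MP_6e5bed_ag_NC
open Pool.Agent.MP_6e5bed_ag
open scoped TensorProduct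

universe u v w

variable {k : Type u} [Field k] {D : FExt k}

/-- The lattices `LLs` are of finite type: they are contained in `spanL {1}` (`LLsN_le`). -/
theorem LLs_fg {K : Type u} [CommRing K] [Algebra k K] {n : ℕ} (κ : Fin n → ℕ)
    (σ : Perm (Fin n)) (x y : Fin n → (D.L →ₐ[k] K)) : (LLs κ σ x y).FG := by
  refine (spanL_fg (Sum.elim x y) K {1}).of_le fun c => ?_
  change LLsN κ σ x y c ≤ RRm (Sum.elim x y) c • Submodule.span k (({1} : Finset K) : Set K)
  refine (LLsN_le κ σ x y c).trans fun r hr => ?_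
  have h1 : r • (1 : K) ∈ RRm (Sum.elim x y) c •
      Submodule.span k (({1} : Finset K) : Set K) := by
    refine Submodule.smul_mem_smul hr (Submodule.subset_span ?_)
    rw [Finset.coe_singleton]
    exact Set.mem_singleton 1
  have h2 : r • (1 : K) = r := by rw [smul_eq_mul, mul_one]
  rw [← h2]
  exact h1

theorem LL_fg {K : Type u} [CommRing K] [Algebra k K] {n : ℕ} (κ : Fin n → ℕ)
    (x y : Fin n → (D.L →ₐ[k] K)) : (LL κ x y).FG := by
  refine (LLs_fg κ 1 x y).of_le fun c => ?_
  change LLN κ x y c ≤ LLN κ x (fun i => y ((1 : Perm (Fin n)) i)) (c ∘ rperm 1)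
  have h1 : c ∘ rperm (1 : Perm (Fin n)) = c := by
    funext i
    rcases i with i | i
    · rfl
    · rfl
  rw [h1]
  exact le_rfl

theorem LPerm.RR_reindex {ι : Type} [DecidableEq ι] (E : LSys D ι) (e : ι ≃ ι)
    (c : ι → Fin 3) : (E.reindex e).RR c = E.RR (c ∘ e.symm) := by
  unfold LSys.RR
  refine Equiv.iSup_congr e fun i => ?_
  rw [Function.comp_apply, e.symm_apply_apply]
  rfl

theorem Lat.FG.rdx {ι : Type} [DecidableEq ι] {E : LSys D ι} {N : Lat E} (hN : N.FG)
    (e : ι ≃ ι) : (N.reindex e).FG := by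
  intro c
  obtain ⟨S, h1, h2⟩ := hN (c ∘ e.symm)
  refine ⟨S, h1, fun m hm => ?_⟩
  rw [LPerm.RR_reindex]
  exact h2 m hm

variable {P : Ideal (A1 D)} {hP : (⟨(tt D)⁻¹, tt_inv_mem_BB1 D⟩ : A1 D) ∈ P}
  {C : Type w} [Category.{v} C] [MonoidalCategory C] [SymmetricCategory C] [Preadditive C]
  {X : C} {β : ℕ → (X ⟶ X)} {n : ℕ} (Φ : LatFunP D P hP X β n)

/-- All permutations of the right factors: `perm_induction`, `LatFunP.perm`, `perm_adj`
(`LatFun.iso` with the identity for the composition of two reindexings). -/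
theorem LatFunP.val_perm (σ : Perm (Fin n)) : ∀ {E : LSys D (Fin n ⊕ Fin n)} (N : Lat E), N.FG →
    Φ.val (N.reindex (rperm σ)) =
      Φ.val N ≫ (MP_6e5bed_ag.perm X n σ⁻¹ : tpow X n ⟶ tpow X n) := by
  refine perm_induction (P := fun σ => ∀ {E : LSys D (Fin n ⊕ Fin n)} (N : Lat E), N.FG →
    Φ.val (N.reindex (rperm σ)) =
      Φ.val N ≫ (MP_6e5bed_ag.perm X n σ⁻¹ : tpow X n ⟶ tpow X n)) ?_ ?_ ?_ σ
  · intro E N hN
    have h1 : Φ.val N = Φ.val (N.reindex (rperm 1)) := by
      refine Φ.iso N (N.reindex (rperm 1)) hN (hN.rdx _) LinearMap.id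
        Function.injective_id ?_ ?_
      · rintro (i | i) a m
        · rfl
        · rfl
      · intro c
        refine Eq.trans ?_ (Submodule.map_id (N.N c)).symm
        change N.N (c ∘ (rperm 1).symm) = N.N c
        congr 1
        funext i
        rcases i with i | i
        · rfl
        · rfl
    rw [← h1, inv_one, map_one]
    exact (Category.comp_id _).symm
  · intro i h E N hN
    rw [swap_inv, perm_adj X n i h]
    exact Φ.perm N hN i h
  · intro a b ha hb E N hN
    have h1 : Φ.val ((N.reindex (rperm a)).reindex (rperm b)) =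
        Φ.val (N.reindex (rperm (a * b))) := by
      refine Φ.iso _ _ ((hN.rdx _).rdx _) (hN.rdx _) LinearMap.id
        Function.injective_id ?_ ?_
      · rintro (i | i) x m
        · rfl
        · rfl
      · intro c
        refine Eq.trans ?_ (Submodule.map_id
          (N.N ((c ∘ (rperm b).symm) ∘ (rperm a).symm))).symm
        change N.N (c ∘ (rperm (a * b)).symm) = N.N ((c ∘ (rperm b).symm) ∘ (rperm a).symm)
        congr 1
        funext i
        rcases i with i | i
        · rfl
        · rfl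
    rw [← h1, hb _ (hN.rdx _), ha N hN, mul_inv_rev, map_mul, End.mul_def, Category.assoc]

/-- The value of the lattice of the ideal of the graph of `σ`, in an algebra `K` which contains
the universal algebra (`f`): `LLs κ σ x y` is isomorphic (`LatFun.iso`, identity) to the
reindexing of `LL κ x (y ∘ σ)` by `rperm σ⁻¹`; `LL κ x (y ∘ σ)` is the image of the universal `LL`
under the injective map `f ∘ ρ`, `ρ` from `KT_perm` (`LLN_map`); `LatFunP.prod`. -/
theorem LatFunP.val_LLs {K : Type u} [CommRing K] [Algebra k K] (f : (KT D n).A →ₐ[k] K)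
    (hf : Function.Injective f) (κ : Fin n → ℕ) (σ : Perm (Fin n)) :
    Φ.val (LLs κ σ (fun i => f.comp (kx D n i)) fun i => f.comp (ky D n i)) =
      tfam n (fun i => β (κ i)) ≫ (MP_6e5bed_ag.perm X n σ : tpow X n ⟶ tpow X n) := by
  set x : Fin n → (D.L →ₐ[k] K) := fun i => f.comp (kx D n i) with hx
  set y : Fin n → (D.L →ₐ[k] K) := fun i => f.comp (ky D n i) with hy
  obtain ⟨ρ, hρ, h1, h2⟩ := KT_perm (D := D) n σ
  have hx' : ∀ i, (f.comp ρ).comp (kx D n i) = x i := by
    intro i
    rw [AlgHom.comp_assoc, h1]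
  have hy' : ∀ i, (f.comp ρ).comp (ky D n i) = y (σ i) := by
    intro i
    rw [AlgHom.comp_assoc, h2]
  have h3 : Φ.val (LL κ (kx D n) (ky D n)) = Φ.val (LL κ x fun i => y (σ i)) := by
    refine Φ.iso _ _ (LL_fg _ _ _) (LL_fg _ _ _) (f.comp ρ).toLinearMap (hf.comp hρ) ?_ ?_
    · rintro (i | i) a m
      · have h8 : ∀ m : (KT D n).A,
            (f.comp ρ) (kx D n i a * m) = x i a * (f.comp ρ) m := fun m => by
          rw [map_mul, ← hx' i]
          rfl
        exact h8 m
      · have h8 : ∀ m : (KT D n).A,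
            (f.comp ρ) (ky D n i a * m) = y (σ i) a * (f.comp ρ) m := fun m => by
          rw [map_mul, ← hy' i]
          rfl
        exact h8 m
    · intro c
      change LLN κ x (fun i => y (σ i)) c =
        (LLN κ (kx D n) (ky D n) c).map (f.comp ρ).toLinearMap
      rw [LLN_map]
      have h4 : (fun i => (f.comp ρ).comp (kx D n i)) = x := funext hx'
      have h5 : (fun i => (f.comp ρ).comp (ky D n i)) = fun i => y (σ i) := funext hy'
      rw [h4, h5]
  have h6 : Φ.val ((LL κ x fun i => y (σ i)).reindex (rperm σ⁻¹)) = Φ.val (LLs κ σ x y) := by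
    refine Φ.iso _ _ ((LL_fg _ _ _).rdx _) (LLs_fg _ _ _ _) LinearMap.id
      Function.injective_id ?_ ?_
    · rintro (i | i) a m
      · rfl
      · have h7 : σ (σ⁻¹ i) = i := σ.apply_symm_apply i
        have h8 : ∀ m : K, y (σ (σ⁻¹ i)) a * m = y i a * m := fun m => by rw [h7]
        exact h8 m
    · intro c
      refine Eq.trans ?_ (Submodule.map_id
        (LLN κ x (fun i => y (σ i)) (c ∘ (rperm σ⁻¹).symm))).symm
      rfl
  rw [← h6, Φ.val_perm σ⁻¹ _ (LL_fg _ _ _), inv_inv, ← h3, Φ.prod κ]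

end Pool.Agent.MP_6e5bed_ag_KC
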