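import Pool.Agent.Lib.MP_6e5bed_ag_KC.VPcl

set_option autoImplicit false

/-!
# KC, commutative side: the permanent identity
-/

namespace Pool.Agent.MP_6e5bed_ag_KC

open scoped TensorProduct
open Equiv Polynomial

universe u v

/-- The product of the powers of the ideals `x_i = y_{σ(i)}`. -/
noncomputable def PtCurve.prodIdeal {k : Type u} [Field k] (C : PtCurve k) {n J : ℕ} {R : Type u}
    [CommRing R] [Algebra k R] (x y : Fin n → C.Pt R) (σ : Perm (Fin n))
    (κ : Fin n → Fin (J + 1)) : Ideal R :=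
  ∏ i, C.coin (x i) (y (σ i)) ^ (κ i : ℕ)

/-- THE PERMANENT IDENTITY. `J = D.natDegree`, `c_j` the coefficients of `D`; expand the product
(`Finset.prod_univ_sum`) and apply `IdFun.val` (`val_cls`; `cl` is the class of `coin`,
`cl_eq`, `coin_inv`). -/
theorem permIdentity {k : Type u} [Field k] [IsAlgClosed k] (C : PtCurve k) :
    ∃ (J : ℕ) (c : Fin (J + 1) → ℚ) (n : ℕ), 0 < n ∧
      (∑ j, c j) = 0 ∧ (∑ j : Fin (J + 1), ((j : ℕ) : ℚ) * c j) = -1 ∧
      ∀ (R : Type u) [CommRing R] [IsDomain R] [Algebra k R] [Algebra.FiniteType k R]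
        (x y : Fin n → C.Pt R), Function.Injective (Fin.append x y) →
        (∀ i p, Fin.append x y i ≠ C.cst p) →
        (∀ (σ : Perm (Fin n)) (κ : Fin n → Fin (J + 1)), Inv (C.prodIdeal x y σ κ)) ∧
        ∀ (V : Type v) [AddCommGroup V] [Module ℚ V] (χ : IdFun R V),
          ∑ σ : Perm (Fin n), ∑ κ : Fin n → Fin (J + 1), (∏ i, c (κ i)) •
              χ.g (C.prodIdeal x y σ κ) = 0 := by
  obtain ⟨D, n, hn, hD1, hD2, key⟩ := C.perm_cl
  refine ⟨D.natDegree, fun j => D.coeff j, n, hn, ?_, ?_, ?_⟩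
  · rw [Polynomial.eval_eq_sum_range] at hD1
    rw [Fin.sum_univ_eq_sum_range (fun j => D.coeff j) (D.natDegree + 1)]
    simpa using hD1
  · rw [Polynomial.derivative_eval, Polynomial.sum_over_range _ (fun i => by simp)] at hD2
    rw [Fin.sum_univ_eq_sum_range (fun j => (j : ℚ) * D.coeff j) (D.natDegree + 1), ← hD2]
    refine Finset.sum_congr rfl fun i _ => ?_
    rw [one_pow, mul_one, mul_comm]
  · intro R _ _ _ _ x y hinj hcst
    have hne : ∀ i j, x i ≠ y j := by
      intro i j h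
      have h1 : Fin.append x y (Fin.castAdd n i) = Fin.append x y (Fin.natAdd n j) := by
        rw [Fin.append_left, Fin.append_right, h]
      have h2 := congrArg Fin.val (hinj h1)
      rw [Fin.val_castAdd, Fin.val_natAdd] at h2
      have := i.isLt
      omega
    have hinv : ∀ i j, Inv (C.coin (x i) (y j)) := fun i j => C.coin_inv (hne i j)
    have hcoe : ∀ (σ : Perm (Fin n)) (κ : Fin n → Fin (D.natDegree + 1)),
        ((∏ i, (⟨C.coin (x i) (y (σ i)), hinv i (σ i)⟩ : InvM R) ^ (κ i : ℕ) : InvM R) :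
          Ideal R) = C.prodIdeal x y σ κ := by
      intro σ κ
      unfold PtCurve.prodIdeal
      rw [Submonoid.coe_finsetProd]
      rfl
    refine ⟨fun σ κ => ?_, ?_⟩
    · rw [← hcoe σ κ]
      exact (∏ i, (⟨C.coin (x i) (y (σ i)), hinv i (σ i)⟩ : InvM R) ^ (κ i : ℕ)).2
    · intro V _ _ χ
      have h1 := congrArg χ.val (key R x y hinj hcst V χ)
      rw [map_zero, map_sum] at h1
      rw [← h1]
      refine Finset.sum_congr rfl fun σ _ => ?_
      have h2 : ∀ a, aeval (C.cl χ (x a) (y (σ a))) D = ∑ j : Fin (D.natDegree + 1),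
          D.coeff j • χ.cls (⟨C.coin (x a) (y (σ a)), hinv a (σ a)⟩ : InvM R) ^ (j : ℕ) := by
        intro a
        rw [C.cl_eq χ (hinv a (σ a)), Polynomial.aeval_eq_sum_range]
        exact (Fin.sum_univ_eq_sum_range (fun j => D.coeff j •
          χ.cls (⟨C.coin (x a) (y (σ a)), hinv a (σ a)⟩ : InvM R) ^ j)
          (D.natDegree + 1)).symm
      simp only [h2]
      rw [Finset.prod_univ_sum, Fintype.piFinset_univ, map_sum]
      refine Finset.sum_congr rfl fun κ _ => ?_
      rw [Finset.prod_smul, map_smul, ← hcoe σ κ, ← χ.val_cls, map_prod]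
      simp only [map_pow]

end Pool.Agent.MP_6e5bed_ag_KC
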