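import Pool.Agent.Lib.MP_6e5bed_ag_KC.LGr
import Pool.Agent.Lib.MP_6e5bed_ag_KC.LLs
import Pool.Agent.Lib.MP_6e5bed_ag_KC.LChi
import Pool.Agent.Lib.MP_6e5bed_ag_KC.VPI

set_option autoImplicit false
set_option linter.unusedSectionVars false

/-!
# Project KC: the ideals of the graphs of permutations and the lattices `LLs`
-/

noncomputable section

namespace Pool.Agent.MP_6e5bed_ag_KC

open RatFunc Equiv
open Pool.Agent.MP_6e5bed_ag_NC
open scoped TensorProduct

universe u

variable {k : Type u} [Field k] [IsAlgClosed k] {D : FExt k} (P : IPt D)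
  {K : Type u} [CommRing K] [Algebra k K]
  {R : Type u} [CommRing R] [Algebra k R] [Algebra R K] [IsScalarTower k R K]

/-- The image of `R` in `K`. -/
def RKm (k : Type u) [Field k] (K : Type u) [CommRing K] [Algebra k K] (R : Type u) [CommRing R]
    [Algebra k R] [Algebra R K] [IsScalarTower k R K] : Submodule k K :=
  LinearMap.range (IsScalarTower.toAlgHom k R K).toLinearMap

theorem mem_RKm {a : K} : a ∈ RKm k K R ↔ ∃ r : R, algebraMap R K r = a := Iff.rfl

namespace LPid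

theorem one_RKm : (1 : K) ∈ RKm k K R := ⟨1, map_one (IsScalarTower.toAlgHom k R K)⟩

theorem RKm_mul {a : K} {r : R} {A : Submodule k K} (ha : a ∈ RKm k K R * A) :
    algebraMap R K r * a ∈ RKm k K R * A := by
  refine Submodule.mul_induction_on ha (fun x hx y hy => ?_) (fun x y hx hy => ?_)
  · rw [← mul_assoc]
    refine Submodule.mul_mem_mul ?_ hy
    obtain ⟨s, hs⟩ := mem_RKm.1 hx
    exact mem_RKm.2 ⟨r * s, by rw [map_mul, hs]⟩
  · rw [mul_add]
    exact Submodule.add_mem _ hx hy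

theorem le_mul {I J : Ideal R} {A B : Submodule k K}
    (hI : ∀ r ∈ I, algebraMap R K r ∈ RKm k K R * A)
    (hJ : ∀ r ∈ J, algebraMap R K r ∈ RKm k K R * B) :
    ∀ r ∈ I * J, algebraMap R K r ∈ RKm k K R * (A * B) := by
  have hRR : RKm k K R * RKm k K R ≤ RKm k K R := by
    refine Submodule.mul_le.2 fun x hx y hy => ?_
    obtain ⟨s, rfl⟩ := mem_RKm.1 hx
    obtain ⟨t, rfl⟩ := mem_RKm.1 hy
    exact mem_RKm.2 ⟨s * t, map_mul _ _ _⟩
  intro r hr
  refine Submodule.mul_induction_on (C := fun r => algebraMap R K r ∈ RKm k K R * (A * B)) hr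
    (fun x hx y hy => ?_) (fun x y hx hy => ?_)
  · rw [map_mul]
    have h1 := Submodule.mul_mem_mul (hI x hx) (hJ y hy)
    rw [mul_mul_mul_comm] at h1
    exact (mul_le_mul' hRR le_rfl : _ ≤ RKm k K R * (A * B)) h1
  · rw [map_add]
    exact Submodule.add_mem _ hx hy

theorem le_one : ∀ r ∈ (1 : Ideal R), algebraMap R K r ∈ RKm k K R * (1 : Submodule k K) := by
  intro r _
  rw [mul_one]
  exact mem_RKm.2 ⟨r, rfl⟩

theorem le_pow {I : Ideal R} {A : Submodule k K}
    (hI : ∀ r ∈ I, algebraMap R K r ∈ RKm k K R * A) (n : ℕ) :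
    ∀ r ∈ I ^ n, algebraMap R K r ∈ RKm k K R * A ^ n := by
  induction n with
  | zero =>
    rw [pow_zero, pow_zero]
    exact le_one
  | succ n ih =>
    rw [pow_succ, pow_succ]
    exact le_mul ih hI

theorem le_prod {ι : Type} (s : Finset ι) {I : ι → Ideal R} {A : ι → Submodule k K}
    (hI : ∀ i, ∀ r ∈ I i, algebraMap R K r ∈ RKm k K R * A i) :
    ∀ r ∈ ∏ i ∈ s, I i, algebraMap R K r ∈ RKm k K R * ∏ i ∈ s, A i := by
  classical
  induction s using Finset.induction_on with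
  | empty =>
    rw [Finset.prod_empty, Finset.prod_empty]
    exact le_one
  | insert i s hi ih =>
    rw [Finset.prod_insert hi, Finset.prod_insert hi]
    exact le_mul (hI i) ih

theorem ge_mul {I J : Ideal R} {A B : Submodule k K}
    (hI : ∀ m ∈ A, ∃ r ∈ I, algebraMap R K r = m)
    (hJ : ∀ m ∈ B, ∃ r ∈ J, algebraMap R K r = m) :
    ∀ m ∈ A * B, ∃ r ∈ I * J, algebraMap R K r = m := by
  intro m hm
  refine Submodule.mul_induction_on (C := fun m => ∃ r ∈ I * J, algebraMap R K r = m) hm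
    (fun x hx y hy => ?_) (fun x y hx hy => ?_)
  · obtain ⟨r, hr, rfl⟩ := hI x hx
    obtain ⟨s, hs, rfl⟩ := hJ y hy
    exact ⟨r * s, Ideal.mul_mem_mul hr hs, map_mul _ _ _⟩
  · obtain ⟨r, hr, rfl⟩ := hx
    obtain ⟨s, hs, rfl⟩ := hy
    exact ⟨r + s, add_mem hr hs, map_add _ _ _⟩

theorem ge_one : ∀ m ∈ (1 : Submodule k K), ∃ r ∈ (1 : Ideal R), algebraMap R K r = m := by
  intro m hm
  obtain ⟨c, rfl⟩ := Submodule.mem_one.1 hm
  refine ⟨algebraMap k R c, ?_, (IsScalarTower.algebraMap_apply k R K c).symm⟩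
  rw [Ideal.one_eq_top]
  exact Submodule.mem_top

theorem ge_pow {I : Ideal R} {A : Submodule k K}
    (hI : ∀ m ∈ A, ∃ r ∈ I, algebraMap R K r = m) (n : ℕ) :
    ∀ m ∈ A ^ n, ∃ r ∈ I ^ n, algebraMap R K r = m := by
  induction n with
  | zero =>
    rw [pow_zero, pow_zero]
    exact ge_one
  | succ n ih =>
    rw [pow_succ, pow_succ]
    exact ge_mul ih hI

theorem ge_prod {ι : Type} (s : Finset ι) {I : ι → Ideal R} {A : ι → Submodule k K}
    (hI : ∀ i, ∀ m ∈ A i, ∃ r ∈ I i, algebraMap R K r = m) :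
    ∀ m ∈ ∏ i ∈ s, A i, ∃ r ∈ ∏ i ∈ s, I i, algebraMap R K r = m := by
  classical
  induction s using Finset.induction_on with
  | empty =>
    rw [Finset.prod_empty, Finset.prod_empty]
    exact ge_one
  | insert i s hi ih =>
    rw [Finset.prod_insert hi, Finset.prod_insert hi]
    exact ge_mul (hI i) ih

theorem pair_eq (x y : D.L →ₐ[k] K) (xB yB : P.curve.Pt R)
    (hx : ∀ b : P.B, algebraMap R K (xB b) = x (b : D.L))
    (hy : ∀ b : P.B, algebraMap R K (yB b) = y (b : D.L)) (v : P.B ⊗[k] P.B) :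
    algebraMap R K (P.curve.pair xB yB v) =
      prL x y (Algebra.TensorProduct.map P.B.val P.B.val v) := by
  induction v using TensorProduct.induction_on with
  | zero =>
    rw [map_zero, map_zero]
    exact (congrArg (algebraMap R K) (map_zero (P.curve.pair xB yB))).trans (map_zero _)
  | tmul a b =>
    have h1 : P.curve.pair xB yB (a ⊗ₜ[k] b) = xB a * yB b := by
      unfold PtCurve.pair
      exact Algebra.TensorProduct.lift_tmul _ _ _ _ _
    rw [Algebra.TensorProduct.map_tmul]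
    refine (congrArg (algebraMap R K) h1).trans ?_
    rw [map_mul]
    unfold prL
    rw [Algebra.TensorProduct.lift_tmul, hx, hy]
    rfl
  | add a b ha hb =>
    rw [map_add, map_add, ← ha, ← hb, ← map_add]
    exact congrArg _ (map_add (P.curve.pair xB yB) a b)

end LPid

/-- The ideal of coincidence and the ideal of the diagonal of `B ⊗ B`. -/
theorem IPt.coin_le (x y : D.L →ₐ[k] K) (xB yB : P.curve.Pt R)
    (hx : ∀ b : P.B, algebraMap R K (xB b) = x (b : D.L))
    (hy : ∀ b : P.B, algebraMap R K (yB b) = y (b : D.L)) {r : R} (hr : r ∈ P.curve.coin xB yB) :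
    algebraMap R K r ∈ RKm k K R * P.dgB.map (prL x y).toLinearMap := by
  unfold PtCurve.coin Ideal.map at hr
  refine Submodule.span_induction
    (p := fun r _ => algebraMap R K r ∈ RKm k K R * P.dgB.map (prL x y).toLinearMap)
    ?_ ?_ ?_ ?_ hr
  · rintro _ ⟨v, hv, rfl⟩
    have h1 := LPid.pair_eq P x y xB yB hx hy v
    have h2 : prL x y (Algebra.TensorProduct.map P.B.val P.B.val v) ∈
        P.dgB.map (prL x y).toLinearMap := ⟨_, ⟨v, hv, rfl⟩, rfl⟩
    have h3 := Submodule.mul_mem_mul (LPid.one_RKm (k := k) (K := K) (R := R)) h2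
    rw [one_mul, ← h1] at h3
    exact h3
  · rw [map_zero]
    exact Submodule.zero_mem _
  · intro r s _ _ hr hs
    rw [map_add]
    exact Submodule.add_mem _ hr hs
  · intro a r _ hr
    rw [smul_eq_mul, map_mul]
    exact LPid.RKm_mul hr

theorem IPt.le_coin (x y : D.L →ₐ[k] K) (xB yB : P.curve.Pt R)
    (hx : ∀ b : P.B, algebraMap R K (xB b) = x (b : D.L))
    (hy : ∀ b : P.B, algebraMap R K (yB b) = y (b : D.L)) {m : K}
    (hm : m ∈ P.dgB.map (prL x y).toLinearMap) :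
    ∃ r ∈ P.curve.coin xB yB, algebraMap R K r = m := by
  obtain ⟨_, ⟨v, hv, rfl⟩, rfl⟩ := hm
  exact ⟨P.curve.pair xB yB v, Ideal.mem_map_of_mem _ hv, LPid.pair_eq P x y xB yB hx hy v⟩

variable {n J : ℕ} (x y : Fin n → (D.L →ₐ[k] K)) (xB yB : Fin n → P.curve.Pt R)

theorem IPt.prodIdeal_le (hx : ∀ i, ∀ b : P.B, algebraMap R K (xB i b) = x i (b : D.L))
    (hy : ∀ i, ∀ b : P.B, algebraMap R K (yB i b) = y i (b : D.L)) (σ : Perm (Fin n))
    (κ : Fin n → Fin (J + 1)) {r : R} (hr : r ∈ P.curve.prodIdeal xB yB σ κ) :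
    algebraMap R K r ∈ RKm k K R *
      ∏ i, (P.dgB.map (prL (x i) (y (σ i))).toLinearMap) ^ (κ i : ℕ) := by
  unfold PtCurve.prodIdeal at hr
  exact LPid.le_prod Finset.univ (fun i => LPid.le_pow
    (fun r hr => P.coin_le (x i) (y (σ i)) (xB i) (yB (σ i)) (hx i) (hy (σ i)) hr) (κ i)) r hr

theorem IPt.le_prodIdeal (hx : ∀ i, ∀ b : P.B, algebraMap R K (xB i b) = x i (b : D.L))
    (hy : ∀ i, ∀ b : P.B, algebraMap R K (yB i b) = y i (b : D.L)) (σ : Perm (Fin n))
    (κ : Fin n → Fin (J + 1)) {m : K}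
    (hm : m ∈ ∏ i, (P.dgB.map (prL (x i) (y (σ i))).toLinearMap) ^ (κ i : ℕ)) :
    ∃ r ∈ P.curve.prodIdeal xB yB σ κ, algebraMap R K r = m := by
  unfold PtCurve.prodIdeal
  exact LPid.ge_prod Finset.univ (fun i => LPid.ge_pow
    (fun m hm => P.le_coin (x i) (y (σ i)) (xB i) (yB (σ i)) (hx i) (hy (σ i)) hm) (κ i)) m hm

/-- The powers of the ideals of the diagonals on the charts are contained in the lattices
(`LLsN_eq`, `RRm_pairs`, `II_pow_le`, `Submodule.map_mul`, `Submodule.map_pow`). -/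
theorem le_LLsN (κ : Fin n → ℕ) (σ : Perm (Fin n)) (c : Fin n ⊕ Fin n → Fin 3) :
    (∏ i, ((II D (c (Sum.inl i)) (c (Sum.inr (σ i)))).map
      (prL (x i) (y (σ i))).toLinearMap) ^ (κ i)) * RRm (Sum.elim x y) c ≤
        LLsN κ σ x y c := by
  rw [LLsN_eq, RRm_pairs σ, ← Finset.prod_mul_distrib]
  refine prod_mono_aux _ _ fun i => ?_
  rw [← Submodule.map_pow, ← Submodule.map_mul]
  exact Submodule.map_mono (II_pow_le _ _ _)

end Pool.Agent.MP_6e5bed_ag_KC
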