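import Pool.Agent.Lib.MP_6e5bed_ag_KC.LFG
import Pool.Agent.Lib.MP_6e5bed_ag_KC.LNoeB

set_option autoImplicit false
set_option linter.unusedSectionVars false

/-!
# Project KC: iterated products with the ideals of `x₀`
-/

noncomputable section

namespace Pool.Agent.MP_6e5bed_ag_KC

open RatFunc
open Pool.Agent.MP_6e5bed_ag_NC
open scoped TensorProduct

universe u v

variable {k : Type u} [Field k] {D : FExt k} {ι : Type} [DecidableEq ι]

/-! ### Iterated products with the ideals of `x₀` -/

section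

variable {E : LSys D ι} (P : Ideal (A1 D)) (hP : (⟨(tt D)⁻¹, tt_inv_mem_BB1 D⟩ : A1 D) ∈ P)

/-- `P_{i_1} P_{i_2} ⋯ N` for a list of factors. -/
def Lat.ppW (N : Lat E) : List ι → Lat E
  | [] => N
  | i :: w => Lat.ppW (N.pp P hP i) w

namespace LPpw

theorem pp_mono {N N' : Lat E} (h : N ≤ N') (i : ι) : N.pp P hP i ≤ N'.pp P hP i := by
  intro c
  refine Submodule.span_le.2 ?_
  rintro _ ⟨b, hb, m, hm, rfl⟩
  exact Submodule.subset_span ⟨b, hb, m, h c hm, rfl⟩

theorem pp_sup (N N' : Lat E) (i : ι) :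
    (N.sup N').pp P hP i ≤ (N.pp P hP i).sup (N'.pp P hP i) := by
  intro c
  refine Submodule.span_le.2 ?_
  rintro _ ⟨b, hb, m, hm, rfl⟩
  obtain ⟨x, hx, y, hy, rfl⟩ := Submodule.mem_sup.1 hm
  rw [map_add]
  exact Submodule.add_mem_sup (Submodule.subset_span ⟨b, hb, x, hx, rfl⟩)
    (Submodule.subset_span ⟨b, hb, y, hy, rfl⟩)

end LPpw

theorem Lat.ppW_mono {N N' : Lat E} (h : N ≤ N') (w : List ι) :
    N.ppW P hP w ≤ N'.ppW P hP w := by
  induction w generalizing N N' with
  | nil => exact h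
  | cons i w ih => exact ih (LPpw.pp_mono P hP h i)

theorem Lat.ppW_le (N : Lat E) (w : List ι) : N.ppW P hP w ≤ N := by
  induction w generalizing N with
  | nil => exact N.le_refl'
  | cons i w ih => exact Lat.le_trans' (ih (N.pp P hP i)) (N.pp_le P hP i)

/-- `ppW` of a sum is contained in the sum. -/
theorem Lat.ppW_sup (N N' : Lat E) (w : List ι) :
    (N.sup N').ppW P hP w ≤ (N.ppW P hP w).sup (N'.ppW P hP w) := by
  induction w generalizing N N' with
  | nil => exact Lat.le_refl' _
  | cons i w ih =>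
    exact Lat.le_trans' (Lat.ppW_mono P hP (LPpw.pp_sup P hP N N' i) w)
      (ih (N.pp P hP i) (N'.pp P hP i))

namespace LPpw

theorem pL_pow (l : ℕ) (c : Fin 3) : pL P 1 c ^ l ≤ pL P l c := by
  induction l with
  | zero =>
    rw [pow_zero, pL_zero, Submodule.one_le]
    exact (BB D c).one_mem
  | succ l ih =>
    rw [pow_succ, pL_add]
    exact Submodule.mul_le.2 fun x hx y hy => Submodule.mul_mem_mul (ih hx) hy

theorem exists_list [Fintype ι] (l : ℕ) :
    ∃ w : List ι, ∀ (M : Type u) [CommMonoid M] (f : ι → M), (w.map f).prod = (∏ i, f i) ^ l := by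
  refine ⟨(l • (Finset.univ : Finset ι).val).toList, ?_⟩
  intro M _ f
  rw [← Multiset.prod_coe, ← Multiset.map_coe, Multiset.coe_toList, Multiset.map_nsmul,
    Multiset.prod_nsmul]
  rfl

theorem ppW_le_smul [Fintype ι] {K : Type u} [CommRing K] [Algebra k K]
    (z : ι → D.L →ₐ[k] K) (H : Type u) [AddCommGroup H] [Module k H] [Module K H]
    [IsScalarTower k K H] (c : ι → Fin 3) (w : List ι) (N : Lat (LSys.ofAlg z H)) :
    (N.ppW P hP w).NK c ≤
      (w.map fun i => (pL P 1 (c i)).map (z i).toLinearMap).prod • N.NK c := by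
  induction w generalizing N with
  | nil =>
    intro m hm
    rw [List.map_nil, List.prod_nil]
    have h1 : (1 : K) • m ∈ (1 : Submodule k K) • N.NK c :=
      Submodule.smul_mem_smul (Submodule.one_le.1 le_rfl) hm
    rwa [one_smul] at h1
  | cons i w ih =>
    refine (ih (N.pp P hP i)).trans ?_
    rw [List.map_cons, List.prod_cons, mul_comm]
    refine Submodule.smul_le.2 fun r hr m hm => ?_
    have hm' : m ∈ (pL P 1 (c i)).map (z i).toLinearMap • N.NK c := by
      have hs : (Submodule.span k {x : H | ∃ b ∈ pL P 1 (c i), ∃ m ∈ N.NK c, z i b • m = x} :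
          Submodule k H) ≤ (pL P 1 (c i)).map (z i).toLinearMap • N.NK c := by
        rw [Submodule.span_le]
        rintro _ ⟨b, hb, x, hx, rfl⟩
        exact Submodule.smul_mem_smul (Submodule.mem_map_of_mem hb) hx
      exact hs hm
    refine Submodule.smul_induction_on (p := fun m => r • m ∈
      ((w.map fun i => (pL P 1 (c i)).map (z i).toLinearMap).prod *
        (pL P 1 (c i)).map (z i).toLinearMap) • N.NK c) hm' (fun s hs x hx => ?_)
      (fun x y hx hy => ?_)
    · rw [smul_smul]
      exact Submodule.smul_mem_smul (Submodule.mul_mem_mul hr hs) hx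
    · rw [smul_add]
      exact Submodule.add_mem _ hx hy

end LPpw

/-- The elements `∏ z_i(b_i) m` with `b_i ∈ pL P 1` (all of the list) generate `ppW`: an inclusion
can be checked on them. For a list `w` in which every factor occurs at least `l` times one has
`ppW N w ≤ N'` if `PPm P z l c • N_c ⊆ N'_c` for all `c`. -/
theorem Lat.ppW_le_of [Fintype ι] {K : Type u} [CommRing K] [Algebra k K]
    (z : ι → D.L →ₐ[k] K) (H : Type u) [AddCommGroup H] [Module k H] [Module K H]
    [IsScalarTower k K H] (N N' : Lat (LSys.ofAlg z H)) (l : ℕ)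
    (h : ∀ c, ∀ p ∈ PPm P z l c, ∀ m ∈ N.NK c, p • m ∈ N'.NK c) :
    ∃ w : List ι, N.ppW P hP w ≤ N' := by
  obtain ⟨w, hw⟩ := LPpw.exists_list (ι := ι) l
  refine ⟨w, fun c => ?_⟩
  refine (LPpw.ppW_le_smul P hP z H c w N).trans ?_
  rw [hw]
  refine Submodule.smul_le.2 fun r hr m hm => h c r ?_ m hm
  refine (?_ : (∏ i, (pL P 1 (c i)).map (z i).toLinearMap) ^ l ≤ PPm P z l c) hr
  rw [← Finset.prod_pow]
  unfold PPm
  refine Finset.prod_le_prod' fun i _ => ?_
  rw [← Submodule.map_pow]
  exact Submodule.map_mono (LPpw.pL_pow P l (c i))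

end

end Pool.Agent.MP_6e5bed_ag_KC
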