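import Pool.Agent.Lib.MP_6e5bed_ag_KC.LVal
import Pool.Agent.Lib.MP_6e5bed_ag_KC.LFinC
import Pool.Agent.Lib.MP_6e5bed_ag_KC.KT
import Pool.Agent.Lib.MP_6e5bed_ag_KC.LPerm
import Pool.Agent.Lib.MP_6e5bed_ag_KC.BTpow
import Pool.Agent.Lib.MP_6e5bed_ag_KC.BIdl

set_option autoImplicit false
set_option linter.unusedSectionVars false

/-!
# The class of the universal ideal lattices (project KC, part B5)
-/

noncomputable section

namespace Pool.Agent.MP_6e5bed_ag_KC

open RatFunc CategoryTheory MonoidalCategory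
open Pool.Agent.MP_6e5bed_ag_NC
open Pool.Agent.MP_6e5bed_ag
open scoped TensorProduct

universe u

variable {k : Type u} [Field k] (D : FExt k)

/-! ### One pair of factors -/

/-- The first point of `L ⊗ L`. -/
def zx : Fin 1 → (D.L →ₐ[k] D.L ⊗[k] D.L) := fun _ => Algebra.TensorProduct.includeLeft

/-- The second point of `L ⊗ L`. -/
def zy : Fin 1 → (D.L →ₐ[k] D.L ⊗[k] D.L) := fun _ => Algebra.TensorProduct.includeRight

/-- The lattice `Jk j` in `L ⊗ L`. -/
abbrev L1 (j : ℕ) : Lat (LSys.ofAlg (D := D) (ι := Fin 1 ⊕ Fin 1)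
    (Sum.elim (zx D) (zy D)) (D.L ⊗[k] D.L)) := LL (fun _ => j) (zx D) (zy D)

theorem L1_N (j : ℕ) (c : Fin 1 ⊕ Fin 1 → Fin 3) :
    LLN (fun _ => j) (zx D) (zy D) c = Jk D j (c (Sum.inl 0)) (c (Sum.inr 0)) := by
  unfold LLN
  rw [Fin.prod_univ_one]
  have h : prL (zx D 0) (zy D 0) = AlgHom.id k (D.L ⊗[k] D.L) := by
    refine Algebra.TensorProduct.ext' fun a b => ?_
    unfold prL
    rw [Algebra.TensorProduct.lift_tmul]
    change (a ⊗ₜ[k] (1 : D.L)) * ((1 : D.L) ⊗ₜ[k] b) = a ⊗ₜ[k] b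
    rw [Algebra.TensorProduct.tmul_mul_tmul, mul_one, one_mul]
  rw [h]
  exact Submodule.map_id _

theorem pair_eta (c : Fin 1 ⊕ Fin 1 → Fin 3) :
    (Sum.elim (fun _ => c (Sum.inl 0)) fun _ => c (Sum.inr 0)) = c := by
  funext i
  rcases i with i | i
  · rw [Sum.elim_inl, Subsingleton.elim i 0]
  · rw [Sum.elim_inr, Subsingleton.elim i 0]

/-- The isomorphism of the underlying spaces. -/
def L1_equiv (j : ℕ) : (L1 D j).V ≃ₗ[k] (SysM D j).N where
  toFun := fun F => ⟨fun a b => F.1 (Sum.elim (fun _ => a) fun _ => b), fun a b => by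
    have h := F.2 (Sum.elim (fun _ => a) fun _ => b)
    change F.1 (Sum.elim (fun _ => a) fun _ => b) ∈
      LLN (fun _ => j) (zx D) (zy D) (Sum.elim (fun _ => a) fun _ => b) at h
    rw [L1_N] at h
    exact h⟩
  map_add' := fun _ _ => rfl
  map_smul' := fun _ _ => rfl
  invFun := fun w => ⟨fun c => w.1 (c (Sum.inl 0)) (c (Sum.inr 0)), fun c => by
    change w.1 (c (Sum.inl 0)) (c (Sum.inr 0)) ∈ LLN (fun _ => j) (zx D) (zy D) c
    rw [L1_N]
    exact w.2 _ _⟩
  left_inv := fun F => Subtype.ext (funext fun c => congrArg F.1 (pair_eta c))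
  right_inv := fun _ => rfl

theorem upd_inl (a b d : Fin 3) : Function.update
    (Sum.elim (fun _ => a) fun _ => b : Fin 1 ⊕ Fin 1 → Fin 3) (Sum.inl 0) d =
      Sum.elim (fun _ => d) fun _ => b := by
  rw [← pair_eta (Function.update _ _ _), Function.update_self,
    Function.update_of_ne Sum.inr_ne_inl, Sum.elim_inr]

theorem upd_inr (a b d : Fin 3) : Function.update
    (Sum.elim (fun _ => a) fun _ => b : Fin 1 ⊕ Fin 1 → Fin 3) (Sum.inr 0) d =
      Sum.elim (fun _ => a) fun _ => d := by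
  rw [← pair_eta (Function.update _ _ _), Function.update_self,
    Function.update_of_ne Sum.inl_ne_inr, Sum.elim_inl]

/-- The bimodule of the lattice `Jk j` is the bimodule of `SysM D j`. -/
theorem L1_iso (j : ℕ) : KBi.Iso ((L1 D j).bi (Sum.inl 0) (Sum.inr 0) Sum.inl_ne_inr)
    (SysM D j).kbi := by
  refine ⟨L1_equiv D j, fun x F => Subtype.ext (funext fun a => funext fun b => ?_),
    fun x F => Subtype.ext (funext fun a => funext fun b => ?_)⟩
  · change Lat.slotE _ (Sum.inl 0) x.1 F.1 (Sum.elim (fun _ => a) fun _ => b) =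
      ∑ c, (TTt D).l (x.1 a c) (F.1 (Sum.elim (fun _ => c) fun _ => b))
    rw [Lat.slotE_apply]
    refine Finset.sum_congr rfl fun d _ => ?_
    rw [upd_inl]
    rfl
  · change Lat.slotE _ (Sum.inr 0) x.1.transpose F.1 (Sum.elim (fun _ => a) fun _ => b) =
      ∑ c, (TTt D).r (x.1 c b) (F.1 (Sum.elim (fun _ => a) fun _ => c))
    rw [Lat.slotE_apply]
    refine Finset.sum_congr rfl fun d _ => ?_
    rw [upd_inr]
    rfl

/-! ### The recursion -/

theorem mk_lift_inj (A B : Type u) [AddCommGroup A] [Module k A] [AddCommGroup B] [Module k B] :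
    Function.Injective (TensorProduct.lift (TensorProduct.mk k A B)) := by
  have h : TensorProduct.lift (TensorProduct.mk k A B) = LinearMap.id :=
    TensorProduct.ext' fun a b => rfl
  rw [h]
  exact Function.injective_id

theorem PD_act1 (n : ℕ) (w u : D.L ⊗[k] D.L) (v : (KT D n).A) :
    ((w * u) ⊗ₜ[k] v : (D.L ⊗[k] D.L) ⊗[k] (KT D n).A) =
      (w ⊗ₜ[k] (1 : (KT D n).A)) * (u ⊗ₜ[k] v) := by
  rw [Algebra.TensorProduct.tmul_mul_tmul, one_mul]

theorem PD_act2 (n : ℕ) (u : D.L ⊗[k] D.L) (w v : (KT D n).A) :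
    (u ⊗ₜ[k] (w * v) : (D.L ⊗[k] D.L) ⊗[k] (KT D n).A) =
      ((1 : D.L ⊗[k] D.L) ⊗ₜ[k] w) * (u ⊗ₜ[k] v) := by
  rw [Algebra.TensorProduct.tmul_mul_tmul, one_mul]

/-- The universal system for `n + 1` pairs is a product. -/
def PD (n : ℕ) : PData
    (LSys.ofAlg (D := D) (ι := Fin 1 ⊕ Fin 1) (Sum.elim (zx D) (zy D)) (D.L ⊗[k] D.L))
    (LSys.ofAlg (D := D) (ι := Fin n ⊕ Fin n) (Sum.elim (kx D n) (ky D n)) (KT D n).A)
    (LSys.ofAlg (D := D) (ι := Fin (n + 1) ⊕ Fin (n + 1))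
      (Sum.elim (kx D (n + 1)) (ky D (n + 1))) (KT D (n + 1)).A) where
  a := Sum.map (fun _ => 0) fun _ => 0
  b := Sum.map Fin.succ Fin.succ
  bij := by
    constructor
    · intro i j h
      rcases i with (i | i) | (i | i) <;> rcases j with (j | j) | (j | j) <;>
        simp [Sum.map, Fin.succ_ne_zero, (Fin.succ_ne_zero _).symm] at h ⊢
      all_goals first | exact Subsingleton.elim _ _ | exact h
    · intro i
      rcases i with i | i
      · refine Fin.cases ⟨Sum.inl (Sum.inl 0), rfl⟩ (fun i => ⟨Sum.inr (Sum.inl i), rfl⟩) i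
      · refine Fin.cases ⟨Sum.inl (Sum.inr 0), rfl⟩ (fun i => ⟨Sum.inr (Sum.inr i), rfl⟩) i
  β := TensorProduct.mk k (D.L ⊗[k] D.L) (KT D n).A
  inj := mk_lift_inj (D.L ⊗[k] D.L) (KT D n).A
  act1 := fun i x u v => by
    rcases i with i | i
    · exact PD_act1 D n (x ⊗ₜ[k] (1 : D.L)) u v
    · exact PD_act1 D n ((1 : D.L) ⊗ₜ[k] x) u v
  act2 := fun i x u v => by
    rcases i with i | i
    · exact PD_act2 D n u (kx D n i x) v
    · exact PD_act2 D n u (ky D n i x) v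

theorem PD_isProd (n : ℕ) (κ : Fin (n + 1) → ℕ) : (PD D n).IsProd (L1 D (κ 0))
    (LL (fun i => κ i.succ) (kx D n) (ky D n)) (LL κ (kx D (n + 1)) (ky D (n + 1))) := by
  intro c
  have h1 : (LL κ (kx D (n + 1)) (ky D (n + 1))).N c =
      Submodule.map₂ (TensorProduct.mk k (D.L ⊗[k] D.L) (KT D n).A)
        (Jk D (κ 0) (c (Sum.inl 0)) (c (Sum.inr 0)))
        (LLN (fun i => κ i.succ) (kx D n) (ky D n)
          (Sum.elim (fun i => c (Sum.inl i.succ)) fun i => c (Sum.inr i.succ))) :=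
    LLN_succ κ c
  have h2 : c ∘ (PD D n).b =
      Sum.elim (fun i => c (Sum.inl i.succ)) fun i => c (Sum.inr i.succ) := by
    funext i
    rcases i with i | i <;> rfl
  have h3 : LLN (fun _ => κ 0) (zx D) (zy D) (c ∘ (PD D n).a) =
      Jk D (κ 0) (c (Sum.inl 0)) (c (Sum.inr 0)) := L1_N D (κ 0) _
  rw [h1, Submodule.map₂_eq_span_image2]
  congr 1
  ext x
  constructor
  · rintro ⟨u, hu, v, hv, rfl⟩
    refine ⟨u, ?_, v, ?_, rfl⟩
    · change u ∈ LLN (fun _ => κ 0) (zx D) (zy D) (c ∘ (PD D n).a)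
      rw [h3]
      exact hu
    · change v ∈ LLN (fun i => κ i.succ) (kx D n) (ky D n) (c ∘ (PD D n).b)
      rw [h2]
      exact hv
  · rintro ⟨u, hu, v, hv, rfl⟩
    refine ⟨u, ?_, v, ?_, rfl⟩
    · change u ∈ LLN (fun _ => κ 0) (zx D) (zy D) (c ∘ (PD D n).a) at hu
      rw [h3] at hu
      exact hu
    · change v ∈ LLN (fun i => κ i.succ) (kx D n) (ky D n) (c ∘ (PD D n).b) at hv
      rw [h2] at hv
      exact hv

/-- The bimodule for `n + 1` pairs. -/
theorem LL_biso (n : ℕ) (κ : Fin (n + 1) → ℕ) :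
    BIso (box (SysM D (κ 0)).kbi.bim (LL (fun i => κ i.succ) (kx D n) (ky D n)).bb.bim)
      (LL κ (kx D (n + 1)) (ky D (n + 1))).bb.bim := by
  have h1 := (PD D n).biso (PD_isProd D n κ) (Sum.inl 0) (Sum.inr 0) Sum.inl_ne_inr
    Sum.inl Sum.inr Sum.inl_injective Sum.inr_injective (fun _ _ => Sum.inl_ne_inr)
    Sum.inl Sum.inr Sum.inl_injective Sum.inr_injective (fun _ _ => Sum.inl_ne_inr)
    (funext fun i => Fin.cases rfl (fun i => rfl) i)
    (funext fun i => Fin.cases rfl (fun i => rfl) i)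
  have e0 : BIso ((L1 D (κ 0)).bi (Sum.inl 0) (Sum.inr 0) Sum.inl_ne_inr).bim
      (SysM D (κ 0)).kbi.bim := (L1_iso D (κ 0)).biso (DHom.id _) (DHom.id _)
  have h2 := (boxR (GaL D) (GaR D)
    (LL (fun i => κ i.succ) (kx D n) (ky D n)).bb.bim).biso e0.symm
  exact h2.trans h1

/-! ### No factors -/

/-- The lattice for no factors is the base field. -/
theorem LL_zero_biso (κ : Fin 0 → ℕ) :
    BIso (LL κ (kx D 0) (ky D 0)).bb.bim (diag (base k)) := by
  have hc : ∀ c c' : Fin 0 ⊕ Fin 0 → Fin 3, c = c' := fun c c' => funext fun i => by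
    rcases i with i | i <;> exact i.elim0
  let c₀ : Fin 0 ⊕ Fin 0 → Fin 3 := fun _ => 0
  let f : (LL κ (kx D 0) (ky D 0)).V →ₗ[k] k :=
    { toFun := fun F => F.1 c₀
      map_add' := fun _ _ => rfl
      map_smul' := fun _ _ => rfl }
  have htop : ∀ (c : Fin 0 ⊕ Fin 0 → Fin 3) (r : k),
      r ∈ LLN κ (kx D 0) (ky D 0) c := fun c r => by
    have h : LLN κ (kx D 0) (ky D 0) c = 1 := Finset.prod_of_isEmpty _
    rw [h]
    exact Submodule.mem_one.2 ⟨r, rfl⟩
  have hb : Function.Bijective f := by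
    constructor
    · intro F G h
      refine Subtype.ext (funext fun c => ?_)
      rw [hc c c₀]
      exact h
    · intro r
      exact ⟨⟨fun _ => r, fun c => htop c r⟩, rfl⟩
  refine BIso.ofBase (V := (LL κ (kx D 0) (ky D 0)).bb.bim) (W := diag (base k)) f ?_ ?_ hb
  · intro i v hv
    rcases Dg.conc_cases hv with rfl | rfl
    · exact base_deg _
    · exact Dg.IsDeg.zero (X := (diag (base k)).dg) i
  · intro v
    exact (map_zero f).symm

variable {D} {F : LSp D} (V : LP k F.F) (hV : BSt V)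

/-- The class of the universal lattice. -/
theorem lcl_prod [IsAlgClosed k] (hsm : Smooth (endCosp V).cech) (hpr : Proper (endCosp V).cech)
    (n : ℕ) : ∀ κ : Fin n → ℕ, lcl V hV (LL κ (kx D n) (ky D n)) =
      pwFam (X := (⟨(endCosp V).cech, hsm, hpr⟩ : SP k)) (Y := ⟨(endCosp V).cech, hsm, hpr⟩)
        (fun i => (ecl ((C1 (ZL V hV) (ZR V)).obj (SysM D (κ i)).kbi.bim) :
          (⟨(endCosp V).cech, hsm, hpr⟩ : SP k) ⟶ ⟨(endCosp V).cech, hsm, hpr⟩)) := by
  induction n with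
  | zero =>
    intro κ
    have h1 := (Cc (ZL V hV) (ZR V) 0 0).biso (LL_zero_biso D κ)
    have h2 := Cc_zero (ZL V hV) (ZR V) (diag (base k))
    have h3 : HasRes (diag (base k)) := Smooth.hasRes_diag smooth_base
    have h4 : lcl V hV (LL κ (kx D 0) (ky D 0)) = K0Q.one smooth_base :=
      (ecl_iso (h1.trans h2)).trans ((ecl_eq h3).trans (rcls_diag smooth_base proper_base h3))
    exact h4
  | succ n ih =>
    intro κ
    have h1 := (Cc (ZL V hV) (ZR V) (n + 1) (n + 1)).biso (LL_biso D n κ)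
    have h2 := Cc_box (ZL V hV) (ZR V) n n (SysM D (κ 0)).kbi.bim
      (LL (fun i => κ i.succ) (kx D n) (ky D n)).bb.bim
    have h3 : HasRes (lbim V hV (LL (fun i => κ i.succ) (kx D n) (ky D n))) :=
      Lat.hasRes V hV hsm _ (LL_fg _ _ _)
    have h4 := (ecl_SysM V hV hsm hpr (κ 0)).1
    have h5 : lcl V hV (LL κ (kx D (n + 1)) (ky D (n + 1))) =
        K0Q.box (ecl ((C1 (ZL V hV) (ZR V)).obj (SysM D (κ 0)).kbi.bim))
          (lcl V hV (LL (fun i => κ i.succ) (kx D n) (ky D n))) :=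
      (ecl_iso (h1.symm.trans h2)).trans (ecl_box h4 h3)
    rw [h5, ih]
    rfl

end Pool.Agent.MP_6e5bed_ag_KC
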