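import Pool.Agent.Lib.MP_6e5bed_ag_KC.LAct

set_option autoImplicit false
set_option linter.unusedSectionVars false

/-!
# Products of lattices: the underlying spaces (project KC, part B5)
-/

namespace Pool.Agent.MP_6e5bed_ag_KC

open RatFunc
open Pool.Agent.MP_6e5bed_ag_NC
open scoped TensorProduct

universe u

variable {k : Type u} [Field k] {D : FExt k} {ι₁ ι ι₂ : Type} [DecidableEq ι₁] [DecidableEq ι]
  [DecidableEq ι₂]

/-- `E₂` is the tensor product of `E₁` and `E`: its factors are those of `E₁` (by `a`) and those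
of `E` (by `b`). -/
structure PData (E₁ : LSys D ι₁) (E : LSys D ι) (E₂ : LSys D ι₂) where
  a : ι₁ → ι₂
  b : ι → ι₂
  bij : Function.Bijective (Sum.elim a b)
  β : E₁.H →ₗ[k] E.H →ₗ[k] E₂.H
  inj : Function.Injective (TensorProduct.lift β)
  act1 : ∀ i x u v, β (E₁.act i x u) v = E₂.act (a i) x (β u v)
  act2 : ∀ i x u v, β u (E.act i x v) = E₂.act (b i) x (β u v)

variable {E₁ : LSys D ι₁} {E : LSys D ι} {E₂ : LSys D ι₂}

/-- `N₂` is the product of `N₁` and `N`. -/
def PData.IsProd (P : PData E₁ E E₂) (N₁ : Lat E₁) (N : Lat E) (N₂ : Lat E₂) : Prop :=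
  ∀ c, N₂.N c = Submodule.span k
    {x | ∃ u ∈ N₁.N (c ∘ P.a), ∃ v ∈ N.N (c ∘ P.b), P.β u v = x}

private theorem PData.a_inj (P : PData E₁ E E₂) : Function.Injective P.a := fun i j h =>
  Sum.inl_injective (P.bij.1 (show Sum.elim P.a P.b (Sum.inl i) = Sum.elim P.a P.b (Sum.inl j)
    from h))

private theorem PData.b_inj (P : PData E₁ E E₂) : Function.Injective P.b := fun i j h =>
  Sum.inr_injective (P.bij.1 (show Sum.elim P.a P.b (Sum.inr i) = Sum.elim P.a P.b (Sum.inr j)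
    from h))

private theorem PData.a_ne_b (P : PData E₁ E E₂) (i : ι₁) (j : ι) : P.a i ≠ P.b j := fun h =>
  Sum.inl_ne_inr (P.bij.1 (show Sum.elim P.a P.b (Sum.inl i) = Sum.elim P.a P.b (Sum.inr j)
    from h))

private theorem PData.comp_ne (P : PData E₁ E E₂) {c c₀ : ι₂ → Fin 3} (h : c ≠ c₀)
    (ha : c ∘ P.a = c₀ ∘ P.a) : c ∘ P.b ≠ c₀ ∘ P.b := by
  intro hb
  refine h (funext fun i => ?_)
  obtain ⟨j, rfl⟩ := P.bij.2 i
  rcases j with j | j
  · exact congrFun ha j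
  · exact congrFun hb j

private theorem PData.exists_comp (P : PData E₁ E E₂) (c₁ : ι₁ → Fin 3) (c' : ι → Fin 3) :
    ∃ c : ι₂ → Fin 3, c ∘ P.a = c₁ ∧ c ∘ P.b = c' := by
  refine ⟨Sum.elim c₁ c' ∘ (Equiv.ofBijective _ P.bij).symm, funext fun i => ?_, funext fun i => ?_⟩
  · have h : (Equiv.ofBijective _ P.bij).symm (P.a i) = Sum.inl i := by
      rw [Equiv.symm_apply_eq]
      rfl
    rw [Function.comp_apply, Function.comp_apply, h]
    rfl
  · have h : (Equiv.ofBijective _ P.bij).symm (P.b i) = Sum.inr i := by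
      rw [Equiv.symm_apply_eq]
      rfl
    rw [Function.comp_apply, Function.comp_apply, h]
    rfl

/-- The bilinear map of the products of families. -/
private noncomputable def PData.bil (P : PData E₁ E E₂) {N₁ : Lat E₁} {N : Lat E} {N₂ : Lat E₂}
    (hP : P.IsProd N₁ N N₂) : N₁.V →ₗ[k] N.V →ₗ[k] N₂.V :=
  LinearMap.mk₂ k (fun f g => ⟨fun c => P.β (f.1 (c ∘ P.a)) (g.1 (c ∘ P.b)), fun c => by
      rw [hP c]
      exact Submodule.subset_span ⟨_, f.2 _, _, g.2 _, rfl⟩⟩)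
    (fun f f' g => Subtype.ext (funext fun c => by
      change P.β (f.1 (c ∘ P.a) + f'.1 (c ∘ P.a)) (g.1 (c ∘ P.b)) =
        P.β (f.1 (c ∘ P.a)) (g.1 (c ∘ P.b)) + P.β (f'.1 (c ∘ P.a)) (g.1 (c ∘ P.b))
      rw [map_add, LinearMap.add_apply]))
    (fun r f g => Subtype.ext (funext fun c => by
      change P.β (r • f.1 (c ∘ P.a)) (g.1 (c ∘ P.b)) =
        r • P.β (f.1 (c ∘ P.a)) (g.1 (c ∘ P.b))
      rw [map_smul, LinearMap.smul_apply]))
    (fun f g g' => Subtype.ext (funext fun c => by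
      change P.β (f.1 (c ∘ P.a)) (g.1 (c ∘ P.b) + g'.1 (c ∘ P.b)) =
        P.β (f.1 (c ∘ P.a)) (g.1 (c ∘ P.b)) + P.β (f.1 (c ∘ P.a)) (g'.1 (c ∘ P.b))
      rw [map_add]))
    (fun r f g => Subtype.ext (funext fun c => by
      change P.β (f.1 (c ∘ P.a)) (r • g.1 (c ∘ P.b)) =
        r • P.β (f.1 (c ∘ P.a)) (g.1 (c ∘ P.b))
      rw [map_smul]))

private theorem PData.bil_apply (P : PData E₁ E E₂) {N₁ : Lat E₁} {N : Lat E} {N₂ : Lat E₂}
    (hP : P.IsProd N₁ N N₂) (f : N₁.V) (g : N.V) (c : ι₂ → Fin 3) :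
    (P.bil hP f g).1 c = P.β (f.1 (c ∘ P.a)) (g.1 (c ∘ P.b)) := rfl

open Classical in
/-- The family with one nonzero component. -/
private noncomputable def LProd_dl {ι : Type} [DecidableEq ι] {E : LSys D ι} (N : Lat E)
    (c : ι → Fin 3) (u : E.H) (hu : u ∈ N.N c) : N.V :=
  ⟨Pi.single c u, fun c' => by
    by_cases h : c' = c
    · subst h
      rw [Pi.single_eq_same]
      exact hu
    · rw [Pi.single_eq_of_ne h]
      exact Submodule.zero_mem _⟩

open Classical in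
private theorem LProd_dl_coe {ι : Type} [DecidableEq ι] {E : LSys D ι} (N : Lat E)
    (c : ι → Fin 3) (u : E.H) (hu : u ∈ N.N c) :
    (LProd_dl N c u hu).1 = Pi.single c u := rfl

open Classical in
private theorem PData.bil_dl (P : PData E₁ E E₂) {N₁ : Lat E₁} {N : Lat E} {N₂ : Lat E₂}
    (hP : P.IsProd N₁ N N₂) (c₀ : ι₂ → Fin 3) (u : E₁.H) (hu : u ∈ N₁.N (c₀ ∘ P.a)) (v : E.H)
    (hv : v ∈ N.N (c₀ ∘ P.b)) :
    (P.bil hP (LProd_dl N₁ _ u hu) (LProd_dl N _ v hv)).1 = Pi.single c₀ (P.β u v) := by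
  funext c
  rw [PData.bil_apply, LProd_dl_coe, LProd_dl_coe]
  by_cases h : c = c₀
  · subst h
    rw [Pi.single_eq_same, Pi.single_eq_same, Pi.single_eq_same]
  · rw [Pi.single_eq_of_ne h]
    by_cases ha : c ∘ P.a = c₀ ∘ P.a
    · rw [Pi.single_eq_of_ne (P.comp_ne h ha), map_zero]
    · rw [Pi.single_eq_of_ne ha, map_zero, LinearMap.zero_apply]

open Classical in
private theorem LProd_tensor_zero {ι₁ ι : Type} [Fintype ι₁] [Fintype ι] {H₁ H : Type u}
    [AddCommGroup H₁] [Module k H₁] [AddCommGroup H] [Module k H]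
    (y : (ι₁ → H₁) ⊗[k] (ι → H))
    (hy : ∀ (i : ι₁) (j : ι), TensorProduct.map (LinearMap.proj i : (ι₁ → H₁) →ₗ[k] H₁)
      (LinearMap.proj j : (ι → H) →ₗ[k] H) y = 0) : y = 0 := by
  have key : ∀ y : (ι₁ → H₁) ⊗[k] (ι → H), y = ∑ i, ∑ j,
      TensorProduct.map (LinearMap.single k (fun _ : ι₁ => H₁) i)
        (LinearMap.single k (fun _ : ι => H) j)
        (TensorProduct.map (LinearMap.proj i : (ι₁ → H₁) →ₗ[k] H₁)
          (LinearMap.proj j : (ι → H) →ₗ[k] H) y) := by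
    intro y
    induction y using TensorProduct.induction_on with
    | zero => simp
    | add a b ha hb =>
      simp only [map_add, Finset.sum_add_distrib]
      rw [← ha, ← hb]
    | tmul f g =>
      simp only [TensorProduct.map_tmul, LinearMap.coe_proj, Function.eval,
        LinearMap.coe_single]
      simp only [← TensorProduct.tmul_sum, ← TensorProduct.sum_tmul]
      rw [Finset.univ_sum_single, Finset.univ_sum_single]
  rw [key y]
  refine Finset.sum_eq_zero fun i _ => Finset.sum_eq_zero fun j _ => ?_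
  rw [hy i j, map_zero]

/-- The space of families of a product is the tensor product of the spaces of families.

Proof. Define `Φ (f ⊗ g) c = β (f (c ∘ a)) (g (c ∘ b))` (`TensorProduct.lift` of a bilinear map
`N₁.V → N.V → N₂.V`; the value is in `N₂.N c` by `hP`).
Surjective: for `c₀`, `u ∈ N₁.N (c₀ ∘ a)`, `v ∈ N.N (c₀ ∘ b)` the families `δ u = Pi.single`
(value `u` at `c₀ ∘ a`, zero elsewhere) and `δ v` are in `N₁.V`, `N.V`, and
`Φ (δ u ⊗ δ v)` is the family with value `β u v` at `c₀` and zero elsewhere: for `c ≠ c₀` one has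
`c ∘ a ≠ c₀ ∘ a` or `c ∘ b ≠ c₀ ∘ b`, since `Sum.elim a b` is surjective. Every `f ∈ N₂.V` is the
(finite) sum over `c₀` of the families with value `f c₀ ∈ N₂.N c₀` at `c₀`, and `N₂.N c₀` is
spanned by the `β u v`.
Injective: let `x ∈ N₁.V ⊗ N.V`, `Φ x = 0`. For `c₁ : ι₁ → Fin 3`, `c' : ι → Fin 3` let
`e (c₁, c') : N₁.V ⊗ N.V → E₁.H ⊗ E.H` be `TensorProduct.map (f ↦ f c₁) (g ↦ g c')`. There is `c`
with `c ∘ a = c₁`, `c ∘ b = c'` (`Sum.elim a b` is bijective), and
`(Φ x) c = TensorProduct.lift β (e (c₁, c') x)`, so `e (c₁, c') x = 0` for all `c₁, c'`, by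
`P.inj`. Now `N₁.V ⊗ N.V → (∏ E₁.H) ⊗ (∏ E.H)` is injective (`TensorProduct.map` of injective maps
over a field, e.g. `Module.Flat`), and an element of `(∏ E₁.H) ⊗ (∏ E.H)` (finite products) all
of whose components in `E₁.H ⊗ E.H` vanish is zero: `y = ∑ (c₁, c'), (single c₁ ⊗ single c')
(proj c₁ ⊗ proj c') y` (check on pure tensors). -/
theorem PData.exists_equiv [Fintype ι₁] [Fintype ι] (P : PData E₁ E E₂) {N₁ : Lat E₁}
    {N : Lat E} {N₂ : Lat E₂} (hP : P.IsProd N₁ N N₂) :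
    ∃ Φ : (N₁.V ⊗[k] N.V) ≃ₗ[k] N₂.V, ∀ (f : N₁.V) (g : N.V) (c : ι₂ → Fin 3),
      (Φ (f ⊗ₜ g)).1 c = P.β (f.1 (c ∘ P.a)) (g.1 (c ∘ P.b)) := by
  classical
  have : Fintype ι₂ := Fintype.ofBijective _ P.bij
  have hinj : Function.Injective (TensorProduct.lift (P.bil hP)) := by
    refine (injective_iff_map_eq_zero _).2 fun x hx => ?_
    have hψ := TensorProduct.map_injective_of_flat_flat N₁.V.subtype N.V.subtype
      N₁.V.subtype_injective N.V.subtype_injective
    refine hψ ?_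
    rw [map_zero]
    refine LProd_tensor_zero _ fun c₁ c' => ?_
    obtain ⟨c, rfl, rfl⟩ := P.exists_comp c₁ c'
    have h1 : ∀ z : N₁.V ⊗[k] N.V, (TensorProduct.lift (P.bil hP) z).1 c =
        TensorProduct.lift P.β (TensorProduct.map
          (LinearMap.proj (c ∘ P.a) : ((ι₁ → Fin 3) → E₁.H) →ₗ[k] E₁.H)
          (LinearMap.proj (c ∘ P.b) : ((ι → Fin 3) → E.H) →ₗ[k] E.H)
          (TensorProduct.map N₁.V.subtype N.V.subtype z)) := by
      intro z
      induction z using TensorProduct.induction_on with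
      | zero => simp
      | add a b ha hb =>
        rw [map_add, map_add, map_add, map_add, ← ha, ← hb]
        rfl
      | tmul f g => rfl
    refine P.inj ?_
    rw [← h1 x, hx, map_zero]
    rfl
  have hsurj : Function.Surjective (TensorProduct.lift (P.bil hP)) := by
    intro f
    set S : Submodule k ((ι₂ → Fin 3) → E₂.H) :=
      (LinearMap.range (TensorProduct.lift (P.bil hP))).map N₂.V.subtype with hS
    have h1 : ∀ c₀ : ι₂ → Fin 3, N₂.N c₀ ≤ S.comap (LinearMap.single k (fun _ => E₂.H) c₀) := by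
      intro c₀
      rw [hP c₀]
      refine Submodule.span_le.2 ?_
      rintro x ⟨u, hu, v, hv, rfl⟩
      refine ⟨_, ⟨LProd_dl N₁ _ u hu ⊗ₜ LProd_dl N _ v hv, rfl⟩, ?_⟩
      refine (P.bil_dl hP c₀ u hu v hv).trans ?_
      rw [LinearMap.coe_single]
      congr 1
      exact Subsingleton.elim _ _
    have h2 : f.1 ∈ S := by
      rw [← Finset.univ_sum_single f.1]
      exact Submodule.sum_mem _ fun c₀ _ => h1 c₀ (f.2 c₀)
    obtain ⟨y, ⟨z, hz⟩, hy⟩ := h2
    refine ⟨z, Subtype.ext ?_⟩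
    rw [hz]
    exact hy
  exact ⟨LinearEquiv.ofBijective _ ⟨hinj, hsurj⟩, fun f g c => rfl⟩

/-- The actions in the factors of `E₁`.

Proof. `(slotE E₂ (a i) x F) c = ∑ d, E₂.act (a i) (x (c (a i)) d) (F (update c (a i) d))`, and
`update c (a i) d ∘ a = update (c ∘ a) i d` (`a` is injective),
`update c (a i) d ∘ b = c ∘ b` (`a i` is not in the image of `b`). Use `P.act1`. -/
theorem PData.slot1 (P : PData E₁ E E₂) (i : ι₁) (x : Matrix (Fin 3) (Fin 3) D.L)
    (f : (ι₁ → Fin 3) → E₁.H) (g : (ι → Fin 3) → E.H) :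
    Lat.slotE E₂ (P.a i) x (fun c => P.β (f (c ∘ P.a)) (g (c ∘ P.b))) =
      fun c => P.β (Lat.slotE E₁ i x f (c ∘ P.a)) (g (c ∘ P.b)) := by
  funext c
  rw [Lat.slotE_apply, Lat.slotE_apply, map_sum, LinearMap.sum_apply]
  refine Finset.sum_congr rfl fun d _ => ?_
  rw [P.act1, Function.update_comp_eq_of_injective _ P.a_inj,
    Function.update_comp_eq_of_forall_ne _ _ fun j => (P.a_ne_b i j).symm]
  rfl

/-- The actions in the factors of `E`. -/
theorem PData.slot2 (P : PData E₁ E E₂) (i : ι) (x : Matrix (Fin 3) (Fin 3) D.L)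
    (f : (ι₁ → Fin 3) → E₁.H) (g : (ι → Fin 3) → E.H) :
    Lat.slotE E₂ (P.b i) x (fun c => P.β (f (c ∘ P.a)) (g (c ∘ P.b))) =
      fun c => P.β (f (c ∘ P.a)) (Lat.slotE E i x g (c ∘ P.b)) := by
  funext c
  rw [Lat.slotE_apply, Lat.slotE_apply, map_sum]
  refine Finset.sum_congr rfl fun d _ => ?_
  rw [P.act2, Function.update_comp_eq_of_injective _ P.b_inj,
    Function.update_comp_eq_of_forall_ne _ _ fun j => P.a_ne_b j i]
  rfl

end Pool.Agent.MP_6e5bed_ag_KC
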