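import Pool.Agent.Lib.MP_6e5bed_ag_KC.LRdx
import Pool.Agent.Lib.MP_6e5bed_ag_KC.LKill
import Pool.Agent.Lib.MP_6e5bed_ag_KC.LKillD
import Pool.Agent.Lib.MP_6e5bed_ag_KC.KT

set_option autoImplicit false
set_option linter.unusedSectionVars false

/-!
# The additive function of lattices with values in the endomorphisms (project KC, part B5)
-/

namespace Pool.Agent.MP_6e5bed_ag_KC

open RatFunc Equiv CategoryTheory MonoidalCategory
open Pool.Agent.MP_6e5bed_ag_NC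
open Pool.Agent.MP_6e5bed_ag

universe u

variable {k : Type u} [Field k] {D : FExt k} {F : LSp D} (V : LP k F.F) (hV : BSt V)
  (hsm : Smooth (endCosp V).cech) (hpr : Proper (endCosp V).cech)

/-- The dg algebra `(endCosp V).cech` as an object. -/
noncomputable abbrev TS : SP k := ⟨(endCosp V).cech, hsm, hpr⟩

/-- The class of a lattice between two endomorphisms. -/
noncomputable def sw (ul ur : TS V hsm hpr ⟶ TS V hsm hpr) {p q : ℕ}
    {E : LSys D (Fin p ⊕ Fin q)} (N : Lat E) :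
    pwS (TS V hsm hpr) p ⟶ pwS (TS V hsm hpr) q :=
  swA (T := TS V hsm hpr) ul ur (lcl V hV N)

section

variable (ul ur : TS V hsm hpr ⟶ TS V hsm hpr) {p q : ℕ}

theorem sw_reindexL {E : LSys D (Fin p ⊕ Fin q)} (N : Lat E) (i : ℕ) (h : i + 1 < p) :
    sw V hV hsm hpr ul ur (N.reindex (Equiv.sumCongr
      (swap ⟨i, (Nat.lt_succ_self i).trans h⟩ ⟨i + 1, h⟩) (Equiv.refl (Fin q)))) =
      aS (TS V hsm hpr) p i ≫ sw V hV hsm hpr ul ur N :=
  (congrArg (swA (T := TS V hsm hpr) ul ur) (lcl_reindexL V hV N i h)).trans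
    (swA_adjL (T := TS V hsm hpr) ul ur (lcl V hV N) i h)

theorem sw_reindexR {E : LSys D (Fin p ⊕ Fin q)} (N : Lat E) (i : ℕ) (h : i + 1 < q) :
    sw V hV hsm hpr ul ur (N.reindex (Equiv.sumCongr (Equiv.refl (Fin p))
      (swap ⟨i, (Nat.lt_succ_self i).trans h⟩ ⟨i + 1, h⟩))) =
      sw V hV hsm hpr ul ur N ≫ aS (TS V hsm hpr) q i :=
  (congrArg (swA (T := TS V hsm hpr) ul ur) (lcl_reindexR V hV N i h)).trans
    (swA_adjR (T := TS V hsm hpr) ul ur (lcl V hV N) i h)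

theorem sw_iso {E E' : LSys D (Fin p ⊕ Fin q)} (N : Lat E) (N' : Lat E')
    (f : E.H →ₗ[k] E'.H) (hf : Function.Injective f)
    (he : ∀ i a m, f (E.act i a m) = E'.act i a (f m)) (hN : ∀ c, N'.N c = (N.N c).map f) :
    sw V hV hsm hpr ul ur N = sw V hV hsm hpr ul ur N' := by
  have h1 : lcl V hV N = lcl V hV N' :=
    ecl_iso ((Cc (ZL V hV) (ZR V) p q).biso (N.acts_iso N' f hf he hN Sum.inl Sum.inr
      Sum.inl_injective Sum.inr_injective fun _ _ => Sum.inl_ne_inr))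
  exact congrArg (swA (T := TS V hsm hpr) ul ur) h1

theorem sw_add {E E' : LSys D (Fin p ⊕ Fin q)} (N : Lat E) (N' : Lat E') (hN : N.FG)
    (hN' : N'.FG) : sw V hV hsm hpr ul ur (N.prod N') =
      sw V hV hsm hpr ul ur N + sw V hV hsm hpr ul ur N' := by
  have h1 : lcl V hV (N.prod N') = lcl V hV N + lcl V hV N' :=
    (lbim_ex V hV p q).ecl_ses (N.acts_prod N' Sum.inl Sum.inr Sum.inl_injective
      Sum.inr_injective fun _ _ => Sum.inl_ne_inr) (N.hasRes V hV hsm hN) (N'.hasRes V hV hsm hN')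
  exact (congrArg (swA (T := TS V hsm hpr) ul ur) h1).trans
    (swA_add (T := TS V hsm hpr) ul ur (lcl V hV N) (lcl V hV N'))

end

/-- The characters of the point at infinity, and endomorphisms which are zero on the modules
at this point. -/
structure UData (P : Ideal (A1 D)) where
  χ : Gam D →ₐ[k] k
  χ' : Gam' D →ₐ[k] k
  hχ : IsChi P χ
  hχ' : IsChi' P χ'
  hS : ¬ Acyc (tb (ZL V hV) (kapL χ))
  hS' : ¬ Acyc (tb (kapR χ') (ZR V))
  rS : HasRes (tb (ZL V hV) (kapL χ))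
  rS' : HasRes (tb (kapR χ') (ZR V))
  ul : TS V hsm hpr ⟶ TS V hsm hpr
  ur : TS V hsm hpr ⟶ TS V hsm hpr
  hul : ul ≫ (ecl (tb (ZL V hV) (kapL χ)) : TS V hsm hpr ⟶ SP.base k) = 0
  hur : (ecl (tb (kapR χ') (ZR V)) : SP.base k ⟶ TS V hsm hpr) ≫ ur = 0

variable {P : Ideal (A1 D)} (hP : (⟨(tt D)⁻¹, tt_inv_mem_BB1 D⟩ : A1 D) ∈ P)
  (U : UData V hV hsm hpr P)

theorem sw_killL {p q : ℕ} (s : ℕ) : ∀ (hs : s < p) {E : LSys D (Fin p ⊕ Fin q)}
    (N' N : Lat E), N.FG → N'.FG → N' ≤ N → N.pp P hP (Sum.inl ⟨s, hs⟩) ≤ N' →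
      sw V hV hsm hpr U.ul U.ur N = sw V hV hsm hpr U.ul U.ur N' := by
  induction s with
  | zero =>
    intro hs E N' N hN hN' hle h
    obtain ⟨p', rfl⟩ : ∃ p', p = p' + 1 := ⟨p - 1, by omega⟩
    obtain ⟨Y, hY, h1⟩ := kill0L V hV hsm hP U.hχ U.hS N' N hN hN' hle h
    have h2 := (congrArg (swA (T := TS V hsm hpr) U.ul U.ur) h1).trans
      (swA_add (T := TS V hsm hpr) U.ul U.ur (lcl V hV N')
        (clL (T := TS V hsm hpr) (tb (ZL V hV) (kapL U.χ)) Y))
    rw [swA_insL (T := TS V hsm hpr) U.ul U.ur U.rS hY U.hul, add_zero] at h2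
    exact h2
  | succ s ih =>
    intro hs E N' N hN hN' hle h
    let e : Fin p ⊕ Fin q ≃ Fin p ⊕ Fin q := Equiv.sumCongr
      (swap ⟨s, (Nat.lt_succ_self s).trans hs⟩ ⟨s + 1, hs⟩) (Equiv.refl (Fin q))
    have he : e (Sum.inl ⟨s, (Nat.lt_succ_self s).trans hs⟩) = Sum.inl ⟨s + 1, hs⟩ :=
      congrArg Sum.inl (swap_apply_left _ _)
    have h1 := ih ((Nat.lt_succ_self s).trans hs) (N'.reindex e) (N.reindex e)
      (hN.reindex e) (hN'.reindex e) (Lat.reindex_mono e hle) (by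
        rw [Lat.reindex_pp, he]
        exact Lat.reindex_mono e h)
    rw [sw_reindexL V hV hsm hpr U.ul U.ur N s hs,
      sw_reindexL V hV hsm hpr U.ul U.ur N' s hs] at h1
    have h2 := congrArg (fun t => aS (TS V hsm hpr) p s ≫ t) h1
    simp only [← Category.assoc, aS_aS (T := TS V hsm hpr) p s hs, Category.id_comp] at h2
    exact h2

theorem sw_killR {p q : ℕ} (s : ℕ) : ∀ (hs : s < q) {E : LSys D (Fin p ⊕ Fin q)}
    (N' N : Lat E), N.FG → N'.FG → N' ≤ N → N.pp P hP (Sum.inr ⟨s, hs⟩) ≤ N' →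
      sw V hV hsm hpr U.ul U.ur N = sw V hV hsm hpr U.ul U.ur N' := by
  induction s with
  | zero =>
    intro hs E N' N hN hN' hle h
    obtain ⟨q', rfl⟩ : ∃ q', q = q' + 1 := ⟨q - 1, by omega⟩
    obtain ⟨Y, hY, h1⟩ := kill0R V hV hsm hP U.hχ' U.hS' N' N hN hN' hle h
    have h2 := (congrArg (swA (T := TS V hsm hpr) U.ul U.ur) h1).trans
      (swA_add (T := TS V hsm hpr) U.ul U.ur (lcl V hV N')
        (clR (T := TS V hsm hpr) (tb (kapR U.χ') (ZR V)) Y))
    rw [swA_insR (T := TS V hsm hpr) U.ul U.ur U.rS' hY U.hur, add_zero] at h2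
    exact h2
  | succ s ih =>
    intro hs E N' N hN hN' hle h
    let e : Fin p ⊕ Fin q ≃ Fin p ⊕ Fin q := Equiv.sumCongr (Equiv.refl (Fin p))
      (swap ⟨s, (Nat.lt_succ_self s).trans hs⟩ ⟨s + 1, hs⟩)
    have he : e (Sum.inr ⟨s, (Nat.lt_succ_self s).trans hs⟩) = Sum.inr ⟨s + 1, hs⟩ :=
      congrArg Sum.inr (swap_apply_left _ _)
    have h1 := ih ((Nat.lt_succ_self s).trans hs) (N'.reindex e) (N.reindex e)
      (hN.reindex e) (hN'.reindex e) (Lat.reindex_mono e hle) (by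
        rw [Lat.reindex_pp, he]
        exact Lat.reindex_mono e h)
    rw [sw_reindexR V hV hsm hpr U.ul U.ur N s hs,
      sw_reindexR V hV hsm hpr U.ul U.ur N' s hs] at h1
    have h2 := congrArg (fun t => t ≫ aS (TS V hsm hpr) q s) h1
    simp only [Category.assoc, aS_aS (T := TS V hsm hpr) q s hs, Category.comp_id] at h2
    exact h2

end Pool.Agent.MP_6e5bed_ag_KC
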