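import Pool.Agent.Lib.MP_6e5bed_ag_KC.LVal
import Pool.Agent.Lib.MP_6e5bed_ag_KC.OSwap
import Pool.Agent.Lib.MP_6e5bed_ag_KC.BTpow

set_option autoImplicit false
set_option linter.unusedSectionVars false

/-!
# The class of a lattice and permutations of the factors (project KC, part B5)
-/

namespace Pool.Agent.MP_6e5bed_ag_KC

open RatFunc Equiv
open Pool.Agent.MP_6e5bed_ag_NC

universe u

variable {k : Type u} [Field k] {D : FExt k} {F : LSp D} (V : LP k F.F) (hV : BSt V)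

theorem lcl_reindexL {p q : ℕ} {E : LSys D (Fin p ⊕ Fin q)} (N : Lat E) (i : ℕ) (h : i + 1 < p) :
    lcl V hV (N.reindex (Equiv.sumCongr (swap ⟨i, (Nat.lt_succ_self i).trans h⟩ ⟨i + 1, h⟩)
      (Equiv.refl (Fin q)))) =
      K0Q.res (adjD (endCosp V).cech p i) (DIso.refl (pw (endCosp V).cech q)) (lcl V hV N) := by
  let σ : Perm (Fin p) := swap ⟨i, (Nat.lt_succ_self i).trans h⟩ ⟨i + 1, h⟩
  let e : Fin p ⊕ Fin q ≃ Fin p ⊕ Fin q := Equiv.sumCongr σ (Equiv.refl (Fin q))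
  have e1 : BIso (N.bb.permL σ).bim (N.reindex e).bb.bim :=
    N.acts_reindex e Sum.inl Sum.inr Sum.inl_injective Sum.inr_injective
      (fun _ _ => Sum.inl_ne_inr) (e.injective.comp Sum.inl_injective)
      (e.injective.comp Sum.inr_injective) (fun _ _ => e.injective.ne Sum.inl_ne_inr)
  have e2 := N.bb.swapL i h
  have e3 := (Cc (ZL V hV) (ZR V) p q).biso (e2.trans e1)
  have e4 := Cc_adjL (ZL V hV) (ZR V) p q i N.bb.bim
  exact (ecl_iso (e3.symm.trans e4)).trans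
    (ecl_resIso (adjD (endCosp V).cech p i) (DIso.refl (pw (endCosp V).cech q)) _)

theorem lcl_reindexR {p q : ℕ} {E : LSys D (Fin p ⊕ Fin q)} (N : Lat E) (i : ℕ) (h : i + 1 < q) :
    lcl V hV (N.reindex (Equiv.sumCongr (Equiv.refl (Fin p))
      (swap ⟨i, (Nat.lt_succ_self i).trans h⟩ ⟨i + 1, h⟩))) =
      K0Q.res (DIso.refl (pw (endCosp V).cech p)) (adjD (endCosp V).cech q i) (lcl V hV N) := by
  let σ : Perm (Fin q) := swap ⟨i, (Nat.lt_succ_self i).trans h⟩ ⟨i + 1, h⟩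
  let e : Fin p ⊕ Fin q ≃ Fin p ⊕ Fin q := Equiv.sumCongr (Equiv.refl (Fin p)) σ
  have e1 : BIso (N.bb.permR σ).bim (N.reindex e).bb.bim :=
    N.acts_reindex e Sum.inl Sum.inr Sum.inl_injective Sum.inr_injective
      (fun _ _ => Sum.inl_ne_inr) (e.injective.comp Sum.inl_injective)
      (e.injective.comp Sum.inr_injective) (fun _ _ => e.injective.ne Sum.inl_ne_inr)
  have e2 := N.bb.swapR i h
  have e3 := (Cc (ZL V hV) (ZR V) p q).biso (e2.trans e1)
  have e4 := Cc_adjR (ZL V hV) (ZR V) p q i N.bb.bim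
  exact (ecl_iso (e3.symm.trans e4)).trans
    (ecl_resIso (DIso.refl (pw (endCosp V).cech p)) (adjD (endCosp V).cech q i) _)

theorem Lat.reindex_mono {ι : Type} [DecidableEq ι] (e : ι ≃ ι) {E : LSys D ι} {N N' : Lat E}
    (h : N ≤ N') : N.reindex e ≤ N'.reindex e := fun c => h (c ∘ e.symm)

theorem Lat.reindex_pp {ι : Type} [DecidableEq ι] (e : ι ≃ ι) {E : LSys D ι} (N : Lat E)
    (P : Ideal (A1 D)) (hP : (⟨(tt D)⁻¹, tt_inv_mem_BB1 D⟩ : A1 D) ∈ P) (i : ι) :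
    (N.reindex e).pp P hP i = (N.pp P hP (e i)).reindex e := by
  refine Lat.ext fun c => ?_
  change Submodule.span k {x | ∃ b ∈ pL P 1 (c i), ∃ m ∈ N.N (c ∘ e.symm), E.act (e i) b m = x} =
    Submodule.span k {x | ∃ b ∈ pL P 1 ((c ∘ e.symm) (e i)), ∃ m ∈ N.N (c ∘ e.symm),
      E.act (e i) b m = x}
  rw [Function.comp_apply, e.symm_apply_apply]

theorem Lat.FG.reindex {ι : Type} [DecidableEq ι] (e : ι ≃ ι) {E : LSys D ι} {N : Lat E}
    (h : N.FG) : (N.reindex e).FG := by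
  intro c
  obtain ⟨S, h1, h2⟩ := h (c ∘ e.symm)
  refine ⟨S, h1, fun m hm => ?_⟩
  have h3 : (E.reindex e).RR c = E.RR (c ∘ e.symm) := by
    change (⨆ i, (BB D (c i)).map (E.act (e i))) = ⨆ i, (BB D ((c ∘ e.symm) i)).map (E.act i)
    refine Eq.trans ?_ (e.surjective.iSup_comp fun i => (BB D ((c ∘ e.symm) i)).map (E.act i))
    refine iSup_congr fun i => ?_
    rw [Function.comp_apply, e.symm_apply_apply]
  have h4 := h2 m hm
  rw [← h3] at h4
  exact h4

end Pool.Agent.MP_6e5bed_ag_KC
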