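import Pool.Agent.Lib.MP_6e5bed_ag_KC.LLat

set_option autoImplicit false
set_option linter.unusedSectionVars false

/-!
# Project KC: submodules up to poles at `x₀`
-/

noncomputable section

namespace Pool.Agent.MP_6e5bed_ag_KC

open RatFunc
open Pool.Agent.MP_6e5bed_ag_NC
open scoped TensorProduct

universe u

variable {k : Type u} [Field k] {D : FExt k} (P : Ideal (A1 D))

theorem pL_anti {l m : ℕ} (h : l ≤ m) (c : Fin 3) : pL P m c ≤ pL P l c := by
  intro b hb
  by_cases hc : c = 1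
  · subst hc
    obtain ⟨a, ha, rfl⟩ := pL_one.1 hb
    exact pL_one.2 ⟨a, Ideal.pow_le_pow_right h ha, rfl⟩
  · exact (pL_ne hc).2 ((pL_ne hc).1 hb)

theorem pL_zero (c : Fin 3) : pL P 0 c = Subalgebra.toSubmodule (BB D c) := by
  refine le_antisymm (fun b hb => pL_le hb) fun b hb => ?_
  by_cases hc : c = 1
  · subst hc
    exact pL_one.2 ⟨⟨b, hb⟩, by rw [pow_zero, Ideal.one_eq_top]; exact Submodule.mem_top, rfl⟩
  · exact (pL_ne hc).2 hb

theorem pL_add (l m : ℕ) (c : Fin 3) : pL P (l + m) c = pL P l c * pL P m c := by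
  refine le_antisymm (fun b hb => ?_) (Submodule.mul_le.2 fun a ha b hb => pL_mul ha hb)
  by_cases hc : c = 1
  · subst hc
    obtain ⟨a, ha, rfl⟩ := pL_one.1 hb
    rw [pow_add] at ha
    refine Submodule.mul_induction_on (C := fun a => ((a : A1 D) : D.L) ∈ pL P l 1 * pL P m 1)
      ha (fun x hx y hy => ?_) (fun x y hx hy => ?_)
    · exact Submodule.mul_mem_mul (pL_one.2 ⟨x, hx, rfl⟩) (pL_one.2 ⟨y, hy, rfl⟩)
    · exact Submodule.add_mem _ hx hy
  · have h := (pL_ne hc).1 hb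
    have h1 : b * 1 ∈ pL P l c * pL P m c :=
      Submodule.mul_mem_mul ((pL_ne hc).2 h) ((pL_ne hc).2 (BB D c).one_mem)
    rwa [mul_one] at h1

variable {ι : Type} [Fintype ι] {K : Type u} [CommRing K] [Algebra k K]

/-- The functions on the product of the charts `c i`, as a subspace of `K`. -/
def RRm (z : ι → D.L →ₐ[k] K) (c : ι → Fin 3) : Submodule k K :=
  ∏ i, (Subalgebra.toSubmodule (BB D (c i))).map (z i).toLinearMap

/-- The product of the `l`-th powers of the ideals of `x₀` in all the factors. -/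
def PPm (z : ι → D.L →ₐ[k] K) (l : ℕ) (c : ι → Fin 3) : Submodule k K :=
  ∏ i, (pL P l (c i)).map (z i).toLinearMap

variable (z : ι → D.L →ₐ[k] K)

theorem PPm_zero (c : ι → Fin 3) : PPm P z 0 c = RRm z c :=
  Finset.prod_congr rfl fun i _ => by rw [pL_zero]

theorem PPm_anti {l m : ℕ} (h : l ≤ m) (c : ι → Fin 3) : PPm P z m c ≤ PPm P z l c :=
  Finset.prod_le_prod' fun i _ => Submodule.map_mono (pL_anti P h (c i))

theorem PPm_add (l m : ℕ) (c : ι → Fin 3) : PPm P z (l + m) c = PPm P z l c * PPm P z m c := by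
  unfold PPm
  rw [← Finset.prod_mul_distrib]
  exact Finset.prod_congr rfl fun i _ => by rw [pL_add]; exact Submodule.map_mul _ _ (z i)

theorem PPm_le (l : ℕ) (c : ι → Fin 3) : PPm P z l c ≤ RRm z c := by
  rw [← PPm_zero P]
  exact PPm_anti P z (Nat.zero_le l) c

theorem RRm_one (c : ι → Fin 3) : (1 : K) ∈ RRm z c := by
  have h : (1 : Submodule k K) ≤ RRm z c := by
    have h1 : ∏ _i : ι, (1 : Submodule k K) = 1 := Finset.prod_const_one
    rw [← h1]
    refine Finset.prod_le_prod' fun i _ => ?_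
    rw [Submodule.one_le]
    exact ⟨1, (BB D (c i)).one_mem, map_one (z i)⟩
  exact Submodule.one_le.1 h

theorem RRm_sq (c : ι → Fin 3) : RRm z c * RRm z c = RRm z c := by
  unfold RRm
  rw [← Finset.prod_mul_distrib]
  refine Finset.prod_congr rfl fun i _ => ?_
  rw [← Submodule.map_mul]
  exact congrArg _ (Subalgebra.isIdempotentElem_toSubmodule (BB D (c i)))

theorem RRm_mul {c : ι → Fin 3} {a b : K} (ha : a ∈ RRm z c) (hb : b ∈ RRm z c) :
    a * b ∈ RRm z c := by
  rw [← RRm_sq]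
  exact Submodule.mul_mem_mul ha hb

theorem mem_RRm (c : ι → Fin 3) (i : ι) {b : D.L} (hb : b ∈ BB D (c i)) : z i b ∈ RRm z c := by
  classical
  unfold RRm
  rw [← Finset.mul_prod_erase Finset.univ _ (Finset.mem_univ i), ← mul_one (z i b)]
  refine Submodule.mul_mem_mul ⟨b, hb, rfl⟩ ?_
  have h : (1 : Submodule k K) ≤ ∏ j ∈ Finset.univ.erase i,
      (Subalgebra.toSubmodule (BB D (c j))).map (z j).toLinearMap := by
    have h1 : ∏ _j ∈ Finset.univ.erase i, (1 : Submodule k K) = 1 := Finset.prod_const_one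
    rw [← h1]
    refine Finset.prod_le_prod' fun i _ => ?_
    rw [Submodule.one_le]
    exact ⟨1, (BB D (c i)).one_mem, map_one (z i)⟩
  exact Submodule.one_le.1 h

variable {H : Type u} [AddCommGroup H] [Module k H] [Module K H] [IsScalarTower k K H]

/-- The elements which are in `A` up to poles at `x₀`. -/
def sat (c : ι → Fin 3) (A : Submodule k H) : Submodule k H where
  carrier := {m | ∃ l : ℕ, ∀ p ∈ PPm P z l c, p • m ∈ A}
  add_mem' := by
    rintro a b ⟨l, hl⟩ ⟨m, hm⟩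
    refine ⟨max l m, fun p hp => ?_⟩
    rw [smul_add]
    exact A.add_mem (hl p (PPm_anti P z (le_max_left l m) c hp))
      (hm p (PPm_anti P z (le_max_right l m) c hp))
  zero_mem' := ⟨0, fun p _ => by rw [smul_zero]; exact A.zero_mem⟩
  smul_mem' := by
    rintro r a ⟨l, hl⟩
    exact ⟨l, fun p hp => by rw [smul_comm]; exact A.smul_mem r (hl p hp)⟩

variable {P z}

theorem mem_sat {c : ι → Fin 3} {A : Submodule k H} {m : H} :
    m ∈ sat P z c A ↔ ∃ l : ℕ, ∀ p ∈ PPm P z l c, p • m ∈ A := Iff.rfl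

theorem le_sat {c : ι → Fin 3} {A : Submodule k H} (hA : ∀ r ∈ RRm z c, ∀ m ∈ A, r • m ∈ A) :
    A ≤ sat P z c A := fun m hm => ⟨0, fun p hp => hA p (PPm_le P z 0 c hp) m hm⟩

theorem sat_mono {c : ι → Fin 3} {A B : Submodule k H} (h : A ≤ B) :
    sat P z c A ≤ sat P z c B := fun _ ⟨l, hl⟩ => ⟨l, fun p hp => h (hl p hp)⟩

theorem sat_smul {c : ι → Fin 3} {A : Submodule k K} {M : Submodule k H} {r : K} {m : H}
    (hr : r ∈ sat P z c A) (hm : m ∈ sat P z c M) : r • m ∈ sat P z c (A • M) := by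
  obtain ⟨l, hl⟩ := hr
  obtain ⟨l', hl'⟩ := hm
  refine ⟨l + l', fun p hp => ?_⟩
  rw [PPm_add] at hp
  refine Submodule.mul_induction_on (C := fun p => p • r • m ∈ A • M) hp
    (fun x hx y hy => ?_) (fun x y hx hy => ?_)
  · have e : (x * y) • r • m = (x • r) • (y • m) := by
      rw [smul_smul, smul_smul, smul_eq_mul]
      congr 1
      ring
    rw [e]
    exact Submodule.smul_mem_smul (hl x hx) (hl' y hy)
  · rw [add_smul]
    exact Submodule.add_mem _ hx hy

theorem sat_mul {c : ι → Fin 3} {A B : Submodule k K} {a b : K}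
    (ha : a ∈ sat P z c A) (hb : b ∈ sat P z c B) : a * b ∈ sat P z c (A * B) :=
  sat_smul ha hb

/-- `sat` is stable under the functions up to poles at `x₀`. -/
theorem sat_stable {c : ι → Fin 3} {A : Submodule k H}
    (hA : ∀ r ∈ RRm z c, ∀ m ∈ A, r • m ∈ A) {r : K} {m : H}
    (hr : r ∈ sat P z c (RRm z c)) (hm : m ∈ sat P z c A) : r • m ∈ sat P z c A :=
  sat_mono (Submodule.smul_le.2 hA) (sat_smul hr hm)

/-- Idempotence. -/
theorem sat_sat {c : ι → Fin 3} {A : Submodule k H} {G : Finset H}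
    (h : ∀ g ∈ G, g ∈ sat P z c A) : ∃ l : ℕ, ∀ g ∈ G, ∀ p ∈ PPm P z l c, p • g ∈ A := by
  classical
  choose! l hl using h
  exact ⟨G.sup l, fun g hg p hp => hl g hg p (PPm_anti P z (Finset.le_sup hg) c hp)⟩

end Pool.Agent.MP_6e5bed_ag_KC
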