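import Pool.Agent.Lib.MP_6e5bed_ag_KC.BB

set_option autoImplicit false
set_option linter.unusedSectionVars false

/-!
# Project KC: lattices on products of curves

`ι` is the set of the factors. A lattice `N` has a component `N c` for every choice `c` of charts
(one for each factor).
-/

namespace Pool.Agent.MP_6e5bed_ag_KC

open RatFunc
open Pool.Agent.MP_6e5bed_ag_NC

universe u

variable {k : Type u} [Field k]

/-- A vector space with commuting actions of the function field `L`, one for each `i : ι`. -/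
structure LSys (D : FExt k) (ι : Type) where
  H : Type u
  [grp : AddCommGroup H]
  [mod : Module k H]
  act : ι → D.L →ₐ[k] Module.End k H
  comm : ∀ i j a b, act i a * act j b = act j b * act i a

attribute [instance] LSys.grp LSys.mod

/-- The system given by an algebra `K` with `L`-valued points and a `K`-module. -/
noncomputable def LSys.ofAlg {D : FExt k} {ι : Type} {K : Type u} [CommRing K] [Algebra k K]
    (z : ι → D.L →ₐ[k] K) (H : Type u) [AddCommGroup H] [Module k H] [Module K H]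
    [IsScalarTower k K H] : LSys D ι where
  H := H
  act := fun i => (Algebra.lsmul k k H : K →ₐ[k] Module.End k H).comp (z i)
  comm := fun i j a b => by
    change (Algebra.lsmul k k H) (z i a) * (Algebra.lsmul k k H) (z j b) =
      (Algebra.lsmul k k H) (z j b) * (Algebra.lsmul k k H) (z i a)
    rw [← map_mul, ← map_mul, mul_comm]

variable {D : FExt k} {ι : Type} [DecidableEq ι]

theorem LSys.ofAlg_act {K : Type u} [CommRing K] [Algebra k K]
    (z : ι → D.L →ₐ[k] K) (H : Type u) [AddCommGroup H] [Module k H] [Module K H]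
    [IsScalarTower k K H] (i : ι) (b : D.L) (m : H) :
    ((LSys.ofAlg z H).act i b : Module.End k H) m = z i b • m := rfl

theorem LSys.act_act (E : LSys D ι) (i j : ι) (a b : D.L) (m : E.H) :
    E.act i a (E.act j b m) = E.act j b (E.act i a m) :=
  LinearMap.congr_fun (E.comm i j a b) m

theorem LSys.act_mul (E : LSys D ι) (i : ι) (a b : D.L) (m : E.H) :
    E.act i (a * b) m = E.act i a (E.act i b m) := by
  rw [map_mul]
  rfl

theorem LSys.act_one (E : LSys D ι) (i : ι) (m : E.H) : E.act i 1 m = m := by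
  rw [map_one]
  rfl

theorem LSys.act_tt (E : LSys D ι) (i : ι) (m : E.H) :
    E.act i (tt D) (E.act i (tt D)⁻¹ m) = m := by
  rw [← E.act_mul, mul_inv_cancel₀ (tt_ne_zero D), E.act_one]

theorem LSys.act_tt' (E : LSys D ι) (i : ι) (m : E.H) :
    E.act i (tt D)⁻¹ (E.act i (tt D) m) = m := by
  rw [← E.act_mul, inv_mul_cancel₀ (tt_ne_zero D), E.act_one]

/-- The operators on `H` given by the functions on the product of the charts `c i`. -/
noncomputable def LSys.RR (E : LSys D ι) (c : ι → Fin 3) : Subalgebra k (Module.End k E.H) :=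
  ⨆ i, (BB D (c i)).map (E.act i)

/-- Powers of `u` map the elements of a span to `Q` if they do so for the generators. -/
theorem LSys.loc_span (E : LSys D ι) (j : ι) (u : D.L) (G : Set E.H) (Q : Submodule k E.H)
    (hu : ∀ m ∈ Q, E.act j u m ∈ Q) (h : ∀ x ∈ G, ∃ n : ℕ, E.act j (u ^ n) x ∈ Q) {x : E.H}
    (hx : x ∈ Submodule.span k G) : ∃ n : ℕ, E.act j (u ^ n) x ∈ Q := by
  have hp : ∀ (l : ℕ), ∀ m ∈ Q, E.act j (u ^ l) m ∈ Q := by
    intro l
    induction l with
    | zero => intro m hm; rw [pow_zero, E.act_one]; exact hm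
    | succ l ih => intro m hm; rw [pow_succ', E.act_mul]; exact hu _ (ih m hm)
  refine Submodule.span_induction (p := fun x _ => ∃ n : ℕ, E.act j (u ^ n) x ∈ Q) ?_ ?_ ?_ ?_ hx
  · exact h
  · exact ⟨0, by rw [map_zero]; exact Q.zero_mem⟩
  · rintro x y - - ⟨n, hn⟩ ⟨m, hm⟩
    refine ⟨n + m, ?_⟩
    rw [map_add]
    refine Q.add_mem ?_ ?_
    · rw [add_comm, pow_add, E.act_mul]
      exact hp m _ hn
    · rw [pow_add, E.act_mul]
      exact hp n _ hm
  · rintro r x - ⟨n, hn⟩
    exact ⟨n, by rw [map_smul]; exact Q.smul_mem r hn⟩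

/-- A lattice: stable under the functions on the charts, with the right localizations. -/
structure Lat (E : LSys D ι) where
  N : (ι → Fin 3) → Submodule k E.H
  smul : ∀ (c : ι → Fin 3) (i : ι) (b : D.L), b ∈ BB D (c i) → ∀ m ∈ N c, E.act i b m ∈ N c
  mono : ∀ (c : ι → Fin 3) (i : ι), N c ≤ N (Function.update c i 2)
  loc0 : ∀ (c : ι → Fin 3) (i : ι), ∀ m ∈ N (Function.update c i 2),
    ∃ n : ℕ, E.act i (tt D ^ n) m ∈ N (Function.update c i 0)
  loc1 : ∀ (c : ι → Fin 3) (i : ι), ∀ m ∈ N (Function.update c i 2),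
    ∃ n : ℕ, E.act i ((tt D)⁻¹ ^ n) m ∈ N (Function.update c i 1)

namespace Lat

variable {E : LSys D ι}

@[ext] theorem ext {N N' : Lat E} (h : ∀ c, N.N c = N'.N c) : N = N' := by
  cases N
  cases N'
  congr
  exact funext h

/-- Finite generation of all the components. -/
def FG (N : Lat E) : Prop := ∀ c : ι → Fin 3, ∃ S : Finset E.H, (∀ s ∈ S, s ∈ N.N c) ∧
  ∀ m ∈ N.N c, m ∈ Submodule.span (E.RR c) (S : Set E.H)

instance : LE (Lat E) := ⟨fun N N' => ∀ c, N.N c ≤ N'.N c⟩

theorem le_def {N N' : Lat E} : N ≤ N' ↔ ∀ c, N.N c ≤ N'.N c := Iff.rfl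

theorem le_refl' (N : Lat E) : N ≤ N := fun _ => le_rfl

theorem le_trans' {N N' N'' : Lat E} (h : N ≤ N') (h' : N' ≤ N'') : N ≤ N'' :=
  fun c => (h c).trans (h' c)

/-- The sum of two lattices. -/
noncomputable def sup (N N' : Lat E) : Lat E where
  N := fun c => N.N c ⊔ N'.N c
  smul := fun c i b hb m hm => by
    obtain ⟨x, hx, y, hy, rfl⟩ := Submodule.mem_sup.1 hm
    rw [map_add]
    exact Submodule.add_mem_sup (N.smul c i b hb x hx) (N'.smul c i b hb y hy)
  mono := fun c i => sup_le_sup (N.mono c i) (N'.mono c i)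
  loc0 := fun c i m hm => by
    obtain ⟨x, hx, y, hy, rfl⟩ := Submodule.mem_sup.1 hm
    obtain ⟨n, hn⟩ := N.loc0 c i x hx
    obtain ⟨n', hn'⟩ := N'.loc0 c i y hy
    have ht : ∀ l : ℕ, tt D ^ l ∈ BB D (Function.update c i 0 i) := fun l => by
      rw [Function.update_self]
      exact Subalgebra.pow_mem _ (tt_mem_BB0 D) l
    refine ⟨n + n', ?_⟩
    rw [map_add]
    refine Submodule.add_mem_sup ?_ ?_
    · rw [add_comm, pow_add, E.act_mul]
      exact N.smul _ i _ (ht n') _ hn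
    · rw [pow_add, E.act_mul]
      exact N'.smul _ i _ (ht n) _ hn'
  loc1 := fun c i m hm => by
    obtain ⟨x, hx, y, hy, rfl⟩ := Submodule.mem_sup.1 hm
    obtain ⟨n, hn⟩ := N.loc1 c i x hx
    obtain ⟨n', hn'⟩ := N'.loc1 c i y hy
    have ht : ∀ l : ℕ, (tt D)⁻¹ ^ l ∈ BB D (Function.update c i 1 i) := fun l => by
      rw [Function.update_self]
      exact Subalgebra.pow_mem _ (tt_inv_mem_BB1 D) l
    refine ⟨n + n', ?_⟩
    rw [map_add]
    refine Submodule.add_mem_sup ?_ ?_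
    · rw [add_comm, pow_add, E.act_mul]
      exact N.smul _ i _ (ht n') _ hn
    · rw [pow_add, E.act_mul]
      exact N'.smul _ i _ (ht n) _ hn'

theorem le_sup_left' (N N' : Lat E) : N ≤ N.sup N' := fun _ => le_sup_left

theorem le_sup_right' (N N' : Lat E) : N' ≤ N.sup N' := fun _ => le_sup_right

end Lat

/-! ### A point at infinity -/

/-- The powers of the ideal of a point `x₀` at infinity: `P ^ l` on the chart `1`, all functions
on the charts `0` and `2` (which do not contain `x₀`). -/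
noncomputable def pL (P : Ideal (A1 D)) (l : ℕ) (c : Fin 3) : Submodule k D.L :=
  if c = 1 then
    { carrier := {b | ∃ a ∈ P ^ l, ((a : A1 D) : D.L) = b}
      add_mem' := by
        rintro _ _ ⟨a, ha, rfl⟩ ⟨b, hb, rfl⟩
        exact ⟨a + b, (P ^ l).add_mem ha hb, rfl⟩
      zero_mem' := ⟨0, (P ^ l).zero_mem, rfl⟩
      smul_mem' := by
        rintro r _ ⟨a, ha, rfl⟩
        refine ⟨⟨algebraMap k D.L r, (BB D 1).algebraMap_mem r⟩ * a, (P ^ l).mul_mem_left _ ha, ?_⟩
        rw [Algebra.smul_def]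
        rfl }
  else Subalgebra.toSubmodule (BB D c)

theorem pL_one {P : Ideal (A1 D)} {l : ℕ} {b : D.L} :
    b ∈ pL P l 1 ↔ ∃ a ∈ P ^ l, ((a : A1 D) : D.L) = b := by
  rw [pL, if_pos rfl]
  rfl

theorem pL_ne {P : Ideal (A1 D)} {l : ℕ} {c : Fin 3} (hc : c ≠ 1) {b : D.L} :
    b ∈ pL P l c ↔ b ∈ BB D c := by
  rw [pL, if_neg hc]
  rfl

theorem pL_le {P : Ideal (A1 D)} {l : ℕ} {c : Fin 3} {b : D.L} (h : b ∈ pL P l c) :
    b ∈ BB D c := by
  by_cases hc : c = 1
  · subst hc
    obtain ⟨a, -, rfl⟩ := pL_one.1 h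
    exact a.2
  · exact (pL_ne hc).1 h

theorem pL_mul {P : Ideal (A1 D)} {l m : ℕ} {c : Fin 3} {a b : D.L} (ha : a ∈ pL P l c)
    (hb : b ∈ pL P m c) : a * b ∈ pL P (l + m) c := by
  by_cases hc : c = 1
  · subst hc
    obtain ⟨a', ha', rfl⟩ := pL_one.1 ha
    obtain ⟨b', hb', rfl⟩ := pL_one.1 hb
    refine pL_one.2 ⟨a' * b', ?_, rfl⟩
    rw [pow_add]
    exact Ideal.mul_mem_mul ha' hb'
  · exact (pL_ne hc).2 ((BB D c).mul_mem ((pL_ne hc).1 ha) ((pL_ne hc).1 hb))

theorem pL_mul_left {P : Ideal (A1 D)} {l : ℕ} {c : Fin 3} {a b : D.L} (ha : a ∈ BB D c)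
    (hb : b ∈ pL P l c) : a * b ∈ pL P l c := by
  by_cases hc : c = 1
  · subst hc
    obtain ⟨b', hb', rfl⟩ := pL_one.1 hb
    exact pL_one.2 ⟨⟨a, ha⟩ * b', (P ^ l).mul_mem_left _ hb', rfl⟩
  · exact (pL_ne hc).2 ((BB D c).mul_mem ha ((pL_ne hc).1 hb))

/-- The submodules `P_i N`. -/
noncomputable def Lat.ppN {E : LSys D ι} (P : Ideal (A1 D)) (N : Lat E) (i : ι)
    (c : ι → Fin 3) : Submodule k E.H :=
  Submodule.span k {x | ∃ b ∈ pL P 1 (c i), ∃ m ∈ N.N c, E.act i b m = x}

theorem Lat.ppN_smul {E : LSys D ι} (P : Ideal (A1 D)) (N : Lat E) (i : ι) (c : ι → Fin 3)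
    (j : ι) (b : D.L) (hb : b ∈ BB D (c j)) (m : E.H) (hm : m ∈ N.ppN P i c) :
    E.act j b m ∈ N.ppN P i c := by
  refine Submodule.span_induction (p := fun m _ => E.act j b m ∈ N.ppN P i c) ?_ ?_ ?_ ?_ hm
  · rintro _ ⟨a, ha, m, hm, rfl⟩
    rw [E.act_act]
    exact Submodule.subset_span ⟨a, ha, _, N.smul c j b hb m hm, rfl⟩
  · rw [map_zero]
    exact Submodule.zero_mem _
  · intro x y _ _ hx hy
    rw [map_add]
    exact Submodule.add_mem _ hx hy
  · intro r x _ hx
    rw [map_smul]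
    exact Submodule.smul_mem _ r hx

/-- The lattice `P_i N`. -/
noncomputable def Lat.pp {E : LSys D ι} (P : Ideal (A1 D))
    (hP : (⟨(tt D)⁻¹, tt_inv_mem_BB1 D⟩ : A1 D) ∈ P) (N : Lat E) (i : ι) : Lat E where
  N := N.ppN P i
  smul := N.ppN_smul P i
  mono := fun c j => by
    refine Submodule.span_le.2 ?_
    rintro _ ⟨a, ha, m, hm, rfl⟩
    refine Submodule.subset_span ⟨a, ?_, m, N.mono c j hm, rfl⟩
    by_cases hij : i = j
    · subst hij
      rw [Function.update_self]
      exact (pL_ne (by decide)).2 (BB_le D _ (pL_le ha))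
    · rw [Function.update_of_ne hij]
      exact ha
  loc0 := fun c j m hm => by
    refine E.loc_span j (tt D) _ _ (fun m hm => N.ppN_smul P i _ j _ ?_ m hm) ?_ hm
    · rw [Function.update_self]
      exact tt_mem_BB0 D
    rintro _ ⟨a, ha, m, hm, rfl⟩
    by_cases hij : i = j
    · subst hij
      have h1 := N.smul _ i a (pL_le ha) m hm
      obtain ⟨n, hn⟩ := N.loc0 c i _ h1
      refine ⟨n, Submodule.subset_span ⟨1, ?_, _, hn, E.act_one i _⟩⟩
      rw [Function.update_self]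
      exact (pL_ne (by decide)).2 (BB D 0).one_mem
    · obtain ⟨n, hn⟩ := N.loc0 c j m hm
      refine ⟨n, Submodule.subset_span ⟨a, ?_, _, hn, E.act_act _ _ _ _ _⟩⟩
      rw [Function.update_of_ne hij] at ha ⊢
      exact ha
  loc1 := fun c j m hm => by
    refine E.loc_span j (tt D)⁻¹ _ _ (fun m hm => N.ppN_smul P i _ j _ ?_ m hm) ?_ hm
    · rw [Function.update_self]
      exact tt_inv_mem_BB1 D
    rintro _ ⟨a, ha, m, hm, rfl⟩
    by_cases hij : i = j
    · subst hij
      have h1 := N.smul _ i a (pL_le ha) m hm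
      obtain ⟨n, hn⟩ := N.loc1 c i _ h1
      refine ⟨n + 1, Submodule.subset_span ⟨(tt D)⁻¹, ?_, _, hn, ?_⟩⟩
      · rw [Function.update_self]
        refine pL_one.2 ⟨⟨(tt D)⁻¹, tt_inv_mem_BB1 D⟩, ?_, rfl⟩
        rw [pow_one]
        exact hP
      · rw [pow_succ', E.act_mul]
    · obtain ⟨n, hn⟩ := N.loc1 c j m hm
      refine ⟨n, Submodule.subset_span ⟨a, ?_, _, hn, E.act_act _ _ _ _ _⟩⟩
      rw [Function.update_of_ne hij] at ha ⊢
      exact ha

/-- `N` is contained in `N'` up to the `l`-th powers of the ideals of `x₀`. -/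
def Lat.Cm [Fintype ι] {E : LSys D ι} (P : Ideal (A1 D)) (l : ℕ) (N N' : Lat E) : Prop :=
  ∀ (c : ι → Fin 3) (b : ι → D.L), (∀ i, b i ∈ pL P l (c i)) → ∀ m ∈ N.N c,
    ((Finset.univ : Finset ι).noncommProd (fun i => E.act i (b i))
      (fun i _ j _ _ => E.comm i j (b i) (b j)) : Module.End k E.H) m ∈ N'.N c

end Pool.Agent.MP_6e5bed_ag_KC
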