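import Pool.Agent.Lib.MP_6e5bed_ag_KC.VPtC
import Pool.Agent.Lib.MP_6e5bed_ag_KC.VDom

set_option autoImplicit false

/-!
# Project KC: the rings of functions on the powers of a pointed curve

`C.RT n` is `B ⊗ (B ⊗ (⋯ ⊗ k))`, with the points `C.pt n i : B → C.RT n`; `C.RR n = RT n ⊗ RT n`
with the `2 n` points `C.px n i`, `C.py n i`.
-/

noncomputable section

namespace Pool.Agent.MP_6e5bed_ag_KC

open scoped TensorProduct

universe u

/-- A commutative algebra. -/
structure CAlg (k : Type u) [Field k] where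
  A : Type u
  [cr : CommRing A]
  [alg : Algebra k A]

attribute [instance] CAlg.cr CAlg.alg

variable {k : Type u} [Field k] (C : PtCurve k)

/-- The ring `B ⊗ (B ⊗ (⋯ ⊗ k))`. -/
def PtCurve.RT : ℕ → CAlg k
  | 0 => ⟨k⟩
  | n + 1 => ⟨C.B ⊗[k] (PtCurve.RT n).A⟩

/-- The points of `RT n`. -/
def PtCurve.pt : (n : ℕ) → Fin n → C.Pt (C.RT n).A
  | 0 => fun i => i.elim0
  | n + 1 => Fin.cons Algebra.TensorProduct.includeLeft
      fun i => Algebra.TensorProduct.includeRight.comp (PtCurve.pt n i)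

theorem PtCurve.pt_zero (n : ℕ) : C.pt (n + 1) 0 = Algebra.TensorProduct.includeLeft := rfl

theorem PtCurve.pt_succ (n : ℕ) (i : Fin n) :
    C.pt (n + 1) i.succ = Algebra.TensorProduct.includeRight.comp (C.pt n i) := rfl

/-- Points with values in `S` give a homomorphism `RT n → S`. -/
theorem PtCurve.exists_hom {S : Type u} [CommRing S] [Algebra k S] :
    ∀ (n : ℕ) (p : Fin n → C.Pt S), ∃ ρ : (C.RT n).A →ₐ[k] S, ∀ i, ρ.comp (C.pt n i) = p i
  | 0, _ => ⟨Algebra.ofId k S, fun i => i.elim0⟩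
  | n + 1, p => by
    obtain ⟨ρ, hρ⟩ := PtCurve.exists_hom n fun i => p i.succ
    let Φ : C.B ⊗[k] (C.RT n).A →ₐ[k] S :=
      Algebra.TensorProduct.lift (p 0) ρ fun _ _ => Commute.all _ _
    refine ⟨Φ, fun i => ?_⟩
    refine Fin.cases ?_ (fun i => ?_) i
    · refine AlgHom.ext fun b => ?_
      change Φ (b ⊗ₜ[k] (1 : (C.RT n).A)) = p 0 b
      rw [Algebra.TensorProduct.lift_tmul, map_one, mul_one]
    · refine AlgHom.ext fun b => ?_
      change Φ ((1 : C.B) ⊗ₜ[k] (C.pt n i b)) = p i.succ b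
      rw [Algebra.TensorProduct.lift_tmul, map_one, one_mul, ← hρ i]
      rfl

instance RT_ft : ∀ n : ℕ, Algebra.FiniteType k (C.RT n).A
  | 0 => inferInstanceAs (Algebra.FiniteType k k)
  | n + 1 => by
    have h1 : Algebra.FiniteType k (C.RT n).A := RT_ft n
    have h2 : Algebra.FiniteType (C.RT n).A ((C.RT n).A ⊗[k] C.B) := inferInstance
    have h3 : Algebra.FiniteType k ((C.RT n).A ⊗[k] C.B) := Algebra.FiniteType.trans h1 h2
    exact h3.equiv (Algebra.TensorProduct.comm k (C.RT n).A C.B)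

instance RT_dom [IsAlgClosed k] : ∀ n : ℕ, IsDomain (C.RT n).A
  | 0 => inferInstanceAs (IsDomain k)
  | n + 1 => by
    have h1 : IsDomain (C.RT n).A := RT_dom n
    exact tensor_domain C.B (C.RT n).A

/-- The ring of functions on `C^n × C^n` (affine parts). -/
abbrev PtCurve.RR (n : ℕ) : Type u := (C.RT n).A ⊗[k] (C.RT n).A

instance RR_dom [IsAlgClosed k] (n : ℕ) : IsDomain (C.RR n) :=
  tensor_domain (C.RT n).A (C.RT n).A

instance RR_ft (n : ℕ) : Algebra.FiniteType k (C.RR n) :=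
  Algebra.FiniteType.trans (RT_ft C n)
    (inferInstance : Algebra.FiniteType (C.RT n).A ((C.RT n).A ⊗[k] (C.RT n).A))

/-- The first `n` points. -/
def PtCurve.px (n : ℕ) (i : Fin n) : C.Pt (C.RR n) :=
  Algebra.TensorProduct.includeLeft.comp (C.pt n i)

/-- The last `n` points. -/
def PtCurve.py (n : ℕ) (i : Fin n) : C.Pt (C.RR n) :=
  Algebra.TensorProduct.includeRight.comp (C.pt n i)

theorem PtCurve.exists_hom2 {S : Type u} [CommRing S] [Algebra k S] (n : ℕ)
    (p : Fin n ⊕ Fin n → C.Pt S) :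
    ∃ ρ : C.RR n →ₐ[k] S, ∀ i, ρ.comp (Sum.elim (C.px n) (C.py n) i) = p i := by
  obtain ⟨ρ, hρ⟩ := C.exists_hom n fun i => p (Sum.inl i)
  obtain ⟨τ, hτ⟩ := C.exists_hom n fun i => p (Sum.inr i)
  let Φ : (C.RT n).A ⊗[k] (C.RT n).A →ₐ[k] S :=
    Algebra.TensorProduct.lift ρ τ fun _ _ => Commute.all _ _
  refine ⟨Φ, fun i => ?_⟩
  rcases i with i | i
  · refine AlgHom.ext fun b => ?_
    change Φ (C.pt n i b ⊗ₜ[k] (1 : (C.RT n).A)) = p (Sum.inl i) b
    rw [Algebra.TensorProduct.lift_tmul, map_one, mul_one, ← hρ i]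
    rfl
  · refine AlgHom.ext fun b => ?_
    change Φ ((1 : (C.RT n).A) ⊗ₜ[k] C.pt n i b) = p (Sum.inr i) b
    rw [Algebra.TensorProduct.lift_tmul, map_one, one_mul, ← hτ i]
    rfl

/-- The `2 n` points are pairwise distinct. -/
theorem PtCurve.pts_inj [IsAlgClosed k] (n : ℕ) :
    Function.Injective (Sum.elim (C.px n) (C.py n)) := by
  classical
  intro i j hij
  by_contra hne
  obtain ⟨c, hc⟩ := C.exists_pts 2
  obtain ⟨ρ, hρ⟩ := C.exists_hom2 n fun l => if l = i then c 0 else c 1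
  have h1 := hρ i
  rw [hij, hρ j, if_pos rfl, if_neg (fun h => hne h.symm)] at h1
  exact absurd (hc h1) (by decide)

/-- The `2 n` points are not constant. -/
theorem PtCurve.pts_ne_cst [IsAlgClosed k] (n : ℕ) (i : Fin n ⊕ Fin n) (p : C.Pt k) :
    Sum.elim (C.px n) (C.py n) i ≠ C.cst p := by
  intro h
  obtain ⟨c, hc⟩ := C.exists_pts 2
  have h1 : ∀ q : C.Pt k, q = p := by
    intro q
    obtain ⟨ρ, hρ⟩ := C.exists_hom2 n fun _ => q
    have h2 := hρ i
    rw [h] at h2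
    rw [← h2]
    refine AlgHom.ext fun b => ?_
    change ρ (algebraMap k (C.RR n) (p b)) = p b
    rw [ρ.commutes]
    rfl
  exact absurd (hc ((h1 (c 0)).trans (h1 (c 1)).symm)) (by decide)

end Pool.Agent.MP_6e5bed_ag_KC
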