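import Pool.Agent.Lib.MP_6e5bed_ag_KC.PI
import Pool.Agent.Lib.MP_6e5bed_ag_KC.RN

set_option autoImplicit false

/-!
# The permanent identity for the ring of functions on `C^n × C^n`
-/

namespace Pool.Agent.MP_6e5bed_ag_KC

open scoped TensorProduct
open Equiv

universe u v

/-- The permanent identity for `RT n ⊗ RT n` with its `2 n` points. -/
theorem permanent_RR {k : Type u} [Field k] [IsAlgClosed k] (C : PtCurve k) :
    ∃ (J : ℕ) (c : Fin (J + 1) → ℚ) (n : ℕ), 0 < n ∧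
      (∑ j, c j) = 0 ∧ (∑ j : Fin (J + 1), ((j : ℕ) : ℚ) * c j) = -1 ∧
        ∃ (hp : ∀ (σ : Perm (Fin n)) (κ : Fin n → Fin (J + 1)),
            Module.Projective (C.RR n) (C.prodIdeal (C.px n) (C.py n) σ κ))
          (hf : ∀ (σ : Perm (Fin n)) (κ : Fin n → Fin (J + 1)),
            Module.Finite (C.RR n) (C.prodIdeal (C.px n) (C.py n) σ κ)),
          ∀ (V : Type v) [AddCommGroup V] [Module ℚ V] (χ : AddFun (C.RR n) V),
            ∑ σ : Perm (Fin n), ∑ κ : Fin n → Fin (J + 1), (∏ i, c (κ i)) •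
              (haveI := hp σ κ; haveI := hf σ κ;
                χ.f (C.prodIdeal (C.px n) (C.py n) σ κ)) = 0 := by
  obtain ⟨J, c, n, hn, h1, h2, h⟩ := permanent_identity.{u, v} C
  exact ⟨J, c, n, hn, h1, h2, h (C.RR n) (C.px n) (C.py n) (C.pts_inj n)
    (fun i p => C.pts_ne_cst n (Sum.inl i) p) fun i p => C.pts_ne_cst n (Sum.inr i) p⟩

end Pool.Agent.MP_6e5bed_ag_KC
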