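import Pool.Agent.Lib.MP_6e5bed_ag_CV.StFinal

set_option autoImplicit false
set_option linter.unusedSectionVars false

/-!
# Noncommutative projective curves: Kimura-finiteness over every field, in every model
-/

namespace Pool.Agent.MP_6e5bed_ag_SP

open CategoryTheory MonoidalCategory Pool.Agent.MP_6e5bed_ag Pool.Agent.MP_6e5bed_ag_NC

universe u

variable {k : Type u} [Field k] {A0 A1 A01 T : Type u} [Ring A0] [Algebra k A0] [Ring A1]
  [Algebra k A1] [Ring A01] [Algebra k A01] [Ring T] [Algebra k T] {r0 : A0 →ₐ[k] A01}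
  {r1 : A1 →ₐ[k] A01} {t : A0} {s : A1} {X : DG k T} {e : T ≃ₗ[k] (A0 × A1) × A01}
  {C : Type (u + 1)} [Category.{u + 1} C] [MonoidalCategory C]
  [SymmetricCategory C] [Preadditive C] [MonoidalPreadditive C] [Linear ℚ C] (H : NCMot k C)

theorem stB (h : IsCohAlg r0 r1 t s) (hX : IsCech r0 r1 X e) (hs : SmPr X) (K : Type u)
    [Field K] [Algebra k K] [IsAlgClosed K]
    (hC : ∀ W : SP K, IsCurve W.alg → KimuraFinite (U W)) : KimuraFinite (H.U X hs) := by
  rw [H.kimuraFinite_iff hs (spCech hX hs) hX.exists_rep.some]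
  exact thmB h.isCoh (spCech hX hs) rfl K hC

end Pool.Agent.MP_6e5bed_ag_SP
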