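import Mathlib

set_option autoImplicit false

/-!
# KC, commutative side: the Clifford isomorphism
-/

namespace Pool.Agent.MP_6e5bed_ag_KC

universe u

namespace VCliff

variable {R : Type u} [CommRing R] {q : ℕ}

/-- the sign -/
def sg (R : Type u) [CommRing R] {q : ℕ} (l : Fin q) (S : Finset (Fin q)) : R :=
  (-1) ^ (S.filter fun j => j < l).card

/-- the coefficient -/
def cf (β : Fin q → R) (l : Fin q) (S : Finset (Fin q)) : R := if l ∈ S then β l else 1

/-- the operator -/
def DD (β : Fin q → R) (m : Finset (Fin q) → R) (S : Finset (Fin q)) : R :=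
  ∑ l, sg R l S * (cf β l S * m (symmDiff S {l}))

theorem mem_tog {S : Finset (Fin q)} {l j : Fin q} (h : j ≠ l) :
    j ∈ symmDiff S {l} ↔ j ∈ S := by
  rw [Finset.mem_symmDiff, Finset.mem_singleton]
  tauto

theorem mem_tog_self {S : Finset (Fin q)} {l : Fin q} : l ∈ symmDiff S {l} ↔ l ∉ S := by
  rw [Finset.mem_symmDiff, Finset.mem_singleton]
  tauto

theorem tog_of_mem {S : Finset (Fin q)} {l : Fin q} (h : l ∈ S) :
    symmDiff S {l} = S.erase l := by
  ext i
  rw [Finset.mem_symmDiff, Finset.mem_singleton, Finset.mem_erase]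
  constructor
  · rintro (⟨h1, h2⟩ | ⟨h1, h2⟩)
    · exact ⟨h2, h1⟩
    · exact absurd (h1 ▸ h) h2
  · rintro ⟨h1, h2⟩
    exact Or.inl ⟨h2, h1⟩

theorem tog_of_notMem {S : Finset (Fin q)} {l : Fin q} (h : l ∉ S) :
    symmDiff S {l} = insert l S := by
  ext i
  rw [Finset.mem_symmDiff, Finset.mem_singleton, Finset.mem_insert]
  constructor
  · rintro (⟨h1, h2⟩ | ⟨h1, h2⟩)
    · exact Or.inr h1
    · exact Or.inl h1
  · rintro (h1 | h1)
    · exact Or.inr ⟨h1, h1 ▸ h⟩
    · refine Or.inl ⟨h1, ?_⟩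
      rintro rfl
      exact h h1

theorem card_tog_even {S : Finset (Fin q)} (l : Fin q) :
    Even (symmDiff S {l}).card ↔ Odd S.card := by
  by_cases h : l ∈ S
  · rw [tog_of_mem h, Finset.card_erase_of_mem h]
    have := Finset.card_pos.2 ⟨l, h⟩
    obtain ⟨n, hn⟩ : ∃ n, S.card = n + 1 := ⟨S.card - 1, by omega⟩
    rw [hn, Nat.add_sub_cancel, Nat.odd_add_one, Nat.not_odd_iff_even]
  · rw [tog_of_notMem h, Finset.card_insert_of_notMem h, Nat.even_add_one,
      Nat.not_even_iff_odd]

theorem card_tog_odd {S : Finset (Fin q)} (l : Fin q) :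
    Odd (symmDiff S {l}).card ↔ Even S.card := by
  rw [← Nat.not_even_iff_odd, card_tog_even, Nat.not_odd_iff_even]

theorem sg_sq (l : Fin q) (S : Finset (Fin q)) : sg R l S * sg R l S = 1 := by
  unfold sg
  rw [← pow_add, ← two_mul, pow_mul, neg_one_sq, one_pow]

/-- toggling an element which is not smaller than `l` -/
theorem sg_ge {l j : Fin q} (h : l ≤ j) (S : Finset (Fin q)) :
    sg R l (symmDiff S {j}) = sg R l S := by
  unfold sg
  congr 2
  ext i
  rw [Finset.mem_filter, Finset.mem_filter]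
  constructor
  · rintro ⟨h1, h2⟩
    exact ⟨(mem_tog (ne_of_lt (lt_of_lt_of_le h2 h))).1 h1, h2⟩
  · rintro ⟨h1, h2⟩
    exact ⟨(mem_tog (ne_of_lt (lt_of_lt_of_le h2 h))).2 h1, h2⟩

/-- toggling a smaller element -/
theorem sg_lt {l j : Fin q} (h : j < l) (S : Finset (Fin q)) :
    sg R l (symmDiff S {j}) = -sg R l S := by
  unfold sg
  by_cases hj : j ∈ S
  · have h1 : (S.filter fun i => i < l) = insert j ((symmDiff S {j}).filter fun i => i < l) := by
      rw [tog_of_mem hj]
      ext i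
      rw [Finset.mem_filter, Finset.mem_insert, Finset.mem_filter, Finset.mem_erase]
      constructor
      · rintro ⟨h2, h3⟩
        by_cases hi : i = j
        · exact Or.inl hi
        · exact Or.inr ⟨⟨hi, h2⟩, h3⟩
      · rintro (rfl | ⟨⟨-, h2⟩, h3⟩)
        · exact ⟨hj, h⟩
        · exact ⟨h2, h3⟩
    have h2 : j ∉ (symmDiff S {j}).filter fun i => i < l := by
      rw [Finset.mem_filter, mem_tog_self]
      exact fun h' => h'.1 hj
    rw [h1, Finset.card_insert_of_notMem h2, pow_succ]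
    ring
  · have h1 : ((symmDiff S {j}).filter fun i => i < l) = insert j (S.filter fun i => i < l) := by
      rw [tog_of_notMem hj]
      ext i
      rw [Finset.mem_filter, Finset.mem_insert, Finset.mem_insert, Finset.mem_filter]
      constructor
      · rintro ⟨h2 | h2, h3⟩
        · exact Or.inl h2
        · exact Or.inr ⟨h2, h3⟩
      · rintro (rfl | ⟨h2, h3⟩)
        · exact ⟨Or.inl rfl, h⟩
        · exact ⟨Or.inr h2, h3⟩
    have h2 : j ∉ S.filter fun i => i < l := by
      rw [Finset.mem_filter]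
      exact fun h' => hj h'.1
    rw [h1, Finset.card_insert_of_notMem h2, pow_succ]
    ring

theorem cf_tog {β : Fin q → R} {l j : Fin q} (h : l ≠ j) (S : Finset (Fin q)) :
    cf β l (symmDiff S {j}) = cf β l S := by
  unfold cf
  simp only [mem_tog h]

theorem cf_self (β : Fin q → R) (l : Fin q) (S : Finset (Fin q)) :
    cf β l S * cf β l (symmDiff S {l}) = β l := by
  unfold cf
  simp only [mem_tog_self]
  by_cases h : l ∈ S
  · rw [if_pos h, if_neg (not_not.2 h), mul_one]
  · rw [if_neg h, if_pos h, one_mul]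

theorem DD_DD (β : Fin q → R) (h1 : ∑ l, β l = 1) (m : Finset (Fin q) → R)
    (S : Finset (Fin q)) : DD β (DD β m) S = m S := by
  have e : DD β (DD β m) S = ∑ p : Fin q × Fin q, sg R p.1 S * (cf β p.1 S *
      (sg R p.2 (symmDiff S {p.1}) * (cf β p.2 (symmDiff S {p.1}) *
        m (symmDiff (symmDiff S {p.1}) {p.2})))) := by
    rw [Fintype.sum_prod_type]
    unfold DD
    refine Finset.sum_congr rfl fun l _ => ?_
    rw [Finset.mul_sum, Finset.mul_sum]
  rw [e, ← Finset.sum_filter_add_sum_filter_not Finset.univ (fun p : Fin q × Fin q => p.1 = p.2)]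
  have hz : ∑ p ∈ Finset.univ.filter (fun p : Fin q × Fin q => ¬ p.1 = p.2),
      sg R p.1 S * (cf β p.1 S * (sg R p.2 (symmDiff S {p.1}) * (cf β p.2 (symmDiff S {p.1}) *
        m (symmDiff (symmDiff S {p.1}) {p.2})))) = 0 := by
    refine Finset.sum_involution (fun p _ => (p.2, p.1)) ?_ ?_ ?_ ?_
    · rintro ⟨l, j⟩ hp
      rw [Finset.mem_filter] at hp
      have hne : l ≠ j := hp.2
      simp only
      rw [symmDiff_right_comm S {j} {l}, cf_tog hne, cf_tog hne.symm]
      rcases lt_or_gt_of_ne hne with h | h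
      · rw [sg_lt h, sg_ge h.le]
        ring
      · rw [sg_ge h.le, sg_lt h]
        ring
    · rintro ⟨l, j⟩ hp _ h
      rw [Finset.mem_filter] at hp
      exact hp.2 (congrArg Prod.fst h).symm
    · rintro ⟨l, j⟩ hp
      rw [Finset.mem_filter] at hp ⊢
      exact ⟨Finset.mem_univ _, fun h => hp.2 h.symm⟩
    · rintro ⟨l, j⟩ _
      rfl
  rw [hz, add_zero]
  have hd : ∑ p ∈ Finset.univ.filter (fun p : Fin q × Fin q => p.1 = p.2),
      sg R p.1 S * (cf β p.1 S * (sg R p.2 (symmDiff S {p.1}) * (cf β p.2 (symmDiff S {p.1}) *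
        m (symmDiff (symmDiff S {p.1}) {p.2})))) = ∑ l, β l * m S := by
    symm
    refine Finset.sum_bij (fun l _ => (l, l)) ?_ ?_ ?_ ?_
    · intro l _
      rw [Finset.mem_filter]
      exact ⟨Finset.mem_univ _, rfl⟩
    · intro l _ l' _ h
      exact congrArg Prod.fst h
    · rintro ⟨l, j⟩ hp
      rw [Finset.mem_filter] at hp
      exact ⟨l, Finset.mem_univ _, Prod.ext rfl hp.2⟩
    · intro l _
      simp only
      rw [sg_ge le_rfl, symmDiff_symmDiff_cancel_right]
      calc β l * m S = (sg R l S * sg R l S) * ((cf β l S * cf β l (symmDiff S {l})) * m S) := by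
            rw [sg_sq, one_mul, cf_self]
        _ = _ := by ring
  rw [hd, ← Finset.sum_mul, h1, one_mul]

/-- the ideal of a set -/
def II (b : Fin q → Ideal R) (M : Ideal R) (S : Finset (Fin q)) : Ideal R := M * ∏ l ∈ S, b l

theorem mem_II (b : Fin q → Ideal R) (β : Fin q → R) (hβ : ∀ l, β l ∈ b l) (M : Ideal R)
    (S : Finset (Fin q)) (l : Fin q) {r : R} (hr : r ∈ II b M (symmDiff S {l})) :
    sg R l S * (cf β l S * r) ∈ II b M S := by
  refine Ideal.mul_mem_left _ _ ?_
  unfold cf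
  by_cases h : l ∈ S
  · rw [if_pos h]
    unfold II at hr ⊢
    rw [tog_of_mem h] at hr
    rw [← Finset.mul_prod_erase S b h, ← mul_assoc, mul_comm M (b l), mul_assoc]
    exact Ideal.mul_mem_mul (hβ l) hr
  · rw [if_neg h, one_mul]
    unfold II at hr ⊢
    rw [tog_of_notMem h, Finset.prod_insert h, mul_left_comm] at hr
    exact Ideal.mul_le_right hr

/-- extension by zero -/
noncomputable def ext0 {P : Finset (Fin q) → Prop} {b : Fin q → Ideal R} {M : Ideal R}
    (m : ∀ S : {S : Finset (Fin q) // P S}, II b M S.1) (S : Finset (Fin q)) : R := by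
  classical exact if h : P S then (m ⟨S, h⟩ : R) else 0

theorem ext0_pos {P : Finset (Fin q) → Prop} {b : Fin q → Ideal R} {M : Ideal R}
    (m : ∀ S : {S : Finset (Fin q) // P S}, II b M S.1) {S : Finset (Fin q)} (h : P S) :
    ext0 m S = (m ⟨S, h⟩ : R) := by
  unfold ext0
  exact dif_pos h

/-- the operator between the direct sums -/
noncomputable def op {P Q : Finset (Fin q) → Prop} (b : Fin q → Ideal R) (β : Fin q → R)
    (hβ : ∀ l, β l ∈ b l) (M : Ideal R) (h : ∀ S l, Q S → P (symmDiff S {l})) :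
    (∀ S : {S : Finset (Fin q) // P S}, II b M S.1) →ₗ[R]
      (∀ S : {S : Finset (Fin q) // Q S}, II b M S.1) where
  toFun m S := ⟨∑ l, sg R l S.1 * (cf β l S.1 * (m ⟨symmDiff S.1 {l}, h S.1 l S.2⟩ : R)),
    Ideal.sum_mem _ fun l _ => mem_II b β hβ M S.1 l (m ⟨symmDiff S.1 {l}, h S.1 l S.2⟩).2⟩
  map_add' m m' := by
    funext S
    apply Subtype.ext
    simp only [Pi.add_apply, Submodule.coe_add]
    rw [← Finset.sum_add_distrib]
    exact Finset.sum_congr rfl fun l _ => by ring
  map_smul' r m := by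
    funext S
    apply Subtype.ext
    simp only [Pi.smul_apply, Submodule.coe_smul, smul_eq_mul, RingHom.id_apply]
    rw [Finset.mul_sum]
    exact Finset.sum_congr rfl fun l _ => by ring

theorem op_val {P Q : Finset (Fin q) → Prop} (b : Fin q → Ideal R) (β : Fin q → R)
    (hβ : ∀ l, β l ∈ b l) (M : Ideal R) (h : ∀ S l, Q S → P (symmDiff S {l}))
    (m : ∀ S : {S : Finset (Fin q) // P S}, II b M S.1) (S : Finset (Fin q)) (hS : Q S) :
    (op b β hβ M h m ⟨S, hS⟩ : R) = DD β (ext0 m) S := by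
  change ∑ l, sg R l S * (cf β l S * (m ⟨symmDiff S {l}, h S l hS⟩ : R)) = _
  unfold DD
  exact Finset.sum_congr rfl fun l _ => by rw [ext0_pos m (h S l hS)]

theorem op_op {P Q : Finset (Fin q) → Prop} (b : Fin q → Ideal R) (β : Fin q → R)
    (hβ : ∀ l, β l ∈ b l) (h1 : ∑ l, β l = 1) (M : Ideal R)
    (h : ∀ S l, Q S → P (symmDiff S {l})) (h' : ∀ S l, P S → Q (symmDiff S {l}))
    (m : ∀ S : {S : Finset (Fin q) // P S}, II b M S.1) :
    op b β hβ M h' (op b β hβ M h m) = m := by
  funext S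
  apply Subtype.ext
  obtain ⟨S, hS⟩ := S
  rw [op_val]
  have e : DD β (ext0 (op b β hβ M h m)) S = DD β (DD β (ext0 m)) S := by
    unfold DD
    refine Finset.sum_congr rfl fun l _ => ?_
    rw [ext0_pos _ (h' S l hS), op_val]
    rfl
  rw [e, DD_DD β h1, ext0_pos m hS]

end VCliff

/-- THE CLIFFORD ISOMORPHISM. For ideals `b_l` and elements `β_l ∈ b_l` with `∑ β_l = 1`, and every
ideal `M`, the direct sums of the ideals `M ∏_{l ∈ S} b_l` over the sets `S` of even cardinality,
respectively of odd cardinality, are isomorphic.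

Proof. On the functions `m : Finset (Fin q) → R` let
`(D m)(S) = ∑_{l ∉ S} ε(l,S) m(S ∪ {l}) + ∑_{l ∈ S} ε(l,S) β_l m(S \ {l})`,
`ε(l,S) = (-1)^{number of the j ∈ S with j < l}`. Then `D (D m) = (∑ β_l) m = m`:
the terms with `l ≠ j` cancel, since for `l ≠ j` the sign `ε(l,S) ε(j,S')` (`S' = S ∪ {l}` or
`S \ {l}`) changes when `l` and `j` are exchanged, and the terms with `l = j` give `β_l m(S)`.
`D` preserves the functions with `m(S) ∈ M ∏_{l ∈ S} b_l` for all `S` (`β_l ∈ b_l`; the ideals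
decrease when `S` grows), and exchanges the functions supported on even and on odd sets.
(Alternatively: induction on `q`, with the statement: for all `β_l ∈ b_l` there are `R`-linear maps
`A : E → O`, `B : O → E` with `A B = B A = ∑ β_l`; step `E' = E ⊕ b O`, `O' = O ⊕ b E`,
`A' (u, v) = (A u + v, β u - B v)`, `B' (v, u) = (B v + u, β v - A u)`.) -/
theorem cliff {R : Type u} [CommRing R] {q : ℕ} (b : Fin q → Ideal R) (β : Fin q → R)
    (hβ : ∀ l, β l ∈ b l) (h1 : ∑ l, β l = 1) (M : Ideal R) :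
    Nonempty ((∀ S : {S : Finset (Fin q) // Even S.card}, (M * ∏ l ∈ S.1, b l : Ideal R)) ≃ₗ[R]
      (∀ S : {S : Finset (Fin q) // Odd S.card}, (M * ∏ l ∈ S.1, b l : Ideal R))) := by
  have h : ∀ (S : Finset (Fin q)) (l : Fin q), Odd S.card → Even (symmDiff S {l}).card :=
    fun S l hS => (VCliff.card_tog_even l).2 hS
  have h' : ∀ (S : Finset (Fin q)) (l : Fin q), Even S.card → Odd (symmDiff S {l}).card :=
    fun S l hS => (VCliff.card_tog_odd l).2 hS
  exact ⟨LinearEquiv.ofLinearMap (VCliff.op b β hβ M h) (VCliff.op b β hβ M h')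
    (LinearMap.ext fun m => VCliff.op_op b β hβ h1 M h' h m)
    (LinearMap.ext fun m => VCliff.op_op b β hβ h1 M h h' m)⟩

end Pool.Agent.MP_6e5bed_ag_KC
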