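import Pool.Agent.Lib.MP_6e5bed_ag_KC.VNewt

set_option autoImplicit false

/-!
# KC, commutative side: generalised Vandermonde determinants over a local ring
-/

namespace Pool.Agent.MP_6e5bed_ag_KC

open scoped TensorProduct

universe u v

variable {k : Type u} [Field k] (C : PtCurve k) {Λ : Type u} [CommRing Λ] [Algebra k Λ]

/-- Reduction modulo the maximal ideal, `b ⊗ l ↦ ρ(l) b`, maps `gI z` into the maximal ideal of the
point `ρ z` (`gI_eq`). -/
theorem PtCurve.red_gI (ρ : Λ →ₐ[k] k) {m : ℕ} (z : Fin m → C.Pt Λ) {x : C.B ⊗[k] Λ}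
    (hx : x ∈ ∏ b, C.gI (z b)) :
    Algebra.TensorProduct.lift (AlgHom.id k C.B) ((Algebra.ofId k C.B).comp ρ)
      (fun _ _ => Commute.all _ _) x ∈ ∏ b, C.mI (ρ.comp (z b)) := by
  obtain ⟨r, hr⟩ : ∃ r : C.B ⊗[k] Λ →ₐ[k] C.B, r = Algebra.TensorProduct.lift
      (AlgHom.id k C.B) ((Algebra.ofId k C.B).comp ρ) (fun _ _ => Commute.all _ _) := ⟨_, rfl⟩
  rw [← hr]
  have h1 : ∀ b, Ideal.map r.toRingHom (C.gI (z b)) ≤ C.mI (ρ.comp (z b)) := by
    intro b
    rw [C.gI_eq, Ideal.map_span, Ideal.span_le]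
    rintro _ ⟨_, ⟨f, rfl⟩, rfl⟩
    show (ρ.comp (z b)) (r (C.del (z b) f)) = 0
    unfold PtCurve.del
    rw [hr, map_sub, Algebra.TensorProduct.lift_tmul, Algebra.TensorProduct.lift_tmul]
    simp only [AlgHom.id_apply, map_one, mul_one, one_mul, map_sub, AlgHom.comp_apply]
    rw [Algebra.ofId_apply, AlgHom.commutes, AlgHom.commutes]
    simp
  have h2 : r x ∈ Ideal.map r.toRingHom (∏ b, C.gI (z b)) := Ideal.mem_map_of_mem _ hx
  have h3 : Ideal.map r.toRingHom (∏ b, C.gI (z b)) =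
      ∏ b, Ideal.map r.toRingHom (C.gI (z b)) :=
    map_prod (Ideal.mapHom r.toRingHom) (fun b => C.gI (z b)) Finset.univ
  rw [h3] at h2
  exact Finset.prod_le_prod' (fun b _ => h1 b) h2

/-- THE GENERALISED VANDERMONDE DETERMINANT over a local ring. (1) It is in the ideal
`∏_{c < b} coin (z c) (z b)`; (2) it generates this ideal if the `f_a` are linearly independent
modulo `∏_b m_{ρ z_b}`.

Proof. `newton` for `x = f_a ⊗ 1`: `f_a ⊗ 1 = ∑_b (1 ⊗ λ_{ab}) q_b + (element of ∏ gI (z b))`. Apply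
`ev (z c)`: `(z_c f_a) = λ Q`, `Q_{bc} = ev (z c) (q b)`, zero for `c < b`. So
`det = det λ · ∏_b ev (z b) (q b)`, and `(∏_b ev (z b) (q b)) = ∏_{c < b} coin (z c) (z b)`. (2) If
`det λ` is not a unit, then `ρ (det λ) = 0` and there is `0 ≠ y ∈ k^m` with
`∑_a y_a ρ(λ_{ab}) = 0` for all `b`; then `∑ y_a f_a ∈ ∏ m_{ρ z_b}` by `red_gI`. -/
theorem PtCurve.locDet [IsLocalRing Λ] (ρ : Λ →ₐ[k] k) {m : ℕ} (z : Fin m → C.Pt Λ)
    (f : Fin m → C.B) :
    C.vdet f z ∈ C.vand z ∧
      ((∀ y : Fin m → k, ∑ a, y a • f a ∈ ∏ b, C.mI (ρ.comp (z b)) → y = 0) →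
        C.vand z = Ideal.span {C.vdet f z}) := by
  classical
  obtain ⟨q, hq1, hq2, hq3⟩ := C.newton ρ z
  choose lam hlam using fun a : Fin m => hq3 (f a ⊗ₜ 1)
  have hle : ∀ c, ∏ b, C.gI (z b) ≤ C.gI (z c) := fun c =>
    Ideal.prod_le_inf.trans (Finset.inf_le (Finset.mem_univ c))
  have hval : ∀ a c, z c (f a) = ∑ b, lam a b * C.ev (z c) (q b) := by
    intro a c
    have h1 : C.ev (z c) (f a ⊗ₜ 1 - ∑ b, (1 ⊗ₜ lam a b) * q b) = 0 := hle c (hlam a)
    rw [map_sub, map_sum, C.ev_tmul, mul_one, sub_eq_zero] at h1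
    rw [h1]
    refine Finset.sum_congr rfl fun b _ => ?_
    rw [map_mul, C.ev_tmul, map_one, one_mul]
  have hmat : Matrix.of (fun a b => z b (f a)) =
      Matrix.of lam * Matrix.of (fun b c => C.ev (z c) (q b)) := by
    ext a c
    rw [Matrix.mul_apply]
    exact hval a c
  have htri : (Matrix.of (fun b c => C.ev (z c) (q b)) : Matrix (Fin m) (Fin m) Λ).det =
      ∏ b, C.ev (z b) (q b) := by
    rw [Matrix.det_of_upperTriangular]
    · rfl
    · intro b c hcb
      exact hq1 b c hcb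
  have hdet : C.vdet f z = (Matrix.of lam).det * ∏ b, C.ev (z b) (q b) := by
    unfold PtCurve.vdet
    rw [hmat, Matrix.det_mul, htri]
  have hvand : C.vand z = Ideal.span {∏ b, C.ev (z b) (q b)} := by
    unfold PtCurve.vand
    rw [← Ideal.prod_span_singleton]
    exact Finset.prod_congr rfl fun b _ => (hq2 b).symm
  constructor
  · rw [hvand, hdet]
    exact Ideal.mul_mem_left _ _ (Ideal.mem_span_singleton_self _)
  · intro hy
    have hu : IsUnit (Matrix.of lam).det := by
      by_contra hnu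
      have hρ : ρ (Matrix.of lam).det = 0 := by
        have h1 : Function.Surjective ρ := fun c => ⟨algebraMap k Λ c, by simp⟩
        have h2 : (RingHom.ker ρ).IsMaximal := RingHom.ker_isMaximal_of_surjective ρ h1
        have h3 := IsLocalRing.eq_maximalIdeal h2
        have h4 : (Matrix.of lam).det ∈ IsLocalRing.maximalIdeal Λ := hnu
        rw [← h3] at h4
        exact h4
      have h5 : (ρ.mapMatrix (Matrix.of lam)).det = 0 := by
        rw [← AlgHom.map_det]
        exact hρ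
      obtain ⟨y, hy0, hyM⟩ := Matrix.exists_vecMul_eq_zero_iff.2 h5
      apply hy0
      apply hy y
      obtain ⟨r, hr⟩ : ∃ r : C.B ⊗[k] Λ →ₐ[k] C.B, r = Algebra.TensorProduct.lift
        (AlgHom.id k C.B) ((Algebra.ofId k C.B).comp ρ) (fun _ _ => Commute.all _ _) :=
        ⟨_, rfl⟩
      have hr1 : ∀ b : C.B, r (b ⊗ₜ 1) = b := by
        intro b
        rw [hr, Algebra.TensorProduct.lift_tmul]
        simp
      have hr2 : ∀ l : Λ, r (1 ⊗ₜ l) = algebraMap k C.B (ρ l) := by
        intro l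
        rw [hr, Algebra.TensorProduct.lift_tmul]
        simp [Algebra.ofId_apply]
      have h6 : ∑ a, y a • f a = ∑ a, y a • r (f a ⊗ₜ 1 - ∑ b, (1 ⊗ₜ lam a b) * q b) := by
        have h7 : ∀ a, f a = r (f a ⊗ₜ 1 - ∑ b, (1 ⊗ₜ lam a b) * q b) +
            ∑ b, algebraMap k C.B (ρ (lam a b)) * r (q b) := by
          intro a
          rw [map_sub, hr1, map_sum]
          simp only [map_mul, hr2, sub_add_cancel]
        have h8 : ∑ a, y a • ∑ b, algebraMap k C.B (ρ (lam a b)) * r (q b) = 0 := by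
          simp only [Finset.smul_sum]
          rw [Finset.sum_comm]
          refine Finset.sum_eq_zero fun b _ => ?_
          have h9 : ∑ a, y a * ρ (lam a b) = 0 := congrFun hyM b
          have h10 : ∑ a, y a • (algebraMap k C.B (ρ (lam a b)) * r (q b)) =
              algebraMap k C.B (∑ a, y a * ρ (lam a b)) * r (q b) := by
            rw [map_sum, Finset.sum_mul]
            refine Finset.sum_congr rfl fun a _ => ?_
            rw [Algebra.smul_def, map_mul]
            ring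
          rw [h10, h9, map_zero, zero_mul]
        conv_lhs => rw [Finset.sum_congr rfl fun a _ => by rw [h7 a]]
        simp only [smul_add, Finset.sum_add_distrib]
        rw [h8, add_zero]
      rw [h6]
      refine Ideal.sum_mem _ fun a _ => ?_
      rw [Algebra.smul_def]
      refine Ideal.mul_mem_left _ _ ?_
      rw [hr]
      exact C.red_gI ρ z (hlam a)
    rw [hvand, hdet]
    exact (Ideal.span_singleton_mul_left_unit hu _).symm

end Pool.Agent.MP_6e5bed_ag_KC
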