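import Mathlib

set_option autoImplicit false

/-!
# KC, commutative side: from products of unipotent elements to sums of nilpotent elements
-/

namespace Pool.Agent.MP_6e5bed_ag_KC

universe u

variable {S : Type u} [CommRing S] [Algebra ℚ S]

/-- `1 - exp (-y) = y (1 - y/2 + y²/6 - ⋯)`, the second factor is `1 + nilpotent`. -/
theorem one_sub_exp {y : S} (hy : IsNilpotent y) :
    ∃ v : S, IsUnit v ∧ 1 - IsNilpotent.exp (-y) = y * v := by
  obtain ⟨n, hn⟩ := hy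
  have h1 : (-y) ^ (n + 2) = 0 :=
    pow_eq_zero_of_le (show n ≤ n + 2 by omega) (by rw [neg_pow, hn, mul_zero])
  have hny : IsNilpotent (-y) := ⟨n + 2, h1⟩
  refine ⟨∑ i ∈ Finset.range (n + 1), ((i + 1).factorial : ℚ)⁻¹ • (-y) ^ i, ?_, ?_⟩
  · rw [Finset.sum_range_succ']
    have h2 : IsNilpotent (∑ i ∈ Finset.range n, ((i + 1 + 1).factorial : ℚ)⁻¹ •
        (-y) ^ (i + 1)) := by
      refine mem_nilradical.1 (Ideal.sum_mem _ fun i _ => mem_nilradical.2 ?_)
      have h3 : ((i + 1 + 1).factorial : ℚ)⁻¹ • (-y) ^ (i + 1) =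
          (((i + 1 + 1).factorial : ℚ)⁻¹ • (-y) ^ i) * (-y) := by
        rw [pow_succ, smul_mul_assoc]
      rw [h3]
      exact (Commute.all _ _).isNilpotent_mul_left hny
    have h4 : ((0 + 1).factorial : ℚ)⁻¹ • (-y) ^ 0 = (1 : S) := by simp
    rw [h4]
    exact h2.isUnit_add_one
  · rw [IsNilpotent.exp_eq_sum h1, Finset.sum_range_succ', Finset.mul_sum]
    have h4 : ((0).factorial : ℚ)⁻¹ • (-y) ^ 0 = (1 : S) := by simp
    rw [h4, sub_add_eq_sub_sub, sub_right_comm, sub_self, zero_sub, ← Finset.sum_neg_distrib]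
    refine Finset.sum_congr rfl fun i _ => ?_
    rw [pow_succ, mul_smul_comm, ← smul_neg]
    congr 1
    ring

theorem exp_sum {ι : Type} (s : Finset ι) (y : ι → S) (hy : ∀ i ∈ s, IsNilpotent (y i)) :
    IsNilpotent (∑ i ∈ s, y i) ∧
      IsNilpotent.exp (-∑ i ∈ s, y i) = ∏ i ∈ s, IsNilpotent.exp (-y i) := by
  classical
  induction s using Finset.induction_on with
  | empty =>
    refine ⟨by rw [Finset.sum_empty]; exact IsNilpotent.zero, ?_⟩
    rw [Finset.sum_empty, Finset.prod_empty, neg_zero, IsNilpotent.exp_zero]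
  | insert a s ha ih =>
    obtain ⟨h1, h2⟩ := ih fun i hi => hy i (Finset.mem_insert_of_mem hi)
    have h3 := hy a (Finset.mem_insert_self a s)
    rw [Finset.sum_insert ha, Finset.prod_insert ha]
    refine ⟨(Commute.all _ _).isNilpotent_add h3 h1, ?_⟩
    rw [neg_add, IsNilpotent.exp_add_of_commute (Commute.all _ _) h3.neg h1.neg, h2]

/-- From `∏_T (1 - ∏ X ∏ Z) = 0` to `∏_T (∑ d + ∑ l) = 0`, where `X = exp (-d)`, `Z = exp (-l)`:
the product is `exp (-(∑ d + ∑ l))` (`exp_sum`, `IsNilpotent.exp_add_of_commute`), and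
`one_sub_exp`. -/
theorem log_rel {τ : Type} [Fintype τ] {N : ℕ} (X d : Fin N → Fin N → S) (Z l : τ → Fin N → S)
    (hd : ∀ i j, i < j → IsNilpotent (d i j) ∧ IsNilpotent.exp (-d i j) = X i j)
    (hl : ∀ t i, IsNilpotent (l t i) ∧ IsNilpotent.exp (-l t i) = Z t i)
    {M : Finset (Fin N)}
    (h : ∏ t, (1 - (∏ j ∈ M, ∏ i ∈ M.filter (· < j), X i j) * ∏ i ∈ M, Z t i) = 0) :
    ∏ t, ((∑ j ∈ M, ∑ i ∈ M.filter (· < j), d i j) + ∑ i ∈ M, l t i) = 0 := by
  have h1 : ∀ j ∈ M, IsNilpotent (∑ i ∈ M.filter (· < j), d i j) ∧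
      IsNilpotent.exp (-∑ i ∈ M.filter (· < j), d i j) = ∏ i ∈ M.filter (· < j), X i j := by
    intro j _
    have h2 := exp_sum (M.filter (· < j)) (fun i => d i j)
      (fun i hi => (hd i j (Finset.mem_filter.1 hi).2).1)
    refine ⟨h2.1, h2.2.trans (Finset.prod_congr rfl fun i hi => ?_)⟩
    exact (hd i j (Finset.mem_filter.1 hi).2).2
  have h3 := exp_sum M (fun j => ∑ i ∈ M.filter (· < j), d i j) (fun j hj => (h1 j hj).1)
  have h4 : ∀ t, IsNilpotent (∑ i ∈ M, l t i) ∧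
      IsNilpotent.exp (-∑ i ∈ M, l t i) = ∏ i ∈ M, Z t i := by
    intro t
    have h5 := exp_sum M (fun i => l t i) (fun i _ => (hl t i).1)
    exact ⟨h5.1, h5.2.trans (Finset.prod_congr rfl fun i _ => (hl t i).2)⟩
  have h6 : ∀ t, ∃ v : S, IsUnit v ∧
      1 - (∏ j ∈ M, ∏ i ∈ M.filter (· < j), X i j) * ∏ i ∈ M, Z t i =
        ((∑ j ∈ M, ∑ i ∈ M.filter (· < j), d i j) + ∑ i ∈ M, l t i) * v := by
    intro t
    obtain ⟨v, hv, hv'⟩ := one_sub_exp ((Commute.all _ _).isNilpotent_add h3.1 (h4 t).1)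
    refine ⟨v, hv, ?_⟩
    rw [← hv', neg_add, IsNilpotent.exp_add_of_commute (Commute.all _ _) h3.1.neg (h4 t).1.neg,
      h3.2, (h4 t).2, Finset.prod_congr rfl fun j hj => (h1 j hj).2]
  choose v hv hv' using h6
  rw [Finset.prod_congr rfl fun t _ => hv' t, Finset.prod_mul_distrib] at h
  have hu : IsUnit (∏ t, v t) := by
    refine IsUnit.prod_univ_iff.2 fun t => hv t
  exact hu.mul_left_eq_zero.1 h

end Pool.Agent.MP_6e5bed_ag_KC
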