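import Pool.Agent.Lib.MP_6e5bed_ag_KC.VPtB
import Pool.Agent.Lib.MP_6e5bed_ag_KC.VPtC

set_option autoImplicit false

/-!
# KC, commutative side: the Riemann-Roch space on the fibres
-/

namespace Pool.Agent.MP_6e5bed_ag_KC

universe u v

variable {k : Type u} [Field k]

/-- An injective linear map to `k^D` stays injective after projection to suitable coordinates. -/
theorem exists_coords {E : Type u} [AddCommGroup E] [Module k E] [Module.Finite k E] {r D : ℕ}
    (hr : Module.finrank k E = r) (l : E →ₗ[k] (Fin D → k)) (hl : Function.Injective l) :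
    ∃ T : Fin r ↪ Fin D, ∀ x, (∀ j, l x (T j) = 0) → x = 0 := by
  classical
  let v : Fin D → Module.Dual k E := fun i => (LinearMap.proj i).comp l
  obtain ⟨κ, a, ha, hsp, hli⟩ := exists_linearIndependent' k v
  have : Finite κ := Finite.of_injective a ha
  have : Fintype κ := Fintype.ofFinite κ
  have hinj : ∀ x, (∀ j, l x (a j) = 0) → x = 0 := by
    intro x hx
    apply (injective_iff_map_eq_zero l).1 hl
    funext i
    have h1 : v i ∈ Submodule.span k (Set.range (v ∘ a)) := by
      rw [hsp]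
      exact Submodule.subset_span ⟨i, rfl⟩
    have h2 : ∀ w ∈ Submodule.span k (Set.range (v ∘ a)), w x = 0 := by
      intro w hw
      induction hw using Submodule.span_induction with
      | mem w hw =>
        obtain ⟨j, rfl⟩ := hw
        exact hx j
      | zero => rfl
      | add w w' _ _ h h' =>
        rw [LinearMap.add_apply, h, h', add_zero]
      | smul c w _ h =>
        rw [LinearMap.smul_apply, h, smul_zero]
    exact h2 _ h1
  have h1 : Fintype.card κ ≤ r := by
    have h2 := hli.fintype_card_le_finrank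
    rwa [Subspace.dual_finrank_eq, hr] at h2
  have h2 : r ≤ Fintype.card κ := by
    let f : E →ₗ[k] (κ → k) := LinearMap.pi fun j => (LinearMap.proj (a j)).comp l
    have hf : Function.Injective f := by
      rw [injective_iff_map_eq_zero]
      intro x hx
      exact hinj x fun j => congrFun hx j
    have h3 := LinearMap.finrank_le_finrank_of_injective hf
    rwa [hr, Module.finrank_fintype_fun_eq_card] at h3
  have h3 : Fintype.card κ = r := le_antisymm h1 h2
  let e : Fin r ≃ κ := (Fintype.equivFinOfCardEq h3).symm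
  refine ⟨⟨fun j => a (e j), fun i j hij => e.injective (ha hij)⟩, fun x hx => ?_⟩
  refine hinj x fun j => ?_
  have h4 : l x (a (e (e.symm j))) = 0 := hx (e.symm j)
  rwa [Equiv.apply_symm_apply] at h4

namespace VFib

private theorem line {V : Type u} [AddCommGroup V] [Module k V] (W N : Submodule k V) {f₀ : V}
    (h0 : f₀ ∉ N) (h : ∀ f ∈ W, ∃ c : k, f - c • f₀ ∈ N) :
    ∃ ψ : W →ₗ[k] k, ∀ f : W, ψ f = 0 ↔ (f : V) ∈ N := by
  have huniq : ∀ (f : V) (c c' : k), f - c • f₀ ∈ N → f - c' • f₀ ∈ N → c = c' := by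
    intro f c c' h1 h2
    by_contra hne
    apply h0
    have h3 := N.sub_mem h2 h1
    have h4 : f - c' • f₀ - (f - c • f₀) = (c - c') • f₀ := by
      rw [sub_smul]
      abel
    rw [h4] at h3
    exact (N.smul_mem_iff (sub_ne_zero.2 hne)).1 h3
  choose c hc using fun f : W => h f.1 f.2
  refine ⟨{ toFun := c, map_add' := fun x y => ?_, map_smul' := fun s x => ?_ }, fun f => ?_⟩
  · refine huniq (x + y : W).1 _ _ (hc (x + y)) ?_
    have h1 := N.add_mem (hc x) (hc y)
    have h2 : (x + y : W).1 - (c x + c y) • f₀ = x.1 - c x • f₀ + (y.1 - c y • f₀) := by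
      rw [add_smul, Submodule.coe_add]
      abel
    rw [h2]
    exact h1
  · refine huniq (s • x : W).1 _ _ (hc (s • x)) ?_
    have h1 := N.smul_mem s (hc x)
    have h2 : (s • x : W).1 - (RingHom.id k s • c x) • f₀ = s • (x.1 - c x • f₀) := by
      rw [RingHom.id_apply, smul_sub, smul_smul, smul_eq_mul, Submodule.coe_smul]
    rw [h2]
    exact h1
  · show c f = 0 ↔ _
    constructor
    · intro h1
      have h2 := hc f
      rwa [h1, zero_smul, sub_zero] at h2
    · intro h1
      refine huniq f.1 _ _ (hc f) ?_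
      rwa [zero_smul, sub_zero]

end VFib

/-- THE FIBRES. There are `e, r, D` with `r > 0` and distinct points `c_1, …, c_D` such that
`dim F (n + e) = n + r` for all `n`, and for all points `p_1, …, p_n` (not necessarily distinct)
there is an injection `T : Fin r → Fin D` such that no `f ≠ 0` in `F (n + e)` vanishes at
`p_1, …, p_n, c_{T 1}, …, c_{T r}` (in the sense of ideals, with multiplicities).

Proof. `G = g.toNat`, `h = G + j₀`, `e = h + j₀`, `r = e + 1 - g`, `D = e + 1`. Let
`a = ∏ m_{p_i}` (colength `n`). (1) `dim F (n + h) = n + h + 1 - g > n`: there is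
`0 ≠ φ ∈ F (n + h) ∩ a`. `F (n + e) → B / a` is onto: for `b ∈ B`, `surj_quot` for `φ`,
`j = n + h`, `i = j₀`, gives `b' ∈ F (n + e)`, `b - b' ∈ (φ) ⊆ a`. (2) So `E = F (n + e) ∩ a` has
dimension `r`. (3) The map `E → ⊕_{l : Fin D} a / a m_{c_l} = k^D` (`line`) is injective: for `f` in
the kernel, `f ∈ a ∏ m_{c_l}` (`inter`), of colength `n + e + 1` (`colength` for `Fin (n + D)`),
so `f = 0` by `finite_quot` (`dim B/(f) ≤ n + e`). (4) An injective linear map `E → k^D`,
`dim E = r`, stays injective after projection to suitable `r` coordinates: `T`. -/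
theorem PtCurve.fib [IsAlgClosed k] (C : PtCurve k) :
    ∃ (e r D : ℕ) (c : Fin D → C.Pt k), Function.Injective c ∧ 0 < r ∧
      (∀ n, Module.finrank k (C.F (n + e)) = n + r) ∧
      ∀ (n : ℕ) (p : Fin n → C.Pt k), ∃ T : Fin r ↪ Fin D, ∀ f ∈ C.F (n + e),
        f ∈ (∏ i, C.mI (p i)) * (∏ j, C.mI (c (T j))) → f = 0 := by
  classical
  obtain ⟨h, hh⟩ : ∃ h : ℕ, h = C.g.toNat + C.j₀ := ⟨_, rfl⟩
  obtain ⟨e, he⟩ : ∃ e : ℕ, e = h + C.j₀ := ⟨_, rfl⟩
  obtain ⟨r, hr⟩ : ∃ r : ℕ, r = ((e : ℤ) + 1 - C.g).toNat := ⟨_, rfl⟩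
  have hg : C.g ≤ C.g.toNat := Int.self_le_toNat _
  have hr' : (r : ℤ) = e + 1 - C.g := by
    rw [hr]
    apply Int.toNat_of_nonneg
    omega
  have hr0 : 0 < r := by omega
  obtain ⟨c, hc⟩ := C.exists_pts (e + 1)
  have hdim : ∀ n, Module.finrank k (C.F (n + e)) = n + r := by
    intro n
    have h1 := C.finrank (n + e) (by omega)
    have h2 : (Module.finrank k (C.F (n + e)) : ℤ) = n + r := by
      rw [h1, hr']
      push_cast
      ring
    exact_mod_cast h2
  refine ⟨e, r, e + 1, c, hc, hr0, hdim, ?_⟩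
  intro n p
  obtain ⟨a, ha⟩ : ∃ a : Ideal C.B, a = ∏ i, C.mI (p i) := ⟨_, rfl⟩
  obtain ⟨hfin, hcol⟩ := C.colength n p
  rw [← ha] at hfin hcol
  have hmk : ∀ b : C.B, a.mkQ b = 0 ↔ b ∈ a := fun b => Submodule.Quotient.mk_eq_zero _
  -- the element `φ`
  have hφ : ∃ φ ∈ C.F (n + h), φ ≠ 0 ∧ φ ∈ a := by
    let q : C.F (n + h) →ₗ[k] (C.B ⧸ a) := (a.mkQ.restrictScalars k).comp (C.F (n + h)).subtype
    have h1 : ¬ Function.Injective q := by
      intro hinj
      have h2 := LinearMap.finrank_le_finrank_of_injective hinj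
      rw [hcol] at h2
      have h3 := C.finrank (n + h) (by omega)
      have h4 : ((n + h : ℕ) : ℤ) = n + h := by push_cast; rfl
      omega
    rw [injective_iff_map_eq_zero] at h1
    push Not at h1
    obtain ⟨φ, h2, h3⟩ := h1
    exact ⟨φ.1, φ.2, fun h4 => h3 (Subtype.ext h4), (hmk _).1 h2⟩
  obtain ⟨φ, hφ1, hφ0, hφa⟩ := hφ
  have ha0 : a ≠ ⊥ := by
    intro h1
    rw [h1] at hφa
    exact hφ0 hφa
  -- the space `E`
  let q : C.F (n + e) →ₗ[k] (C.B ⧸ a) := (a.mkQ.restrictScalars k).comp (C.F (n + e)).subtype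
  have hq : Function.Surjective q := by
    intro y
    obtain ⟨b, rfl⟩ := Submodule.Quotient.mk_surjective a y
    obtain ⟨b', hb', hb⟩ := C.surj_quot hφ0 hφ1 (le_refl C.j₀) b
    have h1 : C.j₀ + (n + h) = n + e := by omega
    rw [h1] at hb'
    refine ⟨⟨b', hb'⟩, ?_⟩
    have h2 : b - b' ∈ a := by
      have h3 : Ideal.span {φ} ≤ a := by
        rw [Ideal.span_le, Set.singleton_subset_iff]
        exact hφa
      exact h3 hb
    exact ((Submodule.Quotient.eq a).2 h2).symm
  have hE : Module.finrank k (LinearMap.ker q) = r := by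
    have h1 := LinearMap.finrank_range_add_finrank_ker q
    rw [LinearMap.range_eq_top.2 hq, finrank_top, hcol, hdim] at h1
    omega
  -- the coordinates
  have hψ : ∀ l : Fin (e + 1), ∃ ψ : (a.restrictScalars k) →ₗ[k] k,
      ∀ f, ψ f = 0 ↔ (f : C.B) ∈ a * C.mI (c l) := by
    intro l
    obtain ⟨h1, f₀, h2, h3⟩ := C.line ha0 (c l)
    refine VFib.line (a.restrictScalars k) ((a * C.mI (c l)).restrictScalars k) (f₀ := f₀) ?_ h3
    intro h4
    apply h1
    refine le_antisymm Ideal.mul_le_left fun f hf => ?_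
    obtain ⟨s, hs⟩ := h3 f hf
    have h5 := ((a * C.mI (c l)).restrictScalars k).smul_mem s h4
    have h6 := ((a * C.mI (c l)).restrictScalars k).add_mem hs h5
    rw [sub_add_cancel] at h6
    exact h6
  choose ψ hψ using hψ
  have hker : ∀ f : LinearMap.ker q, (f.1 : C.B) ∈ a := fun f => (hmk _).1 f.2
  let ι : LinearMap.ker q →ₗ[k] (a.restrictScalars k) :=
    { toFun := fun f => ⟨f.1.1, hker f⟩
      map_add' := fun _ _ => rfl
      map_smul' := fun _ _ => rfl }
  let L : LinearMap.ker q →ₗ[k] (Fin (e + 1) → k) := LinearMap.pi fun l => (ψ l).comp ι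
  have hL : ∀ f l, L f l = 0 ↔ (f.1 : C.B) ∈ a * C.mI (c l) := fun f l => hψ l (ι f)
  have hLinj : Function.Injective L := by
    rw [injective_iff_map_eq_zero]
    intro f hf
    by_contra hf0
    have h1 : (f.1 : C.B) ∈ a * ∏ l ∈ Finset.univ, C.mI (c l) :=
      C.inter Finset.univ c hc.injOn (hker f) fun l _ => (hL f l).1 (congrFun hf l)
    have h2 : (f.1 : C.B) ≠ 0 := fun h3 => hf0 (Subtype.ext (Subtype.ext h3))
    obtain ⟨h3, h4⟩ := C.finite_quot h2 f.1.2
    obtain ⟨h5, h6⟩ := C.colength (n + (e + 1)) (Fin.append p c)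
    have h7 : ∏ i, C.mI (Fin.append p c i) = a * ∏ l ∈ Finset.univ, C.mI (c l) := by
      rw [Fin.prod_univ_add, ha]
      congr 1
      · refine Finset.prod_congr rfl fun i _ => ?_
        rw [Fin.append_left]
      · refine Finset.prod_congr rfl fun i _ => ?_
        rw [Fin.append_right]
    rw [h7] at h6 h5
    have h8 : Ideal.span {(f.1 : C.B)} ≤ a * ∏ l ∈ Finset.univ, C.mI (c l) := by
      rw [Ideal.span_le, Set.singleton_subset_iff]
      exact h1
    have h9 : Function.Surjective (Ideal.Quotient.factorₐ k h8).toLinearMap :=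
      Ideal.Quotient.factor_surjective h8
    have h10 := LinearMap.finrank_le_finrank_of_surjective h9
    omega
  obtain ⟨T, hT⟩ := exists_coords (E := LinearMap.ker q) (r := r) (D := e + 1) hE L hLinj
  refine ⟨T, fun f hf1 hf2 => ?_⟩
  rw [← ha] at hf2
  have hfa : f ∈ a := Ideal.mul_le_left hf2
  have hfk : (⟨f, hf1⟩ : C.F (n + e)) ∈ LinearMap.ker q := (hmk f).2 hfa
  have h1 := hT ⟨⟨f, hf1⟩, hfk⟩ (fun j => by
    rw [hL]
    refine Ideal.mul_mono_right ?_ hf2
    exact Ideal.le_of_dvd (Finset.dvd_prod_of_mem (fun j => C.mI (c (T j))) (Finset.mem_univ j)))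
  exact congrArg (fun x : LinearMap.ker q => (x.1 : C.B)) h1

end Pool.Agent.MP_6e5bed_ag_KC
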