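import Pool.Agent.Lib.MP_6e5bed_ag_KC.VMap
import Pool.Agent.Lib.MP_6e5bed_ag_KC.VLp
import Pool.Agent.Lib.MP_6e5bed_ag_KC.VDet

set_option autoImplicit false

/-!
# KC, commutative side: the Vandermonde determinants over a domain of finite type
-/

namespace Pool.Agent.MP_6e5bed_ag_KC

open scoped TensorProduct

universe u v

variable {k : Type u} [Field k] (C : PtCurve k)

namespace VGlob

/-- The map into the local ring. -/
noncomputable def phi {R : Type u} [CommRing R] [Algebra k R] (m : Ideal R) [m.IsPrime] :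
    R →ₐ[k] Localization.AtPrime m := IsScalarTower.toAlgHom k R (Localization.AtPrime m)

theorem mem_vand [IsAlgClosed k] {R : Type u} [CommRing R] [Algebra k R]
    [Algebra.FiniteType k R] {m : ℕ} (f : Fin m → C.B) (z : Fin m → C.Pt R) :
    C.vdet f z ∈ C.vand z := by
  refine Ideal.mem_of_localization_maximal fun P hP => ?_
  obtain ⟨ρ0, ρ, -, -⟩ := exists_res (k := k) P
  have h1 := (C.locDet ρ (fun b => (phi (k := k) P).comp (z b)) f).1
  rw [← C.map_vand, ← C.map_vdet] at h1
  exact h1

end VGlob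

/-- THE GLOBAL STATEMENT. Families `z t` (`t ∈ τ`) of `m` points with invertible `vand (z t)`, such
that for every closed point `ρ` of `R` there is a `t` such that the `f_a` are linearly independent
modulo the product of the maximal ideals of the points `ρ (z t b)`. Then
`vdet (z t) = (ideal b_t) · vand (z t)` with `∑ b_t = R`.

Proof. `vdet ∈ vand`: locally at every maximal ideal (`locDet` (1), `map_vand`, `map_vdet`,
`Ideal.mem_of_localization_maximal` or by hand). `b_t` from `Inv.colon`. If `⨆ b_t ≠ ⊤`, it is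
contained in a maximal ideal `𝔪`, `ρ0` its residue map (`exists_res`), `t` the index for `ρ0`: by
`locDet` (2), in the local ring `vand = (vdet)`, and `b_t vand = (vdet)`, `vdet ≠ 0` (as
`vand ≠ 0`), so `b_t` generates the unit ideal of the local ring, a contradiction. -/
theorem PtCurve.glob [IsAlgClosed k] {R : Type u} [CommRing R] [IsDomain R] [Algebra k R]
    [Algebra.FiniteType k R] {τ : Type} {m : ℕ} (f : Fin m → C.B) (z : τ → Fin m → C.Pt R)
    (hN : ∀ t, Inv (C.vand (z t)))
    (h : ∀ ρ : R →ₐ[k] k, ∃ t, ∀ y : Fin m → k,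
      ∑ a, y a • f a ∈ ∏ b, C.mI (ρ.comp (z t b)) → y = 0) :
    ∃ b : τ → Ideal R, (∀ t, b t * C.vand (z t) = Ideal.span {C.vdet f (z t)}) ∧
      ⨆ t, b t = ⊤ := by
  choose b hb using fun t => (hN t).colon (VGlob.mem_vand C f (z t))
  refine ⟨b, hb, ?_⟩
  by_contra htop
  obtain ⟨P, hP, hle⟩ := Ideal.exists_le_maximal _ htop
  obtain ⟨ρ0, ρ, hρ, hker⟩ := exists_res (k := k) P
  obtain ⟨t, ht⟩ := h ρ0
  have hcomp : ∀ c, ρ.comp ((VGlob.phi (k := k) P).comp (z t c)) = ρ0.comp (z t c) := by
    intro c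
    ext x
    exact hρ _
  have h2 := (C.locDet ρ (fun c => (VGlob.phi (k := k) P).comp (z t c)) f).2 (by
    intro y hy
    refine ht y ?_
    simpa only [hcomp] using hy)
  rw [← C.map_vand, ← C.map_vdet] at h2
  set φ := VGlob.phi (k := k) P with hφ
  have hinj : Function.Injective φ := by
    show Function.Injective (algebraMap R (Localization.AtPrime P))
    exact IsLocalization.injective _ P.primeCompl_le_nonZeroDivisors
  have hdom : IsDomain (Localization.AtPrime P) :=
    IsLocalization.isDomain_localization P.primeCompl_le_nonZeroDivisors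
  have hd : φ (C.vdet f (z t)) ≠ 0 := by
    intro h0
    obtain ⟨a, ha, ha0⟩ := Submodule.exists_mem_ne_zero_of_ne_bot (hN t).ne_bot
    have h3 : φ a ∈ Ideal.map φ (C.vand (z t)) := Ideal.mem_map_of_mem φ ha
    rw [h2, h0, Ideal.span_singleton_eq_bot.2 rfl, Ideal.mem_bot] at h3
    exact ha0 (hinj (by rw [h3, map_zero]))
  have h4 : Ideal.map φ (b t) * Ideal.span {φ (C.vdet f (z t))} =
      Ideal.span {φ (C.vdet f (z t))} := by
    rw [← h2, ← Ideal.map_mul, hb t, h2, Ideal.map_span, Set.image_singleton]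
  have h5 : φ (C.vdet f (z t)) ∈ Ideal.map φ (b t) * Ideal.span {φ (C.vdet f (z t))} := by
    rw [h4]
    exact Ideal.mem_span_singleton_self _
  obtain ⟨x, hx, hx1⟩ := Ideal.mem_mul_span_singleton.1 h5
  have hx2 : x = 1 := mul_right_cancel₀ hd (by rw [hx1, one_mul])
  have h6 : Ideal.map φ (b t) ≤ RingHom.ker ρ := by
    rw [Ideal.map_le_iff_le_comap]
    intro r hr
    have hrP : r ∈ P := hle (Ideal.mem_iSup_of_mem t hr)
    rw [← hker, RingHom.mem_ker] at hrP
    rw [Ideal.mem_comap, RingHom.mem_ker]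
    have h7 := hρ r
    rw [hrP] at h7
    exact h7
  have h8 := h6 hx
  rw [hx2, RingHom.mem_ker, map_one] at h8
  exact one_ne_zero h8

end Pool.Agent.MP_6e5bed_ag_KC
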