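import Pool.Agent.Lib.MP_6e5bed_ag_KC.Defs

set_option autoImplicit false

/-!
# KC, commutative side: invertible ideals of a domain
-/

namespace Pool.Agent.MP_6e5bed_ag_KC

universe u v

/-- The invertible ideals of a domain. -/
def Inv {R : Type u} [CommRing R] (I : Ideal R) : Prop :=
  ∃ (J : Ideal R) (a : R), a ≠ 0 ∧ I * J = Ideal.span {a}

/-- A function on the invertible ideals of `R` which has the same sum over two finite families of
invertible ideals with isomorphic direct sums. -/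
structure IdFun (R : Type u) [CommRing R] (V : Type v) [AddCommGroup V] where
  g : Ideal R → V
  sum : ∀ {ι κ : Type} [Fintype ι] [Fintype κ] (I : ι → Ideal R) (J : κ → Ideal R),
    (∀ i, Inv (I i)) → (∀ j, Inv (J j)) → Nonempty ((∀ i, I i) ≃ₗ[R] (∀ j, J j)) →
    ∑ i, g (I i) = ∑ j, g (J j)

variable {R : Type u} [CommRing R]

/-- Isomorphic invertible ideals have the same value (families with one member, `Unit`). -/
theorem IdFun.iso {V : Type v} [AddCommGroup V] (χ : IdFun R V) {I J : Ideal R} (hI : Inv I)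
    (hJ : Inv J) (e : Nonempty (I ≃ₗ[R] J)) : χ.g I = χ.g J := by
  have h := χ.sum (ι := Unit) (κ := Unit) (fun _ => I) (fun _ => J) (fun _ => hI) (fun _ => hJ)
    ⟨LinearEquiv.piCongrRight fun _ => e.some⟩
  simpa using h

variable [IsDomain R]

theorem Inv.top : Inv (⊤ : Ideal R) :=
  ⟨⊤, 1, one_ne_zero, by rw [Ideal.mul_top, Ideal.span_singleton_one]⟩

/-- `I J = (a)`, `I' J' = (a')` give `(I I') (J J') = (a a')`. -/
theorem Inv.mul {I J : Ideal R} (hI : Inv I) (hJ : Inv J) : Inv (I * J) := by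
  obtain ⟨I', a, ha, hI⟩ := hI
  obtain ⟨J', b, hb, hJ⟩ := hJ
  refine ⟨I' * J', a * b, mul_ne_zero ha hb, ?_⟩
  rw [mul_mul_mul_comm, hI, hJ, Ideal.span_singleton_mul_span_singleton]

theorem Inv.ne_bot {I : Ideal R} (h : Inv I) : I ≠ ⊥ := by
  obtain ⟨J, a, ha, hJ⟩ := h
  rintro rfl
  rw [Ideal.bot_mul] at hJ
  exact ha (Ideal.span_singleton_eq_bot.1 hJ.symm)

/-- Multiply by `J0` with `I J0 = (a)`: `(a) J = (a) J'`, and `a ≠ 0`
(`Ideal.span_singleton_mul_right_inj`). -/
theorem Inv.cancel {I J J' : Ideal R} (hI : Inv I) (h : I * J = I * J') : J = J' := by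
  obtain ⟨J0, a, ha, hJ0⟩ := hI
  have h1 : Ideal.span {a} * J = Ideal.span {a} * J' := by
    rw [← hJ0, mul_comm I J0, mul_assoc, mul_assoc, h]
  exact (Ideal.span_singleton_mul_right_inj ha).1 h1

/-- `(I J) J0 = I (J J0)`. -/
theorem Inv.left {I J : Ideal R} (h : Inv (I * J)) : Inv I := by
  obtain ⟨J0, a, ha, h⟩ := h
  exact ⟨J * J0, a, ha, by rw [← mul_assoc, h]⟩

/-- `I` is isomorphic to `(a) I` for `a ≠ 0`, by multiplication with `a`. -/
theorem scaleIso {a : R} (ha : a ≠ 0) (I : Ideal R) :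
    Nonempty (I ≃ₗ[R] (Ideal.span {a} * I : Ideal R)) := by
  let f : I →ₗ[R] (Ideal.span {a} * I : Ideal R) :=
    { toFun := fun x => ⟨a * x, Ideal.mul_mem_mul (Ideal.mem_span_singleton_self a) x.2⟩
      map_add' := fun x y => Subtype.ext (by
        show a * ((x + y : I) : R) = a * x + a * y
        rw [Submodule.coe_add, mul_add])
      map_smul' := fun r x => Subtype.ext (by
        show a * ((r • x : I) : R) = r • (a * (x : R))
        rw [Submodule.coe_smul, smul_eq_mul, smul_eq_mul]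
        ring) }
  refine ⟨LinearEquiv.ofBijective f ⟨?_, ?_⟩⟩
  · intro x y hxy
    have h1 : a * (x : R) = a * y := congrArg Subtype.val hxy
    exact Subtype.ext (mul_left_cancel₀ ha h1)
  · rintro ⟨y, hy⟩
    obtain ⟨z, hz, hzy⟩ := Ideal.mem_span_singleton_mul.1 hy
    exact ⟨⟨z, hz⟩, Subtype.ext hzy⟩

/-- The monoid of the invertible ideals. -/
def InvM (R : Type u) [CommRing R] [IsDomain R] : Submonoid (Ideal R) where
  carrier := {I | Inv I}
  mul_mem' := fun h h' => h.mul h'
  one_mem' := by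
    rw [Ideal.one_eq_top]
    exact Inv.top

end Pool.Agent.MP_6e5bed_ag_KC
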