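import Pool.Agent.Lib.MP_6e5bed_ag_KC.VPt

set_option autoImplicit false

/-!
# KC, commutative side: points with values in a local ring

`Λ` is a local `k`-algebra with residue field `k` (given by `ρ : Λ → k`), `z, w : B → Λ` are
`Λ`-valued points.
-/

namespace Pool.Agent.MP_6e5bed_ag_KC

open scoped TensorProduct

universe u v

variable {k : Type u} [Field k] (C : PtCurve k) {Λ : Type u} [CommRing Λ] [Algebra k Λ]

/-- `coin x y` is generated by the `x b - y b` (`diag` is generated by the `b ⊗ 1 - 1 ⊗ b`: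
`∑ b ⊗ b' = ∑ (b ⊗ 1 - 1 ⊗ b) (1 ⊗ b') + 1 ⊗ ∑ b b'`). -/
theorem PtCurve.coin_eq (x y : C.Pt Λ) :
    C.coin x y = Ideal.span (Set.range fun b : C.B => x b - y b) := by
  have h1 : C.diag = Ideal.span (Set.range fun b : C.B => (1 : C.B) ⊗ₜ[k] b - b ⊗ₜ[k] 1) :=
    (KaehlerDifferential.span_range_eq_ideal k C.B).symm
  have hp : ∀ b : C.B, C.pair x y ((1 : C.B) ⊗ₜ[k] b - b ⊗ₜ[k] 1) = y b - x b := by
    intro b
    rw [map_sub]
    simp [PtCurve.pair]
  unfold PtCurve.coin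
  rw [h1, Ideal.map_span]
  apply le_antisymm
  · rw [Ideal.span_le]
    rintro _ ⟨_, ⟨b, rfl⟩, rfl⟩
    have h2 : x b - y b ∈ Ideal.span (Set.range fun b : C.B => x b - y b) :=
      Ideal.subset_span ⟨b, rfl⟩
    have h3 := neg_mem h2
    rw [neg_sub] at h3
    change C.pair x y ((1 : C.B) ⊗ₜ[k] b - b ⊗ₜ[k] 1) ∈ _
    rw [hp]
    exact h3
  · rw [Ideal.span_le]
    rintro _ ⟨b, rfl⟩
    have h2 : C.pair x y ((1 : C.B) ⊗ₜ[k] b - b ⊗ₜ[k] 1) ∈
        Ideal.span (C.pair x y '' Set.range fun b : C.B => (1 : C.B) ⊗ₜ[k] b - b ⊗ₜ[k] 1) :=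
      Ideal.subset_span ⟨_, ⟨b, rfl⟩, rfl⟩
    have h3 := neg_mem h2
    rw [hp, neg_sub] at h3
    exact h3

theorem PtCurve.coin_comm (x y : C.Pt Λ) : C.coin x y = C.coin y x := by
  have key : ∀ x y : C.Pt Λ, C.coin x y ≤ C.coin y x := by
    intro x y
    rw [C.coin_eq, C.coin_eq, Ideal.span_le]
    rintro _ ⟨b, rfl⟩
    have h2 : y b - x b ∈ Ideal.span (Set.range fun b : C.B => y b - x b) :=
      Ideal.subset_span ⟨b, rfl⟩
    have h3 := neg_mem h2
    rw [neg_sub] at h3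
    exact h3
  exact le_antisymm (key x y) (key y x)

/-- `coin x y` is generated by the `x (b_l) - y (b_l)`, if `b_1, …, b_K` generate the algebra `B`
(`x(bb') - y(bb') = x(b) (x(b') - y(b')) + y(b') (x(b) - y(b))`). -/
theorem PtCurve.coin_gens : ∃ (K : ℕ) (b : Fin K → C.B), ∀ (R : Type u) [CommRing R]
    [Algebra k R] (x y : C.Pt R),
    C.coin x y = Ideal.span (Set.range fun l => x (b l) - y (b l)) := by
  obtain ⟨t, ht⟩ := (inferInstance : Algebra.FiniteType k C.B).out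
  refine ⟨t.card, fun l => (t.equivFin.symm l : C.B), ?_⟩
  intro R _ _ x y
  rw [C.coin_eq]
  apply le_antisymm
  · rw [Ideal.span_le]
    rintro _ ⟨b, rfl⟩
    have hb : b ∈ Algebra.adjoin k (t : Set C.B) := by
      rw [ht]
      exact Algebra.mem_top
    change x b - y b ∈ _
    induction hb using Algebra.adjoin_induction with
    | mem c hc =>
      refine Ideal.subset_span ⟨t.equivFin ⟨c, hc⟩, ?_⟩
      simp
    | algebraMap r =>
      rw [AlgHom.commutes, AlgHom.commutes, sub_self]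
      exact zero_mem _
    | add b c _ _ hb hc =>
      rw [map_add, map_add, add_sub_add_comm]
      exact add_mem hb hc
    | mul b c _ _ hb hc =>
      have h1 : x (b * c) - y (b * c) = x b * (x c - y c) + y c * (x b - y b) := by
        rw [map_mul, map_mul]
        ring
      rw [h1]
      exact add_mem (Ideal.mul_mem_left _ _ hc) (Ideal.mul_mem_left _ _ hb)
  · rw [Ideal.span_le]
    rintro _ ⟨l, rfl⟩
    exact Ideal.subset_span ⟨_, rfl⟩

/-- The evaluation `b ⊗ l ↦ z(b) l`. -/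
noncomputable def PtCurve.ev (z : C.Pt Λ) : C.B ⊗[k] Λ →ₐ[k] Λ :=
  Algebra.TensorProduct.lift z (AlgHom.id k Λ) fun _ _ => Commute.all _ _

/-- The ideal of the graph of `z`. -/
noncomputable def PtCurve.gI (z : C.Pt Λ) : Ideal (C.B ⊗[k] Λ) := RingHom.ker (C.ev z)

/-- `b ⊗ 1 - 1 ⊗ z(b)` -/
noncomputable def PtCurve.del (z : C.Pt Λ) (b : C.B) : C.B ⊗[k] Λ := b ⊗ₜ 1 - 1 ⊗ₜ z b

theorem PtCurve.ev_tmul (z : C.Pt Λ) (b : C.B) (l : Λ) : C.ev z (b ⊗ₜ l) = z b * l := by
  simp [PtCurve.ev]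

theorem PtCurve.del_mem (z : C.Pt Λ) (b : C.B) : C.del z b ∈ C.gI z := by
  unfold PtCurve.gI PtCurve.del
  rw [RingHom.mem_ker, map_sub, C.ev_tmul, C.ev_tmul, map_one, one_mul, mul_one, sub_self]

/-- `x = ∑ b ⊗ l` with `∑ z(b) l = 0` is `∑ (1 ⊗ l) (b ⊗ 1 - 1 ⊗ z(b))`. -/
theorem PtCurve.gI_eq (z : C.Pt Λ) : C.gI z = Ideal.span (Set.range (C.del z)) := by
  apply le_antisymm
  · intro x hx
    have key : ∀ x : C.B ⊗[k] Λ,
        x - (1 : C.B) ⊗ₜ[k] C.ev z x ∈ Ideal.span (Set.range (C.del z)) := by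
      intro x
      induction x using TensorProduct.induction_on with
      | zero =>
        rw [map_zero, TensorProduct.tmul_zero, sub_zero]
        exact zero_mem _
      | tmul b l =>
        have h1 : b ⊗ₜ[k] l - (1 : C.B) ⊗ₜ[k] C.ev z (b ⊗ₜ l) =
            ((1 : C.B) ⊗ₜ[k] l) * C.del z b := by
          unfold PtCurve.del
          rw [C.ev_tmul, mul_sub, Algebra.TensorProduct.tmul_mul_tmul,
            Algebra.TensorProduct.tmul_mul_tmul, one_mul, mul_one, one_mul, mul_comm l]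
        rw [h1]
        exact Ideal.mul_mem_left _ _ (Ideal.subset_span ⟨b, rfl⟩)
      | add x y hx hy =>
        rw [map_add, TensorProduct.tmul_add, add_sub_add_comm]
        exact add_mem hx hy
    have h1 := key x
    have h2 : C.ev z x = 0 := hx
    rwa [h2, TensorProduct.tmul_zero, sub_zero] at h1
  · rw [Ideal.span_le]
    rintro _ ⟨b, rfl⟩
    exact C.del_mem z b

end Pool.Agent.MP_6e5bed_ag_KC
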