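import Mathlib

set_option autoImplicit false

/-!
# KC, commutative side: logarithms of unipotent elements
-/

namespace Pool.Agent.MP_6e5bed_ag_KC

open Polynomial

universe u

namespace VLog

/-- the truncated exponential of a polynomial -/
noncomputable def T (n : ℕ) (p : ℚ[X]) : ℚ[X] :=
  ∑ i ∈ Finset.range n, ((i.factorial : ℚ)⁻¹) • p ^ i

theorem root_dvd {p : ℚ[X]} (h : p.eval 1 = 0) : (1 - X : ℚ[X]) ∣ p := by
  have h1 : (X - C 1 : ℚ[X]) ∣ p := dvd_iff_isRoot.2 h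
  have h2 : (1 - X : ℚ[X]) = -(X - C 1) := by
    rw [map_one]
    ring
  rw [h2]
  exact neg_dvd.2 h1

theorem exists_D (n : ℕ) : ∃ D : ℚ[X], D.eval 1 = 0 ∧ (derivative D).eval 1 = -1 ∧
    (1 - X : ℚ[X]) ^ (n + 2) ∣ T (n + 2) (-D) - X := by
  induction n with
  | zero =>
    refine ⟨1 - X, by simp, by simp, ?_⟩
    have h : T (0 + 2) (-(1 - X)) - X = 0 := by
      unfold T
      rw [Finset.sum_range_succ, Finset.sum_range_one]
      simp
    rw [h]
    exact dvd_zero _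
  | succ n ih =>
    obtain ⟨D, hD, hD', hdiv⟩ := ih
    have hw : (1 - X : ℚ[X]) ∣ D := root_dvd hD
    have h1 : T (n + 3) (-D) = T (n + 2) (-D) + (((n + 2).factorial : ℚ)⁻¹) • (-D) ^ (n + 2) := by
      unfold T
      rw [Finset.sum_range_succ]
    have h2 : (1 - X : ℚ[X]) ^ (n + 2) ∣ T (n + 3) (-D) - X := by
      have h3 : T (n + 3) (-D) - X = (T (n + 2) (-D) - X) +
          C (((n + 2).factorial : ℚ)⁻¹) * (-D) ^ (n + 2) := by
        rw [h1, smul_eq_C_mul]
        ring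
      rw [h3]
      exact dvd_add hdiv (Dvd.dvd.mul_left (pow_dvd_pow_of_dvd ((dvd_neg).2 hw) _) _)
    obtain ⟨R, hR⟩ := h2
    obtain ⟨c, hc⟩ : ∃ c, c = R.eval 1 := ⟨_, rfl⟩
    have hRc : (1 - X : ℚ[X]) ∣ R - C c := root_dvd (by rw [eval_sub, eval_C, hc, sub_self])
    obtain ⟨a, ha⟩ : ∃ a, a = -(D + C c * (1 - X) ^ (n + 2)) := ⟨_, rfl⟩
    have hab : a - -D = -(C c * (1 - X) ^ (n + 2)) := by
      rw [ha]
      ring
    have hwa : (1 - X : ℚ[X]) ∣ a := by
      rw [ha]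
      refine (dvd_neg).2 (dvd_add hw (Dvd.dvd.mul_left ?_ _))
      exact dvd_pow_self _ (by omega)
    have hwn : (1 - X : ℚ[X]) ^ (n + 2) ∣ a - -D := by
      rw [hab]
      exact (dvd_neg).2 (Dvd.intro_left _ rfl)
    refine ⟨D + C c * (1 - X) ^ (n + 2), ?_, ?_, ?_⟩
    · rw [eval_add, hD, eval_mul, eval_pow]
      simp
    · rw [derivative_add, eval_add, hD']
      simp [derivative_pow]
    · rw [← ha]
      have h5 : T (n + 1 + 2) a - X = (1 - X) ^ (n + 2) * (R - C c) +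
          ∑ i ∈ Finset.range (n + 1), C (((i + 1 + 1).factorial : ℚ)⁻¹) *
            (a ^ (i + 1 + 1) - (-D) ^ (i + 1 + 1)) := by
        have h6 : T (n + 1 + 2) a = T (n + 3) (-D) + (a - -D) +
            ∑ i ∈ Finset.range (n + 1), C (((i + 1 + 1).factorial : ℚ)⁻¹) *
              (a ^ (i + 1 + 1) - (-D) ^ (i + 1 + 1)) := by
          unfold T
          rw [Finset.sum_range_succ' _ (n + 2), Finset.sum_range_succ' _ (n + 1),
            Finset.sum_range_succ' _ (n + 2), Finset.sum_range_succ' _ (n + 1)]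
          simp only [mul_sub, Finset.sum_sub_distrib, smul_eq_C_mul]
          simp
          ring
        rw [h6, hab]
        linear_combination hR
      rw [h5]
      refine dvd_add ?_ (Finset.dvd_sum fun i _ => Dvd.dvd.mul_left ?_ _)
      · rw [show n + 1 + 2 = (n + 2) + 1 by ring, pow_succ]
        exact mul_dvd_mul_left _ hRc
      · have h7 : a ^ (i + 1 + 1) - (-D) ^ (i + 1 + 1) =
            a * (a ^ (i + 1) - (-D) ^ (i + 1)) + (-D) ^ (i + 1) * (a - -D) := by ring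
        rw [h7, show n + 1 + 2 = (n + 2) + 1 by ring, pow_succ']
        refine dvd_add (mul_dvd_mul hwa (hwn.trans (sub_dvd_pow_sub_pow _ _ _)))
          (mul_dvd_mul ?_ hwn)
        exact ((dvd_neg).2 hw).trans (dvd_pow_self _ (by omega))

end VLog

/-- The truncated logarithm. `D = ∑_{1 ≤ j < max K 2} (1 - X)^j / j`; then `exp (-D(x)) = x` if
`(1 - x)^K = 0`: this is `exp (log (1 - w)) = 1 - w` modulo `w^K`.
(Mathlib.RingTheory.PowerSeries.Log; or by induction on `K`: if `exp (-D(x)) = x` holds whenever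
`(1 - x)^K = 0`, `K ≥ 1`, then in `ℚ[X]/(1 - X)^(K+1)` one has `x exp (D(x)) = 1 - c (1 - x)^K` for
some `c ∈ ℚ`, and `D' = D + c (1 - X)^K` works for `K + 1`; to pass to an arbitrary `S` use the
algebra map `ℚ[X]/(1 - X)^(K+1) → S`. Start: `K = 2`, `D = 1 - X`.) -/
theorem exists_log (K : ℕ) : ∃ D : ℚ[X], D.eval 1 = 0 ∧ (derivative D).eval 1 = -1 ∧
    ∀ (S : Type u) [CommRing S] [Algebra ℚ S] (x : S), (1 - x) ^ K = 0 →
      IsNilpotent (aeval x D) ∧ IsNilpotent.exp (-(aeval x D)) = x := by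
  obtain ⟨D, h1, h2, h3⟩ := VLog.exists_D K
  refine ⟨D, h1, h2, fun S _ _ x hx => ?_⟩
  have hx' : (1 - x) ^ (K + 2) = 0 := pow_eq_zero_of_le (by omega) hx
  obtain ⟨E, hE⟩ := VLog.root_dvd h1
  have hxE : aeval x D = (1 - x) * aeval x E := by
    rw [hE, map_mul, map_sub, map_one, aeval_X]
  have hpow : (aeval x D) ^ (K + 2) = 0 := by
    rw [hxE, mul_pow, hx', zero_mul]
  refine ⟨⟨K + 2, hpow⟩, ?_⟩
  have hpow' : (-(aeval x D)) ^ (K + 2) = 0 := by
    rw [neg_pow, hpow, mul_zero]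
  obtain ⟨R, hR⟩ := h3
  have h4 : VLog.T (K + 2) (-D) = X + (1 - X) ^ (K + 2) * R := by linear_combination hR
  have h5 : aeval x (VLog.T (K + 2) (-D)) = x := by
    rw [h4, map_add, map_mul, map_pow, map_sub, map_one, aeval_X, hx', zero_mul, add_zero]
  rw [IsNilpotent.exp_eq_sum hpow']
  conv_rhs => rw [← h5]
  unfold VLog.T
  rw [map_sum]
  refine Finset.sum_congr rfl fun i _ => ?_
  rw [map_smul, map_pow, map_neg]

end Pool.Agent.MP_6e5bed_ag_KC
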