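import Pool.Agent.Lib.MP_6e5bed_ag_KC.VNil
import Pool.Agent.Lib.MP_6e5bed_ag_KC.VGlob
import Pool.Agent.Lib.MP_6e5bed_ag_KC.VFib

set_option autoImplicit false

/-!
# KC, commutative side: the relations between the classes of the ideals `coin`
-/

namespace Pool.Agent.MP_6e5bed_ag_KC

open scoped TensorProduct

universe u v

variable {k : Type u} [Field k] (C : PtCurve k)
  {R : Type u} [CommRing R] [IsDomain R] [Algebra k R]
  {V : Type v} [AddCommGroup V] [Module ℚ V]

namespace VMain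

theorem prod_ofIso {N n : ℕ} {α : Type*} [CommMonoid α] (M : Finset (Fin N)) (o : Fin n ≃o M)
    (F : Fin N → α) : ∏ j ∈ M, F j = ∏ i : Fin n, F (o i) := by
  rw [← Finset.prod_coe_sort M F]
  exact (Fintype.prod_equiv o.toEquiv _ _ (fun _ => rfl)).symm

theorem prod_filter_ofIso {N n : ℕ} {α : Type*} [CommMonoid α] (M : Finset (Fin N))
    (o : Fin n ≃o M) (F : Fin N → α) (i : Fin n) :
    ∏ j ∈ M.filter (· < (o i : Fin N)), F j = ∏ l ∈ Finset.Iio i, F (o l) := by
  symm
  refine Finset.prod_bij (fun l _ => (o l : Fin N)) ?_ ?_ ?_ ?_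
  · intro l hl
    rw [Finset.mem_Iio] at hl
    rw [Finset.mem_filter]
    exact ⟨(o l).2, o.strictMono hl⟩
  · intro l _ l' _ h
    exact o.injective (Subtype.ext h)
  · intro j hj
    rw [Finset.mem_filter] at hj
    refine ⟨o.symm ⟨j, hj.1⟩, ?_, ?_⟩
    · rw [Finset.mem_Iio]
      have h : (⟨j, hj.1⟩ : M) < o i := hj.2
      have h2 := o.symm.strictMono h
      rwa [OrderIso.symm_apply_apply] at h2
    · rw [OrderIso.apply_symm_apply]
  · intro _ _
    rfl

theorem prod_Iio_castAdd {n r : ℕ} {α : Type*} [CommMonoid α] (F : Fin (n + r) → α) (i : Fin n) :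
    ∏ c ∈ Finset.Iio (Fin.castAdd r i), F c = ∏ c ∈ Finset.Iio i, F (Fin.castAdd r c) := by
  symm
  refine Finset.prod_bij (fun l _ => Fin.castAdd r l) ?_ ?_ ?_ ?_
  · intro l hl
    rw [Finset.mem_Iio] at hl ⊢
    exact hl
  · intro l _ l' _ h
    exact Fin.castAdd_injective n r h
  · intro j hj
    rw [Finset.mem_Iio] at hj
    have h1 : (j : ℕ) < i := hj
    refine ⟨⟨j, h1.trans i.2⟩, ?_, Fin.ext rfl⟩
    rw [Finset.mem_Iio]
    exact h1
  · intro _ _
    rfl

theorem prod_Iio_natAdd {n r : ℕ} {α : Type*} [CommMonoid α] (F : Fin (n + r) → α) (j : Fin r) :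
    ∏ c ∈ Finset.Iio (Fin.natAdd n j), F c =
      (∏ c : Fin n, F (Fin.castAdd r c)) * ∏ c ∈ Finset.Iio j, F (Fin.natAdd n c) := by
  have h0 : ∀ G : Fin (n + r) → α, ∏ c ∈ Finset.Iio (Fin.natAdd n j), G c =
      ∏ c, if c < Fin.natAdd n j then G c else 1 := by
    intro G
    rw [← Finset.prod_filter]
    refine Finset.prod_congr ?_ fun _ _ => rfl
    ext c
    simp
  rw [h0, Fin.prod_univ_add]
  congr 1
  · refine Finset.prod_congr rfl fun c _ => ?_
    rw [if_pos]
    rw [Fin.lt_def]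
    simp only [Fin.val_castAdd, Fin.val_natAdd]
    have := c.2
    omega
  · rw [← Finset.prod_filter]
    refine Finset.prod_congr ?_ fun _ _ => rfl
    ext c
    rw [Finset.mem_filter, Finset.mem_Iio, Fin.lt_def, Fin.lt_def]
    simp only [Fin.val_natAdd, Finset.mem_univ, true_and]
    omega

variable {k : Type u} [Field k] (C : PtCurve k)
  {R : Type u} [CommRing R] [IsDomain R] [Algebra k R]

omit [IsDomain R] in
/-- Two different constants have no coincidence. -/
theorem coin_cst {p q : C.Pt k} (h : p ≠ q) :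
    C.coin (C.cst p : C.Pt R) (C.cst q) = ⊤ := by
  have h1 : ∃ b, p b ≠ q b := by
    by_contra hc
    push Not at hc
    exact h (AlgHom.ext hc)
  obtain ⟨b, hb⟩ := h1
  have hu : IsUnit ((C.cst p : C.Pt R) b - C.cst q b) := by
    have e : (C.cst p : C.Pt R) b - C.cst q b = algebraMap k R (p b - q b) := by
      rw [map_sub]
      rfl
    rw [e]
    exact (IsUnit.mk0 _ (sub_ne_zero.2 hb)).map (algebraMap k R)
  rw [C.coin_eq]
  exact Ideal.eq_top_of_isUnit_mem _ (Ideal.subset_span ⟨b, rfl⟩) hu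

omit [IsDomain R] in
theorem comp_cst (ρ : R →ₐ[k] k) (p : C.Pt k) : ρ.comp (C.cst p : C.Pt R) = p := by
  ext b
  change ρ (algebraMap k R (p b)) = p b
  rw [AlgHom.commutes]
  rfl

open Classical in
/-- The ideal `coin x y` in the monoid of the invertible ideals. -/
noncomputable def cM [IsAlgClosed k] [Algebra.FiniteType k R] (x y : C.Pt R) : InvM R :=
  if h : x ≠ y then ⟨C.coin x y, C.coin_inv h⟩ else 1

theorem coe_cM [IsAlgClosed k] [Algebra.FiniteType k R] {x y : C.Pt R} (h : x ≠ y) :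
    (cM C x y : Ideal R) = C.coin x y := by
  rw [cM, dif_pos h]

theorem cls_cM [IsAlgClosed k] [Algebra.FiniteType k R] {V : Type v} [AddCommGroup V]
    [Module ℚ V] (χ : IdFun R V) {x y : C.Pt R} (h : x ≠ y) :
    χ.cls (cM C x y) = C.cl χ x y := by
  rw [cM, dif_pos h, C.cl_eq χ (C.coin_inv h)]

end VMain

/-- `vand` for the points `z_i` (`i ∈ M`), `c_{T j}`: the pairs of constants contribute `⊤`, since
`c(b) - c'(b)` is a unit for some `b`. Here `M` is enumerated by `e : Fin n ≃o M`. -/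
theorem PtCurve.vand_append {n r N : ℕ} (z : Fin N → C.Pt R) (M : Finset (Fin N))
    (e : Fin n ≃o M) (c : Fin r → C.Pt k) (hc : Function.Injective c) :
    C.vand (Fin.append (fun i => z (e i)) fun j => C.cst (c j)) =
      (∏ j ∈ M, ∏ i ∈ M.filter (· < j), C.coin (z i) (z j)) *
        ∏ i ∈ M, ∏ j, C.coin (z i) (C.cst (c j)) := by
  rw [PtCurve.vand, Fin.prod_univ_add]
  congr 1
  · rw [VMain.prod_ofIso M e]
    refine Finset.prod_congr rfl fun i _ => ?_
    rw [VMain.prod_Iio_castAdd, VMain.prod_filter_ofIso M e]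
    refine Finset.prod_congr rfl fun l _ => ?_
    rw [Fin.append_left, Fin.append_left]
  · rw [VMain.prod_ofIso M e, Finset.prod_comm]
    refine Finset.prod_congr rfl fun j _ => ?_
    rw [VMain.prod_Iio_natAdd]
    have h1 : ∏ l ∈ Finset.Iio j, C.coin
        (Fin.append (fun i => z (e i)) (fun j => C.cst (c j)) (Fin.natAdd n l) : C.Pt R)
        (Fin.append (fun i => z (e i)) (fun j => C.cst (c j)) (Fin.natAdd n j)) = 1 := by
      refine Finset.prod_eq_one fun l hl => ?_
      rw [Fin.append_right, Fin.append_right, Ideal.one_eq_top]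
      refine VMain.coin_cst C fun h => ?_
      rw [Finset.mem_Iio] at hl
      exact hl.ne (hc h)
    rw [h1, mul_one]
    refine Finset.prod_congr rfl fun i _ => ?_
    rw [Fin.append_left, Fin.append_right]

/-- THE RELATIONS. For `M ⊆ Fin N`, `∏_T (1 - ∏_{i < j ∈ M} [i, j] ∏_{i ∈ M, j} [i, c_{T j}]) = 0`,
`[i, j]` the class of `coin (z i) (z j)`, etc.

Proof. `n = |M|`, `f` a basis of `F (n + e)`, `m = n + r`. `glob` for the families
`Fin.append (z_i)_{i ∈ M} (c_{T j})_j`, `T ∈ (Fin r ↪ Fin D)`: the hypothesis is the property `hT`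
for the points `ρ (z_i)`, `i ∈ M` (`ρ.comp (cst c) = c`); `vand` is `vand_append`, it is invertible
(`coin_inv`); then `IdFun.rel`. -/
theorem PtCurve.relations [IsAlgClosed k] [Algebra.FiniteType k R] (χ : IdFun R V) {e r D : ℕ}
    (c : Fin D → C.Pt k) (hc : Function.Injective c)
    (hF : ∀ n, Module.finrank k (C.F (n + e)) = n + r)
    (hT : ∀ (n : ℕ) (p : Fin n → C.Pt k), ∃ T : Fin r ↪ Fin D, ∀ f ∈ C.F (n + e),
        f ∈ (∏ i, C.mI (p i)) * (∏ j, C.mI (c (T j))) → f = 0)
    {N : ℕ} (z : Fin N → C.Pt R) (hz : Function.Injective z) (hz' : ∀ i p, z i ≠ C.cst p)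
    (M : Finset (Fin N)) :
    ∏ T : Fin r ↪ Fin D, (1 - (∏ j ∈ M, ∏ i ∈ M.filter (· < j), C.cl χ (z i) (z j)) *
      ∏ i ∈ M, ∏ j, C.cl χ (z i) (C.cst (c (T j)))) = 0 := by
  classical
  obtain ⟨n, hn⟩ : ∃ n, M.card = n := ⟨_, rfl⟩
  have o : Fin n ≃o M := M.orderIsoOfFin hn
  have bs : Module.Basis (Fin (n + r)) k (C.F (n + e)) :=
    Module.finBasisOfFinrankEq k (C.F (n + e)) (hF n)
  have hne : ∀ i j, i < j → z i ≠ z j := fun i j hij h => hij.ne (hz h)
  obtain ⟨zz, hzz⟩ : ∃ zz : (Fin r ↪ Fin D) → Fin (n + r) → C.Pt R, zz = fun T =>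
    Fin.append (fun i => z (o i)) fun j => C.cst (c (T j)) := ⟨_, rfl⟩
  have hv : ∀ T, C.vand (zz T) = (∏ j ∈ M, ∏ i ∈ M.filter (· < j), C.coin (z i) (z j)) *
      ∏ i ∈ M, ∏ j, C.coin (z i) (C.cst (c (T j))) := by
    intro T
    rw [hzz]
    exact C.vand_append z M o (fun j => c (T j)) (hc.comp T.injective)
  obtain ⟨P, hP⟩ : ∃ P : (Fin r ↪ Fin D) → InvM R, P = fun T =>
    (∏ j ∈ M, ∏ i ∈ M.filter (· < j), VMain.cM C (z i) (z j)) *
      ∏ i ∈ M, ∏ j, VMain.cM C (z i) (C.cst (c (T j))) := ⟨_, rfl⟩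
  have hP1 : ∀ T, (P T : Ideal R) = C.vand (zz T) := by
    intro T
    rw [hv T, hP]
    simp only [Submonoid.coe_mul, Submonoid.coe_finsetProd]
    congr 1
    · refine Finset.prod_congr rfl fun j _ => Finset.prod_congr rfl fun i hi => ?_
      rw [Finset.mem_filter] at hi
      exact VMain.coe_cM C (hne i j hi.2)
    · refine Finset.prod_congr rfl fun i _ => Finset.prod_congr rfl fun j _ => ?_
      exact VMain.coe_cM C (hz' i _)
  have hP2 : ∀ T, χ.cls (P T) = (∏ j ∈ M, ∏ i ∈ M.filter (· < j), C.cl χ (z i) (z j)) *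
      ∏ i ∈ M, ∏ j, C.cl χ (z i) (C.cst (c (T j))) := by
    intro T
    rw [hP]
    simp only [map_mul, map_prod]
    congr 1
    · refine Finset.prod_congr rfl fun j _ => Finset.prod_congr rfl fun i hi => ?_
      rw [Finset.mem_filter] at hi
      exact VMain.cls_cM C χ (hne i j hi.2)
    · refine Finset.prod_congr rfl fun i _ => Finset.prod_congr rfl fun j _ => ?_
      exact VMain.cls_cM C χ (hz' i _)
  have hN : ∀ T, Inv (C.vand (zz T)) := fun T => by
    rw [← hP1 T]
    exact (P T).2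
  obtain ⟨b, hb, hb1⟩ := C.glob (fun a => (bs a : C.B)) zz hN (by
    intro ρ
    obtain ⟨T, hT'⟩ := hT n (fun i => ρ.comp (z (o i)))
    refine ⟨T, fun y hy => ?_⟩
    have e1 : ∏ b, C.mI (ρ.comp (zz T b)) =
        (∏ i, C.mI (ρ.comp (z (o i)))) * ∏ j, C.mI (c (T j)) := by
      rw [Fin.prod_univ_add, hzz]
      congr 1
      · refine Finset.prod_congr rfl fun i _ => ?_
        beta_reduce
        rw [Fin.append_left]
      · refine Finset.prod_congr rfl fun j _ => ?_
        beta_reduce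
        rw [Fin.append_right, VMain.comp_cst]
    have e2 : ∑ a, y a • ((bs a : C.F (n + e)) : C.B) =
        ((∑ a, y a • bs a : C.F (n + e)) : C.B) := by
      rw [Submodule.coe_sum]
      rfl
    rw [e1, e2] at hy
    have h3 := hT' _ (SetLike.coe_mem _) hy
    have h4 : (∑ a, y a • bs a : C.F (n + e)) = 0 := Subtype.ext h3
    have h5 := bs.linearIndependent
    rw [Fintype.linearIndependent_iff] at h5
    exact funext (h5 y h4))
  have h := IdFun.rel χ P b (fun T => C.vdet (fun a => (bs a : C.B)) (zz T))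
    (fun T => by rw [hP1 T]; exact hb T) hb1
  simp only [hP2] at h
  exact h

end Pool.Agent.MP_6e5bed_ag_KC
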