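import Pool.Agent.Lib.MP_6e5bed_ag_KC.VNewt

set_option autoImplicit false

/-!
# KC, commutative side: change of rings, residue fields
-/

namespace Pool.Agent.MP_6e5bed_ag_KC

open scoped TensorProduct

universe u v

variable {k : Type u} [Field k] (C : PtCurve k)

/-- The ideals `coin` commute with change of rings. -/
theorem PtCurve.map_coin {R S : Type u} [CommRing R] [Algebra k R] [CommRing S] [Algebra k S]
    (φ : R →ₐ[k] S) (x y : C.Pt R) :
    Ideal.map φ (C.coin x y) = C.coin (φ.comp x) (φ.comp y) := by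
  have h1 : φ.comp (C.pair x y) = C.pair (φ.comp x) (φ.comp y) := by
    refine Algebra.TensorProduct.ext' fun a b => ?_
    rw [AlgHom.comp_apply]
    unfold PtCurve.pair
    rw [Algebra.TensorProduct.lift_tmul, Algebra.TensorProduct.lift_tmul, map_mul]
    rfl
  unfold PtCurve.coin
  rw [Ideal.map_mapₐ, h1]

theorem PtCurve.map_vand {R S : Type u} [CommRing R] [Algebra k R] [CommRing S] [Algebra k S]
    (φ : R →ₐ[k] S) {m : ℕ} (z : Fin m → C.Pt R) :
    Ideal.map φ (C.vand z) = C.vand fun b => φ.comp (z b) := by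
  unfold PtCurve.vand
  change Ideal.mapHom φ _ = _
  rw [map_prod]
  refine Finset.prod_congr rfl fun b _ => ?_
  rw [map_prod]
  refine Finset.prod_congr rfl fun c _ => ?_
  exact C.map_coin φ (z c) (z b)

theorem PtCurve.map_vdet {R S : Type u} [CommRing R] [Algebra k R] [CommRing S] [Algebra k S]
    (φ : R →ₐ[k] S) {m : ℕ} (f : Fin m → C.B) (z : Fin m → C.Pt R) :
    φ (C.vdet f z) = C.vdet f fun b => φ.comp (z b) := by
  unfold PtCurve.vdet
  rw [AlgHom.map_det]
  rfl

/-- The local ring of `R` at a maximal ideal: `R` of finite type over the algebraically closed field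
`k`. The residue map of `R` is `ρ0 : R → k` (Nullstellensatz), `Λ = Localization.AtPrime m`, and
`ρ : Λ → k` extends it. -/
theorem exists_res [IsAlgClosed k] {R : Type u} [CommRing R] [Algebra k R]
    [Algebra.FiniteType k R] (m : Ideal R) [hm : m.IsMaximal] :
    ∃ (ρ0 : R →ₐ[k] k) (ρ : Localization.AtPrime m →ₐ[k] k),
      (∀ r, ρ (algebraMap R (Localization.AtPrime m) r) = ρ0 r) ∧ RingHom.ker ρ0 = m := by
  letI : Field (R ⧸ m) := Ideal.Quotient.field m
  haveI : Module.Finite k (R ⧸ m) := finite_of_finite_type_of_isJacobsonRing k (R ⧸ m)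
  have hb : Function.Bijective (algebraMap k (R ⧸ m)) :=
    IsAlgClosed.algebraMap_bijective_of_isIntegral
  obtain ⟨e, he⟩ : ∃ e : (R ⧸ m) ≃ₐ[k] k, True :=
    ⟨(AlgEquiv.ofBijective (Algebra.ofId k (R ⧸ m)) hb).symm, trivial⟩
  have hker : ∀ r, (e : (R ⧸ m) →ₐ[k] k).comp (Ideal.Quotient.mkₐ k m) r = 0 ↔ r ∈ m := by
    intro r
    rw [AlgHom.comp_apply]
    change e (Ideal.Quotient.mk m r) = 0 ↔ r ∈ m
    rw [map_eq_zero_iff e e.injective]
    exact Ideal.Quotient.eq_zero_iff_mem
  have hu : ∀ y : m.primeCompl,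
      IsUnit ((e : (R ⧸ m) →ₐ[k] k).comp (Ideal.Quotient.mkₐ k m) y) := by
    intro y
    rw [isUnit_iff_ne_zero]
    intro h
    exact y.2 ((hker y).1 h)
  refine ⟨(e : (R ⧸ m) →ₐ[k] k).comp (Ideal.Quotient.mkₐ k m),
    IsLocalization.liftAlgHom (M := m.primeCompl) hu, fun r => ?_, ?_⟩
  · rw [IsLocalization.liftAlgHom_apply]
    exact IsLocalization.lift_eq hu r
  · ext r
    rw [RingHom.mem_ker]
    exact hker r

end Pool.Agent.MP_6e5bed_ag_KC
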