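import Pool.Agent.Lib.MP_6e5bed_ag_KC.VStep

set_option autoImplicit false

/-!
# KC, commutative side: Newton interpolation over a local ring
-/

namespace Pool.Agent.MP_6e5bed_ag_KC

open scoped TensorProduct

universe u v

variable {k : Type u} [Field k] (C : PtCurve k) {Λ : Type u} [CommRing Λ] [Algebra k Λ]

/-- The product of the ideals `coin (z c) (z b)`, `c < b`. -/
noncomputable def PtCurve.vand {m : ℕ} (z : Fin m → C.Pt Λ) : Ideal Λ :=
  ∏ b, ∏ c ∈ Finset.Iio b, C.coin (z c) (z b)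

/-- The determinant of the matrix `z_b(f_a)`. -/
noncomputable def PtCurve.vdet {m : ℕ} (f : Fin m → C.B) (z : Fin m → C.Pt Λ) : Λ :=
  (Matrix.of fun a b => z b (f a)).det

theorem VNewt.ev_del (z w : C.Pt Λ) (b : C.B) : C.ev z (C.del w b) = z b - w b := by
  unfold PtCurve.del
  rw [map_sub, C.ev_tmul, C.ev_tmul, map_one, mul_one, one_mul]

/-- `coin (z c) (z b)` is generated by `z b g - z c g`, `g` from `gI_step` for `z b`, `z c`: apply
`ev (z b)`, which kills `gI (z c) * gI (z b)`, to `x = del (z c) f`. -/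
theorem PtCurve.coin_principal [IsLocalRing Λ] (z w : C.Pt Λ) {g : C.B}
    (hg : ∀ x ∈ C.gI w, ∃ l : Λ, x - (1 ⊗ₜ l) * C.del w g ∈ C.gI w * C.gI z) :
    C.coin w z = Ideal.span {z g - w g} := by
  rw [C.coin_eq]
  apply le_antisymm
  · rw [Ideal.span_le]
    rintro _ ⟨b, rfl⟩
    obtain ⟨l, hl⟩ := hg (C.del w b) (C.del_mem w b)
    have h1 : C.ev z (C.del w b - (1 ⊗ₜ l) * C.del w g) = 0 := Ideal.mul_le_right hl
    rw [map_sub, map_mul, VNewt.ev_del, VNewt.ev_del, C.ev_tmul, map_one, one_mul] at h1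
    show w b - z b ∈ Ideal.span {z g - w g}
    rw [Ideal.mem_span_singleton]
    exact ⟨-l, by linear_combination -h1⟩
  · rw [Ideal.span_le, Set.singleton_subset_iff]
    have h : z g - w g = -(w g - z g) := by ring
    rw [h]
    exact neg_mem (Ideal.subset_span ⟨g, rfl⟩)

/-- The step for products: if `q ∈ J`, `J ⊆ φ(Λ) q + J I` and `v ∈ G`, `G ⊆ φ(Λ) v + G I`, then
`J G ⊆ φ(Λ) q v + J G I`. -/
theorem step_mul {A : Type u} [CommRing A] (φ : Λ →+* A) {J G I : Ideal A} {q v : A}
    (hq : q ∈ J) (hv : v ∈ G)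
    (h1 : ∀ x ∈ J, ∃ l : Λ, x - φ l * q ∈ J * I) (h2 : ∀ x ∈ G, ∃ l : Λ, x - φ l * v ∈ G * I) :
    ∀ x ∈ J * G, ∃ l : Λ, x - φ l * (q * v) ∈ J * G * I := by
  intro x hx
  refine Submodule.mul_induction_on hx (fun j hj w hw => ?_) (fun x y hx hy => ?_)
  · obtain ⟨l, hl⟩ := h1 j hj
    obtain ⟨l', hl'⟩ := h2 w hw
    refine ⟨l * l', ?_⟩
    have e : j * w - φ (l * l') * (q * v) =
        (j - φ l * q) * w + φ l * (q * (w - φ l' * v)) := by
      rw [map_mul]
      ring
    rw [e]
    refine Ideal.add_mem _ ?_ (Ideal.mul_mem_left _ _ ?_)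
    · rw [mul_right_comm]
      exact Ideal.mul_mem_mul hl hw
    · rw [mul_assoc]
      exact Ideal.mul_mem_mul hq hl'
  · obtain ⟨l, hl⟩ := hx
    obtain ⟨l', hl'⟩ := hy
    refine ⟨l + l', ?_⟩
    have e : x + y - φ (l + l') * (q * v) =
        (x - φ l * (q * v)) + (y - φ l' * (q * v)) := by
      rw [map_add]
      ring
    rw [e]
    exact Ideal.add_mem _ hl hl'

/-- NEWTON INTERPOLATION. `q_b = ∏_{c < b} del (z c) (g_{cb})`, `g_{cb}` from `gI_step` for
`z := z b`, `w := z c`. By `step_mul` (and `⊤ ⊆ (1 ⊗ Λ) 1 + gI (z b)`) every element of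
`J_b = ∏_{c < b} gI (z c)` is in `(1 ⊗ Λ) q_b + J_b gI (z b) = (1 ⊗ Λ) q_b + J_{b+1}`; iterate. -/
theorem PtCurve.newton [IsLocalRing Λ] (ρ : Λ →ₐ[k] k) {m : ℕ} (z : Fin m → C.Pt Λ) :
    ∃ q : Fin m → C.B ⊗[k] Λ, (∀ b c, c < b → C.ev (z c) (q b) = 0) ∧
      (∀ b, Ideal.span {C.ev (z b) (q b)} = ∏ c ∈ Finset.Iio b, C.coin (z c) (z b)) ∧
      ∀ x : C.B ⊗[k] Λ, ∃ l : Fin m → Λ, x - ∑ b, (1 ⊗ₜ l b) * q b ∈ ∏ b, C.gI (z b) := by
  classical
  choose g hg using fun c b : Fin m => C.gI_step ρ (z b) (z c)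
  let φ : Λ →+* C.B ⊗[k] Λ :=
    (Algebra.TensorProduct.includeRight : Λ →ₐ[k] C.B ⊗[k] Λ).toRingHom
  have hφ : ∀ l, φ l = 1 ⊗ₜ l := fun l => rfl
  have hstep : ∀ (b : Fin m) (s : Finset (Fin m)), ∀ x ∈ ∏ c ∈ s, C.gI (z c), ∃ l : Λ,
      x - φ l * ∏ c ∈ s, C.del (z c) (g c b) ∈ (∏ c ∈ s, C.gI (z c)) * C.gI (z b) := by
    intro b s
    induction s using Finset.induction_on with
    | empty =>
      intro x _
      refine ⟨C.ev (z b) x, ?_⟩
      rw [Finset.prod_empty, Finset.prod_empty, one_mul, mul_one]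
      show C.ev (z b) (x - 1 ⊗ₜ C.ev (z b) x) = 0
      rw [map_sub, C.ev_tmul, map_one, one_mul, sub_self]
    | insert c s hc ih =>
      intro x hx
      rw [Finset.prod_insert hc] at hx
      rw [Finset.prod_insert hc, Finset.prod_insert hc]
      exact step_mul φ (C.del_mem _ _) (Ideal.prod_mem_prod fun i _ => C.del_mem _ _)
        (hg c b) ih x hx
  refine ⟨fun b => ∏ c ∈ Finset.Iio b, C.del (z c) (g c b), ?_, ?_, ?_⟩
  · intro b c hcb
    rw [map_prod]
    exact Finset.prod_eq_zero (Finset.mem_Iio.2 hcb) (C.del_mem _ _)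
  · intro b
    rw [map_prod, ← Ideal.prod_span_singleton]
    refine Finset.prod_congr rfl fun c _ => ?_
    rw [VNewt.ev_del, C.coin_principal (z b) (z c) (hg c b)]
  · intro x
    have key : ∀ n : ℕ, n ≤ m → ∃ l : Fin m → Λ,
        x - ∑ b ∈ Finset.univ.filter (fun b : Fin m => b.val < n), (1 ⊗ₜ l b) *
          (∏ c ∈ Finset.Iio b, C.del (z c) (g c b)) ∈
        ∏ b ∈ Finset.univ.filter (fun b : Fin m => b.val < n), C.gI (z b) := by
      intro n
      induction n with
      | zero =>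
        intro _
        refine ⟨fun _ => 0, ?_⟩
        have h0 : (Finset.univ.filter fun b : Fin m => b.val < 0) = ∅ := by
          ext b
          simp
        rw [h0, Finset.prod_empty, Ideal.one_eq_top]
        trivial
      | succ n ih =>
        intro hn
        obtain ⟨l, hl⟩ := ih (by omega)
        have h1 : (Finset.univ.filter fun b : Fin m => b.val < n + 1) =
            insert (⟨n, by omega⟩ : Fin m)
              (Finset.univ.filter fun b : Fin m => b.val < n) := by
          ext b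
          simp only [Finset.mem_filter, Finset.mem_univ, true_and, Finset.mem_insert,
            Fin.ext_iff]
          omega
        have h2 : Finset.Iio (⟨n, by omega⟩ : Fin m) =
            (Finset.univ.filter fun b : Fin m => b.val < n) := by
          ext b
          simp only [Finset.mem_filter, Finset.mem_univ, true_and, Finset.mem_Iio, Fin.lt_def]
        have h3 : (⟨n, by omega⟩ : Fin m) ∉
            (Finset.univ.filter fun b : Fin m => b.val < n) := by
          simp
        obtain ⟨l0, hl0⟩ := hstep ⟨n, by omega⟩ _ _ hl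
        refine ⟨Function.update l ⟨n, by omega⟩ l0, ?_⟩
        rw [h1, Finset.prod_insert h3, Finset.sum_insert h3, Function.update_self, h2,
          mul_comm (C.gI _)]
        have h4 : ∑ b ∈ Finset.univ.filter (fun b : Fin m => b.val < n),
            ((1 : C.B) ⊗ₜ[k] (Function.update l (⟨n, by omega⟩ : Fin m) l0 b)) *
              (∏ c ∈ Finset.Iio b, C.del (z c) (g c b)) =
            ∑ b ∈ Finset.univ.filter (fun b : Fin m => b.val < n), (1 ⊗ₜ l b) *
              (∏ c ∈ Finset.Iio b, C.del (z c) (g c b)) := by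
          refine Finset.sum_congr rfl fun b hb => ?_
          rw [Function.update_of_ne]
          rintro rfl
          exact h3 hb
        rw [h4, add_comm, ← sub_sub]
        exact hl0
    obtain ⟨l, hl⟩ := key m le_rfl
    have h5 : (Finset.univ.filter fun b : Fin m => b.val < m) = Finset.univ := by
      ext b
      simp
    rw [h5] at hl
    exact ⟨l, hl⟩

end Pool.Agent.MP_6e5bed_ag_KC
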