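import Pool.Agent.Lib.MP_6e5bed_ag_KC.VInv
import Pool.Agent.Lib.MP_6e5bed_ag_KC.VCliff

set_option autoImplicit false

/-!
# KC, commutative side: the algebra of classes of an additive function, the Koszul relation
-/

namespace Pool.Agent.MP_6e5bed_ag_KC

universe u v

variable {R : Type u} [CommRing R] [IsDomain R] {V : Type v} [AddCommGroup V] [Module ℚ V]
  (χ : IdFun R V)

/-- The linear map on the monoid algebra of the invertible ideals with the values `χ`. -/
noncomputable def IdFun.lam : MonoidAlgebra ℚ (InvM R) →ₗ[ℚ] V :=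
  Finsupp.linearCombination ℚ (fun I : InvM R => χ.g I.1) ∘ₗ
    (MonoidAlgebra.coeffLinearEquiv ℚ).toLinearMap

theorem IdFun.lam_single (I : InvM R) (c : ℚ) :
    χ.lam (MonoidAlgebra.single I c) = c • χ.g I.1 :=
  Finsupp.linearCombination_single ℚ c I

/-- The ideal of the elements all of whose multiples are killed by `lam`. -/
noncomputable def IdFun.ker : Ideal (MonoidAlgebra ℚ (InvM R)) where
  carrier := {p | ∀ q, χ.lam (q * p) = 0}
  add_mem' := fun {a b} ha hb q => by rw [mul_add, map_add, ha, hb, add_zero]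
  zero_mem' := fun q => by rw [mul_zero, map_zero]
  smul_mem' := fun c p hp q => by rw [smul_eq_mul, ← mul_assoc]; exact hp _

/-- The algebra of classes. -/
abbrev IdFun.Cl : Type u := MonoidAlgebra ℚ (InvM R) ⧸ χ.ker

/-- The class of an invertible ideal. -/
noncomputable def IdFun.cls : InvM R →* χ.Cl :=
  (Ideal.Quotient.mk χ.ker).toMonoidHom.comp (MonoidAlgebra.of ℚ (InvM R))

/-- The functional on the algebra of classes. -/
noncomputable def IdFun.val : χ.Cl →ₗ[ℚ] V :=
  (χ.ker.restrictScalars ℚ).liftQ χ.lam (fun p hp => by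
    have h := hp 1
    rwa [one_mul] at h)

theorem IdFun.val_cls (I : InvM R) : χ.val (χ.cls I) = χ.g I.1 := by
  change χ.lam (MonoidAlgebra.single I (1 : ℚ)) = χ.g I.1
  rw [χ.lam_single, one_smul]

namespace VRel

omit [Module ℚ V] in
/-- signed sums over all subsets -/
theorem sum_parity {q : ℕ} (G : Finset (Fin q) → V)
    (h : ∑ S : {S : Finset (Fin q) // Even S.card}, G S.1 =
      ∑ S : {S : Finset (Fin q) // Odd S.card}, G S.1) :
    ∑ S : Finset (Fin q), ((-1 : ℤ) ^ S.card) • G S = 0 := by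
  classical
  rw [← Finset.sum_filter_add_sum_filter_not Finset.univ
    (fun S : Finset (Fin q) => Even S.card)]
  have h1 : ∑ S ∈ Finset.univ.filter (fun S : Finset (Fin q) => Even S.card),
      ((-1 : ℤ) ^ S.card) • G S = ∑ S : {S : Finset (Fin q) // Even S.card}, G S.1 := by
    rw [← Finset.sum_subtype (p := fun S : Finset (Fin q) => Even S.card)
      (Finset.univ.filter fun S : Finset (Fin q) => Even S.card) (fun S => by simp) G]
    refine Finset.sum_congr rfl fun S hS => ?_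
    rw [(Finset.mem_filter.1 hS).2.neg_one_pow, one_smul]
  have h2 : ∑ S ∈ Finset.univ.filter (fun S : Finset (Fin q) => ¬ Even S.card),
      ((-1 : ℤ) ^ S.card) • G S = - ∑ S : {S : Finset (Fin q) // Odd S.card}, G S.1 := by
    rw [← Finset.sum_subtype (p := fun S : Finset (Fin q) => Odd S.card)
      (Finset.univ.filter fun S : Finset (Fin q) => ¬ Even S.card)
      (fun S => by simp [Nat.not_even_iff_odd]) G, ← Finset.sum_neg_distrib]
    refine Finset.sum_congr rfl fun S hS => ?_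
    rw [(Nat.not_even_iff_odd.1 (Finset.mem_filter.1 hS).2).neg_one_pow, neg_smul, one_smul]
  rw [h1, h2, h, add_neg_cancel]

/-- products of invertible ideals -/
theorem inv_prod {ι : Type} (S : Finset ι) (b : ι → Ideal R) (h : ∀ i, Inv (b i)) :
    Inv (∏ i ∈ S, b i) := by
  have h1 : ∏ i ∈ S, b i ∈ InvM R := Submonoid.prod_mem _ fun i _ => h i
  exact h1

omit [Module ℚ V] in
/-- the signed sum of the values -/
theorem signed {q : ℕ} (N : Fin q → InvM R) (b : Fin q → Ideal R) (σ : Fin q → R)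
    (hσ : ∀ l, σ l ≠ 0) (h : ∀ l, b l * (N l).1 = Ideal.span {σ l}) (h1 : ⨆ l, b l = ⊤)
    (M : InvM R) :
    ∑ S : Finset (Fin q), ((-1 : ℤ) ^ S.card) •
      χ.g (M.1 * ∏ l ∈ Finset.univ \ S, (N l).1) = 0 := by
  classical
  have hb : ∀ l, Inv (b l) := fun l => ⟨(N l).1, σ l, hσ l, h l⟩
  have h2 : (1 : R) ∈ ⨆ i ∈ (Finset.univ : Finset (Fin q)), b i := by
    simp only [Finset.mem_univ, iSup_pos, h1]
    exact Submodule.mem_top
  obtain ⟨μ, hμ⟩ := (Submodule.mem_iSup_finset_iff_exists_sum b 1).1 h2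
  obtain ⟨e⟩ := cliff b (fun l => (μ l : R)) (fun l => (μ l).2) hμ
    (M.1 * ∏ l, (N l).1)
  have hM' : Inv (M.1 * ∏ l, (N l).1) := Inv.mul M.2 (inv_prod _ _ fun l => (N l).2)
  have hI : ∀ S : Finset (Fin q), Inv ((M.1 * ∏ l, (N l).1) * ∏ l ∈ S, b l) := fun S =>
    Inv.mul hM' (inv_prod _ _ hb)
  have hsum := χ.sum
    (fun S : {S : Finset (Fin q) // Even S.card} => (M.1 * ∏ l, (N l).1) * ∏ l ∈ S.1, b l)
    (fun S : {S : Finset (Fin q) // Odd S.card} => (M.1 * ∏ l, (N l).1) * ∏ l ∈ S.1, b l)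
    (fun S => hI S.1) (fun S => hI S.1) ⟨e⟩
  have hg : ∀ S : Finset (Fin q), χ.g ((M.1 * ∏ l, (N l).1) * ∏ l ∈ S, b l) =
      χ.g (M.1 * ∏ l ∈ Finset.univ \ S, (N l).1) := by
    intro S
    have h3 : (M.1 * ∏ l, (N l).1) * ∏ l ∈ S, b l =
        Ideal.span {∏ l ∈ S, σ l} * (M.1 * ∏ l ∈ Finset.univ \ S, (N l).1) := by
      have h4 : Ideal.span {∏ l ∈ S, σ l} = (∏ l ∈ S, b l) * ∏ l ∈ S, (N l).1 := by
        rw [← Finset.prod_mul_distrib, ← Ideal.prod_span_singleton]
        exact Finset.prod_congr rfl fun l _ => (h l).symm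
      rw [h4, ← Finset.prod_sdiff (Finset.subset_univ S)]
      ring
    have h5 : Inv (M.1 * ∏ l ∈ Finset.univ \ S, (N l).1) :=
      Inv.mul M.2 (inv_prod _ _ fun l => (N l).2)
    refine (χ.iso h5 (hI S) ?_).symm
    rw [h3]
    exact scaleIso (Finset.prod_ne_zero_iff.2 fun l _ => hσ l) _
  refine sum_parity _ ?_
  simp only [hg] at hsum
  exact hsum

/-- the relation for families without zeros -/
theorem rel_fin {q : ℕ} (N : Fin q → InvM R) (b : Fin q → Ideal R) (σ : Fin q → R)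
    (hσ : ∀ l, σ l ≠ 0) (h : ∀ l, b l * (N l).1 = Ideal.span {σ l}) (h1 : ⨆ l, b l = ⊤) :
    ∏ l, (1 - χ.cls (N l)) = 0 := by
  classical
  have hker : ∏ l, ((-1 : MonoidAlgebra ℚ (InvM R)) + MonoidAlgebra.of ℚ (InvM R) (N l)) ∈
      χ.ker := by
    intro p
    induction p using MonoidAlgebra.induction_linear with
    | zero => rw [zero_mul, map_zero]
    | add f g hf hg => rw [add_mul, map_add, hf, hg, add_zero]
    | single M c =>
      rw [Finset.prod_add, Finset.mul_sum, map_sum]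
      have hterm : ∀ S ∈ (Finset.univ : Finset (Fin q)).powerset,
          χ.lam (MonoidAlgebra.single M c * ((∏ _l ∈ S, (-1 : MonoidAlgebra ℚ (InvM R))) *
            ∏ l ∈ Finset.univ \ S, MonoidAlgebra.of ℚ (InvM R) (N l))) =
          ((-1 : ℤ) ^ S.card) • c • χ.g (M.1 * ∏ l ∈ Finset.univ \ S, (N l).1) := by
        intro S _
        have h2 : (∏ _l ∈ S, (-1 : MonoidAlgebra ℚ (InvM R))) =
            (((-1 : ℤ) ^ S.card : ℤ) : MonoidAlgebra ℚ (InvM R)) := by
          rw [Finset.prod_const]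
          push_cast
          rfl
        rw [← map_prod, h2, mul_left_comm, MonoidAlgebra.of_apply,
          MonoidAlgebra.single_mul_single, mul_one, ← zsmul_eq_mul, map_zsmul, χ.lam_single]
        congr 3
        rw [Submonoid.coe_mul, Submonoid.coe_finsetProd]
      rw [Finset.sum_congr rfl hterm, Finset.powerset_univ]
      have h3 := signed χ N b σ hσ h h1 M
      have h4 := congrArg (fun v => c • v) h3
      simp only [Finset.smul_sum, smul_zero] at h4
      rw [← h4]
      refine Finset.sum_congr rfl fun S _ => ?_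
      rw [smul_comm]
  have h2 : Ideal.Quotient.mk χ.ker
      (∏ l, ((-1 : MonoidAlgebra ℚ (InvM R)) + MonoidAlgebra.of ℚ (InvM R) (N l))) = 0 :=
    Ideal.Quotient.eq_zero_iff_mem.2 hker
  rw [map_prod] at h2
  have h3 : ∀ l, 1 - χ.cls (N l) = (-1) * Ideal.Quotient.mk χ.ker
      ((-1 : MonoidAlgebra ℚ (InvM R)) + MonoidAlgebra.of ℚ (InvM R) (N l)) := by
    intro l
    rw [map_add, map_neg, map_one]
    change 1 - Ideal.Quotient.mk χ.ker (MonoidAlgebra.of ℚ (InvM R) (N l)) = _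
    ring
  rw [Finset.prod_congr rfl fun l _ => h3 l, Finset.prod_mul_distrib, h2, mul_zero]

end VRel

/-- THE RELATION. Invertible ideals `N_t`, elements `σ_t`, ideals `b_t` with `b_t N_t = (σ_t)` and
`∑ b_t = R`. Then `∏_t (1 - [N_t]) = 0`.

Proof. Where `σ_t = 0`, `b_t = 0`: drop these `t`; let `τ'` be the rest (`⨆` over `τ'` is `⊤`).
Choose `β_t ∈ b_t` with `∑ β_t = 1`, enumerate `τ'` by `Fin q`. For an invertible ideal `M` put
`M' = M ∏_t N_t`. `cliff` for `M'` and `IdFun.sum` give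
`∑_{S ⊆ τ'} (-1)^{|S|} χ(M' ∏_{t ∈ S} b_t) = 0` (all these ideals are invertible: `b_t` by
`Inv.left`), and `M' ∏_{t ∈ S} b_t = (∏_{t ∈ S} σ_t) M ∏_{t ∉ S} N_t` is isomorphic to
`M ∏_{t ∉ S} N_t` (`scaleIso`). So `lam ([M] ∏_{t ∈ τ'} ([N_t] - 1)) = 0` for all `M`
(`Finset.prod_sub` / `Finset.prod_add`), hence `lam (q ∏ (1 - [N_t])) = 0` for all `q`. -/
theorem IdFun.rel {τ : Type} [Fintype τ] (N : τ → InvM R) (b : τ → Ideal R) (σ : τ → R)
    (h : ∀ t, b t * (N t).1 = Ideal.span {σ t}) (h1 : ⨆ t, b t = ⊤) :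
    ∏ t, (1 - χ.cls (N t)) = 0 := by
  classical
  have hbot : ∀ t, σ t = 0 → b t = ⊥ := by
    intro t ht
    have h2 := h t
    rw [ht, Ideal.span_singleton_zero] at h2
    rcases Ideal.mul_eq_bot.1 h2 with h3 | h3
    · exact h3
    · exact absurd h3 (Inv.ne_bot (N t).2)
  let T : Finset τ := Finset.univ.filter fun t => σ t ≠ 0
  let e := T.equivFin
  have h2 : ⨆ l : Fin T.card, b (e.symm l).1 = ⊤ := by
    rw [eq_top_iff, ← h1]
    refine iSup_le fun t => ?_
    by_cases ht : σ t = 0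
    · rw [hbot t ht]
      exact bot_le
    · have hT : t ∈ T := Finset.mem_filter.2 ⟨Finset.mem_univ t, ht⟩
      have h3 := le_iSup (fun l : Fin T.card => b (e.symm l).1) (e ⟨t, hT⟩)
      simpa using h3
  have h3 := VRel.rel_fin χ (fun l => N (e.symm l).1) (fun l => b (e.symm l).1)
    (fun l => σ (e.symm l).1) (fun l => (Finset.mem_filter.1 (e.symm l).2).2)
    (fun l => h _) h2
  have h4 : ∏ l : Fin T.card, (1 - χ.cls (N (e.symm l).1)) = ∏ t ∈ T, (1 - χ.cls (N t)) := by
    rw [Fintype.prod_equiv e.symm (fun l => 1 - χ.cls (N (e.symm l).1))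
      (fun t : {t // t ∈ T} => 1 - χ.cls (N t.1)) (fun _ => rfl)]
    exact Finset.prod_coe_sort T fun t => 1 - χ.cls (N t)
  rw [h4] at h3
  rw [← Finset.prod_filter_mul_prod_filter_not Finset.univ (fun t => σ t ≠ 0)]
  change (∏ t ∈ T, (1 - χ.cls (N t))) * _ = 0
  rw [h3, zero_mul]

end Pool.Agent.MP_6e5bed_ag_KC
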