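import Pool.Agent.Lib.MP_6e5bed_ag_KC.VCoin
import Pool.Agent.Lib.MP_6e5bed_ag_KC.VRel

set_option autoImplicit false

/-!
# KC, commutative side: the classes of the ideals `coin` are unipotent
-/

namespace Pool.Agent.MP_6e5bed_ag_KC

open scoped TensorProduct

universe u v

variable {k : Type u} [Field k] (C : PtCurve k)
  {R : Type u} [CommRing R] [IsDomain R] [Algebra k R]
  {V : Type v} [AddCommGroup V] [Module ℚ V]

open Classical in
/-- The class of `coin x y`. -/
noncomputable def PtCurve.cl (χ : IdFun R V) (x y : C.Pt R) : χ.Cl :=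
  if h : Inv (C.coin x y) then χ.cls ⟨C.coin x y, h⟩ else 0

theorem PtCurve.cl_eq (χ : IdFun R V) {x y : C.Pt R} (h : Inv (C.coin x y)) :
    C.cl χ x y = χ.cls ⟨C.coin x y, h⟩ := by
  unfold PtCurve.cl
  exact dif_pos h

/-- NILPOTENCE. With `b_1, …, b_K` as in `coin_gens`: `N_l = coin x y`, `σ_l = x (b_l) - y (b_l)`,
`b_l N_l = (σ_l)` (`Inv.colon`), `∑ b_l = R` because `(∑ b_l) coin = ∑ (σ_l) = coin` (`Inv.cancel`);
`IdFun.rel` gives `(1 - cl) ^ K = 0`. -/
theorem PtCurve.nilp [IsAlgClosed k] : ∃ K : ℕ, ∀ (R : Type u) [CommRing R] [IsDomain R]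
    [Algebra k R] [Algebra.FiniteType k R] (V : Type v) [AddCommGroup V] [Module ℚ V]
    (χ : IdFun R V) (x y : C.Pt R), x ≠ y → (1 - C.cl χ x y) ^ K = 0 := by
  obtain ⟨K, b, hb⟩ := C.coin_gens
  refine ⟨K, ?_⟩
  intro R _ _ _ _ V _ _ χ x y hxy
  have hN : Inv (C.coin x y) := C.coin_inv hxy
  have hgen := hb R x y
  have hmem : ∀ l, x (b l) - y (b l) ∈ C.coin x y := by
    intro l
    rw [hgen]
    exact Ideal.subset_span ⟨l, rfl⟩
  have hc : ∀ l, ∃ c : Ideal R, c * C.coin x y = Ideal.span {x (b l) - y (b l)} :=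
    fun l => Inv.colon hN (hmem l)
  choose c hc using hc
  have htop : ⨆ l, c l = ⊤ := by
    refine Inv.cancel hN ?_
    rw [mul_comm, Ideal.iSup_mul, Ideal.mul_top]
    simp only [hc]
    rw [← Submodule.span_range_eq_iSup]
    exact hgen.symm
  have hrel := χ.rel (τ := Fin K) (fun _ => ⟨C.coin x y, hN⟩) c
    (fun l => x (b l) - y (b l)) hc htop
  rw [Finset.prod_const, Finset.card_univ, Fintype.card_fin, ← C.cl_eq χ hN] at hrel
  exact hrel

end Pool.Agent.MP_6e5bed_ag_KC
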