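import Pool.Agent.Lib.MP_6e5bed_ag_KC.VSq

set_option autoImplicit false

/-!
# KC, commutative side: hafnians
-/

namespace Pool.Agent.MP_6e5bed_ag_KC

open MvPolynomial

universe u

variable {S : Type u} [CommRing S]

theorem VSqB.degree_sqf {N : ℕ} (M : Finset (Fin N)) : (sqf M).degree = M.card := by
  unfold sqf
  rw [map_sum]
  simp only [Finsupp.degree_single, Finset.sum_const, smul_eq_mul, mul_one]

theorem VSqB.qf_hom {N : ℕ} (d : Fin N → Fin N → S) : (qf d).IsHomogeneous 2 := by
  unfold qf
  refine IsHomogeneous.sum _ _ _ fun j _ => IsHomogeneous.sum _ _ _ fun i _ => ?_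
  exact ((isHomogeneous_C_mul_X (d i j) i).mul (isHomogeneous_X S j))

/-- The hafnian relations. `p = ∏_t (qf d + ∑ l_{ti} X_i)` has total degree `≤ 2 Q`, `Q = |τ|`, and
the coefficient of `∏_{i ∈ M} X_i`, `|M| = 2 Q`, in `p` is the one in `(qf d)^Q` (the difference has
total degree `< 2 Q`); apply `coeff_sqf_of_eval`. Since `qf d ^ Q` is homogeneous of degree `2 Q`,
its other squarefree coefficients vanish as well. -/
theorem qf_pow_mem {τ : Type} [Fintype τ] {N : ℕ} (d : Fin N → Fin N → S) (l : τ → Fin N → S)
    (h : ∀ M : Finset (Fin N),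
      ∏ t, ((∑ j ∈ M, ∑ i ∈ M.filter (· < j), d i j) + ∑ i ∈ M, l t i) = 0) :
    qf d ^ Fintype.card τ ∈ sqI N S := by
  classical
  rw [mem_sqI]
  intro M
  have hq := VSqB.qf_hom d
  by_cases hM : M.card = 2 * Fintype.card τ
  swap
  · exact (hq.pow (Fintype.card τ)).coeff_eq_zero (by rw [VSqB.degree_sqf]; exact hM)
  set b : τ → MvPolynomial (Fin N) S := fun t => ∑ i, C (l t i) * X i with hb
  have hbh : ∀ t, (b t).IsHomogeneous 1 := fun t =>
    IsHomogeneous.sum _ _ _ fun i _ => isHomogeneous_C_mul_X _ i
  -- the coefficient in the product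
  have h1 : coeff (sqf M) (∏ t, (qf d + b t)) = coeff (sqf M) (qf d ^ Fintype.card τ) := by
    rw [Finset.prod_add, coeff_sum, Finset.sum_eq_single_of_mem Finset.univ
      (Finset.mem_powerset_self _)]
    · rw [Finset.sdiff_self, Finset.prod_empty, mul_one, Finset.prod_const, Finset.card_univ]
    · intro K _ hK
      have e1 : (∏ _i ∈ K, qf d).IsHomogeneous (2 * K.card) := by
        rw [Finset.prod_const]
        exact hq.pow K.card
      have e2 : (∏ i ∈ Finset.univ \ K, b i).IsHomogeneous (Finset.univ \ K).card := by
        have e3 := IsHomogeneous.prod (Finset.univ \ K) b (fun _ => 1) fun i _ => hbh i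
        rwa [Finset.sum_const, smul_eq_mul, mul_one] at e3
      refine (e1.mul e2).coeff_eq_zero ?_
      rw [VSqB.degree_sqf, hM]
      have e4 : (Finset.univ \ K).card = Fintype.card τ - K.card := by
        rw [← Finset.compl_eq_univ_sdiff, Finset.card_compl]
      have e5 : K.card < Fintype.card τ := by
        rw [← Finset.card_univ]
        exact Finset.card_lt_card (Finset.ssubset_univ_iff.2 hK)
      omega
  rw [← h1]
  refine coeff_sqf_of_eval _ M ?_ fun M' _ => ?_
  · refine (totalDegree_finsetProd _ _).trans ?_
    rw [hM]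
    refine (Finset.sum_le_card_nsmul _ _ 2 fun t _ => ?_).trans ?_
    · refine (totalDegree_add _ _).trans (max_le hq.totalDegree_le ?_)
      exact (hbh t).totalDegree_le.trans (by norm_num)
    · rw [Finset.card_univ, smul_eq_mul, mul_comm]
  · rw [map_prod]
    refine Eq.trans ?_ (h M')
    refine Finset.prod_congr rfl fun t _ => ?_
    rw [map_add]
    congr 1
    · unfold qf
      rw [map_sum, ← Finset.sum_subset (Finset.subset_univ M')]
      · refine Finset.sum_congr rfl fun j hj => ?_
        rw [map_sum, Finset.sum_filter]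
        have e1 : Finset.Iio j = Finset.univ.filter (· < j) := by
          ext i
          simp
        rw [e1, Finset.sum_filter, ← Finset.sum_subset (Finset.subset_univ M')]
        · refine Finset.sum_congr rfl fun i hi => ?_
          simp only [map_mul, eval_C, eval_X, if_pos hi, if_pos hj, mul_one]
        · intro i _ hi
          simp only [map_mul, eval_C, eval_X, if_neg hi, mul_zero, zero_mul, ite_self]
      · intro j _ hj
        rw [map_sum]
        refine Finset.sum_eq_zero fun i _ => ?_
        simp only [map_mul, eval_C, eval_X, if_neg hj, mul_zero]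
    · rw [hb]
      simp only [map_sum, map_mul, eval_C, eval_X, mul_ite, mul_one, mul_zero]
      rw [← Finset.sum_filter, Finset.filter_mem_eq_inter, Finset.univ_inter]

end Pool.Agent.MP_6e5bed_ag_KC
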