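import Pool.Agent.Lib.MP_6e5bed_ag_KC.VSq

set_option autoImplicit false

/-!
# KC, commutative side: permanents
-/

namespace Pool.Agent.MP_6e5bed_ag_KC

open MvPolynomial

universe u

variable {S : Type u} [CommRing S]

namespace VSqC

/-- The signs. -/
def sg {n : ℕ} (i : Fin (n + n)) : ℤ := if (i : ℕ) < n then -1 else 1

theorem sg_castAdd {n : ℕ} (a : Fin n) : sg (Fin.castAdd n a) = -1 := by
  simp [sg]

theorem sg_natAdd {n : ℕ} (a : Fin n) : sg (Fin.natAdd n a) = 1 := by
  simp [sg]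

/-- The automorphism changing the signs of the first variables. -/
noncomputable def ep (n : ℕ) (S : Type u) [CommRing S] :
    MvPolynomial (Fin (n + n)) S →ₐ[S] MvPolynomial (Fin (n + n)) S :=
  aeval fun i => ((sg i : ℤ) : MvPolynomial (Fin (n + n)) S) * X i

theorem ep_X {n : ℕ} (i : Fin (n + n)) :
    ep n S (X i) = ((sg i : ℤ) : MvPolynomial (Fin (n + n)) S) * X i := by
  simp [ep]

theorem ep_C {n : ℕ} (c : S) : ep n S (C c) = C c := by
  simp [ep]

theorem ep_mem {n : ℕ} (p : MvPolynomial (Fin (n + n)) S) (hp : p ∈ sqI (n + n) S) :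
    ep n S p ∈ sqI (n + n) S := by
  have h1 : sqI (n + n) S ≤ (sqI (n + n) S).comap (ep n S) := by
    refine Ideal.span_le.2 ?_
    rintro _ ⟨i, rfl⟩
    show ep n S (X i ^ 2) ∈ sqI (n + n) S
    rw [map_pow, ep_X, mul_pow]
    exact Ideal.mul_mem_left _ _ (Ideal.subset_span ⟨i, rfl⟩)
  exact h1 hp

/-- The bilinear part. -/
noncomputable def bet {n : ℕ} (d : Fin (n + n) → Fin (n + n) → S) :
    MvPolynomial (Fin (n + n)) S :=
  ∑ w : Fin n × Fin n, C (d (Fin.castAdd n w.1) (Fin.natAdd n w.2)) *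
    monomial (Finsupp.single (Fin.castAdd n w.1) 1 + Finsupp.single (Fin.natAdd n w.2) 1) 1

theorem qf_sub {n : ℕ} (d : Fin (n + n) → Fin (n + n) → S) :
    qf d - ep n S (qf d) = 2 * bet d := by
  have h0 : qf d = ∑ j, ∑ i, if i < j then C (d i j) * X i * X j else 0 := by
    unfold qf
    refine Finset.sum_congr rfl fun j _ => ?_
    rw [← Finset.sum_filter]
    refine Finset.sum_congr ?_ fun _ _ => rfl
    ext i
    simp
  have h1 : qf d - ep n S (qf d) = ∑ j, ∑ i, if i < j then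
      (1 - ((sg i : ℤ) : MvPolynomial (Fin (n + n)) S) * ((sg j : ℤ) :
        MvPolynomial (Fin (n + n)) S)) * (C (d i j) * X i * X j) else 0 := by
    rw [h0, map_sum, ← Finset.sum_sub_distrib]
    refine Finset.sum_congr rfl fun j _ => ?_
    rw [map_sum, ← Finset.sum_sub_distrib]
    refine Finset.sum_congr rfl fun i _ => ?_
    split_ifs with h
    · rw [map_mul, map_mul, ep_C, ep_X, ep_X]
      ring
    · rw [map_zero, sub_zero]
  rw [h1, Fin.sum_univ_add]
  have h2 : ∀ a : Fin n, (∑ i, if i < Fin.castAdd n a then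
      (1 - ((sg i : ℤ) : MvPolynomial (Fin (n + n)) S) * ((sg (Fin.castAdd n a) : ℤ) :
        MvPolynomial (Fin (n + n)) S)) * (C (d i (Fin.castAdd n a)) * X i *
          X (Fin.castAdd n a)) else 0) = 0 := by
    intro a
    refine Finset.sum_eq_zero fun i _ => ?_
    split_ifs with h
    · obtain ⟨a', rfl⟩ : ∃ a' : Fin n, i = Fin.castAdd n a' := by
        have h3 : (i : ℕ) < n := by
          have h4 := Fin.lt_def.1 h
          rw [Fin.val_castAdd] at h4
          exact h4.trans a.isLt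
        exact ⟨⟨i, h3⟩, Fin.ext rfl⟩
      rw [sg_castAdd, sg_castAdd]
      push_cast
      ring
    · rfl
  rw [Finset.sum_eq_zero fun a _ => h2 a, zero_add]
  have h3 : ∀ b : Fin n, (∑ i, if i < Fin.natAdd n b then
      (1 - ((sg i : ℤ) : MvPolynomial (Fin (n + n)) S) * ((sg (Fin.natAdd n b) : ℤ) :
        MvPolynomial (Fin (n + n)) S)) * (C (d i (Fin.natAdd n b)) * X i *
          X (Fin.natAdd n b)) else 0) =
      ∑ a : Fin n, 2 * (C (d (Fin.castAdd n a) (Fin.natAdd n b)) *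
        (X (Fin.castAdd n a) * X (Fin.natAdd n b))) := by
    intro b
    rw [Fin.sum_univ_add]
    have h4 : (∑ i : Fin n, if Fin.natAdd n i < Fin.natAdd n b then
      (1 - ((sg (Fin.natAdd n i) : ℤ) : MvPolynomial (Fin (n + n)) S) *
        ((sg (Fin.natAdd n b) : ℤ) : MvPolynomial (Fin (n + n)) S)) *
          (C (d (Fin.natAdd n i) (Fin.natAdd n b)) * X (Fin.natAdd n i) *
          X (Fin.natAdd n b)) else 0) = 0 := by
      refine Finset.sum_eq_zero fun i _ => ?_
      rw [sg_natAdd, sg_natAdd]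
      push_cast
      simp
    rw [h4, add_zero]
    refine Finset.sum_congr rfl fun a _ => ?_
    rw [if_pos (Fin.lt_def.2 (by
      rw [Fin.val_castAdd, Fin.val_natAdd]
      exact lt_of_lt_of_le a.isLt (Nat.le_add_right _ _)))]
    rw [sg_castAdd, sg_natAdd]
    push_cast
    ring
  rw [Finset.sum_congr rfl fun b _ => h3 b]
  unfold bet
  rw [Fintype.sum_prod_type, Finset.mul_sum, Finset.sum_comm]
  refine Finset.sum_congr rfl fun a _ => ?_
  rw [Finset.mul_sum]
  refine Finset.sum_congr rfl fun b _ => ?_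
  congr 2
  rw [X, X, monomial_mul, one_mul]

theorem sqf_univ {n : ℕ} : sqf (Finset.univ : Finset (Fin (n + n))) =
    (∑ a : Fin n, Finsupp.single (Fin.castAdd n a) 1) +
      ∑ b : Fin n, Finsupp.single (Fin.natAdd n b) 1 := by
  unfold sqf
  rw [Fin.sum_univ_add]

theorem sum_single_castAdd {n : ℕ} (u v : Fin n → Fin n) (a : Fin n) :
    (∑ i, (Finsupp.single (Fin.castAdd n (u i)) 1 + Finsupp.single (Fin.natAdd n (v i)) 1) :
      Fin (n + n) →₀ ℕ) (Fin.castAdd n a) = (Finset.univ.filter fun i => u i = a).card := by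
  rw [Finsupp.finsetSum_apply, Finset.card_filter]
  refine Finset.sum_congr rfl fun i _ => ?_
  rw [Finsupp.add_apply, Finsupp.single_apply, Finsupp.single_apply]
  have h1 : Fin.natAdd n (v i) ≠ Fin.castAdd n a := by
    intro h
    have h2 := congrArg Fin.val h
    rw [Fin.val_castAdd, Fin.val_natAdd] at h2
    have := a.isLt
    omega
  rw [if_neg h1, add_zero]
  refine if_congr ?_ rfl rfl
  exact (Fin.castAdd_injective n n).eq_iff

theorem sum_single_natAdd {n : ℕ} (u v : Fin n → Fin n) (a : Fin n) :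
    (∑ i, (Finsupp.single (Fin.castAdd n (u i)) 1 + Finsupp.single (Fin.natAdd n (v i)) 1) :
      Fin (n + n) →₀ ℕ) (Fin.natAdd n a) = (Finset.univ.filter fun i => v i = a).card := by
  rw [Finsupp.finsetSum_apply, Finset.card_filter]
  refine Finset.sum_congr rfl fun i _ => ?_
  rw [Finsupp.add_apply, Finsupp.single_apply, Finsupp.single_apply]
  have h1 : Fin.castAdd n (u i) ≠ Fin.natAdd n a := by
    intro h
    have h2 := congrArg Fin.val h
    rw [Fin.val_castAdd, Fin.val_natAdd] at h2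
    have := (u i).isLt
    omega
  rw [if_neg h1, zero_add]
  refine if_congr ?_ rfl rfl
  exact (Fin.natAdd_injective n n).eq_iff

theorem bij_of_sum {n : ℕ} (u v : Fin n → Fin n)
    (h : (∑ i, (Finsupp.single (Fin.castAdd n (u i)) 1 +
      Finsupp.single (Fin.natAdd n (v i)) 1) : Fin (n + n) →₀ ℕ) =
        sqf (Finset.univ : Finset (Fin (n + n)))) :
    Function.Bijective u ∧ Function.Bijective v := by
  have h0 : ∀ j : Fin (n + n), sqf (Finset.univ : Finset (Fin (n + n))) j = 1 := by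
    intro j
    unfold sqf
    rw [Finsupp.finsetSum_apply]
    simp [Finsupp.single_apply]
  constructor
  · refine Function.Surjective.bijective_of_finite fun a => ?_
    have h1 := sum_single_castAdd u v a
    rw [h, h0] at h1
    obtain ⟨i, hi⟩ := Finset.card_pos.1 (by rw [← h1]; exact Nat.one_pos :
      0 < (Finset.univ.filter fun i => u i = a).card)
    exact ⟨i, (Finset.mem_filter.1 hi).2⟩
  · refine Function.Surjective.bijective_of_finite fun a => ?_
    have h1 := sum_single_natAdd u v a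
    rw [h, h0] at h1
    obtain ⟨i, hi⟩ := Finset.card_pos.1 (by rw [← h1]; exact Nat.one_pos :
      0 < (Finset.univ.filter fun i => v i = a).card)
    exact ⟨i, (Finset.mem_filter.1 hi).2⟩

theorem sum_of_perm {n : ℕ} (u v : Equiv.Perm (Fin n)) :
    (∑ i, (Finsupp.single (Fin.castAdd n (u i)) 1 +
      Finsupp.single (Fin.natAdd n (v i)) 1) : Fin (n + n) →₀ ℕ) =
        sqf (Finset.univ : Finset (Fin (n + n))) := by
  rw [sqf_univ, Finset.sum_add_distrib,
    Equiv.sum_comp u fun a => (Finsupp.single (Fin.castAdd n a) 1 : Fin (n + n) →₀ ℕ),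
    Equiv.sum_comp v fun a => (Finsupp.single (Fin.natAdd n a) 1 : Fin (n + n) →₀ ℕ)]

theorem coeff_bet_pow {n : ℕ} (d : Fin (n + n) → Fin (n + n) → S) :
    coeff (sqf (Finset.univ : Finset (Fin (n + n)))) (bet d ^ n) =
      (n.factorial : S) * ∑ σ : Equiv.Perm (Fin n),
        ∏ a, d (Fin.castAdd n a) (Fin.natAdd n (σ a)) := by
  classical
  unfold bet
  rw [Fintype.sum_pow, coeff_sum]
  have h1 : ∀ g : Fin n → Fin n × Fin n,
      coeff (sqf (Finset.univ : Finset (Fin (n + n)))) (∏ i,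
        (C (d (Fin.castAdd n (g i).1) (Fin.natAdd n (g i).2)) *
    monomial (Finsupp.single (Fin.castAdd n (g i).1) 1 +
      Finsupp.single (Fin.natAdd n (g i).2) 1) (1 : S))) =
      if (∑ i, (Finsupp.single (Fin.castAdd n (g i).1) 1 +
      Finsupp.single (Fin.natAdd n (g i).2) 1) : Fin (n + n) →₀ ℕ) =
        sqf (Finset.univ : Finset (Fin (n + n))) then
        ∏ i, d (Fin.castAdd n (g i).1) (Fin.natAdd n (g i).2) else 0 := by
    intro g
    rw [Finset.prod_mul_distrib, ← map_prod, ← monomial_sum_one, coeff_C_mul, coeff_monomial]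
    split_ifs with h
    · rw [mul_one]
    · rw [mul_zero]
  rw [Finset.sum_congr rfl fun g _ => h1 g]
  have h2 : (∑ w : Equiv.Perm (Fin n) × Equiv.Perm (Fin n),
      ∏ i, d (Fin.castAdd n (w.1 i)) (Fin.natAdd n (w.2 i))) =
      ∑ g : Fin n → Fin n × Fin n,
      if (∑ i, (Finsupp.single (Fin.castAdd n (g i).1) 1 +
      Finsupp.single (Fin.natAdd n (g i).2) 1) : Fin (n + n) →₀ ℕ) =
        sqf (Finset.univ : Finset (Fin (n + n))) then
        ∏ i, d (Fin.castAdd n (g i).1) (Fin.natAdd n (g i).2) else 0 := by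
    refine Finset.sum_of_injOn (fun w i => (w.1 i, w.2 i)) ?_ ?_ ?_ ?_
    · rintro ⟨u, v⟩ _ ⟨u', v'⟩ _ h
      have h3 : ∀ i, (u i, v i) = (u' i, v' i) := fun i => congrFun h i
      refine Prod.ext (Equiv.ext fun i => ?_) (Equiv.ext fun i => ?_)
      · exact congrArg Prod.fst (h3 i)
      · exact congrArg Prod.snd (h3 i)
    · intro w _
      exact Finset.mem_coe.2 (Finset.mem_univ _)
    · intro g _ hg
      rw [if_neg]
      intro h
      obtain ⟨hu, hv⟩ := bij_of_sum (fun i => (g i).1) (fun i => (g i).2) h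
      exact hg ⟨(Equiv.ofBijective _ hu, Equiv.ofBijective _ hv),
        Finset.mem_coe.2 (Finset.mem_univ _), rfl⟩
    · rintro ⟨u, v⟩ _
      rw [if_pos (sum_of_perm u v)]
  rw [← h2, Fintype.sum_prod_type]
  have h3 : ∀ u : Equiv.Perm (Fin n), (∑ v : Equiv.Perm (Fin n),
      ∏ i, d (Fin.castAdd n (u i)) (Fin.natAdd n (v i))) =
      ∑ σ : Equiv.Perm (Fin n), ∏ a, d (Fin.castAdd n a) (Fin.natAdd n (σ a)) := by
    intro u
    rw [← Equiv.sum_comp (Equiv.mulRight u⁻¹) fun σ : Equiv.Perm (Fin n) =>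
      ∏ a, d (Fin.castAdd n a) (Fin.natAdd n (σ a))]
    refine Finset.sum_congr rfl fun v _ => ?_
    rw [← Equiv.prod_comp u fun a => d (Fin.castAdd n a)
      (Fin.natAdd n ((Equiv.mulRight u⁻¹ v) a))]
    refine Finset.prod_congr rfl fun i _ => ?_
    simp
  rw [Finset.sum_congr rfl fun u _ => h3 u, Finset.sum_const, Finset.card_univ,
    Fintype.card_perm, Fintype.card_fin, nsmul_eq_mul]

theorem unit_aux [Algebra ℚ S] (m : ℕ) (hm : m ≠ 0) :
    algebraMap ℚ S (1 / (m : ℚ)) * (m : S) = 1 := by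
  have h : (m : S) = algebraMap ℚ S (m : ℚ) := (map_natCast _ _).symm
  rw [h, ← map_mul, one_div, inv_mul_cancel₀ (Nat.cast_ne_zero.2 hm), map_one]

end VSqC

/-- THE PERMANENT. `N = n + n`. Let `ε` be the automorphism `X_i ↦ -X_i` for `i < n`; it preserves
`sqI`. Then `q - ε q = 2 β`, `β = ∑_{a,b} d_{a,n+b} X_a X_{n+b}`, and `(q - ε q)^n ∈ sqI` for
`n ≥ 2 Q - 1` (binomial theorem: `q^Q, (ε q)^Q ∈ sqI`), so `β^n ∈ sqI` (`2` is invertible). The
coefficient of `∏ X_i` (all `i`) in `β^n` is `n! ∑_σ ∏_a d_{a,n+σ(a)}` (expand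
`β^n = ∑_{w : Fin n → Fin n × Fin n}`; the monomial is squarefree exactly if both components of `w`
are bijective), and `n!` is invertible. -/
theorem permanent_of_qf [Algebra ℚ S] {n Q : ℕ} (d : Fin (n + n) → Fin (n + n) → S)
    (h : qf d ^ Q ∈ sqI (n + n) S) (hn : 2 * Q ≤ n + 1) :
    ∑ σ : Equiv.Perm (Fin n), ∏ a, d (Fin.castAdd n a) (Fin.natAdd n (σ a)) = 0 := by
  have h1 : Ideal.Quotient.mk (sqI (n + n) S) (qf d) ^ Q = 0 := by
    rw [← map_pow]
    exact Ideal.Quotient.eq_zero_iff_mem.2 h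
  have h2 : Ideal.Quotient.mk (sqI (n + n) S) (-VSqC.ep n S (qf d)) ^ Q = 0 := by
    rw [← map_pow, neg_pow, ← map_pow]
    exact Ideal.Quotient.eq_zero_iff_mem.2 (Ideal.mul_mem_left _ _ (VSqC.ep_mem _ h))
  have h3 : Ideal.Quotient.mk (sqI (n + n) S) (qf d + -VSqC.ep n S (qf d)) ^ n = 0 := by
    rw [map_add]
    exact (Commute.all _ _).add_pow_eq_zero_of_add_le_succ_of_pow_eq_zero h1 h2 (by omega)
  rw [← sub_eq_add_neg, VSqC.qf_sub, ← map_pow] at h3
  have h4 : (2 * VSqC.bet d) ^ n ∈ sqI (n + n) S := Ideal.Quotient.eq_zero_iff_mem.1 h3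
  have h5 : VSqC.bet d ^ n ∈ sqI (n + n) S := by
    have h6 : VSqC.bet d = C (algebraMap ℚ S (1 / ((2 : ℕ) : ℚ))) * (2 * VSqC.bet d) := by
      rw [← mul_assoc]
      have h7 : C (algebraMap ℚ S (1 / ((2 : ℕ) : ℚ))) * (2 : MvPolynomial (Fin (n + n)) S) =
          1 := by
        have h8 : (2 : MvPolynomial (Fin (n + n)) S) = C (((2 : ℕ) : S)) := by
          rw [map_natCast]
          norm_num
        rw [h8, ← map_mul, VSqC.unit_aux 2 two_ne_zero, map_one]
      rw [h7, one_mul]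
    rw [h6, mul_pow]
    exact Ideal.mul_mem_left _ _ h4
  have h6 := (mem_sqI _).1 h5 Finset.univ
  rw [VSqC.coeff_bet_pow] at h6
  have h7 := congrArg (fun x => algebraMap ℚ S (1 / (n.factorial : ℚ)) * x) h6
  simp only [mul_zero] at h7
  rw [← mul_assoc, VSqC.unit_aux _ (Nat.factorial_ne_zero n), one_mul] at h7
  exact h7

end Pool.Agent.MP_6e5bed_ag_KC
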