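import Pool.Agent.Lib.MP_6e5bed_ag_KC.VMain
import Pool.Agent.Lib.MP_6e5bed_ag_KC.VLog
import Pool.Agent.Lib.MP_6e5bed_ag_KC.VExp
import Pool.Agent.Lib.MP_6e5bed_ag_KC.VSqB
import Pool.Agent.Lib.MP_6e5bed_ag_KC.VSqC

set_option autoImplicit false

/-!
# KC, commutative side: the permanent identity in the algebra of classes
-/

namespace Pool.Agent.MP_6e5bed_ag_KC

open scoped TensorProduct
open Equiv Polynomial

universe u v

/-- THE PERMANENT IDENTITY in the algebra of classes. `D` from `exists_log` for `K` of `nilp`;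
`n = 2 Q`, `Q` the number of the injections `Fin r → Fin D` of `fib`. The points
`z = Fin.append x y`, `d i j = D(cl (z i) (z j))`, `l T i = ∑_j D(cl (z i) (cst (c (T j))))`;
`relations`, `log_rel`, `qf_pow_mem`, `permanent_of_qf`. -/
theorem PtCurve.perm_cl {k : Type u} [Field k] [IsAlgClosed k] (C : PtCurve k) :
    ∃ (D : ℚ[X]) (n : ℕ), 0 < n ∧ D.eval 1 = 0 ∧ (derivative D).eval 1 = -1 ∧
      ∀ (R : Type u) [CommRing R] [IsDomain R] [Algebra k R] [Algebra.FiniteType k R]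
        (x y : Fin n → C.Pt R), Function.Injective (Fin.append x y) →
        (∀ i p, Fin.append x y i ≠ C.cst p) →
        ∀ (V : Type v) [AddCommGroup V] [Module ℚ V] (χ : IdFun R V),
          ∑ σ : Perm (Fin n), ∏ a, aeval (C.cl χ (x a) (y (σ a))) D = 0 := by
  obtain ⟨e, r, m, c, hc, _, hF, hT⟩ := C.fib
  obtain ⟨K, hK⟩ := C.nilp
  obtain ⟨D, hD0, hD1, hD⟩ := exists_log.{u} K
  have hQ : 0 < Fintype.card (Fin r ↪ Fin m) := by
    obtain ⟨T, _⟩ := hT 0 (fun i => Fin.elim0 i)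
    exact Fintype.card_pos_iff.2 ⟨T⟩
  obtain ⟨n, hn⟩ : ∃ n, n = 2 * Fintype.card (Fin r ↪ Fin m) := ⟨_, rfl⟩
  refine ⟨D, n, by omega, hD0, hD1, ?_⟩
  intro R _ _ _ _ x y hinj hcst V _ _ χ
  obtain ⟨z, hz⟩ : ∃ z : Fin (n + n) → C.Pt R, z = Fin.append x y := ⟨_, rfl⟩
  rw [← hz] at hinj hcst
  have hcl : ∀ a b : C.Pt R, a ≠ b → IsNilpotent (aeval (C.cl χ a b) D) ∧
      IsNilpotent.exp (-(aeval (C.cl χ a b) D)) = C.cl χ a b := fun a b hab =>
    hD χ.Cl (C.cl χ a b) (hK R V χ a b hab)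
  have hrel : ∀ M : Finset (Fin (n + n)), ∏ T : Fin r ↪ Fin m,
      ((∑ j ∈ M, ∑ i ∈ M.filter (· < j), aeval (C.cl χ (z i) (z j)) D) +
        ∑ i ∈ M, ∑ j, aeval (C.cl χ (z i) (C.cst (c (T j)))) D) = 0 := by
    intro M
    refine log_rel (fun i j => C.cl χ (z i) (z j)) (fun i j => aeval (C.cl χ (z i) (z j)) D)
      (fun (T : Fin r ↪ Fin m) i => ∏ j, C.cl χ (z i) (C.cst (c (T j))))
      (fun (T : Fin r ↪ Fin m) i => ∑ j, aeval (C.cl χ (z i) (C.cst (c (T j)))) D)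
      (fun i j hij => hcl _ _ fun h => hij.ne (hinj h)) (fun T i => ?_) ?_
    · have h1 := exp_sum Finset.univ (fun j : Fin r => aeval (C.cl χ (z i) (C.cst (c (T j)))) D)
        (fun j _ => (hcl _ _ (hcst i _)).1)
      refine ⟨h1.1, h1.2.trans (Finset.prod_congr rfl fun j _ => ?_)⟩
      exact (hcl _ _ (hcst i _)).2
    · exact C.relations χ c hc hF hT z hinj hcst M
  have h2 := qf_pow_mem (fun i j => aeval (C.cl χ (z i) (z j)) D)
    (fun (T : Fin r ↪ Fin m) i => ∑ j, aeval (C.cl χ (z i) (C.cst (c (T j)))) D) hrel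
  have h3 := permanent_of_qf (fun i j => aeval (C.cl χ (z i) (z j)) D) h2 (by omega)
  rw [← h3]
  refine Finset.sum_congr rfl fun σ _ => Finset.prod_congr rfl fun a _ => ?_
  rw [hz, Fin.append_left, Fin.append_right]

end Pool.Agent.MP_6e5bed_ag_KC
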