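import Pool.Agent.Lib.MP_6e5bed_ag_KC.Defs

set_option autoImplicit false

/-!
# KC, commutative side: the points of a pointed curve, orders of poles, colengths
-/

namespace Pool.Agent.MP_6e5bed_ag_KC

open scoped TensorProduct

universe u v

variable {k : Type u} [Field k]

/-- The points of the affine curve with values in `R`. -/
abbrev PtCurve.Pt (C : PtCurve k) (R : Type u) [CommRing R] [Algebra k R] : Type u :=
  C.B →ₐ[k] R

/-- The constant point. -/
noncomputable def PtCurve.cst (C : PtCurve k) {R : Type u} [CommRing R] [Algebra k R]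
    (p : C.Pt k) : C.Pt R := (Algebra.ofId k R).comp p

/-- The maximal ideal of a point. -/
def PtCurve.mI (C : PtCurve k) (p : C.Pt k) : Ideal C.B := RingHom.ker p

variable (C : PtCurve k)

namespace VPt

theorem mem_mI {C : PtCurve k} {p : C.Pt k} {b : C.B} : b ∈ C.mI p ↔ p b = 0 := Iff.rfl

theorem sub_mem {C : PtCurve k} (p : C.Pt k) (b : C.B) :
    b - algebraMap k C.B (p b) ∈ C.mI p := by
  rw [mem_mI, map_sub, p.commutes, Algebra.algebraMap_self, RingHom.id_apply, sub_self]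

theorem maximal {C : PtCurve k} (p : C.Pt k) : (C.mI p).IsMaximal := by
  refine RingHom.ker_isMaximal_of_surjective (p : C.B →+* k) (fun c => ⟨algebraMap k C.B c, ?_⟩)
  exact p.commutes c

theorem ne_bot {C : PtCurve k} (p : C.Pt k) : C.mI p ≠ ⊥ := by
  intro h
  have hinj : Function.Injective p := by
    rw [injective_iff_map_eq_zero]
    intro b hb
    have h1 : b ∈ C.mI p := hb
    rw [h] at h1
    exact h1
  have h1 : ∀ j, Module.finrank k (C.F j) ≤ 1 := by
    intro j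
    have h2 := LinearMap.finrank_le_finrank_of_injective
      (f := p.toLinearMap ∘ₗ (C.F j).subtype) (hinj.comp Subtype.val_injective)
    rwa [Module.finrank_self] at h2
  have h2 := C.finrank (C.j₀ + C.g.toNat + 1) (by omega)
  have h3 := h1 (C.j₀ + C.g.toNat + 1)
  push_cast at h2
  omega

theorem inj {C : PtCurve k} {p q : C.Pt k} (h : C.mI p = C.mI q) : p = q := by
  refine AlgHom.ext (fun b => ?_)
  have h1 := sub_mem p b
  rw [h, mem_mI, map_sub, q.commutes, Algebra.algebraMap_self, RingHom.id_apply,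
    sub_eq_zero] at h1
  exact h1.symm

end VPt

/-- LOCAL PARAMETERS. `B` is a Dedekind domain: take `g ∈ m \ m^2` (`m ≠ m^2`, as `m ≠ 0`: otherwise
`B = k`, which contradicts `finrank` for large `j`), `(g) = m c` with `c ⊄ m`, `s ∈ c \ m`;
then `s f ∈ m c = (g)` for `f ∈ m` (the same `s` for all `f`). -/
theorem PtCurve.param (p : C.Pt k) : ∃ g : C.B, p g = 0 ∧ ∃ s : C.B, p s ≠ 0 ∧
    ∀ f : C.B, p f = 0 → ∃ h : C.B, s * f = h * g := by
  have h0 := VPt.ne_bot p
  have hm := VPt.maximal p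
  obtain ⟨g, hg, hg'⟩ := Ideal.exists_mem_pow_notMem_pow_succ (C.mI p) h0 hm.ne_top 1
  rw [pow_one] at hg
  rw [one_add_one_eq_two, pow_two] at hg'
  have hd : C.mI p ∣ Ideal.span {g} := by
    rw [Ideal.dvd_iff_le, Ideal.span_singleton_le_iff_mem]
    exact hg
  obtain ⟨c, hc⟩ := hd
  have hcm : ¬ c ≤ C.mI p := by
    intro h
    apply hg'
    have h1 : g ∈ Ideal.span {g} := Ideal.mem_span_singleton_self g
    rw [hc] at h1
    exact Ideal.mul_mono_right h h1
  obtain ⟨s, hs, hs'⟩ := Set.not_subset.1 hcm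
  refine ⟨g, hg, s, hs', fun f hf => ?_⟩
  have h1 : s * f ∈ Ideal.span {g} := by
    rw [hc, mul_comm s f]
    exact Ideal.mul_mem_mul hf hs
  obtain ⟨h, hh⟩ := Ideal.mem_span_singleton'.1 h1
  exact ⟨h, hh.symm⟩

/-- For an ideal `a ≠ 0` and a point `p`, `a / a m_p` is a line: there is `f₀ ∈ a` such that
`a = k f₀ + a m_p`. (Dedekind: `f₀ ∈ a \ a m_p`, `(f₀) + a m_p = a ((f₀) a⁻¹ + m_p) = a`, and
`b f₀ = p(b) f₀ + (b - p(b)) f₀`.) Also `a m_p ≠ a`. -/
theorem PtCurve.line {a : Ideal C.B} (ha : a ≠ ⊥) (p : C.Pt k) :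
    a * C.mI p ≠ a ∧ ∃ f₀ ∈ a, ∀ f ∈ a, ∃ c : k, f - c • f₀ ∈ a * C.mI p := by
  have hm := VPt.maximal p
  have h1 : a * C.mI p ≠ a := by
    intro h
    have h2 : C.mI p = 1 := (mul_eq_left₀ ha).1 h
    exact hm.ne_top (h2.trans Ideal.one_eq_top)
  refine ⟨h1, ?_⟩
  have h2 : ¬ a ≤ a * C.mI p := fun h => h1 (le_antisymm Ideal.mul_le_left h)
  obtain ⟨f₀, hf, hf'⟩ := Set.not_subset.1 h2
  have hd : a ∣ Ideal.span {f₀} := by
    rw [Ideal.dvd_iff_le, Ideal.span_singleton_le_iff_mem]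
    exact hf
  obtain ⟨c, hc⟩ := hd
  have hcm : ¬ c ≤ C.mI p := by
    intro h
    apply hf'
    have h3 : f₀ ∈ Ideal.span {f₀} := Ideal.mem_span_singleton_self f₀
    rw [hc] at h3
    exact Ideal.mul_mono_right h h3
  have h3 : c ⊔ C.mI p = ⊤ := by
    rw [sup_comm]
    refine hm.out.2 _ (lt_of_le_of_ne le_sup_left fun h => hcm ?_)
    rw [h]
    exact le_sup_right
  have h4 : Ideal.span {f₀} ⊔ a * C.mI p = a := by
    rw [hc, ← Ideal.mul_sup, h3, Ideal.mul_top]
  refine ⟨f₀, hf, fun f hfa => ?_⟩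
  rw [← h4] at hfa
  obtain ⟨y, hy, z, hz, rfl⟩ := Submodule.mem_sup.1 hfa
  obtain ⟨b, rfl⟩ := Ideal.mem_span_singleton'.1 hy
  refine ⟨p b, ?_⟩
  have h5 : b * f₀ + z - p b • f₀ = f₀ * (b - algebraMap k C.B (p b)) + z := by
    rw [Algebra.smul_def]
    ring
  rw [h5]
  exact Ideal.add_mem _ (Ideal.mul_mem_mul hf (VPt.sub_mem p b)) hz

/-- For distinct points `p_l`, `⋂ a m_{p_l} = a ∏ m_{p_l}` (Dedekind). -/
theorem PtCurve.inter {a : Ideal C.B} {ι : Type} (s : Finset ι) (p : ι → C.Pt k)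
    (hp : Set.InjOn p s) {f : C.B} (hf : f ∈ a) (h : ∀ l ∈ s, f ∈ a * C.mI (p l)) :
    f ∈ a * ∏ l ∈ s, C.mI (p l) := by
  by_cases ha : a = ⊥
  · rw [ha, Submodule.mem_bot] at hf
    rw [hf]
    exact Ideal.zero_mem _
  · have hd : a ∣ Ideal.span {f} := by
      rw [Ideal.dvd_iff_le, Ideal.span_singleton_le_iff_mem]
      exact hf
    obtain ⟨c, hc⟩ := hd
    have h1 : ∀ l ∈ s, C.mI (p l) ∣ c := by
      intro l hl
      rw [← mul_dvd_mul_iff_left (show a ≠ 0 from ha), ← hc, Ideal.dvd_iff_le,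
        Ideal.span_singleton_le_iff_mem]
      exact h l hl
    have h2 : ∏ l ∈ s, C.mI (p l) ∣ c := by
      refine Finset.prod_dvd_of_coprime (fun i hi j hj hij => ?_) h1
      change IsCoprime (C.mI (p i)) (C.mI (p j))
      rw [Ideal.isCoprime_iff_sup_eq]
      exact Ideal.IsMaximal.coprime_of_ne (VPt.maximal _) (VPt.maximal _)
        fun he => hij (hp hi hj (VPt.inj he))
    have h3 : a * ∏ l ∈ s, C.mI (p l) ∣ Ideal.span {f} := by
      rw [hc]
      exact mul_dvd_mul_left a h2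
    rw [Ideal.dvd_iff_le, Ideal.span_singleton_le_iff_mem] at h3
    exact h3

end Pool.Agent.MP_6e5bed_ag_KC
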