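import Pool.Agent.Lib.MP_6e5bed_ag_KC.VPt

set_option autoImplicit false

/-!
# KC, commutative side: orders of poles and colengths
-/

namespace Pool.Agent.MP_6e5bed_ag_KC

open scoped TensorProduct

universe u v

variable {k : Type u} [Field k] (C : PtCurve k)

namespace VPtB

variable {C}

/-- the quotient map on `F j` -/
noncomputable def LL (C : PtCurve k) (f : C.B) (j : ℕ) : C.F j →ₗ[k] (C.B ⧸ Ideal.span {f}) :=
  (Ideal.Quotient.mkₐ k (Ideal.span {f})).toLinearMap.domRestrict (C.F j)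

theorem LL_apply (f : C.B) (j : ℕ) (y : C.F j) :
    LL C f j y = Ideal.Quotient.mk (Ideal.span {f}) (y : C.B) := rfl

theorem exists_ord {f : C.B} (hf : f ≠ 0) {j : ℕ} (h : f ∈ C.F j) :
    ∃ e ≤ j, f ∈ C.F e ∧ ∀ i b, f * b ∈ C.F (e + i) → b ∈ C.F i := by
  classical
  have hex : ∃ e, f ∈ C.F e := ⟨j, h⟩
  refine ⟨Nat.find hex, Nat.find_min' hex h, Nat.find_spec hex, ?_⟩
  intro i b hb
  by_contra hbi
  rcases Nat.eq_zero_or_pos (Nat.find hex) with h0 | h0
  · have h1 := Nat.find_spec hex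
    rw [h0] at h1 hb
    obtain ⟨c, hc⟩ := (C.mem_zero f).1 h1
    have hc0 : c ≠ 0 := by
      rintro rfl
      rw [map_zero] at hc
      exact hf hc.symm
    apply hbi
    have h2 : b = c⁻¹ • (f * b) := by
      rw [← hc, ← Algebra.smul_def, smul_smul, inv_mul_cancel₀ hc0, one_smul]
    rw [h2]
    rw [zero_add] at hb
    exact (C.F i).smul_mem _ hb
  · have h1 : f ∉ C.F (Nat.find hex - 1) := Nat.find_min hex (by omega)
    have h2 := C.ord_mul h1 hbi
    have h3 : Nat.find hex - 1 + i + 1 = Nat.find hex + i := by omega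
    rw [h3] at h2
    exact h2 hb

/-- multiplication by `f` -/
noncomputable def mm {f : C.B} {e : ℕ} (he : f ∈ C.F e) (i : ℕ) : C.F i →ₗ[k] C.F (e + i) where
  toFun b := ⟨f * b, C.mul_mem he b.2⟩
  map_add' a b := by
    apply Subtype.ext
    simp [mul_add]
  map_smul' a b := by
    apply Subtype.ext
    simp

theorem finrank_LL {f : C.B} (hf : f ≠ 0) {e : ℕ} (he : f ∈ C.F e)
    (h : ∀ i b, f * b ∈ C.F (e + i) → b ∈ C.F i) {i : ℕ} (hi : C.j₀ ≤ i) :
    Module.finrank k (LinearMap.range (LL C f (e + i))) = e := by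
  have hm : Function.Injective (mm he i) := by
    intro a b hab
    have h1 : f * (a : C.B) = f * b := congrArg Subtype.val hab
    exact Subtype.ext (mul_left_cancel₀ hf h1)
  have hk : LinearMap.ker (LL C f (e + i)) = LinearMap.range (mm he i) := by
    ext y
    rw [LinearMap.mem_ker, LL_apply, Ideal.Quotient.eq_zero_iff_mem, Ideal.mem_span_singleton',
      LinearMap.mem_range]
    constructor
    · rintro ⟨b, hb⟩
      have hbi : b ∈ C.F i := by
        refine h i b ?_
        rw [mul_comm, hb]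
        exact y.2
      refine ⟨⟨b, hbi⟩, Subtype.ext ?_⟩
      change f * b = y
      rw [mul_comm, hb]
    · rintro ⟨b, rfl⟩
      exact ⟨b, mul_comm _ _⟩
  have h1 := LinearMap.finrank_range_add_finrank_ker (LL C f (e + i))
  rw [hk, LinearMap.finrank_range_of_inj hm] at h1
  have h2 := C.finrank i hi
  have h3 := C.finrank (e + i) (by omega)
  push_cast at h3
  omega

theorem range_LL {f : C.B} (hf : f ≠ 0) {e : ℕ} (he : f ∈ C.F e)
    (h : ∀ i b, f * b ∈ C.F (e + i) → b ∈ C.F i) {i : ℕ} (hi : C.j₀ ≤ i) :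
    LinearMap.range (LL C f (e + i)) = ⊤ := by
  rw [eq_top_iff]
  rintro x -
  obtain ⟨b, rfl⟩ := Ideal.Quotient.mk_surjective x
  obtain ⟨j', hj'⟩ := C.exhaust b
  have h1 : LinearMap.range (LL C f (e + i)) ≤ LinearMap.range (LL C f (e + (i + j'))) := by
    rintro _ ⟨y, rfl⟩
    exact ⟨⟨y, C.mono (by omega) y.2⟩, rfl⟩
  have h2 : LinearMap.range (LL C f (e + i)) = LinearMap.range (LL C f (e + (i + j'))) := by
    refine Submodule.eq_of_le_of_finrank_eq h1 ?_
    rw [finrank_LL hf he h hi, finrank_LL hf he h (by omega)]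
  rw [h2]
  exact ⟨⟨b, C.mono (by omega) hj'⟩, rfl⟩

end VPtB

/-- If `f ≠ 0` is in `F j` then `dim B / (f) ≤ j`: let `e ≤ j` be the least number with `f ∈ F e`.
Then `f B ∩ F (i + e) = f (F i)` (`ord_mul`), so `F (i + e) / f (F i)` has dimension `e` for
`i ≥ j₀`, and `B / f B` is the increasing union of these spaces. -/
theorem PtCurve.finite_quot {f : C.B} (hf : f ≠ 0) {j : ℕ} (h : f ∈ C.F j) :
    Module.Finite k (C.B ⧸ Ideal.span {f}) ∧
      Module.finrank k (C.B ⧸ Ideal.span {f}) ≤ j := by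
  obtain ⟨e, hej, he, h'⟩ := VPtB.exists_ord hf h
  have h1 := VPtB.range_LL hf he h' (le_refl C.j₀)
  have h2 := VPtB.finrank_LL hf he h' (le_refl C.j₀)
  refine ⟨Module.Finite.of_surjective (VPtB.LL C f (e + C.j₀)) (LinearMap.range_eq_top.1 h1), ?_⟩
  rw [h1, finrank_top] at h2
  omega

/-- With `e` as in `finite_quot`, `F (i + e)` maps onto `B / (f)` for `i ≥ j₀`: every element of `B`
is congruent modulo `f` to an element of `F (i + e)`. (`F (i + e) / f (F i) → B / (f)` is injective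
between spaces of the same dimension `e`.) Stated with `j ≥ e` in place of `e`. -/
theorem PtCurve.surj_quot {f : C.B} (hf : f ≠ 0) {j : ℕ} (h : f ∈ C.F j) {i : ℕ}
    (hi : C.j₀ ≤ i) (b : C.B) : ∃ b' ∈ C.F (i + j), b - b' ∈ Ideal.span {f} := by
  obtain ⟨e, hej, he, h'⟩ := VPtB.exists_ord hf h
  have h1 := VPtB.range_LL hf he h' hi
  have h2 : Ideal.Quotient.mk (Ideal.span {f}) b ∈ LinearMap.range (VPtB.LL C f (e + i)) := by
    rw [h1]
    exact Submodule.mem_top
  obtain ⟨y, hy⟩ := h2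
  refine ⟨y, C.mono (by omega) y.2, ?_⟩
  rw [VPtB.LL_apply] at hy
  rw [← Ideal.Quotient.eq]
  exact hy.symm

end Pool.Agent.MP_6e5bed_ag_KC
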