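import Mathlib

set_option autoImplicit false

/-!
# KC, commutative side: quadratic forms modulo squares
-/

namespace Pool.Agent.MP_6e5bed_ag_KC

open MvPolynomial

universe u

variable {S : Type u} [CommRing S]

/-- The quadratic form `∑_{i < j} d_{ij} X_i X_j`. -/
noncomputable def qf {N : ℕ} (d : Fin N → Fin N → S) : MvPolynomial (Fin N) S :=
  ∑ j, ∑ i ∈ Finset.Iio j, C (d i j) * X i * X j

/-- The exponent of the squarefree monomial `∏_{i ∈ M} X_i`. -/
noncomputable def sqf {N : ℕ} (M : Finset (Fin N)) : Fin N →₀ ℕ :=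
  ∑ i ∈ M, Finsupp.single i 1

/-- The ideal generated by the squares of the variables. -/
noncomputable def sqI (N : ℕ) (S : Type u) [CommRing S] : Ideal (MvPolynomial (Fin N) S) :=
  Ideal.span (Set.range fun i => X i ^ 2)

theorem VSq.sqf_apply {N : ℕ} (M : Finset (Fin N)) (i : Fin N) :
    sqf M i = if i ∈ M then 1 else 0 := by
  unfold sqf
  rw [Finsupp.finsetSum_apply]
  simp only [Finsupp.single_apply]
  rw [Finset.sum_ite_eq' M i]

theorem VSq.eq_sqf {N : ℕ} {m : Fin N →₀ ℕ} (h : ∀ i, m i < 2) : m = sqf m.support := by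
  ext i
  rw [VSq.sqf_apply]
  have h1 := h i
  by_cases h2 : m i = 0
  · rw [if_neg (by rw [Finsupp.mem_support_iff]; exact not_not.2 h2), h2]
  · rw [if_pos (Finsupp.mem_support_iff.2 h2)]
    omega

/-- A polynomial is in the ideal of the squares if and only if its squarefree coefficients
vanish. -/
theorem mem_sqI {N : ℕ} (p : MvPolynomial (Fin N) S) :
    p ∈ sqI N S ↔ ∀ M : Finset (Fin N), coeff (sqf M) p = 0 := by
  have h0 : sqI N S = Ideal.span ((fun s : Fin N →₀ ℕ => monomial s (1 : S)) ''
      Set.range fun i : Fin N => Finsupp.single i 2) := by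
    unfold sqI
    rw [← Set.range_comp]
    congr 2
    funext i
    rw [X_pow_eq_monomial]
    rfl
  rw [h0, mem_ideal_span_monomial_image]
  constructor
  · intro h M
    by_contra hM
    obtain ⟨si, ⟨i, rfl⟩, hi⟩ := h (sqf M) (mem_support_iff.2 hM)
    have h1 := hi i
    simp only [Finsupp.single_eq_same] at h1
    rw [VSq.sqf_apply] at h1
    split_ifs at h1 <;> omega
  · intro h m hm
    by_contra hcon
    have h1 : ∀ i, m i < 2 := by
      intro i
      by_contra h2
      refine hcon ⟨Finsupp.single i 2, ⟨i, rfl⟩, ?_⟩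
      rw [Finsupp.single_le_iff]
      omega
    rw [mem_support_iff, VSq.eq_sqf h1] at hm
    exact hm (h _)

/-- INCLUSION-EXCLUSION. If a polynomial `p` of total degree at most `|M|` vanishes at the indicator
functions of all subsets of `M`, then the coefficient of `∏_{i ∈ M} X_i` vanishes: it is
`∑_{M' ⊆ M} (-1)^{|M \ M'|} p(1_{M'})`, since for a monomial `m` this sum is `1` if the support of
`m` is `M` and `0` otherwise, and a monomial of degree `≤ |M|` with support `M` is `sqf M`. -/
theorem coeff_sqf_of_eval {N : ℕ} (p : MvPolynomial (Fin N) S) (M : Finset (Fin N))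
    (hp : p.totalDegree ≤ M.card)
    (h : ∀ M' ⊆ M, eval (fun i => if i ∈ M' then (1 : S) else 0) p = 0) :
    coeff (sqf M) p = 0 := by
  classical
  have key : ∀ m : Fin N →₀ ℕ, (∑ K ∈ M.powerset, (-1 : S) ^ K.card *
      ∏ i, (if i ∈ M \ K then (1 : S) else 0) ^ m i) = if m.support = M then 1 else 0 := by
    intro m
    have h1 : ∀ K ∈ M.powerset, (∏ i, (if i ∈ M \ K then (1 : S) else 0) ^ m i) =
        if m.support ⊆ M ∧ K ⊆ M \ m.support then 1 else 0 := by
      intro K hK
      rw [Finset.mem_powerset] at hK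
      split_ifs with h2
      · refine Finset.prod_eq_one fun i _ => ?_
        by_cases h3 : m i = 0
        · rw [h3, pow_zero]
        · have h4 : i ∈ m.support := Finsupp.mem_support_iff.2 h3
          rw [if_pos, one_pow]
          rw [Finset.mem_sdiff]
          exact ⟨h2.1 h4, fun h5 => (Finset.mem_sdiff.1 (h2.2 h5)).2 h4⟩
      · have h3 : ∃ i, i ∈ m.support ∧ i ∉ M \ K := by
          by_contra h4
          push Not at h4
          apply h2
          refine ⟨fun i hi => (Finset.mem_sdiff.1 (h4 i hi)).1, fun i hi => ?_⟩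
          rw [Finset.mem_sdiff]
          exact ⟨hK hi, fun h5 => (Finset.mem_sdiff.1 (h4 i h5)).2 hi⟩
        obtain ⟨i, hi, hi'⟩ := h3
        refine Finset.prod_eq_zero (Finset.mem_univ i) ?_
        rw [if_neg hi', zero_pow (Finsupp.mem_support_iff.1 hi)]
    rw [Finset.sum_congr rfl fun K hK => by rw [h1 K hK]]
    by_cases hs : m.support ⊆ M
    · have h2 : (∑ K ∈ M.powerset, (-1 : S) ^ K.card *
          if m.support ⊆ M ∧ K ⊆ M \ m.support then (1 : S) else 0) =
          ∑ K ∈ (M \ m.support).powerset, (-1 : S) ^ K.card := by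
        symm
        refine Finset.sum_subset_zero_on_sdiff
          (Finset.powerset_mono.2 Finset.sdiff_subset) (fun K hK => ?_) (fun K hK => ?_)
        · rw [Finset.mem_sdiff, Finset.mem_powerset, Finset.mem_powerset] at hK
          rw [if_neg (fun h3 => hK.2 h3.2), mul_zero]
        · rw [Finset.mem_powerset] at hK
          rw [if_pos ⟨hs, hK⟩, mul_one]
      rw [h2]
      have h3 := Finset.sum_powerset_neg_one_pow_card (x := M \ m.support)
      have h4 : (∑ K ∈ (M \ m.support).powerset, (-1 : S) ^ K.card) =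
          ((∑ K ∈ (M \ m.support).powerset, (-1 : ℤ) ^ K.card : ℤ) : S) := by
        push_cast
        rfl
      rw [h4, h3]
      by_cases h5 : m.support = M
      · rw [if_pos (by rw [h5, Finset.sdiff_self]), if_pos h5]
        simp
      · rw [if_neg, if_neg h5]
        · simp
        · intro h6
          rw [Finset.sdiff_eq_empty_iff_subset] at h6
          exact h5 (Finset.Subset.antisymm hs h6)
    · have h6 : ¬ m.support = M := fun h5 => hs (by rw [h5])
      rw [if_neg h6]
      refine Finset.sum_eq_zero fun K _ => ?_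
      rw [if_neg (fun h5 => hs h5.1), mul_zero]
  have h1 : ∑ K ∈ M.powerset, (-1 : S) ^ K.card *
      eval (fun i => if i ∈ M \ K then (1 : S) else 0) p = 0 :=
    Finset.sum_eq_zero fun K _ => by rw [h (M \ K) Finset.sdiff_subset, mul_zero]
  simp only [eval_eq', Finset.mul_sum] at h1
  rw [Finset.sum_comm] at h1
  have h2 : ∀ m ∈ p.support, (∑ K ∈ M.powerset, (-1 : S) ^ K.card *
      (coeff m p * ∏ i, (if i ∈ M \ K then (1 : S) else 0) ^ m i)) =
      if m = sqf M then coeff m p else 0 := by
    intro m hm
    have h3 : (∑ K ∈ M.powerset, (-1 : S) ^ K.card *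
        (coeff m p * ∏ i, (if i ∈ M \ K then (1 : S) else 0) ^ m i)) =
        coeff m p * ∑ K ∈ M.powerset, (-1 : S) ^ K.card *
          ∏ i, (if i ∈ M \ K then (1 : S) else 0) ^ m i := by
      rw [Finset.mul_sum]
      exact Finset.sum_congr rfl fun K _ => by ring
    rw [h3, key m]
    by_cases h4 : m.support = M
    · have h5 : m = sqf M := by
        have h6 : (m.sum fun _ e => e) ≤ M.card := (le_totalDegree hm).trans hp
        have h7 : ∑ i ∈ M, m i ≤ ∑ i ∈ M, 1 := by
          rw [Finset.sum_const, smul_eq_mul, mul_one, ← h4]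
          rw [← h4] at h6
          exact h6
        have h8 : ∀ i ∈ M, 1 ≤ m i := by
          intro i hi
          rw [← h4, Finsupp.mem_support_iff] at hi
          omega
        have h9 : ∑ i ∈ M, 1 = ∑ i ∈ M, m i := le_antisymm (Finset.sum_le_sum h8) h7
        have h10 := (Finset.sum_eq_sum_iff_of_le h8).1 h9
        rw [← h4] at h10 ⊢
        refine VSq.eq_sqf fun i => ?_
        by_cases hi : i ∈ m.support
        · rw [← h10 i hi]
          omega
        · rw [Finsupp.notMem_support_iff.1 hi]
          omega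
      rw [if_pos h4, if_pos h5, mul_one]
    · rw [if_neg h4, if_neg, mul_zero]
      rintro rfl
      apply h4
      ext i
      rw [Finsupp.mem_support_iff, VSq.sqf_apply]
      split_ifs with h5
      · simp [h5]
      · simp [h5]
  rw [Finset.sum_congr rfl h2, Finset.sum_ite_eq'] at h1
  by_contra hcon
  rw [if_pos (mem_support_iff.2 hcon)] at h1
  exact hcon h1

end Pool.Agent.MP_6e5bed_ag_KC
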