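import Pool.Agent.Lib.MP_6e5bed_ag_KC.VLoc

set_option autoImplicit false

/-!
# KC, commutative side: the local step (Nakayama)
-/

namespace Pool.Agent.MP_6e5bed_ag_KC

open scoped TensorProduct

universe u v

variable {k : Type u} [Field k] (C : PtCurve k) {Λ : Type u} [CommRing Λ] [Algebra k Λ]

namespace VStep

theorem isUnit_of_ne [IsLocalRing Λ] (ρ : Λ →ₐ[k] k) {u : Λ} (hu : ρ u ≠ 0) : IsUnit u := by
  by_contra h
  have h1 : (RingHom.ker ρ.toRingHom).IsMaximal := by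
    refine RingHom.ker_isMaximal_of_surjective _ fun c => ⟨algebraMap k Λ c, ?_⟩
    exact ρ.commutes c
  have h2 := IsLocalRing.eq_maximalIdeal h1
  have h3 : u ∈ IsLocalRing.maximalIdeal Λ := (IsLocalRing.mem_maximalIdeal u).2 h
  rw [← h2] at h3
  exact hu h3

theorem mem_max [IsLocalRing Λ] (ρ : Λ →ₐ[k] k) {u : Λ} (hu : ρ u = 0) :
    u ∈ IsLocalRing.maximalIdeal Λ := by
  rw [IsLocalRing.mem_maximalIdeal, mem_nonunits_iff]
  intro h
  have h1 := h.map ρ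
  rw [hu] at h1
  exact not_isUnit_zero h1

variable {C}

theorem ev_one (z : C.Pt Λ) (l : Λ) : C.ev z ((1 : C.B) ⊗ₜ[k] l) = l := by
  rw [C.ev_tmul, map_one, one_mul]

theorem ev_del (z w : C.Pt Λ) (g : C.B) : C.ev z (C.del w g) = z g - w g := by
  unfold PtCurve.del
  rw [map_sub, ev_one, C.ev_tmul, mul_one]

/-- `X - 1 ⊗ ev z X` -/
theorem sub_mem (z : C.Pt Λ) (X : C.B ⊗[k] Λ) :
    X - (1 : C.B) ⊗ₜ[k] C.ev z X ∈ C.gI z := by
  change C.ev z (X - (1 : C.B) ⊗ₜ[k] C.ev z X) = 0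
  rw [map_sub, ev_one, sub_self]

theorem del_add (w : C.Pt Λ) (f f' : C.B) : C.del w (f + f') = C.del w f + C.del w f' := by
  unfold PtCurve.del
  rw [map_add, TensorProduct.add_tmul, TensorProduct.tmul_add, add_sub_add_comm]

theorem del_alg (w : C.Pt Λ) (c : k) : C.del w (algebraMap k C.B c) = 0 := by
  unfold PtCurve.del
  rw [AlgHom.commutes, Algebra.algebraMap_eq_smul_one, Algebra.algebraMap_eq_smul_one,
    TensorProduct.smul_tmul, sub_self]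

theorem del_mul (w : C.Pt Λ) (f f' : C.B) :
    C.del w (f * f') = (f ⊗ₜ[k] (1 : Λ)) * C.del w f' + ((1 : C.B) ⊗ₜ[k] w f') * C.del w f := by
  unfold PtCurve.del
  rw [mul_sub, mul_sub, Algebra.TensorProduct.tmul_mul_tmul, Algebra.TensorProduct.tmul_mul_tmul,
    Algebra.TensorProduct.tmul_mul_tmul, Algebra.TensorProduct.tmul_mul_tmul, map_mul, one_mul,
    one_mul, one_mul, mul_one, mul_one, mul_one, mul_comm (w f') (w f)]
  abel

/-- The case of different points. -/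
theorem case_ne [IsLocalRing Λ] (ρ : Λ →ₐ[k] k) (z w : C.Pt Λ) {g : C.B}
    (hg : ρ (z g) ≠ ρ (w g)) :
    ∀ x ∈ C.gI w, ∃ l : Λ, x - (1 ⊗ₜ l) * C.del w g ∈ C.gI w * C.gI z := by
  intro x hx
  have hu : IsUnit (z g - w g) := by
    refine isUnit_of_ne ρ ?_
    rw [map_sub]
    exact sub_ne_zero.2 hg
  obtain ⟨v, hv⟩ := hu.exists_right_inv
  refine ⟨v * C.ev z x, ?_⟩
  set x' : C.B ⊗[k] Λ := x - (1 ⊗ₜ (v * C.ev z x)) * C.del w g with hx'
  have h1 : x' ∈ C.gI w := _root_.sub_mem hx (Ideal.mul_mem_left _ _ (C.del_mem w g))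
  have h2 : x' ∈ C.gI z := by
    change C.ev z x' = 0
    rw [hx', map_sub, map_mul, ev_one, ev_del]
    calc C.ev z x - v * C.ev z x * (z g - w g) = C.ev z x * (1 - (z g - w g) * v) := by ring
      _ = 0 := by rw [hv, sub_self, mul_zero]
  have h3 : C.del w g - (1 : C.B) ⊗ₜ[k] (z g - w g) ∈ C.gI z := by
    have := sub_mem z (C.del w g)
    rwa [ev_del] at this
  have h4 : ((1 : C.B) ⊗ₜ[k] v) * ((1 : C.B) ⊗ₜ[k] (z g - w g)) = 1 := by
    rw [Algebra.TensorProduct.tmul_mul_tmul, one_mul, mul_comm v, hv]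
    rfl
  have h5 : x' = ((1 : C.B) ⊗ₜ[k] v) *
      (C.del w g * x' - x' * (C.del w g - (1 : C.B) ⊗ₜ[k] (z g - w g))) := by
    calc x' = (((1 : C.B) ⊗ₜ[k] v) * ((1 : C.B) ⊗ₜ[k] (z g - w g))) * x' := by
          rw [h4, one_mul]
      _ = _ := by ring
  rw [h5]
  refine Ideal.mul_mem_left _ _ (_root_.sub_mem ?_ ?_)
  · exact Ideal.mul_mem_mul (C.del_mem w g) h2
  · exact Ideal.mul_mem_mul h1 h3

/-- The case of equal points. -/
theorem case_eq [IsLocalRing Λ] (ρ : Λ →ₐ[k] k) (z w : C.Pt Λ)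
    (hp : ∀ f : C.B, ρ (z f) = ρ (w f)) {g s : C.B} (hg : ρ (z g) = 0) (hs : ρ (z s) ≠ 0)
    (hf : ∀ f : C.B, ρ (z f) = 0 → ∃ h : C.B, s * f = h * g) :
    ∀ x ∈ C.gI w, ∃ l : Λ, x - (1 ⊗ₜ l) * C.del w g ∈ C.gI w * C.gI z := by
  let alg : Algebra Λ (C.B ⊗[k] Λ) :=
    (Algebra.TensorProduct.includeRight : Λ →ₐ[k] C.B ⊗[k] Λ).toRingHom.toAlgebra
  have smul_eq : ∀ (l : Λ) (x : C.B ⊗[k] Λ), l • x = ((1 : C.B) ⊗ₜ[k] l) * x := fun l x => rfl
  obtain ⟨t, ht⟩ := (inferInstance : Algebra.FiniteType k C.B).out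
  let J : Submodule Λ (C.B ⊗[k] Λ) := Submodule.restrictScalars Λ (C.gI w * C.gI z)
  have hJ : ∀ x : C.B ⊗[k] Λ, x ∈ J ↔ x ∈ C.gI w * C.gI z := fun x => Iff.rfl
  let N : Submodule Λ (C.B ⊗[k] Λ) := Submodule.span Λ (C.del w '' (t : Set C.B))
  have hNfg : N.FG := Submodule.fg_span (t.finite_toSet.image _)
  -- multiplication by arbitrary elements
  have hmul : ∀ (a y : C.B ⊗[k] Λ), y ∈ C.gI w → a * y - C.ev z a • y ∈ J := by
    intro a y hy
    have h1 : a * y - C.ev z a • y = y * (a - (1 : C.B) ⊗ₜ[k] C.ev z a) := by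
      rw [smul_eq]
      ring
    rw [hJ, h1]
    exact Ideal.mul_mem_mul hy (sub_mem z a)
  have hmul' : ∀ (T : Submodule Λ (C.B ⊗[k] Λ)), J ≤ T → ∀ (a y : C.B ⊗[k] Λ), y ∈ C.gI w →
      y ∈ T → a * y ∈ T := by
    intro T hT a y hy hyT
    have h1 := hT (hmul a y hy)
    have h2 := T.smul_mem (C.ev z a) hyT
    have h3 := T.add_mem h1 h2
    rwa [sub_add_cancel] at h3
  have hdel : ∀ f : C.B, C.del w f ∈ N ⊔ J := by
    intro f
    have hb : f ∈ Algebra.adjoin k (t : Set C.B) := by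
      rw [ht]
      exact Algebra.mem_top
    induction hb using Algebra.adjoin_induction with
    | mem c hc => exact (le_sup_left : N ≤ N ⊔ J) (Submodule.subset_span ⟨c, hc, rfl⟩)
    | algebraMap r =>
      rw [del_alg]
      exact Submodule.zero_mem _
    | add b c _ _ hb hc =>
      rw [del_add]
      exact Submodule.add_mem _ hb hc
    | mul b c _ _ hb hc =>
      rw [del_mul]
      refine Submodule.add_mem _ (hmul' _ le_sup_right _ _ (C.del_mem w c) hc) ?_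
      exact hmul' _ le_sup_right _ _ (C.del_mem w b) hb
  have hgen : ∀ x ∈ C.gI w, x ∈ N ⊔ J := by
    intro x hx
    rw [C.gI_eq] at hx
    refine (Submodule.span_induction (p := fun x _ => x ∈ C.gI w ∧ x ∈ N ⊔ J) ?_ ?_ ?_ ?_ hx).2
    · rintro _ ⟨f, rfl⟩
      exact ⟨C.del_mem w f, hdel f⟩
    · exact ⟨zero_mem _, Submodule.zero_mem _⟩
    · rintro x y _ _ ⟨h1, h2⟩ ⟨h3, h4⟩
      exact ⟨add_mem h1 h3, Submodule.add_mem _ h2 h4⟩
    · rintro a x _ ⟨h1, h2⟩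
      exact ⟨Ideal.mul_mem_left _ _ h1, hmul' _ le_sup_right _ _ h1 h2⟩
  -- Nakayama
  let P : Submodule Λ (C.B ⊗[k] Λ) := Submodule.span Λ {C.del w g} ⊔ J
  have hJP : J ≤ P := le_sup_right
  have hgP : C.del w g ∈ P := (le_sup_left : _ ≤ P) (Submodule.mem_span_singleton_self _)
  have hmN : ∀ (l : Λ) (y : C.B ⊗[k] Λ), ρ l = 0 → y ∈ N ⊔ J →
      l • y ∈ P ⊔ IsLocalRing.maximalIdeal Λ • N := by
    intro l y hl hy
    obtain ⟨y1, h1, y2, h2, rfl⟩ := Submodule.mem_sup.1 hy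
    rw [smul_add]
    refine Submodule.add_mem _ ?_ ?_
    · exact (le_sup_right : _ ≤ P ⊔ IsLocalRing.maximalIdeal Λ • N)
        (Submodule.smul_mem_smul (mem_max ρ hl) h1)
    · exact (le_sup_left : _ ≤ P ⊔ IsLocalRing.maximalIdeal Λ • N)
        (hJP (J.smul_mem l h2))
  have hNP : N ≤ P := by
    refine Submodule.le_of_le_smul_of_le_jacobson_bot hNfg
      (IsLocalRing.maximalIdeal_le_jacobson ⊥) ?_
    refine Submodule.span_le.2 ?_
    rintro _ ⟨f, -, rfl⟩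
    set f' : C.B := f + algebraMap k C.B (-(ρ (z f))) with hf'
    have h1 : C.del w f' = C.del w f := by rw [hf', del_add, del_alg, add_zero]
    have h2 : ρ (z f') = 0 := by
      rw [hf', map_add, map_add, AlgHom.commutes, AlgHom.commutes]
      exact add_neg_cancel _
    obtain ⟨h, hh⟩ := hf f' h2
    have h3 : (s ⊗ₜ[k] (1 : Λ)) * C.del w f' + (w f') • C.del w s =
        (h ⊗ₜ[k] (1 : Λ)) * C.del w g + (w g) • C.del w h := by
      rw [smul_eq, smul_eq, ← del_mul, ← del_mul, hh]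
    have h4 := hmul (s ⊗ₜ[k] (1 : Λ)) (C.del w f') (C.del_mem w f')
    have h5 := hmul (h ⊗ₜ[k] (1 : Λ)) (C.del w g) (C.del_mem w g)
    rw [C.ev_tmul, mul_one] at h4 h5
    have hJT : J ≤ P ⊔ IsLocalRing.maximalIdeal Λ • N := hJP.trans le_sup_left
    have h6 : z s • C.del w f' ∈ P ⊔ IsLocalRing.maximalIdeal Λ • N := by
      have e : z s • C.del w f' =
          ((h ⊗ₜ[k] (1 : Λ)) * C.del w g - z h • C.del w g) + z h • C.del w g +
            (w g) • C.del w h - (w f') • C.del w s -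
              ((s ⊗ₜ[k] (1 : Λ)) * C.del w f' - z s • C.del w f') := by
        have e1 : (s ⊗ₜ[k] (1 : Λ)) * C.del w f' =
            (h ⊗ₜ[k] (1 : Λ)) * C.del w g + (w g) • C.del w h - (w f') • C.del w s :=
          eq_sub_of_add_eq h3
        rw [e1]
        abel
      rw [e]
      refine Submodule.sub_mem _ (Submodule.sub_mem _ (Submodule.add_mem _
        (Submodule.add_mem _ (hJT h5) ?_) ?_) ?_) (hJT h4)
      · exact (le_sup_left : P ≤ _) (P.smul_mem _ hgP)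
      · exact hmN _ _ (by rw [← hp]; exact hg) (hdel h)
      · exact hmN _ _ (by rw [← hp]; exact h2) (hdel s)
    obtain ⟨v, hv⟩ := (isUnit_of_ne ρ hs).exists_left_inv
    have h7 := Submodule.smul_mem _ v h6
    rw [smul_smul, hv, one_smul, h1] at h7
    exact h7
  intro x hx
  have hxP : x ∈ P := by
    obtain ⟨y1, h1, y2, h2, rfl⟩ := Submodule.mem_sup.1 (hgen x hx)
    exact P.add_mem (hNP h1) (hJP h2)
  obtain ⟨y1, h1, y2, h2, rfl⟩ := Submodule.mem_sup.1 hxP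
  obtain ⟨l, rfl⟩ := Submodule.mem_span_singleton.1 h1
  refine ⟨l, ?_⟩
  rw [← smul_eq, add_sub_cancel_left]
  exact h2

end VStep

/-- THE LOCAL STEP. Modulo `gI w * gI z` every element of `gI w` is a multiple `(1 ⊗ l) ∂ g`,
`∂ g = g ⊗ 1 - 1 ⊗ w(g)`, for a suitable fixed `g ∈ B`.

Proof. Let `p = ρ z`, `q = ρ w`. Note that modulo `gI w * gI z` the element `X · x` (`x ∈ gI w`) is
`(1 ⊗ ev z X) x`, since `X - 1 ⊗ ev z X ∈ gI z`.
Case `p ≠ q`: `g` with `p g ≠ q g`; `u = ev z (∂ g) = z(g) - w(g)` is a unit of `Λ`, as `ρ u ≠ 0`.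
For `x ∈ gI w` put `l = u⁻¹ ev z x`, `x' = x - (1 ⊗ l) ∂ g ∈ gI w ∩ gI z`; and
`x' = (1 ⊗ u⁻¹) (∂ g · x' - (∂ g - 1 ⊗ u) x')` is in `gI w * gI z` (`∂ g ∈ gI w`, `x' ∈ gI z`;
`∂ g - 1 ⊗ u ∈ gI z`, `x' ∈ gI w`).
Case `p = q`: `g, s` as in `param p`. Let `N` be the image of `gI w` in `(B ⊗ Λ) / (gI w * gI z)`, a
`Λ`-module (through `1 ⊗ l`). By `gI_eq` and the remark it is generated over `Λ` by the `∂ f`,
`f ∈ B`, and even by the `∂ b_l` for generators `b_l` of the algebra `B`, since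
`∂ (f f') = (f ⊗ 1) ∂ f' + (1 ⊗ w(f')) ∂ f`. So `N` is finitely generated. For `f ∈ B` let
`f' = f - p(f)` (`∂ f' = ∂ f`), `s f' = h g`. Then
`(s ⊗ 1) ∂ f' + (1 ⊗ w f') ∂ s = ∂ (s f') = ∂ (h g) = (h ⊗ 1) ∂ g + (1 ⊗ w g) ∂ h`, so in `N`
`z(s) ∂ f = z(h) ∂ g + w(g) ∂ h - w(f') ∂ s` with `z(s)` a unit and `w(g), w(f') ∈ 𝔪`. So
`N = Λ ∂ g + 𝔪 N`, and `N = Λ ∂ g` by Nakayama (`Submodule.le_of_le_smul_of_le_jacobson_bot`). -/
theorem PtCurve.gI_step [IsLocalRing Λ] (ρ : Λ →ₐ[k] k) (z w : C.Pt Λ) :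
    ∃ g : C.B, ∀ x ∈ C.gI w, ∃ l : Λ, x - (1 ⊗ₜ l) * C.del w g ∈ C.gI w * C.gI z := by
  by_cases hp : ∀ f : C.B, ρ (z f) = ρ (w f)
  · obtain ⟨g, hg, s, hs, hf⟩ := C.param (ρ.comp z)
    exact ⟨g, VStep.case_eq ρ z w hp hg hs hf⟩
  · push Not at hp
    obtain ⟨g, hg⟩ := hp
    exact ⟨g, VStep.case_ne ρ z w hg⟩

end Pool.Agent.MP_6e5bed_ag_KC
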